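import Mathlib

set_option autoImplicit false

/-!
Two-stage group testing with arithmetic-progression tests: definitions.
-/

namespace Pool.Agent.H6.ApTest

/-- `T` is an arithmetic progression `{a, a+d, ..., a+l d}` contained in `{1, ..., n}`. -/
def IsAP (n : ℕ) (T : Finset ℕ) : Prop :=
  ∃ a d l : ℕ, 1 ≤ a ∧ 1 ≤ d ∧ a + l * d ≤ n ∧
    T = (Finset.range (l + 1)).image (fun i => a + i * d)

/-- The vector of Stage 1 answers: the `i`-th answer says whether `T i` meets `S`. -/
def answers {m : ℕ} (T : Fin m → Finset ℕ) (S : Finset ℕ) : Fin m → Prop :=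
  fun i => ∃ x ∈ T i, x ∈ S

/-- The two-stage procedure with Stage 1 tests `T` and Stage 2 queries `Q v` (chosen as a function
of the Stage 1 answers `v`, at most `C k` many elements of `{1, ..., n}`) determines every
`S ⊆ {1, ..., n}` with at most `k` elements. -/
def Succeeds (n k m : ℕ) (C : ℝ) (T : Fin m → Finset ℕ) (Q : (Fin m → Prop) → Finset ℕ) : Prop :=
  (∀ v, Q v ⊆ Finset.Icc 1 n ∧ ((Q v).card : ℝ) ≤ C * k) ∧
    ∀ S S' : Finset ℕ, S ⊆ Finset.Icc 1 n → S.card ≤ k → S' ⊆ Finset.Icc 1 n → S'.card ≤ k →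
      answers T S = answers T S' → (∀ j ∈ Q (answers T S), j ∈ S ↔ j ∈ S') → S = S'

end Pool.Agent.H6.ApTest
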