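import Mathlib
import Pool.Agent.H6.ApTestDefs

set_option autoImplicit false

namespace Pool.Agent.H6.ApTest

open Finset

/-- Number of small subsets. -/
lemma card_small {α : Type*} [DecidableEq α] (P : Finset α) (K : ℕ) :
    ((P.powerset).filter (fun s => s.card ≤ K)).card ≤ (P.card + 1) ^ K := by
  classical
  have h : ∀ s ∈ (P.powerset).filter (fun s => s.card ≤ K),
      ∃ f : Fin K → Option P, (Finset.univ.filter fun a : P => ∃ i, f i = some a).map
        (Function.Embedding.subtype _) = s := by
    intro s hs
    rw [mem_filter, mem_powerset] at hs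
    obtain ⟨hsP, hsK⟩ := hs
    let e := s.equivFin
    refine ⟨fun i => if h : i.1 < s.card then
      some ⟨(e.symm ⟨i.1, h⟩ : α), hsP (e.symm ⟨i.1, h⟩).2⟩ else none, ?_⟩
    ext a
    simp only [mem_map, mem_filter, mem_univ, true_and, Function.Embedding.coe_subtype]
    constructor
    · rintro ⟨b, ⟨i, hi⟩, rfl⟩
      split_ifs at hi with h
      · have := congrArg Subtype.val (Option.some_injective _ hi)
        rw [← this]
        exact (e.symm ⟨i.1, h⟩).2
    · intro ha
      refine ⟨⟨a, hsP ha⟩, ⟨⟨(e ⟨a, ha⟩).1, lt_of_lt_of_le (e ⟨a, ha⟩).2 hsK⟩, ?_⟩, rfl⟩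
      rw [dif_pos (e ⟨a, ha⟩).2]
      congr 1
      apply Subtype.ext
      simp
  have h2 : ((P.powerset).filter (fun s => s.card ≤ K)).card
      ≤ (Finset.univ : Finset (Fin K → Option P)).card := by
    refine card_le_card_of_surjOn (fun f => (Finset.univ.filter fun a : P =>
      ∃ i, f i = some a).map (Function.Embedding.subtype _)) ?_
    intro s hs
    obtain ⟨f, hf⟩ := h s (by simpa using hs)
    exact ⟨f, by simp, hf⟩
  refine h2.trans (le_of_eq ?_)
  rw [card_univ, Fintype.card_fun, Fintype.card_option, Fintype.card_fin, Fintype.card_coe]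

/-- The reciprocals of the moduli. -/
lemma sum_recip (P : Finset (ℕ × ℕ)) (hP : ∀ p ∈ P, p.1 < p.2) (s m : ℕ) (hs : 1 ≤ s)
    (hm : m ≤ s * s) (hPm : P.card ≤ m) : ∑ p ∈ P, (1 : ℝ) / p.2 ≤ 2 * s := by
  classical
  have hs0 : (0 : ℝ) < s := by exact_mod_cast hs
  rw [← sum_filter_add_sum_filter_not P (fun p => p.2 ≤ s)]
  have h1 : ∑ p ∈ P.filter (fun p => p.2 ≤ s), (1 : ℝ) / p.2 ≤ s := by
    have hsub : P.filter (fun p => p.2 ≤ s) ⊆
        (Icc 1 s).biUnion (fun d => (range d).image (fun a => (a, d))) := by
      intro p hp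
      rw [mem_filter] at hp
      have := hP p hp.1
      rw [mem_biUnion]
      refine ⟨p.2, mem_Icc.mpr ⟨by omega, hp.2⟩, ?_⟩
      rw [mem_image]
      exact ⟨p.1, mem_range.mpr this, rfl⟩
    calc ∑ p ∈ P.filter (fun p => p.2 ≤ s), (1 : ℝ) / p.2
        ≤ ∑ p ∈ (Icc 1 s).biUnion (fun d => (range d).image (fun a => (a, d))), (1 : ℝ) / p.2 :=
          sum_le_sum_of_subset_of_nonneg hsub fun p _ _ => by positivity
      _ ≤ ∑ d ∈ Icc 1 s, ∑ p ∈ (range d).image (fun a => (a, d)), (1 : ℝ) / p.2 := by
          rw [sum_biUnion]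
          intro d _ d' _ hdd
          rw [Function.onFun, disjoint_left]
          intro p hp hp'
          rw [mem_image] at hp hp'
          obtain ⟨u, -, rfl⟩ := hp
          obtain ⟨u', -, hu'⟩ := hp'
          exact hdd (Prod.ext_iff.mp hu').2.symm
      _ ≤ ∑ d ∈ Icc 1 s, (1 : ℝ) := by
          refine sum_le_sum fun d hd => ?_
          rw [sum_image (by intro a _ b _ h; exact (Prod.ext_iff.mp h).1)]
          simp only [sum_const, card_range, nsmul_eq_mul]
          have : (0 : ℝ) < d := by
            have := (mem_Icc.mp hd).1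
            exact_mod_cast this
          rw [mul_one_div, div_self this.ne']
      _ = s := by simp
  have h2 : ∑ p ∈ P.filter (fun p => ¬ p.2 ≤ s), (1 : ℝ) / p.2 ≤ s := by
    calc ∑ p ∈ P.filter (fun p => ¬ p.2 ≤ s), (1 : ℝ) / p.2
        ≤ ∑ p ∈ P.filter (fun p => ¬ p.2 ≤ s), (1 : ℝ) / s := by
          refine sum_le_sum fun p hp => ?_
          rw [mem_filter, not_le] at hp
          have : (s : ℝ) ≤ p.2 := by exact_mod_cast hp.2.le
          exact one_div_le_one_div_of_le hs0 this
      _ ≤ m * (1 / s) := by
          rw [sum_const, nsmul_eq_mul]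
          refine mul_le_mul_of_nonneg_right ?_ (by positivity)
          have := (card_filter_le P (fun p => ¬ p.2 ≤ s)).trans hPm
          exact_mod_cast this
      _ ≤ s := by
          rw [mul_one_div, div_le_iff₀ hs0]
          exact_mod_cast hm
  linarith

/-- Number of elements of a residue class. -/
lemma card_class (n a d : ℕ) (hd : 0 < d) :
    (((Icc 1 n).filter fun x => x % d = a).card : ℝ) ≤ n * (1 / d) + 1 := by
  have h1 : (Icc 1 n).filter (fun x => x % d = a) ⊆ (range (n / d + 1)).image
      (fun q => d * q + a) := by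
    intro x hx
    rw [mem_filter, mem_Icc] at hx
    rw [mem_image]
    refine ⟨x / d, mem_range.mpr (Nat.lt_succ_of_le (Nat.div_le_div_right hx.1.2)), ?_⟩
    have := Nat.div_add_mod x d
    omega
  have h2 := (card_le_card h1).trans card_image_le
  rw [card_range] at h2
  have h3 : ((n / d : ℕ) : ℝ) ≤ n / d := Nat.cast_div_le
  have h4 : (((Icc 1 n).filter fun x => x % d = a).card : ℝ) ≤ ((n / d + 1 : ℕ) : ℝ) := by
    exact_mod_cast h2
  push_cast at h4
  rw [mul_one_div]
  linarith

/-- The main counting inequality. -/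
lemma main_count (n k m s : ℕ) (C : ℝ) (T : Fin m → Finset ℕ) (Q : (Fin m → Prop) → Finset ℕ)
    (hk : 1 ≤ k) (hs : 1 ≤ s) (hms : m ≤ s * s) (hmn : m ≤ n) (hT : ∀ i, IsAP n (T i))
    (h : Succeeds n k m C T Q) :
    (n : ℝ) / 2 ≤ (C * k + 1) * ((m : ℝ) + 1) ^ (4 * s + 4) := by
  classical
  choose a d l ha hd hl hTe using hT
  have hmem : ∀ i x, x ∈ T i ↔ (a i ≤ x ∧ x ≤ a i + l i * d i ∧ x % d i = a i % d i) := by
    intro i x
    rw [hTe i, mem_image]
    constructor
    · rintro ⟨j, hj, rfl⟩
      rw [mem_range] at hj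
      refine ⟨by omega, ?_, ?_⟩
      · have : j * d i ≤ l i * d i := Nat.mul_le_mul_right _ (by omega)
        omega
      · rw [Nat.add_mul_mod_self_right]
    · rintro ⟨h1, h2, h3⟩
      have h4 : d i ∣ x - a i := (Nat.modEq_iff_dvd' h1).mp h3.symm
      obtain ⟨j, hj⟩ := h4
      refine ⟨j, ?_, ?_⟩
      · rw [mem_range]
        by_contra hcon
        have h5 : l i + 1 ≤ j := by omega
        have h6 : d i * (l i + 1) ≤ d i * j := Nat.mul_le_mul_left _ h5
        have h7 : d i * (l i + 1) = l i * d i + d i := by ring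
        have := hd i
        omega
      · have : j * d i = d i * j := mul_comm _ _
        omega
  -- the residue classes
  set P : Finset (ℕ × ℕ) := Finset.univ.image (fun i : Fin m => (a i % d i, d i)) with hPdef
  have hPm : P.card ≤ m := by
    have := card_image_le (s := (Finset.univ : Finset (Fin m)))
      (f := fun i : Fin m => (a i % d i, d i))
    rwa [card_univ, Fintype.card_fin] at this
  have hP : ∀ p ∈ P, p.1 < p.2 := by
    intro p hp
    rw [hPdef, mem_image] at hp
    obtain ⟨i, -, rfl⟩ := hp
    exact Nat.mod_lt _ (hd i)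
  set R : ℕ → Finset (ℕ × ℕ) := fun x => P.filter (fun p => x % p.2 = p.1) with hR
  set K := 4 * s + 2 with hK
  set Good := (Icc 1 n).filter (fun x => (R x).card ≤ K) with hGood
  set Bad := (Icc 1 n).filter (fun x => ¬ (R x).card ≤ K) with hBad
  have hsum : ∑ x ∈ Icc 1 n, ((R x).card : ℝ) ≤ n * (2 * s + 1) := by
    have e1 : ∀ x, ((R x).card : ℝ) = ∑ p ∈ P, if x % p.2 = p.1 then (1 : ℝ) else 0 := by
      intro x
      rw [hR, ← sum_filter, sum_const, nsmul_eq_mul, mul_one]
    simp only [e1]
    rw [sum_comm]
    calc ∑ p ∈ P, ∑ x ∈ Icc 1 n, (if x % p.2 = p.1 then (1 : ℝ) else 0)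
        ≤ ∑ p ∈ P, ((n : ℝ) * (1 / p.2) + 1) := by
          refine sum_le_sum fun p hp => ?_
          rw [← sum_filter, sum_const, nsmul_eq_mul, mul_one]
          exact card_class n p.1 p.2 (by have := hP p hp; omega)
      _ = n * ∑ p ∈ P, (1 : ℝ) / p.2 + P.card := by
          rw [sum_add_distrib, mul_sum]
          simp
      _ ≤ n * (2 * s) + m := by
          refine add_le_add (mul_le_mul_of_nonneg_left (sum_recip P hP s m hs hms hPm)
            (by positivity)) ?_
          exact_mod_cast hPm
      _ ≤ n * (2 * s + 1) := by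
          have : (m : ℝ) ≤ n := by exact_mod_cast hmn
          linarith
  have hbad : (Bad.card : ℝ) ≤ n / 2 := by
    have h1 : ((K : ℝ) + 1) * Bad.card ≤ ∑ x ∈ Icc 1 n, ((R x).card : ℝ) := by
      calc ((K : ℝ) + 1) * Bad.card = ∑ x ∈ Bad, ((K : ℝ) + 1) := by
            rw [sum_const, nsmul_eq_mul]; ring
        _ ≤ ∑ x ∈ Bad, ((R x).card : ℝ) := by
            refine sum_le_sum fun x hx => ?_
            rw [hBad, mem_filter, not_le] at hx
            exact_mod_cast hx.2
        _ ≤ _ := sum_le_sum_of_subset_of_nonneg (filter_subset _ _) fun x _ _ => by positivity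
    have h2 := h1.trans hsum
    have hKr : (K : ℝ) = 4 * s + 2 := by rw [hK]; push_cast; ring
    rw [hKr] at h2
    have hs0 : (0 : ℝ) ≤ s := by positivity
    have hn0 : (0 : ℝ) ≤ n := by positivity
    have hb0 : (0 : ℝ) ≤ Bad.card := by positivity
    nlinarith
  have hgood : (n : ℝ) / 2 ≤ Good.card := by
    have h1 : Good.card + Bad.card = n := by
      have := card_filter_add_card_filter_not (s := Icc 1 n) (fun x => (R x).card ≤ K)
      rw [Nat.card_Icc] at this
      simpa [hGood, hBad] using this
    have h2 : (Good.card : ℝ) + Bad.card = n := by exact_mod_cast h1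
    linarith
  -- the code of an element
  set J1 : ℕ → ℕ := fun x => (Finset.univ.filter fun i : Fin m => a i ≤ x).card with hJ1
  set J2 : ℕ → ℕ := fun x => (Finset.univ.filter fun i : Fin m => a i + l i * d i < x).card
    with hJ2
  set F : ℕ → (ℕ × ℕ) × Finset (ℕ × ℕ) := fun x => ((J1 x, J2 x), R x) with hF
  have himg : (Good.image F).card ≤ (m + 1) ^ (4 * s + 4) := by
    have hsub : Good.image F ⊆ ((range (m + 1)) ×ˢ (range (m + 1))) ×ˢ
        ((P.powerset).filter (fun s => s.card ≤ K)) := by
      intro y hy
      rw [mem_image] at hy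
      obtain ⟨x, hx, rfl⟩ := hy
      rw [hGood, mem_filter] at hx
      simp only [hF, mem_product, mem_range, mem_filter, mem_powerset]
      refine ⟨⟨?_, ?_⟩, filter_subset _ _, hx.2⟩
      · have := card_le_univ (Finset.univ.filter fun i : Fin m => a i ≤ x)
        rw [Fintype.card_fin] at this
        exact Nat.lt_succ_of_le this
      · have := card_le_univ (Finset.univ.filter fun i : Fin m => a i + l i * d i < x)
        rw [Fintype.card_fin] at this
        exact Nat.lt_succ_of_le this
    refine (card_le_card hsub).trans ?_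
    rw [card_product, card_product, card_range]
    calc (m + 1) * (m + 1) * ((P.powerset).filter (fun s => s.card ≤ K)).card
        ≤ (m + 1) * (m + 1) * (m + 1) ^ K := by
          refine Nat.mul_le_mul_left _ ((card_small P K).trans ?_)
          exact Nat.pow_le_pow_left (by omega) K
      _ = (m + 1) ^ (4 * s + 4) := by
          rw [hK]; ring
  -- equal codes give equal answers
  have hJeq : ∀ x y, F x = F y → answers T {x} = answers T {y} := by
    intro x y hxy
    have e1 : J1 x = J1 y := congrArg (fun z => z.1.1) hxy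
    have e2 : J2 x = J2 y := congrArg (fun z => z.1.2) hxy
    have e3 : R x = R y := congrArg (fun z => z.2) hxy
    have g1 : ∀ i, a i ≤ x ↔ a i ≤ y := by
      intro i
      rcases le_total x y with hle | hle
      · have hsub : (Finset.univ.filter fun i : Fin m => a i ≤ x) ⊆
            (Finset.univ.filter fun i : Fin m => a i ≤ y) := by
          intro i hi
          rw [mem_filter] at hi ⊢
          exact ⟨hi.1, hi.2.trans hle⟩
        have heq := eq_of_subset_of_card_le hsub (le_of_eq e1.symm)
        have := Finset.ext_iff.mp heq i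
        simpa using this
      · have hsub : (Finset.univ.filter fun i : Fin m => a i ≤ y) ⊆
            (Finset.univ.filter fun i : Fin m => a i ≤ x) := by
          intro i hi
          rw [mem_filter] at hi ⊢
          exact ⟨hi.1, hi.2.trans hle⟩
        have heq := eq_of_subset_of_card_le hsub (le_of_eq e1)
        have := Finset.ext_iff.mp heq i
        simpa using this.symm
    have g2 : ∀ i, a i + l i * d i < x ↔ a i + l i * d i < y := by
      intro i
      rcases le_total x y with hle | hle
      · have hsub : (Finset.univ.filter fun i : Fin m => a i + l i * d i < x) ⊆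
            (Finset.univ.filter fun i : Fin m => a i + l i * d i < y) := by
          intro i hi
          rw [mem_filter] at hi ⊢
          exact ⟨hi.1, lt_of_lt_of_le hi.2 hle⟩
        have heq := eq_of_subset_of_card_le hsub (le_of_eq e2.symm)
        have := Finset.ext_iff.mp heq i
        simpa using this
      · have hsub : (Finset.univ.filter fun i : Fin m => a i + l i * d i < y) ⊆
            (Finset.univ.filter fun i : Fin m => a i + l i * d i < x) := by
          intro i hi
          rw [mem_filter] at hi ⊢
          exact ⟨hi.1, lt_of_lt_of_le hi.2 hle⟩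
        have heq := eq_of_subset_of_card_le hsub (le_of_eq e2)
        have := Finset.ext_iff.mp heq i
        simpa using this.symm
    have g3 : ∀ i, x % d i = a i % d i ↔ y % d i = a i % d i := by
      intro i
      have hmemP : (a i % d i, d i) ∈ P := by
        rw [hPdef, mem_image]
        exact ⟨i, mem_univ i, rfl⟩
      have := Finset.ext_iff.mp e3 (a i % d i, d i)
      simpa [hR, mem_filter, hmemP] using this
    funext i
    simp only [answers, mem_singleton, exists_eq_right]
    rw [hmem, hmem, g1, g3]
    have := g2 i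
    apply propext
    constructor
    · rintro ⟨q1, q2, q3⟩
      exact ⟨q1, by omega, q3⟩
    · rintro ⟨q1, q2, q3⟩
      exact ⟨q1, by omega, q3⟩
  obtain ⟨hQ, hdet⟩ := h
  have hCk : 0 ≤ C * k := by
    have := (hQ (fun _ => True)).2
    have h0 : (0 : ℝ) ≤ (Q (fun _ => True)).card := by positivity
    linarith
  set N := ⌊C * k⌋₊ + 1 with hN
  have hfib : ∀ y ∈ Good.image F, (Good.filter (fun x => F x = y)).card ≤ N := by
    intro y hy
    rw [mem_image] at hy
    obtain ⟨x0, hx0, rfl⟩ := hy
    set Q0 := Q (answers T {x0}) with hQ0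
    have hsubc : ((Good.filter (fun x => F x = F x0)) \ Q0).card ≤ 1 := by
      rw [card_le_one]
      intro x hx y hy
      rw [mem_sdiff, mem_filter, hGood, mem_filter] at hx hy
      have a1 := hJeq x x0 hx.1.2
      have a2 := hJeq y x0 hy.1.2
      have := hdet {x} {y} (by rw [singleton_subset_iff]; exact hx.1.1.1) (by simpa using hk)
        (by rw [singleton_subset_iff]; exact hy.1.1.1) (by simpa using hk) (a1.trans a2.symm)
        (by
          intro j hj
          rw [a1] at hj
          rw [mem_singleton, mem_singleton]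
          constructor
          · rintro rfl; exact absurd hj hx.2
          · rintro rfl; exact absurd hj hy.2)
      exact singleton_injective this
    have hQcard : Q0.card ≤ ⌊C * k⌋₊ := Nat.le_floor (hQ _).2
    calc (Good.filter (fun x => F x = F x0)).card
        ≤ (((Good.filter (fun x => F x = F x0)) \ Q0) ∪ Q0).card := by
          apply card_le_card
          intro x hx
          rw [mem_union, mem_sdiff]
          by_cases hq : x ∈ Q0
          · exact Or.inr hq
          · exact Or.inl ⟨hx, hq⟩
      _ ≤ ((Good.filter (fun x => F x = F x0)) \ Q0).card + Q0.card := card_union_le _ _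
      _ ≤ N := by omega
  have hcard := card_le_mul_card_image (f := F) Good N hfib
  have h1 : (Good.card : ℝ) ≤ N * ((m : ℝ) + 1) ^ (4 * s + 4) := by
    have : Good.card ≤ N * (m + 1) ^ (4 * s + 4) := hcard.trans (Nat.mul_le_mul_left _ himg)
    exact_mod_cast this
  have h2 : (N : ℝ) ≤ C * k + 1 := by
    rw [hN]
    push_cast
    have := Nat.floor_le hCk
    linarith
  calc (n : ℝ) / 2 ≤ Good.card := hgood
    _ ≤ N * ((m : ℝ) + 1) ^ (4 * s + 4) := h1
    _ ≤ _ := mul_le_mul_of_nonneg_right h2 (by positivity)

end Pool.Agent.H6.ApTest
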