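import Mathlib

open Set Function Cardinal

namespace H6.ClubSel

variable {K : Type*} [LinearOrder K]

/-- closure points of `F` (with at least one smaller point) -/
def Cl (F : K → K) : Set K := {δ | (∃ x, x < δ) ∧ ∀ x < δ, F x < δ}

/-- the nonstationary sets -/
def Null (A : Set K) : Prop := ∃ F : K → K, ∀ δ ∈ A, δ ∉ Cl F

theorem Null.mono {A B : Set K} (h : Null B) (hAB : A ⊆ B) : Null A := by
  obtain ⟨F, hF⟩ := h
  exact ⟨F, fun δ hδ => hF δ (hAB hδ)⟩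

theorem notMem_of_le {F G : K → K} (h : ∀ x, F x ≤ G x) {δ : K} (hδ : δ ∉ Cl F) : δ ∉ Cl G :=
  fun hG => hδ ⟨hG.1, fun x hx => lt_of_le_of_lt (h x) (hG.2 x hx)⟩

section

variable {κ : Cardinal} (hb : ∀ S : Set K, #S < κ → ∃ b, ∀ y ∈ S, y < b)
include hb

theorem Null.iUnion (hκ : ℵ₀ < κ) {A : ℕ → Set K} (h : ∀ n, Null (A n)) : Null (⋃ n, A n) := by
  choose F hF using h
  have : ∀ x, ∃ b, ∀ y ∈ range (fun n => F n x), y < b := by
    intro x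
    apply hb
    exact lt_of_le_of_lt (Cardinal.le_aleph0_iff_set_countable.mpr (countable_range _)) hκ
  choose G hG using this
  refine ⟨G, fun δ hδ => ?_⟩
  obtain ⟨n, hn⟩ := mem_iUnion.mp hδ
  exact notMem_of_le (fun x => (hG x _ ⟨n, rfl⟩).le) (hF n δ hn)

theorem Null.union (hκ : ℵ₀ < κ) {A B : Set K} (hA : Null A) (hB : Null B) : Null (A ∪ B) := by
  refine (Null.iUnion hb hκ (A := fun n => if n = 0 then A else B) ?_).mono ?_
  · intro n; by_cases h : n = 0 <;> simp [h, hA, hB]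
  · rintro x (hx | hx)
    · exact mem_iUnion.mpr ⟨0, by simpa using hx⟩
    · exact mem_iUnion.mpr ⟨1, by simpa using hx⟩

omit hb in
theorem Null.bounded (b : K) : Null (Iic b) :=
  ⟨fun _ => b, fun δ hδ h => by
    obtain ⟨x, hx⟩ := h.1
    exact absurd (h.2 x hx) (not_lt.mpr hδ)⟩

/-- Fodor. -/
theorem fodor (hreg : κ.IsRegular) (hI : ∀ x : K, #(Iic x) < κ) {A : Set K} (hA : ¬ Null A)
    (g : K → K) (hg : ∀ δ ∈ A, g δ < δ) : ∃ γ, ¬ Null {δ | δ ∈ A ∧ g δ = γ} := by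
  by_contra hcon
  push Not at hcon
  choose F hF using hcon
  have hbd : ∀ x, ∃ b, ∀ y ∈ ((fun p : K × K => F p.1 p.2) '' (Iic x ×ˢ Iic x)), y < b := by
    intro x
    apply hb
    refine lt_of_le_of_lt Cardinal.mk_image_le ?_
    rw [Cardinal.mk_setProd]
    exact Cardinal.mul_lt_of_lt hreg.aleph0_le (hI x) (hI x)
  choose G hG using hbd
  apply hA
  refine ⟨G, fun δ hδ hcl => ?_⟩
  refine hF (g δ) δ ⟨hδ, rfl⟩ ⟨hcl.1, fun y hy => ?_⟩
  have hγ := hg δ hδ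
  have hx : max (g δ) y < δ := max_lt hγ hy
  refine lt_trans (hG (max (g δ) y) _ ⟨(g δ, y), ⟨le_max_left _ _, le_max_right _ _⟩, rfl⟩) ?_
  exact hcl.2 _ hx

end

variable [WellFoundedLT K]

/-- points of cofinality `ω` -/
def E (K : Type*) [LinearOrder K] : Set K :=
  {δ | ∃ a : ℕ → K, (∀ n, a n < δ) ∧ ∀ x < δ, ∃ n, x ≤ a n}

theorem E_pos {κ : Cardinal} (hb : ∀ S : Set K, #S < κ → ∃ b, ∀ y ∈ S, y < b)
    (hκ : ℵ₀ < κ) (hI : ∀ x : K, #(Iic x) < κ) : ¬ Null (E K) := by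
  rintro ⟨F, hF⟩
  have hstep : ∀ x : K, ∃ b, ∀ y ∈ F '' Iic x ∪ {x}, y < b := by
    intro x
    apply hb
    refine lt_of_le_of_lt (Cardinal.mk_union_le _ _) ?_
    refine Cardinal.add_lt_of_lt hκ.le (lt_of_le_of_lt Cardinal.mk_image_le (hI x)) ?_
    rw [Cardinal.mk_singleton]
    exact lt_trans Cardinal.one_lt_aleph0 hκ
  choose B hB using hstep
  obtain ⟨b0, -⟩ := hb ∅ (by simpa using lt_trans Cardinal.aleph0_pos hκ)
  let dl : ℕ → K := fun n => Nat.rec b0 (fun _ x => B x) n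
  have hdl : ∀ n, dl (n + 1) = B (dl n) := fun n => rfl
  have hne : {b | ∀ n, dl n < b}.Nonempty := by
    obtain ⟨b, hb'⟩ := hb (range dl)
      (lt_of_le_of_lt (Cardinal.le_aleph0_iff_set_countable.mpr (countable_range _)) hκ)
    exact ⟨b, fun n => hb' _ ⟨n, rfl⟩⟩
  set δ : K := (wellFounded_lt (α := K)).min _ hne with hδ
  have hδ1 : ∀ n, dl n < δ := (wellFounded_lt (α := K)).min_mem _ hne
  have hδ2 : ∀ x, x < δ → ∃ n, x ≤ dl n := by
    intro x hx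
    rcases em (∃ n, x ≤ dl n) with hcon | hcon
    · exact hcon
    · push Not at hcon
      exact absurd hx ((wellFounded_lt (α := K)).not_lt_min _
        (show x ∈ {b | ∀ n, dl n < b} from hcon))
  refine hF δ ⟨dl, hδ1, hδ2⟩ ⟨⟨dl 0, hδ1 0⟩, fun x hx => ?_⟩
  obtain ⟨n, hn⟩ := hδ2 x hx
  have : F x < dl (n + 1) := by
    rw [hdl]
    exact hB (dl n) _ (Or.inl ⟨x, hn, rfl⟩)
  exact lt_trans this (hδ1 (n + 1))

/-- Solovay-type splitting, at points of cofinality `ω`. -/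
theorem splitting {κ : Cardinal} (hb : ∀ S : Set K, #S < κ → ∃ b, ∀ y ∈ S, y < b)
    (hκ : ℵ₀ < κ) (hreg : κ.IsRegular) (hI : ∀ x : K, #(Iic x) < κ) :
    ∃ (Γ : Set K) (T : K → Set K), κ ≤ #Γ ∧ (∀ γ ∈ Γ, ¬ Null (T γ)) ∧
      ∀ γ γ', γ ≠ γ' → Disjoint (T γ) (T γ') := by
  classical
  have hEa : ∀ δ : K, ∃ a : ℕ → K, δ ∈ E K → (∀ n, a n < δ) ∧ ∀ x < δ, ∃ n, x ≤ a n := by
    intro δ
    by_cases h : δ ∈ E K
    · obtain ⟨a, ha⟩ := h
      exact ⟨a, fun _ => ha⟩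
    · exact ⟨fun _ => δ, fun h' => absurd h' h⟩
  choose a ha using hEa
  have h5 : ∃ n, ∀ η, ¬ Null {δ | δ ∈ E K ∧ η ≤ a δ n} := by
    by_contra hcon
    push Not at hcon
    choose η hη using hcon
    obtain ⟨b, hb'⟩ := hb (range η)
      (lt_of_le_of_lt (Cardinal.le_aleph0_iff_set_countable.mpr (countable_range _)) hκ)
    apply E_pos hb hκ hI
    refine (Null.union hb hκ (Null.bounded b) (Null.iUnion hb hκ hη)).mono ?_
    intro δ hδ
    by_cases h : δ ≤ b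
    · exact Or.inl h
    · right
      obtain ⟨n, hn⟩ := (ha δ hδ).2 b (not_le.mp h)
      exact mem_iUnion.mpr ⟨n, hδ, le_trans (hb' _ ⟨n, rfl⟩).le hn⟩
  obtain ⟨n, hn⟩ := h5
  refine ⟨{γ | ¬ Null {δ | δ ∈ E K ∧ a δ n = γ}}, fun γ => {δ | δ ∈ E K ∧ a δ n = γ}, ?_, ?_, ?_⟩
  · by_contra hcon
    push Not at hcon
    obtain ⟨b, hb'⟩ := hb _ hcon
    obtain ⟨γ, hγ⟩ := fodor hb hreg hI (hn b) (fun δ => a δ n) (fun δ hδ => (ha δ hδ.1).1 n)
    have hγ2 : ¬ Null {δ | δ ∈ E K ∧ a δ n = γ} := fun h =>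
      hγ (h.mono (fun δ hδ => ⟨hδ.1.1, hδ.2⟩))
    have h1 := hb' γ hγ2
    apply hγ
    refine ⟨id, ?_⟩
    rintro δ ⟨⟨_, h2⟩, h3⟩
    exact absurd (h3 ▸ h2) (not_le.mpr h1)
  · intro γ hγ; exact hγ
  · intro γ γ' hne
    rw [Set.disjoint_left]
    rintro δ ⟨_, h1⟩ ⟨_, h2⟩
    exact hne (h1.symm.trans h2)

end H6.ClubSel
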