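import Mathlib

/-!
Colouring number of graphs: the relative notion `Fr G c A D` (the set `D` can be well-foundedly
ordered over the base `A` with at most `c` back-neighbours for each vertex), gluing lemmas,
and the finite block lemma.
-/

open Cardinal Set

namespace H6Col

universe u

variable {V : Type u}

/-- `D` can be ordered over the base `A` with back-degrees at most `c`. -/
def Fr (G : SimpleGraph V) (c : ℕ) (A D : Set V) : Prop :=
  ∃ r : V → V → Prop, WellFounded r ∧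
    (∀ x ∈ D, ∀ y ∈ D, G.Adj x y → r x y ∨ r y x) ∧
    ∀ x ∈ D, {y | G.Adj x y ∧ (y ∈ A ∨ (y ∈ D ∧ r y x))}.encard ≤ c

theorem Fr.mono {G H : SimpleGraph V} {c c' : ℕ} {A A' D D' : Set V}
    (h : Fr H c A D) (hc : c ≤ c') (hA : A' ⊆ A) (hD : D' ⊆ D)
    (hG : ∀ x ∈ D', ∀ y, (y ∈ A' ∨ y ∈ D') → G.Adj x y → H.Adj x y) : Fr G c' A' D' := by
  obtain ⟨r, wf, tot, deg⟩ := h
  refine ⟨r, wf, fun x hx y hy hxy => tot x (hD hx) y (hD hy) (hG x hx y (Or.inr hy) hxy),
    fun x hx => ?_⟩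
  refine le_trans (encard_le_encard ?_) (le_trans (deg x (hD hx)) (by exact_mod_cast hc))
  rintro y ⟨h1, h2 | ⟨h2, h3⟩⟩
  · exact ⟨hG x hx y (Or.inl h2) h1, Or.inl (hA h2)⟩
  · exact ⟨hG x hx y (Or.inr h2) h1, Or.inr ⟨hD h2, h3⟩⟩

theorem Fr.empty (G : SimpleGraph V) (c : ℕ) (A : Set V) : Fr G c A ∅ := by
  refine ⟨emptyRelation, emptyWf.wf, ?_, ?_⟩
  · intro x hx; exact absurd hx (notMem_empty _)
  · intro x hx; exact absurd hx (notMem_empty _)

/-- No edges at all: fine. -/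
theorem Fr.of_noedge (G : SimpleGraph V) (c : ℕ) (A D : Set V)
    (h : ∀ x ∈ D, ∀ y, (y ∈ A ∨ y ∈ D) → ¬ G.Adj x y) : Fr G c A D := by
  refine ⟨emptyRelation, emptyWf.wf, ?_, ?_⟩
  · intro x hx y hy hxy; exact absurd hxy (h x hx y (Or.inr hy))
  · intro x hx
    have : {y | G.Adj x y ∧ (y ∈ A ∨ (y ∈ D ∧ emptyRelation y x))} = ∅ := by
      ext y
      simp only [mem_setOf_eq, mem_empty_iff_false, iff_false]
      rintro ⟨h1, h2 | ⟨h2, h3⟩⟩
      · exact h x hx y (Or.inl h2) h1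
      · exact h3
    rw [this]; simp

/-- Base extension along a back-closed subset. -/
theorem Fr.ext_base {G : SimpleGraph V} {c : ℕ} {A D C : Set V} {r : V → V → Prop}
    (wf : WellFounded r) (tot : ∀ x ∈ D, ∀ y ∈ D, G.Adj x y → r x y ∨ r y x)
    (deg : ∀ x ∈ D, {y | G.Adj x y ∧ (y ∈ A ∨ (y ∈ D ∧ r y x))}.encard ≤ c)
    (hCD : C ⊆ D) (hcl : ∀ x ∈ C, ∀ y ∈ D, G.Adj x y → r y x → y ∈ C) :
    Fr G c (A ∪ C) (D \ C) := by
  refine ⟨r, wf, fun x hx y hy hxy => tot x hx.1 y hy.1 hxy, fun x hx => ?_⟩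
  refine le_trans (encard_le_encard ?_) (deg x hx.1)
  rintro y ⟨h1, (h2 | h2) | ⟨h2, h3⟩⟩
  · exact ⟨h1, Or.inl h2⟩
  · refine ⟨h1, Or.inr ⟨hCD h2, ?_⟩⟩
    rcases tot x hx.1 y (hCD h2) h1 with h | h
    · exact absurd (hcl y h2 x hx.1 h1.symm h) hx.2
    · exact h
  · exact ⟨h1, Or.inr ⟨h2.1, h3⟩⟩

/-- Layered well-founded relation. -/
theorem wf_glue {ι : Type*} [LinearOrder ι] [WellFoundedLT ι] (l : V → ι)
    (r : ι → V → V → Prop) (h : ∀ i, WellFounded (r i)) :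
    WellFounded (fun y x => l y < l x ∨ (l y = l x ∧ r (l x) y x)) := by
  rw [WellFounded.wellFounded_iff_has_min]
  intro s hs
  obtain ⟨i, hi, hmin⟩ := WellFounded.wellFounded_iff_has_min.mp (wellFounded_lt (α := ι))
    (l '' s) (hs.image _)
  obtain ⟨x0, hx0, rfl⟩ := hi
  obtain ⟨m, hm, hmm⟩ := WellFounded.wellFounded_iff_has_min.mp (h (l x0))
    {x | x ∈ s ∧ l x = l x0} ⟨x0, hx0, rfl⟩
  refine ⟨m, hm.1, ?_⟩
  intro x hx hxm
  rcases hxm with h1 | ⟨h1, h2⟩
  · rw [hm.2] at h1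
    exact hmin (l x) ⟨x, hx, rfl⟩ h1
  · rw [hm.2] at h1 h2
    exact hmm x ⟨hx, h1⟩ h2

theorem Fr.glue {ι : Type*} [LinearOrder ι] [WellFoundedLT ι] (l : V → ι)
    {G : SimpleGraph V} {c : ℕ} {A D : Set V}
    (h : ∀ i, Fr G c (A ∪ {x | x ∈ D ∧ l x < i}) {x | x ∈ D ∧ l x = i}) : Fr G c A D := by
  choose r wf tot deg using h
  refine ⟨_, wf_glue l r wf, ?_, ?_⟩
  · intro x hx y hy hxy
    rcases lt_trichotomy (l x) (l y) with h1 | h1 | h1
    · exact Or.inl (Or.inl h1)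
    · rcases tot (l x) x ⟨hx, rfl⟩ y ⟨hy, h1.symm⟩ hxy with h2 | h2
      · exact Or.inl (Or.inr ⟨h1, by rw [← h1]; exact h2⟩)
      · exact Or.inr (Or.inr ⟨h1.symm, h2⟩)
    · exact Or.inr (Or.inl h1)
  · intro x hx
    refine le_trans (encard_le_encard ?_) (deg (l x) x ⟨hx, rfl⟩)
    rintro y ⟨h1, h2 | ⟨h2, h3 | ⟨h3, h4⟩⟩⟩
    · exact ⟨h1, Or.inl (Or.inl h2)⟩
    · exact ⟨h1, Or.inl (Or.inr ⟨h2, h3⟩)⟩
    · exact ⟨h1, Or.inr ⟨⟨h2, h3⟩, h4⟩⟩

theorem Fr.glue2 {G : SimpleGraph V} {c : ℕ} {A D C : Set V} (hCD : C ⊆ D)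
    (h1 : Fr G c A C) (h2 : Fr G c (A ∪ C) (D \ C)) : Fr G c A D := by
  classical
  refine Fr.glue (ι := ℕ) (fun x => if x ∈ C then 0 else 1) ?_
  intro i
  rcases i with _ | _ | i
  · refine h1.mono le_rfl ?_ ?_ (fun x _ y _ h => h)
    · rintro x (hx | ⟨_, hx⟩)
      · exact hx
      · exact absurd hx (by simp)
    · rintro x ⟨_, hx⟩
      by_contra hxc
      simp [hxc] at hx
  · refine h2.mono le_rfl ?_ ?_ (fun x _ y _ h => h)
    · rintro x (hx | ⟨_, hx⟩)
      · exact Or.inl hx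
      · right
        by_contra hxc
        simp [hxc] at hx
    · rintro x ⟨hxD, hx⟩
      refine ⟨hxD, fun hxc => ?_⟩
      simp [hxc] at hx
  · have : {x | x ∈ D ∧ (if x ∈ C then 0 else 1) = i + 1 + 1} = (∅ : Set V) := by
      ext x
      simp only [mem_setOf_eq, mem_empty_iff_false, iff_false, not_and]
      intro _ h
      split_ifs at h <;> omega
    rw [this]
    exact Fr.empty _ _ _

/-- Peeling a finite set. -/
theorem Fr.peel {G : SimpleGraph V} {c : ℕ} {A : Set V} : ∀ (n : ℕ) (X : Set V), X.Finite →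
    X.ncard = n →
    (∀ Y ⊆ X, Y.Nonempty → ∃ y ∈ Y, {z | G.Adj y z ∧ (z ∈ A ∨ z ∈ Y)}.encard ≤ c) →
    Fr G c A X := by
  intro n
  induction n with
  | zero =>
    intro X hX hn _
    rw [(ncard_eq_zero hX).mp hn]
    exact Fr.empty _ _ _
  | succ n ih =>
    intro X hX hn h
    have hne : X.Nonempty := by
      rw [nonempty_iff_ne_empty]
      rintro rfl
      simp at hn
    obtain ⟨y, hy, hdeg⟩ := h X Subset.rfl hne
    have h1 : Fr G c A (X \ {y}) := by
      apply ih (X \ {y}) (hX.subset diff_subset)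
      · have := ncard_diff_singleton_of_mem hy
        omega
      · intro Y hY hYn
        exact h Y (hY.trans diff_subset) hYn
    refine Fr.glue2 (C := X \ {y}) diff_subset h1 ?_
    have h2 : X \ (X \ {y}) = {y} := by
      ext z
      simp only [mem_diff, mem_singleton_iff, not_and, not_not]
      constructor
      · rintro ⟨a, b⟩; exact b a
      · rintro rfl; exact ⟨hy, fun _ => rfl⟩
    rw [h2]
    refine ⟨emptyRelation, emptyWf.wf, ?_, ?_⟩
    · rintro x rfl z rfl hxz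
      exact absurd rfl hxz.ne
    · rintro x rfl
      refine le_trans (encard_le_encard ?_) hdeg
      rintro z ⟨h3, (h4 | h4) | ⟨_, h4⟩⟩
      · exact ⟨h3, Or.inl h4⟩
      · exact ⟨h3, Or.inr h4.1⟩
      · exact absurd h4 id

/-- Every finite nonempty set has a last element for a well-founded relation. -/
theorem exists_last {r : V → V → Prop} (wf : WellFounded r) {X : Set V} (hX : X.Finite)
    (hne : X.Nonempty) : ∃ x ∈ X, ∀ y ∈ X, ¬ r x y := by
  haveI : IsWellFounded V r := ⟨wf⟩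
  obtain ⟨a, ha, hmax⟩ := Set.exists_max_image X (IsWellFounded.rank r) hX hne
  refine ⟨a, ha, fun y hy hr => ?_⟩
  exact absurd (hmax y hy) (not_le.mpr (IsWellFounded.rank_lt_of_rel hr))

/-- Finite back-closures. -/
theorem exists_closure {G : SimpleGraph V} {c : ℕ} {A D : Set V} {r : V → V → Prop}
    (wf : WellFounded r)
    (deg : ∀ x ∈ D, {y | G.Adj x y ∧ (y ∈ A ∨ (y ∈ D ∧ r y x))}.encard ≤ c) :
    ∀ x ∈ D, ∃ K : Set V, K.Finite ∧ K ⊆ D ∧ x ∈ K ∧
      ∀ z ∈ K, ∀ y ∈ D, G.Adj z y → r y z → y ∈ K := by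
  intro x
  induction x using wf.induction with
  | _ x ih =>
    intro hx
    have hfin : {y | y ∈ D ∧ G.Adj x y ∧ r y x}.Finite := by
      refine Set.Finite.subset (s := {y | G.Adj x y ∧ (y ∈ A ∨ (y ∈ D ∧ r y x))}) ?_ ?_
      · exact finite_of_encard_le_coe (deg x hx)
      · rintro y ⟨h1, h2, h3⟩
        exact ⟨h2, Or.inr ⟨h1, h3⟩⟩
    have h1 : ∀ y : {y | y ∈ D ∧ G.Adj x y ∧ r y x}, ∃ K : Set V, K.Finite ∧ K ⊆ D ∧ y.1 ∈ K ∧
      ∀ z ∈ K, ∀ w ∈ D, G.Adj z w → r w z → w ∈ K := fun y => ih y.1 y.2.2.2 y.2.1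
    choose K hK1 hK2 hK3 hK4 using h1
    haveI := hfin.to_subtype
    refine ⟨insert x (⋃ y, K y), ?_, ?_, mem_insert _ _, ?_⟩
    · exact (finite_iUnion hK1).insert x
    · exact insert_subset hx (iUnion_subset hK2)
    · rintro z (rfl | hz) y hy hzy hr
      · exact Or.inr (mem_iUnion.mpr ⟨⟨y, hy, hzy, hr⟩, hK3 _⟩)
      · obtain ⟨i, hi⟩ := mem_iUnion.mp hz
        exact Or.inr (mem_iUnion.mpr ⟨i, hK4 i z hi y hy hzy hr⟩)

theorem exists_closure_set {G : SimpleGraph V} {c : ℕ} {A D : Set V} {r : V → V → Prop}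
    (wf : WellFounded r)
    (deg : ∀ x ∈ D, {y | G.Adj x y ∧ (y ∈ A ∨ (y ∈ D ∧ r y x))}.encard ≤ c)
    {S : Set V} (hS : S.Finite) (hSD : S ⊆ D) :
    ∃ K : Set V, K.Finite ∧ K ⊆ D ∧ S ⊆ K ∧
      ∀ z ∈ K, ∀ y ∈ D, G.Adj z y → r y z → y ∈ K := by
  have h1 : ∀ y : S, ∃ K : Set V, K.Finite ∧ K ⊆ D ∧ y.1 ∈ K ∧
      ∀ z ∈ K, ∀ w ∈ D, G.Adj z w → r w z → w ∈ K :=
    fun y => exists_closure wf deg y.1 (hSD y.2)
  choose K hK1 hK2 hK3 hK4 using h1
  haveI := hS.to_subtype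
  refine ⟨⋃ y, K y, finite_iUnion hK1, iUnion_subset hK2, ?_, ?_⟩
  · intro x hx
    exact mem_iUnion.mpr ⟨⟨x, hx⟩, hK3 _⟩
  · intro z hz y hy hzy hr
    obtain ⟨i, hi⟩ := mem_iUnion.mp hz
    exact mem_iUnion.mpr ⟨i, hK4 i z hi y hy hzy hr⟩

/-- Edges of `H` touch `X` and stay inside `A ∪ X`. -/
def Loc (H : SimpleGraph V) (A X : Set V) : Prop :=
  ∀ x y, H.Adj x y → (x ∈ X ∨ y ∈ X) ∧ (x ∈ A ∨ x ∈ X) ∧ (y ∈ A ∨ y ∈ X)

/-- The block lemma. -/
theorem block {G : SimpleGraph V} {c : ℕ} {A X : Set V} (hX : X.Finite) (hAX : Disjoint A X)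
    (hcore : ∀ x ∈ X, (c : ℕ∞) ≤ {y | G.Adj x y ∧ (y ∈ A ∨ y ∈ X)}.encard) :
    ∃ H : SimpleGraph V, H ≤ G ∧ Loc H A X ∧ Fr H c A X ∧
      ∀ x ∈ X, (c : ℕ∞) ≤ {y | H.Adj x y}.encard := by
  classical
  -- a finite starting graph
  let P : SimpleGraph V → Prop := fun H => H ≤ G ∧ Loc H A X ∧ H.edgeSet.Finite ∧
    ∀ x ∈ X, (c : ℕ∞) ≤ {y | H.Adj x y}.encard
  have h0 : ∃ H, P H := by
    have h1 : ∀ x : X, ∃ t : Set V, t ⊆ {y | G.Adj x.1 y ∧ (y ∈ A ∨ y ∈ X)} ∧ t.encard = c :=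
      fun x => exists_subset_encard_eq (hcore x.1 x.2)
    choose t ht1 ht2 using h1
    have htfin : ∀ x, (t x).Finite := fun x => finite_of_encard_le_coe (ht2 x).le
    let H : SimpleGraph V := SimpleGraph.fromRel (fun a b => ∃ h : a ∈ X, b ∈ t ⟨a, h⟩)
    have hH : ∀ a b, H.Adj a b ↔ a ≠ b ∧ ((∃ h : a ∈ X, b ∈ t ⟨a, h⟩) ∨
        (∃ h : b ∈ X, a ∈ t ⟨b, h⟩)) := fun a b => Iff.rfl
    refine ⟨H, ?_, ?_, ?_, ?_⟩
    · intro a b hab
      rw [hH] at hab
      rcases hab.2 with ⟨h, h2⟩ | ⟨h, h2⟩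
      · exact (ht1 _ h2).1
      · exact (ht1 _ h2).1.symm
    · intro a b hab
      rw [hH] at hab
      rcases hab.2 with ⟨h, h2⟩ | ⟨h, h2⟩
      · exact ⟨Or.inl h, Or.inr h, (ht1 _ h2).2⟩
      · exact ⟨Or.inr h, (ht1 _ h2).2, Or.inr h⟩
    · haveI := hX.to_subtype
      have h2 : H.edgeSet ⊆ ⋃ x : X, (fun b => s(x.1, b)) '' (t x) := by
        intro e he
        induction e using Sym2.ind with
        | _ a b =>
          rw [SimpleGraph.mem_edgeSet, hH] at he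
          rcases he.2 with ⟨h, h2⟩ | ⟨h, h2⟩
          · exact mem_iUnion.mpr ⟨⟨a, h⟩, b, h2, rfl⟩
          · exact mem_iUnion.mpr ⟨⟨b, h⟩, a, h2, Sym2.eq_swap⟩
      exact (finite_iUnion fun x => (htfin x).image _).subset h2
    · intro x hx
      rw [← ht2 ⟨x, hx⟩]
      refine encard_le_encard ?_
      intro y hy
      rw [mem_setOf_eq, hH]
      exact ⟨(ht1 _ hy).1.ne, Or.inl ⟨hx, hy⟩⟩
  -- a minimal one
  obtain ⟨H, hP, hmin⟩ : ∃ H, P H ∧ ∀ H', P H' → H.edgeSet.ncard ≤ H'.edgeSet.ncard := by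
    have h1 : ∃ n, ∃ H, P H ∧ H.edgeSet.ncard = n := by
      obtain ⟨H, hH⟩ := h0
      exact ⟨_, H, hH, rfl⟩
    obtain ⟨H, hH, hn⟩ := Nat.find_spec h1
    refine ⟨H, hH, fun H' hH' => ?_⟩
    rw [hn]
    exact Nat.find_min' h1 ⟨H', hH', rfl⟩
  obtain ⟨hHG, hloc, hfin, hdeg⟩ := hP
  -- each edge has an endpoint in `X` of degree at most `c`
  have hkey : ∀ a b, H.Adj a b → (a ∈ X ∧ {y | H.Adj a y}.encard ≤ c) ∨
      (b ∈ X ∧ {y | H.Adj b y}.encard ≤ c) := by
    intro a b hab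
    by_contra hcon
    push Not at hcon
    let H' := H.deleteEdges {s(a, b)}
    have hH' : ∀ x y, H'.Adj x y ↔ H.Adj x y ∧ s(x, y) ≠ s(a, b) := by
      intro x y
      simp [H', SimpleGraph.deleteEdges_adj]
    have hle : H' ≤ H := fun x y h => ((hH' x y).mp h).1
    have hP' : P H' := by
      refine ⟨hle.trans hHG, fun x y h => hloc x y (hle h), hfin.subset ?_, ?_⟩
      · exact SimpleGraph.edgeSet_mono hle
      · intro x hx
        by_cases hxa : x = a
        · subst hxa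
          have h1 := hcon.1 hx
          have h2 : {y | H.Adj x y} ⊆ insert b {y | H'.Adj x y} := by
            intro y hy
            by_cases hyb : y = b
            · exact Or.inl hyb
            · right
              rw [mem_setOf_eq, hH']
              refine ⟨hy, ?_⟩
              intro h
              rcases Sym2.eq_iff.mp h with ⟨_, h⟩ | ⟨h, h'⟩
              · exact hyb h
              · exact hyb (h'.trans h)
          have h3 := (encard_le_encard h2).trans (encard_insert_le _ _)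
          have h4 : (c : ℕ∞) + 1 ≤ {y | H'.Adj x y}.encard + 1 :=
            (Order.add_one_le_of_lt h1).trans h3
          exact (ENat.add_le_add_iff_right (by simp)).mp h4
        · by_cases hxb : x = b
          · subst hxb
            have h1 := hcon.2 hx
            have h2 : {y | H.Adj x y} ⊆ insert a {y | H'.Adj x y} := by
              intro y hy
              by_cases hyb : y = a
              · exact Or.inl hyb
              · right
                rw [mem_setOf_eq, hH']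
                refine ⟨hy, ?_⟩
                intro h
                rcases Sym2.eq_iff.mp h with ⟨h, h'⟩ | ⟨h, h'⟩
                · exact hxa h
                · exact hyb h'
            have h3 := (encard_le_encard h2).trans (encard_insert_le _ _)
            have h4 : (c : ℕ∞) + 1 ≤ {y | H'.Adj x y}.encard + 1 :=
              (Order.add_one_le_of_lt h1).trans h3
            exact (ENat.add_le_add_iff_right (by simp)).mp h4
          · refine (hdeg x hx).trans (encard_le_encard ?_)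
            intro y hy
            rw [mem_setOf_eq, hH']
            refine ⟨hy, ?_⟩
            intro h
            rcases Sym2.eq_iff.mp h with ⟨h, _⟩ | ⟨h, _⟩
            · exact hxa h
            · exact hxb h
    have h1 := hmin H' hP'
    have h2 : H'.edgeSet.ncard < H.edgeSet.ncard := by
      apply ncard_lt_ncard _ hfin
      refine ⟨SimpleGraph.edgeSet_mono hle, fun hsub => ?_⟩
      have h3 : s(a, b) ∈ H'.edgeSet := hsub (by simpa using hab)
      rw [SimpleGraph.mem_edgeSet, hH'] at h3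
      exact h3.2 rfl
    omega
  refine ⟨H, hHG, hloc, ?_, hdeg⟩
  refine Fr.peel X.ncard X hX rfl ?_
  intro Y hY hYne
  by_cases h1 : ∃ y ∈ Y, {z | H.Adj y z}.encard ≤ c
  · obtain ⟨y, hy, hd⟩ := h1
    refine ⟨y, hy, (encard_le_encard ?_).trans hd⟩
    intro z hz
    exact hz.1
  · push Not at h1
    obtain ⟨y, hy⟩ := hYne
    refine ⟨y, hy, ?_⟩
    have h2 : {z | H.Adj y z ∧ (z ∈ A ∨ z ∈ Y)} = ∅ := by
      ext z
      simp only [mem_setOf_eq, mem_empty_iff_false, iff_false]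
      rintro ⟨h3, h4⟩
      rcases hkey y z h3 with h5 | h5
      · exact absurd h5.2 (not_le.mpr (h1 y hy))
      · rcases h4 with h4 | h4
        · exact (disjoint_left.mp hAX) h4 h5.1
        · exact absurd h5.2 (not_le.mpr (h1 z h4))
    rw [h2]; simp

end H6Col
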