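import Pool.Agent.H6.ColA

/-!
Colouring number: the finite and countable case.
-/

open Cardinal Set

namespace H6Col

universe u

variable {V : Type u}

/-- The desired conclusion. -/
def Out (G : SimpleGraph V) (d : ℕ) (A D : Set V) : Prop :=
  ∃ H : SimpleGraph V, H ≤ G ∧ Loc H A D ∧ Fr H (d + 1) A D ∧ ¬ Fr H d A D

theorem Fr.of_loc {H : SimpleGraph V} {c : ℕ} {A X D : Set V} (hl : Loc H A X) (hXD : X ⊆ D)
    (hAD : Disjoint A D) (h : Fr H c A X) : Fr H c A D := by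
  refine Fr.glue2 hXD h (Fr.of_noedge _ _ _ _ ?_)
  intro x hx y _ hxy
  rcases (hl x y hxy).2.1 with h1 | h1
  · exact (disjoint_left.mp hAD) h1 hx.1
  · exact hx.2 h1

theorem Loc.mono {H : SimpleGraph V} {A S X D : Set V} (hl : Loc H (A ∪ S) X) (hXD : X ⊆ D)
    (hSD : S ⊆ D) : Loc H A D := by
  intro x y hxy
  obtain ⟨h1, h2, h3⟩ := hl x y hxy
  refine ⟨h1.imp (@hXD x) (@hXD y), ?_, ?_⟩
  · rcases h2 with (h | h) | h
    · exact Or.inl h
    · exact Or.inr (hSD h)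
    · exact Or.inr (hXD h)
  · rcases h3 with (h | h) | h
    · exact Or.inl h
    · exact Or.inr (hSD h)
    · exact Or.inr (hXD h)

theorem Loc.mono' {H : SimpleGraph V} {A X D : Set V} (hl : Loc H A X) (hXD : X ⊆ D) :
    Loc H A D := by
  intro x y hxy
  obtain ⟨h1, h2, h3⟩ := hl x y hxy
  exact ⟨h1.imp (@hXD x) (@hXD y), h2.imp id (@hXD x), h3.imp id (@hXD y)⟩

theorem Out.extend {G : SimpleGraph V} {d : ℕ} {A T D : Set V} (hTD : T ⊆ D)
    (hAD : Disjoint A D) (h : Out G d A T) : Out G d A D := by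
  obtain ⟨H, h1, h2, h3, h4⟩ := h
  refine ⟨H, h1, h2.mono' hTD, h3.of_loc h2 hTD hAD, fun h5 => h4 ?_⟩
  exact h5.mono le_rfl Subset.rfl hTD (fun _ _ _ _ h => h)

theorem lower {H H' : SimpleGraph V} {d : ℕ} {A D K S X : Set V} {r : V → V → Prop}
    (wf : WellFounded r) (tot : ∀ x ∈ D, ∀ y ∈ D, H.Adj x y → r x y ∨ r y x)
    (deg : ∀ x ∈ D, {y | H.Adj x y ∧ (y ∈ A ∨ (y ∈ D ∧ r y x))}.encard ≤ d)
    (hK : K ⊆ D) (hcl : ∀ x ∈ K, ∀ y ∈ D, H.Adj x y → r y x → y ∈ K)
    (hS : S ⊆ K) (hX : X.Finite) (hXD : X ⊆ D) (hle : H' ≤ H) (hl : Loc H' (A ∪ S) X)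
    (hdeg : ∀ x ∈ X, ((d + 1 : ℕ) : ℕ∞) ≤ {y | H'.Adj x y}.encard) : X ⊆ K := by
  by_contra hcon
  have hne : (X \ K).Nonempty := by
    obtain ⟨x, hx, hxK⟩ := not_subset.mp hcon
    exact ⟨x, hx, hxK⟩
  obtain ⟨x, hx, hlast⟩ := exists_last wf (hX.subset (t := X \ K) (fun _ h => h.1)) hne
  have h1 : {y | H'.Adj x y} ⊆ {y | H.Adj x y ∧ (y ∈ A ∨ (y ∈ D ∧ r y x))} := by
    intro y hy
    have hy' : H'.Adj x y := hy
    refine ⟨hle hy', ?_⟩
    have hyK : y ∈ K → (y ∈ A ∨ (y ∈ D ∧ r y x)) := by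
      intro hyK
      refine Or.inr ⟨hK hyK, ?_⟩
      rcases tot x (hXD hx.1) y (hK hyK) (hle hy') with h | h
      · exact absurd (hcl y hyK x (hXD hx.1) (hle hy').symm h) hx.2
      · exact h
    rcases (hl x y hy').2.2 with (h | h) | h
    · exact Or.inl h
    · exact hyK (hS h)
    · by_cases h2 : y ∈ K
      · exact hyK h2
      · refine Or.inr ⟨hXD h, ?_⟩
        rcases tot x (hXD hx.1) y (hXD h) (hle hy') with h3 | h3
        · exact absurd h3 (hlast y ⟨h, h2⟩)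
        · exact h3
  have h2 := ((hdeg x hx.1).trans (encard_le_encard h1)).trans (deg x (hXD hx.1))
  have h3 : d + 1 ≤ d := by exact_mod_cast h2
  omega

theorem Fr.glueNat {G : SimpleGraph V} {c : ℕ} {A : Set V} (S : ℕ → Set V) (hm : Monotone S)
    (h0 : Fr G c A (S 0)) (hs : ∀ n, Fr G c (A ∪ S n) (S (n + 1) \ S n)) :
    Fr G c A (⋃ n, S n) := by
  classical
  refine Fr.glue (ι := ℕ) (fun x => if h : ∃ n, x ∈ S n then Nat.find h else 0) ?_
  intro i
  rcases i with _ | i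
  · refine h0.mono le_rfl ?_ ?_ (fun x _ y _ h => h)
    · rintro x (hx | ⟨_, hx⟩)
      · exact hx
      · exact absurd hx (by simp)
    · rintro x ⟨hx, hx2⟩
      have h1 : ∃ n, x ∈ S n := mem_iUnion.mp hx
      simp only [h1, dif_pos] at hx2
      have := Nat.find_spec h1
      rwa [hx2] at this
  · refine (hs i).mono le_rfl ?_ ?_ (fun x _ y _ h => h)
    · rintro x (hx | ⟨hx, hx2⟩)
      · exact Or.inl hx
      · right
        have h1 : ∃ n, x ∈ S n := mem_iUnion.mp hx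
        simp only [h1, dif_pos] at hx2
        exact hm (Nat.lt_succ_iff.mp hx2) (Nat.find_spec h1)
    · rintro x ⟨hx, hx2⟩
      have h1 : ∃ n, x ∈ S n := mem_iUnion.mp hx
      simp only [h1, dif_pos] at hx2
      have h2 := Nat.find_spec h1
      rw [hx2] at h2
      refine ⟨h2, fun h3 => ?_⟩
      have := Nat.find_min' h1 h3
      omega

/-- No finite core outside `S`. -/
def Strong (G : SimpleGraph V) (d : ℕ) (A D S : Set V) : Prop :=
  ∀ X : Set V, X ⊆ D \ S → X.Finite → X.Nonempty →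
    ∃ x ∈ X, {y | G.Adj x y ∧ ((y ∈ A ∨ y ∈ S) ∨ y ∈ X)}.encard ≤ ((d + 1 : ℕ) : ℕ∞)

theorem exists_block_of_not_strong {G : SimpleGraph V} {d : ℕ} {A D S : Set V}
    (hAD : Disjoint A D) (h : ¬ Strong G d A D S) :
    ∃ X : Set V, X ⊆ D \ S ∧ X.Finite ∧ X.Nonempty ∧ ∃ H : SimpleGraph V, H ≤ G ∧
      Loc H (A ∪ S) X ∧ Fr H (d + 1) (A ∪ S) X ∧
      ∀ x ∈ X, ((d + 1 : ℕ) : ℕ∞) ≤ {y | H.Adj x y}.encard := by
  unfold Strong at h
  push Not at h
  obtain ⟨X, hX, hfin, hne, hcore⟩ := h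
  have hdis : Disjoint (A ∪ S) X := by
    rw [disjoint_left]
    rintro x (hx | hx) hxX
    · exact (disjoint_left.mp hAD) hx (hX hxX).1
    · exact (hX hxX).2 hx
  obtain ⟨H, h1, h2, h3, h4⟩ := block (G := G) (c := d + 1) (A := A ∪ S) hfin hdis
    (fun x hx => (hcore x hx).le)
  exact ⟨X, hX, hfin, hne, H, h1, h2, h3, h4⟩

theorem Fr.of_strong {G : SimpleGraph V} {d : ℕ} {A D S X : Set V} (h : Strong G d A D S)
    (hX : X.Finite) (hXD : X ⊆ D \ S) : Fr G (d + 1) (A ∪ S) X := by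
  refine Fr.peel X.ncard X hX rfl ?_
  intro Y hY hYne
  obtain ⟨x, hx, hd⟩ := h Y (hY.trans hXD) (hX.subset hY) hYne
  exact ⟨x, hx, hd⟩

/-- The tower case. -/
theorem tower {G : SimpleGraph V} {d : ℕ} {A D S0 : Set V} (hAD : Disjoint A D)
    (hS0 : S0.Finite) (hS0D : S0 ⊆ D)
    (hbad : ∀ S, S0 ⊆ S → S.Finite → S ⊆ D → ¬ Strong G d A D S) : Out G d A D := by
  have hstep : ∀ s : {S : Set V // S0 ⊆ S ∧ S.Finite ∧ S ⊆ D}, ∃ X : Set V,
      X ⊆ D \ s.1 ∧ X.Finite ∧ X.Nonempty ∧ ∃ H : SimpleGraph V, H ≤ G ∧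
      Loc H (A ∪ s.1) X ∧ Fr H (d + 1) (A ∪ s.1) X ∧
      ∀ x ∈ X, ((d + 1 : ℕ) : ℕ∞) ≤ {y | H.Adj x y}.encard := fun s =>
    exists_block_of_not_strong hAD (hbad s.1 s.2.1 s.2.2.1 s.2.2.2)
  choose X hX1 hX2 hX3 B hB1 hB2 hB3 hB4 using hstep
  let nx : {S : Set V // S0 ⊆ S ∧ S.Finite ∧ S ⊆ D} → {S : Set V // S0 ⊆ S ∧ S.Finite ∧ S ⊆ D} :=
    fun s => ⟨s.1 ∪ X s, s.2.1.trans subset_union_left, s.2.2.1.union (hX2 s),
      union_subset s.2.2.2 ((hX1 s).trans (fun _ h => h.1))⟩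
  let f : ℕ → {S : Set V // S0 ⊆ S ∧ S.Finite ∧ S ⊆ D} := fun n =>
    Nat.rec ⟨S0, Subset.rfl, hS0, hS0D⟩ (fun _ s => nx s) n
  let S : ℕ → Set V := fun n => (f n).1
  have hSs : ∀ n, S (n + 1) = S n ∪ X (f n) := fun n => rfl
  have hS0' : S 0 = S0 := rfl
  have hm : Monotone S := monotone_nat_of_le_succ (fun n => by rw [hSs]; exact subset_union_left)
  have hSD : ∀ n, S n ⊆ D := fun n => (f n).2.2.2
  have hXD : ∀ n, X (f n) ⊆ D := fun n => (hX1 (f n)).trans (fun _ h => h.1)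
  have hXS : ∀ n, ∀ x ∈ X (f n), x ∉ S n := fun n x hx => ((hX1 (f n)) hx).2
  have hXA : ∀ n, ∀ x ∈ X (f n), x ∉ A := fun n x hx hA =>
    (disjoint_left.mp hAD) hA (hXD n hx)
  let H : SimpleGraph V := ⨆ n, B (f n)
  have hH : ∀ x y, H.Adj x y ↔ ∃ n, (B (f n)).Adj x y := fun x y => SimpleGraph.iSup_adj
  have hloc : Loc H A (⋃ n, S n) := by
    intro x y hxy
    obtain ⟨n, hn⟩ := (hH x y).mp hxy
    have hsub : X (f n) ⊆ ⋃ n, S n := by
      intro z hz
      exact mem_iUnion.mpr ⟨n + 1, by rw [hSs]; exact Or.inr hz⟩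
    have hsub2 : S n ⊆ ⋃ n, S n := subset_iUnion S n
    exact (hB2 (f n)).mono hsub hsub2 x y hn
  have hUD : (⋃ n, S n) ⊆ D := iUnion_subset hSD
  refine ⟨H, ?_, hloc.mono' hUD, ?_, ?_⟩
  · exact iSup_le fun n => hB1 _
  · refine Fr.of_loc hloc hUD hAD (Fr.glueNat S hm ?_ ?_)
    · refine Fr.of_noedge _ _ _ _ ?_
      intro x hx y hy hxy
      obtain ⟨n, hn⟩ := (hH x y).mp hxy
      have hxn : x ∈ S n := hm (Nat.zero_le n) hx
      have hyn : y ∈ A ∨ y ∈ S n := hy.imp id (fun h => hm (Nat.zero_le n) h)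
      rcases (hB2 (f n) x y hn).1 with h | h
      · exact hXS n x h hxn
      · rcases hyn with h2 | h2
        · exact hXA n y h h2
        · exact hXS n y h h2
    · intro n
      refine (hB3 (f n)).mono le_rfl Subset.rfl ?_ ?_
      · rintro x ⟨hx, hx2⟩
        rw [hSs] at hx
        rcases hx with h | h
        · exact absurd h hx2
        · exact h
      · intro x hx y hy hxy
        have hxX : x ∈ X (f n) := by
          have := hx.1
          rw [hSs] at this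
          rcases this with h | h
          · exact absurd h hx.2
          · exact h
        obtain ⟨m, hm'⟩ := (hH x y).mp hxy
        obtain ⟨l1, l2, l3⟩ := hB2 (f m) x y hm'
        rcases lt_trichotomy m n with hmn | hmn | hmn
        · exfalso
          have h1 : x ∈ S (m + 1) ∨ x ∈ A := by
            rw [hSs]
            rcases l2 with (h | h) | h
            · exact Or.inr h
            · exact Or.inl (Or.inl h)
            · exact Or.inl (Or.inr h)
          rcases h1 with h1 | h1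
          · exact hx.2 (hm (show m + 1 ≤ n by omega) h1)
          · exact hXA n x hxX h1
        · rwa [hmn] at hm'
        · exfalso
          have hxm : x ∈ S m := hm (by omega : n + 1 ≤ m) hx.1
          have hym : y ∈ A ∨ y ∈ S m := by
            rcases hy with (h | h) | h
            · exact Or.inl h
            · exact Or.inr (hm (by omega : n ≤ m) h)
            · exact Or.inr (hm (by omega : n + 1 ≤ m) h.1)
          rcases l1 with h | h
          · exact hXS m x h hxm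
          · rcases hym with h2 | h2
            · exact hXA m y h h2
            · exact hXS m y h h2
  · rintro ⟨r, wf, tot, deg⟩
    obtain ⟨K, hK1, hK2, hK3, hK4⟩ := exists_closure_set wf deg hS0 hS0D
    have hSK : ∀ n, S n ⊆ K := by
      intro n
      induction n with
      | zero => exact hK3
      | succ n ih =>
        rw [hSs]
        refine union_subset ih ?_
        exact lower wf tot deg hK2 hK4 ih (hX2 (f n)) (hXD n) (fun x y h => (hH x y).mpr ⟨n, h⟩)
          (hB2 (f n)) (hB4 (f n))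
    have hcard : ∀ n, n ≤ (S n).ncard := by
      intro n
      induction n with
      | zero => exact Nat.zero_le _
      | succ n ih =>
        have h1 : (S n).ncard < (S (n + 1)).ncard := by
          apply ncard_lt_ncard _ (hK1.subset (hSK (n + 1)))
          refine ⟨hm (Nat.le_succ n), fun hsub => ?_⟩
          obtain ⟨x, hx⟩ := hX3 (f n)
          exact hXS n x hx (hsub (by rw [hSs]; exact Or.inr hx))
        omega
    have h1 := hcard (K.ncard + 1)
    have h2 := ncard_le_ncard (hSK (K.ncard + 1)) hK1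
    omega

/-- The countable case. -/
theorem main_countable {G : SimpleGraph V} {d : ℕ} {A D : Set V} (hAD : Disjoint A D)
    (hD : D.Countable) (hbad : ¬ Fr G (d + 1) A D) : Out G d A D := by
  by_cases h0 : Strong G d A D ∅
  swap
  · obtain ⟨X, hX1, hX2, hX3, H, hH1, hH2, hH3, hH4⟩ := exists_block_of_not_strong hAD h0
    have hXD : X ⊆ D := hX1.trans (fun _ h => h.1)
    rw [union_empty] at hH2 hH3
    refine Out.extend hXD hAD ⟨H, hH1, hH2, hH3, ?_⟩
    rintro ⟨r, wf, tot, deg⟩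
    have := lower (K := ∅) (S := ∅) wf tot deg (empty_subset _) (fun x hx => absurd hx (notMem_empty _))
      Subset.rfl hX2 Subset.rfl le_rfl (by rw [union_empty]; exact hH2) hH4
    obtain ⟨x, hx⟩ := hX3
    exact absurd (this hx) (notMem_empty _)
  by_cases h1 : ∀ S0 : Set V, S0.Finite → S0 ⊆ D → ∃ S, S0 ⊆ S ∧ S.Finite ∧ S ⊆ D ∧
      Strong G d A D S
  swap
  · push Not at h1
    obtain ⟨S0, hS1, hS2, hS3⟩ := h1
    exact tower hAD hS1 hS2 hS3
  exfalso
  apply hbad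
  rcases D.eq_empty_or_nonempty with rfl | hne
  · exact Fr.empty _ _ _
  obtain ⟨e, he⟩ := hD.exists_eq_range hne
  have heD : ∀ n, e n ∈ D := fun n => by rw [he]; exact mem_range_self n
  have hstep : ∀ (n : ℕ) (s : {S : Set V // S.Finite ∧ S ⊆ D ∧ Strong G d A D S}),
      ∃ t : {S : Set V // S.Finite ∧ S ⊆ D ∧ Strong G d A D S}, s.1 ∪ {e n} ⊆ t.1 := by
    intro n s
    obtain ⟨S, hS1, hS2, hS3, hS4⟩ := h1 (s.1 ∪ {e n}) (s.2.1.union (finite_singleton _))
      (union_subset s.2.2.1 (singleton_subset_iff.mpr (heD n)))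
    exact ⟨⟨S, hS2, hS3, hS4⟩, hS1⟩
  choose nx hnx using hstep
  let f : ℕ → {S : Set V // S.Finite ∧ S ⊆ D ∧ Strong G d A D S} := fun n =>
    Nat.rec ⟨∅, finite_empty, empty_subset _, h0⟩ (fun n s => nx n s) n
  let S : ℕ → Set V := fun n => (f n).1
  have hSs : ∀ n, S n ∪ {e n} ⊆ S (n + 1) := fun n => hnx n (f n)
  have hm : Monotone S := monotone_nat_of_le_succ (fun n => subset_union_left.trans (hSs n))
  have hU : (⋃ n, S n) = D := by
    apply Subset.antisymm (iUnion_subset fun n => (f n).2.2.1)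
    intro x hx
    rw [he] at hx
    obtain ⟨n, rfl⟩ := hx
    exact mem_iUnion.mpr ⟨n + 1, hSs n (Or.inr rfl)⟩
  rw [← hU]
  refine Fr.glueNat S hm (Fr.empty _ _ _) ?_
  intro n
  refine Fr.of_strong (f n).2.2.2 ((f (n + 1)).2.1.subset (fun _ h => h.1)) ?_
  rintro x ⟨hx, hx2⟩
  exact ⟨(f (n + 1)).2.2.1 hx, hx2⟩

end H6Col
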