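import Pool.Agent.H6.ColB

/-!
Colouring number: chains along a regular cardinal, the regular case, and good hulls.
-/

open Cardinal Set

namespace H6Col

universe u

variable {V : Type u}

theorem mk_Iio_ord {κ : Cardinal.{u}} (i : κ.ord.ToType) : #(Iio i) < κ := by
  have := mk_Iio_lt i (by simp)
  rwa [mk_ord_toType] at this

theorem mk_Iic_ord {κ : Cardinal.{u}} (hκ : ℵ₀ ≤ κ) (i : κ.ord.ToType) : #(Iic i) < κ := by
  have h1 : (Iic i : Set κ.ord.ToType) = insert i (Iio i) := by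
    ext x; simp [le_iff_eq_or_lt]
  rw [h1]
  refine lt_of_le_of_lt (mk_insert_le) ?_
  exact add_lt_of_lt hκ (mk_Iio_ord i) (lt_of_lt_of_le one_lt_aleph0 hκ)

/-- Small subsets of a regular cardinal are bounded. -/
theorem exists_bound {κ : Cardinal.{u}} (hreg : κ.IsRegular) (B : Set κ.ord.ToType)
    (hB : #B < κ) : ∃ i, ∀ b ∈ B, b < i := by
  by_contra hcon
  push Not at hcon
  have h1 : (⋃ b : B, Iic b.1) = (univ : Set κ.ord.ToType) := by
    ext i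
    simp only [mem_iUnion, mem_Iic, mem_univ, iff_true]
    obtain ⟨b, hb, hib⟩ := hcon i
    exact ⟨⟨b, hb⟩, hib⟩
  have h2 : #(⋃ b : B, Iic b.1) < κ :=
    (card_iUnion_lt_iff_forall_of_isRegular hreg hB).mpr (fun b => mk_Iic_ord hreg.aleph0_le b.1)
  rw [h1, mk_univ, mk_ord_toType] at h2
  exact lt_irrefl _ h2

theorem exists_chain {κ : Cardinal.{u}} (B : Set V) (W : κ.ord.ToType → Set V → Set V) :
    ∃ F : κ.ord.ToType → Set V, ∀ a x, x ∈ F a ↔ x ∈ B ∨ ∃ b < a, x ∈ W b (F b) := by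
  let F : κ.ord.ToType → Set V := (wellFounded_lt (α := κ.ord.ToType)).fix
    (fun a ih => B ∪ {x | ∃ b, ∃ h : b < a, x ∈ W b (ih b h)})
  have hF : ∀ a, F a = B ∪ {x | ∃ b, ∃ _ : b < a, x ∈ W b (F b)} := by
    intro a
    exact (wellFounded_lt (α := κ.ord.ToType)).fix_eq _ a
  refine ⟨F, fun a x => ?_⟩
  constructor
  · intro h
    rw [hF a] at h
    rcases h with h | ⟨b, hb, h⟩
    · exact Or.inl h
    · exact Or.inr ⟨b, hb, h⟩
  · intro h
    rw [hF a]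
    rcases h with h | ⟨b, hb, h⟩
    · exact Or.inl h
    · exact Or.inr ⟨b, hb, h⟩

theorem chain_mono {κ : Cardinal.{u}} {B : Set V} {U : κ.ord.ToType → Set V}
    {F : κ.ord.ToType → Set V} (hF : ∀ a x, x ∈ F a ↔ x ∈ B ∨ ∃ b < a, x ∈ U b) :
    Monotone F := by
  intro a a' haa x hx
  rw [hF] at hx ⊢
  rcases hx with h | ⟨b, hb, h⟩
  · exact Or.inl h
  · exact Or.inr ⟨b, lt_of_lt_of_le hb haa, h⟩

theorem chain_card {κ : Cardinal.{u}} (hreg : κ.IsRegular) {B : Set V}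
    {U : κ.ord.ToType → Set V} {F : κ.ord.ToType → Set V}
    (hF : ∀ a x, x ∈ F a ↔ x ∈ B ∨ ∃ b < a, x ∈ U b)
    (hB : #B < κ) (hU : ∀ a, #(U a) < κ) (a : κ.ord.ToType) : #(F a) < κ := by
  have h1 : F a = B ∪ ⋃ b : Iio a, U b.1 := by
    ext x
    rw [hF]
    simp only [mem_union, mem_iUnion]
    constructor
    · rintro (h | ⟨b, hb, h⟩)
      · exact Or.inl h
      · exact Or.inr ⟨⟨b, hb⟩, h⟩
    · rintro (h | ⟨⟨b, hb⟩, h⟩)
      · exact Or.inl h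
      · exact Or.inr ⟨b, hb, h⟩
  rw [h1]
  refine lt_of_le_of_lt (mk_union_le _ _) (add_lt_of_lt hreg.aleph0_le hB ?_)
  exact (card_iUnion_lt_iff_forall_of_isRegular hreg (mk_Iio_ord a)).mpr (fun b => hU b.1)

/-- Closed indices are unbounded. -/
theorem chain_closed {κ : Cardinal.{u}} (hreg : κ.IsRegular) (hκ : ℵ₀ < κ) {B : Set V}
    {U : κ.ord.ToType → Set V} {F : κ.ord.ToType → Set V}
    (hF : ∀ a x, x ∈ F a ↔ x ∈ B ∨ ∃ b < a, x ∈ U b)
    (hFc : ∀ a, #(F a) < κ) (bk : V → Set V)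
    (hbk : ∀ a, ∀ x ∈ F a, (bk x).Finite ∧ ∀ y ∈ bk x, ∃ a', y ∈ F a') (a0 : κ.ord.ToType) :
    ∃ a, a0 ≤ a ∧ ∀ x ∈ F a, bk x ⊆ F a := by
  have hm := chain_mono hF
  have hstep : ∀ a, ∃ a', a < a' ∧ ∀ x ∈ F a, bk x ⊆ F a' := by
    intro a
    let P : Set V := ⋃ x : F a, bk x.1
    have hP : #P < κ := (card_iUnion_lt_iff_forall_of_isRegular hreg (hFc a)).mpr
      (fun x => lt_trans (lt_aleph0_iff_set_finite.mpr (hbk a x.1 x.2).1) hκ)
    have h1 : ∀ y : P, ∃ a', y.1 ∈ F a' := by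
      rintro ⟨y, hy⟩
      obtain ⟨x, hx⟩ := mem_iUnion.mp hy
      exact (hbk a x.1 x.2).2 y hx
    choose g hg using h1
    obtain ⟨i, hi⟩ := exists_bound hreg (insert a (range g))
      (lt_of_le_of_lt mk_insert_le (add_lt_of_lt hreg.aleph0_le
        (lt_of_le_of_lt mk_range_le hP) (lt_trans one_lt_aleph0 hκ)))
    refine ⟨i, hi a (mem_insert _ _), fun x hx y hy => ?_⟩
    have hyP : y ∈ P := mem_iUnion.mpr ⟨⟨x, hx⟩, hy⟩
    exact hm (hi _ (Or.inr ⟨⟨y, hyP⟩, rfl⟩)).le (hg ⟨y, hyP⟩)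
  choose nx hnx1 hnx2 using hstep
  let s : ℕ → κ.ord.ToType := fun n => Nat.rec a0 (fun _ a => nx a) n
  have hs : ∀ n, s (n + 1) = nx (s n) := fun n => rfl
  obtain ⟨i, hi⟩ := exists_bound hreg (range s)
    (lt_of_le_of_lt (mk_le_aleph0_iff.mpr (countable_range s).to_subtype) hκ)
  obtain ⟨δ, hδ, hmin⟩ := WellFounded.wellFounded_iff_has_min.mp
    (wellFounded_lt (α := κ.ord.ToType)) {j | ∀ n, s n ≤ j}
    ⟨i, fun n => (hi _ (mem_range_self n)).le⟩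
  refine ⟨δ, hδ 0, ?_⟩
  intro x hx
  have h1 : ∃ n, x ∈ F (s n) := by
    rw [hF] at hx
    rcases hx with h | ⟨b, hb, h⟩
    · exact ⟨0, (hF _ _).mpr (Or.inl h)⟩
    · have h2 : ¬ (∀ n, s n ≤ b) := fun h3 => hmin b h3 hb
      push Not at h2
      obtain ⟨n, hn⟩ := h2
      exact ⟨n, (hF _ _).mpr (Or.inr ⟨b, hn, h⟩)⟩
  obtain ⟨n, hn⟩ := h1
  exact (hnx2 (s n) x hn).trans (hm (hδ (n + 1)))

theorem finite_back {G : SimpleGraph V} {c : ℕ} {A D : Set V} {r : V → V → Prop}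
    (deg : ∀ x ∈ D, {y | G.Adj x y ∧ (y ∈ A ∨ (y ∈ D ∧ r y x))}.encard ≤ c) (x : V)
    (hx : x ∈ D) : {y | y ∈ D ∧ G.Adj x y ∧ r y x}.Finite := by
  refine Set.Finite.subset (s := {y | G.Adj x y ∧ (y ∈ A ∨ (y ∈ D ∧ r y x))}) ?_ ?_
  · exact finite_of_encard_le_coe (deg x hx)
  · rintro y ⟨h1, h2, h3⟩
    exact ⟨h2, Or.inr ⟨h1, h3⟩⟩

/-- Good hulls. -/
theorem exists_hull {G : SimpleGraph V} {c : ℕ} {A D S : Set V} {μ : Cardinal.{u}}
    (hμ : ℵ₀ ≤ μ) (hsmall : ∀ T ⊆ D, #T ≤ Order.succ μ → Fr G c A T) (hSD : S ⊆ D)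
    (hS : #S ≤ μ) : ∃ S', S ⊆ S' ∧ S' ⊆ D ∧ #S' ≤ μ ∧
      ∀ T ⊆ D, #T ≤ μ → Fr G c (A ∪ S') (T \ S') := by
  classical
  by_contra hcon
  push Not at hcon
  have h1 : ∀ S' : Set V, ∃ T : Set V, T ⊆ D ∧ #T ≤ μ ∧
      (S ⊆ S' → S' ⊆ D → #S' ≤ μ → ¬ Fr G c (A ∪ S') (T \ S')) := by
    intro S'
    by_cases h : S ⊆ S' ∧ S' ⊆ D ∧ #S' ≤ μ
    · obtain ⟨T, hT1, hT2, hT3⟩ := hcon S' h.1 h.2.1 h.2.2
      exact ⟨T, hT1, hT2, fun _ _ _ => hT3⟩
    · refine ⟨∅, empty_subset _, by simp, fun a b c => absurd ⟨a, b, c⟩ h⟩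
  choose T hT1 hT2 hT3 using h1
  have hreg : (Order.succ μ).IsRegular := isRegular_succ hμ
  have hκ : ℵ₀ < Order.succ μ := lt_of_le_of_lt hμ (Order.lt_succ μ)
  obtain ⟨F, hF⟩ := exists_chain (κ := Order.succ μ) S (fun _ S' => T S')
  have hm := chain_mono hF
  have hcard : ∀ a, #(F a) < Order.succ μ := chain_card hreg hF (Order.lt_succ_iff.mpr hS)
    (fun a => Order.lt_succ_iff.mpr (hT2 _))
  have hFD : ∀ a, F a ⊆ D := by
    intro a x hx
    rw [hF] at hx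
    rcases hx with h | ⟨b, _, h⟩
    · exact hSD h
    · exact hT1 _ h
  have hU : #(⋃ a, F a) ≤ Order.succ μ := by
    refine (mk_iUnion_le_sum_mk).trans ?_
    refine (sum_le_sum _ (fun _ => Order.succ μ) (fun a => (hcard a).le)).trans ?_
    rw [sum_const', mk_ord_toType]
    exact (mul_eq_self hκ.le).le
  obtain ⟨r, wf, tot, deg⟩ := hsmall (⋃ a, F a) (iUnion_subset hFD) hU
  have hne : Nonempty (Order.succ μ).ord.ToType := by
    rw [← mk_ne_zero_iff, mk_ord_toType]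
    exact (lt_trans aleph0_pos hκ).ne'
  obtain ⟨a, -, ha⟩ := chain_closed hreg hκ hF hcard
    (fun x => {y | y ∈ (⋃ a, F a) ∧ G.Adj x y ∧ r y x})
    (fun a x hx => ⟨finite_back deg x (mem_iUnion.mpr ⟨a, hx⟩), fun y hy => mem_iUnion.mp hy.1⟩)
    (Classical.choice hne)
  have h2 : Fr G c (A ∪ F a) ((⋃ a, F a) \ F a) :=
    Fr.ext_base wf tot deg (subset_iUnion F a)
      (fun x hx y hy hxy hr => ha x hx ⟨hy, hxy, hr⟩)
  refine hT3 (F a) ?_ (hFD a) (Order.lt_succ_iff.mp (hcard a)) (h2.mono le_rfl Subset.rfl ?_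
    (fun _ _ _ _ h => h))
  · intro x hx
    exact (hF _ _).mpr (Or.inl hx)
  · rintro x ⟨hx, hx2⟩
    obtain ⟨i, hi⟩ := exists_bound hreg {a} (by
      rw [mk_singleton]; exact lt_trans one_lt_aleph0 hκ)
    exact ⟨mem_iUnion.mpr ⟨i, (hF _ _).mpr (Or.inr ⟨a, hi a rfl, hx⟩)⟩, hx2⟩

/-- The regular case. -/
theorem main_regular {κ : Cardinal.{u}} (hreg : κ.IsRegular) (hκ : ℵ₀ < κ)
    {G : SimpleGraph V} {d : ℕ} {A D : Set V} (hD : #D = κ) (hAD : Disjoint A D)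
    (IH : ∀ (A' D' : Set V), #D' < κ → Disjoint A' D' → ¬ Fr G (d + 1) A' D' → Out G d A' D')
    (hbad : ¬ Fr G (d + 1) A D) : Out G d A D := by
  classical
  have h1 : ∀ S : Set V, ∃ (T : Set V) (H : SimpleGraph V), T ⊆ D \ S ∧ #T < κ ∧ H ≤ G ∧
      Loc H (A ∪ S) T ∧ Fr H (d + 1) (A ∪ S) T ∧
      ((∃ T' ⊆ D, #T' < κ ∧ ¬ Fr G (d + 1) (A ∪ S) (T' \ S)) → ¬ Fr H d (A ∪ S) T) := by
    intro S
    by_cases h : ∃ T' ⊆ D, #T' < κ ∧ ¬ Fr G (d + 1) (A ∪ S) (T' \ S)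
    · obtain ⟨T', hT1, hT2, hT3⟩ := h
      have hc : #(↥(T' \ S)) < κ := lt_of_le_of_lt (mk_le_mk_of_subset (fun _ h => h.1)) hT2
      have hdis : Disjoint (A ∪ S) (T' \ S) := by
        rw [disjoint_left]
        rintro x (hx | hx) hx2
        · exact (disjoint_left.mp hAD) hx (hT1 hx2.1)
        · exact hx2.2 hx
      obtain ⟨H, hH1, hH2, hH3, hH4⟩ := IH (A ∪ S) (T' \ S) hc hdis hT3
      exact ⟨T' \ S, H, fun x hx => ⟨hT1 hx.1, hx.2⟩, hc, hH1, hH2, hH3, fun _ => hH4⟩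
    · refine ⟨∅, ⊥, empty_subset _, ?_, bot_le, ?_, Fr.empty _ _ _, fun h2 => absurd h2 h⟩
      · simpa using lt_trans aleph0_pos hκ
      · intro x y hxy
        exact absurd hxy (by simp)
  choose T Hg hT1 hT2 hH1 hH2 hH3 hH4 using h1
  have hne : Nonempty κ.ord.ToType := by
    rw [← mk_ne_zero_iff, mk_ord_toType]
    exact (lt_trans aleph0_pos hκ).ne'
  obtain ⟨e⟩ : Nonempty (κ.ord.ToType ≃ D) := by
    rw [← Cardinal.eq, mk_ord_toType, hD]
  obtain ⟨F, hF0⟩ := exists_chain (κ := κ) (∅ : Set V) (fun b S' => insert (e b : V) (T S'))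
  have hF : ∀ a x, x ∈ F a ↔ ∃ b < a, x ∈ insert (e b : V) (T (F b)) := by
    intro a x
    rw [hF0]
    simp
  have hm := chain_mono hF0
  have hcard : ∀ a, #(F a) < κ := chain_card hreg hF0 (by simpa using lt_trans aleph0_pos hκ)
    (fun a => lt_of_le_of_lt mk_insert_le (add_lt_of_lt hκ.le (hT2 _) (lt_trans one_lt_aleph0 hκ)))
  have hWD : ∀ a, insert (e a : V) (T (F a)) ⊆ D := fun a =>
    insert_subset (e a).2 ((hT1 _).trans (fun _ h => h.1))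
  have hFD : ∀ a, F a ⊆ D := by
    intro a x hx
    obtain ⟨b, _, h⟩ := (hF a x).mp hx
    exact hWD b h
  have hgt : ∀ a : κ.ord.ToType, ∃ i, a < i := by
    intro a
    obtain ⟨i, hi⟩ := exists_bound hreg {a} (by
      rw [mk_singleton]; exact lt_trans one_lt_aleph0 hκ)
    exact ⟨i, hi a rfl⟩
  have hDW : ∀ x ∈ D, ∃ a, x ∈ insert (e a : V) (T (F a)) := by
    intro x hx
    refine ⟨e.symm ⟨x, hx⟩, ?_⟩
    simp
  have hDF : ∀ x ∈ D, ∃ a, x ∈ F a := by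
    intro x hx
    obtain ⟨b, hb⟩ := hDW x hx
    obtain ⟨i, hi⟩ := hgt b
    exact ⟨i, (hF _ _).mpr ⟨b, hi, hb⟩⟩
  have hTA : ∀ a, ∀ x ∈ T (F a), x ∉ A := fun a x hx hA =>
    (disjoint_left.mp hAD) hA ((hT1 _) hx).1
  have hTF : ∀ a, ∀ x ∈ T (F a), x ∉ F a := fun a x hx => ((hT1 _) hx).2
  have hWF : ∀ a b, a < b → ∀ x ∈ insert (e a : V) (T (F a)), x ∈ F b := fun a b hab x hx =>
    (hF _ _).mpr ⟨a, hab, hx⟩
  let H : SimpleGraph V := ⨆ a, Hg (F a)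
  have hH : ∀ x y, H.Adj x y ↔ ∃ a, (Hg (F a)).Adj x y := fun x y => SimpleGraph.iSup_adj
  have hTD : ∀ a, T (F a) ⊆ D := fun a => (hT1 _).trans (fun _ h => h.1)
  refine ⟨H, iSup_le fun a => hH1 _, ?_, ?_, ?_⟩
  · intro x y hxy
    obtain ⟨a, ha⟩ := (hH x y).mp hxy
    exact (hH2 (F a)).mono (hTD a) (hFD a) x y ha
  · -- upper bound
    let l : V → κ.ord.ToType := fun x =>
      if h : ∃ a, x ∈ insert (e a : V) (T (F a)) then
        (wellFounded_lt (α := κ.ord.ToType)).min {a | x ∈ insert (e a : V) (T (F a))} h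
      else Classical.choice hne
    have hl1 : ∀ x ∈ D, x ∈ insert (e (l x) : V) (T (F (l x))) := by
      intro x hx
      have h := hDW x hx
      have h2 : l x = (wellFounded_lt (α := κ.ord.ToType)).min
        {a | x ∈ insert (e a : V) (T (F a))} h := by simp only [l, dif_pos h]
      rw [h2]
      exact (wellFounded_lt (α := κ.ord.ToType)).min_mem
        {a | x ∈ insert (e a : V) (T (F a))} h
    have hl2 : ∀ x ∈ D, x ∉ F (l x) := by
      intro x hx hxF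
      have h := hDW x hx
      have h2 : l x = (wellFounded_lt (α := κ.ord.ToType)).min
        {a | x ∈ insert (e a : V) (T (F a))} h := by simp only [l, dif_pos h]
      obtain ⟨b, hb, hxb⟩ := (hF _ _).mp hxF
      rw [h2] at hb
      exact (wellFounded_lt (α := κ.ord.ToType)).not_lt_min
        {a | x ∈ insert (e a : V) (T (F a))} hxb hb
    refine Fr.glue l (fun i => ?_)
    have h3 : Fr (Hg (F i)) (d + 1) (A ∪ F i) (insert (e i : V) (T (F i)) \ F i) := by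
      refine Fr.of_loc (hH2 (F i)) ?_ ?_ (hH3 (F i))
      · intro x hx
        exact ⟨Or.inr hx, hTF i x hx⟩
      · rw [disjoint_left]
        rintro x (hx | hx) hx2
        · exact (disjoint_left.mp hAD) hx (hWD i hx2.1)
        · exact hx2.2 hx
    have hsub1 : {x | x ∈ D ∧ l x < i} ⊆ F i := by
      rintro x ⟨hx, hx2⟩
      exact (hF _ _).mpr ⟨l x, hx2, hl1 x hx⟩
    have hsub2 : {x | x ∈ D ∧ l x = i} ⊆ insert (e i : V) (T (F i)) \ F i := by
      rintro x ⟨hx, rfl⟩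
      exact ⟨hl1 x hx, hl2 x hx⟩
    refine h3.mono le_rfl (union_subset_union_right _ hsub1) hsub2 ?_
    intro x hx y hy hxy
    have hxW := hsub2 hx
    obtain ⟨m, hm'⟩ := (hH x y).mp hxy
    obtain ⟨l1, l2, l3⟩ := hH2 (F m) x y hm'
    rcases lt_trichotomy m i with hmi | hmi | hmi
    · exfalso
      rcases l2 with (h | h) | h
      · exact (disjoint_left.mp hAD) h hx.1
      · exact hxW.2 (hm hmi.le h)
      · exact hxW.2 (hWF m i hmi x (Or.inr h))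
    · rwa [hmi] at hm'
    · exfalso
      have hxm : x ∈ F m := hWF i m hmi x hxW.1
      have hym : y ∈ A ∨ y ∈ F m := by
        rcases hy with (h | h) | h
        · exact Or.inl h
        · exact Or.inr (hm hmi.le (hsub1 h))
        · exact Or.inr (hWF i m hmi y (hsub2 h).1)
      rcases l1 with h | h
      · exact hTF m x h hxm
      · rcases hym with h2 | h2
        · exact hTA m y h h2
        · exact hTF m y h h2
  · -- lower bound
    rintro ⟨r, wf, tot, deg⟩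
    apply hbad
    let bk : V → Set V := fun x => {y | y ∈ D ∧ H.Adj x y ∧ r y x}
    let C : Set κ.ord.ToType := {a | ∀ x ∈ F a, bk x ⊆ F a}
    have hCun : ∀ a0, ∃ a, a0 ≤ a ∧ a ∈ C := by
      intro a0
      obtain ⟨a, h1, h2⟩ := chain_closed hreg hκ hF0 hcard bk
        (fun a x hx => ⟨finite_back deg x (hFD a hx), fun y hy => hDF y hy.1⟩) a0
      exact ⟨a, h1, h2⟩
    have hgood : ∀ a ∈ C, ∀ T' ⊆ D, #T' < κ → Fr G (d + 1) (A ∪ F a) (T' \ F a) := by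
      intro a ha T' hT' hT'c
      by_contra hcon
      refine hH4 (F a) ⟨T', hT', hT'c, hcon⟩ ?_
      have h2 : Fr H d (A ∪ F a) (D \ F a) :=
        Fr.ext_base wf tot deg (hFD a) (fun x hx y hy hxy hr => ha x hx ⟨hy, hxy, hr⟩)
      exact h2.mono le_rfl Subset.rfl (fun x hx => (hT1 _) hx)
        (fun x _ y _ h => (hH x y).mpr ⟨a, h⟩)
    have hDC : ∀ x ∈ D, ∃ a, a ∈ C ∧ x ∈ F a := by
      intro x hx
      obtain ⟨a, ha⟩ := hDF x hx
      obtain ⟨b, hb1, hb2⟩ := hCun a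
      exact ⟨b, hb2, hm hb1 ha⟩
    let l : V → κ.ord.ToType := fun x =>
      if h : ∃ a, a ∈ C ∧ x ∈ F a then
        (wellFounded_lt (α := κ.ord.ToType)).min {a | a ∈ C ∧ x ∈ F a} h
      else Classical.choice hne
    have hl1 : ∀ x ∈ D, l x ∈ C ∧ x ∈ F (l x) := by
      intro x hx
      have h := hDC x hx
      have h2 : l x = (wellFounded_lt (α := κ.ord.ToType)).min
        {a | a ∈ C ∧ x ∈ F a} h := by simp only [l, dif_pos h]
      rw [h2]
      exact (wellFounded_lt (α := κ.ord.ToType)).min_mem {a | a ∈ C ∧ x ∈ F a} h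
    have hl2 : ∀ x ∈ D, ∀ a ∈ C, x ∈ F a → ¬ a < l x := by
      intro x hx a haC hxa
      have h := hDC x hx
      have h2 : l x = (wellFounded_lt (α := κ.ord.ToType)).min
        {a | a ∈ C ∧ x ∈ F a} h := by simp only [l, dif_pos h]
      rw [h2]
      exact (wellFounded_lt (α := κ.ord.ToType)).not_lt_min {a | a ∈ C ∧ x ∈ F a} ⟨haC, hxa⟩
    refine Fr.glue l (fun γ => ?_)
    obtain ⟨δ, hδ, hmin⟩ := WellFounded.wellFounded_iff_has_min.mp
      (wellFounded_lt (α := κ.ord.ToType)) {j | ∀ γ' ∈ C, γ' < γ → γ' ≤ j}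
      ⟨γ, fun γ' _ h => h.le⟩
    have hkey : ∀ x ∈ F δ, ∃ γ' ∈ C, γ' < γ ∧ x ∈ F γ' := by
      intro x hx
      obtain ⟨b, hb, hxb⟩ := (hF _ _).mp hx
      have h2 : ¬ (∀ γ' ∈ C, γ' < γ → γ' ≤ b) := fun h3 => hmin b h3 hb
      push Not at h2
      obtain ⟨γ', h3, h4, h5⟩ := h2
      exact ⟨γ', h3, h4, hWF b γ' h5 x hxb⟩
    have hδC : δ ∈ C := by
      intro x hx
      obtain ⟨γ', h3, h4, h5⟩ := hkey x hx
      exact (h3 x h5).trans (hm (hδ γ' h3 h4))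
    have h3 := hgood δ hδC (F γ) (hFD γ) (hcard γ)
    refine h3.mono le_rfl (union_subset_union_right _ ?_) ?_ (fun _ _ _ _ h => h)
    · rintro x ⟨hx, hx2⟩
      exact hm (hδ (l x) (hl1 x hx).1 hx2) (hl1 x hx).2
    · rintro x ⟨hx, rfl⟩
      refine ⟨(hl1 x hx).2, fun hxδ => ?_⟩
      obtain ⟨γ', h3, h4, h5⟩ := hkey x hxδ
      exact hl2 x hx γ' h3 h5 h4

end H6Col
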