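import Pool.Agent.H6.ColC

/-!
Colouring number: singular compactness.
-/

open Cardinal Set

namespace H6Col

universe u

variable {V : Type u}

/-- Data of an ordered set over the base `A`. -/
structure Ord1 (G : SimpleGraph V) (c : ℕ) (A X : Set V) (r : V → V → Prop) : Prop where
  wf : WellFounded r
  hr : ∀ y x, r y x → y ∈ X ∧ x ∈ X
  tot : ∀ x ∈ X, ∀ y ∈ X, G.Adj x y → r x y ∨ r y x
  deg : ∀ x ∈ X, {y | G.Adj x y ∧ (y ∈ A ∨ (y ∈ X ∧ r y x))}.encard ≤ c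

theorem end_ext {G : SimpleGraph V} {c : ℕ} {A X Y : Set V} {r : V → V → Prop}
    (h : Ord1 G c A X r) (hXY : X ⊆ Y) (hF : Fr G c (A ∪ X) (Y \ X)) :
    ∃ r', Ord1 G c A Y r' ∧ ∀ x ∈ X, ∀ y, r' y x ↔ r y x := by
  classical
  obtain ⟨s, swf, stot, sdeg⟩ := hF
  let r' : V → V → Prop := fun y x => (x ∈ X ∧ r y x) ∨
    ((x ∈ Y ∧ x ∉ X) ∧ (y ∈ X ∨ ((y ∈ Y ∧ y ∉ X) ∧ s y x)))
  refine ⟨r', ⟨?_, ?_, ?_, ?_⟩, ?_⟩
  · have h1 := wf_glue (fun x => if x ∈ X then (0 : ℕ) else 1)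
      (fun i => if i = 0 then r else s) (fun i => by
        by_cases hi : i = 0
        · simpa [hi] using h.wf
        · simpa [hi] using swf)
    refine Subrelation.wf ?_ h1
    rintro y x (⟨hx, hyx⟩ | ⟨⟨hx, hx'⟩, hy | ⟨⟨hy, hy'⟩, hyx⟩⟩)
    · right
      have hy := (h.hr y x hyx).1
      simp [hx, hy, hyx]
    · left
      simp [hx', hy]
    · right
      simp [hx', hy', hyx]
  · rintro y x (⟨hx, hyx⟩ | ⟨⟨hx, hx'⟩, hy | ⟨⟨hy, hy'⟩, hyx⟩⟩)
    · exact ⟨hXY (h.hr y x hyx).1, hXY hx⟩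
    · exact ⟨hXY hy, hx⟩
    · exact ⟨hy, hx⟩
  · intro x hx y hy hxy
    by_cases hxX : x ∈ X
    · by_cases hyX : y ∈ X
      · rcases h.tot x hxX y hyX hxy with h1 | h1
        · exact Or.inl (Or.inl ⟨hyX, h1⟩)
        · exact Or.inr (Or.inl ⟨hxX, h1⟩)
      · exact Or.inl (Or.inr ⟨⟨hy, hyX⟩, Or.inl hxX⟩)
    · by_cases hyX : y ∈ X
      · exact Or.inr (Or.inr ⟨⟨hx, hxX⟩, Or.inl hyX⟩)
      · rcases stot x ⟨hx, hxX⟩ y ⟨hy, hyX⟩ hxy with h1 | h1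
        · exact Or.inl (Or.inr ⟨⟨hy, hyX⟩, Or.inr ⟨⟨hx, hxX⟩, h1⟩⟩)
        · exact Or.inr (Or.inr ⟨⟨hx, hxX⟩, Or.inr ⟨⟨hy, hyX⟩, h1⟩⟩)
  · intro x hx
    by_cases hxX : x ∈ X
    · refine (encard_le_encard ?_).trans (h.deg x hxX)
      rintro y ⟨h1, h2 | ⟨h2, ⟨_, h3⟩ | ⟨h3, _⟩⟩⟩
      · exact ⟨h1, Or.inl h2⟩
      · exact ⟨h1, Or.inr ⟨(h.hr y x h3).1, h3⟩⟩
      · exact absurd hxX h3.2
    · refine (encard_le_encard ?_).trans (sdeg x ⟨hx, hxX⟩)
      rintro y ⟨h1, h2 | ⟨h2, ⟨h3, _⟩ | ⟨_, h3 | ⟨h3, h4⟩⟩⟩⟩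
      · exact ⟨h1, Or.inl (Or.inl h2)⟩
      · exact absurd h3 hxX
      · exact ⟨h1, Or.inl (Or.inr h3)⟩
      · exact ⟨h1, Or.inr ⟨h3, h4⟩⟩
  · intro x hx y
    constructor
    · rintro (⟨_, h1⟩ | ⟨⟨_, h1⟩, _⟩)
      · exact h1
      · exact absurd hx h1
    · intro h1
      exact Or.inl ⟨hx, h1⟩

theorem ord_empty (G : SimpleGraph V) (c : ℕ) (A : Set V) :
    Ord1 G c A ∅ (fun _ _ => False) where
  wf := ⟨fun a => ⟨a, fun _ h => h.elim⟩⟩
  hr := fun _ _ h => h.elim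
  tot := fun x hx => absurd hx (notMem_empty _)
  deg := fun x hx => absurd hx (notMem_empty _)

/-- A state of the construction. -/
def IsSt {I : Type u} (G : SimpleGraph V) (c : ℕ) (A D : Set V) (k : I → Cardinal.{u})
    (p : (I → Set V) × (I → V → V → Prop)) : Prop :=
  (∀ i, p.1 i ⊆ D) ∧ (∀ i, #(p.1 i) ≤ k i) ∧ (∀ i, Ord1 G c A (p.1 i) (p.2 i)) ∧
    ∀ i, ∀ T ⊆ D, #T ≤ k i → Fr G c (A ∪ p.1 i) (T \ p.1 i)

/-- The successor relation between states. -/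
def Nxt {I : Type u} [LinearOrder I] (G : SimpleGraph V)
    (p q : (I → Set V) × (I → V → V → Prop)) : Prop :=
  (∀ i, p.1 i ⊆ q.1 i) ∧ (∀ i, ∀ x ∈ p.1 i, ∀ y, q.2 i y x ↔ p.2 i y x) ∧
    (∀ i j, j < i → p.1 j ⊆ q.1 i) ∧
    ∀ i j, ∀ x ∈ p.1 i, x ∈ p.1 j → ∀ y, G.Adj x y → p.2 j y x → y ∈ q.1 i

theorem exists_next {I : Type u} [LinearOrder I] {G : SimpleGraph V} {c : ℕ} {A D : Set V}
    {k : I → Cardinal.{u}} (hk0 : ∀ i, ℵ₀ ≤ k i) (hkI : ∀ i, #I ≤ k i) (hkm : Monotone k)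
    (hsmall : ∀ i, ∀ T ⊆ D, #T ≤ Order.succ (k i) → Fr G c A T)
    (p : (I → Set V) × (I → V → V → Prop)) (hp : IsSt G c A D k p) :
    ∃ q, IsSt G c A D k q ∧ Nxt G p q := by
  obtain ⟨hp1, hp2, hp3, hp4⟩ := hp
  have hZ : ∀ i : I, ∃ Z : Set V, Z ⊆ D ∧ #Z ≤ k i ∧ p.1 i ⊆ Z ∧ (∀ j, j < i → p.1 j ⊆ Z) ∧
      ∀ j, ∀ x ∈ p.1 i, x ∈ p.1 j → ∀ y, G.Adj x y → p.2 j y x → y ∈ Z := by
    intro i
    let Z1 : Set V := ⋃ j : Iio i, p.1 j.1
    let Z2 : Set V := ⋃ j : I, ⋃ x : ↥(p.1 i ∩ p.1 j), {y | G.Adj x.1 y ∧ p.2 j y x.1}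
    have hZ1 : #Z1 ≤ k i := by
      refine (mk_iUnion_le_sum_mk).trans ?_
      refine (sum_le_sum _ (fun _ => k i) (fun (j : Iio i) => (hp2 j.1).trans (hkm (le_of_lt j.2)))).trans ?_
      rw [sum_const']
      refine (mul_le_mul' ((mk_set_le _).trans (hkI i)) le_rfl).trans ?_
      exact (mul_eq_self (hk0 i)).le
    have hZ2 : #Z2 ≤ k i := by
      refine (mk_iUnion_le_sum_mk).trans ?_
      refine (sum_le_sum _ (fun _ => k i) (fun j => ?_)).trans ?_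
      · refine (mk_iUnion_le_sum_mk).trans ?_
        refine (sum_le_sum _ (fun _ => ℵ₀) (fun x => ?_)).trans ?_
        · have h1 : {y | G.Adj x.1 y ∧ p.2 j y x.1}.Finite := by
            refine (finite_of_encard_le_coe ((hp3 j).deg x.1 x.2.2)).subset ?_
            rintro y ⟨h1, h2⟩
            exact ⟨h1, Or.inr ⟨((hp3 j).hr y _ h2).1, h2⟩⟩
          exact (lt_aleph0_iff_set_finite.mpr h1).le
        · rw [sum_const']
          refine (mul_le_mul' ((mk_le_mk_of_subset inter_subset_left).trans (hp2 i))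
            (hk0 i)).trans ?_
          exact (mul_eq_self (hk0 i)).le
      · rw [sum_const']
        refine (mul_le_mul' (hkI i) le_rfl).trans ?_
        exact (mul_eq_self (hk0 i)).le
    refine ⟨p.1 i ∪ (Z1 ∪ Z2), ?_, ?_, ?_, ?_, ?_⟩
    · refine union_subset (hp1 i) (union_subset (iUnion_subset fun j => hp1 j.1) ?_)
      refine iUnion_subset fun j => iUnion_subset fun x => ?_
      rintro y ⟨_, hy⟩
      exact hp1 j ((hp3 j).hr y _ hy).1
    · refine (mk_union_le _ _).trans ((add_le_add (hp2 i) ((mk_union_le _ _).trans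
        (add_le_add hZ1 hZ2))).trans ?_)
      rw [add_eq_self (hk0 i), add_eq_self (hk0 i)]
    · exact subset_union_left
    · intro j hj x hx
      exact Or.inr (Or.inl (mem_iUnion.mpr ⟨⟨j, hj⟩, hx⟩))
    · intro j x hx hxj y hxy hr
      exact Or.inr (Or.inr (mem_iUnion.mpr ⟨j, mem_iUnion.mpr ⟨⟨x, hx, hxj⟩, hxy, hr⟩⟩))
  choose Z hZ1 hZ2 hZ3 hZ4 hZ5 using hZ
  have hY := fun i => exists_hull (G := G) (c := c) (A := A) (hk0 i) (hsmall i) (hZ1 i) (hZ2 i)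
  choose Y hY1 hY2 hY3 hY4 using hY
  have hr := fun i => end_ext (hp3 i) ((hZ3 i).trans (hY1 i)) (hp4 i (Y i) (hY2 i) (hY3 i))
  choose r' hr1 hr2 using hr
  refine ⟨⟨Y, r'⟩, ⟨hY2, hY3, hr1, hY4⟩, ?_, hr2, ?_, ?_⟩
  · intro i
    exact (hZ3 i).trans (hY1 i)
  · intro i j hj
    exact (hZ4 i j hj).trans (hY1 i)
  · intro i j x hx hxj y hxy hr
    exact hY1 i (hZ5 i j x hx hxj y hxy hr)

theorem singular_aux {I : Type u} [LinearOrder I] [WellFoundedLT I] [Nonempty I]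
    {G : SimpleGraph V} {c : ℕ} {A D : Set V}
    {k : I → Cardinal.{u}} (hk0 : ∀ i, ℵ₀ ≤ k i) (hkI : ∀ i, #I ≤ k i) (hkm : Monotone k)
    (hsmall : ∀ i, ∀ T ⊆ D, #T ≤ Order.succ (k i) → Fr G c A T)
    (W : I → Set V) (hWD : ∀ i, W i ⊆ D) (hWc : ∀ i, #(W i) ≤ k i)
    (hcov : ∀ x ∈ D, ∃ i, x ∈ W i) : Fr G c A D := by
  classical
  -- initial state
  have hinit : ∃ p : (I → Set V) × (I → V → V → Prop), IsSt G c A D k p ∧ ∀ i, W i ⊆ p.1 i := by
    have hY := fun i => exists_hull (G := G) (c := c) (A := A) (hk0 i) (hsmall i) (hWD i) (hWc i)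
    choose Y hY1 hY2 hY3 hY4 using hY
    have hr : ∀ i, ∃ r', Ord1 G c A (Y i) r' := by
      intro i
      have h1 : Fr G c (A ∪ ∅) (Y i \ ∅) := by
        rw [union_empty, Set.sdiff_empty]
        exact hsmall i (Y i) (hY2 i) ((hY3 i).trans (Order.le_succ _))
      obtain ⟨r', h2, _⟩ := end_ext (ord_empty G c A) (empty_subset _) h1
      exact ⟨r', h2⟩
    choose r' hr' using hr
    exact ⟨⟨Y, r'⟩, ⟨hY2, hY3, hr', hY4⟩, hY1⟩
  obtain ⟨p0, hp0, hW0⟩ := hinit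
  have hstep : ∀ p : {p : (I → Set V) × (I → V → V → Prop) // IsSt G c A D k p},
      ∃ q : {p : (I → Set V) × (I → V → V → Prop) // IsSt G c A D k p}, Nxt G p.1 q.1 := by
    intro p
    obtain ⟨q, h1, h2⟩ := exists_next hk0 hkI hkm hsmall p.1 p.2
    exact ⟨⟨q, h1⟩, h2⟩
  choose nx hnx using hstep
  let f : ℕ → {p : (I → Set V) × (I → V → V → Prop) // IsSt G c A D k p} := fun n =>
    Nat.rec ⟨p0, hp0⟩ (fun _ s => nx s) n
  have hf : ∀ n, Nxt G (f n).1 (f (n + 1)).1 := fun n => hnx (f n)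
  let X : ℕ → I → Set V := fun n => (f n).1.1
  let R : ℕ → I → V → V → Prop := fun n => (f n).1.2
  have hO : ∀ n i, Ord1 G c A (X n i) (R n i) := fun n => (f n).2.2.2.1
  have hXm : ∀ i, Monotone (fun n => X n i) := fun i =>
    monotone_nat_of_le_succ (fun n => (hf n).1 i)
  have hR : ∀ i n m, n ≤ m → ∀ x ∈ X n i, ∀ y, R m i y x ↔ R n i y x := by
    intro i n m hnm
    induction m, hnm using Nat.le_induction with
    | base => intro x _ y; exact Iff.rfl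
    | succ m hm ih =>
      intro x hx y
      rw [← ih x hx y]
      exact (hf m).2.1 i x (hXm i hm hx) y
  let Xw : I → Set V := fun i => ⋃ n, X n i
  let Rw : I → V → V → Prop := fun i y x => ∃ n, R n i y x
  have hRw : ∀ i n, ∀ x ∈ X n i, ∀ y, Rw i y x ↔ R n i y x := by
    intro i n x hx y
    constructor
    · rintro ⟨m, hm⟩
      rcases le_total n m with h | h
      · exact (hR i n m h x hx y).mp hm
      · have hxm : x ∈ X m i := ((hO m i).hr y x hm).2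
        exact (hR i m n h x hxm y).mpr hm
    · intro h
      exact ⟨n, h⟩
  have hwf : ∀ i, WellFounded (Rw i) := by
    intro i
    refine ⟨fun x => ?_⟩
    by_cases hx : ∃ n, x ∈ X n i
    · obtain ⟨n, hn⟩ := hx
      have hacc : Acc (R n i) x := (hO n i).wf.apply x
      induction hacc with
      | intro x _ ih =>
        refine ⟨x, fun y hy => ?_⟩
        have hy' := (hRw i n x hn y).mp hy
        exact ih y hy' ((hO n i).hr y x hy').1
    · refine ⟨x, fun y hy => ?_⟩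
      obtain ⟨n, hn⟩ := hy
      exact absurd ⟨n, ((hO n i).hr y x hn).2⟩ hx
  have htot : ∀ i, ∀ x ∈ Xw i, ∀ y ∈ Xw i, G.Adj x y → Rw i x y ∨ Rw i y x := by
    intro i x hx y hy hxy
    obtain ⟨n, hn⟩ := mem_iUnion.mp hx
    obtain ⟨m, hm⟩ := mem_iUnion.mp hy
    rcases (hO (max n m) i).tot x (hXm i (le_max_left n m) hn) y (hXm i (le_max_right n m) hm)
      hxy with h | h
    · exact Or.inl ⟨_, h⟩
    · exact Or.inr ⟨_, h⟩
  have hdeg : ∀ i, ∀ x ∈ Xw i,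
      {y | G.Adj x y ∧ (y ∈ A ∨ (y ∈ Xw i ∧ Rw i y x))}.encard ≤ c := by
    intro i x hx
    obtain ⟨n, hn⟩ := mem_iUnion.mp hx
    refine (encard_le_encard ?_).trans ((hO n i).deg x hn)
    rintro y ⟨h1, h2 | ⟨_, h3⟩⟩
    · exact ⟨h1, Or.inl h2⟩
    · have h4 := (hRw i n x hn y).mp h3
      exact ⟨h1, Or.inr ⟨((hO n i).hr y x h4).1, h4⟩⟩
  have hclos : ∀ i j, ∀ x ∈ Xw i, x ∈ Xw j → ∀ y, G.Adj x y → Rw j y x → y ∈ Xw i := by
    intro i j x hx hxj y hxy hr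
    obtain ⟨n, hn⟩ := mem_iUnion.mp hx
    obtain ⟨m, hm⟩ := mem_iUnion.mp hxj
    have h1 := hXm i (le_max_left n m) hn
    have h2 := hXm j (le_max_right n m) hm
    have h3 := (hRw j (max n m) x h2 y).mp hr
    exact mem_iUnion.mpr ⟨max n m + 1, (hf (max n m)).2.2.2 i j x h1 h2 y hxy h3⟩
  have hnest : ∀ i j, j < i → Xw j ⊆ Xw i := by
    intro i j hj x hx
    obtain ⟨n, hn⟩ := mem_iUnion.mp hx
    exact mem_iUnion.mpr ⟨n + 1, (hf n).2.2.1 i j hj hn⟩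
  have hXD : ∀ i, Xw i ⊆ D := fun i => iUnion_subset fun n => (f n).2.1 i
  have hcov' : ∀ x ∈ D, ∃ i, x ∈ Xw i := by
    intro x hx
    obtain ⟨i, hi⟩ := hcov x hx
    exact ⟨i, mem_iUnion.mpr ⟨0, hW0 i hi⟩⟩
  let l : V → I := fun x =>
    if h : ∃ i, x ∈ Xw i then (wellFounded_lt (α := I)).min {i | x ∈ Xw i} h
    else Classical.choice inferInstance
  have hl1 : ∀ x ∈ D, x ∈ Xw (l x) := by
    intro x hx
    have h := hcov' x hx
    have h2 : l x = (wellFounded_lt (α := I)).min {i | x ∈ Xw i} h := by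
      simp only [l, dif_pos h]
    rw [h2]
    exact (wellFounded_lt (α := I)).min_mem {i | x ∈ Xw i} h
  have hl2 : ∀ x ∈ D, ∀ i, x ∈ Xw i → ¬ i < l x := by
    intro x hx i hi
    have h := hcov' x hx
    have h2 : l x = (wellFounded_lt (α := I)).min {i | x ∈ Xw i} h := by
      simp only [l, dif_pos h]
    rw [h2]
    exact (wellFounded_lt (α := I)).not_lt_min {i | x ∈ Xw i} hi
  refine Fr.glue l (fun i => ?_)
  have hC : {x | x ∈ D ∧ l x < i} ⊆ Xw i := by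
    rintro x ⟨hx, hx2⟩
    exact hnest i (l x) hx2 (hl1 x hx)
  have h1 : Fr G c (A ∪ {x | x ∈ D ∧ l x < i}) (Xw i \ {x | x ∈ D ∧ l x < i}) := by
    refine Fr.ext_base (hwf i) (htot i) (hdeg i) hC ?_
    rintro x ⟨hx, hx2⟩ y hy hxy hr
    have h2 : y ∈ Xw (l x) := hclos (l x) i x (hl1 x hx) (hC ⟨hx, hx2⟩) y hxy hr
    refine ⟨hXD _ h2, ?_⟩
    exact lt_of_le_of_lt (not_lt.mp (hl2 y (hXD _ h2) (l x) h2)) hx2
  refine h1.mono le_rfl Subset.rfl ?_ (fun _ _ _ _ h => h)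
  rintro x ⟨hx, rfl⟩
  exact ⟨hl1 x hx, fun h2 => lt_irrefl _ h2.2⟩

/-- Singular compactness. -/
theorem main_singular {κ : Cardinal.{u}} (hκ : ℵ₀ < κ) (hnr : ¬ κ.IsRegular)
    {G : SimpleGraph V} {c : ℕ} {A D : Set V} (hD : #D = κ)
    (hsmall : ∀ T ⊆ D, #T < κ → Fr G c A T) : Fr G c A D := by
  obtain ⟨s, hs, hs'⟩ := Order.exists_cof_eq κ.ord.ToType
  have hsc : #s < κ := by
    rw [hs', Ordinal.cof_toType]
    by_contra hcon
    exact hnr ⟨hκ.le, not_lt.mp hcon⟩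
  have hne : Nonempty κ.ord.ToType := by
    rw [← mk_ne_zero_iff, mk_ord_toType]
    exact (lt_trans aleph0_pos hκ).ne'
  obtain ⟨i0, hi0, -⟩ := hs (Classical.choice hne)
  haveI : Nonempty s := ⟨⟨i0, hi0⟩⟩
  obtain ⟨e⟩ : Nonempty (κ.ord.ToType ≃ D) := by
    rw [← Cardinal.eq, mk_ord_toType, hD]
  let k : s → Cardinal.{u} := fun i => max (#(Iic i.1)) (max #s ℵ₀)
  have hk : ∀ i, k i < κ := fun i => max_lt (mk_Iic_ord hκ.le i.1) (max_lt hsc hκ)
  refine singular_aux (I := s) (k := k) (fun i => ?_) (fun i => ?_) ?_ ?_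
    (fun i => (fun a => (e a : V)) '' (Iic i.1)) ?_ ?_ ?_
  · exact (le_max_right _ _).trans (le_max_right _ _)
  · exact (le_max_left _ _).trans (le_max_right _ _)
  · intro i j hij
    exact max_le_max (mk_le_mk_of_subset (Iic_subset_Iic.mpr hij)) le_rfl
  · intro i T hT hTc
    refine hsmall T hT (lt_of_le_of_lt hTc ?_)
    refine lt_of_le_of_ne (Order.succ_le_of_lt (hk i)) ?_
    intro h
    apply hnr
    rw [← h]
    exact isRegular_succ ((le_max_right _ _).trans (le_max_right _ _))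
  · rintro i _ ⟨a, _, rfl⟩
    exact (e a).2
  · intro i
    exact mk_image_le.trans (le_max_left _ _)
  · intro x hx
    obtain ⟨i, hi, hle⟩ := hs (e.symm ⟨x, hx⟩)
    exact ⟨⟨i, hi⟩, e.symm ⟨x, hx⟩, hle, by simp⟩

/-- The main theorem. -/
theorem main {G : SimpleGraph V} {d : ℕ} : ∀ (κ : Cardinal.{u}) (A D : Set V), #D = κ →
    Disjoint A D → ¬ Fr G (d + 1) A D → Out G d A D := by
  intro κ
  induction κ using WellFoundedLT.induction with
  | _ κ ih =>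
    intro A D hD hAD hbad
    by_cases hc : κ ≤ ℵ₀
    · refine main_countable hAD ?_ hbad
      rw [← hD] at hc
      exact countable_coe_iff.mp (mk_le_aleph0_iff.mp hc)
    have hκ : ℵ₀ < κ := not_le.mp hc
    have IH : ∀ (A' D' : Set V), #D' < κ → Disjoint A' D' → ¬ Fr G (d + 1) A' D' →
        Out G d A' D' := fun A' D' h1 h2 h3 => ih (#D') h1 A' D' rfl h2 h3
    by_cases hreg : κ.IsRegular
    · exact main_regular hreg hκ hD hAD IH hbad
    · by_contra hout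
      apply hbad
      refine main_singular hκ hreg hD ?_
      intro T hT hTc
      by_contra hT2
      exact hout (Out.extend hT hAD (IH A T hTc (hAD.mono_right hT) hT2))

end H6Col
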