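import Mathlib

set_option autoImplicit false

/-! Coding subsets of `ℕ` by reals (base-4 digits 0 and 1). -/

namespace Pool.Agent.H6.DefPoset

/-- Digit number `m` of `x` in base 4 is `1`. -/
def Bit (m : ℕ) (x : ℝ) : Prop :=
  ∃ j : ℕ, (4 * (j : ℝ) + 1) / 4 ^ (m + 1) ≤ x ∧ x < (4 * (j : ℝ) + 2) / 4 ^ (m + 1)

open Classical in
noncomputable def NN (A : Set ℕ) : ℕ → ℕ
  | 0 => 0
  | m + 1 => 4 * NN A m + (if m ∈ A then 1 else 0)

lemma NN_bound (A : Set ℕ) (m k : ℕ) : 3 * NN A (m + k) + 1 ≤ (3 * NN A m + 1) * 4 ^ k := by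
  induction k with
  | zero => simp
  | succ k ih =>
    rw [← Nat.add_assoc, NN, pow_succ, ← mul_assoc]
    split_ifs <;> omega

lemma NN_mono (A : Set ℕ) (m k : ℕ) : NN A m * 4 ^ k ≤ NN A (m + k) := by
  induction k with
  | zero => simp
  | succ k ih =>
    rw [← Nat.add_assoc, NN, pow_succ, ← mul_assoc]
    split_ifs <;> omega

noncomputable def xx (A : Set ℕ) (m : ℕ) : ℝ := (NN A m : ℝ) / 4 ^ m

lemma xx_mono (A : Set ℕ) (m k : ℕ) : xx A m ≤ xx A (m + k) := by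
  unfold xx
  rw [div_le_div_iff₀ (by positivity) (by positivity)]
  have := NN_mono A m k
  have h2 : (NN A m : ℝ) * 4 ^ k ≤ NN A (m + k) := by exact_mod_cast this
  rw [pow_add]
  have h4 : (0 : ℝ) < 4 ^ m := by positivity
  nlinarith

lemma xx_bound (A : Set ℕ) (m n : ℕ) : xx A n ≤ (3 * (NN A m : ℝ) + 1) / (3 * 4 ^ m) := by
  have h1 : xx A n ≤ xx A (n + m) := xx_mono A n m
  have h2 : xx A (n + m) ≤ (3 * (NN A m : ℝ) + 1) / (3 * 4 ^ m) := by
    rw [Nat.add_comm n m]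
    unfold xx
    rw [div_le_div_iff₀ (by positivity) (by positivity)]
    have := NN_bound A m n
    have h2 : 3 * (NN A (m + n) : ℝ) + 1 ≤ (3 * NN A m + 1) * 4 ^ n := by exact_mod_cast this
    rw [pow_add]
    have h4 : (0 : ℝ) < 4 ^ m := by positivity
    nlinarith
  exact h1.trans h2

noncomputable def yy (A : Set ℕ) : ℝ := ⨆ n, xx A n

lemma yy_lower (A : Set ℕ) (m : ℕ) : (NN A m : ℝ) / 4 ^ m ≤ yy A := by
  apply le_ciSup (f := xx A) _ m
  exact ⟨_, by rintro _ ⟨n, rfl⟩; exact xx_bound A 0 n⟩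

lemma yy_upper (A : Set ℕ) (m : ℕ) : yy A < ((NN A m : ℝ) + 1) / 4 ^ m := by
  have h1 : yy A ≤ (3 * (NN A m : ℝ) + 1) / (3 * 4 ^ m) := ciSup_le fun n => xx_bound A m n
  have h2 : (3 * (NN A m : ℝ) + 1) / (3 * 4 ^ m) < ((NN A m : ℝ) + 1) / 4 ^ m := by
    rw [div_lt_div_iff₀ (by positivity) (by positivity)]
    have h4 : (0 : ℝ) < 4 ^ m := by positivity
    nlinarith
  exact h1.trans_lt h2

lemma bit_yy (A : Set ℕ) (m : ℕ) : Bit m (yy A) ↔ m ∈ A := by
  have h1 := yy_lower A (m + 1)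
  have h2 := yy_upper A (m + 1)
  constructor
  · rintro ⟨j, hj1, hj2⟩
    have h3 := h1.trans_lt hj2
    have h4 := hj1.trans_lt h2
    rw [div_lt_div_iff_of_pos_right (by positivity)] at h3 h4
    have h5 : NN A (m + 1) < 4 * j + 2 := by exact_mod_cast h3
    have h6 : 4 * j + 1 < NN A (m + 1) + 1 := by exact_mod_cast h4
    by_contra hm
    rw [NN, if_neg hm] at h5 h6
    omega
  · intro hm
    refine ⟨NN A m, ?_⟩
    rw [NN, if_pos hm] at h1 h2
    push_cast at h1 h2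
    refine ⟨h1, ?_⟩
    have : (4 * (NN A m : ℝ) + 1 + 1) = 4 * (NN A m : ℝ) + 2 := by ring
    rwa [this] at h2

end Pool.Agent.H6.DefPoset
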