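import Mathlib

set_option autoImplicit false

/-!
Definability with parameters in a partial order: closure properties.
-/

namespace Pool.Agent.H6.DefPoset

open FirstOrder FirstOrder.Language

variable {M : Type} [LE M]

/-- Definability with parameters (from all of `M`) in the structure `(M, ≤)`, for sets of
assignments indexed by an arbitrary type of variables. -/
def DefSet (α : Type) (S : Set (α → M)) : Prop :=
  @Set.Definable M Set.univ Language.order (orderStructure M) α S

/-- A property of assignments `ℕ → M` is definable with parameters in `(M, ≤)`. -/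
def D (p : (ℕ → M) → Prop) : Prop := DefSet ℕ {v : ℕ → M | p v}

lemma D.congr {p q : (ℕ → M) → Prop} (h : D p) (hpq : ∀ v, q v ↔ p v) : D q := by
  have : q = p := funext fun v => propext (hpq v)
  rwa [this]

lemma D.and {p q : (ℕ → M) → Prop} (hp : D p) (hq : D q) : D (fun v => p v ∧ q v) := by
  let := orderStructure M
  exact Set.Definable.inter hp hq

lemma D.or {p q : (ℕ → M) → Prop} (hp : D p) (hq : D q) : D (fun v => p v ∨ q v) := by
  let := orderStructure M
  exact Set.Definable.union hp hq

lemma D.not {p : (ℕ → M) → Prop} (hp : D p) : D (fun v => ¬ p v) := by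
  let := orderStructure M
  exact Set.Definable.compl hp

lemma D.imp {p q : (ℕ → M) → Prop} (hp : D p) (hq : D q) : D (fun v => p v → q v) :=
  (hp.not.or hq).congr fun v => by tauto

lemma D.iff {p q : (ℕ → M) → Prop} (hp : D p) (hq : D q) : D (fun v => (p v ↔ q v)) :=
  ((hp.imp hq).and (hq.imp hp)).congr fun v => by tauto

lemma D.true : D (fun _ : ℕ → M => True) := by
  let := orderStructure M
  exact (Set.definable_univ : (Set.univ : Set M).Definable Language.order
    (Set.univ : Set (ℕ → M)))

lemma D.false : D (fun _ : ℕ → M => False) := D.true.not.congr (by simp)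

lemma D.const (c : Prop) : D (fun _ : ℕ → M => c) := by
  by_cases h : c
  · exact D.true.congr (by simp [h])
  · exact D.false.congr (by simp [h])

lemma D.exFin {ι : Type} [Finite ι] {p : ι → (ℕ → M) → Prop} (h : ∀ i, D (p i)) :
    D (fun v => ∃ i, p i v) := by
  let := orderStructure M
  have := Set.definable_iUnion_of_finite (A := (Set.univ : Set M)) (L := Language.order)
    (f := fun i => {v : ℕ → M | p i v}) h
  unfold D DefSet
  convert this using 1
  ext v
  simp

lemma D.allFin {ι : Type} [Finite ι] {p : ι → (ℕ → M) → Prop} (h : ∀ i, D (p i)) :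
    D (fun v => ∀ i, p i v) :=
  (D.exFin (fun i => (h i).not)).not.congr (by simp)

lemma D.le (i j : ℕ) : D (fun v : ℕ → M => v i ≤ v j) := by
  let := orderStructure M
  have : Language.order.OrderedStructure M := ⟨fun x => Iff.rfl⟩
  refine Set.definable_iff_exists_formula_sum.2
    ⟨Term.le (Term.var (Sum.inl (Sum.inr i))) (Term.var (Sum.inl (Sum.inr j))), ?_⟩
  ext v
  simp only [Set.mem_ofPred_eq]
  unfold Formula.Realize
  rw [Term.realize_le]
  rfl

lemma D.eqc (i : ℕ) (c : M) : D (fun v : ℕ → M => v i = c) := by
  let := orderStructure M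
  refine Set.definable_iff_exists_formula_sum.2
    ⟨Term.equal (Term.var (Sum.inr i)) (Term.var (Sum.inl ⟨c, trivial⟩)), ?_⟩
  ext v
  simp [Formula.realize_equal]

lemma D.eq (i j : ℕ) : D (fun v : ℕ → M => v i = v j) := by
  let := orderStructure M
  refine Set.definable_iff_exists_formula_sum.2
    ⟨Term.equal (Term.var (Sum.inr i)) (Term.var (Sum.inr j)), ?_⟩
  ext v
  simp [Formula.realize_equal]

/-- Substitution of variables. -/
lemma D.subst {p : (ℕ → M) → Prop} (hp : D p) (s : ℕ → ℕ) : D (fun v => p (v ∘ s)) := by
  let := orderStructure M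
  exact Set.Definable.preimage_comp s hp

lemma D.exUpdate {p : (ℕ → M) → Prop} (hp : D p) (i : ℕ) :
    D (fun v => ∃ x, p (Function.update v i x)) := by
  let := orderStructure M
  let s : ℕ → ℕ ⊕ Unit := fun j => if j = i then Sum.inr () else Sum.inl j
  have h1 : (Set.univ : Set M).Definable Language.order
      {w : ℕ ⊕ Unit → M | p (w ∘ s)} := Set.Definable.preimage_comp s hp
  have h2 := Set.Definable.exists_of_finite h1
  unfold D DefSet
  convert h2 using 1
  ext v
  simp only [Set.mem_ofPred_eq]
  constructor
  · rintro ⟨x, hx⟩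
    refine ⟨fun _ => x, ?_⟩
    convert hx using 1
    ext j
    simp only [Function.comp, s, Function.update]
    split_ifs <;> simp_all
  · rintro ⟨u, hu⟩
    refine ⟨u (), ?_⟩
    convert hu using 1
    ext j
    simp only [Function.comp, s, Function.update]
    split_ifs <;> simp_all

lemma D.ex {R : (ℕ → M) → M → Prop} (i : ℕ) (h : D (fun v => R v (v i)))
    (hi : ∀ v x, R (Function.update v i x) x ↔ R v x) : D (fun v => ∃ x, R v x) := by
  refine (h.exUpdate i).congr fun v => ?_
  simp only [Function.update_self, hi]

lemma D.all {R : (ℕ → M) → M → Prop} (i : ℕ) (h : D (fun v => R v (v i)))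
    (hi : ∀ v x, R (Function.update v i x) x ↔ R v x) : D (fun v => ∀ x, R v x) := by
  refine (D.ex (R := fun v x => ¬ R v x) i h.not (fun v x => by rw [hi])).not.congr fun v => ?_
  simp

/-- Unary, binary and ternary definable relations. -/
def D1 (S : M → Prop) : Prop := ∀ i, D (fun v => S (v i))
def D2 (R : M → M → Prop) : Prop := ∀ i j, D (fun v => R (v i) (v j))
def D3 (R : M → M → M → Prop) : Prop := ∀ i j k, D (fun v => R (v i) (v j) (v k))

lemma D1.of {S : M → Prop} (h : D (fun v => S (v 0))) : D1 S := fun i => by
  exact h.subst (fun _ => i)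

lemma D2.of {R : M → M → Prop} (h : D (fun v => R (v 0) (v 1))) : D2 R := fun i j => by
  have := h.subst (fun n => if n = 0 then i else j)
  simpa [Function.comp] using this

lemma D3.of {R : M → M → M → Prop} (h : D (fun v => R (v 0) (v 1) (v 2))) : D3 R :=
  fun i j k => by
  have := h.subst (fun n => if n = 0 then i else if n = 1 then j else k)
  simpa [Function.comp] using this

/-- Plugging in a parameter. -/
lemma D.plug {p : (ℕ → M) → Prop} (hp : D p) (i : ℕ) (c : M) :
    D (fun v => p (Function.update v i c)) := by
  have := (hp.and (D.eqc i c)).exUpdate i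
  refine this.congr fun v => ?_
  constructor
  · intro h; exact ⟨c, h, by simp⟩
  · rintro ⟨x, h, hx⟩
    simp only [Function.update_self] at hx
    rwa [hx] at h

lemma D2.left {R : M → M → Prop} (h : D2 R) (c : M) : D1 (R c) := by
  apply D1.of
  have := (h 1 0).plug 1 c
  simpa using this

lemma D2.right {R : M → M → Prop} (h : D2 R) (c : M) : D1 (fun x => R x c) := by
  apply D1.of
  have := (h 0 1).plug 1 c
  simpa using this

lemma D3.third {R : M → M → M → Prop} (h : D3 R) (c : M) : D2 (fun x y => R x y c) := by
  apply D2.of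
  have := (h 0 1 2).plug 2 c
  simpa using this

lemma D.leLeft (i : ℕ) (c : M) : D (fun v : ℕ → M => c ≤ v i) := by
  exact D2.left (R := fun x y => x ≤ y) (fun i j => D.le i j) c i

lemma D2.toFin {R : M → M → Prop} (h : D2 R) :
    DefSet (Fin 2) {v : Fin 2 → M | R (v 0) (v 1)} := by
  let := orderStructure M
  have h1 : (Set.univ : Set M).Definable Language.order
    {w : Fin 2 → M | (w ∘ (fun n : ℕ => if n = 0 then (0 : Fin 2) else 1)) ∈
      {v : ℕ → M | R (v 0) (v 1)}} :=
    Set.Definable.preimage_comp _ (h 0 1)
  simp only [Function.comp, Set.mem_ofPred_eq, if_true, one_ne_zero, if_false] at h1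
  exact h1

end Pool.Agent.H6.DefPoset
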