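import Pool.Agent.H6.DefPosetD

set_option autoImplicit false

/-!
The poset: markers, five countable sorts of base elements, gadgets, names and a real line.
-/

namespace Pool.Agent.H6.DefPoset

inductive Atom
  | mk (m : Fin 6)
  | el (a : Fin 5) (k : ℕ)

inductive Pt
  | mark (m : Fin 6)
  | base (a : Fin 5) (k : ℕ)
  | gad (t : ℕ)
  | nam (a : Fin 4) (k : ℕ)
  | real (x : ℝ)

/-- The `n`-th rational. -/
noncomputable def rat (n : ℕ) : ℚ := (Denumerable.eqv ℚ).symm n

/-- The index of a rational. -/
noncomputable def ix (q : ℚ) : ℕ := Denumerable.eqv ℚ q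

lemma rat_ix (q : ℚ) : rat (ix q) = q := by simp [rat, ix]

lemma ix_inj {q r : ℚ} (h : ix q = ix r) : q = r := by
  rw [← rat_ix q, ← rat_ix r, h]

def gm (t : ℕ) : ℕ := (Nat.unpair t).1
def gj (t : ℕ) : ℕ := (Nat.unpair t).2
def gl (t : ℕ) : ℕ := (Nat.unpair (gm t)).1
def gk (t : ℕ) : ℕ := (Nat.unpair (gm t)).2

noncomputable def gu (t : ℕ) : ℕ := ix ((4 * gj t + 1) / 4 ^ (gm t + 1))
noncomputable def gv (t : ℕ) : ℕ := ix ((4 * gj t + 2) / 4 ^ (gm t + 1))

/-- Which atoms lie below which points. -/
def mem : Atom → Pt → Prop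
  | .mk m, .mark m' => m = m'
  | .el _ _, .mark _ => False
  | .mk m, .base a _ => m = a.castSucc
  | .el b l, .base a k => b = a ∧ l = k
  | .mk m, .gad _ => m = 1 ∨ m = 2 ∨ m = 3 ∨ m = 4
  | .el a n, .gad t => (a = 1 ∧ n = gl t) ∨ (a = 2 ∧ n = gk t) ∨
      (a = 3 ∧ (n = gu t ∨ n = gv t)) ∨ (a = 4 ∧ n = t)
  | .mk m, .nam a _ => m = 0 ∨ m = a.succ.castSucc
  | .el b n, .nam a k => (b = 0 ∨ b = a.succ) ∧ n = k
  | .mk m, .real _ => m = 3 ∨ m = 5
  | .el a n, .real x => a = 3 ∧ (rat n : ℝ) ≤ x

lemma mem_mk_of_at {a : Fin 5} {k : ℕ} {p : Pt} (h : mem (.el a k) p) :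
    mem (.mk a.castSucc) p := by
  cases p with
  | mark m => exact h.elim
  | base b l => obtain ⟨rfl, rfl⟩ := h; rfl
  | gad t =>
    rcases h with ⟨rfl, -⟩ | ⟨rfl, -⟩ | ⟨rfl, -⟩ | ⟨rfl, -⟩
    · exact Or.inl rfl
    · exact Or.inr (Or.inl rfl)
    · exact Or.inr (Or.inr (Or.inl rfl))
    · exact Or.inr (Or.inr (Or.inr rfl))
  | nam b l =>
    obtain ⟨rfl | rfl, -⟩ := h
    · exact Or.inl rfl
    · exact Or.inr rfl
  | real x => obtain ⟨rfl, -⟩ := h; exact Or.inl rfl

lemma fin0 : ∀ b : Fin 4, (b.succ.castSucc : Fin 6) ≠ 0 := by decide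
lemma fin5 : ∀ b : Fin 4, (b.succ.castSucc : Fin 6) ≠ 5 := by decide

/-- Markers below a point. -/
lemma mem_ext_mark {m : Fin 6} {p : Pt} (h : ∀ t, mem t (.mark m) ↔ mem t p) : p = .mark m := by
  cases p with
  | mark m' => have := (h (.mk m)).1 rfl; simp only [mem] at this; rw [this]
  | base b l => exact ((h (.el b l)).2 ⟨rfl, rfl⟩).elim
  | gad t => exact ((h (.el 1 (gl t))).2 (Or.inl ⟨rfl, rfl⟩)).elim
  | nam b l => exact ((h (.el 0 l)).2 ⟨Or.inl rfl, rfl⟩).elim
  | real x =>
    have h3 := (h (.mk 3)).2 (Or.inl rfl)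
    have h5 := (h (.mk 5)).2 (Or.inr rfl)
    simp only [mem] at h3 h5
    rw [← h3] at h5
    exact absurd h5 (by decide)

lemma mem_injective : Function.Injective (fun p => {t | mem t p} : Pt → Set Atom) := by
  have key : ∀ p p' : Pt, (∀ t, mem t p ↔ mem t p') → p = p' := by
    intro p p' h
    cases p with
    | mark m => exact (mem_ext_mark h).symm
    | base a k =>
      have h1 := (h (.el a k)).1 ⟨rfl, rfl⟩
      cases p' with
      | mark m => exact mem_ext_mark fun t => (h t).symm
      | base b l => obtain ⟨rfl, rfl⟩ := h1; rfl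
      | gad t =>
        have h2 := (h (.mk 1)).2 (Or.inl rfl)
        have h3 := (h (.mk 2)).2 (Or.inr (Or.inl rfl))
        simp only [mem] at h2 h3
        rw [← h3] at h2
        exact absurd h2 (by decide)
      | nam b l =>
        have h2 := (h (.mk 0)).2 (Or.inl rfl)
        have h3 := (h (.mk b.succ.castSucc)).2 (Or.inr rfl)
        simp only [mem] at h2 h3
        rw [← h3] at h2
        exact absurd h2.symm (fin0 b)
      | real x =>
        have h2 := (h (.mk 3)).2 (Or.inl rfl)
        have h3 := (h (.mk 5)).2 (Or.inr rfl)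
        simp only [mem] at h2 h3
        rw [← h3] at h2
        exact absurd h2 (by decide)
    | gad t =>
      have g1 := (h (.mk 1)).1 (Or.inl rfl)
      have g2 := (h (.mk 2)).1 (Or.inr (Or.inl rfl))
      have g4 := (h (.el 4 t)).1 (Or.inr (Or.inr (Or.inr ⟨rfl, rfl⟩)))
      cases p' with
      | mark m => exact mem_ext_mark fun t => (h t).symm
      | base b l =>
        simp only [mem] at g1 g2
        rw [← g1] at g2
        exact absurd g2 (by decide)
      | gad t' =>
        simp only [mem] at g4
        rcases g4 with ⟨g, -⟩ | ⟨g, -⟩ | ⟨g, -⟩ | ⟨-, g⟩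
        · exact absurd g (by decide)
        · exact absurd g (by decide)
        · exact absurd g (by decide)
        · rw [g]
      | nam b l =>
        simp only [mem] at g1 g2
        rcases g1 with g1 | g1
        · exact absurd g1 (by decide)
        · rcases g2 with g2 | g2
          · exact absurd g2 (by decide)
          · rw [← g1] at g2; exact absurd g2 (by decide)
      | real x =>
        simp only [mem] at g1
        rcases g1 with g1 | g1
        · exact absurd g1 (by decide)
        · exact absurd g1 (by decide)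
    | nam a k =>
      have g0 := (h (.mk 0)).1 (Or.inl rfl)
      have g1 := (h (.mk a.succ.castSucc)).1 (Or.inr rfl)
      have g2 := (h (.el 0 k)).1 ⟨Or.inl rfl, rfl⟩
      cases p' with
      | mark m => exact mem_ext_mark fun t => (h t).symm
      | base b l =>
        simp only [mem] at g0 g1
        rw [← g1] at g0
        exact absurd g0.symm (fin0 a)
      | gad t =>
        simp only [mem] at g0
        exact absurd g0 (by decide)
      | nam b l =>
        simp only [mem] at g0 g1 g2
        have e : a = b := by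
          rcases g1 with g1 | g1
          · exact absurd g1 (fin0 a)
          · exact Fin.succ_injective _ (Fin.castSucc_injective _ g1)
        rw [e, g2.2]
      | real x =>
        simp only [mem] at g0
        exact absurd g0 (by decide)
    | real x =>
      have g3 := (h (.mk 3)).1 (Or.inl rfl)
      have g5 := (h (.mk 5)).1 (Or.inr rfl)
      cases p' with
      | mark m => exact mem_ext_mark fun t => (h t).symm
      | base b l =>
        simp only [mem] at g3 g5
        rw [← g3] at g5
        exact absurd g5 (by decide)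
      | gad t =>
        simp only [mem] at g5
        exact absurd g5 (by decide)
      | nam b l =>
        simp only [mem] at g3 g5
        rcases g5 with g5 | g5
        · exact absurd g5 (by decide)
        · exact absurd g5.symm (fin5 b)
      | real y =>
        congr 1
        apply le_antisymm
        · by_contra hc
          push Not at hc
          obtain ⟨q, hq1, hq2⟩ := exists_rat_btwn hc
          have := (h (.el 3 (ix q))).1 ⟨rfl, by rw [rat_ix]; exact hq2.le⟩
          simp only [mem, rat_ix] at this
          linarith [this.2]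
        · by_contra hc
          push Not at hc
          obtain ⟨q, hq1, hq2⟩ := exists_rat_btwn hc
          have := (h (.el 3 (ix q))).2 ⟨rfl, by rw [rat_ix]; exact hq2.le⟩
          simp only [mem, rat_ix] at this
          linarith [this.2]
  intro p p' h
  refine key p p' fun t => ?_
  have : t ∈ {t | mem t p} ↔ t ∈ {t | mem t p'} := by
    simp only at h
    rw [h]
  exact this

instance : PartialOrder Pt := PartialOrder.lift (fun p => {t | mem t p}) mem_injective

lemma le_def {p p' : Pt} : p ≤ p' ↔ ∀ t, mem t p → mem t p' := Iff.rfl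

lemma mark_le {m : Fin 6} {p : Pt} : Pt.mark m ≤ p ↔ mem (.mk m) p := by
  rw [le_def]
  constructor
  · intro h; exact h (.mk m) rfl
  · intro h t ht
    cases t with
    | mk m' => simp only [mem] at ht; rw [ht]; exact h
    | el a k => exact ht.elim

lemma base_le {a : Fin 5} {k : ℕ} {p : Pt} : Pt.base a k ≤ p ↔ mem (.el a k) p := by
  rw [le_def]
  constructor
  · intro h; exact h (.el a k) ⟨rfl, rfl⟩
  · intro h t ht
    cases t with
    | mk m' => simp only [mem] at ht; rw [ht]; exact mem_mk_of_at h
    | el b l => obtain ⟨rfl, rfl⟩ := ht; exact h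

lemma eq_iff {p p' : Pt} : p = p' ↔
    (∀ m, (Pt.mark m ≤ p ↔ Pt.mark m ≤ p')) ∧ (∀ a k, (Pt.base a k ≤ p ↔ Pt.base a k ≤ p')) := by
  constructor
  · rintro rfl; simp
  · rintro ⟨h1, h2⟩
    apply mem_injective
    ext t
    cases t with
    | mk m => have := h1 m; rw [mark_le, mark_le] at this; exact this
    | el a k => have := h2 a k; rw [base_le, base_le] at this; exact this

lemma real_le {x y : ℝ} : Pt.real x ≤ Pt.real y ↔ x ≤ y := by
  rw [le_def]
  constructor
  · intro h
    by_contra hc
    push Not at hc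
    obtain ⟨q, hq1, hq2⟩ := exists_rat_btwn hc
    have := h (.el 3 (ix q)) ⟨rfl, by rw [rat_ix]; exact hq2.le⟩
    simp only [mem, rat_ix] at this
    linarith [this.2]
  · intro h t ht
    cases t with
    | mk m => exact ht
    | el a k => exact ⟨ht.1, ht.2.trans h⟩

instance : Infinite Pt := Infinite.of_injective Pt.gad fun a b h => by simpa using h

end Pool.Agent.H6.DefPoset
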