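import Pool.Agent.H6.DefPosetP
import Pool.Agent.H6.DefPosetB

set_option autoImplicit false

/-! Definable relations in the poset. -/

namespace Pool.Agent.H6.DefPoset

open Pt

lemma rat_gu (t : ℕ) : ((rat (gu t) : ℚ) : ℝ) = (4 * (gj t : ℝ) + 1) / 4 ^ (gm t + 1) := by
  rw [gu, rat_ix]; push_cast; ring

lemma rat_gv (t : ℕ) : ((rat (gv t) : ℚ) : ℝ) = (4 * (gj t : ℝ) + 2) / 4 ^ (gm t + 1) := by
  rw [gv, rat_ix]; push_cast; ring

lemma uv_lt (t : ℕ) : ((rat (gu t) : ℚ) : ℝ) < rat (gv t) := by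
  rw [rat_gu, rat_gv]
  apply div_lt_div_of_pos_right _ (by positivity)
  linarith

lemma base1_le_gad {l t : ℕ} : base 1 l ≤ gad t ↔ l = gl t := by
  rw [base_le]; simp [mem]

lemma base2_le_gad {l t : ℕ} : base 2 l ≤ gad t ↔ l = gk t := by
  rw [base_le]; simp [mem]

lemma base3_le_gad {l t : ℕ} : base 3 l ≤ gad t ↔ l = gu t ∨ l = gv t := by
  rw [base_le]; simp [mem]

lemma base4_le_gad {l t : ℕ} : base 4 l ≤ gad t ↔ l = t := by
  rw [base_le]; simp [mem]

lemma base3_le_real {n : ℕ} {x : ℝ} : base 3 n ≤ real x ↔ (rat n : ℝ) ≤ x := by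
  rw [base_le]; simp [mem]

lemma base0_le_nam {a : Fin 4} {l k : ℕ} : base 0 l ≤ nam a k ↔ l = k := by
  rw [base_le]; simp [mem]

lemma bases_le_nam {a : Fin 4} {l k : ℕ} : base a.succ l ≤ nam a k ↔ l = k := by
  rw [base_le]; simp [mem]

lemma d1_base (a : Fin 5) : D1 (fun p : Pt => ∃ k, p = base a k) := by
  apply D1.of
  refine (((D.eqc 0 (mark a.castSucc)).not).and
    (D.allFin (ι := Fin 6) fun m => (D.leLeft 0 (mark m)).iff (D.const (m = a.castSucc)))).congr
    fun v => ?_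
  constructor
  · rintro ⟨k, h⟩
    rw [h]
    refine ⟨by simp, fun m => ?_⟩
    rw [mark_le]
    rfl
  · rintro ⟨h1, h2⟩
    simp only [mark_le] at h2
    revert h1 h2
    cases v 0 with
    | mark m =>
      intro h1 h2
      have := (h2 a.castSucc).2 rfl
      simp only [mem] at this
      exact absurd (by rw [this]) h1
    | base b l =>
      intro h1 h2
      have := (h2 a.castSucc).2 rfl
      simp only [mem] at this
      have := Fin.castSucc_injective _ this
      exact ⟨l, by rw [this]⟩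
    | gad t =>
      intro h1 h2
      have e1 := (h2 1).1 (Or.inl rfl)
      have e2 := (h2 2).1 (Or.inr (Or.inl rfl))
      rw [← e1] at e2
      exact absurd e2 (by decide)
    | nam b l =>
      intro h1 h2
      have e1 := (h2 0).1 (Or.inl rfl)
      have e2 := (h2 b.succ.castSucc).1 (Or.inr rfl)
      rw [← e1] at e2
      exact absurd e2 (fin0 b)
    | real x =>
      intro h1 h2
      have e1 := (h2 3).1 (Or.inl rfl)
      have e2 := (h2 5).1 (Or.inr rfl)
      rw [← e1] at e2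
      exact absurd e2 (by decide)

lemma d1_gad : D1 (fun p : Pt => ∃ k, p = gad k) := by
  apply D1.of
  refine ((D.leLeft 0 (mark 1)).and (D.leLeft 0 (mark 2))).congr fun v => ?_
  rw [mark_le, mark_le]
  constructor
  · rintro ⟨k, h⟩
    rw [h]
    exact ⟨Or.inl rfl, Or.inr (Or.inl rfl)⟩
  · cases v 0 with
    | mark m => rintro ⟨h1, h2⟩; simp only [mem] at h1 h2; rw [← h1] at h2
                exact absurd h2 (by decide)
    | base b l => rintro ⟨h1, h2⟩; simp only [mem] at h1 h2; rw [← h1] at h2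
                  exact absurd h2 (by decide)
    | gad t => intro _; exact ⟨t, rfl⟩
    | nam b l =>
      rintro ⟨h1, h2⟩
      simp only [mem] at h1 h2
      rcases h1 with h1 | h1
      · exact absurd h1 (by decide)
      · rcases h2 with h2 | h2
        · exact absurd h2 (by decide)
        · rw [← h1] at h2; exact absurd h2 (by decide)
    | real x =>
      rintro ⟨h1, h2⟩
      simp only [mem] at h1
      rcases h1 with h1 | h1 <;> exact absurd h1 (by decide)

lemma d1_nam (a : Fin 4) : D1 (fun p : Pt => ∃ k, p = nam a k) := by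
  apply D1.of
  refine ((D.leLeft 0 (mark 0)).and (D.leLeft 0 (mark a.succ.castSucc))).congr fun v => ?_
  rw [mark_le, mark_le]
  constructor
  · rintro ⟨k, h⟩
    rw [h]
    exact ⟨Or.inl rfl, Or.inr rfl⟩
  · cases v 0 with
    | mark m => rintro ⟨h1, h2⟩; simp only [mem] at h1 h2; rw [← h1] at h2
                exact absurd h2 (fin0 a)
    | base b l => rintro ⟨h1, h2⟩; simp only [mem] at h1 h2; rw [← h1] at h2
                  exact absurd h2 (fin0 a)
    | gad t =>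
      rintro ⟨h1, -⟩
      simp only [mem] at h1
      exact absurd h1 (by decide)
    | nam b l =>
      rintro ⟨h1, h2⟩
      simp only [mem] at h1 h2
      rcases h2 with h2 | h2
      · exact absurd h2 (fin0 a)
      · have : a = b := Fin.succ_injective _ (Fin.castSucc_injective _ h2)
        exact ⟨l, by rw [this]⟩
    | real x =>
      rintro ⟨h1, -⟩
      simp only [mem] at h1
      exact absurd h1 (by decide)

lemma fin5' : ∀ b : Fin 5, (5 : Fin 6) ≠ b.castSucc := by decide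

lemma d1_real : D1 (fun p : Pt => ∃ x, p = real x) := by
  apply D1.of
  refine ((D.leLeft 0 (mark 5)).and (D.eqc 0 (mark 5)).not).congr fun v => ?_
  rw [mark_le]
  constructor
  · rintro ⟨x, h⟩
    rw [h]
    exact ⟨Or.inr rfl, by simp⟩
  · cases v 0 with
    | mark m => rintro ⟨h1, h2⟩; simp only [mem] at h1; exact absurd (by rw [h1]) h2
    | base b l =>
      rintro ⟨h1, h2⟩; simp only [mem] at h1
      exact absurd h1 (fin5' b)
    | gad t =>
      rintro ⟨h1, -⟩
      simp only [mem] at h1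
      exact absurd h1 (by decide)
    | nam b l =>
      rintro ⟨h1, h2⟩
      simp only [mem] at h1
      rcases h1 with h1 | h1
      · exact absurd h1 (by decide)
      · exact absurd h1.symm (fin5 b)
    | real x => intro _; exact ⟨x, rfl⟩

/-- `w` (of sort `a+1`) and `d` (of sort `0`) have the same index. -/
lemma d2_name (a : Fin 4) : D2 (fun w d : Pt => ∃ k, w = base a.succ k ∧ d = base 0 k) := by
  apply D2.of
  refine ((d1_base a.succ 0).and ((d1_base 0 1).and
    (D.ex (R := fun v m => (∃ k, m = nam a k) ∧ v 0 ≤ m ∧ v 1 ≤ m) 2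
      ((d1_nam a 2).and ((D.le 0 2).and (D.le 1 2))) ?_))).congr fun v => ?_
  · intro v x; simp [Function.update]
  · constructor
    · rintro ⟨k, h1, h2⟩
      rw [h1, h2]
      exact ⟨⟨k, rfl⟩, ⟨k, rfl⟩, nam a k, ⟨k, rfl⟩, bases_le_nam.2 rfl, base0_le_nam.2 rfl⟩
    · rintro ⟨⟨l, h1⟩, ⟨l', h2⟩, m, ⟨k, hk⟩, h3, h4⟩
      rw [h1, hk, bases_le_nam] at h3
      rw [h2, hk, base0_le_nam] at h4
      exact ⟨k, by rw [h1, h3], by rw [h2, h4]⟩

/-- The coding relation. -/
lemma d3_code : D3 (fun d d' y : Pt => ∃ l k x, d = base 0 l ∧ d' = base 0 k ∧ y = real x ∧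
    Bit (Nat.pair l k) x) := by
  apply D3.of
  have hA : ∀ v : ℕ → Pt, ∀ x : Pt, True := fun _ _ => trivial
  refine ((d1_base 0 0).and ((d1_base 0 1).and ((d1_real 2).and
    (D.ex (R := fun v g => (∃ t, g = gad t) ∧
      (∃ w, (∃ k, w = base 1 k ∧ v 0 = base 0 k) ∧ w ≤ g) ∧
      (∃ w, (∃ k, w = base 2 k ∧ v 1 = base 0 k) ∧ w ≤ g) ∧
      (∃ w, (∃ k, w = base 3 k) ∧ w ≤ g ∧ w ≤ v 2) ∧
      (∃ w, (∃ k, w = base 3 k) ∧ w ≤ g ∧ ¬ w ≤ v 2)) 3
      ((d1_gad 3).and
        ((D.ex (R := fun v w => (∃ k, w = base 1 k ∧ v 0 = base 0 k) ∧ w ≤ v 3) 4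
          ((d2_name 0 4 0).and (D.le 4 3)) ?_).and
        ((D.ex (R := fun v w => (∃ k, w = base 2 k ∧ v 1 = base 0 k) ∧ w ≤ v 3) 4
          ((d2_name 1 4 1).and (D.le 4 3)) ?_).and
        ((D.ex (R := fun v w => (∃ k, w = base 3 k) ∧ w ≤ v 3 ∧ w ≤ v 2) 4
          ((d1_base 3 4).and ((D.le 4 3).and (D.le 4 2))) ?_).and
        (D.ex (R := fun v w => (∃ k, w = base 3 k) ∧ w ≤ v 3 ∧ ¬ w ≤ v 2) 4
          ((d1_base 3 4).and ((D.le 4 3).and (D.le 4 2).not)) ?_))))) ?_)))).congr fun v => ?_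
  · intro v x; simp [Function.update]
  · intro v x; simp [Function.update]
  · intro v x; simp [Function.update]
  · intro v x; simp [Function.update]
  · intro v x; simp [Function.update]
  · constructor
    · rintro ⟨l, k, x, h0, h1, h2, j, hj1, hj2⟩
      rw [h0, h1, h2]
      refine ⟨⟨l, rfl⟩, ⟨k, rfl⟩, ⟨x, rfl⟩, gad (Nat.pair (Nat.pair l k) j), ⟨_, rfl⟩,
        ⟨base 1 l, ⟨l, rfl, rfl⟩, ?_⟩, ⟨base 2 k, ⟨k, rfl, rfl⟩, ?_⟩,
        ⟨base 3 (gu (Nat.pair (Nat.pair l k) j)), ⟨_, rfl⟩, ?_, ?_⟩,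
        ⟨base 3 (gv (Nat.pair (Nat.pair l k) j)), ⟨_, rfl⟩, ?_, ?_⟩⟩
      · rw [base1_le_gad]; simp [gl, gm]
      · rw [base2_le_gad]; simp [gk, gm]
      · rw [base3_le_gad]; exact Or.inl rfl
      · rw [base3_le_real, rat_gu]; simpa [gm, gj] using hj1
      · rw [base3_le_gad]; exact Or.inr rfl
      · rw [base3_le_real, rat_gv, not_le]; simpa [gm, gj] using hj2
    · rintro ⟨⟨l, h0⟩, ⟨k, h1⟩, ⟨x, h2⟩, g, ⟨t, ht⟩, ⟨w1, ⟨k1, h3, h4⟩, h5⟩,
        ⟨w2, ⟨k2, h6, h7⟩, h8⟩, ⟨u, ⟨n, h9⟩, h10, h11⟩, ⟨w, ⟨n', h12⟩, h13, h14⟩⟩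
      subst ht
      rw [h0] at h4
      rw [h1] at h7
      rw [h3, base1_le_gad] at h5
      rw [h6, base2_le_gad] at h8
      rw [h9, base3_le_gad] at h10
      rw [h9, h2, base3_le_real] at h11
      rw [h12, base3_le_gad] at h13
      rw [h12, h2, base3_le_real, not_le] at h14
      have e1 : l = gl t := by
        have : l = k1 := by simpa using h4
        rw [this, h5]
      have e2 : k = gk t := by
        have : k = k2 := by simpa using h7
        rw [this, h8]
      refine ⟨l, k, x, h0, h1, h2, gj t, ?_, ?_⟩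
      · have e3 : Nat.pair l k = gm t := by rw [e1, e2]; simp [gl, gk]
        rw [e3, ← rat_gu]
        rcases h10 with h | h
        · rw [← h]; exact h11
        · rw [h] at h11; exact (uv_lt t).le.trans h11
      · have e3 : Nat.pair l k = gm t := by rw [e1, e2]; simp [gl, gk]
        rw [e3, ← rat_gv]
        rcases h13 with h | h
        · rw [h] at h14; exact h14.trans (uv_lt t)
        · rw [← h]; exact h14

/-- An arbitrary relation between indices, on the sort `0`. -/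
lemma d2_rel0 (ρ : ℕ → ℕ → Prop) :
    D2 (fun d d' : Pt => ∃ l k, d = base 0 l ∧ d' = base 0 k ∧ ρ l k) := by
  apply D2.of
  have h := (d3_code.third (real (yy {m | ρ (Nat.unpair m).1 (Nat.unpair m).2}))) 0 1
  refine h.congr fun v => ?_
  constructor
  · rintro ⟨l, k, h0, h1, h2⟩
    refine ⟨l, k, _, h0, h1, rfl, ?_⟩
    rw [bit_yy]
    simpa using h2
  · rintro ⟨l, k, x, h0, h1, h2, h3⟩
    refine ⟨l, k, h0, h1, ?_⟩
    have : x = yy {m | ρ (Nat.unpair m).1 (Nat.unpair m).2} := by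
      injection h2 with h; exact h.symm
    rw [this, bit_yy] at h3
    simpa using h3

/-- The family `e` is indexed definably by the sort `0`. -/
def Named (e : ℕ → Pt) : Prop := D2 (fun p d : Pt => ∃ k, p = e k ∧ d = base 0 k)

lemma named_base (a : Fin 5) : Named (base a) := by
  refine Fin.cases ?_ (fun b => ?_) a
  · apply D2.of
    refine ((D.eq 0 1).and (d1_base 0 0)).congr fun v => ?_
    constructor
    · rintro ⟨k, h1, h2⟩; exact ⟨by rw [h1, h2], k, h1⟩
    · rintro ⟨h, k, h1⟩; exact ⟨k, h1, by rw [← h, h1]⟩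
  · exact d2_name b

lemma named_nam (a : Fin 4) : Named (nam a) := by
  apply D2.of
  refine ((d1_nam a 0).and ((d1_base 0 1).and (D.le 1 0))).congr fun v => ?_
  constructor
  · rintro ⟨k, h1, h2⟩; rw [h1, h2]; exact ⟨⟨k, rfl⟩, ⟨k, rfl⟩, base0_le_nam.2 rfl⟩
  · rintro ⟨⟨k, h1⟩, ⟨l, h2⟩, h3⟩
    rw [h1, h2, base0_le_nam] at h3
    exact ⟨k, h1, by rw [h2, h3]⟩

lemma named_gad : Named gad := by
  apply D2.of
  refine ((d1_gad 0).and (D.ex
    (R := fun v z => (∃ k, z = base 4 k ∧ v 1 = base 0 k) ∧ z ≤ v 0) 2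
    ((d2_name 3 2 1).and (D.le 2 0)) ?_)).congr fun v => ?_
  · intro v x; simp [Function.update]
  · constructor
    · rintro ⟨k, h1, h2⟩; rw [h1, h2]
      exact ⟨⟨k, rfl⟩, base 4 k, ⟨k, rfl, rfl⟩, base4_le_gad.2 rfl⟩
    · rintro ⟨⟨k, h1⟩, z, ⟨l, h2, h3⟩, h4⟩
      rw [h1, h2, base4_le_gad] at h4
      exact ⟨k, h1, by rw [h3, h4]⟩

lemma d2_rel {e e' : ℕ → Pt} (he : Named e) (he' : Named e') (ρ : ℕ → ℕ → Prop) :
    D2 (fun p q : Pt => ∃ l k, p = e l ∧ q = e' k ∧ ρ l k) := by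
  apply D2.of
  refine (D.ex (R := fun v d => ∃ d', (∃ k, v 0 = e k ∧ d = base 0 k) ∧
    (∃ k, v 1 = e' k ∧ d' = base 0 k) ∧ ∃ l k, d = base 0 l ∧ d' = base 0 k ∧ ρ l k) 2
    (D.ex (R := fun v d' => (∃ k, v 0 = e k ∧ v 2 = base 0 k) ∧
    (∃ k, v 1 = e' k ∧ d' = base 0 k) ∧ ∃ l k, v 2 = base 0 l ∧ d' = base 0 k ∧ ρ l k) 3
    ((he 0 2).and ((he' 1 3).and (d2_rel0 ρ 2 3))) ?_) ?_).congr fun v => ?_
  · intro v x; simp [Function.update]
  · intro v x; simp [Function.update]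
  · constructor
    · rintro ⟨l, k, h1, h2, h3⟩
      exact ⟨base 0 l, base 0 k, ⟨l, h1, rfl⟩, ⟨k, h2, rfl⟩, l, k, rfl, rfl, h3⟩
    · rintro ⟨d, d', ⟨l, h1, h2⟩, ⟨k, h3, h4⟩, l', k', h5, h6, h7⟩
      refine ⟨l, k, h1, h3, ?_⟩
      rw [h2] at h5
      rw [h4] at h6
      have e1 : l = l' := by simpa using h5
      have e2 : k = k' := by simpa using h6
      rw [e1, e2]; exact h7

lemma d1_rel {e : ℕ → Pt} (he : Named e) (S : ℕ → Prop) :
    D1 (fun p : Pt => ∃ l, p = e l ∧ S l) := by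
  apply D1.of
  refine ((d2_rel he (named_base 0) (fun l _ => S l)).right (base 0 0) 0).congr fun v => ?_
  constructor
  · rintro ⟨l, h1, h2⟩; exact ⟨l, 0, h1, rfl, h2⟩
  · rintro ⟨l, k, h1, -, h2⟩; exact ⟨l, h1, h2⟩

/-- Families of upper sets of the real line. -/
lemma d2_real {e : ℕ → Pt} (he : Named e) (hinj : Function.Injective e) (U : ℕ → ℝ → Prop)
    (hU : ∀ l x y, U l x → x ≤ y → U l y) :
    D2 (fun p q : Pt => ∃ l x, p = e l ∧ q = real x ∧ U l x) := by
  apply D2.of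
  let κ : ℕ → ℕ → Prop := fun l n => ∀ x, U l x → (rat n : ℝ) ≤ x
  let b : ℕ → Prop := fun l => ∃ x, U l x ∧ ∀ y, U l y → x ≤ y
  refine ((d1_real 1).and (((d1_rel he b 0).and
      (D.all (R := fun v z => (∃ l n, v 0 = e l ∧ z = base 3 n ∧ κ l n) → z ≤ v 1) 2
        ((d2_rel he (named_base 3) κ 0 2).imp (D.le 2 1)) ?_)).or
      ((d1_rel he (fun l => ¬ b l) 0).and
      (D.ex (R := fun v z => (∃ l n, v 0 = e l ∧ z = base 3 n ∧ ¬ κ l n) ∧ z ≤ v 1) 2
        ((d2_rel he (named_base 3) (fun l n => ¬ κ l n) 0 2).and (D.le 2 1)) ?_)))).congr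
      fun v => ?_
  · intro v x; simp [Function.update]
  · intro v x; simp [Function.update]
  · have hbtw : ∀ {x y : ℝ}, x < y → ∃ n, x < (rat n : ℝ) ∧ (rat n : ℝ) < y := by
      intro x y hxy
      obtain ⟨q, h1, h2⟩ := exists_rat_btwn hxy
      exact ⟨ix q, by rw [rat_ix]; exact h1, by rw [rat_ix]; exact h2⟩
    constructor
    · rintro ⟨l, x, h1, h2, h3⟩
      refine ⟨⟨x, h2⟩, ?_⟩
      by_cases hb : b l
      · left
        refine ⟨⟨l, h1, hb⟩, ?_⟩
        rintro z ⟨l', n, h4, h5, h6⟩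
        have e1 : l = l' := hinj (by rw [← h1, h4])
        subst e1
        rw [h5, h2, base3_le_real]
        exact h6 x h3
      · right
        refine ⟨⟨l, h1, hb⟩, ?_⟩
        -- some y in U l is below x
        have : ∃ y, U l y ∧ y < x := by
          by_contra hc
          push Not at hc
          exact hb ⟨x, h3, fun y hy => by
            by_contra hlt
            push Not at hlt
            exact absurd (hc y hy) (not_le.2 hlt)⟩
        obtain ⟨y, hy, hyx⟩ := this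
        obtain ⟨n, hn1, hn2⟩ := hbtw hyx
        refine ⟨base 3 n, ⟨l, n, h1, rfl, ?_⟩, ?_⟩
        · intro hκ
          exact absurd (hκ y hy) (not_le.2 hn1)
        · rw [h2, base3_le_real]; exact hn2.le
    · rintro ⟨⟨x, h2⟩, ⟨⟨l, h1, hb⟩, h3⟩ | ⟨⟨l, h1, hb⟩, z, ⟨l', n, h4, h5, h6⟩, h7⟩⟩
      · refine ⟨l, x, h1, h2, ?_⟩
        obtain ⟨s, hs, hs'⟩ := hb
        refine hU l s x hs ?_
        by_contra hlt
        push Not at hlt
        obtain ⟨n, hn1, hn2⟩ := hbtw hlt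
        have := h3 (base 3 n) ⟨l, n, h1, rfl, fun y hy => hn2.le.trans (hs' y hy)⟩
        rw [h2, base3_le_real] at this
        exact absurd this (not_le.2 hn1)
      · refine ⟨l, x, h1, h2, ?_⟩
        have e1 : l = l' := hinj (by rw [← h1, h4])
        subst e1
        rw [h5, h2, base3_le_real] at h7
        have : ∃ y, U l y ∧ y < rat n := by
          by_contra hc
          push Not at hc
          exact h6 hc
        obtain ⟨y, hy, hyn⟩ := this
        exact hU l y x hy (hyn.le.trans h7)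

/-- Every countable family of upper sets of the poset is definable. -/
lemma d2_upper (a : Fin 5) (U : ℕ → Pt → Prop) (hU : ∀ l p q, U l p → p ≤ q → U l q) :
    D2 (fun x p : Pt => ∃ l, x = base a l ∧ U l p) := by
  apply D2.of
  refine ((D.exFin (ι := Fin 6) fun m =>
      (d1_rel (named_base a) (fun l => U l (mark m)) 0).and (D.eqc 1 (mark m))).or
    ((D.exFin (ι := Fin 5) fun b =>
      d2_rel (named_base a) (named_base b) (fun l k => U l (base b k)) 0 1).or
    ((d2_rel (named_base a) named_gad (fun l k => U l (gad k)) 0 1).or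
    ((D.exFin (ι := Fin 4) fun b =>
      d2_rel (named_base a) (named_nam b) (fun l k => U l (nam b k)) 0 1).or
    (d2_real (named_base a) (fun k l h => by simpa using h) (fun l x => U l (real x))
      (fun l x y h hxy => hU l _ _ h (real_le.2 hxy)) 0 1))))).congr fun v => ?_
  constructor
  · rintro ⟨l, h1, h2⟩
    rw [h1]
    revert h2
    cases v 1 with
    | mark m => intro h2; exact Or.inl ⟨m, ⟨l, rfl, h2⟩, rfl⟩
    | base b k => intro h2; exact Or.inr (Or.inl ⟨b, l, k, rfl, rfl, h2⟩)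
    | gad t => intro h2; exact Or.inr (Or.inr (Or.inl ⟨l, t, rfl, rfl, h2⟩))
    | nam b k => intro h2; exact Or.inr (Or.inr (Or.inr (Or.inl ⟨b, l, k, rfl, rfl, h2⟩)))
    | real x => intro h2; exact Or.inr (Or.inr (Or.inr (Or.inr ⟨l, x, rfl, rfl, h2⟩)))
  · rintro (⟨m, ⟨l, h1, h2⟩, h3⟩ | ⟨b, l, k, h1, h2, h3⟩ | ⟨l, k, h1, h2, h3⟩ |
      ⟨b, l, k, h1, h2, h3⟩ | ⟨l, x, h1, h2, h3⟩)
    · exact ⟨l, h1, by rw [h3]; exact h2⟩
    · exact ⟨l, h1, by rw [h2]; exact h3⟩
    · exact ⟨l, h1, by rw [h2]; exact h3⟩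
    · exact ⟨l, h1, by rw [h2]; exact h3⟩
    · exact ⟨l, h1, by rw [h2]; exact h3⟩

lemma d1_upper (U : Pt → Prop) (hU : ∀ p q, U p → p ≤ q → U q) : D1 U := by
  apply D1.of
  refine ((d2_upper 0 (fun _ => U) (fun _ => hU)).left (base 0 0) 0).congr fun v => ?_
  constructor
  · intro h; exact ⟨0, rfl, h⟩
  · rintro ⟨_, _, h⟩; exact h

theorem d2_monotone (f : Pt → Pt) (hf : Monotone f) : D2 (fun p q : Pt => f p = q) := by
  apply D2.of
  have hb : ∀ a : Fin 5, D (fun v : ℕ → Pt => ∀ x, ((∃ k, x = base a k) ∧ x ≤ v 1) ↔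
      ∃ l, x = base a l ∧ base a l ≤ f (v 0)) := by
    intro a
    refine D.all (R := fun v x => ((∃ k, x = base a k) ∧ x ≤ v 1) ↔
      ∃ l, x = base a l ∧ base a l ≤ f (v 0)) 2
      (((d1_base a 2).and (D.le 2 1)).iff
        (d2_upper a (fun l p => base a l ≤ f p) (fun l p q h hpq => h.trans (hf hpq)) 2 0)) ?_
    intro v x; simp [Function.update]
  have hm : ∀ m : Fin 6, D (fun v : ℕ → Pt => mark m ≤ v 1 ↔ mark m ≤ f (v 0)) := by
    intro m
    exact (D.leLeft 1 (mark m)).iff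
      (d1_upper (fun p => mark m ≤ f p) (fun p q h hpq => h.trans (hf hpq)) 0)
  refine ((D.allFin hm).and (D.allFin hb)).congr fun v => ?_
  constructor
  · intro h
    rw [h]
    refine ⟨fun m => Iff.rfl, fun a x => ?_⟩
    constructor
    · rintro ⟨⟨k, h1⟩, h2⟩; exact ⟨k, h1, by rw [← h1]; exact h2⟩
    · rintro ⟨k, h1, h2⟩; exact ⟨⟨k, h1⟩, by rw [h1]; exact h2⟩
  · rintro ⟨h1, h2⟩
    symm
    rw [eq_iff]
    refine ⟨h1, fun a k => ?_⟩
    constructor
    · intro h
      obtain ⟨l, h3, h4⟩ := (h2 a (base a k)).1 ⟨⟨k, rfl⟩, h⟩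
      rw [h3]; exact h4
    · intro h
      exact ((h2 a (base a k)).2 ⟨k, rfl, h⟩).2

end Pool.Agent.H6.DefPoset
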