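import Mathlib

set_option autoImplicit false

/-!
A countable family of sets of reals such that no member is covered by countably many sets each of
which is mapped by a strictly monotone map into another member.
-/

namespace Pool.Agent.H6.OrthReals

open Set Cardinal

/-- The index type: a well-order of type the continuum. -/
abbrev K : Type := (Cardinal.continuum.{0}).ord.ToType

theorem mk_K : #K = Cardinal.continuum.{0} := Cardinal.mk_ord_toType _

theorem mk_Iio_K (i : K) : #(Iio i) < Cardinal.continuum.{0} := by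
  have := mk_Iio_lt i (by simp)
  rwa [mk_K] at this

theorem mk_Iic_K (i : K) : #(Iic i) < Cardinal.continuum.{0} := by
  have h1 : (Iic i : Set K) = insert i (Iio i) := by
    ext x; simp [le_iff_eq_or_lt]
  rw [h1]
  refine lt_of_le_of_lt (mk_insert_le) ?_
  exact add_lt_of_lt aleph0_le_continuum (mk_Iio_K i) (lt_of_lt_of_le one_lt_aleph0
    aleph0_le_continuum)

/-- The set of values to be avoided at stage `α`. -/
def avoid (H : K → ℝ → ℝ) (α : K) (prior : (γ : K) → γ < α → ℝ) : Set ℝ :=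
  (range fun p : Iio α × Iio α => H p.1.1 (prior p.2.1 p.2.2)) ∪
    range fun p : Iio α => prior p.1 p.2

theorem exists_fresh (H : K → ℝ → ℝ) (α : K) (prior : (γ : K) → γ < α → ℝ) :
    ∃ x : ℝ, x ∉ avoid H α prior := by
  by_contra hcon
  push Not at hcon
  have h1 : avoid H α prior = Set.univ := eq_univ_of_forall hcon
  have h2 : #(avoid H α prior) = Cardinal.continuum := by
    rw [h1, mk_univ, mk_real]
  have h3 : #(avoid H α prior) < Cardinal.continuum := by
    unfold avoid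
    refine lt_of_le_of_lt (mk_union_le _ _) ?_
    refine add_lt_of_lt aleph0_le_continuum ?_ ?_
    · refine lt_of_le_of_lt mk_range_le ?_
      rw [mk_prod, lift_id]
      exact mul_lt_of_lt aleph0_le_continuum (mk_Iio_K α) (mk_Iio_K α)
    · exact lt_of_le_of_lt mk_range_le (mk_Iio_K α)
  exact absurd h2 h3.ne

/-- The recursively chosen points. -/
noncomputable def pt (H : K → ℝ → ℝ) : K → ℝ :=
  (wellFounded_lt (α := K)).fix fun α prior => Classical.choose (exists_fresh H α prior)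

theorem pt_spec (H : K → ℝ → ℝ) (α : K) :
    (∀ β γ : K, β < α → γ < α → pt H α ≠ H β (pt H γ)) ∧ ∀ γ, γ < α → pt H α ≠ pt H γ := by
  have h1 : pt H α = Classical.choose (exists_fresh H α (fun γ _ => pt H γ)) := by
    unfold pt
    rw [WellFounded.fix_eq]
  have h2 := Classical.choose_spec (exists_fresh H α (fun γ _ => pt H γ))
  rw [← h1] at h2
  constructor
  · intro β γ hβ hγ heq
    exact h2 (Or.inl ⟨(⟨β, hβ⟩, ⟨γ, hγ⟩), heq.symm⟩)
  · intro γ hγ heq
    exact h2 (Or.inr ⟨⟨γ, hγ⟩, heq.symm⟩)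

theorem pt_injective (H : K → ℝ → ℝ) : Function.Injective (pt H) := by
  intro a b hab
  rcases lt_trichotomy a b with h | h | h
  · exact absurd hab.symm ((pt_spec H b).2 a h)
  · exact h
  · exact absurd hab ((pt_spec H a).2 b h)

/-- The function coded by a sequence of pairs of reals. -/
noncomputable def h (w : (ℕ → ℝ × ℝ) × Bool) (y : ℝ) : ℝ :=
  if w.2 = true then sSup {v | ∃ n, (w.1 n).1 ≤ y ∧ (w.1 n).2 = v}
  else sInf {v | ∃ n, y ≤ (w.1 n).1 ∧ (w.1 n).2 = v}

/-- A relation on the line which is the graph of a strictly monotone function. -/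
def MonoRel (R : Set (ℝ × ℝ)) : Prop :=
  ∀ p ∈ R, ∀ q ∈ R, (p.1 ≤ q.1 ↔ p.2 ≤ q.2)

theorem recover (R : Set (ℝ × ℝ)) (hR : MonoRel R) (w : ℕ → ℝ × ℝ) (hw : ∀ n, w n ∈ R)
    (p : ℝ × ℝ) (hp : p ∈ R) (hcl : p ∈ closure (range w)) :
    p.2 = h (w, true) p.1 ∨ p.2 = h (w, false) p.1 := by
  set V1 : Set ℝ := {v | ∃ n, (w n).1 ≤ p.1 ∧ (w n).2 = v} with hV1
  set V2 : Set ℝ := {v | ∃ n, p.1 ≤ (w n).1 ∧ (w n).2 = v} with hV2
  have e1 : h (w, true) p.1 = sSup V1 := by simp [h, hV1]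
  have e2 : h (w, false) p.1 = sInf V2 := by simp [h, hV2]
  rw [e1, e2]
  have ub : ∀ v ∈ V1, v ≤ p.2 := by
    rintro v ⟨n, hn, rfl⟩
    exact (hR _ (hw n) _ hp).1 hn
  have lb : ∀ v ∈ V2, p.2 ≤ v := by
    rintro v ⟨n, hn, rfl⟩
    exact (hR _ hp _ (hw n)).1 hn
  by_contra hcon
  push Not at hcon
  obtain ⟨hc1, hc2⟩ := hcon
  have k1 : ∃ ε > 0, ∀ v ∈ V1, v ≤ p.2 - ε := by
    by_cases hne : V1.Nonempty
    · have hle : sSup V1 ≤ p.2 := csSup_le hne ub
      have hlt : sSup V1 < p.2 := lt_of_le_of_ne hle (Ne.symm hc1)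
      refine ⟨p.2 - sSup V1, by linarith, fun v hv => ?_⟩
      have := le_csSup ⟨p.2, ub⟩ hv
      linarith
    · exact ⟨1, one_pos, fun v hv => absurd ⟨v, hv⟩ hne⟩
  have k2 : ∃ ε > 0, ∀ v ∈ V2, p.2 + ε ≤ v := by
    by_cases hne : V2.Nonempty
    · have hle : p.2 ≤ sInf V2 := le_csInf hne lb
      have hlt : p.2 < sInf V2 := lt_of_le_of_ne hle hc2
      refine ⟨sInf V2 - p.2, by linarith, fun v hv => ?_⟩
      have := csInf_le ⟨p.2, lb⟩ hv
      linarith
    · exact ⟨1, one_pos, fun v hv => absurd ⟨v, hv⟩ hne⟩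
  obtain ⟨ε1, hε1, k1⟩ := k1
  obtain ⟨ε2, hε2, k2⟩ := k2
  rw [Metric.mem_closure_iff] at hcl
  obtain ⟨_, ⟨n, rfl⟩, hn⟩ := hcl (min ε1 ε2) (lt_min hε1 hε2)
  have hd : |p.2 - (w n).2| < min ε1 ε2 := by
    refine lt_of_le_of_lt ?_ hn
    rw [Prod.dist_eq, ← Real.dist_eq]
    exact le_max_right _ _
  have hd1 := lt_of_lt_of_le hd (min_le_left _ _)
  have hd2 := lt_of_lt_of_le hd (min_le_right _ _)
  rw [abs_lt] at hd1 hd2
  rcases le_total (w n).1 p.1 with h1 | h1
  · have := k1 _ ⟨n, h1, rfl⟩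
    linarith
  · have := k2 _ ⟨n, h1, rfl⟩
    linarith

theorem exists_seq (R : Set (ℝ × ℝ)) (hne : R.Nonempty) :
    ∃ w : ℕ → ℝ × ℝ, (∀ n, w n ∈ R) ∧ R ⊆ closure (range w) := by
  obtain ⟨t, htR, htc, hRt⟩ :=
    (TopologicalSpace.IsSeparable.of_separableSpace R).exists_countable_dense_subset
  have htne : t.Nonempty := by
    by_contra hcon
    rw [not_nonempty_iff_eq_empty] at hcon
    rw [hcon, closure_empty] at hRt
    obtain ⟨x, hx⟩ := hne
    exact hRt hx
  obtain ⟨w, rfl⟩ := htc.exists_eq_range htne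
  exact ⟨w, fun n => htR (mem_range_self n), hRt⟩

/-- For a strictly monotone relation there are boundedly many codes recovering it in both
directions. -/
theorem exists_bound (σ : K → (ℕ → ℝ × ℝ) × Bool) (hσ : Function.Surjective σ)
    (R : Set (ℝ × ℝ)) (hR : MonoRel R) :
    ∃ β : K, ∀ p ∈ R, (∃ δ ≤ β, p.2 = h (σ δ) p.1) ∧ ∃ δ ≤ β, p.1 = h (σ δ) p.2 := by
  by_cases hne : R.Nonempty
  · obtain ⟨w, hw, hcl⟩ := exists_seq R hne
    let w' : ℕ → ℝ × ℝ := fun n => (w n).swap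
    obtain ⟨b1, hb1⟩ := hσ (w, true)
    obtain ⟨b2, hb2⟩ := hσ (w, false)
    obtain ⟨b3, hb3⟩ := hσ (w', true)
    obtain ⟨b4, hb4⟩ := hσ (w', false)
    refine ⟨max (max b1 b2) (max b3 b4), fun p hp => ⟨?_, ?_⟩⟩
    · rcases recover R hR w hw p hp (hcl hp) with hh | hh
      · exact ⟨b1, (le_max_left _ _).trans (le_max_left _ _), by rw [hb1]; exact hh⟩
      · exact ⟨b2, (le_max_right _ _).trans (le_max_left _ _), by rw [hb2]; exact hh⟩
    · have hR' : MonoRel (Prod.swap '' R) := by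
        rintro _ ⟨a, ha, rfl⟩ _ ⟨b, hb, rfl⟩
        exact (hR a ha b hb).symm
      have hcl' : p.swap ∈ closure (range w') := by
        have h1 : p.swap ∈ Prod.swap '' closure (range w) := ⟨p, hcl hp, rfl⟩
        have h2 := image_closure_subset_closure_image continuous_swap h1
        have h3 : Prod.swap '' range w = range w' := by
          rw [← range_comp]; rfl
        rwa [h3] at h2
      rcases recover (Prod.swap '' R) hR' w' (fun n => ⟨w n, hw n, rfl⟩) p.swap ⟨p, hp, rfl⟩ hcl'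
        with hh | hh
      · exact ⟨b3, (le_max_left _ _).trans (le_max_right _ _), by rw [hb3]; exact hh⟩
      · exact ⟨b4, (le_max_right _ _).trans (le_max_right _ _), by rw [hb4]; exact hh⟩
  · have : Nonempty K := by
      rw [← Cardinal.mk_ne_zero_iff, mk_K]
      exact continuum_ne_zero
    obtain ⟨β⟩ := this
    exact ⟨β, fun p hp => absurd ⟨p, hp⟩ hne⟩

theorem exists_surj : ∃ σ : K → (ℕ → ℝ × ℝ) × Bool, Function.Surjective σ := by
  have h1 : #((ℕ → ℝ × ℝ) × Bool) = #K := by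
    rw [mk_K]
    simp only [mk_prod, mk_pi, mk_real, lift_id, continuum_mul_self, mk_bool]
    rw [prod_const, mk_nat]
    simp only [lift_id, lift_uzero]
    rw [continuum_power_aleph0]
    exact mul_eq_left aleph0_le_continuum ((nat_lt_continuum 2).le) (by norm_num)
  obtain ⟨e⟩ := Cardinal.eq.1 h1
  exact ⟨e.symm, e.symm.surjective⟩

theorem exists_partition : ∃ p : K → ℕ, ∀ c, #{α | p α = c} = Cardinal.continuum := by
  have h1 : #(K × ℕ) = #K := by
    rw [mk_prod, lift_id, lift_id, mk_K, mk_nat]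
    exact continuum_mul_aleph0
  obtain ⟨e⟩ := Cardinal.eq.1 h1
  refine ⟨fun α => (e.symm α).2, fun c => ?_⟩
  have h2 : {α | (e.symm α).2 = c} = range (fun k : K => e (k, c)) := by
    ext α
    constructor
    · intro hα
      refine ⟨(e.symm α).1, ?_⟩
      have : ((e.symm α).1, c) = e.symm α := by
        rw [← (show (e.symm α).2 = c from hα)]
      change e ((e.symm α).1, c) = α
      rw [this, e.apply_symm_apply]
    · rintro ⟨k, rfl⟩
      simp
  rw [h2, mk_range_eq, mk_K]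
  intro a b hab
  have := e.injective hab
  exact (Prod.ext_iff.1 this).1

theorem exists_orth : ∃ A : ℕ → Set ℝ, ∀ (c : ℕ) (S : ℕ → Set ℝ) (c' : ℕ → ℕ)
    (φ : ℕ → ℝ → ℝ), (∀ l, c' l ≠ c) → (∀ l, StrictMonoOn (φ l) (S l)) →
    (∀ l, ∀ x ∈ S l, φ l x ∈ A (c' l)) → ¬ A c ⊆ ⋃ l, S l := by
  obtain ⟨σ, hσ⟩ := exists_surj
  obtain ⟨p, hp⟩ := exists_partition
  let a : K → ℝ := pt (fun β => h (σ β))
  refine ⟨fun c => {x | ∃ α, p α = c ∧ a α = x}, ?_⟩
  intro c S c' φ hc' hφ hmap hcov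
  -- bound for each label
  have hb : ∀ l, ∃ β : K, ∀ α, p α = c → a α ∈ S l → α ≤ β := by
    intro l
    let R : Set (ℝ × ℝ) := {q | q.1 ∈ S l ∧ q.2 = φ l q.1}
    have hR : MonoRel R := by
      rintro q ⟨hq1, hq2⟩ r ⟨hr1, hr2⟩
      rw [hq2, hr2]
      exact ((hφ l).le_iff_le hq1 hr1).symm
    obtain ⟨β, hβ⟩ := exists_bound σ hσ R hR
    refine ⟨β, fun α hα hS => ?_⟩
    obtain ⟨γ, hγ, hγa⟩ := hmap l _ hS
    have hne : α ≠ γ := by
      rintro rfl
      exact hc' l (hγ.symm.trans hα)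
    have hmem : (a α, φ l (a α)) ∈ R := ⟨hS, rfl⟩
    obtain ⟨⟨δ, hδ, h1⟩, δ', hδ', h2⟩ := hβ _ hmem
    simp only at h1 h2
    rw [← hγa] at h1 h2
    by_contra hcon
    rw [not_le] at hcon
    rcases lt_or_gt_of_ne hne with hlt | hlt
    · exact (pt_spec (fun β => h (σ β)) γ).1 δ α ((hδ.trans_lt hcon).trans hlt) hlt h1
    · exact (pt_spec (fun β => h (σ β)) α).1 δ' γ (hδ'.trans_lt hcon) hlt h2
  choose β hβ using hb
  have hsub : {α | p α = c} ⊆ ⋃ l, Iic (β l) := by
    intro α hα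
    obtain ⟨l, hl⟩ := mem_iUnion.1 (hcov ⟨α, hα, rfl⟩)
    exact mem_iUnion.2 ⟨l, hβ l α hα hl⟩
  have h1 : Cardinal.continuum.{0} ≤ Cardinal.sum (fun l : ℕ => #(Iic (β l))) := by
    exact (hp c).symm.le.trans ((mk_le_mk_of_subset hsub).trans mk_iUnion_le_sum_mk)
  have h2 : Cardinal.sum (fun l : ℕ => #(Iic (β l))) <
      Cardinal.prod (fun _ : ℕ => Cardinal.continuum.{0}) :=
    sum_lt_prod _ _ fun l => mk_Iic_K (β l)
  have h3 : Cardinal.prod (fun _ : ℕ => Cardinal.continuum.{0}) = Cardinal.continuum := by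
    rw [prod_const, mk_nat, lift_id, lift_id, continuum_power_aleph0]
  rw [h3] at h2
  exact absurd h1 (not_le.2 h2)

end Pool.Agent.H6.OrthReals
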