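import Mathlib
import Pool.Agent.H6.OrthReals
import Pool.Agent.H6.EHMTree

set_option autoImplicit false

/-!
Subshift-type construction: a transfinite family of points of `2^ℤ` which is rigid modulo the shift.
-/

namespace Pool.Agent.H6.Dim

open Set Cardinal Pool.Agent.H6.OrthReals Filter Topology

abbrev S : Type := ℤ → Bool

def sh (i : ℤ) (y : S) : S := fun t => y (t + i)

theorem sh_sh (i j : ℤ) (y : S) : sh i (sh j y) = sh (i + j) y := by
  funext t; simp [sh, add_assoc]

theorem sh_zero (y : S) : sh 0 y = y := by funext t; simp [sh]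

/-- universal sequence: every finite pattern occurs -/
def un (j : ℕ) : Bool :=
  decide ((((Nat.sqrt j : ℤ) * Nat.sqrt j + Nat.sqrt j - j) : ℤ) ∈
    (Encodable.decode (α := Finset ℤ) (Nat.unpair (Nat.sqrt j)).1).getD ∅)

theorem un_spec (v : S) (k : ℕ) : ∃ p : ℕ, k ≤ p ∧
    ∀ i : ℤ, |i| ≤ k → ∀ j : ℕ, (j : ℤ) = p - i → un j = v i := by
  let D : Finset ℤ := (Finset.Icc (-(k : ℤ)) k).filter (fun i => v i = true)
  obtain ⟨n, hn⟩ : ∃ n, n = Nat.pair (Encodable.encode D) k := ⟨_, rfl⟩
  have hkn : k ≤ n := hn ▸ Nat.right_le_pair _ _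
  refine ⟨n * n + n, by nlinarith, fun i hi j hj => ?_⟩
  rw [abs_le] at hi
  have hs : Nat.sqrt j = n := by
    push_cast at hj
    have h1 : n * n ≤ j := by zify; nlinarith
    have h2 : j - n * n ≤ n + n := by
      rw [Nat.sub_le_iff_le_add]; zify; linarith
    have h3 : j = n * n + (j - n * n) := by omega
    rw [h3]
    exact Nat.sqrt_add_eq n h2
  unfold un
  rw [hs]
  have e1 : ((n : ℤ) * n + n - j) = i := by rw [hj]; push_cast; ring
  rw [e1, hn, Nat.unpair_pair]
  simp only [Encodable.encodek, Option.getD_some]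
  have hmem : i ∈ D ↔ v i = true := by
    simp only [D, Finset.mem_filter, Finset.mem_Icc]
    exact ⟨fun h => h.2, fun h => ⟨hi, h⟩⟩
  by_cases hv : v i = true
  · rw [hv]; simp [hmem, hv]
  · have hv' : v i = false := by simpa using hv
    rw [hv']; simp [hmem, hv']

/-- the two special points -/
def z (s : Bool) : S := fun i =>
  if 0 < i then false else if i = 0 then true else if i = -1 then s else un (-i - 2).toNat

theorem z_pos (s : Bool) (i : ℤ) (hi : 0 < i) : z s i = false := by simp [z, hi]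

theorem z_zero (s : Bool) : z s 0 = true := by simp [z]

theorem z_neg_one (s : Bool) : z s (-1) = s := by simp [z]

theorem z_true_le (s : Bool) (i : ℤ) (h : z s i = true) : i ≤ 0 := by
  by_contra h1
  rw [z_pos s i (by omega)] at h
  exact absurd h (by simp)

theorem z_dense (s : Bool) (v : S) (k : ℕ) :
    ∃ m : ℕ, 2 ≤ m ∧ ∀ i : ℤ, |i| ≤ k → sh (-(m : ℤ)) (z s) i = v i := by
  obtain ⟨p, hp, h⟩ := un_spec v k
  refine ⟨p + 2, by omega, fun i hi => ?_⟩
  have hi' := abs_le.mp hi
  rw [← h i hi (p - i).toNat (by omega)]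
  have h1 : ¬ (0 < i + -((p + 2 : ℕ) : ℤ)) := by push_cast; omega
  have h2 : ¬ (i + -((p + 2 : ℕ) : ℤ) = 0) := by push_cast; omega
  have h3 : ¬ (i + -((p + 2 : ℕ) : ℤ) = -1) := by push_cast; omega
  simp only [sh, z, h1, h2, h3, if_false]
  congr 1
  push_cast
  congr 1
  ring

/-- the targets -/
def T (s : Bool) (m k : ℕ) : Set S := {y | ∀ i : ℤ, -(k : ℤ) ≤ i → y i = z s (i - m)}

theorem mk_T (s : Bool) (m k : ℕ) : Cardinal.continuum.{0} ≤ #(T s m k) := by
  have h : ∀ w : ℕ → Bool, (fun i : ℤ => if -(k : ℤ) ≤ i then z s (i - m) else w (-i).toNat) ∈ T s m k := by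
    intro w i hi
    simp [hi]
  have inj : Function.Injective (fun w : {w : ℕ → Bool // ∀ n ≤ k, w n = false} =>
      (⟨_, h w.1⟩ : T s m k)) := by
    intro w w' hw
    apply Subtype.ext
    funext n
    by_cases hn : n ≤ k
    · rw [w.2 n hn, w'.2 n hn]
    · have := congrFun (congrArg Subtype.val hw) (-(n : ℤ))
      have h2 : ¬ (-(k : ℤ) ≤ -(n : ℤ)) := by omega
      simpa [h2] using this
  have inj2 : Function.Injective (fun w : ℕ → Bool =>
      (⟨fun n => if n ≤ k then false else w (n - (k + 1)), fun n hn => by simp [hn]⟩ :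
        {w : ℕ → Bool // ∀ n ≤ k, w n = false})) := by
    intro w w' hw
    funext n
    have := congrFun (congrArg Subtype.val hw) (n + (k + 1))
    have h2 : ¬ (n + (k + 1) ≤ k) := by omega
    simpa [h2] using this
  have h3 := mk_le_of_injective (inj.comp inj2)
  refine le_trans (le_of_eq ?_) h3
  simp

/-- the functions coded by sequences -/
noncomputable def Fam (w : ℕ → S × S) (y : S) : S :=
  limUnder (comap (fun n => (w n).1) (𝓝 y)) (fun n => (w n).2)

theorem fam_exists (E : Set S) (F : E → S) (hF : Continuous F) :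
    ∃ w : ℕ → S × S, ∀ y : E, F y = Fam w y := by
  by_cases hE : Nonempty E
  · obtain ⟨u, hu⟩ := TopologicalSpace.exists_dense_seq E
    refine ⟨fun n => ((u n : S), F (u n)), fun y => ?_⟩
    unfold Fam
    have hcl : comap (fun n => ((u n : E) : S)) (𝓝 (y : S)) = comap u (𝓝 y) := by
      rw [nhds_subtype_eq_comap, comap_comap]; rfl
    rw [hcl]
    have : NeBot (comap u (𝓝 y)) := by
      rw [comap_neBot_iff]
      intro t ht
      obtain ⟨x, hx1, hx2⟩ := mem_closure_iff_nhds.mp (hu y) t ht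
      obtain ⟨n, rfl⟩ := hx2
      exact ⟨n, hx1⟩
    have ht : Tendsto (fun n => F (u n)) (comap u (𝓝 y)) (𝓝 (F y)) :=
      (hF.tendsto y).comp tendsto_comap
    exact ht.limUnder_eq.symm
  · refine ⟨fun _ => (fun _ => false, fun _ => false), fun y => absurd ⟨y⟩ hE⟩

theorem fam_emb (E : Set S) (F : E → S) (hF : IsEmbedding F) :
    ∃ w w' : ℕ → S × S, (∀ y : E, F y = Fam w y) ∧ ∀ y : E, (y : S) = Fam w' (F y) := by
  obtain ⟨w, hw⟩ := fam_exists E F hF.continuous
  obtain ⟨w', hw'⟩ := fam_exists (range F) (fun v => ((hF.toHomeomorph.symm v : E) : S))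
    (continuous_subtype_val.comp (hF.toHomeomorph.symm.continuous))
  refine ⟨w, w', hw, fun y => ?_⟩
  have := hw' ⟨F y, mem_range_self y⟩
  rw [← this]
  congr 1
  rw [Homeomorph.eq_symm_apply]
  rfl

end Pool.Agent.H6.Dim
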