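import Mathlib
import Pool.Agent.H6.DimA

set_option autoImplicit false

namespace Pool.Agent.H6.Dim

open Set Cardinal Pool.Agent.H6.OrthReals Filter Topology

theorem exists_enum : ∃ (q : K → (ℕ → S × S)) (e : K → Bool × ℕ × ℕ),
    Function.Surjective q ∧ ∀ (α : K) (t : Bool × ℕ × ℕ), ∃ β, α < β ∧ e β = t := by
  have hS : #(ℕ → S × S) = Cardinal.continuum.{0} := by
    simp
  obtain ⟨φ⟩ : Nonempty (K ≃ (ℕ → S × S)) := by
    rw [← Cardinal.eq, hS, mk_K]
  obtain ⟨ψ⟩ : Nonempty (K ≃ K × (Bool × ℕ × ℕ)) := by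
    rw [← Cardinal.eq, mk_prod, mk_K]
    simp
  refine ⟨φ, fun α => (ψ α).2, φ.surjective, fun α t => ?_⟩
  by_contra hcon
  push Not at hcon
  have h1 : range (fun β : K => ψ.symm (β, t)) ⊆ Iic α := by
    rintro _ ⟨β, rfl⟩
    by_contra h2
    exact hcon (ψ.symm (β, t)) (not_le.mp h2) (by simp)
  have h2 : #(range (fun β : K => ψ.symm (β, t))) = Cardinal.continuum := by
    rw [mk_range_eq _ (fun a b hab => by simpa using hab), mk_K]
  have h3 := mk_le_mk_of_subset h1
  rw [h2] at h3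
  exact absurd (mk_Iic_K α) (not_lt.mpr h3)

/-- the family of points -/
def Y (x : K → S) : Bool ⊕ K → S := Sum.elim z x

theorem exists_pts (q : K → (ℕ → S × S)) (e : K → Bool × ℕ × ℕ) :
    ∃ x : K → S, (∀ α, x α ∈ T (e α).1 (e α).2.1 (e α).2.2) ∧
      (∀ α : K, ∀ r : Bool ⊕ K, (∀ γ, r = Sum.inr γ → γ < α) → ∀ i j : ℤ,
        (x α ≠ sh i (Y x r)) ∧ ∀ β < α, x α ≠ sh i (Fam (q β) (sh j (Y x r)))) := by
  classical
  let G : ∀ α : K, Option (Iio α) → S → S := fun α o => o.elim id (fun β => Fam (q β.1))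
  let Z : ∀ (P : K → S) (α : K), Bool ⊕ Iio α → S := fun P α => Sum.elim z (fun γ => P γ.1)
  let Av : ∀ (P : K → S) (α : K), Set S := fun P α =>
    range (fun t : (Option (Iio α) × (Bool ⊕ Iio α)) × (ℤ × ℤ) =>
      sh t.2.1 (G α t.1.1 (sh t.2.2 (Z P α t.1.2))))
  have hAv : ∀ P α, #(Av P α) < Cardinal.continuum.{0} := by
    intro P α
    refine lt_of_le_of_lt mk_range_le ?_
    have hI := mk_Iio_K α
    rw [mk_prod, mk_prod, lift_id, lift_id, lift_id, lift_id]
    refine mul_lt_of_lt aleph0_le_continuum (mul_lt_of_lt aleph0_le_continuum ?_ ?_) ?_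
    · rw [mk_option]
      exact add_lt_of_lt aleph0_le_continuum hI
        (lt_of_lt_of_le one_lt_aleph0 aleph0_le_continuum)
    · rw [mk_sum, lift_id, lift_id]
      refine add_lt_of_lt aleph0_le_continuum ?_ hI
      exact lt_of_lt_of_le (by simp) aleph0_le_continuum
    · exact lt_of_le_of_lt mk_le_aleph0 aleph0_lt_continuum
  obtain ⟨x, hx⟩ := _root_.H6.EHM.rec_exists (Ω := K) (A := S) (fun _ => false)
    (fun P α a => a ∈ T (e α).1 (e α).2.1 (e α).2.2 ∧ a ∉ Av P α) (by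
      intro P α
      by_contra hcon
      push Not at hcon
      have h1 : T (e α).1 (e α).2.1 (e α).2.2 ⊆ Av P α := hcon
      exact absurd (lt_of_le_of_lt (le_trans (mk_T _ _ _) (mk_le_mk_of_subset h1)) (hAv P α))
        (lt_irrefl _))
  refine ⟨x, fun α => (hx α).1, ?_⟩
  intro α r hr i j
  have hns := (hx α).2
  obtain ⟨r', hr'⟩ : ∃ r' : Bool ⊕ Iio α,
      Z (fun s => if s < α then x s else fun _ => false) α r' = Y x r := by
    rcases r with s | γ
    · exact ⟨Sum.inl s, rfl⟩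
    · refine ⟨Sum.inr ⟨γ, hr γ rfl⟩, ?_⟩
      show (if γ < α then x γ else fun _ => false) = x γ
      rw [if_pos (hr γ rfl)]
  constructor
  · intro h
    apply hns
    refine ⟨((none, r'), (i, 0)), ?_⟩
    have e1 : G α none = id := rfl
    simp only [e1, id, hr', sh_zero]
    exact h.symm
  · intro β hβ h
    apply hns
    refine ⟨((some ⟨β, hβ⟩, r'), (i, j)), ?_⟩
    have e2 : G α (some ⟨β, hβ⟩) = Fam (q β) := rfl
    simp only [e2, hr']
    exact h.symm

/-- the data produced by the recursion -/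
structure Data where
  q : K → (ℕ → S × S)
  e : K → Bool × ℕ × ℕ
  x : K → S
  hq : Function.Surjective q
  he : ∀ (α : K) (t : Bool × ℕ × ℕ), ∃ β, α < β ∧ e β = t
  hT : ∀ α, x α ∈ T (e α).1 (e α).2.1 (e α).2.2
  h1 : ∀ α : K, ∀ r : Bool ⊕ K, (∀ γ, r = Sum.inr γ → γ < α) → ∀ i : ℤ, x α ≠ sh i (Y x r)
  h2 : ∀ α : K, ∀ r : Bool ⊕ K, (∀ γ, r = Sum.inr γ → γ < α) → ∀ i j : ℤ, ∀ β < α,
    x α ≠ sh i (Fam (q β) (sh j (Y x r)))

theorem exists_data : Nonempty Data := by
  obtain ⟨q, e, hq, he⟩ := exists_enum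
  obtain ⟨x, hx1, hx2⟩ := exists_pts q e
  exact ⟨⟨q, e, x, hq, he, hx1, fun α r hr i => (hx2 α r hr i 0).1,
    fun α r hr i j β hβ => (hx2 α r hr i j).2 β hβ⟩⟩

/-- `L` is the last true position -/
def Last (y : S) (L : ℤ) : Prop := y L = true ∧ ∀ t, L < t → y t = false

theorem Last.sh {y : S} {L : ℤ} (h : Last y L) (i : ℤ) : Last (sh i y) (L - i) := by
  refine ⟨?_, fun t ht => ?_⟩
  · show y (L - i + i) = true
    rw [sub_add_cancel]; exact h.1
  · exact h.2 (t + i) (by omega)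

theorem Last.unique {y : S} {L L' : ℤ} (h : Last y L) (h' : Last y L') : L = L' := by
  rcases lt_trichotomy L L' with hl | hl | hl
  · have := h.2 L' hl; rw [h'.1] at this; exact absurd this (by simp)
  · exact hl
  · have := h'.2 L hl; rw [h.1] at this; exact absurd this (by simp)

theorem last_z (s : Bool) : Last (z s) 0 := ⟨z_zero s, fun t ht => z_pos s t ht⟩

theorem last_T (s : Bool) (m k : ℕ) (y : S) (hy : y ∈ T s m k) : Last y m := by
  refine ⟨?_, fun t ht => ?_⟩
  · rw [hy m (by omega), sub_self]; exact z_zero s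
  · rw [hy t (by omega)]; exact z_pos s _ (by omega)

variable (D : Data)

/-- the points of the union of orbits -/
def pt (p : (Bool ⊕ K) × ℤ) : S := sh p.2 (Y D.x p.1)

theorem sh_pt (i : ℤ) (r : Bool ⊕ K) (j : ℤ) : sh i (pt D (r, j)) = pt D (r, j + i) := by
  unfold pt; rw [sh_sh, add_comm]

theorem last_Y (r : Bool ⊕ K) : ∃ L, Last (Y D.x r) L := by
  rcases r with s | α
  · exact ⟨0, last_z s⟩
  · exact ⟨_, last_T _ _ _ _ (D.hT α)⟩

theorem pt_aux (r r' : Bool ⊕ K) (i j : ℤ) (h : pt D (r, i) = pt D (r', j)) :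
    Y D.x r = sh (j - i) (Y D.x r') := by
  have := congrArg (sh (-i)) h
  rw [sh_pt, sh_pt] at this
  unfold pt at this
  simp only [] at this
  rw [show i + -i = 0 by ring, sh_zero] at this
  rw [this]; congr 1

theorem pt_inj : Function.Injective (pt D) := by
  rintro ⟨r, i⟩ ⟨r', j⟩ h
  have same : r = r' → i = j := by
    rintro rfl
    obtain ⟨L, hL⟩ := last_Y D r
    have h1 := hL.sh i
    have h2 := hL.sh j
    have h3 : sh i (Y D.x r) = sh j (Y D.x r) := h
    rw [h3] at h1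
    have := h1.unique h2
    omega
  have hr : r = r' := by
    rcases r with s | α <;> rcases r' with t | β
    · have h0 : i = j := by
        have h1 := (last_z s).sh i
        have h2 := (last_z t).sh j
        have h3 : sh i (z s) = sh j (z t) := h
        rw [h3] at h1
        have := h1.unique h2
        omega
      subst h0
      have h4 := pt_aux D _ _ _ _ h
      rw [sub_self, sh_zero] at h4
      have h5 := congrFun h4 (-1)
      change z s (-1) = z t (-1) at h5
      rw [z_neg_one, z_neg_one] at h5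
      rw [h5]
    · exact absurd (pt_aux D _ _ _ _ h.symm) (D.h1 β (Sum.inl s) (by simp) _)
    · exact absurd (pt_aux D _ _ _ _ h) (D.h1 α (Sum.inl t) (by simp) _)
    · rcases lt_trichotomy α β with hab | hab | hab
      · exact absurd (pt_aux D _ _ _ _ h.symm) (D.h1 β (Sum.inr α) (by
          intro γ hγ; simp only [Sum.inr.injEq] at hγ; rwa [← hγ]) _)
      · rw [hab]
      · exact absurd (pt_aux D _ _ _ _ h) (D.h1 α (Sum.inr β) (by
          intro γ hγ; simp only [Sum.inr.injEq] at hγ; rwa [← hγ]) _)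
  rw [same hr, hr]

/-- the set of points coded by an index set -/
def St (P : Set ((Bool ⊕ K) × ℤ)) : Set S := pt D '' P

theorem mem_St (P : Set ((Bool ⊕ K) × ℤ)) (p : (Bool ⊕ K) × ℤ) : pt D p ∈ St D P ↔ p ∈ P := by
  unfold St
  exact (pt_inj D).mem_set_image

/-- embeddings preserve orbits of late points -/
theorem stay (P Q : Set ((Bool ⊕ K) × ℤ)) (F : St D P → S) (hF : IsEmbedding F)
    (hQ : ∀ y, F y ∈ St D Q) :
    ∃ α0 : K, ∀ α > α0, ∀ i : ℤ, ∀ hi : ((Sum.inr α : Bool ⊕ K), i) ∈ P,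
      ∃ i', ((Sum.inr α : Bool ⊕ K), i') ∈ Q ∧
        F ⟨pt D (Sum.inr α, i), (mem_St D P _).mpr hi⟩ = pt D (Sum.inr α, i') := by
  obtain ⟨w, w', hw, hw'⟩ := fam_emb _ F hF
  obtain ⟨β, rfl⟩ := D.hq w
  obtain ⟨β', rfl⟩ := D.hq w'
  refine ⟨max β β', fun α hα i hi => ?_⟩
  have hβ : β < α := lt_of_le_of_lt (le_max_left _ _) hα
  have hβ' : β' < α := lt_of_le_of_lt (le_max_right _ _) hα
  set y : St D P := ⟨pt D (Sum.inr α, i), (mem_St D P _).mpr hi⟩ with hy
  obtain ⟨⟨r, i'⟩, hri, hr⟩ := hQ y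
  have hr1 : F y = pt D (r, i') := hr.symm
  by_cases hc : ∀ γ, r = Sum.inr γ → γ < α
  · exfalso
    have h3 : (y : S) = Fam (D.q β') (sh i' (Y D.x r)) := by
      rw [hw' y, hr1]; rfl
    have h4 : D.x α = sh (-i) (y : S) := by
      have h7 : (y : S) = pt D (Sum.inr α, i) := rfl
      rw [h7, sh_pt, show i + -i = 0 by ring]
      unfold pt
      rw [sh_zero]; rfl
    rw [h3] at h4
    exact D.h2 α r hc _ _ β' hβ' h4
  · push Not at hc
    obtain ⟨γ, rfl, hγ⟩ := hc
    rcases hγ.eq_or_lt with h5 | h5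
    · subst h5
      exact ⟨i', hri, hr1⟩
    · exfalso
      have h3 : pt D (Sum.inr γ, i') = Fam (D.q β) (sh i (Y D.x (Sum.inr α))) := by
        rw [← hr1, hw y]; rfl
      have h4 : D.x γ = sh (-i') (pt D (Sum.inr γ, i')) := by
        rw [sh_pt D (-i') _ i', show i' + -i' = 0 by ring]
        unfold pt
        rw [sh_zero]; rfl
      rw [h3] at h4
      exact D.h2 γ (Sum.inr α) (by
        intro δ hδ; simp only [Sum.inr.injEq] at hδ; rwa [← hδ]) _ _ β (hβ.trans h5) h4

end Pool.Agent.H6.Dim
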