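import Mathlib
import Pool.Agent.H6.DimB

set_option autoImplicit false

namespace Pool.Agent.H6.Dim

open Set Cardinal Pool.Agent.H6.OrthReals Filter Topology

variable (D : Data)

/-- windows form a neighbourhood basis -/
theorem window (y : S) (U : Set S) (hU : IsOpen U) (hy : y ∈ U) :
    ∃ k : ℕ, ∀ y' : S, (∀ i : ℤ, |i| ≤ k → y' i = y i) → y' ∈ U := by
  obtain ⟨I, u, hu, hsub⟩ := isOpen_pi_iff.mp hU y hy
  refine ⟨I.sup Int.natAbs, fun y' hy' => hsub ?_⟩
  intro i hi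
  have h1 : i.natAbs ≤ I.sup Int.natAbs := Finset.le_sup (f := Int.natAbs) hi
  rw [hy' i (by rw [Int.abs_eq_natAbs]; exact_mod_cast h1)]
  exact (hu i hi).2

theorem window_open (y : S) (k : ℕ) : IsOpen {y' : S | ∀ i : ℤ, |i| ≤ k → y' i = y i} := by
  have : {y' : S | ∀ i : ℤ, |i| ≤ k → y' i = y i} =
      ⋂ i ∈ Finset.Icc (-(k : ℤ)) k, {y' : S | y' i = y i} := by
    ext y'; simp [abs_le]
  rw [this]
  apply isOpen_biInter_finset
  intro i _
  have hc : Continuous (fun y' : S => y' i) := continuous_apply i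
  exact (isOpen_discrete {y i}).preimage hc

theorem limit (P Q : Set ((Bool ⊕ K) × ℤ)) (F : St D P → S) (hF : IsEmbedding F)
    (hQ : ∀ y, F y ∈ St D Q) (j : ℕ) (α1 : K)
    (hj : ∀ α > α1, ((Sum.inr α : Bool ⊕ K), (j : ℤ)) ∈ P)
    (hjQ : ∀ α > α1, ∀ i : ℤ, ((Sum.inr α : Bool ⊕ K), i) ∈ Q → (j : ℤ) ≤ i)
    (s : Bool) (m : ℕ) (hm : ((Sum.inl s : Bool ⊕ K), -(m : ℤ)) ∈ P) :
    ∃ n : ℕ, F ⟨pt D (Sum.inl s, -(m : ℤ)), (mem_St D P _).mpr hm⟩ = pt D (Sum.inl s, n - m) := by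
  obtain ⟨α0, h0⟩ := stay D P Q F hF hQ
  set zm : St D P := ⟨pt D (Sum.inl s, -(m : ℤ)), (mem_St D P _).mpr hm⟩ with hzm
  obtain ⟨w, hw⟩ : ∃ w, w = F zm := ⟨_, rfl⟩
  obtain ⟨i0, hi0⟩ : ∃ i0, w i0 = true := by
    obtain ⟨⟨r, i⟩, -, hr⟩ := hQ zm
    obtain ⟨L, hL⟩ := last_Y D r
    refine ⟨L - i, ?_⟩
    rw [hw, ← hr]
    exact (hL.sh i).1
  have key : ∀ K' : ℕ, i0.natAbs ≤ K' → ∃ n ≤ ((m : ℤ) - i0).toNat,
      ∀ i : ℤ, |i| ≤ K' → w i = z s (i + n - m) := by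
    intro K' hK'
    have hop : IsOpen (F ⁻¹' {y' : S | ∀ i : ℤ, |i| ≤ K' → y' i = w i}) :=
      (window_open w K').preimage hF.continuous
    obtain ⟨U, hU, hUe⟩ := isOpen_induced_iff.mp hop
    have hzU : (zm : S) ∈ U := by
      have : zm ∈ F ⁻¹' {y' : S | ∀ i : ℤ, |i| ≤ K' → y' i = w i} := by
        show ∀ i : ℤ, |i| ≤ K' → F zm i = w i
        intro i _; rw [hw]
      rw [← hUe] at this
      exact this
    obtain ⟨k, hk⟩ := window _ U hU hzU
    obtain ⟨α, hα, he⟩ := D.he (max α0 α1) (s, m + j, k + K')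
    have hα0 : α > α0 := lt_of_le_of_lt (le_max_left _ _) hα
    have hα1 : α > α1 := lt_of_le_of_lt (le_max_right _ _) hα
    have hT := D.hT α
    rw [he] at hT
    obtain ⟨i', hi'Q, hi'⟩ := h0 α hα0 j (hj α hα1)
    have hji := hjQ α hα1 i' hi'Q
    have hval : ∀ l : ℤ, -((k + K' : ℕ) : ℤ) ≤ l + j → D.x α (l + j) = z s (l - m) := by
      intro l hl
      rw [hT (l + j) hl]
      congr 1
      push_cast
      ring
    have hyU : pt D (Sum.inr α, (j : ℤ)) ∈ U := by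
      apply hk
      intro i hi
      have h1 := (abs_le.mp hi).1
      show D.x α (i + j) = z s (i + -m)
      rw [hval i (by push_cast; omega)]
      congr 1
    have hyF : ∀ i : ℤ, |i| ≤ K' → pt D (Sum.inr α, i') i = w i := by
      have : (⟨pt D (Sum.inr α, (j : ℤ)), (mem_St D P _).mpr (hj α hα1)⟩ : St D P) ∈
          F ⁻¹' {y' : S | ∀ i : ℤ, |i| ≤ K' → y' i = w i} := by
        rw [← hUe]; exact hyU
      intro i hi
      have h2 := this i hi
      rw [← hi']; exact h2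
    have hyF2 : ∀ i : ℤ, |i| ≤ K' → w i = z s (i + (i' - j) - m) := by
      intro i hi
      rw [← hyF i hi]
      have h1 := (abs_le.mp hi).1
      show D.x α (i + i') = _
      rw [show i + i' = (i + (i' - j)) + j by ring, hval _ (by push_cast; omega)]
    refine ⟨(i' - j).toNat, ?_, ?_⟩
    · have h3 := hyF2 i0 (by rw [Int.abs_eq_natAbs]; exact_mod_cast hK')
      rw [hi0] at h3
      have h4 := z_true_le s _ h3.symm
      omega
    · intro i hi
      rw [hyF2 i hi]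
      congr 1
      omega
  by_contra hcon
  push Not at hcon
  have hne : ∀ n : ℕ, ∃ i : ℤ, w i ≠ z s (i + n - m) := by
    intro n
    by_contra h
    push Not at h
    apply hcon n
    rw [← hw]
    funext i
    rw [h i]
    show _ = z s (i + (n - m))
    congr 1
    ring
  choose ii hii using hne
  obtain ⟨n, hn, h⟩ := key (max i0.natAbs
    ((Finset.range (((m : ℤ) - i0).toNat + 1)).sup (fun n => (ii n).natAbs))) (le_max_left _ _)
  apply hii n
  apply h
  rw [Int.abs_eq_natAbs]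
  have h5 : (ii n).natAbs ≤ (Finset.range (((m : ℤ) - i0).toNat + 1)).sup
      (fun n => (ii n).natAbs) :=
    Finset.le_sup (f := fun n => (ii n).natAbs) (Finset.mem_range.mpr (by omega))
  exact_mod_cast le_trans h5 (le_max_right _ _)

theorem rigid (P Q : Set ((Bool ⊕ K) × ℤ)) (F : St D P → S) (hF : IsEmbedding F)
    (hQ : ∀ y, F y ∈ St D Q) (j : ℕ) (α1 : K)
    (hj : ∀ α > α1, ((Sum.inr α : Bool ⊕ K), (j : ℤ)) ∈ P)
    (hjQ : ∀ α > α1, ∀ i : ℤ, ((Sum.inr α : Bool ⊕ K), i) ∈ Q → (j : ℤ) ≤ i)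
    (s : Bool) (m0 : ℕ) (hm0 : m0 ≤ 2)
    (hP : ∀ m : ℕ, m0 ≤ m → ((Sum.inl s : Bool ⊕ K), -(m : ℤ)) ∈ P)
    (hQ0 : ∀ i : ℤ, ((Sum.inl s : Bool ⊕ K), i) ∈ Q → i ≤ -(m0 : ℤ)) :
    ∀ y : St D P, F y = y := by
  have h1 : ∀ m : ℕ, ∀ hm : m0 ≤ m,
      F ⟨pt D (Sum.inl s, -(m : ℤ)), (mem_St D P _).mpr (hP m hm)⟩ = pt D (Sum.inl s, -(m : ℤ)) := by
    intro m
    induction m using Nat.strong_induction_on with
    | _ m ih =>
      intro hm
      obtain ⟨n, hn⟩ := limit D P Q F hF hQ j α1 hj hjQ s m (hP m hm)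
      have h2 := hQ ⟨pt D (Sum.inl s, -(m : ℤ)), (mem_St D P _).mpr (hP m hm)⟩
      rw [hn, mem_St] at h2
      have h3 := hQ0 _ h2
      rcases Nat.eq_zero_or_pos n with h4 | h4
      · rw [hn, h4]; simp
      · exfalso
        have h5 := ih (m - n) (by omega) (by omega)
        have h6 : ((n : ℤ) - m) = -((m - n : ℕ) : ℤ) := by omega
        have h7 := hn.trans ((by rw [h6]) : pt D (Sum.inl s, (n : ℤ) - m) =
          pt D (Sum.inl s, -((m - n : ℕ) : ℤ)))
        have h8 := hF.injective (h7.trans h5.symm)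
        have h8' : pt D (Sum.inl s, -(m : ℤ)) = pt D (Sum.inl s, -((m - n : ℕ) : ℤ)) :=
          congrArg Subtype.val h8
        have h9 := pt_inj D h8'
        simp only [Prod.mk.injEq, true_and] at h9
        omega
  have hclosed : IsClosed {y : St D P | F y = y} := isClosed_eq hF.continuous continuous_subtype_val
  intro y
  have hmem : y ∈ closure {y : St D P | F y = y} := by
    rw [mem_closure_iff]
    intro o ho hyo
    obtain ⟨U, hU, rfl⟩ := isOpen_induced_iff.mp ho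
    obtain ⟨k, hk⟩ := window _ U hU hyo
    obtain ⟨m, hm, hmk⟩ := z_dense s (y : S) k
    exact ⟨⟨pt D (Sum.inl s, -(m : ℤ)), (mem_St D P _).mpr (hP m (by omega))⟩,
      hk _ hmk, h1 m (by omega)⟩
  rw [hclosed.closure_eq] at hmem
  exact hmem

end Pool.Agent.H6.Dim
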