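import Mathlib
import Pool.Agent.H6.DimC

set_option autoImplicit false

namespace Pool.Agent.H6.Dim

open Set Cardinal Pool.Agent.H6.OrthReals Filter Topology

theorem exists_em : ∃ em : S → ℝ, Continuous em ∧ Function.Injective em := by
  obtain ⟨f, -, hf2, hf3⟩ := IsClosed.exists_nat_bool_injection_of_not_countable (α := ℝ)
    isClosed_univ Cardinal.not_countable_real
  obtain ⟨φ⟩ : Nonempty (ℕ ≃ ℤ) := ⟨(Denumerable.eqv ℤ).symm⟩
  refine ⟨fun y => f (fun n => y (φ n)), ?_, ?_⟩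
  · exact hf2.comp (continuous_pi fun n => continuous_apply (φ n))
  · intro y y' h
    have h1 := hf3 h
    funext t
    have := congrFun h1 (φ.symm t)
    simpa using this

/-- the shift as a homeomorphism -/
def shH (n : ℤ) : S ≃ₜ S where
  toFun := sh n
  invFun := sh (-n)
  left_inv y := by rw [sh_sh, neg_add_cancel, sh_zero]
  right_inv y := by rw [sh_sh, add_neg_cancel, sh_zero]
  continuous_toFun := continuous_pi fun t => continuous_apply (t + n)
  continuous_invFun := continuous_pi fun t => continuous_apply (t + -n)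

variable (D : Data) (em : S → ℝ)

/-- the coded sets of reals -/
def R (P : Set ((Bool ⊕ K) × ℤ)) : Set ℝ := em '' St D P

/-- inverse of the embedding -/
noncomputable def inv {P : Set ((Bool ⊕ K) × ℤ)} (v : R D em P) : S := Classical.choose v.2

theorem inv_mem {P : Set ((Bool ⊕ K) × ℤ)} (v : R D em P) : inv D em v ∈ St D P :=
  (Classical.choose_spec v.2).1

theorem em_inv {P : Set ((Bool ⊕ K) × ℤ)} (v : R D em P) : em (inv D em v) = v :=
  (Classical.choose_spec v.2).2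

theorem inv_emb {P : Set ((Bool ⊕ K) × ℤ)} (hem : IsEmbedding em) :
    IsEmbedding (inv D em (P := P)) := by
  have h1 : em ∘ (inv D em (P := P)) = Subtype.val := by
    funext v; exact em_inv D em v
  have h2 : Continuous (inv D em (P := P)) := by
    rw [hem.isInducing.continuous_iff, h1]
    exact continuous_subtype_val
  exact IsEmbedding.of_comp h2 hem.continuous (h1 ▸ IsEmbedding.subtypeVal)

/-- rigidity of a pair of index sets -/
def Rig (P Q : Set ((Bool ⊕ K) × ℤ)) : Prop :=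
  ∀ F : St D P → S, IsEmbedding F → (∀ y, F y ∈ St D Q) → ∀ y : St D P, F y = y

theorem rigidR (P Q : Set ((Bool ⊕ K) × ℤ)) (hem : IsEmbedding em) (H : Rig D P Q)
    (φ : R D em P → R D em Q) (hφ : IsEmbedding φ) : ∀ x, (φ x : ℝ) = x := by
  let emP : St D P → R D em P := fun y => ⟨em y, mem_image_of_mem em y.2⟩
  have h0 : Continuous emP := (hem.continuous.comp continuous_subtype_val).subtype_mk _
  have h1 : IsEmbedding emP := by
    refine IsEmbedding.of_comp h0 continuous_subtype_val ?_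
    exact hem.comp IsEmbedding.subtypeVal
  have h2 := H (inv D em ∘ φ ∘ emP) ((inv_emb D em hem).comp (hφ.comp h1))
    (fun y => inv_mem D em _)
  intro x
  have h3 := h2 ⟨inv D em x, inv_mem D em x⟩
  have h4 : emP ⟨inv D em x, inv_mem D em x⟩ = x := Subtype.ext (em_inv D em x)
  simp only [Function.comp, h4] at h3
  rw [← em_inv D em (φ x), h3, em_inv D em x]

def LE' (E F : Set ℝ) : Prop := ∃ f : E → F, IsEmbedding f

theorem LE'.trans {E F G : Set ℝ} (h1 : LE' E F) (h2 : LE' F G) : LE' E G := by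
  obtain ⟨f, hf⟩ := h1
  obtain ⟨g, hg⟩ := h2
  exact ⟨g ∘ f, hg.comp hf⟩

theorem LE'.of_subset {E F : Set ℝ} (h : E ⊆ F) : LE' E F :=
  ⟨inclusion h, IsEmbedding.inclusion h⟩

/-- strictly below -/
def LT' (E F : Set ℝ) : Prop := LE' E F ∧ ¬ LE' F E

/-- immediate predecessor -/
def Pr (E F : Set ℝ) : Prop := LT' E F ∧ ¬ ∃ G : Set ℝ, LT' E G ∧ LT' G F

theorem Pr.congr_left {E E' F : Set ℝ} (h1 : LE' E E') (h2 : LE' E' E) (h : Pr E F) : Pr E' F := by
  refine ⟨⟨h2.trans h.1.1, fun h3 => h.1.2 (h3.trans h2)⟩, ?_⟩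
  rintro ⟨G, hG1, hG2⟩
  exact h.2 ⟨G, ⟨h1.trans hG1.1, fun h3 => hG1.2 (h3.trans h1)⟩, hG2⟩

theorem pred (P Q : Set ((Bool ⊕ K) × ℤ)) (hem : IsEmbedding em) (a : (Bool ⊕ K) × ℤ)
    (hQ : Q = insert a P) (ha : a ∉ P) (h1 : Rig D P Q) (h2 : Rig D Q Q) :
    Pr (R D em P) (R D em Q) := by
  have hPQ : P ⊆ Q := by rw [hQ]; exact subset_insert _ _
  have hsub : R D em P ⊆ R D em Q := image_mono (image_mono hPQ)
  have hmemR : ∀ (P' : Set ((Bool ⊕ K) × ℤ)) (p : (Bool ⊕ K) × ℤ),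
      em (pt D p) ∈ R D em P' ↔ p ∈ P' := by
    intro P' p
    unfold R
    rw [hem.injective.mem_set_image, mem_St]
  refine ⟨⟨LE'.of_subset hsub, ?_⟩, ?_⟩
  · rintro ⟨φ, hφ⟩
    have h3 := rigidR D em Q Q hem h2 (inclusion hsub ∘ φ) ((IsEmbedding.inclusion hsub).comp hφ)
    have haQ : em (pt D a) ∈ R D em Q := (hmemR Q a).mpr (by rw [hQ]; exact mem_insert _ _)
    have h4 := h3 ⟨em (pt D a), haQ⟩
    have h5 : ((φ ⟨em (pt D a), haQ⟩ : R D em P) : ℝ) = em (pt D a) := h4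
    have h6 : em (pt D a) ∈ R D em P := h5 ▸ (φ ⟨em (pt D a), haQ⟩).2
    exact ha ((hmemR P a).mp h6)
  · rintro ⟨G, ⟨⟨i, hi⟩, hG1⟩, ⟨⟨j, hj⟩, hG2⟩⟩
    have h3 := rigidR D em P Q hem h1 (j ∘ i) (hj.comp hi)
    by_cases hc : ∃ g : G, (j g : ℝ) = em (pt D a)
    · -- `j` is onto
      apply hG2
      have hsurj : Function.Surjective j := by
        rintro ⟨v, y, ⟨p, hp, rfl⟩, rfl⟩
        rw [hQ] at hp
        rcases hp with rfl | hp
        · obtain ⟨g, hg⟩ := hc
          exact ⟨g, Subtype.ext hg⟩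
        · have hx : em (pt D p) ∈ R D em P := (hmemR P p).mpr hp
          exact ⟨i ⟨_, hx⟩, Subtype.ext (h3 ⟨_, hx⟩)⟩
      exact ⟨(hj.toHomeomorphOfSurjective hsurj).symm, (hj.toHomeomorphOfSurjective hsurj).symm.isEmbedding⟩
    · apply hG1
      have hjP : ∀ g : G, (j g : ℝ) ∈ R D em P := by
        intro g
        obtain ⟨y, ⟨p, hp, hpy⟩, hy⟩ := (j g).2
        rw [hQ] at hp
        rcases hp with rfl | hp
        · exact absurd ⟨g, by rw [← hy, ← hpy]⟩ hc
        · rw [← hy, ← hpy]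
          exact (hmemR P p).mpr hp
      have h9 : IsEmbedding (fun g : G => (j g : ℝ)) := IsEmbedding.subtypeVal.comp hj
      exact ⟨fun g => ⟨j g, hjP g⟩,
        IsEmbedding.of_comp (h9.continuous.subtype_mk _) continuous_subtype_val h9⟩

theorem le_shift (P Q : Set ((Bool ⊕ K) × ℤ)) (hem : IsEmbedding em) (n : ℤ)
    (h : ∀ p : (Bool ⊕ K) × ℤ, p ∈ P → (p.1, p.2 + n) ∈ Q) : LE' (R D em P) (R D em Q) := by
  have hmem : ∀ v : R D em P, em (sh n (inv D em v)) ∈ R D em Q := by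
    intro v
    obtain ⟨⟨r, i⟩, hp, hpv⟩ := inv_mem D em v
    rw [← hpv, sh_pt]
    exact mem_image_of_mem em (mem_image_of_mem _ (h _ hp))
  refine ⟨fun v => ⟨em (sh n (inv D em v)), hmem v⟩, ?_⟩
  have h1 : IsEmbedding (em ∘ (shH n) ∘ inv D em (P := P)) :=
    hem.comp ((shH n).isEmbedding.comp (inv_emb D em hem))
  refine IsEmbedding.of_comp ?_ continuous_subtype_val h1
  exact h1.continuous.subtype_mk _

/-- the index sets -/
def PC : Set ((Bool ⊕ K) × ℤ) := {p | Sum.elim (fun _ => p.2 ≤ 0) (fun _ => 0 ≤ p.2) p.1}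

def PB : Set ((Bool ⊕ K) × ℤ) := PC \ {(Sum.inl false, 0)}

def PA : Set ((Bool ⊕ K) × ℤ) := PB \ {(Sum.inl true, 0)}

def En (a : ℕ → K) (n : ℕ) : Set ((Bool ⊕ K) × ℤ) :=
  {p | Sum.elim (fun _ => p.2 ≤ 0) (fun _ => 1 ≤ p.2) p.1} ∪
    {p | ∃ k < n, p = (Sum.inr (a k), 0)}

theorem mem_PC_inl (s : Bool) (i : ℤ) : ((Sum.inl s : Bool ⊕ K), i) ∈ PC ↔ i ≤ 0 := Iff.rfl

theorem mem_PC_inr (α : K) (i : ℤ) : ((Sum.inr α : Bool ⊕ K), i) ∈ PC ↔ 0 ≤ i := Iff.rfl

theorem mem_En_inl (a : ℕ → K) (n : ℕ) (s : Bool) (i : ℤ) :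
    ((Sum.inl s : Bool ⊕ K), i) ∈ En a n ↔ i ≤ 0 := by
  simp [En]

theorem mem_En_inr (a : ℕ → K) (n : ℕ) (α : K) (i : ℤ) :
    ((Sum.inr α : Bool ⊕ K), i) ∈ En a n ↔ 1 ≤ i ∨ ∃ k < n, α = a k ∧ i = 0 := by
  simp [En]

theorem rig_mk (P Q : Set ((Bool ⊕ K) × ℤ)) (j : ℕ) (α1 : K)
    (hj : ∀ α > α1, ((Sum.inr α : Bool ⊕ K), (j : ℤ)) ∈ P)
    (hjQ : ∀ α > α1, ∀ i : ℤ, ((Sum.inr α : Bool ⊕ K), i) ∈ Q → (j : ℤ) ≤ i)
    (s : Bool) (m0 : ℕ) (hm0 : m0 ≤ 2)
    (hP : ∀ m : ℕ, m0 ≤ m → ((Sum.inl s : Bool ⊕ K), -(m : ℤ)) ∈ P)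
    (hQ0 : ∀ i : ℤ, ((Sum.inl s : Bool ⊕ K), i) ∈ Q → i ≤ -(m0 : ℤ)) : Rig D P Q :=
  fun F hF hQ => rigid D P Q F hF hQ j α1 hj hjQ s m0 hm0 hP hQ0

theorem main : ∃ (A B C : Set ℝ) (S : ℕ → Set ℝ), Pr A B ∧ Pr B C ∧ Pr A (S 0) ∧
    (∀ n : ℕ, Pr (S n) (S (n + 1))) ∧ ∀ n : ℕ, LT' (S n) C := by
  obtain ⟨D⟩ := exists_data
  obtain ⟨em, hc, hinj⟩ := exists_em
  have hem : IsEmbedding em := (hc.isClosedEmbedding hinj).isEmbedding
  have : Infinite K := by
    rw [Cardinal.infinite_iff, mk_K]; exact aleph0_le_continuum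
  obtain ⟨a⟩ : Nonempty (ℕ ↪ K) := ⟨Infinite.natEmbedding K⟩
  have k0 : K := a 0
  -- rigidity
  have rAB : Rig D PA PB := by
    refine rig_mk D PA PB 0 k0 ?_ ?_ false 1 (by norm_num) ?_ ?_
    · intro α _; simp [PA, PB, mem_PC_inr]
    · intro α _ i hi; simpa using (mem_PC_inr α i).mp hi.1
    · intro m hm
      simp only [PA, PB, Set.mem_sdiff, mem_PC_inl, mem_singleton_iff, Prod.mk.injEq, true_and]
      refine ⟨⟨by omega, by omega⟩, by simp⟩
    · rintro i ⟨hi, hi2⟩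
      rw [mem_PC_inl] at hi
      have : i ≠ 0 := by rintro rfl; exact hi2 rfl
      push_cast; omega
  have rBB : Rig D PB PB := by
    refine rig_mk D PB PB 0 k0 ?_ ?_ false 1 (by norm_num) ?_ ?_
    · intro α _; simp [PB, mem_PC_inr]
    · intro α _ i hi; simpa using (mem_PC_inr α i).mp hi.1
    · intro m hm
      simp only [PB, Set.mem_sdiff, mem_PC_inl, mem_singleton_iff, Prod.mk.injEq, true_and]
      exact ⟨by omega, by omega⟩
    · rintro i ⟨hi, hi2⟩
      rw [mem_PC_inl] at hi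
      have : i ≠ 0 := by rintro rfl; exact hi2 rfl
      push_cast; omega
  have rBC : Rig D PB PC := by
    refine rig_mk D PB PC 0 k0 ?_ ?_ true 0 (by norm_num) ?_ ?_
    · intro α _; simp [PB, mem_PC_inr]
    · intro α _ i hi; simpa using (mem_PC_inr α i).mp hi
    · intro m hm
      simp only [PB, Set.mem_sdiff, mem_PC_inl, mem_singleton_iff, Prod.mk.injEq]
      refine ⟨by omega, by simp⟩
    · intro i hi
      simpa using (mem_PC_inl true i).mp hi
  have rCC : Rig D PC PC := by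
    refine rig_mk D PC PC 0 k0 ?_ ?_ true 0 (by norm_num) ?_ ?_
    · intro α _; simp [mem_PC_inr]
    · intro α _ i hi; simpa using (mem_PC_inr α i).mp hi
    · intro m hm
      rw [mem_PC_inl]; omega
    · intro i hi
      simpa using (mem_PC_inl true i).mp hi
  have rE : ∀ n n' : ℕ, Rig D (En a n) (En a n') := by
    intro n n'
    obtain ⟨α1, hα1⟩ : ∃ α1 : K, ∀ k < n', a k ≤ α1 := by
      have hfin : (a '' (Iio n')).Finite := (finite_Iio n').image a
      obtain ⟨α1, h⟩ := hfin.bddAbove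
      exact ⟨α1, fun k hk => h (mem_image_of_mem a hk)⟩
    refine rig_mk D (En a n) (En a n') 1 α1 ?_ ?_ false 0 (by norm_num) ?_ ?_
    · intro α _; rw [mem_En_inr]; left; simp
    · intro α hα i hi
      rw [mem_En_inr] at hi
      rcases hi with hi | ⟨k, hk, rfl, -⟩
      · simpa using hi
      · exact absurd (hα1 k hk) (not_le.mpr hα)
    · intro m _; rw [mem_En_inl]; omega
    · intro i hi; rw [mem_En_inl] at hi; simpa using hi
  have pE : ∀ n, Pr (R D em (En a n)) (R D em (En a (n + 1))) := by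
    intro n
    refine pred D em _ _ hem (Sum.inr (a n), 0) ?_ ?_ (rE _ _) (rE _ _)
    · ext ⟨r, i⟩
      rcases r with s | α
      · simp [mem_En_inl]
      · rw [mem_insert_iff, mem_En_inr, mem_En_inr]
        simp only [Prod.mk.injEq, Sum.inr.injEq]
        constructor
        · rintro (h | ⟨k, hk, h1, h2⟩)
          · exact Or.inr (Or.inl h)
          · rcases Nat.lt_succ_iff_lt_or_eq.mp hk with hk | rfl
            · exact Or.inr (Or.inr ⟨k, hk, h1, h2⟩)
            · exact Or.inl ⟨h1, h2⟩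
        · rintro (⟨h1, h2⟩ | h | ⟨k, hk, h1, h2⟩)
          · exact Or.inr ⟨n, Nat.lt_succ_self n, h1, h2⟩
          · exact Or.inl h
          · exact Or.inr ⟨k, Nat.lt_succ_of_lt hk, h1, h2⟩
    · rw [mem_En_inr]
      rintro (h | ⟨k, hk, h1, -⟩)
      · omega
      · have := a.injective h1; omega
  refine ⟨R D em PA, R D em PB, R D em PC, fun n => R D em (En a (n + 1)), ?_, ?_, ?_,
    fun n => pE (n + 1), fun n => ?_⟩
  · refine pred D em PA PB hem (Sum.inl true, 0) ?_ ?_ rAB rBB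
    · rw [PA, insert_sdiff_singleton, insert_eq_of_mem]
      simp [PB, mem_PC_inl]
    · simp [PA]
  · refine pred D em PB PC hem (Sum.inl false, 0) ?_ ?_ rBC rCC
    · rw [PB, insert_sdiff_singleton, insert_eq_of_mem]
      simp [mem_PC_inl]
    · simp [PB]
  · refine Pr.congr_left (E := R D em (En a 0)) ?_ ?_ (pE 0)
    · refine le_shift D em _ _ hem (-1) ?_
      rintro ⟨r, i⟩ hp
      rcases r with s | α
      · rw [mem_En_inl] at hp
        simp only [PA, PB, Set.mem_sdiff, mem_PC_inl, mem_singleton_iff, Prod.mk.injEq]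
        exact ⟨⟨by omega, by omega⟩, by omega⟩
      · rw [mem_En_inr] at hp
        rcases hp with hp | ⟨k, hk, -⟩
        · simp only [PA, PB, Set.mem_sdiff, mem_PC_inr, mem_singleton_iff, Prod.mk.injEq]
          exact ⟨⟨by omega, by simp⟩, by simp⟩
        · omega
    · refine le_shift D em _ _ hem 1 ?_
      rintro ⟨r, i⟩ hp
      rcases r with s | α
      · show ((Sum.inl s : Bool ⊕ K), i + 1) ∈ En a 0
        rw [mem_En_inl]
        obtain ⟨⟨h1, h2⟩, h3⟩ := hp
        rw [mem_PC_inl] at h1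
        have : i ≠ 0 := by
          rintro rfl
          cases s
          · exact h2 rfl
          · exact h3 rfl
        omega
      · show ((Sum.inr α : Bool ⊕ K), i + 1) ∈ En a 0
        rw [mem_En_inr]
        have := (mem_PC_inr α i).mp hp.1.1
        left; omega
  · have hsub : ∀ n, R D em (En a n) ⊆ R D em PC := by
      intro n
      refine image_mono (image_mono ?_)
      rintro ⟨r, i⟩ hp
      rcases r with s | α
      · rw [mem_En_inl] at hp; exact hp
      · rw [mem_En_inr] at hp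
        rw [mem_PC_inr]
        rcases hp with hp | ⟨k, hk, -, h⟩ <;> omega
    refine ⟨LE'.of_subset (hsub _), fun h => ?_⟩
    exact (pE (n + 1)).1.2 ((LE'.of_subset (hsub _)).trans h)

end Pool.Agent.H6.Dim
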