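import Mathlib

set_option autoImplicit false

/-! Ordinal preliminaries for the down-up matching theorem. -/

namespace Pool.Agent.H6.DownUp

open Ordinal Set

abbrev Ord := Ordinal.{0}

/-- Concatenating increasing sequences. -/
lemma concat {δ l : Ord} (hδ : δ ≠ 0) {F : Ord → Ord → Ord}
    (h1 : ∀ i < l, StrictMonoOn (F i) (Iio δ))
    (h2 : ∀ i i', i < i' → i' < l → ∀ ρ < δ, ∀ ρ' < δ, F i ρ < F i' ρ') :
    StrictMonoOn (fun ξ => F (ξ / δ) (ξ % δ)) (Iio (δ * l)) := by
  intro ξ hξ ξ' hξ' hlt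
  have q : ξ / δ < l := (Ordinal.lt_mul_iff_div_lt hδ).1 hξ
  have q' : ξ' / δ < l := (Ordinal.lt_mul_iff_div_lt hδ).1 hξ'
  have m : ξ % δ < δ := Ordinal.mod_lt _ hδ
  have m' : ξ' % δ < δ := Ordinal.mod_lt _ hδ
  rcases lt_trichotomy (ξ / δ) (ξ' / δ) with h | h | h
  · exact h2 _ _ h q' _ m _ m'
  · show F (ξ / δ) (ξ % δ) < F (ξ' / δ) (ξ' % δ)
    rw [← h]
    apply h1 _ q m m'
    have e1 := Ordinal.div_add_mod ξ δ
    have e2 := Ordinal.div_add_mod ξ' δ
    rw [← h] at e2
    rw [← e1, ← e2] at hlt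
    exact (add_lt_add_iff_left _).1 hlt
  · exfalso
    have e1 := Ordinal.div_add_mod ξ δ
    have e2 := Ordinal.div_add_mod ξ' δ
    have : ξ' < δ * (ξ' / δ) + δ := by
      conv_lhs => rw [← e2]
      exact (add_lt_add_iff_left _).2 m'
    have h3 : δ * (ξ' / δ) + δ ≤ δ * (ξ / δ) := by
      have h4 : ξ' / δ + 1 ≤ ξ / δ := Order.add_one_le_of_lt h
      calc δ * (ξ' / δ) + δ = δ * (ξ' / δ + 1) := by rw [mul_add, mul_one]
        _ ≤ δ * (ξ / δ) := mul_le_mul_right h4 _
    have h5 : δ * (ξ / δ) ≤ ξ := by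
      conv_rhs => rw [← e1]
      exact le_add_of_nonneg_right zero_le
    exact absurd (this.trans_le (h3.trans h5)) (not_lt.2 hlt.le)

/-- If `T` contains increasing sequences of all lengths `< δ`, then it contains one of
length `δ`. -/
lemma exists_list {δ α : Ord} {T : Set Ord} (hT : ∀ x ∈ T, x < α)
    (h : ∀ ξ < δ, ∃ g : Ord → Ord, StrictMonoOn g (Iic ξ) ∧ ∀ ρ ≤ ξ, g ρ ∈ T) :
    ∃ f : Ord → Ord, StrictMonoOn f (Iio δ) ∧ ∀ ξ < δ, f ξ ∈ T := by
  let S : Set Ord := T ∪ Ici α
  have hS : ¬ BddAbove S := by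
    rintro ⟨b, hb⟩
    have : max α (b + 1) ≤ b := hb (Or.inr (mem_Ici.2 (le_max_left _ _)))
    exact absurd ((le_max_right _ _).trans this) (not_le.2 (Order.lt_add_one_iff.2 le_rfl))
  refine ⟨enumOrd S, (enumOrd_strictMono hS).strictMonoOn _, ?_⟩
  intro ξ hξ
  obtain ⟨g, hg1, hg2⟩ := h ξ hξ
  have key : ∀ ρ ≤ ξ, enumOrd S ρ ≤ g ρ := by
    intro ρ
    induction ρ using WellFoundedLT.induction with
    | _ ρ ih =>
      intro hρ
      apply enumOrd_le_of_forall_lt (Or.inl (hg2 ρ hρ))
      intro b hb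
      exact (ih b hb (hb.le.trans hρ)).trans_lt (hg1 (hb.le.trans hρ) hρ hb)
  rcases enumOrd_mem hS ξ with h1 | h1
  · exact h1
  · exact absurd ((key ξ le_rfl).trans_lt (hT _ (hg2 ξ le_rfl))) (not_lt.2 h1)

/-- The iteration of a next-step function along the ordinals. -/
noncomputable def iter (N : Ord → Ord) : Ord → Ord :=
  WellFounded.fix (wellFounded_lt (α := Ord))
    (fun i ih => ⨆ j : Iio i, N (ih j.1 j.2))

lemma iter_eq (N : Ord → Ord) (i : Ord) : iter N i = ⨆ j : Iio i, N (iter N j.1) := by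
  unfold iter
  rw [WellFounded.fix_eq]

lemma le_iter (N : Ord → Ord) {i j : Ord} (h : i < j) : N (iter N i) ≤ iter N j := by
  rw [iter_eq N j]
  exact Ordinal.le_iSup (fun j' : Iio j => N (iter N j'.1)) ⟨i, h⟩

lemma iter_le (N : Ord → Ord) {j b : Ord} (h : ∀ i < j, N (iter N i) ≤ b) : iter N j ≤ b := by
  rw [iter_eq N j]
  exact Ordinal.iSup_le fun i => h i.1 i.2

lemma iter_strictMono {N : Ord → Ord} (hN : ∀ x, x < N x) : StrictMono (iter N) := by
  intro i j hij
  exact (hN _).trans_le (le_iter N hij)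

lemma iter_succ {N : Ord → Ord} (hN : ∀ x, x < N x) (i : Ord) :
    iter N (i + 1) = N (iter N i) := by
  apply le_antisymm
  · apply iter_le
    intro j hj
    rcases (Order.lt_add_one_iff.1 hj).lt_or_eq with h | h
    · exact (le_iter N h).trans (hN _).le
    · rw [h]
  · exact le_iter N (Order.lt_add_one_iff.2 le_rfl)

lemma iter_zero (N : Ord → Ord) : iter N 0 = 0 := by
  apply le_antisymm _ zero_le
  apply iter_le
  intro i hi
  exact absurd hi (not_lt.2 zero_le)

lemma iter_nat {N : Ord → Ord} (hN : ∀ x, x < N x) {L : Ord} (hL : 0 < L)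
    (hN' : ∀ x < L, N x < L) (i : Ord) (hi : i < ω) : iter N i < L := by
  obtain ⟨n, rfl⟩ := Ordinal.lt_omega0.1 hi
  clear hi
  induction n with
  | zero => simpa [iter_zero] using hL
  | succ n ih =>
    rw [Nat.cast_succ, iter_succ hN]
    exact hN' _ ih

lemma iter_cofinal {N : Ord → Ord} (hN : ∀ x, x < N x) {L : Ord}
    (hN' : ∀ x < L, N x < L) (δ : Ord) (hδ : δ < L) : ∃ i, iter N i < L ∧ δ < iter N i := by
  have hex : ∃ i, L ≤ iter N i := ⟨L, (iter_strictMono hN).le_apply⟩
  obtain ⟨i, hi, hmin⟩ := WellFounded.has_min (wellFounded_lt (α := Ord)) {i | L ≤ iter N i} hex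
  have h1 : δ < iter N i := hδ.trans_le hi
  rw [iter_eq, Ordinal.lt_iSup_iff] at h1
  obtain ⟨⟨j, hj⟩, h2⟩ := h1
  have hjL : iter N j < L := by
    by_contra hc
    exact hmin j (not_lt.1 hc) hj
  refine ⟨j + 1, ?_, ?_⟩
  · rw [iter_succ hN]; exact hN' _ hjL
  · rw [iter_succ hN]; exact h2

/-- Finite sets of ordinals below `s + L` can be bounded by `s + q`. -/
lemma next_exists {β : Ord} (hβ : β ≠ 0) (s q : Ord) (hq : q < ω ^ β) (F : Finset Ord) :
    ∃ q', q < q' ∧ q' < ω ^ β ∧ ∀ y ∈ F, y < s + ω ^ β → y < s + q' := by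
  classical
  have hlim : Order.IsSuccLimit (ω ^ β : Ord) := Ordinal.isSuccLimit_opow_left
    Ordinal.isSuccLimit_omega0 hβ
  induction F using Finset.induction with
  | empty => exact ⟨q + 1, Order.lt_add_one_iff.2 le_rfl, hlim.add_one_lt hq, by simp⟩
  | insert y F hy ih =>
    obtain ⟨q', h1, h2, h3⟩ := ih
    by_cases hys : y < s + ω ^ β
    · refine ⟨max q' (y - s + 1), h1.trans_le (le_max_left _ _), max_lt h2 ?_, ?_⟩
      · apply hlim.add_one_lt
        rcases le_or_gt s y with h | h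
        · have := Ordinal.add_sub_cancel_of_le h
          rw [← this] at hys
          exact (add_lt_add_iff_left _).1 hys
        · rw [Ordinal.sub_eq_zero_iff_le.2 h.le]
          exact zero_le.trans_lt hq
      · intro z hz hz'
        rcases Finset.mem_insert.1 hz with rfl | hz
        · have h4 : z ≤ s + (z - s) := Ordinal.le_add_sub _ _
          refine h4.trans_lt ((add_lt_add_iff_left _).2 ?_)
          exact (Order.lt_add_one_iff.2 le_rfl).trans_le (le_max_right _ _)
        · exact (h3 z hz hz').trans_le (add_le_add_right (le_max_left _ _) _)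
    · refine ⟨q', h1, h2, ?_⟩
      intro z hz hz'
      rcases Finset.mem_insert.1 hz with rfl | hz
      · exact absurd hz' hys
      · exact h3 z hz hz'

/-- The ordinals below `ω ^ m` are countable. -/
lemma countable_Iio (m : ℕ) : Countable (Iio ((ω : Ord) ^ (m : Ord))) := by
  induction m with
  | zero =>
    have : Subsingleton (Iio ((ω : Ord) ^ ((0 : ℕ) : Ord))) := by
      constructor
      rintro ⟨a, ha⟩ ⟨b, hb⟩
      simp only [Nat.cast_zero, opow_zero, mem_Iio, Order.lt_one_iff] at ha hb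
      simp [ha, hb]
    infer_instance
  | succ m ih =>
    have hω : Countable (Iio (ω : Ord)) := by
      have : Function.Surjective (fun n : ℕ => (⟨(n : Ord), Ordinal.natCast_lt_omega0 n⟩ :
          Iio (ω : Ord))) := by
        rintro ⟨x, hx⟩
        obtain ⟨n, rfl⟩ := Ordinal.lt_omega0.1 hx
        exact ⟨n, rfl⟩
      exact this.countable
    have hne : (ω : Ord) ^ (m : Ord) ≠ 0 := (Ordinal.opow_pos _ Ordinal.omega0_pos).ne'
    let φ : Iio ((ω : Ord) ^ ((m + 1 : ℕ) : Ord)) →
        Iio (ω : Ord) × Iio ((ω : Ord) ^ (m : Ord)) := fun ξ =>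
      (⟨ξ.1 / ω ^ (m : Ord), (Ordinal.lt_mul_iff_div_lt hne).1 (by
        have h : ξ.1 < ω ^ ((m + 1 : ℕ) : Ord) := ξ.2
        have e : (ω : Ord) ^ ((m + 1 : ℕ) : Ord) = ω ^ (m : Ord) * ω := by
          rw [Nat.cast_succ, Ordinal.opow_add, opow_one]
        exact e ▸ h)⟩, ⟨ξ.1 % ω ^ (m : Ord), Ordinal.mod_lt _ hne⟩)
    have hφ : Function.Injective φ := by
      rintro ⟨a, ha⟩ ⟨b, hb⟩ hab
      have h1 : a / ω ^ (m : Ord) = b / ω ^ (m : Ord) := congrArg (fun x => x.1.1) hab
      have h2 : a % ω ^ (m : Ord) = b % ω ^ (m : Ord) := congrArg (fun x => x.2.1) hab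
      have e1 := Ordinal.div_add_mod a (ω ^ (m : Ord))
      have e2 := Ordinal.div_add_mod b (ω ^ (m : Ord))
      rw [← h1, ← h2, e1] at e2
      exact Subtype.ext e2
    exact hφ.countable

/-- Greedy choice. -/
lemma greedy {ι : Type*} (idx : ℕ → ι) (E : ι → Ord → Ord → Prop)
    (h : ∀ i, ∀ F : Finset Ord, ∃ a b, E i a b ∧ a ∉ F ∧ b ∉ F) :
    ∃ a b : ℕ → Ord, (∀ n, E (idx n) (a n) (b n)) ∧ Function.Injective a ∧
      Function.Injective b := by
  classical
  choose pa pb h1 h2 h3 using h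
  let S : ℕ → Finset Ord := fun n => Nat.rec ∅
    (fun n S => insert (pa (idx n) S) (insert (pb (idx n) S) S)) n
  have hS : ∀ n, S (n + 1) = insert (pa (idx n) (S n)) (insert (pb (idx n) (S n)) (S n)) :=
    fun n => rfl
  have hmono : Monotone S := monotone_nat_of_le_succ fun n => by
    rw [hS]; exact (Finset.subset_insert _ _).trans (Finset.subset_insert _ _)
  refine ⟨fun n => pa (idx n) (S n), fun n => pb (idx n) (S n), fun n => h1 _ _, ?_, ?_⟩
  · have : ∀ m n, m < n → pa (idx m) (S m) ≠ pa (idx n) (S n) := by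
      intro m n hmn he
      have : pa (idx m) (S m) ∈ S n := by
        apply hmono (Nat.succ_le_of_lt hmn)
        rw [hS]; simp
      rw [he] at this
      exact h2 _ _ this
    intro m n hmn
    rcases lt_trichotomy m n with h | h | h
    · exact absurd hmn (this m n h)
    · exact h
    · exact absurd hmn.symm (this n m h)
  · have : ∀ m n, m < n → pb (idx m) (S m) ≠ pb (idx n) (S n) := by
      intro m n hmn he
      have : pb (idx m) (S m) ∈ S n := by
        apply hmono (Nat.succ_le_of_lt hmn)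
        rw [hS]; simp
      rw [he] at this
      exact h3 _ _ this
    intro m n hmn
    rcases lt_trichotomy m n with h | h | h
    · exact absurd hmn (this m n h)
    · exact h
    · exact absurd hmn.symm (this n m h)

/-- An infinite set of ordinals contains an increasing sequence. -/
lemma exists_incr {T : Set Ord} (hT : T.Infinite) : ∃ g : ℕ → Ord, StrictMono g ∧
    ∀ n, g n ∈ T := by
  let f := hT.natEmbedding
  obtain ⟨g, hg⟩ := exists_increasing_or_nonincreasing_subseq (· < ·) (fun n => (f n).1)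
  rcases hg with hg | hg
  · exact ⟨fun n => (f (g n)).1, fun m n hmn => hg m n hmn, fun n => (f (g n)).2⟩
  · exfalso
    have hanti : ∀ m n : ℕ, m < n → (f (g n)).1 < (f (g m)).1 := by
      intro m n hmn
      have h1 := hg m n hmn
      rcases lt_trichotomy (f (g m)).1 (f (g n)).1 with h | h | h
      · exact absurd h h1
      · exfalso
        have := g.injective (f.injective (Subtype.ext h))
        omega
      · exact h
    obtain ⟨n, hn⟩ := WellFounded.not_rel_apply_succ (r := ((· < ·) : Ord → Ord → Prop))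
      (fun n => (f (g n)).1)
    exact hn (hanti n (n + 1) (Nat.lt_succ_self n))

end Pool.Agent.H6.DownUp
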