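import Pool.Agent.H6.DownUpA

set_option autoImplicit false

/-! Down-up matchings: the combinatorial core. -/

namespace Pool.Agent.H6.DownUp

open Ordinal Set

/-- There is no down-up matching of type `ω ^ k` below `α`. -/
def NoMatch (k : ℕ) (G : SimpleGraph Ord) (α : Ord) : Prop :=
  ¬ ∃ A B : Set Ord, A ⊆ Iio α ∧ B ⊆ Iio α ∧ (∀ a ∈ A, ∀ b ∈ B, a < b) ∧
    Nonempty (A ≃o Iio ((ω : Ord) ^ ((k : ℕ) : Ord))) ∧
    ∃ f : A ≃ B, ∀ a : A, G.Adj (a : Ord) (f a : Ord)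

/-- Building the matching. -/
lemma match_of {k : ℕ} {G : SimpleGraph Ord} {α s' : Ord} (hs' : s' ≤ α)
    (h : Ord → Ord) (m : Ord → Ord) (h1 : StrictMonoOn h (Iio (ω ^ (k : Ord))))
    (h2 : ∀ ξ < (ω : Ord) ^ (k : Ord), h ξ < s') (h3 : ∀ ξ < (ω : Ord) ^ (k : Ord),
      s' ≤ m (h ξ) ∧ m (h ξ) < α ∧ G.Adj (h ξ) (m (h ξ)))
    (h4 : ∀ ξ < (ω : Ord) ^ (k : Ord), ∀ ξ' < (ω : Ord) ^ (k : Ord),
      m (h ξ) = m (h ξ') → h ξ = h ξ') : ¬ NoMatch k G α := by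
  intro hno
  apply hno
  have hinj : InjOn m (h '' Iio (ω ^ (k : Ord))) := by
    rintro _ ⟨ξ, hξ, rfl⟩ _ ⟨ξ', hξ', rfl⟩ he
    exact h4 ξ hξ ξ' hξ' he
  refine ⟨h '' Iio (ω ^ (k : Ord)), m '' (h '' Iio (ω ^ (k : Ord))), ?_, ?_, ?_, ?_, ?_⟩
  · rintro _ ⟨ξ, hξ, rfl⟩
    exact (h2 ξ hξ).trans_le hs'
  · rintro _ ⟨_, ⟨ξ, hξ, rfl⟩, rfl⟩
    exact (h3 ξ hξ).2.1
  · rintro _ ⟨ξ, hξ, rfl⟩ _ ⟨_, ⟨ξ', hξ', rfl⟩, rfl⟩
    exact (h2 ξ hξ).trans_le (h3 ξ' hξ').1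
  · exact ⟨(h1.orderIso _ _).symm⟩
  · refine ⟨(hinj.bijOn_image).equiv m, ?_⟩
    rintro ⟨_, ξ, hξ, rfl⟩
    exact (h3 ξ hξ).2.2

lemma nat_of_lt {ρ : Ord} (h : ρ < ω) : ∃ n : ℕ, ρ = n := Ordinal.lt_omega0.1 h

/-- Among `ω ^ k` blocks of type `ω ^ γ`, one has a tail with only finitely many neighbours
above all blocks. -/
lemma pick {k : ℕ} {G : SimpleGraph Ord} {α : Ord} (hno : NoMatch (k + 1) G α) {γ : Ord}
    (hγ : γ ≠ 0) (H : Ord → Ord → Ord) (s' : Ord) (hs' : s' ≤ α)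
    (h1 : ∀ i < (ω : Ord) ^ (k : Ord), StrictMonoOn (H i) (Iio (ω ^ γ)))
    (h2 : ∀ i i', i < i' → i' < (ω : Ord) ^ (k : Ord) → ∀ ρ < (ω : Ord) ^ γ,
      ∀ ρ' < (ω : Ord) ^ γ, H i ρ < H i' ρ')
    (h3 : ∀ i < (ω : Ord) ^ (k : Ord), ∀ ρ < (ω : Ord) ^ γ, H i ρ < s') :
    ∃ i < (ω : Ord) ^ (k : Ord), ∃ ζ < (ω : Ord) ^ γ, ∃ F : Finset Ord,
      ∀ ξ, ζ ≤ ξ → ξ < ω ^ γ → ∀ y, s' ≤ y → y < α → G.Adj (H i ξ) y → y ∈ F := by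
  classical
  by_contra hcon
  push Not at hcon
  have hlim : Order.IsSuccLimit ((ω : Ord) ^ γ) := Ordinal.isSuccLimit_opow_left
    Ordinal.isSuccLimit_omega0 hγ
  -- the index set is countable
  have hcount := countable_Iio k
  have hne : Nonempty (Iio ((ω : Ord) ^ (k : Ord))) :=
    ⟨⟨0, Ordinal.opow_pos _ Ordinal.omega0_pos⟩⟩
  obtain ⟨e, he⟩ := exists_surjective_nat (Iio ((ω : Ord) ^ (k : Ord)))
  -- avoiding finite sets by tails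
  have htail : ∀ i < (ω : Ord) ^ (k : Ord), ∀ F : Finset Ord, ∃ ζ < (ω : Ord) ^ γ,
      ∀ ξ, ζ ≤ ξ → ξ < ω ^ γ → H i ξ ∉ F := by
    intro i hi F
    induction F using Finset.induction with
    | empty => exact ⟨0, Ordinal.opow_pos _ Ordinal.omega0_pos, by simp⟩
    | insert y F hy ih =>
      obtain ⟨ζ, hζ, hζ'⟩ := ih
      by_cases hex : ∃ ξ < (ω : Ord) ^ γ, H i ξ = y
      · obtain ⟨ξ, hξ, rfl⟩ := hex
        refine ⟨max ζ (ξ + 1), max_lt hζ (hlim.add_one_lt hξ), ?_⟩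
        intro ξ' h4 h5 h6
        rcases Finset.mem_insert.1 h6 with h7 | h7
        · have h8 : ξ < ξ' := Order.add_one_le_iff.1 ((le_max_right _ _).trans h4)
          exact absurd h7 (h1 i hi hξ h5 h8).ne'
        · exact hζ' ξ' ((le_max_left _ _).trans h4) h5 h7
      · refine ⟨ζ, hζ, ?_⟩
        intro ξ' h4 h5 h6
        rcases Finset.mem_insert.1 h6 with h7 | h7
        · exact hex ⟨ξ', h5, h7⟩
        · exact hζ' ξ' h4 h5 h7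
  obtain ⟨a, b, hE, ha, hb⟩ := greedy (fun n => e (Nat.unpair n).1)
    (fun (i : Iio ((ω : Ord) ^ (k : Ord))) a b => (∃ ξ < (ω : Ord) ^ γ, a = H i.1 ξ) ∧ s' ≤ b ∧ b < α ∧ G.Adj a b) (by
      rintro ⟨i, hi⟩ F
      obtain ⟨ζ, hζ, hζ'⟩ := htail i hi F
      obtain ⟨ξ, h4, h5, y, h6, h7, h8, h9⟩ := hcon i hi ζ hζ F
      exact ⟨H i ξ, y, ⟨⟨ξ, h5, rfl⟩, h6, h7, h8⟩, hζ' ξ h4 h5, h9⟩)
  -- the left ends in each block
  have hinf : ∀ i : Iio ((ω : Ord) ^ (k : Ord)), {x | ∃ n, e (Nat.unpair n).1 = i ∧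
      a n = x}.Infinite := by
    intro i
    obtain ⟨c, hc⟩ := he i
    have : Set.range (fun t : ℕ => a (Nat.pair c t)) ⊆
        {x | ∃ n, e (Nat.unpair n).1 = i ∧ a n = x} := by
      rintro _ ⟨t, rfl⟩
      exact ⟨Nat.pair c t, by simpa using hc, rfl⟩
    refine Set.Infinite.mono this (Set.infinite_range_of_injective ?_)
    intro t t' ht
    have := ha ht
    have := congrArg Nat.unpair this
    simpa using this
  choose g hg1 hg2 using fun i => exists_incr (hinf i)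
  choose nat hnat using fun (ρ : Ord) (h : ρ < ω) => nat_of_lt h
  let F : Ord → Ord → Ord := fun i ρ =>
    if hi : i < (ω : Ord) ^ (k : Ord) then (if hρ : ρ < ω then g ⟨i, hi⟩ (nat ρ hρ) else 0)
    else 0
  have hF : ∀ i (hi : i < (ω : Ord) ^ (k : Ord)), ∀ ρ (hρ : ρ < ω),
      F i ρ = g ⟨i, hi⟩ (nat ρ hρ) := by
    intro i hi ρ hρ
    simp only [F, dif_pos hi, dif_pos hρ]
  have hFmem : ∀ i < (ω : Ord) ^ (k : Ord), ∀ ρ < (ω : Ord), ∃ n, a n = F i ρ ∧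
      ∃ ξ < (ω : Ord) ^ γ, F i ρ = H i ξ := by
    intro i hi ρ hρ
    rw [hF i hi ρ hρ]
    obtain ⟨n, hn1, hn2⟩ := hg2 ⟨i, hi⟩ (nat ρ hρ)
    refine ⟨n, hn2, ?_⟩
    obtain ⟨ξ, hξ, hξ'⟩ := (hE n).1
    rw [hn1] at hξ'
    exact ⟨ξ, hξ, by rw [← hn2, hξ']⟩
  have hFmono : ∀ i < (ω : Ord) ^ (k : Ord), StrictMonoOn (F i) (Iio ω) := by
    intro i hi ρ hρ ρ' hρ' hlt
    rw [hF i hi ρ hρ, hF i hi ρ' hρ']
    apply hg1
    have e1 := hnat ρ hρ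
    have e2 := hnat ρ' hρ'
    rw [e1, e2] at hlt
    exact_mod_cast hlt
  have hFlt : ∀ i i', i < i' → i' < (ω : Ord) ^ (k : Ord) → ∀ ρ < (ω : Ord), ∀ ρ' < (ω : Ord),
      F i ρ < F i' ρ' := by
    intro i i' hii' hi' ρ hρ ρ' hρ'
    obtain ⟨_, _, ξ, hξ, h4⟩ := hFmem i (hii'.trans hi') ρ hρ
    obtain ⟨_, _, ξ', hξ', h5⟩ := hFmem i' hi' ρ' hρ'
    rw [h4, h5]
    exact h2 i i' hii' hi' ξ hξ ξ' hξ'
  have hcat := concat Ordinal.omega0_ne_zero hFmono hFlt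
  have hpow : (ω : Ord) ^ ((k + 1 : ℕ) : Ord) = ω * ω ^ (k : Ord) := by
    have : ((k + 1 : ℕ) : Ord) = 1 + (k : Ord) := by
      rw [Nat.add_comm]; push_cast; rfl
    rw [this, Ordinal.opow_add, opow_one]
  rw [← hpow] at hcat
  have hall : ∀ ξ < (ω : Ord) ^ ((k + 1 : ℕ) : Ord), ∃ n, a n = F (ξ / ω) (ξ % ω) ∧
      F (ξ / ω) (ξ % ω) < s' := by
    intro ξ hξ
    rw [hpow] at hξ
    have q : ξ / ω < ω ^ (k : Ord) := (Ordinal.lt_mul_iff_div_lt Ordinal.omega0_ne_zero).1 hξ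
    have m : ξ % ω < ω := Ordinal.mod_lt _ Ordinal.omega0_ne_zero
    obtain ⟨n, hn, ξ', hξ', h4⟩ := hFmem _ q _ m
    exact ⟨n, hn, by rw [h4]; exact h3 _ q _ hξ'⟩
  -- the matching map
  let mm : Ord → Ord := fun x => if h : ∃ n, a n = x then b h.choose else 0
  have hmm : ∀ n, mm (a n) = b n := by
    intro n
    have hex : ∃ n', a n' = a n := ⟨n, rfl⟩
    simp only [mm, dif_pos hex]
    rw [ha hex.choose_spec]
  refine match_of hs' (fun ξ => F (ξ / ω) (ξ % ω)) mm hcat (fun ξ hξ => ?_) (fun ξ hξ => ?_)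
    (fun ξ hξ ξ' hξ' heq => ?_) hno
  · obtain ⟨n, hn, h4⟩ := hall ξ hξ
    exact h4
  · obtain ⟨n, hn, h4⟩ := hall ξ hξ
    show s' ≤ mm (F (ξ / ω) (ξ % ω)) ∧ mm (F (ξ / ω) (ξ % ω)) < α ∧ G.Adj (F (ξ / ω) (ξ % ω)) _
    rw [← hn, hmm]
    exact (hE n).2
  · obtain ⟨n, hn, h4⟩ := hall ξ hξ
    obtain ⟨n', hn', h4'⟩ := hall ξ' hξ'
    change mm (F (ξ / ω) (ξ % ω)) = mm (F (ξ' / ω) (ξ' % ω)) at heq
    change F (ξ / ω) (ξ % ω) = F (ξ' / ω) (ξ' % ω)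
    rw [← hn, ← hn', hmm, hmm] at heq
    rw [← hn, ← hn', hb heq]

end Pool.Agent.H6.DownUp
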