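import Pool.Agent.H6.DownUpB

set_option autoImplicit false

/-! Down-up matchings: the induction. -/

namespace Pool.Agent.H6.DownUp

open Ordinal Set

/-- Every interval of type `ω ^ β` below `α` contains an independent set of type `ω ^ γ`. -/
def P (G : SimpleGraph Ord) (α β γ : Ord) : Prop :=
  ∀ s, s + ω ^ β ≤ α → ∃ h : Ord → Ord, StrictMonoOn h (Iio (ω ^ γ)) ∧
    (∀ ξ < (ω : Ord) ^ γ, s ≤ h ξ ∧ h ξ < s + ω ^ β) ∧
    ∀ ξ < (ω : Ord) ^ γ, ∀ ξ' < (ω : Ord) ^ γ, ¬ G.Adj (h ξ) (h ξ')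

lemma step {k : ℕ} {G : SimpleGraph Ord} {α : Ord} (hno : NoMatch (k + 1) G α)
    {β γ β' s : Ord} (hγ : γ ≠ 0) (hβ : β + k < β') (hs : s + ω ^ β' ≤ α)
    (Q : (Ord → Ord) → Prop)
    (hblock : ∀ s, s + ω ^ β ≤ α → ∃ h : Ord → Ord, StrictMonoOn h (Iio (ω ^ γ)) ∧
      (∀ ξ < (ω : Ord) ^ γ, s ≤ h ξ ∧ h ξ < s + ω ^ β) ∧ Q h) (p : Ord) (hp : p < ω ^ β') :
    ∃ N, p < N ∧ N < ω ^ β' ∧ ∃ h : Ord → Ord, Q h ∧ StrictMonoOn h (Iio (ω ^ γ)) ∧
      (∀ ξ < (ω : Ord) ^ γ, s + p ≤ h ξ ∧ h ξ < s + N) ∧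
      ∃ ζ < (ω : Ord) ^ γ, ∀ ξ, ζ ≤ ξ → ξ < ω ^ γ → ∀ y, s + N ≤ y → y < s + ω ^ β' →
        ¬ G.Adj (h ξ) y := by
  classical
  -- the blocks
  have hβ' : β' ≠ 0 := ((zero_le).trans_lt hβ).ne'
  have hβlt : (ω : Ord) ^ (β + k) < ω ^ β' := (Ordinal.opow_lt_opow_iff_right Ordinal.one_lt_omega0).2 hβ
  have hq : p + ω ^ (β + k) < ω ^ β' := Ordinal.isPrincipal_add_omega0_opow β' hp hβlt
  set s' : Ord := s + (p + ω ^ (β + k)) with hs'
  have hs'α : s' ≤ α := ((add_le_add_right hq.le s)).trans hs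
  have hstart : ∀ i < (ω : Ord) ^ (k : Ord), (s + p + ω ^ β * i) + ω ^ β ≤ s' := by
    intro i hi
    have h1 : i + 1 ≤ ω ^ (k : Ord) := Order.add_one_le_of_lt hi
    calc (s + p + ω ^ β * i) + ω ^ β = s + p + ω ^ β * (i + 1) := by
          rw [mul_add, mul_one, add_assoc (s + p)]
      _ ≤ s + p + ω ^ β * ω ^ (k : Ord) := add_le_add_right (mul_le_mul_right h1 _) _
      _ = s' := by rw [hs', Ordinal.opow_add, add_assoc]
  have hb : ∀ i : Ord, ∃ h : Ord → Ord, i < ω ^ (k : Ord) → (StrictMonoOn h (Iio (ω ^ γ)) ∧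
      (∀ ξ < (ω : Ord) ^ γ, s + p + ω ^ β * i ≤ h ξ ∧ h ξ < s + p + ω ^ β * i + ω ^ β) ∧ Q h) := by
    intro i
    by_cases hi : i < ω ^ (k : Ord)
    · obtain ⟨h, hh⟩ := hblock (s + p + ω ^ β * i) ((hstart i hi).trans hs'α)
      exact ⟨h, fun _ => hh⟩
    · exact ⟨id, fun h => absurd h hi⟩
  choose H hH using hb
  obtain ⟨i, hi, ζ, hζ, F, hF⟩ := pick hno hγ H s' hs'α (fun i hi => (hH i hi).1)
    (fun i i' hii' hi' ρ hρ ρ' hρ' => by
      have h1 := ((hH i (hii'.trans hi')).2.1 ρ hρ).2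
      have h2 := ((hH i' hi').2.1 ρ' hρ').1
      refine h1.trans_le (le_trans ?_ h2)
      have h3 : i + 1 ≤ i' := Order.add_one_le_of_lt hii'
      calc (s + p + ω ^ β * i) + ω ^ β = s + p + ω ^ β * (i + 1) := by
            rw [mul_add, mul_one, add_assoc (s + p)]
        _ ≤ s + p + ω ^ β * i' := add_le_add_right (mul_le_mul_right h3 _) _)
    (fun i hi ρ hρ => ((hH i hi).2.1 ρ hρ).2.trans_le (hstart i hi))
  obtain ⟨N, hN1, hN2, hN3⟩ := next_exists hβ' s (p + ω ^ (β + k)) hq F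
  refine ⟨N, (le_add_of_nonneg_right zero_le).trans_lt hN1, hN2, H i, (hH i hi).2.2, (hH i hi).1, ?_,
    ζ, hζ, ?_⟩
  · intro ξ hξ
    refine ⟨le_trans ?_ ((hH i hi).2.1 ξ hξ).1, ?_⟩
    · exact le_add_of_nonneg_right zero_le
    · exact (((hH i hi).2.1 ξ hξ).2.trans_le (hstart i hi)).trans
        ((add_lt_add_iff_left _).2 hN1)
  · intro ξ h1 h2 y h3 h4 h5
    have h6 : s' ≤ y := ((add_le_add_right hN1.le s)).trans h3
    have h7 := hF ξ h1 h2 y h6 (h4.trans_le hs) h5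
    exact absurd (hN3 y h7 h4) (not_lt.2 h3)

/-- Data for gluing: `h p` is a sequence of length `τ p` between `s + p` and `s + N p`,
without neighbours beyond. -/
lemma glue_indep {G : SimpleGraph Ord} {s L : Ord} (N : Ord → Ord) (_hN : ∀ x, x < N x)
    (hN' : ∀ x < L, N x < L) (T : Ord → Set Ord)
    (hT : ∀ p < L, ∀ x ∈ T p, s + p ≤ x ∧ x < s + N p)
    (hind : ∀ p < L, ∀ x ∈ T p, ∀ y ∈ T p, ¬ G.Adj x y)
    (hout : ∀ p < L, ∀ x ∈ T p, ∀ y, s + N p ≤ y → y < s + L → ¬ G.Adj x y) :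
    ∀ i j, iter N i < L → iter N j < L → ∀ x ∈ T (iter N i), ∀ y ∈ T (iter N j),
      ¬ G.Adj x y := by
  have key : ∀ i j, i < j → iter N i < L → iter N j < L → ∀ x ∈ T (iter N i),
      ∀ y ∈ T (iter N j), ¬ G.Adj x y := by
    intro i j hij hi hj x hx y hy
    apply hout _ hi x hx y
    · exact ((add_le_add_right (le_iter N hij) s)).trans (hT _ hj y hy).1
    · exact (hT _ hj y hy).2.trans ((add_lt_add_iff_left _).2 (hN' _ hj))
  intro i j hi hj x hx y hy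
  rcases lt_trichotomy i j with h | h | h
  · exact key i j h hi hj x hx y hy
  · subst h; exact hind _ hi x hx y hy
  · exact fun hadj => key j i h hj hi y hy x hx hadj.symm

lemma tail_mono {γ ζ : Ord} {h : Ord → Ord} (hζ : ζ < ω ^ γ)
    (hh : StrictMonoOn h (Iio (ω ^ γ))) : StrictMonoOn (fun ξ => h (ζ + ξ)) (Iio (ω ^ γ)) := by
  intro ξ hξ ξ' hξ' hlt
  exact hh (Ordinal.isPrincipal_add_omega0_opow γ hζ hξ)
    (Ordinal.isPrincipal_add_omega0_opow γ hζ hξ') ((add_lt_add_iff_left _).2 hlt)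

/-- Gluing `ω` many sequences of the same length. -/
lemma glue_omega {G : SimpleGraph Ord} {s L δ : Ord} (hL : 0 < L) (hδ : δ ≠ 0)
    (hdata : ∀ p < L, ∃ N, p < N ∧ N < L ∧ ∃ h : Ord → Ord, StrictMonoOn h (Iio δ) ∧
      (∀ ξ < δ, s + p ≤ h ξ ∧ h ξ < s + N) ∧ (∀ ξ < δ, ∀ ξ' < δ, ¬ G.Adj (h ξ) (h ξ')) ∧
      ∀ ξ < δ, ∀ y, s + N ≤ y → y < s + L → ¬ G.Adj (h ξ) y) :
    ∃ h : Ord → Ord, StrictMonoOn h (Iio (δ * ω)) ∧
      (∀ ξ < δ * ω, s ≤ h ξ ∧ h ξ < s + L) ∧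
      ∀ ξ < δ * ω, ∀ ξ' < δ * ω, ¬ G.Adj (h ξ) (h ξ') := by
  classical
  have hdata' : ∀ p : Ord, ∃ N, p < N ∧ ∃ h : Ord → Ord, p < L → (N < L ∧
      StrictMonoOn h (Iio δ) ∧
      (∀ ξ < δ, s + p ≤ h ξ ∧ h ξ < s + N) ∧ (∀ ξ < δ, ∀ ξ' < δ, ¬ G.Adj (h ξ) (h ξ')) ∧
      ∀ ξ < δ, ∀ y, s + N ≤ y → y < s + L → ¬ G.Adj (h ξ) y) := by
    intro p
    by_cases hp : p < L
    · obtain ⟨N, h1, h2, h, h3⟩ := hdata p hp
      exact ⟨N, h1, h, fun _ => ⟨h2, h3⟩⟩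
    · exact ⟨p + 1, Order.lt_add_one_iff.2 le_rfl, id, fun h => absurd h hp⟩
  choose N hN h hh using hdata'
  have hN' : ∀ x < L, N x < L := fun x hx => (hh x hx).1
  have hit : ∀ i < (ω : Ord), iter N i < L := fun i hi => iter_nat hN hL hN' i hi
  have hind := glue_indep (G := G) (s := s) N hN hN' (fun p => h p '' Iio δ)
    (by rintro p hp _ ⟨ξ, hξ, rfl⟩; exact (hh p hp).2.2.1 ξ hξ)
    (by rintro p hp _ ⟨ξ, hξ, rfl⟩ _ ⟨ξ', hξ', rfl⟩; exact (hh p hp).2.2.2.1 ξ hξ ξ' hξ')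
    (by rintro p hp _ ⟨ξ, hξ, rfl⟩ y h1 h2; exact (hh p hp).2.2.2.2 ξ hξ y h1 h2)
  have hdiv : ∀ ξ < δ * ω, ξ / δ < ω ∧ ξ % δ < δ := fun ξ hξ =>
    ⟨(Ordinal.lt_mul_iff_div_lt hδ).1 hξ, Ordinal.mod_lt _ hδ⟩
  refine ⟨fun ξ => h (iter N (ξ / δ)) (ξ % δ), ?_, ?_, ?_⟩
  · apply concat (F := fun i ρ => h (iter N i) ρ) hδ
    · intro i hi
      exact (hh _ (hit i hi)).2.1
    · intro i i' hii' hi' ρ hρ ρ' hρ'
      have h1 := ((hh _ (hit i (hii'.trans hi'))).2.2.1 ρ hρ).2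
      have h2 := ((hh _ (hit i' hi')).2.2.1 ρ' hρ').1
      exact h1.trans_le (((add_le_add_right (le_iter N hii') s)).trans h2)
  · intro ξ hξ
    obtain ⟨h1, h2⟩ := hdiv ξ hξ
    have h3 := (hh _ (hit _ h1)).2.2.1 _ h2
    exact ⟨(le_add_of_nonneg_right zero_le).trans h3.1,
      h3.2.trans ((add_lt_add_iff_left _).2 (hN' _ (hit _ h1)))⟩
  · intro ξ hξ ξ' hξ'
    obtain ⟨h1, h2⟩ := hdiv ξ hξ
    obtain ⟨h1', h2'⟩ := hdiv ξ' hξ'
    exact hind _ _ (hit _ h1) (hit _ h1') _ ⟨_, h2, rfl⟩ _ ⟨_, h2', rfl⟩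

variable {k : ℕ} {G : SimpleGraph Ord} {α : Ord}

lemma lt_add_one' (x : Ord) : x < x + 1 := Order.lt_add_one_iff.2 le_rfl

/-- First step: infinite independent sets. -/
lemma P_one (hno : NoMatch (k + 1) G α) : P G α (1 + (k + 1 : ℕ)) 1 := by
  intro s hs
  have hβ : (1 : Ord) + k < 1 + (k + 1 : ℕ) := by
    rw [Nat.cast_succ, ← add_assoc]; exact lt_add_one' _
  have hstep := step (β := 1) (γ := 1) hno one_ne_zero hβ hs (fun _ => True)
    (fun s _ => ⟨fun ξ => s + ξ, fun ξ _ ξ' _ hlt => (add_lt_add_iff_left _).2 hlt,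
      fun ξ hξ => ⟨le_add_of_nonneg_right zero_le, (add_lt_add_iff_left _).2 hξ⟩, trivial⟩)
  have := glue_omega (G := G) (s := s) (L := ω ^ (1 + ((k + 1 : ℕ) : Ord))) (δ := 1)
    (Ordinal.opow_pos _ Ordinal.omega0_pos) one_ne_zero (by
      intro p hp
      obtain ⟨N, h1, h2, h, -, h3, h4, ζ, hζ, h5⟩ := hstep p hp
      refine ⟨N, h1, h2, fun _ => h ζ, ?_, fun _ _ => h4 ζ hζ, fun _ _ _ _ => G.irrefl, ?_⟩
      · intro x hx y hy hlt
        rw [mem_Iio, Order.lt_one_iff] at hx hy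
        rw [hx, hy] at hlt
        exact absurd hlt (lt_irrefl _)
      · intro _ _ y hy1 hy2
        exact h5 ζ le_rfl hζ y hy1 hy2)
  rw [one_mul] at this
  rw [opow_one]
  exact this

lemma P_succ (hno : NoMatch (k + 1) G α) {β γ : Ord} (hγ : γ ≠ 0) (h : P G α β γ) :
    P G α (β + (k + 1 : ℕ)) (γ + 1) := by
  intro s hs
  have hβ : β + k < β + (k + 1 : ℕ) := by
    rw [Nat.cast_succ, ← add_assoc]; exact lt_add_one' _
  have hstep := step (β := β) (γ := γ) hno hγ hβ hs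
    (fun h => ∀ ξ < (ω : Ord) ^ γ, ∀ ξ' < (ω : Ord) ^ γ, ¬ G.Adj (h ξ) (h ξ')) h
  have := glue_omega (G := G) (s := s) (L := ω ^ (β + ((k + 1 : ℕ) : Ord))) (δ := ω ^ γ)
    (Ordinal.opow_pos _ Ordinal.omega0_pos) (Ordinal.opow_pos _ Ordinal.omega0_pos).ne' (by
      intro p hp
      obtain ⟨N, h1, h2, h, hQ, h3, h4, ζ, hζ, h5⟩ := hstep p hp
      have hadd : ∀ ξ < (ω : Ord) ^ γ, ζ + ξ < ω ^ γ := fun ξ hξ =>
        Ordinal.isPrincipal_add_omega0_opow γ hζ hξ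
      refine ⟨N, h1, h2, fun ξ => h (ζ + ξ), tail_mono hζ h3,
        fun ξ hξ => h4 _ (hadd ξ hξ), fun ξ hξ ξ' hξ' => hQ _ (hadd ξ hξ) _ (hadd ξ' hξ'), ?_⟩
      intro ξ hξ y hy1 hy2
      exact h5 _ (le_add_of_nonneg_right zero_le) (hadd ξ hξ) y hy1 hy2)
  rw [Ordinal.opow_add, opow_one]
  exact this

lemma P_limit (hno : NoMatch (k + 1) G α) {η : Ord} (hη : Order.IsSuccLimit η)
    (h : ∀ γ < η, γ ≠ 0 → ∃ β < η, P G α β γ) : P G α η η := by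
  classical
  intro s hs
  have hη0 : η ≠ 0 := hη.ne_bot
  have hdata : ∀ p : Ord, ∃ N, p < N ∧ ∃ T : Set Ord, p < ω ^ η → (N < ω ^ η ∧
      (∀ x ∈ T, s + p ≤ x ∧ x < s + N) ∧ (∀ x ∈ T, ∀ y ∈ T, ¬ G.Adj x y) ∧
      (∀ x ∈ T, ∀ y, s + N ≤ y → y < s + ω ^ η → ¬ G.Adj x y) ∧
      ∃ h : Ord → Ord, StrictMonoOn h (Iic p) ∧ ∀ ξ ≤ p, h ξ ∈ T) := by
    intro p
    by_cases hp : p < ω ^ η
    · obtain ⟨γ, hγη, hpγ⟩ : ∃ γ < η, p < ω ^ γ :=
        (Ordinal.lt_opow_of_isSuccLimit Ordinal.omega0_ne_zero hη).1 hp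
      have hγ1 : γ + 1 < η := hη.add_one_lt hγη
      have hp1 : p < ω ^ (γ + 1) := hpγ.trans
        ((Ordinal.opow_lt_opow_iff_right Ordinal.one_lt_omega0).2 (lt_add_one' _))
      have hne : γ + 1 ≠ 0 := ((zero_le).trans_lt (lt_add_one' γ)).ne'
      obtain ⟨β, hβ, hP⟩ := h (γ + 1) hγ1 hne
      have hβk : β + k < η := by
        have : ∀ n : ℕ, β + n < η := by
          intro n
          induction n with
          | zero => simpa using hβ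
          | succ n ih => rw [Nat.cast_succ, ← add_assoc]; exact hη.add_one_lt ih
        exact this k
      obtain ⟨N, h1, h2, h, hQ, h3, h4, ζ, hζ, h5⟩ := step (β := β) (γ := γ + 1) hno hne hβk hs
        (fun h => ∀ ξ < (ω : Ord) ^ (γ + 1), ∀ ξ' < (ω : Ord) ^ (γ + 1), ¬ G.Adj (h ξ) (h ξ'))
        hP p hp
      have hadd : ∀ ξ < (ω : Ord) ^ (γ + 1), ζ + ξ < ω ^ (γ + 1) := fun ξ hξ =>
        Ordinal.isPrincipal_add_omega0_opow (γ + 1) hζ hξ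
      refine ⟨N, h1, (fun ξ => h (ζ + ξ)) '' Iio (ω ^ (γ + 1)), fun _ => ⟨h2, ?_, ?_, ?_,
        fun ξ => h (ζ + ξ), ?_, ?_⟩⟩
      · rintro _ ⟨ξ, hξ, rfl⟩; exact h4 _ (hadd ξ hξ)
      · rintro _ ⟨ξ, hξ, rfl⟩ _ ⟨ξ', hξ', rfl⟩; exact hQ _ (hadd ξ hξ) _ (hadd ξ' hξ')
      · rintro _ ⟨ξ, hξ, rfl⟩ y hy1 hy2
        exact h5 _ (le_add_of_nonneg_right zero_le) (hadd ξ hξ) y hy1 hy2
      · exact (tail_mono hζ h3).mono fun x (hx : x ≤ p) => hx.trans_lt hp1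
      · intro ξ hξ; exact ⟨ξ, hξ.trans_lt hp1, rfl⟩
    · exact ⟨p + 1, lt_add_one' _, ∅, fun h => absurd h hp⟩
  choose N hN T hT using hdata
  have hN' : ∀ x < (ω : Ord) ^ η, N x < ω ^ η := fun x hx => (hT x hx).1
  have hind := glue_indep (G := G) (s := s) N hN hN' T (fun p hp => (hT p hp).2.1)
    (fun p hp => (hT p hp).2.2.1) (fun p hp => (hT p hp).2.2.2.1)
  let U : Set Ord := {x | ∃ i, iter N i < ω ^ η ∧ x ∈ T (iter N i)}
  obtain ⟨f, hf1, hf2⟩ := exists_list (δ := ω ^ η) (α := s + ω ^ η) (T := U)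
    (by
      rintro x ⟨i, hi, hx⟩
      exact ((hT _ hi).2.1 x hx).2.trans ((add_lt_add_iff_left _).2 (hN' _ hi)))
    (by
      intro ξ hξ
      obtain ⟨i, hi, hi'⟩ := iter_cofinal hN hN' ξ hξ
      obtain ⟨g, hg1, hg2⟩ := (hT _ hi).2.2.2.2
      exact ⟨g, hg1.mono fun x (hx : x ≤ ξ) => hx.trans hi'.le,
        fun ρ hρ => ⟨i, hi, hg2 ρ (hρ.trans hi'.le)⟩⟩)
  refine ⟨f, hf1, ?_, ?_⟩
  · intro ξ hξ
    obtain ⟨i, hi, hx⟩ := hf2 ξ hξ
    have := (hT _ hi).2.1 _ hx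
    exact ⟨(le_add_of_nonneg_right zero_le).trans this.1,
      this.2.trans ((add_lt_add_iff_left _).2 (hN' _ hi))⟩
  · intro ξ hξ ξ' hξ'
    obtain ⟨i, hi, hx⟩ := hf2 ξ hξ
    obtain ⟨i', hi', hx'⟩ := hf2 ξ' hξ'
    exact hind i i' hi hi' _ hx _ hx'

/-- The general positive result. -/
lemma P_all (hno : NoMatch (k + 1) G α) (γ : Ord) :
    (γ ≠ 0 → ∃ β < γ + ω, P G α β γ) ∧ (Order.IsSuccLimit γ → P G α γ γ) := by
  induction γ using WellFoundedLT.induction with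
  | _ γ ih =>
    have hlim : Order.IsSuccLimit γ → P G α γ γ := by
      intro hγ
      apply P_limit hno hγ
      intro γ' hγ' hne
      obtain ⟨β, hβ, hP⟩ := (ih γ' hγ').1 hne
      refine ⟨β, hβ.trans_le ?_, hP⟩
      rw [Ordinal.add_le_iff_of_isSuccLimit Ordinal.isSuccLimit_omega0]
      intro n hn
      obtain ⟨n, rfl⟩ := Ordinal.lt_omega0.1 hn
      clear hn
      have : ∀ n : ℕ, γ' + n < γ := by
        intro n
        induction n with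
        | zero => simpa using hγ'
        | succ n ih => rw [Nat.cast_succ, ← add_assoc]; exact hγ.add_one_lt ih
      exact (this n).le
    refine ⟨?_, hlim⟩
    intro hne
    by_cases hγ : Order.IsSuccLimit γ
    · refine ⟨γ, ?_, hlim hγ⟩
      conv_lhs => rw [← add_zero γ]
      exact (add_lt_add_iff_left _).2 Ordinal.omega0_pos
    · obtain ⟨γ', rfl⟩ : ∃ γ', γ = γ' + 1 := by
        rcases Ordinal.zero_or_succ_or_isSuccLimit γ with h | ⟨a, h⟩ | h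
        · exact absurd h hne
        · exact ⟨a, by rw [← h]; rfl⟩
        · exact absurd h hγ
      by_cases h0 : γ' = 0
      · subst h0
        refine ⟨_, ?_, by rw [zero_add]; exact P_one hno⟩
        rw [zero_add]
        apply (add_lt_add_iff_left _).2
        exact Ordinal.natCast_lt_omega0 _
      · obtain ⟨β, hβ, hP⟩ := (ih γ' (lt_add_one' _)).1 h0
        refine ⟨_, ?_, P_succ hno h0 hP⟩
        have hl : Order.IsSuccLimit (γ' + ω) :=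
          Ordinal.isSuccLimit_add _ Ordinal.isSuccLimit_omega0
        have h1 : β + ((k + 1 : ℕ) : Ord) < γ' + ω := by
          have : ∀ n : ℕ, β + n < γ' + ω := by
            intro n
            induction n with
            | zero => simpa using hβ
            | succ n ih => rw [Nat.cast_succ, ← add_assoc]; exact hl.add_one_lt ih
          exact this _
        have h2 : γ' + 1 + ω = γ' + ω := by
          rw [add_assoc, Ordinal.one_add_omega0]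
        rw [h2]
        exact h1

lemma P_main (hno : NoMatch (k + 1) G α) {η : Ord} (hη : Order.IsSuccLimit η) (j : ℕ) :
    P G α (η + ((j * (k + 1) : ℕ) : Ord)) (η + (j : Ord)) := by
  induction j with
  | zero =>
    simpa using (P_all hno η).2 hη
  | succ j ih =>
    have hne : η + (j : Ord) ≠ 0 := by
      intro h
      have : η ≤ η + (j : Ord) := le_add_of_nonneg_right zero_le
      rw [h] at this
      exact hη.ne_bot (le_antisymm this zero_le)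
    have := P_succ hno hne ih
    rw [add_assoc, add_assoc, ← Nat.cast_add] at this
    have e1 : j * (k + 1) + (k + 1) = (j + 1) * (k + 1) := by ring
    rw [e1] at this
    rw [Nat.cast_succ]
    exact this

end Pool.Agent.H6.DownUp
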