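import Mathlib
import Pool.Agent.H6.EHMGraph

open Set Function

namespace H6.EHM

section tree2

variable {V Ω : Type*} [LinearOrder Ω] [WellFoundedLT Ω]

/-- parent map from a function of the index -/
def up2 {V Ω : Type*} (e : V → Ω) (q : Ω → Option V) : Option V → Option V
  | none => none
  | some v => q (e v)

/-- goodness of the parent `o` of the vertex with index `t` -/
def Good2 (row : V → ℕ) (e : V → Ω) (D : Ω → Ω) (Z : Ω → Set V) (F : V → Finset Ω) (h : ℕ → ℕ)
    (u : Option V → Option V) (t : Ω) (o : Option V) : Prop :=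
  (∀ v, e v ≠ t) ∧ o = none ∨ ∃ v, e v = t ∧
  (∀ x, o = some x → e x < t ∧ row x = row v) ∧ (∃ m, u^[m] o = none ∧ m + 1 ≤ 2 ^ (h (row v))) ∧
  ∀ ν ∈ F v, D ν ≤ t →
    (∃ m', ∃ z ∈ Z ν, u^[m'] o = some z) ∨
    (∃ m' b, m' + 1 ≤ b ∧ (∀ x, u^[m'] o = some x → e x < D ν) ∧
      ∀ z ∈ Z ν, row z = row v → ∀ m'' ≤ b, u^[m''] (some z) ≠ u^[m'] o)

omit [WellFoundedLT Ω] in
theorem exists_good2 (row : V → ℕ) (e : V → Ω) (D : Ω → Ω) (Z : Ω → Set V) (F : V → Finset Ω)
    (h : ℕ → ℕ) (hF : ∀ v, (F v).card ≤ h (row v)) (hZ : ∀ ν, ∀ z ∈ Z ν, e z < D ν)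
    (u : Option V → Option V) (t : Ω) :
    ∃ o, Good2 row e D Z F h u t o := by
  classical
  by_cases hv : ∃ v, e v = t
  · obtain ⟨v, hv⟩ := hv
    obtain ⟨o, m, h1, h2, h3, h4⟩ := claim u row e e t (row v) D Z (h (row v))
      ((F v).filter (fun ν => D ν ≤ t)) (le_trans (Finset.card_filter_le _ _) (hF v))
      (fun ν _ => hZ ν)
      (fun ν hν v hv => lt_of_lt_of_le hv (Finset.mem_filter.mp hν).2)
      none (by intro _ _ v hv; cases hv) (by intro v hv; cases hv)
    refine ⟨o, Or.inr ⟨v, hv, h1, ⟨m, h2, h3⟩, ?_⟩⟩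
    intro ν a1 a2
    exact h4 ν (Finset.mem_filter.mpr ⟨a1, a2⟩)
  · push Not at hv
    exact ⟨none, Or.inl ⟨hv, rfl⟩⟩

/-- The tree lemma, vertex by vertex. -/
theorem tree2 (hcount : ∀ t : Ω, (Iio t).Countable)
    (hunb : ∀ s : Set Ω, s.Countable → ∃ b, ∀ x ∈ s, x < b)
    (row : V → ℕ) (e : V → Ω) (he : Injective e)
    (str : Ω → Ω × (ℕ → Option V)) (hstr : Surjective str)
    (F : V → Finset Ω) (h : ℕ → ℕ) (hF : ∀ v, (F v).card ≤ h (row v)) :
    ∃ pa : Option V → Option V, pa none = none ∧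
      (∀ v x, pa (some v) = some x → e x < e v ∧ row x = row v) ∧
      (∀ v, ∃ m ≤ 2 ^ (h (row v)), pa^[m] (some v) = none) ∧
      ∀ Y : Set V, (∀ x ∈ Y, ∀ y ∈ Y, ∀ m, 1 ≤ m → pa^[m] (some x) ≠ some y) →
        ∃ ν δ, ∀ v ∈ Y, e v < δ ∨ ν ∉ F v := by
  classical
  set D : Ω → Ω := fun ν => (str ν).1 with hD
  set Z : Ω → Set V := fun ν => {z | e z < D ν ∧ ∃ n, (str ν).2 n = some z} with hZ
  have hZD : ∀ ν, ∀ z ∈ Z ν, e z < D ν := fun ν z hz => hz.1
  obtain ⟨P, hP⟩ := rec_exists (Ω := Ω) (A := Option V) none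
    (fun q t a => Good2 row e D Z F h (up2 e q) t a)
    (fun q t => exists_good2 row e D Z F h hF hZD (up2 e q) t)
  set u : Option V → Option V := up2 e P with hu
  have hPv : ∀ v, (∀ x, P (e v) = some x → e x < e v ∧ row x = row v) ∧
      (∃ m, (up2 e (fun s => if s < e v then P s else none))^[m] (P (e v)) = none ∧
        m + 1 ≤ 2 ^ (h (row v))) ∧
      ∀ ν ∈ F v, D ν ≤ e v →
        (∃ m', ∃ z ∈ Z ν, (up2 e (fun s => if s < e v then P s else none))^[m'] (P (e v)) = some z) ∨
        (∃ m' b, m' + 1 ≤ b ∧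
          (∀ x, (up2 e (fun s => if s < e v then P s else none))^[m'] (P (e v)) = some x →
            e x < D ν) ∧
          ∀ z ∈ Z ν, row z = row v → ∀ m'' ≤ b,
            (up2 e (fun s => if s < e v then P s else none))^[m''] (some z) ≠
              (up2 e (fun s => if s < e v then P s else none))^[m'] (P (e v))) := by
    intro v
    rcases hP (e v) with ⟨h1, _⟩ | ⟨w, hw, h1, h2, h3⟩
    · exact absurd rfl (h1 v)
    · have := he hw
      subst this
      exact ⟨h1, h2, h3⟩
  have hcolu : ∀ v x, u (some v) = some x → e x < e v ∧ row x = row v := fun v x hx =>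
    (hPv v).1 x hx
  have hiter : ∀ t : Ω, ∀ m : ℕ, ∀ x : Option V, (∀ v, x = some v → e v < t) →
      (up2 e (fun s => if s < t then P s else none))^[m] x = u^[m] x ∧
      (∀ v, u^[m] x = some v → e v < t) := by
    intro t m
    induction m with
    | zero => intro x hx; exact ⟨rfl, hx⟩
    | succ m ih =>
      intro x hx
      have hone : up2 e (fun s => if s < t then P s else none) x = u x := by
        cases x with
        | none => rfl
        | some v =>
          have hv := hx v rfl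
          simp only [hu, up2, hv, if_true]
      have hux : ∀ v, u x = some v → e v < t := by
        intro v hv
        cases x with
        | none => simp [hu, up2] at hv
        | some w => exact lt_trans (hcolu w v hv).1 (hx w rfl)
      rw [iterate_succ_apply, iterate_succ_apply, hone]
      exact ih (u x) hux
  -- goodness with respect to the full map
  have hgood : ∀ v, (∃ m, u^[m] (P (e v)) = none ∧ m + 1 ≤ 2 ^ (h (row v))) ∧
      ∀ ν ∈ F v, D ν ≤ e v →
        (∃ m', ∃ z ∈ Z ν, u^[m'] (P (e v)) = some z) ∨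
        (∃ m' b, m' + 1 ≤ b ∧ (∀ x, u^[m'] (P (e v)) = some x → e x < D ν) ∧
          ∀ z ∈ Z ν, row z = row v → ∀ m'' ≤ b, u^[m''] (some z) ≠ u^[m'] (P (e v))) := by
    intro v
    obtain ⟨g1, ⟨m, g2, g3⟩, g4⟩ := hPv v
    have hcl : ∀ x, P (e v) = some x → e x < e v := fun x hx => (g1 x hx).1
    refine ⟨⟨m, ?_, g3⟩, ?_⟩
    · rw [← (hiter (e v) m (P (e v)) hcl).1]; exact g2
    · intro ν a1 a3
      rcases g4 ν a1 a3 with ⟨m', z, hz, hm'⟩ | ⟨m', b, hb, h1, h2⟩
      · exact Or.inl ⟨m', z, hz, by rw [← (hiter (e v) m' (P (e v)) hcl).1]; exact hm'⟩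
      · refine Or.inr ⟨m', b, hb, ?_, ?_⟩
        · rw [← (hiter (e v) m' (P (e v)) hcl).1]; exact h1
        · intro z hz hzi m'' hm''
          have hzc : ∀ x, some z = some x → e x < e v := by
            intro x hx
            cases hx
            exact lt_of_lt_of_le (hZD ν z hz) a3
          rw [← (hiter (e v) m' (P (e v)) hcl).1, ← (hiter (e v) m'' (some z) hzc).1]
          exact h2 z hz hzi m'' hm''
  refine ⟨u, rfl, hcolu, ?_, ?_⟩
  · intro v
    obtain ⟨⟨m, g2, g3⟩, _⟩ := hgood v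
    refine ⟨m + 1, g3, ?_⟩
    rw [iterate_succ_apply]
    exact g2
  · intro Y hY
    -- witnesses
    let W : Option V → ℕ → ℕ → Prop := fun y i b => ∃ v ∈ Y, row v = i ∧ ∃ m ≤ b, u^[m] (some v) = y
    let w : Option V → ℕ → ℕ → Set V := fun y i b =>
      if h : W y i b then {Classical.choose h} else ∅
    let C : Ω → Set Ω := fun a =>
      {a} ∪ ⋃ y ∈ (insert none (some '' {v | e v ≤ a}) : Set (Option V)),
        ⋃ i, ⋃ b, e '' (w y i b)
    have hVc : ∀ a, {v | e v ≤ a}.Countable := by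
      intro a
      have h1 : (Iic a).Countable := by
        obtain ⟨b, hb⟩ := hunb {a} (countable_singleton a)
        exact (hcount b).mono (fun x hx => lt_of_le_of_lt hx (hb a rfl))
      exact Set.Countable.preimage_of_injOn h1 he.injOn
    have hC : ∀ a, (C a).Countable := by
      intro a
      refine (countable_singleton a).union ?_
      refine Set.Countable.biUnion (((hVc a).image some).insert none) ?_
      intro y _
      refine countable_iUnion fun i => countable_iUnion fun b => ?_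
      refine Set.Countable.image ?_ e
      simp only [w]
      split_ifs
      · exact countable_singleton _
      · exact countable_empty
    choose B hB using fun a => hunb (C a) (hC a)
    obtain ⟨δ0, -⟩ := hunb ∅ countable_empty
    let dl : ℕ → Ω := fun n => Nat.rec δ0 (fun _ x => B x) n
    have hdl : ∀ n, dl (n + 1) = B (dl n) := fun n => rfl
    have hne : {b | ∀ n, dl n < b}.Nonempty := by
      obtain ⟨b, hb⟩ := hunb (range dl) (countable_range dl)
      exact ⟨b, fun n => hb _ ⟨n, rfl⟩⟩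
    set δ : Ω := (wellFounded_lt (α := Ω)).min _ hne with hδ
    have hδ1 : ∀ n, dl n < δ := (wellFounded_lt (α := Ω)).min_mem _ hne
    have hδ2 : ∀ x, x < δ → ∃ n, x ≤ dl n := by
      intro x hx
      rcases em (∃ n, x ≤ dl n) with hcon | hcon
      · exact hcon
      · push Not at hcon
        exact absurd hx ((wellFounded_lt (α := Ω)).not_lt_min _
          (show x ∈ {b | ∀ n, dl n < b} from hcon))
    have hclosed : ∀ y : Option V, (∀ v, y = some v → e v < δ) → ∀ i b, W y i b →
        ∃ v ∈ Y, e v < δ ∧ row v = i ∧ ∃ m ≤ b, u^[m] (some v) = y := by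
      intro y hy i b hW
      obtain ⟨n, hn⟩ : ∃ n, y ∈ (insert none (some '' {v | e v ≤ dl n}) : Set (Option V)) := by
        cases y with
        | none => exact ⟨0, Or.inl rfl⟩
        | some v =>
          obtain ⟨n, hn⟩ := hδ2 _ (hy v rfl)
          exact ⟨n, Or.inr ⟨v, hn, rfl⟩⟩
      have hspec := Classical.choose_spec hW
      refine ⟨Classical.choose hW, hspec.1, ?_, hspec.2⟩
      have : e (Classical.choose hW) < dl (n + 1) := by
        rw [hdl]
        refine hB (dl n) _ (Or.inr ?_)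
        refine mem_biUnion hn (mem_iUnion.mpr ⟨i, mem_iUnion.mpr ⟨b, ?_⟩⟩)
        refine ⟨Classical.choose hW, ?_, rfl⟩
        simp only [w]
        rw [dif_pos hW]
        rfl
      exact lt_trans this (hδ1 (n + 1))
    -- the strategy
    obtain ⟨s, hs⟩ : ∃ s : ℕ → Option V, ∀ z, (∃ n, s n = some z) ↔ (z ∈ Y ∧ e z < δ) := by
      have hcz : {z | z ∈ Y ∧ e z < δ}.Countable := by
        refine Set.Countable.mono ?_ (hVc δ)
        intro z hz
        exact le_of_lt hz.2
      obtain ⟨s, hs⟩ := ((hcz.image some).insert none).exists_eq_range ⟨none, Or.inl rfl⟩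
      refine ⟨s, fun z => ?_⟩
      have h1 : (∃ n, s n = some z) ↔ some z ∈ range s := Iff.rfl
      rw [h1, ← hs]
      constructor
      · rintro (h | ⟨z', hz', hzz⟩)
        · cases h
        · cases hzz
          exact hz'
      · intro h
        exact Or.inr ⟨z, h, rfl⟩
    obtain ⟨ν, hν⟩ := hstr (δ, s)
    refine ⟨ν, δ, fun v hv => ?_⟩
    by_contra hcon
    push Not at hcon
    obtain ⟨hδv, hνF⟩ := hcon
    have hDν : D ν = δ := by simp [hD, hν]
    have hZν : Z ν = {z | z ∈ Y ∧ e z < δ} := by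
      ext z
      simp only [hZ, hDν, hν, hs, mem_ofPred_eq]
      tauto
    have hpar : u (some v) = P (e v) := rfl
    rcases (hgood v).2 ν hνF (by rw [hDν]; exact hδv)
      with ⟨m', z, hz, hm'⟩ | ⟨m', b, hb, h1, h2⟩
    · rw [hZν] at hz
      refine hY v hv z hz.1 (m' + 1) (by omega) ?_
      rw [iterate_succ_apply, hpar, hm']
    · rw [hDν] at h1
      obtain ⟨z, hzY, hze, hzr, m, hm, hmz⟩ := hclosed (u^[m'] (P (e v))) h1 (row v) b
        ⟨v, hv, rfl, m' + 1, hb, by rw [iterate_succ_apply, hpar]⟩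
      exact h2 z (by rw [hZν]; exact ⟨hzY, hze⟩) hzr m hm hmz

/-- The graph form of the second tree lemma. -/
theorem graph2 (hcount : ∀ t : Ω, (Iio t).Countable)
    (hunb : ∀ s : Set Ω, s.Countable → ∃ b, ∀ x ∈ s, x < b)
    (row : V → ℕ) (e : V → Ω) (he : Injective e)
    (str : Ω → Ω × (ℕ → Option V)) (hstr : Surjective str)
    (F : V → Finset Ω) (h : ℕ → ℕ) (hF : ∀ v, (F v).card ≤ h (row v)) :
    ∃ G : SimpleGraph V, (¬ ∃ f : ℕ → V, Injective f ∧ ∀ n, G.Adj (f n) (f (n + 1))) ∧
      ∀ Y : Set V, (∀ x ∈ Y, ∀ y ∈ Y, ¬ G.Adj x y) →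
        ∃ ν δ, ∀ v ∈ Y, e v < δ ∨ ν ∉ F v := by
  obtain ⟨pa, h0, h1, h2, h3⟩ := tree2 hcount hunb row e he str hstr F h hF
  refine ⟨cmp pa, no_path pa h0 (fun v => 2 ^ (h (row v))) h2 ?_, ?_⟩
  · intro v x hx
    simp only [(h1 v x hx).2]
  · intro Y hY
    refine h3 Y ?_
    intro x hx y hy m hm hmy
    have hnone : ∀ m, pa^[m] none = none := by
      intro m
      induction m with
      | zero => rfl
      | succ m ih => rw [iterate_succ_apply, h0, ih]
    have hlt : ∀ m x y, pa^[m + 1] (some x) = some y → e y < e x := by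
      intro m
      induction m with
      | zero => intro x y h; exact (h1 x y h).1
      | succ m ih =>
        intro x y h
        rw [iterate_succ_apply] at h
        cases hxx : pa (some x) with
        | none => rw [hxx, hnone] at h; cases h
        | some z =>
          rw [hxx] at h
          exact lt_trans (ih z y h) (h1 x z hxx).1
    obtain ⟨m', rfl⟩ : ∃ m', m = m' + 1 := ⟨m - 1, by omega⟩
    refine hY x hx y hy ⟨?_, Or.inl ⟨m' + 1, hmy⟩⟩
    rintro rfl
    exact lt_irrefl _ (hlt m' x x hmy)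

end tree2

end H6.EHM
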