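import Mathlib
import Pool.Agent.H6.EHMTree2
import Pool.Agent.H6.EHMOrd

open Set Function Ordinal Cardinal

namespace H6.EHM

/-- `A` has order type less than `γ`, witnessed by a strictly increasing map. -/
def TPlt (A : Set Ordinal.{0}) (γ : Ordinal.{0}) : Prop :=
  ∃ γ' < γ, ∃ φ : Ordinal.{0} → Ordinal.{0}, (∀ x ∈ A, φ x < γ') ∧
    ∀ x ∈ A, ∀ y ∈ A, x < y → φ x < φ y

theorem lt_om_iff (x : Ordinal.{0}) : x < ω₁ ↔ x.card ≤ ℵ₀ := by
  rw [← Cardinal.ord_aleph, Cardinal.lt_ord, ← Cardinal.succ_aleph0, Order.lt_succ_iff]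

theorem mul_lt_om {x y : Ordinal.{0}} (hx : x < ω₁) (hy : y < ω₁) : x * y < ω₁ := by
  rw [lt_om_iff] at *
  rw [Ordinal.card_mul]
  exact le_trans (mul_le_mul' hx hy) (by simp)

theorem om_pos : (0 : Ordinal.{0}) < ω₁ := Ordinal.omega_pos 1

theorem TPlt_countable (C : Set Ordinal.{0}) (hC : C.Countable) :
    ∃ φ : Ordinal.{0} → Ordinal.{0}, (∀ x ∈ C, φ x < ω₁) ∧
    ∀ x ∈ C, ∀ y ∈ C, x < y → φ x < φ y := by
  classical
  rcases C.eq_empty_or_nonempty with h | h
  · subst h; exact ⟨id, by simp, by simp⟩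
  obtain ⟨f, hf⟩ := hC.exists_eq_range h
  let r : ℕ → ℕ → Prop := fun m n => f m < f n
  have hwf : IsWellFounded ℕ r := ⟨InvImage.wf f (wellFounded_lt (α := Ordinal.{0}))⟩
  have hrank : ∀ n, IsWellFounded.rank r n < ω₁ := by
    intro n
    induction n using hwf.wf.induction with
    | h n ih =>
      rw [IsWellFounded.rank_eq]
      apply Ordinal.iSup_lt_omega_one
      rintro ⟨m, hm⟩
      have := ih m hm
      exact (Cardinal.isSuccLimit_omega 1).succ_lt this
  have hpre : ∀ x ∈ C, ∃ n, f n = x := by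
    intro x hx
    rw [hf] at hx
    exact hx
  refine ⟨fun x => if hx : ∃ n, f n = x then IsWellFounded.rank r (Classical.choose hx) else 0,
    ?_, ?_⟩
  · intro x hx
    simp only [hpre x hx, dif_pos]
    exact hrank _
  · intro x hx y hy hxy
    simp only [hpre x hx, hpre y hy, dif_pos]
    apply IsWellFounded.rank_lt_of_rel
    show f _ < f _
    rw [Classical.choose_spec (hpre x hx), Classical.choose_spec (hpre y hy)]
    exact hxy

/-- Sum lemma. -/
theorem sum_lemma (A : Set Ordinal.{0}) (idx : Ordinal.{0} → Om)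
    (hidx : ∀ x ∈ A, ∀ y ∈ A, x < y → idx x ≤ idx y) (Γ : Ordinal.{0})
    (h : ∀ t : Om, ∃ φ : Ordinal.{0} → Ordinal.{0}, (∀ x ∈ A, idx x = t → φ x < Γ) ∧
      ∀ x ∈ A, ∀ y ∈ A, idx x = t → idx y = t → x < y → φ x < φ y) :
    ∃ φ : Ordinal.{0} → Ordinal.{0}, (∀ x ∈ A, φ x < Γ * ((idx x).1 + 1)) ∧
      ∀ x ∈ A, ∀ y ∈ A, x < y → φ x < φ y := by
  choose φ hφ1 hφ2 using h
  refine ⟨fun x => Γ * (idx x).1 + φ (idx x) x, ?_, ?_⟩
  · intro x hx
    show Γ * (idx x).1 + φ (idx x) x < Γ * ((idx x).1 + 1)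
    rw [mul_add, mul_one]
    exact (add_lt_add_iff_left _).mpr (hφ1 (idx x) x hx rfl)
  · intro x hx y hy hxy
    show Γ * (idx x).1 + φ (idx x) x < Γ * (idx y).1 + φ (idx y) y
    rcases lt_or_eq_of_le (hidx x hx y hy hxy) with hlt | heq
    · have hlt' : (idx x).1 < (idx y).1 := hlt
      calc Γ * (idx x).1 + φ (idx x) x < Γ * (idx x).1 + Γ :=
            (add_lt_add_iff_left _).mpr (hφ1 (idx x) x hx rfl)
        _ = Γ * ((idx x).1 + 1) := by rw [mul_add, mul_one]
        _ ≤ Γ * (idx y).1 := mul_le_mul_right (Order.add_one_le_of_lt hlt') _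
        _ ≤ _ := le_self_add
    · rw [← heq, add_lt_add_iff_left]
      exact hφ2 (idx x) x hx y hy rfl heq.symm hxy

def St (b : Ordinal.{0}) : Prop :=
  ∃ (row : Ordinal.{0} → ℕ) (F : Ordinal.{0} → Finset Om),
    (∀ v, (F v).card ≤ (row v + 1) ^ 2) ∧
    (∀ n : ℕ, ∀ C : Set Ordinal.{0}, C.Countable →
      TPlt {v | v < b ∧ (row v ≤ n ∨ v ∈ C)} (ω₁ ^ ((2 * n + 2 : ℕ) : Ordinal.{0}))) ∧
    (∀ ν : Om, ∀ C : Set Ordinal.{0}, C.Countable →
      TPlt {v | v < b ∧ (ν ∉ F v ∨ v ∈ C)} (ω₁ ^ (ω + 2)))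

theorem TPlt_insert {A : Set Ordinal.{0}} {b γ : Ordinal.{0}} (hA : ∀ x ∈ A, x < b)
    (hγ : Order.IsSuccLimit γ) (h : TPlt A γ) : TPlt {x | x ∈ A ∨ x = b} γ := by
  classical
  obtain ⟨γ', hγ', φ, h1, h2⟩ := h
  refine ⟨γ' + 1, hγ.add_one_lt hγ', fun x => if x < b then φ x else γ', ?_, ?_⟩
  · rintro x (hx | hx)
    · simp only [hA x hx, if_true]
      exact lt_trans (h1 x hx) (lt_add_one _)
    · subst hx
      simp only [lt_irrefl, if_false]
      exact lt_add_one _
  · rintro x (hx | hx) y (hy | hy) hxy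
    · simp only [hA x hx, hA y hy, if_true]
      exact h2 x hx y hy hxy
    · subst hy
      simp only [hA x hx, lt_irrefl, if_true, if_false]
      exact h1 x hx
    · subst hx
      exact absurd (lt_trans hxy (hA y hy)) (lt_irrefl _)
    · subst hx; subst hy
      exact absurd hxy (lt_irrefl _)

theorem TPlt_mono {A B : Set Ordinal.{0}} {γ δ : Ordinal.{0}} (hAB : A ⊆ B) (hγ : δ ≤ γ)
    (h : TPlt B δ) : TPlt A γ := by
  obtain ⟨γ', hγ', φ, h1, h2⟩ := h
  exact ⟨γ', lt_of_lt_of_le hγ' hγ, φ, fun x hx => h1 x (hAB hx),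
    fun x hx y hy => h2 x (hAB hx) y (hAB hy)⟩

theorem isSuccLimit_pow {c : Ordinal.{0}} (hc : c ≠ 0) : Order.IsSuccLimit (ω₁ ^ c) :=
  Ordinal.isSuccLimit_opow_left (Cardinal.isSuccLimit_omega 1) hc

theorem St_zero : St 0 := by
  refine ⟨fun _ => 0, fun _ => ∅, by simp, ?_, ?_⟩
  · intro n C _
    exact ⟨0, Ordinal.opow_pos _ om_pos, id, by rintro x ⟨hx, _⟩; simp at hx,
      by rintro x ⟨hx, _⟩; simp at hx⟩
  · intro n C _
    exact ⟨0, Ordinal.opow_pos _ om_pos, id, by rintro x ⟨hx, _⟩; simp at hx,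
      by rintro x ⟨hx, _⟩; simp at hx⟩

theorem St_succ (b : Ordinal.{0}) (h : St b) : St (b + 1) := by
  classical
  obtain ⟨row, F, h1, h2, h3⟩ := h
  refine ⟨row, F, h1, ?_, ?_⟩
  · intro n C hC
    refine TPlt_mono ?_ le_rfl (TPlt_insert (b := b) (fun x hx => hx.1) (isSuccLimit_pow ?_)
      (h2 n C hC))
    · rintro x ⟨hx, hx'⟩
      rcases lt_or_eq_of_le (Order.lt_add_one_iff.mp hx) with h | h
      · exact Or.inl ⟨h, hx'⟩
      · exact Or.inr h
    · norm_cast
  · intro ν C hC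
    refine TPlt_mono ?_ le_rfl (TPlt_insert (b := b) (fun x hx => hx.1) (isSuccLimit_pow ?_)
      (h3 ν C hC))
    · rintro x ⟨hx, hx'⟩
      rcases lt_or_eq_of_le (Order.lt_add_one_iff.mp hx) with h | h
      · exact Or.inl ⟨h, hx'⟩
      · exact Or.inr h
    · simp


theorem St_limit (b : Ordinal.{0}) (hb : Order.IsSuccLimit b) (hcard : b.card ≤ ℵ₁)
    (ih : ∀ a < b, St a) : St b := by
  classical
  -- a family of bounds
  have hb0 : 0 < b := hb.bot_lt
  obtain ⟨s, hs1, hs2⟩ : ∃ s : Om → Ordinal.{0}, (∀ t, s t < b) ∧ ∀ v < b, ∃ t, v < s t := by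
    have h1 : #(Iio b) ≤ #Om := by
      rw [mk_Om, Cardinal.mk_Iio_ordinal]
      calc Cardinal.lift.{1} b.card ≤ Cardinal.lift.{1} ℵ₁ := Cardinal.lift_le.mpr hcard
        _ = ℵ₁ := by simp
    rw [Cardinal.le_def] at h1
    obtain ⟨j⟩ := h1
    have : Nonempty (Iio b) := ⟨⟨0, hb0⟩⟩
    have hsurj : Surjective (Function.invFun j) := Function.invFun_surjective j.injective
    refine ⟨fun t => (Function.invFun j t).1, fun t => (Function.invFun j t).2, fun v hv => ?_⟩
    obtain ⟨t, ht⟩ := hsurj ⟨v + 1, hb.add_one_lt hv⟩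
    refine ⟨t, ?_⟩
    show v < (Function.invFun j t).1
    rw [ht]
    exact lt_add_one v
  choose R Φ hR1 hR2 hR3 using fun t => ih (s t) (hs1 t)
  choose c hc using fun t : Om => Set.countable_iff_exists_injOn.mp (om_count t)
  have hE : ∀ (t : Om) (r : ℕ), ∃ E : Finset Om, E.card ≤ r + 1 ∧
      ∀ ν, ν < t → c t ν ≤ r → ν ∈ E := by
    intro t r
    set S : Set Om := {ν | ν < t ∧ c t ν ≤ r} with hS
    have hmaps : MapsTo (c t) S (Finset.range (r + 1) : Set ℕ) := by
      intro ν hν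
      have : c t ν ≤ r := hν.2
      simp only [Finset.coe_range, mem_Iio]
      omega
    have hinj : InjOn (c t) S := (hc t).mono (fun ν hν => hν.1)
    have hfin : S.Finite := Set.Finite.of_injOn hmaps hinj (Finset.finite_toSet _)
    refine ⟨hfin.toFinset, ?_, fun ν h1 h2 => by simpa using (show ν ∈ S from ⟨h1, h2⟩)⟩
    have := Finset.card_le_card_of_injOn (s := hfin.toFinset) (t := Finset.range (r + 1)) (c t)
      (by intro ν hν; exact hmaps (by simpa using hν))
      (by intro a ha b hb hab; exact hinj (by simpa using ha) (by simpa using hb) hab)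
    simpa using this
  choose E hE1 hE2 using hE
  have t00 : Om := ⟨0, om_pos⟩
  let idx : Ordinal.{0} → Om := fun v =>
    if h : {t | v < s t}.Nonempty then (wellFounded_lt (α := Om)).min {t | v < s t} h else t00
  have hidx1 : ∀ v < b, v < s (idx v) := by
    intro v hv
    have h : {t | v < s t}.Nonempty := hs2 v hv
    simp only [idx, dif_pos h]
    exact (wellFounded_lt (α := Om)).min_mem _ h
  have hidx2 : ∀ x < b, ∀ y < b, x < y → idx x ≤ idx y := by
    intro x hx y hy hxy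
    have h : {t | x < s t}.Nonempty := hs2 x hx
    have h' := hidx1 y hy
    have h2 : idx x = (wellFounded_lt (α := Om)).min {t | x < s t} h := by
      simp only [idx, dif_pos h]
    rw [h2]
    by_contra hcon
    push Not at hcon
    exact (wellFounded_lt (α := Om)).not_lt_min _
      (show idx y ∈ {t | x < s t} from lt_trans hxy h') hcon
  refine ⟨fun v => R (idx v) v + 1, fun v => Φ (idx v) v ∪ E (idx v) (R (idx v) v), ?_, ?_, ?_⟩
  · intro v
    have h1 := hR1 (idx v) v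
    have h2 := hE1 (idx v) (R (idx v) v)
    have h3 := Finset.card_union_le (Φ (idx v) v) (E (idx v) (R (idx v) v))
    nlinarith
  · intro n C hC
    rcases n with _ | m
    · -- only the countable part matters
      obtain ⟨φ, h1, h2⟩ := TPlt_countable C hC
      refine ⟨ω₁, ?_, φ, ?_, ?_⟩
      · have : (ω₁ : Ordinal.{0}) = ω₁ ^ (1 : Ordinal.{0}) := (Ordinal.opow_one _).symm
        conv_lhs => rw [this]
        exact (Ordinal.opow_lt_opow_iff_right (lt_of_lt_of_le Ordinal.one_lt_omega0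
          (Ordinal.omega0_le_omega 1))).mpr (by norm_num)
      · rintro x ⟨_, hx | hx⟩
        · exact absurd hx (Nat.not_succ_le_zero _)
        · exact h1 x hx
      · rintro x ⟨_, hx | hx⟩ y ⟨_, hy | hy⟩ hxy
        · exact absurd hx (Nat.not_succ_le_zero _)
        · exact absurd hx (Nat.not_succ_le_zero _)
        · exact absurd hy (Nat.not_succ_le_zero _)
        · exact h2 x hx y hy hxy
    · set A : Set Ordinal.{0} := {v | v < b ∧ (R (idx v) v + 1 ≤ m + 1 ∨ v ∈ C)} with hA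
      obtain ⟨φ, h1, h2⟩ := sum_lemma A idx (fun x hx y hy => hidx2 x hx.1 y hy.1)
        (ω₁ ^ ((2 * m + 2 : ℕ) : Ordinal.{0})) (by
          intro t
          obtain ⟨γ', hγ', φ, h1, h2⟩ := hR2 t m C hC
          have hmem : ∀ x ∈ A, idx x = t → x ∈ {v | v < s t ∧ (R t v ≤ m ∨ v ∈ C)} := by
            rintro x ⟨hx, hx'⟩ ht
            subst ht
            refine ⟨hidx1 x hx, ?_⟩
            rcases hx' with h | h
            · left; omega
            · right; exact h
          exact ⟨φ, fun x hx ht => lt_trans (h1 x (hmem x hx ht)) hγ',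
            fun x hx y hy htx hty hxy => h2 x (hmem x hx htx) y (hmem y hy hty) hxy⟩)
      refine ⟨ω₁ ^ ((2 * m + 2 : ℕ) : Ordinal.{0}) * ω₁, ?_, φ, ?_, h2⟩
      · rw [← Ordinal.opow_add_one]
        exact (Ordinal.opow_lt_opow_iff_right (lt_of_lt_of_le Ordinal.one_lt_omega0
          (Ordinal.omega0_le_omega 1))).mpr (by norm_cast; omega)
      · intro x hx
        refine lt_of_lt_of_le (h1 x hx) ?_
        exact mul_le_mul_right (Order.add_one_le_of_lt (idx x).2) _
  · intro ν C hC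
    set A : Set Ordinal.{0} := {v | v < b ∧ (ν ∉ Φ (idx v) v ∪ E (idx v) (R (idx v) v) ∨ v ∈ C)}
      with hA
    -- the part with `idx ≤ ν`
    have hK : ∃ K : Om, ∀ t ≤ ν, ∃ φ : Ordinal.{0} → Ordinal.{0},
        (∀ x ∈ {v | v < s t ∧ (ν ∉ Φ t v ∨ v ∈ C)}, φ x < ω₁ ^ (ω + 1) * K.1) ∧
        ∀ x ∈ {v | v < s t ∧ (ν ∉ Φ t v ∨ v ∈ C)}, ∀ y ∈ {v | v < s t ∧ (ν ∉ Φ t v ∨ v ∈ C)},
          x < y → φ x < φ y := by
      have h3 : ∀ t : Om, ∃ k : Om, ∃ φ : Ordinal.{0} → Ordinal.{0},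
        (∀ x ∈ {v | v < s t ∧ (ν ∉ Φ t v ∨ v ∈ C)}, φ x < ω₁ ^ (ω + 1) * k.1) ∧
        ∀ x ∈ {v | v < s t ∧ (ν ∉ Φ t v ∨ v ∈ C)}, ∀ y ∈ {v | v < s t ∧ (ν ∉ Φ t v ∨ v ∈ C)},
          x < y → φ x < φ y := by
        intro t
        obtain ⟨γ', hγ', φ, h1, h2⟩ := hR3 t ν C hC
        have h4 : γ' / ω₁ ^ (ω + 1) < ω₁ := by
          rw [← Ordinal.lt_mul_iff_div_lt (Ordinal.opow_pos _ om_pos).ne', ← Ordinal.opow_add_one]
          rw [show ω + 1 + 1 = ω + 2 by rw [add_assoc, one_add_one_eq_two]]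
          exact hγ'
        have h5 : γ' / ω₁ ^ (ω + 1) + 1 < ω₁ := (Cardinal.isSuccLimit_omega 1).add_one_lt h4
        refine ⟨⟨_, h5⟩, φ, fun x hx => lt_trans (h1 x hx) ?_, h2⟩
        rw [Ordinal.lt_mul_iff_div_lt (Ordinal.opow_pos _ om_pos).ne']
        exact lt_add_one _
      choose k hk using h3
      have hcnt : (k '' Iic ν).Countable := by
        apply Set.Countable.image
        obtain ⟨b', hb'⟩ := om_unb {ν} (countable_singleton ν)
        exact (om_count b').mono (fun x hx => lt_of_le_of_lt hx (hb' ν rfl))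
      obtain ⟨K, hK⟩ := om_unb _ hcnt
      refine ⟨K, fun t ht => ?_⟩
      obtain ⟨φ, h1, h2⟩ := hk t
      refine ⟨φ, fun x hx => lt_of_lt_of_le (h1 x hx) ?_, h2⟩
      exact mul_le_mul_right (le_of_lt (show (k t).1 < K.1 from hK _ ⟨t, ht, rfl⟩)) _
    obtain ⟨K, hK⟩ := hK
    obtain ⟨φ1, h11, h12⟩ := sum_lemma {v | v ∈ A ∧ idx v ≤ ν} idx
      (fun x hx y hy => hidx2 x hx.1.1 y hy.1.1) (ω₁ ^ (ω + 1) * K.1) (by
        intro t
        by_cases ht : t ≤ ν
        · obtain ⟨φ, h1, h2⟩ := hK t ht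
          have hmem : ∀ x ∈ {v | v ∈ A ∧ idx v ≤ ν}, idx x = t →
              x ∈ {v | v < s t ∧ (ν ∉ Φ t v ∨ v ∈ C)} := by
            rintro x ⟨⟨hx, hx'⟩, _⟩ ht
            subst ht
            refine ⟨hidx1 x hx, ?_⟩
            rcases hx' with h | h
            · left; exact fun h' => h (Finset.mem_union_left _ h')
            · right; exact h
          exact ⟨φ, fun x hx ht => h1 x (hmem x hx ht),
            fun x hx y hy htx hty hxy => h2 x (hmem x hx htx) y (hmem y hy hty) hxy⟩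
        · exact ⟨id, fun x hx hxt => absurd (hxt ▸ hx.2) ht,
            fun x hx y hy hxt => absurd (hxt ▸ hx.2) ht⟩)
    obtain ⟨φ2, h21, h22⟩ := sum_lemma {v | v ∈ A ∧ ν < idx v} idx
      (fun x hx y hy => hidx2 x hx.1.1 y hy.1.1) (ω₁ ^ ω) (by
        intro t
        by_cases ht : ν < t
        · obtain ⟨γ', hγ', φ, h1, h2⟩ := hR2 t (c t ν) C hC
          have hmem : ∀ x ∈ {v | v ∈ A ∧ ν < idx v}, idx x = t →
              x ∈ {v | v < s t ∧ (R t v ≤ c t ν ∨ v ∈ C)} := by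
            rintro x ⟨⟨hx, hx'⟩, _⟩ hxt
            subst hxt
            refine ⟨hidx1 x hx, ?_⟩
            rcases hx' with h | h
            · left
              by_contra hcon
              push Not at hcon
              exact h (Finset.mem_union_right _ (hE2 _ _ ν ht hcon.le))
            · right; exact h
          have hle : γ' ≤ ω₁ ^ ω := le_trans hγ'.le
            (Ordinal.opow_le_opow_right om_pos (Ordinal.natCast_lt_omega0 _).le)
          exact ⟨φ, fun x hx ht => lt_of_lt_of_le (h1 x (hmem x hx ht)) hle,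
            fun x hx y hy htx hty hxy => h2 x (hmem x hx htx) y (hmem y hy hty) hxy⟩
        · exact ⟨id, fun x hx hxt => absurd (hxt ▸ hx.2) ht,
            fun x hx y hy hxt => absurd (hxt ▸ hx.2) ht⟩)
    set L : Ordinal.{0} := ω₁ ^ (ω + 1) * K.1 * (ν.1 + 1) with hL
    have hφ1L : ∀ x, x ∈ A → idx x ≤ ν → φ1 x < L := by
      intro x hx hxν
      refine lt_of_lt_of_le (h11 x ⟨hx, hxν⟩) ?_
      have : (idx x).1 ≤ ν.1 := hxν
      exact mul_le_mul_right (add_le_add_left this 1) _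
    refine ⟨L + ω₁ ^ (ω + 1), ?_, fun x => if idx x ≤ ν then φ1 x else L + φ2 x, ?_, ?_⟩
    · have h1 : L + ω₁ ^ (ω + 1) = ω₁ ^ (ω + 1) * (K.1 * (ν.1 + 1) + 1) := by
        rw [hL, mul_assoc, mul_add (ω₁ ^ (ω + 1)) (K.1 * (ν.1 + 1)) 1, mul_one]
      rw [h1]
      have h2 : (ω₁ : Ordinal.{0}) ^ (ω + 2) = ω₁ ^ (ω + 1) * ω₁ := by
        rw [← Ordinal.opow_add_one, add_assoc, one_add_one_eq_two]
      rw [h2]
      refine mul_lt_mul_of_pos_left ?_ (Ordinal.opow_pos _ om_pos)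
      exact (Cardinal.isSuccLimit_omega 1).add_one_lt
        (mul_lt_om K.2 ((Cardinal.isSuccLimit_omega 1).add_one_lt ν.2))
    · intro x hx
      by_cases h : idx x ≤ ν
      · simp only [h, if_true]
        exact lt_of_lt_of_le (hφ1L x hx h) le_self_add
      · simp only [h, if_false]
        rw [add_lt_add_iff_left]
        refine lt_of_lt_of_le (h21 x ⟨hx, not_le.mp h⟩) ?_
        rw [Ordinal.opow_add_one]
        exact mul_le_mul_right (Order.add_one_le_of_lt (idx x).2) _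
    · intro x hx y hy hxy
      have hxy' := hidx2 x hx.1 y hy.1 hxy
      by_cases h : idx x ≤ ν
      · by_cases h' : idx y ≤ ν
        · simp only [h, h', if_true]
          exact h12 x ⟨hx, h⟩ y ⟨hy, h'⟩ hxy
        · simp only [h, h', if_true, if_false]
          exact lt_of_lt_of_le (hφ1L x hx h) le_self_add
      · have h' : ¬ idx y ≤ ν := fun h' => h (le_trans hxy' h')
        simp only [h, h', if_false]
        rw [add_lt_add_iff_left]
        exact h22 x ⟨hx, not_le.mp h⟩ y ⟨hy, not_le.mp h'⟩ hxy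

theorem St_all (b : Ordinal.{0}) (hcard : b.card ≤ ℵ₁) : St b := by
  induction b using WellFoundedLT.induction with
  | ind b ih =>
    have ih' : ∀ a < b, St a := fun a ha => ih a ha (le_trans (Ordinal.card_le_card ha.le) hcard)
    rcases Ordinal.zero_or_succ_or_isSuccLimit b with h | ⟨a, h⟩ | h
    · subst h; exact St_zero
    · subst h
      exact St_succ a (ih' a (lt_add_one a))
    · exact St_limit b h hcard ih'

end H6.EHM
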