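import Mathlib
import Pool.Agent.H6.EHMStruct

open Set Function Ordinal Cardinal

namespace H6.EHM

theorem exists_e_str (CH : Cardinal.continuum.{0} = ℵ₁) (α : Ordinal.{0}) (hα : α.card ≤ ℵ₁) :
    ∃ (e : Set.Iio α → Om) (str : Om → Om × (ℕ → Option (Set.Iio α))),
      Injective e ∧ Surjective str := by
  have hVcard : #(Set.Iio α) ≤ ℵ₁ := by
    rw [Cardinal.mk_Iio_ordinal]
    calc Cardinal.lift.{1} α.card ≤ Cardinal.lift.{1} ℵ₁ := Cardinal.lift_le.mpr hα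
      _ = ℵ₁ := by simp
  have hCH1 : Cardinal.continuum.{1} = ℵ₁ := by
    have := congrArg Cardinal.lift.{1} CH
    simpa using this
  obtain ⟨e⟩ : Nonempty (Set.Iio α ↪ Om) := by
    rw [← Cardinal.le_def, mk_Om]; exact hVcard
  have hstrat : #(Om × (ℕ → Option (Set.Iio α))) ≤ #Om := by
    rw [mk_Om, Cardinal.mk_prod, mk_Om]
    simp only [Cardinal.lift_id]
    refine Cardinal.mul_le_of_le (Cardinal.aleph0_le_aleph 1) le_rfl ?_
    have h1 : #(ℕ → Option (Set.Iio α)) = #(Option (Set.Iio α)) ^ (ℵ₀ : Cardinal.{1}) := by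
      simp [Cardinal.mk_pi]
    rw [h1]
    have h2 : #(Option (Set.Iio α)) ≤ Cardinal.continuum.{1} := by
      rw [Cardinal.mk_option, hCH1]
      exact Cardinal.add_le_of_le (Cardinal.aleph0_le_aleph 1) hVcard
        (le_trans Cardinal.one_lt_aleph0.le (Cardinal.aleph0_le_aleph 1))
    calc #(Option (Set.Iio α)) ^ (ℵ₀ : Cardinal.{1})
        ≤ Cardinal.continuum.{1} ^ (ℵ₀ : Cardinal.{1}) := Cardinal.power_le_power_right h2
      _ = Cardinal.continuum := Cardinal.continuum_power_aleph0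
      _ = ℵ₁ := hCH1
  obtain ⟨emb⟩ : Nonempty ((Om × (ℕ → Option (Set.Iio α))) ↪ Om) := by
    rw [← Cardinal.le_def]; exact hstrat
  have : Nonempty (Om × (ℕ → Option (Set.Iio α))) := ⟨(⟨0, om_pos⟩, fun _ => none)⟩
  exact ⟨e, Function.invFun emb, e.injective, Function.invFun_surjective emb.injective⟩

/-- CH: every ordinal of cardinality at most `ℵ₁` carries a graph with no infinite path all of
whose independent sets have type less than `ω₁ ^ (ω + 2)`. -/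
theorem strong (CH : Cardinal.continuum.{0} = ℵ₁) (τ : Ordinal.{0}) (hτ : τ.card ≤ ℵ₁) :
    ∃ G : SimpleGraph (Set.Iio τ),
      (¬ ∃ f : ℕ → Set.Iio τ, Injective f ∧ ∀ n, G.Adj (f n) (f (n + 1))) ∧
      ∀ S : Set (Set.Iio τ), (∀ x ∈ S, ∀ y ∈ S, ¬ G.Adj x y) →
        TPlt (Subtype.val '' S) (ω₁ ^ (ω + 2)) := by
  obtain ⟨row, F, h1, _, h3⟩ := St_all τ hτ
  obtain ⟨e, str, he, hstr⟩ := exists_e_str CH τ hτ
  obtain ⟨G, hG1, hG2⟩ := graph2 om_count om_unb (fun v : Set.Iio τ => row v.1) e he str hstr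
    (fun v => F v.1) (fun r => (r + 1) ^ 2) (fun v => h1 v.1)
  refine ⟨G, hG1, fun S hS => ?_⟩
  obtain ⟨ν, δ, hνδ⟩ := hG2 S hS
  set C : Set Ordinal.{0} := Subtype.val '' {v : Set.Iio τ | e v < δ} with hC
  have hCc : C.Countable := by
    apply Set.Countable.image
    exact Set.Countable.preimage_of_injOn (om_count δ) he.injOn
  refine TPlt_mono ?_ le_rfl (h3 ν C hCc)
  rintro x ⟨v, hv, rfl⟩
  refine ⟨v.2, ?_⟩
  rcases hνδ v hv with h | h
  · exact Or.inr ⟨v, h, rfl⟩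
  · exact Or.inl h

/-- order type form -/
theorem type_lt_of_TPlt {τ γ : Ordinal.{0}} (S : Set (Set.Iio τ)) (h : TPlt (Subtype.val '' S) γ) :
    Ordinal.type (fun a b : S => a < b) < Ordinal.lift.{1} γ := by
  obtain ⟨γ', hγ', φ, h1, h2⟩ := h
  have h3 : Ordinal.type (fun a b : Set.Iio γ' => a < b) = Ordinal.lift.{1} γ' := by
    rw [← Ordinal.typein_ordinal, ← Ordinal.type_Iio_lt]
  refine lt_of_le_of_lt (b := Ordinal.lift.{1} γ') ?_ (Ordinal.lift_lt.mpr hγ')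
  rw [← h3, Ordinal.type_le_iff']
  let g : S → Set.Iio γ' := fun x => ⟨φ x.1.1, h1 _ ⟨x.1, x.2, rfl⟩⟩
  have hg : ∀ a b : S, a < b → g a < g b := by
    intro a b hab
    exact h2 _ ⟨a.1, a.2, rfl⟩ _ ⟨b.1, b.2, rfl⟩ hab
  exact ⟨RelEmbedding.ofMonotone g hg⟩

theorem fails (CH : Cardinal.continuum.{0} = ℵ₁) (A τ : Ordinal.{0}) (hτ : τ.card ≤ ℵ₁)
    (h : ω₁ ^ (ω + 2) ≤ τ) : ¬ PathOrIndep (A + τ) := by
  classical
  intro hP
  obtain ⟨G, hG1, hG2⟩ := strong CH τ hτ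
  let G' : SimpleGraph (Set.Iio (A + τ)) :=
    { Adj := fun x y => ∃ a b : Set.Iio τ, x.1 = A + a.1 ∧ y.1 = A + b.1 ∧ G.Adj a b
      symm := ⟨fun x y ⟨a, b, h1, h2, h3⟩ => ⟨b, a, h2, h1, h3.symm⟩⟩
      loopless := ⟨fun x ⟨a, b, h1, h2, h3⟩ => by
        have : a = b := Subtype.ext (by
          have := h1.symm.trans h2
          exact add_left_cancel this)
        exact G.irrefl (this ▸ h3)⟩ }
  rcases hP G' with ⟨f, hf1, hf2⟩ | ⟨S, hS, ⟨g⟩⟩
  · apply hG1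
    choose a b ha hb hab using hf2
    refine ⟨a, ?_, ?_⟩
    · intro m n hmn
      apply hf1
      apply Subtype.ext
      rw [ha m, ha n, hmn]
    · intro n
      have h4 : b n = a (n + 1) := Subtype.ext (add_left_cancel ((hb n).symm.trans (ha (n + 1))))
      rw [← h4]
      exact hab n
  · -- the order isomorphism moves points up
    have hval : StrictMono (fun x : Set.Iio (A + τ) => (g.symm x).1.1) := by
      intro x y hxy
      exact g.symm.strictMono hxy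
    have hup := le_of_strictMono _ hval
    have hlt : ∀ a : Set.Iio τ, A + a.1 < A + τ := fun a => (add_lt_add_iff_left A).mpr a.2
    let sh : Set.Iio τ → Set.Iio (A + τ) := fun a => ⟨A + a.1, hlt a⟩
    have hsub : ∀ a : Set.Iio τ, ∃ c : Set.Iio τ, (g.symm (sh a)).1.1 = A + c.1 := by
      intro a
      have h5 : A ≤ (g.symm (sh a)).1.1 := le_trans le_self_add (hup (sh a))
      obtain ⟨c, hc⟩ := exists_add_of_le h5
      have h6 : A + c < A + τ := hc ▸ (g.symm (sh a)).1.2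
      exact ⟨⟨c, (add_lt_add_iff_left A).mp h6⟩, hc⟩
    choose c hc using hsub
    have hcmono : StrictMono c := by
      intro x y hxy
      have h7 : (g.symm (sh x)).1.1 < (g.symm (sh y)).1.1 := by
        apply hval
        exact (add_lt_add_iff_left A).mpr hxy
      rw [hc, hc, add_lt_add_iff_left] at h7
      exact h7
    obtain ⟨γ', hγ', φ, h1, h2⟩ := hG2 (Set.range c) (by
      rintro x ⟨a, rfl⟩ y ⟨b, rfl⟩ hadj
      exact hS _ (g.symm (sh a)).2 _ (g.symm (sh b)).2 ⟨c a, c b, hc a, hc b, hadj⟩)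
    have h8 : StrictMono (fun a : Set.Iio τ => φ (c a).1) := by
      intro x y hxy
      exact h2 _ ⟨c x, ⟨x, rfl⟩, rfl⟩ _ ⟨c y, ⟨y, rfl⟩, rfl⟩ (hcmono hxy)
    have h9 := le_of_strictMono _ h8 ⟨γ', lt_of_lt_of_le hγ' h⟩
    exact absurd h9 (not_le.mpr (h1 _ ⟨_, ⟨_, rfl⟩, rfl⟩))

theorem card_le_of_lt_om2 {τ : Ordinal.{0}} (h : τ < ω_ 2) : τ.card ≤ ℵ₁ := by
  rw [← Cardinal.ord_aleph, Cardinal.lt_ord] at h
  have h2 : (ℵ_ 2 : Cardinal.{0}) = Order.succ ℵ₁ := by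
    rw [Cardinal.succ_aleph, one_add_one_eq_two]
  rw [h2, Order.lt_succ_iff] at h
  exact h


/-- Combined form: under CH the property fails at every `α` with `ω₁ ^ (ω + 2) ≤ α % ω₂`. -/
theorem combined (CH : Cardinal.continuum.{0} = ℵ₁) :
    (∀ τ : Ordinal.{0}, τ < ω_ 2 → ∃ G : SimpleGraph (Set.Iio τ),
      (¬ ∃ v : ℕ → Set.Iio τ, Function.Injective v ∧ ∀ n, G.Adj (v n) (v (n + 1))) ∧
      ∀ S : Set (Set.Iio τ), (∀ x ∈ S, ∀ y ∈ S, ¬ G.Adj x y) →
        Ordinal.type (fun a b : S => a < b) < Ordinal.lift.{1} (ω₁ ^ (ω + 2) : Ordinal.{0})) ∧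
    (∀ α : Ordinal.{0}, ω₁ ^ (ω + 2) ≤ α % ω_ 2 → ∃ G : SimpleGraph (Set.Iio α),
      (¬ ∃ v : ℕ → Set.Iio α, Function.Injective v ∧ ∀ n, G.Adj (v n) (v (n + 1))) ∧
      ∀ S : Set (Set.Iio α), (∀ x ∈ S, ∀ y ∈ S, ¬ G.Adj x y) →
        Ordinal.type (fun a b : S => a < b) ≠ Ordinal.lift.{1} α) := by
  refine ⟨fun τ hτ => ?_, fun α hα => ?_⟩
  · obtain ⟨G, h1, h2⟩ := strong CH τ (card_le_of_lt_om2 hτ)
    exact ⟨G, h1, fun S hS => type_lt_of_TPlt S (h2 S hS)⟩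
  · by_contra hcon
    push Not at hcon
    have hmod : α % ω_ 2 < ω_ 2 := Ordinal.mod_lt _ (Ordinal.omega_pos 2).ne'
    have hf := fails CH (ω_ 2 * (α / ω_ 2)) (α % ω_ 2) (card_le_of_lt_om2 hmod) hα
    rw [Ordinal.div_add_mod] at hf
    apply hf
    intro G
    by_cases h : ∃ f : ℕ → Set.Iio α, Function.Injective f ∧ ∀ n, G.Adj (f n) (f (n + 1))
    · exact Or.inl h
    · right
      push Not at h
      obtain ⟨S, hS, heq⟩ := hcon G h
      refine ⟨S, hS, ?_⟩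
      have h1 : Ordinal.type (fun a b : Set.Iio α => a < b) = Ordinal.lift.{1} α := by
        rw [← Ordinal.typein_ordinal, ← Ordinal.type_Iio_lt]
      rw [← h1, Ordinal.type_eq] at heq
      obtain ⟨e⟩ := heq
      exact ⟨OrderIso.ofRelIsoLT e⟩

end H6.EHM
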