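import Mathlib

/-!
Every symmetric set of reals of cardinality at most `ℵ₁` belongs to the `σ`-algebra generated by
the additive subgroups of `ℝ`.
-/

open Cardinal Set MeasureTheory

namespace Pool.Agent.H6.Fbee

/-- The `σ`-algebra on `ℝ` generated by the additive subgroups. -/
def Bgrp : MeasurableSpace ℝ :=
  MeasurableSpace.generateFrom {S : Set ℝ | ∃ G : AddSubgroup ℝ, (G : Set ℝ) = S}

lemma meas_grp (G : AddSubgroup ℝ) : MeasurableSet[Bgrp] (G : Set ℝ) :=
  MeasurableSpace.measurableSet_generateFrom ⟨G, rfl⟩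

lemma meas_ker (h : ℝ →ₗ[ℚ] ℚ) : MeasurableSet[Bgrp] {x | h x = 0} := by
  have := meas_grp (h.toAddMonoidHom.ker)
  convert this using 1
  ext x
  simp [AddMonoidHom.mem_ker]

lemma meas_int (h : ℝ →ₗ[ℚ] ℚ) (k : ℕ) :
    MeasurableSet[Bgrp] {x | ∃ n : ℤ, h x = (k : ℚ) * n} := by
  let G : AddSubgroup ℝ :=
    { carrier := {x | ∃ n : ℤ, h x = (k : ℚ) * n}
      zero_mem' := ⟨0, by simp⟩
      add_mem' := by
        rintro a b ⟨n, hn⟩ ⟨m, hm⟩
        exact ⟨n + m, by rw [map_add, hn, hm]; push_cast; ring⟩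
      neg_mem' := by
        rintro a ⟨n, hn⟩
        exact ⟨-n, by rw [map_neg, hn]; push_cast; ring⟩ }
  exact meas_grp G

lemma meas_one (h : ℝ →ₗ[ℚ] ℚ) : MeasurableSet[Bgrp] {x | h x = 1 ∨ h x = -1} := by
  have : {x | h x = 1 ∨ h x = -1} = {x | ∃ n : ℤ, h x = ((1 : ℕ) : ℚ) * n} \
      ⋃ k : ℕ, {x | ∃ n : ℤ, h x = ((k + 2 : ℕ) : ℚ) * n} := by
    ext x
    simp only [mem_setOf_eq, mem_diff, mem_iUnion, not_exists]
    constructor
    · intro hx
      have key : ∃ m : ℤ, h x = m ∧ (m = 1 ∨ m = -1) := by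
        rcases hx with hx | hx
        · exact ⟨1, by simp [hx], Or.inl rfl⟩
        · exact ⟨-1, by simp [hx], Or.inr rfl⟩
      obtain ⟨m, hm, hm'⟩ := key
      refine ⟨⟨m, by simp [hm]⟩, fun k n hn => ?_⟩
      rw [hm] at hn
      have h2 : m = ((k + 2 : ℕ) : ℤ) * n := by exact_mod_cast hn
      have h3 : ((k + 2 : ℕ) : ℤ) ∣ m := ⟨n, h2⟩
      have h4 : ((k + 2 : ℕ) : ℤ) ∣ 1 := by
        rcases hm' with rfl | rfl
        · exact h3
        · exact (Int.dvd_neg).1 h3
      have h5 := Int.le_of_dvd one_pos h4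
      push_cast at h5
      omega
    · rintro ⟨⟨n, hn⟩, hk⟩
      simp only [Nat.cast_one, one_mul] at hn
      by_contra hcon
      push Not at hcon
      have hn1 : n ≠ 1 := by rintro rfl; exact hcon.1 (by simp [hn])
      have hn2 : n ≠ -1 := by rintro rfl; exact hcon.2 (by simp [hn])
      rcases eq_or_ne n 0 with h0 | h0
      · exact hk 0 0 (by simp [hn, h0])
      · have h6 : 2 ≤ n.natAbs := by omega
        obtain ⟨k, hk2⟩ := Nat.exists_eq_add_of_le h6
        refine hk k n.sign ?_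
        rw [hn]
        have h7 : n = ((k + 2 : ℕ) : ℤ) * n.sign := by
          have h8 := Int.sign_mul_natAbs n
          rw [hk2] at h8
          rw [mul_comm, add_comm k 2]
          exact h8.symm
        exact_mod_cast h7
  rw [this]
  refine MeasurableSet.diff (meas_int h 1) (MeasurableSet.iUnion fun k => meas_int h (k + 2))

/-- `±L` for a linearly independent set `L`. -/
lemma meas_indep (L : Set ℝ) (hL : LinearIndepOn ℚ id L) :
    MeasurableSet[Bgrp] {x | x ∈ L ∨ -x ∈ L} := by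
  classical
  set B : Set ℝ := hL.extend (subset_univ _) with hB
  let b : Module.Basis B ℚ ℝ := Module.Basis.extend hL
  have hLB : L ⊆ B := hL.subset_extend _
  have hb : ∀ i : B, b i = (i : ℝ) := fun i => Module.Basis.extend_apply_self hL i
  let hS : Set ℝ → (ℝ →ₗ[ℚ] ℚ) := fun S =>
    b.constr ℚ (fun i : B => if (i : ℝ) ∈ S then (1 : ℚ) else 0)
  have hSb : ∀ S (i : B), hS S (b i) = if (i : ℝ) ∈ S then (1 : ℚ) else 0 := by
    intro S i
    simp only [hS, Module.Basis.constr_basis]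
  have hSx : ∀ S x, hS S x = ∑ i ∈ (b.repr x).support, if (i : ℝ) ∈ S then b.repr x i else 0 := by
    intro S x
    simp only [hS, Module.Basis.constr_apply, Finsupp.sum]
    refine Finset.sum_congr rfl fun i _ => ?_
    split_ifs <;> simp
  let M : AddSubgroup ℝ :=
    { carrier := {x | ∀ i : B, (i : ℝ) ∉ L → b.repr x i = 0}
      zero_mem' := by intro i _; simp
      add_mem' := by
        intro x y hx hy i hi
        rw [map_add, Finsupp.add_apply, hx i hi, hy i hi, add_zero]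
      neg_mem' := by
        intro x hx i hi
        rw [map_neg, Finsupp.neg_apply, hx i hi, neg_zero] }
  have key : {x | x ∈ L ∨ -x ∈ L} = (M : Set ℝ) ∩ {x | hS univ x = 1 ∨ hS univ x = -1} ∩
      ⋂ (pq : ℚ × ℚ), ({x | hS (Ioo (pq.1 : ℝ) pq.2) x = 0} ∪
        {x | (hS (Ioo (pq.1 : ℝ) pq.2) - hS univ) x = 0}) := by
    ext x
    simp only [mem_setOf_eq, mem_inter_iff, mem_iInter, mem_union]
    constructor
    · have main : ∀ y ∈ L, ∀ ε : ℚ, (ε = 1 ∨ ε = -1) → x = ε • y → (x ∈ (M : Set ℝ) ∧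
          (hS univ x = 1 ∨ hS univ x = -1)) ∧ ∀ i : ℚ × ℚ, hS (Ioo (i.1 : ℝ) i.2) x = 0 ∨
            (hS (Ioo (i.1 : ℝ) i.2) - hS univ) x = 0 := by
        intro y hy ε hε hx
        have hxb : x = ε • b ⟨y, hLB hy⟩ := by rw [hb]; exact hx
        refine ⟨⟨?_, ?_⟩, ?_⟩
        · intro i hi
          rw [hxb, map_smul, Module.Basis.repr_self]
          have : (⟨y, hLB hy⟩ : B) ≠ i := by
            rintro rfl
            exact hi hy
          simp [Finsupp.single_apply, this]
        · rw [hxb, map_smul, hSb]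
          simpa using hε
        · intro pq
          rw [hxb, LinearMap.sub_apply, map_smul, map_smul, hSb, hSb]
          by_cases h : y ∈ Ioo (pq.1 : ℝ) pq.2
          · right
            rw [if_pos h, if_pos (mem_univ _), sub_self]
          · left
            rw [if_neg h, smul_zero]
      rintro (h | h)
      · exact main x h 1 (Or.inl rfl) (by simp)
      · exact main (-x) h (-1) (Or.inr rfl) (by simp)
    · rintro ⟨⟨hM, h1⟩, hE⟩
      set f := b.repr x with hf
      have hfj : ∀ j ∈ f.support, f j = hS univ x := by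
        intro j hj
        -- separate `j` from the rest of the support
        have hfin : ((fun i : B => (i : ℝ)) '' ((f.support.erase j : Finset B) : Set B)).Finite :=
          (Finset.finite_toSet _).image _
        have hopen : IsOpen (((fun i : B => (i : ℝ)) '' ((f.support.erase j : Finset B) : Set B))ᶜ) :=
          hfin.isClosed.isOpen_compl
        have hjm : (j : ℝ) ∈ (((fun i : B => (i : ℝ)) '' ((f.support.erase j : Finset B) : Set B))ᶜ) := by
          rintro ⟨i, hi, hij⟩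
          have : i = j := Subtype.ext hij
          simp [this] at hi
        obtain ⟨l, u, hlu, hsub⟩ := mem_nhds_iff_exists_Ioo_subset.1 (hopen.mem_nhds hjm)
        obtain ⟨p, hp1, hp2⟩ := exists_rat_btwn hlu.1
        obtain ⟨q, hq1, hq2⟩ := exists_rat_btwn hlu.2
        have hval : hS (Ioo (p : ℝ) q) x = f j := by
          rw [hSx, Finset.sum_eq_single_of_mem j hj]
          · rw [if_pos ⟨hp2, hq1⟩]
          · intro i hi hij
            rw [if_neg]
            intro hmem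
            have : (i : ℝ) ∈ (((fun i : B => (i : ℝ)) '' ((f.support.erase j : Finset B) : Set B))ᶜ) :=
              hsub ⟨hp1.trans hmem.1, hmem.2.trans hq2⟩
            exact this ⟨i, by simpa [hij] using hi, rfl⟩
        have := hE (p, q)
        simp only [LinearMap.sub_apply] at this
        rw [hval] at this
        rcases this with h | h
        · exact absurd h (Finsupp.mem_support_iff.1 hj)
        · linarith
      have hsum : hS univ x = ∑ i ∈ f.support, f i := by
        rw [hSx]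
        exact Finset.sum_congr rfl fun i _ => by simp [hf]
      have hsum2 : hS univ x = f.support.card * hS univ x := by
        conv_lhs => rw [hsum, Finset.sum_congr rfl hfj]
        simp
      have hne : hS univ x ≠ 0 := by
        rcases h1 with h | h <;> rw [h] <;> norm_num
      have hcard : f.support.card = 1 := by
        have : (f.support.card : ℚ) = 1 := by
          have h3 : ((f.support.card : ℚ) - 1) * hS univ x = 0 := by linarith
          rcases mul_eq_zero.1 h3 with h | h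
          · linarith
          · exact absurd h hne
        exact_mod_cast this
      obtain ⟨j, hj⟩ := Finset.card_eq_one.1 hcard
      have hjs : j ∈ f.support := by rw [hj]; simp
      have hxj : x = hS univ x • (j : ℝ) := by
        have h4 := b.linearCombination_repr x
        rw [Finsupp.linearCombination_apply, Finsupp.sum, ← hf, hj, Finset.sum_singleton,
          hfj j hjs, hb] at h4
        exact h4.symm
      have hjL : (j : ℝ) ∈ L := by
        by_contra hjL
        exact Finsupp.mem_support_iff.1 hjs (hM j hjL)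
      rcases h1 with h | h
      · left
        rw [h, one_smul] at hxj
        rw [hxj]; exact hjL
      · right
        rw [h] at hxj
        have : -x = (j : ℝ) := by
          rw [hxj]; simp
        rw [this]; exact hjL
  rw [key]
  refine MeasurableSet.inter (MeasurableSet.inter (meas_grp M) (meas_one _)) ?_
  refine MeasurableSet.iInter fun pq => ?_
  exact MeasurableSet.union (meas_ker _) (meas_ker _)

lemma exists_order (Z : Set ℝ) (hZ : #Z ≤ ℵ₁) : ∃ (I : Type) (_ : LinearOrder I)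
    (_ : WellFoundedLT I) (e : Z → I), Function.Injective e ∧ ∀ a : I, (Iic a).Countable := by
  refine ⟨(ℵ₁ : Cardinal.{0}).ord.ToType, inferInstance, inferInstance, ?_⟩
  have h1 : #Z ≤ #((ℵ₁ : Cardinal.{0}).ord.ToType) := by
    rw [Cardinal.mk_toType, Cardinal.card_ord]; exact hZ
  obtain ⟨e⟩ := h1
  refine ⟨e, e.injective, fun a => ?_⟩
  have h2 : #(Iio a) < ℵ₁ := by
    have := mk_Iio_lt a (by simp)
    rwa [mk_ord_toType] at this
  have h3 : (Iio a).Countable := by
    rw [← Cardinal.le_aleph0_iff_set_countable]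
    have h4 : #(Iio a) < Order.succ ℵ₀ := by rw [Cardinal.succ_aleph0]; exact h2
    exact Order.lt_succ_iff.1 h4
  rw [← Iio_union_right]
  exact h3.union (countable_singleton a)

lemma span_countable (s : Set ℝ) (hs : s.Countable) :
    ((Submodule.span ℚ s : Submodule ℚ ℝ) : Set ℝ).Countable := by
  have : Countable s := hs.to_subtype
  rw [← Subtype.range_coe (s := s), ← Finsupp.range_linearCombination]
  exact countable_range _

lemma decomp (Z : Set ℝ) (hZ : #Z ≤ ℵ₁) :
    ∃ c : ℝ → ℕ, ∀ n, LinearIndepOn ℚ id {x | x ∈ Z ∧ x ≠ 0 ∧ c x = n} := by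
  classical
  obtain ⟨I, _, _, e, he, hI⟩ := exists_order Z hZ
  let W : I → Submodule ℚ ℝ := fun α => Submodule.span ℚ {z : ℝ | ∃ h : z ∈ Z, e ⟨z, h⟩ ≤ α}
  have hWmono : ∀ {α β}, α ≤ β → W α ≤ W β := by
    intro α β h
    exact Submodule.span_mono fun z ⟨hz, h2⟩ => ⟨hz, h2.trans h⟩
  have hWc : ∀ α, ((W α : Submodule ℚ ℝ) : Set ℝ).Countable := by
    intro α
    refine span_countable _ ?_
    have h1 : (e ⁻¹' (Iic α)).Countable := (hI α).preimage he
    refine (h1.image Subtype.val).mono ?_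
    rintro z ⟨hz, h2⟩
    exact ⟨⟨z, hz⟩, h2, rfl⟩
  have hex : ∀ x ∈ Z, ∃ α, x ∈ W α ∧ ∀ β < α, x ∉ W β := by
    intro x hx
    have hne : ({α | x ∈ W α} : Set I).Nonempty :=
      ⟨e ⟨x, hx⟩, Submodule.subset_span ⟨hx, le_rfl⟩⟩
    have hmin := WellFounded.min_mem (wellFounded_lt : WellFounded ((· < ·) : I → I → Prop))
      {α | x ∈ W α} hne
    refine ⟨_, hmin, fun β hβ h => ?_⟩
    exact WellFounded.not_lt_min (wellFounded_lt : WellFounded ((· < ·) : I → I → Prop))
      {α | x ∈ W α} h hβ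
  choose ρ hρ1 hρ2 using hex
  have hinj : ∀ α, ∃ f : ℝ → ℕ, InjOn f (W α : Set ℝ) := fun α =>
    Set.countable_iff_exists_injOn.1 (hWc α)
  choose c hc using hinj
  refine ⟨fun x => if hx : x ∈ Z then c (ρ x hx) x else 0, fun n => ?_⟩
  set L : Set ℝ := {x | x ∈ Z ∧ x ≠ 0 ∧ (if hx : x ∈ Z then c (ρ x hx) x else 0) = n} with hL
  have hLinj : ∀ x y : L, ρ x.1 x.2.1 = ρ y.1 y.2.1 → x = y := by
    rintro ⟨x, hx, hx0, hxn⟩ ⟨y, hy, hy0, hyn⟩ h
    simp only at h
    rw [dif_pos hx] at hxn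
    rw [dif_pos hy] at hyn
    have h1 : x ∈ W (ρ x hx) := hρ1 x hx
    have h2 : y ∈ W (ρ x hx) := by rw [h]; exact hρ1 y hy
    have h3 : c (ρ x hx) x = c (ρ x hx) y := by
      rw [hxn, ← hyn, h]
    exact Subtype.ext (hc (ρ x hx) h1 h2 h3)
  change LinearIndependent ℚ (fun x : L => id (x : ℝ))
  rw [linearIndependent_iff']
  intro s g hg
  by_contra hcon
  push Not at hcon
  obtain ⟨i0, hi0, hgi0⟩ := hcon
  set T := s.filter (fun i => g i ≠ 0) with hT
  have hTne : T.Nonempty := ⟨i0, by simp [hT, hi0, hgi0]⟩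
  obtain ⟨m, hm, hmax⟩ := T.exists_max_image (fun i => ρ i.1 i.2.1) hTne
  have hgm : g m ≠ 0 := (Finset.mem_filter.1 hm).2
  have hsumT : ∑ i ∈ T, g i • (i : ℝ) = 0 := by
    rw [← hg, hT, Finset.sum_filter]
    refine Finset.sum_congr rfl fun i _ => ?_
    by_cases h : g i = 0
    · simp [h]
    · simp [h]
  rw [← Finset.add_sum_erase T _ hm] at hsumT
  have hxm : g m • (m : ℝ) = -∑ i ∈ T.erase m, g i • (i : ℝ) := eq_neg_of_add_eq_zero_left hsumT
  have hlt : ∀ i ∈ T.erase m, ρ i.1 i.2.1 < ρ m.1 m.2.1 := by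
    intro i hi
    refine lt_of_le_of_ne (hmax i (Finset.mem_of_mem_erase hi)) fun h => ?_
    exact (Finset.ne_of_mem_erase hi) (hLinj i m h)
  rcases (T.erase m).eq_empty_or_nonempty with hemp | hne
  · rw [hemp, Finset.sum_empty, neg_zero] at hxm
    rcases smul_eq_zero.1 hxm with h | h
    · exact hgm h
    · exact m.2.2.1 h
  · obtain ⟨m', hm', hmax'⟩ := (T.erase m).exists_max_image (fun i => ρ i.1 i.2.1) hne
    have h1 : (∑ i ∈ T.erase m, g i • (i : ℝ)) ∈ W (ρ m'.1 m'.2.1) := by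
      refine Submodule.sum_mem _ fun i hi => Submodule.smul_mem _ _ ?_
      exact hWmono (hmax' i hi) (hρ1 i.1 i.2.1)
    have h2 : g m • (m : ℝ) ∈ W (ρ m'.1 m'.2.1) := by
      rw [hxm]; exact Submodule.neg_mem _ h1
    have h3 : (m : ℝ) ∈ W (ρ m'.1 m'.2.1) := (Submodule.smul_mem_iff _ hgm).1 h2
    exact hρ2 m.1 m.2.1 _ (hlt m' hm') h3

/-- An abstract form of the necessary condition. -/
lemma partC_aux {X : Type} [MeasurableSpace X] (hX : ∀ s : Set X, MeasurableSet s)
    (b : Module.Basis (X ⊕ X) ℚ ℝ)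
    (hQ : ∀ Z : Set ℝ, (∀ z ∈ Z, -z ∈ Z) → MeasurableSet[Bgrp] Z) (A : Set (X × X)) :
    MeasurableSet A := by
  classical
  let φ : X × X → ℝ := fun p => b (Sum.inl p.1) + b (Sum.inr p.2)
  have hφ : @Measurable (X × X) ℝ _ Bgrp φ := by
    refine measurable_generateFrom ?_
    rintro _ ⟨G, rfl⟩
    let u : X → ℝ := fun x => ((QuotientAddGroup.mk (b (Sum.inl x)) : ℝ ⧸ G)).out
    let v : X → ℝ := fun x => ((QuotientAddGroup.mk (-b (Sum.inr x)) : ℝ ⧸ G)).out
    have hu : Measurable u := fun s _ => hX _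
    have hv : Measurable v := fun s _ => hX _
    have heq : φ ⁻¹' (G : Set ℝ) = {p | u p.1 = v p.2} := by
      ext p
      change (b (Sum.inl p.1) + b (Sum.inr p.2) ∈ G) ↔ _
      change _ ↔ (((QuotientAddGroup.mk (b (Sum.inl p.1)) : ℝ ⧸ G)).out =
        ((QuotientAddGroup.mk (-b (Sum.inr p.2)) : ℝ ⧸ G)).out)
      rw [Quotient.out_inj, QuotientAddGroup.eq, ← neg_add, neg_mem_iff]
    rw [heq]
    exact measurableSet_eq_fun (hu.comp measurable_fst) (hv.comp measurable_snd)
  have hinj : ∀ p q : X × X, ∀ ε : ℚ, φ p = ε • φ q → p = q ∧ ε = 1 := by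
    intro p q ε h
    have h1 := congrArg (fun x => b.repr x (Sum.inl p.1)) h
    have h2 := congrArg (fun x => b.repr x (Sum.inr p.2)) h
    simp only [φ, map_add, map_smul, Module.Basis.repr_self, Finsupp.add_apply,
      Finsupp.smul_apply, Finsupp.single_apply, Sum.inl.injEq, Sum.inr.injEq, reduceCtorEq,
      if_true, if_false, add_zero, zero_add, smul_eq_mul] at h1 h2
    have h3 : q.1 = p.1 := by
      by_contra hne
      rw [if_neg hne] at h1
      simp at h1
    have h4 : q.2 = p.2 := by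
      by_contra hne
      rw [if_neg hne] at h2
      simp at h2
    refine ⟨Prod.ext h3.symm h4.symm, ?_⟩
    rw [if_pos h3] at h1
    linarith
  have hZ : MeasurableSet[Bgrp] {x | x ∈ φ '' A ∨ -x ∈ φ '' A} := by
    refine hQ _ fun z hz => ?_
    rcases hz with h | h
    · exact Or.inr (by rwa [neg_neg])
    · exact Or.inl h
  have hpre : φ ⁻¹' {x | x ∈ φ '' A ∨ -x ∈ φ '' A} = A := by
    ext p
    constructor
    · rintro (⟨q, hq, hqp⟩ | ⟨q, hq, hqp⟩)
      · have := (hinj q p 1 (by rw [one_smul]; exact hqp)).1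
        rwa [← this]
      · have := (hinj q p (-1) (by rw [hqp]; simp)).2
        norm_num at this
    · intro hp
      exact Or.inl ⟨p, hp, rfl⟩
  rw [← hpre]
  exact hφ hZ

/-- If every symmetric set of reals lies in the `σ`-algebra generated by the additive subgroups,
then every subset of the plane lies in the `σ`-algebra generated by **all** rectangles `S × T`. -/
lemma partC (hQ : ∀ Z : Set ℝ, (∀ z ∈ Z, -z ∈ Z) → MeasurableSet[Bgrp] Z) (A : Set (ℝ × ℝ)) :
    MeasurableSet[MeasurableSpace.generateFrom {R : Set (ℝ × ℝ) | ∃ S T : Set ℝ, R = S ×ˢ T}] A := by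
  have hrank : #(Module.Basis.ofVectorSpaceIndex ℚ ℝ) = #(ℝ ⊕ ℝ) := by
    rw [(Module.Basis.ofVectorSpace ℚ ℝ).mk_eq_rank'', Real.rank_rat_real]
    simp [mk_real]
  obtain ⟨eqv⟩ := Cardinal.eq.1 hrank
  let b : Module.Basis (ℝ ⊕ ℝ) ℚ ℝ := (Module.Basis.ofVectorSpace ℚ ℝ).reindex eqv
  have h1 := @partC_aux ℝ ⊤ (fun _ => trivial) b hQ A
  have h2 : @Prod.instMeasurableSpace ℝ ℝ ⊤ ⊤ =
      MeasurableSpace.generateFrom {R : Set (ℝ × ℝ) | ∃ S T : Set ℝ, R = S ×ˢ T} := by
    have h3 := @generateFrom_prod ℝ ℝ ⊤ ⊤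
    rw [← h3]
    congr 1
    ext R
    constructor
    · rintro ⟨S, _, T, _, rfl⟩
      exact ⟨S, T, rfl⟩
    · rintro ⟨S, T, rfl⟩
      exact ⟨S, trivial, T, trivial, rfl⟩
  rw [← h2]
  exact h1

lemma mk_Iic_ord' {κ : Cardinal.{0}} (hκ : ℵ₀ ≤ κ) (i : κ.ord.ToType) : #(Iic i) < κ := by
  have h0 : #(Iio i) < κ := by
    have := mk_Iio_lt i (by simp)
    rwa [mk_ord_toType] at this
  have h1 : (Iic i : Set κ.ord.ToType) = insert i (Iio i) := by
    ext x; simp [le_iff_eq_or_lt]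
  rw [h1]
  refine lt_of_le_of_lt (mk_insert_le) ?_
  exact add_lt_of_lt hκ h0 (lt_of_lt_of_le one_lt_aleph0 hκ)

/-- A diffuse probability measure defined on all subsets of `X` is incompatible with all subsets
of `X × X` being in the product `σ`-algebra. -/
lemma partD_aux {X : Type} [MeasurableSpace X] (hX : ∀ s : Set X, MeasurableSet s)
    (μ : Measure X) [IsProbabilityMeasure μ] (h0 : ∀ x, μ {x} = 0) :
    ∃ A : Set (X × X), ¬ MeasurableSet A := by
  classical
  by_contra hcon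
  push Not at hcon
  have hna : NullSingletonClass μ := ⟨h0⟩
  let C : Set Cardinal.{0} := {κ | ∃ S : Set X, #S = κ ∧ μ S ≠ 0}
  have hCne : C.Nonempty := ⟨#(univ : Set X), univ, rfl, by simp⟩
  obtain ⟨S, hS, hμS⟩ : sInf C ∈ C := csInf_mem hCne
  have hmin : ∀ T : Set X, #T < sInf C → μ T = 0 := by
    intro T hT
    by_contra h
    exact not_le_of_gt hT (csInf_le' ⟨T, rfl, h⟩)
  have hinf : ℵ₀ ≤ sInf C := by
    by_contra hlt
    push Not at hlt
    rw [← hS] at hlt
    have hfin : S.Finite := Cardinal.lt_aleph0_iff_set_finite.1 hlt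
    exact hμS (hfin.measure_zero μ)
  have hle : #S ≤ #((sInf C).ord.ToType) := by
    rw [Cardinal.mk_toType, Cardinal.card_ord, hS]
  obtain ⟨e⟩ := hle
  let A : Set (X × X) := {p | ∃ (h1 : p.1 ∈ S) (h2 : p.2 ∈ S), e ⟨p.1, h1⟩ < e ⟨p.2, h2⟩}
  have hA : MeasurableSet A := hcon A
  have hsmall : ∀ a : (sInf C).ord.ToType,
      μ (Subtype.val '' (e ⁻¹' (Iic a))) = 0 := by
    intro a
    refine hmin _ ?_
    refine lt_of_le_of_lt mk_image_le ?_
    exact lt_of_le_of_lt (mk_preimage_of_injective _ _ e.injective) (mk_Iic_ord' hinf a)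
  have hprod : (μ.prod μ) A = 0 := by
    rw [Measure.prod_apply_symm hA]
    have : ∀ y, μ ((fun x => (x, y)) ⁻¹' A) = 0 := by
      intro y
      by_cases hy : y ∈ S
      · refine measure_mono_null ?_ (hsmall (e ⟨y, hy⟩))
        rintro x ⟨h1, h2, h3⟩
        exact ⟨⟨x, h1⟩, h3.le, rfl⟩
      · have : ((fun x => (x, y)) ⁻¹' A) = ∅ := by
          ext x
          simp only [mem_empty_iff_false, iff_false]
          rintro ⟨h1, h2, h3⟩
          exact hy h2
        rw [this, measure_empty]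
    simp [this]
  rw [Measure.measure_prod_null hA] at hprod
  have hSnull : μ S = 0 := by
    have h5 : μ {x | ¬ (μ (Prod.mk x ⁻¹' A) = 0)} = 0 := hprod
    refine measure_mono_null ?_ h5
    intro x hx hz
    apply hμS
    refine measure_mono_null ?_ (measure_union_null hz (hsmall (e ⟨x, hx⟩)))
    intro y hy
    by_cases h : e ⟨x, hx⟩ < e ⟨y, hy⟩
    · exact Or.inl ⟨hx, hy, h⟩
    · exact Or.inr ⟨⟨y, hy⟩, not_lt.1 h, rfl⟩
  exact hμS hSnull

/-- If there is a countably additive probability measure defined on all sets of reals and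
vanishing on singletons, some symmetric set of reals is not in `B_grp`. -/
lemma partD (μ : @Measure ℝ ⊤) (h1 : μ univ = 1) (h0 : ∀ x, μ {x} = 0) :
    ∃ Z : Set ℝ, (∀ z ∈ Z, -z ∈ Z) ∧ ¬ MeasurableSet[Bgrp] Z := by
  by_contra hcon
  push Not at hcon
  have hrank : #(Module.Basis.ofVectorSpaceIndex ℚ ℝ) = #(ℝ ⊕ ℝ) := by
    rw [(Module.Basis.ofVectorSpace ℚ ℝ).mk_eq_rank'', Real.rank_rat_real]
    simp [mk_real]
  obtain ⟨eqv⟩ := Cardinal.eq.1 hrank
  let b : Module.Basis (ℝ ⊕ ℝ) ℚ ℝ := (Module.Basis.ofVectorSpace ℚ ℝ).reindex eqv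
  obtain ⟨A, hA⟩ := @partD_aux ℝ ⊤ (fun _ => trivial) μ ⟨h1⟩ h0
  exact hA (@partC_aux ℝ ⊤ (fun _ => trivial) b hcon A)

/-- Every homomorphism is measurable. -/
lemma hom_meas (φ : ℝ →ₗ[ℚ] ℝ) : @Measurable ℝ ℝ Bgrp Bgrp φ := by
  refine @measurable_generateFrom ℝ ℝ Bgrp _ _ ?_
  rintro _ ⟨G, rfl⟩
  exact meas_grp (G.comap φ.toAddMonoidHom)

open Classical in
/-- Projection to the coordinates in `S`. -/
noncomputable def pr (b : Module.Basis ℝ ℚ ℝ) (S : Set ℝ) : ℝ →ₗ[ℚ] ℝ where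
  toFun x := b.repr.symm ((b.repr x).filter (· ∈ S))
  map_add' x y := by simp [Finsupp.filter_add]
  map_smul' c x := by simp [Finsupp.filter_smul]

open Classical in
lemma repr_pr (b : Module.Basis ℝ ℚ ℝ) (S : Set ℝ) (x : ℝ) :
    b.repr (pr b S x) = (b.repr x).filter (· ∈ S) := by
  simp [pr]

/-- Sum of the coordinates in `S`. -/
noncomputable def cs (b : Module.Basis ℝ ℚ ℝ) (S : Set ℝ) : ℝ →ₗ[ℚ] ℚ :=
  (b.constr ℚ (fun _ => (1 : ℚ))) ∘ₗ pr b S

lemma cs_apply (b : Module.Basis ℝ ℚ ℝ) (S : Set ℝ) (x : ℝ) :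
    cs b S x = ∑ i ∈ (b.repr (pr b S x)).support, b.repr (pr b S x) i := by
  simp [cs, Module.Basis.constr_apply, Finsupp.sum]

/-- Elements with support of size `n`. -/
def XX (b : Module.Basis ℝ ℚ ℝ) (n : ℕ) : Set ℝ := {x | (b.repr x).support.card = n}

lemma cs_ne (b : Module.Basis ℝ ℚ ℝ) (S : Set ℝ) (x : ℝ) (h : pr b S x ∈ XX b 1) :
    cs b S x ≠ 0 := by
  obtain ⟨i, hi⟩ := Finset.card_eq_one.1 (show (b.repr (pr b S x)).support.card = 1 from h)
  rw [cs_apply, hi, Finset.sum_singleton]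
  exact Finsupp.mem_support_iff.1 (by rw [hi]; simp)

lemma P_one (b : Module.Basis ℝ ℚ ℝ) (Z : Set ℝ) (hs : ∀ z ∈ Z, -z ∈ Z) (hZ : Z ⊆ XX b 1) :
    MeasurableSet[Bgrp] Z := by
  have hdec : Z = ⋃ q : ℚ, {x | x ∈ {x | x ∈ Z ∧ ∃ i, x = q • b i} ∨
      -x ∈ {x | x ∈ Z ∧ ∃ i, x = q • b i}} := by
    ext x
    constructor
    · intro hx
      obtain ⟨i, hi⟩ := Finset.card_eq_one.1 (show (b.repr x).support.card = 1 from hZ hx)
      refine mem_iUnion.2 ⟨b.repr x i, Or.inl ⟨hx, i, ?_⟩⟩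
      have h4 := b.linearCombination_repr x
      rw [Finsupp.linearCombination_apply, Finsupp.sum, hi, Finset.sum_singleton] at h4
      exact h4.symm
    · intro hx
      obtain ⟨q, h | h⟩ := mem_iUnion.1 hx
      · exact h.1
      · have := hs _ h.1
        rwa [neg_neg] at this
  rw [hdec]
  refine MeasurableSet.iUnion fun q => meas_indep _ ?_
  by_cases hq : q = 0
  · have : {x | x ∈ Z ∧ ∃ i, x = q • b i} = ∅ := by
      ext x
      simp only [mem_empty_iff_false, iff_false]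
      rintro ⟨hx, i, hxi⟩
      rw [hq, zero_smul] at hxi
      have := hZ hx
      rw [hxi] at this
      simp [XX] at this
    rw [this]
    exact linearIndepOn_empty _ _
  · have h1 := (b.unitsSMul (fun _ => Units.mk0 q hq)).linearIndependent.linearIndepOn_id
    refine h1.mono ?_
    rintro x ⟨_, i, rfl⟩
    exact ⟨i, by rw [Module.Basis.unitsSMul_apply]; rfl⟩

lemma meas_pos (f g : ℝ →ₗ[ℚ] ℚ) : MeasurableSet[Bgrp] {x | 0 < f x * g x} := by
  have : {x | 0 < f x * g x} = (⋃ a : {a : ℚ // 0 < a}, {x | (f - (a : ℚ) • g) x = 0}) \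
      {x | g x = 0} := by
    ext x
    simp only [mem_setOf_eq, mem_diff, mem_iUnion, LinearMap.sub_apply, LinearMap.smul_apply,
      smul_eq_mul]
    constructor
    · intro h
      have hg : g x ≠ 0 := by
        intro h0
        rw [h0, mul_zero] at h
        exact lt_irrefl _ h
      refine ⟨⟨⟨f x / g x, ?_⟩, ?_⟩, hg⟩
      · have h2 : f x / g x = f x * g x / (g x * g x) := by field_simp
        rw [h2]
        exact div_pos h (mul_self_pos.2 hg)
      · simp only
        field_simp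
        ring
    · rintro ⟨⟨⟨a, ha⟩, h⟩, hg⟩
      have h2 : f x = a * g x := by simpa [sub_eq_zero] using h
      rw [h2, mul_assoc]
      exact mul_pos ha (mul_self_pos.2 hg)
  rw [this]
  exact @MeasurableSet.diff ℝ Bgrp _ _ (MeasurableSet.iUnion fun a => meas_ker _) (meas_ker _)

lemma P_step (b : Module.Basis ℝ ℚ ℝ) (hR : ∀ A : Set (ℝ × ℝ), MeasurableSet[
      MeasurableSpace.generateFrom {R : Set (ℝ × ℝ) | ∃ S T : Set ℝ, R = S ×ˢ T}] A)
    (n : ℕ) (hn : 1 ≤ n)
    (ih : ∀ Z : Set ℝ, (∀ z ∈ Z, -z ∈ Z) → Z ⊆ XX b n → MeasurableSet[Bgrp] Z)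
    (Z : Set ℝ) (hs : ∀ z ∈ Z, -z ∈ Z) (hZ : Z ⊆ XX b (n + 1)) : MeasurableSet[Bgrp] Z := by
  classical
  let A : ℚ × ℚ × ℚ → Set ℝ := fun t => {x | pr b (Iio (t.1 : ℝ)) x ∈ XX b 1 ∧
    pr b (Ici (t.1 : ℝ)) x ∈ XX b n ∧ pr b (Ioo (t.2.1 : ℝ) t.2.2) x ∈ XX b 1 ∧ t.1 ≤ t.2.1}
  have hXneg : ∀ m, ∀ z ∈ XX b m, -z ∈ XX b m := by
    intro m z hz
    change (b.repr (-z)).support.card = m
    rw [map_neg, Finsupp.support_neg]; exact hz
  have hX1 : MeasurableSet[Bgrp] (XX b 1) := P_one b _ (hXneg 1) subset_rfl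
  have hXn : MeasurableSet[Bgrp] (XX b n) := ih _ (hXneg n) subset_rfl
  have hA : ∀ t, MeasurableSet[Bgrp] (A t) := by
    intro t
    refine @MeasurableSet.inter ℝ Bgrp _ _ (hom_meas (pr b (Iio (t.1 : ℝ))) hX1) ?_
    refine @MeasurableSet.inter ℝ Bgrp _ _ (hom_meas (pr b (Ici (t.1 : ℝ))) hXn) ?_
    refine @MeasurableSet.inter ℝ Bgrp _ _ (hom_meas (pr b (Ioo (t.2.1 : ℝ) t.2.2)) hX1) ?_
    exact @MeasurableSet.const ℝ Bgrp _
  have hcov : ∀ x ∈ Z, ∃ t, x ∈ A t := by
    intro x hx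
    set s := (b.repr x).support with hsdef
    have hcard : s.card = n + 1 := hZ hx
    have hsne : s.Nonempty := Finset.card_pos.1 (by omega)
    set m := s.min' hsne with hm
    have hms : m ∈ s := Finset.min'_mem _ _
    have hcard2 : (s.erase m).card = n := by rw [Finset.card_erase_of_mem hms]; omega
    have hne2 : (s.erase m).Nonempty := Finset.card_pos.1 (by omega)
    set m2 := (s.erase m).min' hne2 with hm2
    have hm2s : m2 ∈ s.erase m := Finset.min'_mem _ _
    have hlt : m < m2 := lt_of_le_of_ne (Finset.min'_le _ _ (Finset.mem_of_mem_erase hm2s))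
      (Finset.ne_of_mem_erase hm2s).symm
    obtain ⟨r, hr1, hr2⟩ := exists_rat_btwn hlt
    have hopen : IsOpen ((((s.erase m2 : Finset ℝ) : Set ℝ)ᶜ) ∩ Ioi (r : ℝ)) :=
      ((Finset.finite_toSet _).isClosed.isOpen_compl).inter isOpen_Ioi
    have hmem : m2 ∈ ((((s.erase m2 : Finset ℝ) : Set ℝ)ᶜ) ∩ Ioi (r : ℝ)) := by
      refine ⟨?_, hr2⟩
      simp
    obtain ⟨l, u, hlu, hsub⟩ := mem_nhds_iff_exists_Ioo_subset.1 (hopen.mem_nhds hmem)
    obtain ⟨p, hp1, hp2⟩ := exists_rat_btwn hlu.1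
    obtain ⟨q, hq1, hq2⟩ := exists_rat_btwn hlu.2
    have hsupp : ∀ (S : Set ℝ) (F : Finset ℝ), (∀ i, i ∈ F ↔ i ∈ s ∧ i ∈ S) →
        (b.repr (pr b S x)).support = F := by
      intro S F hF
      rw [repr_pr, Finsupp.support_filter]
      ext i
      rw [Finset.mem_filter, hF]
    refine ⟨(r, max r p, q), ?_, ?_, ?_, le_max_left _ _⟩
    · have h1 : s.filter (· ∈ Iio (r : ℝ)) = {m} := by
        ext i
        simp only [Finset.mem_filter, mem_Iio, Finset.mem_singleton]
        constructor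
        · rintro ⟨hi, hir⟩
          by_contra hne
          have := Finset.min'_le _ _ (Finset.mem_erase.2 ⟨hne, hi⟩)
          exact absurd (lt_of_lt_of_le hr2 this) (not_lt.2 hir.le)
        · rintro rfl
          exact ⟨hms, hr1⟩
      change (b.repr (pr b (Iio (r : ℝ)) x)).support.card = 1
      rw [hsupp _ {m} (fun i => by rw [← h1, Finset.mem_filter]), Finset.card_singleton]
    · have h1 : s.filter (· ∈ Ici (r : ℝ)) = s.erase m := by
        ext i
        simp only [Finset.mem_filter, mem_Ici, Finset.mem_erase]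
        constructor
        · rintro ⟨hi, hir⟩
          refine ⟨?_, hi⟩
          rintro rfl
          exact absurd hr1 (not_lt.2 hir)
        · rintro ⟨hne, hi⟩
          have := Finset.min'_le _ _ (Finset.mem_erase.2 ⟨hne, hi⟩)
          exact ⟨hi, (lt_of_lt_of_le hr2 this).le⟩
      change (b.repr (pr b (Ici (r : ℝ)) x)).support.card = n
      rw [hsupp _ (s.erase m) (fun i => by rw [← h1, Finset.mem_filter]), hcard2]
    · have h1 : s.filter (· ∈ Ioo ((max r p : ℚ) : ℝ) (q : ℝ)) = {m2} := by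
        ext i
        simp only [Finset.mem_filter, Finset.mem_singleton]
        constructor
        · rintro ⟨hi, hir⟩
          by_contra hne
          have hp3 : (p : ℝ) ≤ ((max r p : ℚ) : ℝ) := by exact_mod_cast le_max_right r p
          have := hsub (show i ∈ Ioo l u from ⟨(hp1.trans_le hp3).trans hir.1, hir.2.trans hq2⟩)
          exact this.1 (by simp [hne, hi])
        · rintro rfl
          refine ⟨Finset.mem_of_mem_erase hm2s, ?_, hq1⟩
          rw [Rat.cast_max]
          exact max_lt hr2 hp2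
      change (b.repr (pr b (Ioo ((max r p : ℚ) : ℝ) (q : ℝ)) x)).support.card = 1
      rw [hsupp _ {m2} (fun i => by rw [← h1, Finset.mem_filter]), Finset.card_singleton]
  have hmain : ∀ t, MeasurableSet[Bgrp] (Z ∩ A t) := by
    intro t
    let Ψ : ℝ → ℝ × ℝ := fun x => (|pr b (Iio (t.1 : ℝ)) x|, |pr b (Ici (t.1 : ℝ)) x|)
    have hΨ : ∀ D : Set (ℝ × ℝ), MeasurableSet[Bgrp] (A t ∩ Ψ ⁻¹' D) := by
      intro D
      have := hR D
      induction D, this using MeasurableSpace.generateFrom_induction with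
      | hC D hD _ =>
        obtain ⟨S, T, rfl⟩ := hD
        have h1 : MeasurableSet[Bgrp] {y | y ∈ XX b 1 ∧ |y| ∈ S} :=
          P_one b _ (fun z hz => ⟨hXneg 1 z hz.1, by rw [abs_neg]; exact hz.2⟩) fun z hz => hz.1
        have h2 : MeasurableSet[Bgrp] {y | y ∈ XX b n ∧ |y| ∈ T} :=
          ih _ (fun z hz => ⟨hXneg n z hz.1, by rw [abs_neg]; exact hz.2⟩) fun z hz => hz.1
        have h3 : A t ∩ Ψ ⁻¹' (S ×ˢ T) = A t ∩
            ((pr b (Iio (t.1 : ℝ))) ⁻¹' {y | y ∈ XX b 1 ∧ |y| ∈ S} ∩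
             (pr b (Ici (t.1 : ℝ))) ⁻¹' {y | y ∈ XX b n ∧ |y| ∈ T}) := by
          ext x
          constructor
          · rintro ⟨hx, hx2, hx3⟩
            exact ⟨hx, ⟨hx.1, hx2⟩, ⟨hx.2.1, hx3⟩⟩
          · rintro ⟨hx, hx2, hx3⟩
            exact ⟨hx, hx2.2, hx3.2⟩
        rw [h3]
        exact @MeasurableSet.inter ℝ Bgrp _ _ (hA t)
          (@MeasurableSet.inter ℝ Bgrp _ _ (hom_meas _ h1) (hom_meas _ h2))
      | empty => simpa using @MeasurableSet.empty ℝ Bgrp
      | compl D _ hD =>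
        have : A t ∩ Ψ ⁻¹' Dᶜ = A t \ (A t ∩ Ψ ⁻¹' D) := by
          ext x; simp
        rw [this]
        exact @MeasurableSet.diff ℝ Bgrp _ _ (hA t) hD
      | iUnion f _ hf =>
        have : A t ∩ Ψ ⁻¹' (⋃ i, f i) = ⋃ i, A t ∩ Ψ ⁻¹' (f i) := by
          ext x; simp
        rw [this]
        exact MeasurableSet.iUnion fun i => hf i
    have hsum : ∀ x, pr b (Iio (t.1 : ℝ)) x + pr b (Ici (t.1 : ℝ)) x = x := by
      intro x
      apply b.repr.injective
      rw [map_add, repr_pr, repr_pr]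
      ext i
      simp only [Finsupp.add_apply, Finsupp.filter_apply, mem_Iio, mem_Ici]
      by_cases h : i < (t.1 : ℝ)
      · simp [h]
      · simp [h, not_lt.1 h]
    let c1 : ℝ →ₗ[ℚ] ℚ := b.constr ℚ (fun _ => (1 : ℚ))
    have hh1 : ∀ x, cs b (Iio (t.1 : ℝ)) x = c1 (pr b (Iio (t.1 : ℝ)) x) := fun x => rfl
    have hh2 : ∀ x ∈ A t, cs b (Ioo (t.2.1 : ℝ) t.2.2) x =
        cs b (Ioo (t.2.1 : ℝ) t.2.2) (pr b (Ici (t.1 : ℝ)) x) := by
      intro x hx
      have hle : (t.1 : ℝ) ≤ t.2.1 := by exact_mod_cast hx.2.2.2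
      have : pr b (Ioo (t.2.1 : ℝ) t.2.2) x =
          pr b (Ioo (t.2.1 : ℝ) t.2.2) (pr b (Ici (t.1 : ℝ)) x) := by
        apply b.repr.injective
        rw [repr_pr, repr_pr, repr_pr]
        ext i
        simp only [Finsupp.filter_apply, mem_Ioo, mem_Ici]
        by_cases h : (t.2.1 : ℝ) < i ∧ i < t.2.2
        · rw [if_pos h, if_pos h, if_pos (hle.trans h.1.le)]
        · rw [if_neg h, if_neg h]
      simp only [cs, LinearMap.comp_apply, this]
    have hpiece : ∀ ε : ℚ, MeasurableSet[Bgrp] (Z ∩ A t ∩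
        {x | 0 < (ε • cs b (Iio (t.1 : ℝ))) x * cs b (Ioo (t.2.1 : ℝ) t.2.2) x}) := by
      intro ε
      set T : Set ℝ := {x | 0 < (ε • cs b (Iio (t.1 : ℝ))) x * cs b (Ioo (t.2.1 : ℝ) t.2.2) x}
        with hT
      have heq : Z ∩ A t ∩ T = (A t ∩ Ψ ⁻¹' (Ψ '' (Z ∩ A t ∩ T))) ∩ T := by
        ext x
        constructor
        · rintro ⟨⟨h1, h2⟩, h3⟩
          exact ⟨⟨h2, x, ⟨⟨h1, h2⟩, h3⟩, rfl⟩, h3⟩
        · rintro ⟨⟨hxA, x', ⟨⟨hx'Z, hx'A⟩, hx'T⟩, hΨe⟩, hxT⟩
          refine ⟨⟨?_, hxA⟩, hxT⟩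
          have e1 : |pr b (Iio (t.1 : ℝ)) x'| = |pr b (Iio (t.1 : ℝ)) x| := congrArg Prod.fst hΨe
          have e2 : |pr b (Ici (t.1 : ℝ)) x'| = |pr b (Ici (t.1 : ℝ)) x| := congrArg Prod.snd hΨe
          have hT1 : 0 < ε * c1 (pr b (Iio (t.1 : ℝ)) x) *
              cs b (Ioo (t.2.1 : ℝ) t.2.2) (pr b (Ici (t.1 : ℝ)) x) := by
            rw [← hh2 x hxA, ← hh1]; exact hxT
          have hT2 : 0 < ε * c1 (pr b (Iio (t.1 : ℝ)) x') *
              cs b (Ioo (t.2.1 : ℝ) t.2.2) (pr b (Ici (t.1 : ℝ)) x') := by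
            rw [← hh2 x' hx'A, ← hh1]; exact hx'T
          rcases abs_eq_abs.1 e1 with f1 | f1 <;> rcases abs_eq_abs.1 e2 with f2 | f2
          · have : x' = x := by rw [← hsum x', ← hsum x, f1, f2]
            rwa [← this]
          · rw [f1, f2, map_neg] at hT2
            nlinarith
          · rw [f1, f2, map_neg] at hT2
            nlinarith
          · have : x' = -x := by
              rw [← hsum x', f1, f2, ← neg_add, hsum x]
            have h5 := hs _ hx'Z
            rw [this, neg_neg] at h5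
            exact h5
      rw [heq]
      exact @MeasurableSet.inter ℝ Bgrp _ _ (hΨ _) (meas_pos _ _)
    have hfin : Z ∩ A t = (Z ∩ A t ∩
        {x | 0 < ((1 : ℚ) • cs b (Iio (t.1 : ℝ))) x * cs b (Ioo (t.2.1 : ℝ) t.2.2) x}) ∪
        (Z ∩ A t ∩
        {x | 0 < ((-1 : ℚ) • cs b (Iio (t.1 : ℝ))) x * cs b (Ioo (t.2.1 : ℝ) t.2.2) x}) := by
      ext x
      constructor
      · intro hx
        have n1 := cs_ne b _ x hx.2.1
        have n2 := cs_ne b _ x hx.2.2.2.1
        have n3 := mul_ne_zero n1 n2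
        rcases lt_or_gt_of_ne n3 with h | h
        · refine Or.inr ⟨hx, ?_⟩
          change 0 < (-1 : ℚ) * _ * _
          linarith
        · refine Or.inl ⟨hx, ?_⟩
          change 0 < (1 : ℚ) * _ * _
          linarith
      · rintro (h | h)
        · exact h.1
        · exact h.1
    rw [hfin]
    exact @MeasurableSet.union ℝ Bgrp _ _ (hpiece 1) (hpiece (-1))
  have : Z = ⋃ t, Z ∩ A t := by
    ext x
    constructor
    · intro hx
      obtain ⟨t, ht⟩ := hcov x hx
      exact mem_iUnion.2 ⟨t, hx, ht⟩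
    · intro hx
      obtain ⟨t, ht⟩ := mem_iUnion.1 hx
      exact ht.1
  rw [this]
  exact MeasurableSet.iUnion hmain

/-- The converse: if every subset of the plane is generated by rectangles, then every symmetric
set of reals is generated by additive subgroups. -/
lemma partE (hR : ∀ A : Set (ℝ × ℝ), MeasurableSet[
      MeasurableSpace.generateFrom {R : Set (ℝ × ℝ) | ∃ S T : Set ℝ, R = S ×ˢ T}] A)
    (Z : Set ℝ) (hs : ∀ z ∈ Z, -z ∈ Z) : MeasurableSet[Bgrp] Z := by
  have hrank : #(Module.Basis.ofVectorSpaceIndex ℚ ℝ) = #ℝ := by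
    rw [(Module.Basis.ofVectorSpace ℚ ℝ).mk_eq_rank'', Real.rank_rat_real, mk_real]
  obtain ⟨eqv⟩ := Cardinal.eq.1 hrank
  let b : Module.Basis ℝ ℚ ℝ := (Module.Basis.ofVectorSpace ℚ ℝ).reindex eqv
  have hP : ∀ n : ℕ, ∀ Z : Set ℝ, (∀ z ∈ Z, -z ∈ Z) → Z ⊆ XX b (n + 1) →
      MeasurableSet[Bgrp] Z := by
    intro n
    induction n with
    | zero => exact P_one b
    | succ n ih => exact P_step b hR (n + 1) (by omega) ih
  have hneg : ∀ m, ∀ z ∈ XX b m, -z ∈ XX b m := by
    intro m z hz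
    change (b.repr (-z)).support.card = m
    rw [map_neg, Finsupp.support_neg]; exact hz
  have h0 : MeasurableSet[Bgrp] (Z ∩ {0}) := by
    by_cases h : (0 : ℝ) ∈ Z
    · have : Z ∩ {0} = ((⊥ : AddSubgroup ℝ) : Set ℝ) := by
        ext x
        simp only [mem_inter_iff, mem_singleton_iff, AddSubgroup.coe_bot]
        exact ⟨fun h => h.2, fun hx => ⟨hx ▸ h, hx⟩⟩
      rw [this]
      exact meas_grp ⊥
    · have : Z ∩ {0} = ∅ := by
        ext x
        simp only [mem_inter_iff, mem_singleton_iff, mem_empty_iff_false, iff_false, not_and]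
        rintro hx rfl
        exact h hx
      rw [this]
      exact @MeasurableSet.empty ℝ Bgrp
  have hdec : Z = (Z ∩ {0}) ∪ ⋃ n : ℕ, Z ∩ XX b (n + 1) := by
    ext x
    constructor
    · intro hx
      rcases Nat.eq_zero_or_pos (b.repr x).support.card with h | h
      · refine Or.inl ⟨hx, ?_⟩
        have h2 : b.repr x = 0 := Finsupp.support_eq_empty.1 (Finset.card_eq_zero.1 h)
        exact (LinearEquiv.map_eq_zero_iff _).1 h2
      · refine Or.inr (mem_iUnion.2 ⟨(b.repr x).support.card - 1, hx, ?_⟩)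
        change (b.repr x).support.card = (b.repr x).support.card - 1 + 1
        omega
    · rintro (h | h)
      · exact h.1
      · obtain ⟨n, hn⟩ := mem_iUnion.1 h
        exact hn.1
  rw [hdec]
  refine @MeasurableSet.union ℝ Bgrp _ _ h0 (MeasurableSet.iUnion fun n => hP n _ ?_ ?_)
  · intro z hz
    exact ⟨hs z hz.1, hneg _ z hz.2⟩
  · exact inter_subset_right

/-- **Every symmetric set of reals of cardinality at most `ℵ₁` lies in the `σ`-algebra generated
by the additive subgroups of `ℝ`**; hence under the continuum hypothesis every symmetric set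
does; every set `±L` with `L` linearly independent over `ℚ` does; and every symmetric set of
reals does if and only if every subset of the plane lies in the `σ`-algebra generated by all rectangles
`S × T` with `S, T ⊆ ℝ` arbitrary. **If there is a countably additive probability measure defined
on all sets of reals and vanishing on singletons, then some symmetric set of reals does not.** -/
theorem result :
    (∀ Z : Set ℝ, (∀ z ∈ Z, -z ∈ Z) → #Z ≤ ℵ₁ → MeasurableSet[Bgrp] Z) ∧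
    ((𝔠 : Cardinal.{0}) = ℵ₁ → ∀ Z : Set ℝ, (∀ z ∈ Z, -z ∈ Z) → MeasurableSet[Bgrp] Z) ∧
    (∀ L : Set ℝ, LinearIndepOn ℚ id L → MeasurableSet[Bgrp] {x | x ∈ L ∨ -x ∈ L}) ∧
    ((∀ Z : Set ℝ, (∀ z ∈ Z, -z ∈ Z) → MeasurableSet[Bgrp] Z) ↔ ∀ A : Set (ℝ × ℝ),
      MeasurableSet[MeasurableSpace.generateFrom
        {R : Set (ℝ × ℝ) | ∃ S T : Set ℝ, R = S ×ˢ T}] A) ∧
    ((∃ μ : @Measure ℝ ⊤, μ univ = 1 ∧ ∀ x, μ {x} = 0) →
      ∃ Z : Set ℝ, (∀ z ∈ Z, -z ∈ Z) ∧ ¬ MeasurableSet[Bgrp] Z) := by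
  have main : ∀ Z : Set ℝ, (∀ z ∈ Z, -z ∈ Z) → #Z ≤ ℵ₁ → MeasurableSet[Bgrp] Z := by
    intro Z hsym hZ
    obtain ⟨c, hc⟩ := decomp Z hZ
    have h0 : MeasurableSet[Bgrp] (Z ∩ {0}) := by
      by_cases h : (0 : ℝ) ∈ Z
      · have : Z ∩ {0} = ((⊥ : AddSubgroup ℝ) : Set ℝ) := by
          ext x
          simp only [mem_inter_iff, mem_singleton_iff, AddSubgroup.coe_bot]
          exact ⟨fun h => h.2, fun hx => ⟨hx ▸ h, hx⟩⟩
        rw [this]
        exact meas_grp ⊥
      · have : Z ∩ {0} = ∅ := by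
          ext x
          simp only [mem_inter_iff, mem_singleton_iff, mem_empty_iff_false, iff_false, not_and]
          rintro hx rfl
          exact h hx
        rw [this]
        exact @MeasurableSet.empty ℝ Bgrp
    have hdec : Z = (Z ∩ {0}) ∪ ⋃ n : ℕ, {x | x ∈ {x | x ∈ Z ∧ x ≠ 0 ∧ c x = n} ∨
        -x ∈ {x | x ∈ Z ∧ x ≠ 0 ∧ c x = n}} := by
      ext x
      constructor
      · intro hx
        rcases eq_or_ne x 0 with h | h
        · exact Or.inl ⟨hx, h⟩
        · exact Or.inr (mem_iUnion.2 ⟨c x, Or.inl ⟨hx, h, rfl⟩⟩)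
      · rintro (h | h)
        · exact h.1
        · obtain ⟨n, hn | hn⟩ := mem_iUnion.1 h
          · exact hn.1
          · have := hsym _ hn.1
            rwa [neg_neg] at this
    rw [hdec]
    exact MeasurableSet.union h0 (MeasurableSet.iUnion fun n => meas_indep _ (hc n))
  refine ⟨main, fun hCH Z hsym => main Z hsym ?_, meas_indep, ⟨partC, partE⟩,
    fun ⟨μ, h1, h0⟩ => partD μ h1 h0⟩
  calc #Z ≤ #ℝ := mk_set_le Z
    _ = 𝔠 := mk_real
    _ = ℵ₁ := hCH
    _ ≤ ℵ₁ := le_rfl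

end Pool.Agent.H6.Fbee
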