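import Mathlib

open Set Function MeasureTheory Filter Topology
open scoped NNReal ENNReal

namespace H6.Gauge

/-- Cantor-type expansion in base 4 with digits 0, 1. -/
noncomputable def z (a : ℕ → Bool) : ℝ := Cardinal.cantorFunction (1 / 4) a

theorem z_succ (a : ℕ → Bool) : z a = (if a 0 then 1 else 0) + 1 / 4 * z (fun n => a (n + 1)) := by
  unfold z
  rw [Cardinal.cantorFunction_succ a (by norm_num) (by norm_num)]
  cases a 0 <;> simp

theorem z_nonneg (a : ℕ → Bool) : 0 ≤ z a := by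
  unfold z Cardinal.cantorFunction
  exact tsum_nonneg (fun n => Cardinal.cantorFunctionAux_nonneg (by norm_num))

theorem z_le (a : ℕ → Bool) : z a ≤ 4 / 3 := by
  unfold z Cardinal.cantorFunction
  have h1 : Summable (fun n : ℕ => ((1 : ℝ) / 4) ^ n) :=
    summable_geometric_of_lt_one (by norm_num) (by norm_num)
  have h2 : ∑' n : ℕ, ((1 : ℝ) / 4) ^ n = 4 / 3 := by
    rw [tsum_geometric_of_lt_one (by norm_num) (by norm_num)]; norm_num
  rw [← h2]
  refine Summable.tsum_le_tsum ?_ (Cardinal.summable_cantor_function a (by norm_num) (by norm_num)) h1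
  intro n
  unfold Cardinal.cantorFunctionAux
  cases a n <;> simp

theorem z_upper : ∀ (n : ℕ) (a b : ℕ → Bool), (∀ i < n, a i = b i) →
    |z a - z b| ≤ 4 / 3 * (1 / 4) ^ n := by
  intro n
  induction n with
  | zero =>
    intro a b _
    have h1 := z_nonneg a
    have h2 := z_nonneg b
    have h3 := z_le a
    have h4 := z_le b
    rw [abs_le]; constructor <;> norm_num <;> linarith
  | succ n ih =>
    intro a b h
    have h1 := ih (fun n => a (n + 1)) (fun n => b (n + 1)) (fun i hi => h (i + 1) (by omega))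
    rw [z_succ a, z_succ b, h 0 (by omega)]
    have h2 : (if b 0 = true then (1 : ℝ) else 0) + 1 / 4 * z (fun n => a (n + 1)) -
        ((if b 0 = true then (1 : ℝ) else 0) + 1 / 4 * z (fun n => b (n + 1))) =
        1 / 4 * (z (fun n => a (n + 1)) - z (fun n => b (n + 1))) := by ring
    rw [h2, abs_mul, abs_of_pos (by norm_num : (0 : ℝ) < 1 / 4), pow_succ]
    linarith

theorem z_lower : ∀ (n : ℕ) (a b : ℕ → Bool), (∀ i < n, a i = b i) → a n ≠ b n →
    (1 / 4) ^ n / 2 ≤ |z a - z b| := by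
  intro n
  induction n with
  | zero =>
    intro a b _ h
    have h1 := z_nonneg (fun n => a (n + 1))
    have h2 := z_nonneg (fun n => b (n + 1))
    have h3 := z_le (fun n => a (n + 1))
    have h4 := z_le (fun n => b (n + 1))
    rw [z_succ a, z_succ b]
    cases ha : a 0 <;> cases hb : b 0
    · exact absurd (ha.trans hb.symm) h
    · simp only [Bool.false_eq_true, if_false, if_true]
      rw [abs_sub_comm, abs_of_nonneg (by linarith)]
      norm_num; linarith
    · simp only [Bool.false_eq_true, if_false, if_true]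
      rw [abs_of_nonneg (by linarith)]
      norm_num; linarith
    · exact absurd (ha.trans hb.symm) h
  | succ n ih =>
    intro a b h hne
    have h1 := ih (fun n => a (n + 1)) (fun n => b (n + 1)) (fun i hi => h (i + 1) (by omega)) hne
    rw [z_succ a, z_succ b, h 0 (by omega)]
    have h2 : (if b 0 = true then (1 : ℝ) else 0) + 1 / 4 * z (fun n => a (n + 1)) -
        ((if b 0 = true then (1 : ℝ) else 0) + 1 / 4 * z (fun n => b (n + 1))) =
        1 / 4 * (z (fun n => a (n + 1)) - z (fun n => b (n + 1))) := by ring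
    rw [h2, abs_mul, abs_of_pos (by norm_num : (0 : ℝ) < 1 / 4), pow_succ]
    linarith

/-- binary digits of `u ∈ [0,1)` -/
noncomputable def dg (u : ℝ) (j : ℕ) : Bool := decide (⌊2 ^ (j + 1) * u⌋ % 2 = 1)

theorem floor_eq {u v : ℝ} (hu : u ∈ Ico (0 : ℝ) 1) (hv : v ∈ Ico (0 : ℝ) 1) (r : ℕ)
    (h : ∀ j < r, dg u j = dg v j) : ⌊2 ^ r * u⌋ = ⌊2 ^ r * v⌋ := by
  induction r with
  | zero =>
    simp only [pow_zero, one_mul]
    rw [Int.floor_eq_zero_iff.mpr hu, Int.floor_eq_zero_iff.mpr hv]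
  | succ r ih =>
    have h1 := ih (fun j hj => h j (by omega))
    have h2 := h r (by omega)
    have key : ∀ w : ℝ, 2 * ⌊2 ^ r * w⌋ ≤ ⌊2 ^ (r + 1) * w⌋ ∧
        ⌊2 ^ (r + 1) * w⌋ ≤ 2 * ⌊2 ^ r * w⌋ + 1 := by
      intro w
      have e1 : (2 : ℝ) ^ (r + 1) * w = 2 * (2 ^ r * w) := by ring
      rw [e1]
      constructor
      · rw [Int.le_floor]; push_cast
        linarith [Int.floor_le (2 ^ r * w)]
      · have : ⌊2 * (2 ^ r * w)⌋ < 2 * ⌊2 ^ r * w⌋ + 2 := by
          rw [Int.floor_lt]; push_cast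
          linarith [Int.lt_floor_add_one (2 ^ r * w)]
        omega
    have k1 := key u
    have k2 := key v
    simp only [dg, decide_eq_decide] at h2
    omega

theorem dg_close {u v : ℝ} (hu : u ∈ Ico (0 : ℝ) 1) (hv : v ∈ Ico (0 : ℝ) 1) (r : ℕ)
    (h : ∀ j < r, dg u j = dg v j) : |u - v| ≤ (1 / 2) ^ r := by
  have h1 := floor_eq hu hv r h
  have h2 := Int.floor_le (2 ^ r * u)
  have h3 := Int.lt_floor_add_one (2 ^ r * u)
  have h4 := Int.floor_le (2 ^ r * v)
  have h5 := Int.lt_floor_add_one (2 ^ r * v)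
  rw [h1] at h2 h3
  have h6 : |2 ^ r * u - 2 ^ r * v| ≤ 1 := by
    rw [abs_le]; constructor <;> linarith
  rw [← mul_sub, abs_mul, abs_of_pos (by positivity : (0 : ℝ) < 2 ^ r)] at h6
  rw [one_div, inv_pow, ← one_div, le_div_iff₀ (by positivity)]
  linarith

section gauge

variable (F : Set ℕ)

open Classical in
/-- number of elements of `F` below `n` -/
noncomputable def rk (n : ℕ) : ℕ := Nat.count (· ∈ F) n

theorem rk_mono {m n : ℕ} (h : m ≤ n) : rk F m ≤ rk F n := by
  classical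
  unfold rk
  exact Nat.count_monotone _ h

theorem exN {t : ℝ≥0} (ht : 0 < t) : ∃ n : ℕ, (1 / 4 : ℝ) ^ n / 2 ≤ t := by
  obtain ⟨n, hn⟩ := exists_pow_lt_of_lt_one (show (0 : ℝ) < t from ht)
    (by norm_num : (1 / 4 : ℝ) < 1)
  exact ⟨n, by linarith [pow_nonneg (by norm_num : (0 : ℝ) ≤ 1 / 4) n]⟩

open Classical in
/-- the gauge function of `F` -/
noncomputable def g (t : ℝ≥0) : ℝ≥0 :=
  if ht : 0 < t then (1 / 2) ^ (rk F (Nat.find (exN ht))) else 0

theorem g_zero : g F 0 = 0 := by simp [g]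

theorem g_pos {t : ℝ≥0} (ht : 0 < t) : 0 < g F t := by
  simp only [g, ht, dif_pos]
  positivity

theorem half_pow_anti {m n : ℕ} (h : m ≤ n) : ((1 : ℝ≥0) / 2) ^ n ≤ (1 / 2) ^ m :=
  pow_le_pow_of_le_one (by positivity) (by
    rw [← NNReal.coe_le_coe]; norm_num) h

theorem g_mono : Monotone (g F) := by
  intro s t hst
  by_cases hs : 0 < s
  · have ht : 0 < t := lt_of_lt_of_le hs hst
    simp only [g, hs, ht, dif_pos]
    apply half_pow_anti
    apply rk_mono
    apply Nat.find_min'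
    exact le_trans (Nat.find_spec (exN hs)) (NNReal.coe_le_coe.mpr hst)
  · simp only [g, hs, dif_neg, not_false_eq_true]
    exact zero_le

/-- lower bound for the gauge -/
theorem le_g {t : ℝ≥0} {n : ℕ} (h : (1 / 4 : ℝ) ^ n / 2 ≤ t) : (1 / 2) ^ (rk F n) ≤ g F t := by
  have ht : 0 < t := by
    rw [← NNReal.coe_pos]
    exact lt_of_lt_of_le (by positivity) h
  simp only [g, ht, dif_pos]
  apply half_pow_anti
  exact rk_mono F (Nat.find_min' _ h)

/-- upper bound for the gauge -/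
theorem g_le {t : ℝ≥0} {n : ℕ} (h : (t : ℝ) < (1 / 4 : ℝ) ^ n / 2) :
    g F t ≤ (1 / 2) ^ (rk F (n + 1)) := by
  by_cases ht : 0 < t
  · simp only [g, ht, dif_pos]
    apply half_pow_anti
    apply rk_mono
    by_contra hcon
    push Not at hcon
    have h1 := Nat.find_spec (exN ht)
    have h2 : (1 / 4 : ℝ) ^ n ≤ (1 / 4 : ℝ) ^ (Nat.find (exN ht)) :=
      pow_le_pow_of_le_one (by norm_num) (by norm_num) (by omega)
    linarith
  · simp only [g, ht, dif_neg, not_false_eq_true]
    exact zero_le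

theorem rk_tendsto (hF : F.Infinite) (R : ℕ) : ∃ n, R ≤ rk F n := by
  classical
  refine ⟨Nat.nth (· ∈ F) R, ?_⟩
  unfold rk
  have := Nat.count_nth_of_infinite (p := (· ∈ F)) hF R
  convert this.ge

theorem g_cont (hF : F.Infinite) (x : ℝ≥0) : ContinuousWithinAt (g F) (Ici x) x := by
  by_cases hx : 0 < x
  · -- locally constant to the right
    have hloc : ∀ᶠ t in 𝓝[Ici x] x, g F t = g F x := by
      set n := Nat.find (exN hx) with hn
      have hspec : (1 / 4 : ℝ) ^ n / 2 ≤ x := Nat.find_spec (exN hx)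
      have hev : ∀ᶠ t : ℝ≥0 in 𝓝[Ici x] x, ∀ m ∈ {i | i < n}, (t : ℝ) < (1 / 4 : ℝ) ^ m / 2 := by
        rw [eventually_all_finite (Set.finite_lt_nat n)]
        intro m hm
        have h1 : (x : ℝ) < (1 / 4 : ℝ) ^ m / 2 := not_le.mp (Nat.find_min (exN hx) hm)
        have h2 : Tendsto (fun t : ℝ≥0 => (t : ℝ)) (𝓝[Ici x] x) (𝓝 (x : ℝ)) :=
          (NNReal.continuous_coe.tendsto x).mono_left nhdsWithin_le_nhds
        exact h2.eventually (gt_mem_nhds h1)
      filter_upwards [hev, self_mem_nhdsWithin] with t ht htx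
      have ht0 : 0 < t := lt_of_lt_of_le hx htx
      have hfind : Nat.find (exN ht0) = n := by
        rw [Nat.find_eq_iff]
        refine ⟨le_trans hspec (NNReal.coe_le_coe.mpr htx), fun m hm => not_le.mpr (ht m hm)⟩
      simp only [g, ht0, hx, dif_pos, hfind]
      rw [← hn]
    exact (tendsto_congr' hloc).mpr tendsto_const_nhds
  · have hx0 : x = 0 := le_antisymm (not_lt.mp hx) zero_le
    subst hx0
    unfold ContinuousWithinAt
    rw [g_zero]
    rw [(NNReal.nhds_zero_basis.tendsto_right_iff)]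
    intro ε hε
    obtain ⟨R, hR⟩ := exists_pow_lt_of_lt_one hε (show (1 / 2 : ℝ≥0) < 1 by
      rw [← NNReal.coe_lt_coe]; norm_num)
    obtain ⟨n, hn⟩ := rk_tendsto F hF R
    have hev : ∀ᶠ t : ℝ≥0 in 𝓝[Ici 0] 0, (t : ℝ) < (1 / 4 : ℝ) ^ n / 2 := by
      have h2 : Tendsto (fun t : ℝ≥0 => (t : ℝ)) (𝓝[Ici 0] 0) (𝓝 ((0 : ℝ≥0) : ℝ)) :=
        (NNReal.continuous_coe.tendsto 0).mono_left nhdsWithin_le_nhds
      exact h2.eventually (gt_mem_nhds (by rw [NNReal.coe_zero]; positivity))
    filter_upwards [hev] with t ht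
    show g F t < ε
    refine lt_of_le_of_lt (g_le F ht) (lt_of_le_of_lt (half_pow_anti ?_) hR)
    exact le_trans hn (rk_mono F (Nat.le_succ n))

end gauge

end H6.Gauge
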