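import Mathlib
import Pool.Agent.H6.Gauge

open Set Function MeasureTheory Filter Topology
open scoped NNReal ENNReal

namespace H6.Gauge

/-- the Cantor-type set of `F` -/
def KK (F : Set ℕ) : Set ℝ := {v | ∃ a : ℕ → Bool, (∀ n, n ∉ F → a n = false) ∧ v = z a}

open Classical in
/-- digits spread along `F` -/
noncomputable def au (F : Set ℕ) (u : ℝ) (n : ℕ) : Bool := if n ∈ F then dg u (rk F n) else false

theorem rk_succ (F : Set ℕ) (n : ℕ) [Decidable (n ∈ F)] :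
    rk F (n + 1) = rk F n + if n ∈ F then 1 else 0 := by
  classical
  unfold rk
  rw [Nat.count_succ]
  congr

theorem exists_rk {F : Set ℕ} {n j : ℕ} (h : j < rk F n) : ∃ n' < n, n' ∈ F ∧ rk F n' = j := by
  classical
  induction n with
  | zero => simp [rk] at h
  | succ n ih =>
    rw [rk_succ] at h
    by_cases h1 : j < rk F n
    · obtain ⟨n', h2, h3, h4⟩ := ih h1
      exact ⟨n', by omega, h3, h4⟩
    · by_cases h2 : n ∈ F
      · simp only [h2, if_true] at h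
        exact ⟨n, by omega, h2, by omega⟩
      · simp only [h2, if_false] at h
        omega

theorem au_close {F : Set ℕ} (hF : F.Infinite) {u v : ℝ} (hu : u ∈ Ico (0 : ℝ) 1)
    (hv : v ∈ Ico (0 : ℝ) 1) {t : ℝ≥0} (h : |z (au F u) - z (au F v)| ≤ t) :
    |u - v| ≤ g F t := by
  classical
  have hdig : ∀ n, (∀ i < n, au F u i = au F v i) → |u - v| ≤ (1 / 2) ^ (rk F n) := by
    intro n hn
    apply dg_close hu hv
    intro j hj
    obtain ⟨n', hn', hF', rfl⟩ := exists_rk hj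
    have := hn n' hn'
    simpa [au, hF'] using this
  by_cases heq : ∀ n, au F u n = au F v n
  · have h1 : ∀ R : ℕ, |u - v| ≤ (1 / 2) ^ R := by
      intro R
      obtain ⟨n, hn⟩ := rk_tendsto F hF R
      refine le_trans (hdig n (fun i _ => heq i)) ?_
      exact pow_le_pow_of_le_one (by norm_num) (by norm_num) hn
    have h2 : |u - v| ≤ 0 :=
      ge_of_tendsto' (tendsto_pow_atTop_nhds_zero_of_lt_one (by norm_num : (0 : ℝ) ≤ 1 / 2)
        (by norm_num)) h1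
    exact le_trans h2 (NNReal.coe_nonneg _)
  · push Not at heq
    have hspec := Nat.find_spec heq
    have hmin : ∀ i < Nat.find heq, au F u i = au F v i := fun i hi => by
      by_contra hcon
      exact Nat.find_min heq hi hcon
    have h1 := z_lower (Nat.find heq) _ _ hmin hspec
    have h2 := le_g F (le_trans h1 h)
    refine le_trans (hdig _ hmin) ?_
    have h3 : (((1 / 2 : ℝ≥0) ^ (rk F (Nat.find heq)) : ℝ≥0) : ℝ) ≤ (g F t : ℝ) :=
      NNReal.coe_le_coe.mpr h2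
    simpa using h3

theorem K_pos {F : Set ℕ} (hF : F.Infinite) :
    0 < (OuterMeasure.mkMetric (fun r : ℝ≥0∞ => ((g F r.toNNReal : ℝ≥0) : ℝ≥0∞)) :
      OuterMeasure ℝ) (KK F) := by
  classical
  set μ : OuterMeasure ℝ := OuterMeasure.map (fun u => z (au F u))
    (OuterMeasure.restrict (Ico (0 : ℝ) 1) (volume : Measure ℝ).toOuterMeasure) with hμ
  have h1 : μ ≤ OuterMeasure.mkMetric (fun r : ℝ≥0∞ => ((g F r.toNNReal : ℝ≥0) : ℝ≥0∞)) := by
    refine OuterMeasure.le_mkMetric _ μ 1 one_pos ?_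
    intro s hs
    rw [hμ, OuterMeasure.map_apply, OuterMeasure.restrict_apply]
    refine le_trans (Real.volume_le_diam _) ?_
    refine Metric.ediam_le ?_
    rintro u ⟨hu1, hu2⟩ v ⟨hv1, hv2⟩
    have hfin : Metric.ediam s ≠ ⊤ := ne_top_of_le_ne_top ENNReal.one_ne_top hs
    have h2 : edist (z (au F u)) (z (au F v)) ≤ Metric.ediam s := Metric.edist_le_ediam_of_mem hu1 hv1
    have h3 : |z (au F u) - z (au F v)| ≤ ((Metric.ediam s).toNNReal : ℝ) := by
      rw [edist_dist, Real.dist_eq] at h2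
      rw [← ENNReal.ofReal_le_ofReal_iff (by positivity)]
      refine le_trans h2 ?_
      rw [ENNReal.ofReal_coe_nnreal, ENNReal.coe_toNNReal hfin]
    have h4 := au_close hF hu2 hv2 h3
    rw [edist_dist, Real.dist_eq]
    rw [← ENNReal.ofReal_coe_nnreal]
    exact ENNReal.ofReal_le_ofReal h4
  refine lt_of_lt_of_le ?_ (h1 (KK F))
  rw [hμ, OuterMeasure.map_apply, OuterMeasure.restrict_apply]
  have h5 : (fun u => z (au F u)) ⁻¹' (KK F) ∩ Ico (0 : ℝ) 1 = Ico (0 : ℝ) 1 := by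
    ext u
    simp only [mem_inter_iff, mem_preimage, and_iff_right_iff_imp]
    intro _
    exact ⟨au F u, fun n hn => by simp [au, hn], rfl⟩
  rw [h5]
  show 0 < volume (Ico (0 : ℝ) 1)
  simp


theorem rk_ge {F : Set ℕ} {a : ℕ} : ∀ d : ℕ, (∀ i, a ≤ i → i < a + d → i ∈ F) →
    d ≤ rk F (a + d) := by
  classical
  intro d
  induction d with
  | zero => intro _; exact Nat.zero_le _
  | succ d ih =>
    intro h
    have h1 := ih (fun i h1 h2 => h i h1 (by omega))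
    have h2 : a + d ∈ F := h (a + d) (by omega) (by omega)
    rw [← Nat.add_assoc, rk_succ]
    simp only [h2, if_true]
    omega

/-- sets whose digits vanish on full blocks of `F` are null for the gauge of `F` -/
theorem D_null {F : Set ℕ} (kk : ℕ → ℕ) (hkk : ∀ j, j ≤ kk j)
    (hfull : ∀ j n, 4 ^ kk j ≤ n + 1 → n + 1 < 4 ^ (kk j + 1) → n ∈ F) (D : Set ℝ)
    (hD : ∀ v ∈ D, ∃ a : ℕ → Bool, (∀ j n, 4 ^ kk j ≤ n + 1 → n + 1 < 4 ^ (kk j + 1) →
      a n = false) ∧ v = z a) :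
    (OuterMeasure.mkMetric (fun r : ℝ≥0∞ => ((g F r.toNNReal : ℝ≥0) : ℝ≥0∞)) :
      OuterMeasure ℝ) D = 0 := by
  classical
  rw [MeasureTheory.OuterMeasure.coe_mkMetric]
  let t : ∀ j : ℕ, (Fin (4 ^ kk j - 1) → Bool) → Set ℝ := fun j b =>
    {v | ∃ a : ℕ → Bool, (∀ i : Fin (4 ^ kk j - 1), a i = b i) ∧
      (∀ n, 4 ^ kk j ≤ n + 1 → n + 1 < 4 ^ (kk j + 1) → a n = false) ∧ v = z a}
  let ρ : ℕ → ℝ≥0 := fun j => 4 / 3 * (1 / 4) ^ (4 ^ (kk j + 1) - 1)
  have hpow : ∀ k : ℕ, 1 ≤ 4 ^ k := fun k => Nat.one_le_pow _ _ (by norm_num)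
  have hdiam : ∀ j b, Metric.ediam (t j b) ≤ (ρ j : ℝ≥0∞) := by
    intro j b
    refine Metric.ediam_le ?_
    rintro u ⟨a, ha1, ha2, rfl⟩ v ⟨a', ha1', ha2', rfl⟩
    have h1 := z_upper (4 ^ (kk j + 1) - 1) a a' (by
      intro i hi
      by_cases h : i < 4 ^ kk j - 1
      · rw [ha1 ⟨i, h⟩, ha1' ⟨i, h⟩]
      · rw [ha2 i (by omega) (by omega), ha2' i (by omega) (by omega)])
    rw [edist_dist, Real.dist_eq, ← ENNReal.ofReal_coe_nnreal]
    apply ENNReal.ofReal_le_ofReal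
    simpa [ρ] using h1
  have hlim : Tendsto (fun j => (ρ j : ℝ≥0∞)) atTop (𝓝 0) := by
    have h1 : Tendsto (fun j : ℕ => (4 / 3 : ℝ≥0) * (1 / 4) ^ j) atTop (𝓝 0) := by
      have h2 : Tendsto (fun j : ℕ => (1 / 4 : ℝ≥0) ^ j) atTop (𝓝 0) :=
        NNReal.tendsto_pow_atTop_nhds_zero_of_lt_one (by rw [← NNReal.coe_lt_coe]; norm_num)
      simpa using h2.const_mul (4 / 3 : ℝ≥0)
    have h3 : Tendsto ρ atTop (𝓝 0) := by
      refine tendsto_of_tendsto_of_tendsto_of_le_of_le tendsto_const_nhds h1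
        (fun j => zero_le) ?_
      intro j
      refine mul_le_mul_right ?_ _
      refine pow_le_pow_of_le_one (by positivity) (by rw [← NNReal.coe_le_coe]; norm_num) ?_
      have h4 := hkk j
      have h5 : kk j + 1 < 4 ^ (kk j + 1) := Nat.lt_pow_self (by norm_num)
      omega
    rw [← ENNReal.coe_zero]
    exact ENNReal.tendsto_coe.mpr h3
  have hval : ∀ j b, ((g F (Metric.ediam (t j b)).toNNReal : ℝ≥0) : ℝ≥0∞) ≤
      ((((1 / 2 : ℝ≥0) ^ (3 * 4 ^ kk j - 1)) : ℝ≥0) : ℝ≥0∞) := by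
    intro j b
    rw [ENNReal.coe_le_coe]
    have h0 := hpow (kk j)
    have h0' : 4 ^ (kk j + 1) = 4 * 4 ^ kk j := by rw [pow_succ]; ring
    have h1 : (((Metric.ediam (t j b)).toNNReal : ℝ≥0) : ℝ) ≤ ρ j := by
      have := ENNReal.toNNReal_mono ENNReal.coe_ne_top (hdiam j b)
      rw [ENNReal.toNNReal_coe] at this
      exact NNReal.coe_le_coe.mpr this
    have h2 : (ρ j : ℝ) < (1 / 4 : ℝ) ^ (4 ^ (kk j + 1) - 3) / 2 := by
      have e1 : 4 ^ (kk j + 1) - 1 = (4 ^ (kk j + 1) - 3) + 2 := by omega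
      simp only [ρ]
      push_cast
      rw [e1, pow_add]
      have hw : (0 : ℝ) < (1 / 4) ^ (4 ^ (kk j + 1) - 3) := by positivity
      generalize ((1 : ℝ) / 4) ^ (4 ^ (kk j + 1) - 3) = w at hw
      have e3 : (1 / 4 : ℝ) ^ 2 = 1 / 16 := by norm_num
      rw [e3]
      linarith
    refine le_trans (g_le F (lt_of_le_of_lt h1 h2)) (half_pow_anti ?_)
    have h3 := rk_ge (F := F) (a := 4 ^ kk j - 1) (3 * 4 ^ kk j - 1) (by
      intro i hi1 hi2
      exact hfull j i (by omega) (by omega))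
    refine le_trans h3 (rk_mono F (by omega))
  have hmain := Measure.mkMetric_le_liminf_sum (X := ℝ) D (l := atTop) (fun j => (ρ j : ℝ≥0∞)) hlim t
    (Eventually.of_forall hdiam) (Eventually.of_forall (fun j v hv => by
      obtain ⟨a, ha, rfl⟩ := hD v hv
      exact mem_iUnion.mpr ⟨fun i => a i, a, fun i => rfl, ha j, rfl⟩))
    (fun r : ℝ≥0∞ => ((g F r.toNNReal : ℝ≥0) : ℝ≥0∞))
  refine le_antisymm (le_trans hmain ?_) (zero_le)
  have hsum : ∀ j, ∑ b, ((g F (Metric.ediam (t j b)).toNNReal : ℝ≥0) : ℝ≥0∞) ≤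
      (((1 / 2 : ℝ≥0) ^ j : ℝ≥0) : ℝ≥0∞) := by
    intro j
    have h0 := hpow (kk j)
    calc ∑ b, ((g F (Metric.ediam (t j b)).toNNReal : ℝ≥0) : ℝ≥0∞)
        ≤ ∑ _b : (Fin (4 ^ kk j - 1) → Bool),
          ((((1 / 2 : ℝ≥0) ^ (3 * 4 ^ kk j - 1)) : ℝ≥0) : ℝ≥0∞) :=
          Finset.sum_le_sum (fun b _ => hval j b)
      _ = ((((2 : ℝ≥0) ^ (4 ^ kk j - 1) * (1 / 2 : ℝ≥0) ^ (3 * 4 ^ kk j - 1)) : ℝ≥0) : ℝ≥0∞) := by
          rw [Finset.sum_const, Finset.card_univ, Fintype.card_fun, Fintype.card_bool,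
            Fintype.card_fin, nsmul_eq_mul]
          push_cast
          rfl
      _ ≤ (((1 / 2 : ℝ≥0) ^ j : ℝ≥0) : ℝ≥0∞) := by
          rw [ENNReal.coe_le_coe]
          have e1 : 3 * 4 ^ kk j - 1 = (4 ^ kk j - 1) + 2 * 4 ^ kk j := by omega
          rw [e1, pow_add, ← mul_assoc, ← mul_pow]
          have e2 : (2 : ℝ≥0) * (1 / 2) = 1 := by
            rw [mul_one_div, div_self]; exact two_ne_zero
          rw [e2, one_pow, one_mul]
          apply half_pow_anti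
          have h4 := hkk j
          have h5 : kk j < 4 ^ (kk j) := Nat.lt_pow_self (by norm_num)
          omega
  have hlim2 : Tendsto (fun j : ℕ => (((1 / 2 : ℝ≥0) ^ j : ℝ≥0) : ℝ≥0∞)) atTop (𝓝 0) := by
    have h2 : Tendsto (fun j : ℕ => (1 / 2 : ℝ≥0) ^ j) atTop (𝓝 0) :=
      NNReal.tendsto_pow_atTop_nhds_zero_of_lt_one (by rw [← NNReal.coe_lt_coe]; norm_num)
    rw [← ENNReal.coe_zero]
    exact ENNReal.tendsto_coe.mpr h2
  have hlim3 := tendsto_of_tendsto_of_tendsto_of_le_of_le tendsto_const_nhds hlim2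
    (fun j => zero_le) hsum
  rw [hlim3.liminf_eq]

end H6.Gauge
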