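import Mathlib

set_option autoImplicit false

/-!
A hypercontractive type inequality along a well-ordered filtration.
-/

namespace Pool.Agent.H6.HilbertGen

open MeasureTheory

set_option linter.unusedSectionVars false

theorem taylor (s g t : ℝ) (hg : |g| ≤ s) (ht : |t| ≤ s) (n : ℕ) :
    |(g + t) ^ (n + 2) - g ^ (n + 2) - ((n : ℝ) + 2) * t * g ^ (n + 1)| ≤
      3 ^ (n + 2) * t ^ 2 * s ^ n := by
  have hs : 0 ≤ s := (abs_nonneg g).trans hg
  induction n with
  | zero =>
    have : (g + t) ^ (0 + 2) - g ^ (0 + 2) - (((0 : ℕ) : ℝ) + 2) * t * g ^ (0 + 1) = t ^ 2 := by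
      push_cast; ring
    rw [this, abs_of_nonneg (sq_nonneg t)]
    simp only [zero_add, pow_zero, mul_one]
    nlinarith [sq_nonneg t]
  | succ n ih =>
    have h1 : (g + t) ^ (n + 1 + 2) - g ^ (n + 1 + 2) -
        (((n + 1 : ℕ) : ℝ) + 2) * t * g ^ (n + 1 + 1) =
        (g + t) * ((g + t) ^ (n + 2) - g ^ (n + 2) - ((n : ℝ) + 2) * t * g ^ (n + 1)) +
          ((n : ℝ) + 2) * t ^ 2 * g ^ (n + 1) := by
      push_cast; ring
    rw [h1]
    have h2 : |g + t| ≤ 2 * s := (abs_add_le g t).trans (by linarith)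
    have h3 : |g ^ (n + 1)| ≤ s ^ (n + 1) := by
      rw [abs_pow]
      exact pow_le_pow_left₀ (abs_nonneg _) hg _
    have h4 : ((n : ℝ) + 2) ≤ 3 ^ (n + 2) := by
      have : n + 2 < 3 ^ (n + 2) := Nat.lt_pow_self (by norm_num)
      exact_mod_cast this.le
    calc |(g + t) * ((g + t) ^ (n + 2) - g ^ (n + 2) - ((n : ℝ) + 2) * t * g ^ (n + 1)) +
          ((n : ℝ) + 2) * t ^ 2 * g ^ (n + 1)|
        ≤ |g + t| * |(g + t) ^ (n + 2) - g ^ (n + 2) - ((n : ℝ) + 2) * t * g ^ (n + 1)| +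
          ((n : ℝ) + 2) * t ^ 2 * |g ^ (n + 1)| := by
          refine (abs_add_le _ _).trans ?_
          rw [abs_mul, abs_mul (((n : ℝ) + 2) * t ^ 2), abs_of_nonneg (by positivity :
            (0 : ℝ) ≤ ((n : ℝ) + 2) * t ^ 2)]
      _ ≤ (2 * s) * (3 ^ (n + 2) * t ^ 2 * s ^ n) + 3 ^ (n + 2) * t ^ 2 * s ^ (n + 1) := by
          gcongr
      _ = 3 ^ (n + 1 + 2) * t ^ 2 * s ^ (n + 1) := by ring

/-- The basic pointwise inequality. -/
theorem pointwise (n : ℕ) (g h r : ℝ) (hr : |r| ≤ 1) :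
    (g + (1 / 3) ^ (n + 1) * r * h) ^ (2 * (n + 1)) ≤
      (g ^ 2 + h ^ 2) ^ (n + 1) +
        (2 * (n + 1)) * ((1 / 3) ^ (n + 1) * r * h) * g ^ (2 * n + 1) := by
  set t : ℝ := (1 / 3) ^ (n + 1) * r * h with ht
  set s : ℝ := Real.sqrt (g ^ 2 + t ^ 2) with hs
  have hs2 : s ^ 2 = g ^ 2 + t ^ 2 := Real.sq_sqrt (by positivity)
  have hg : |g| ≤ s := Real.abs_le_sqrt (by nlinarith [sq_nonneg t])
  have ht' : |t| ≤ s := Real.abs_le_sqrt (by nlinarith [sq_nonneg g])
  have h1 := (abs_le.1 (taylor s g t hg ht' (2 * n))).2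
  have hr2 : r ^ 2 ≤ 1 := by
    rw [← sq_abs]
    exact pow_le_one₀ (abs_nonneg _) hr
  have h9 : (3 : ℝ) ^ (2 * n + 2) * t ^ 2 = r ^ 2 * h ^ 2 := by
    rw [ht, mul_pow, mul_pow, ← pow_mul]
    have : (n + 1) * 2 = 2 * n + 2 := by ring
    rw [this, one_div, inv_pow]
    have h3 : (3 : ℝ) ^ (2 * n + 2) ≠ 0 := by positivity
    field_simp
  have h10 : r ^ 2 * h ^ 2 ≤ h ^ 2 := by
    nlinarith [sq_nonneg h]
  have ht2 : t ^ 2 ≤ h ^ 2 := by
    have h3 : (1 : ℝ) ≤ 3 ^ (2 * n + 2) := one_le_pow₀ (by norm_num)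
    nlinarith [sq_nonneg t]
  have hsn : s ^ (2 * n) ≤ (g ^ 2 + h ^ 2) ^ n := by
    rw [pow_mul, hs2]
    gcongr
  have hsn0 : 0 ≤ s ^ (2 * n) := by
    rw [pow_mul]; positivity
  have h11 : (3 : ℝ) ^ (2 * n + 2) * t ^ 2 * s ^ (2 * n) ≤ h ^ 2 * (g ^ 2 + h ^ 2) ^ n := by
    rw [h9]
    exact mul_le_mul h10 hsn hsn0 (sq_nonneg h)
  have h12 : g ^ (2 * n + 2) ≤ g ^ 2 * (g ^ 2 + h ^ 2) ^ n := by
    rw [pow_add, pow_mul, mul_comm]
    gcongr
    nlinarith [sq_nonneg h]
  have h13 : (g ^ 2 + h ^ 2) ^ (n + 1) = g ^ 2 * (g ^ 2 + h ^ 2) ^ n +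
      h ^ 2 * (g ^ 2 + h ^ 2) ^ n := by ring
  have h14 : 2 * (n + 1) = 2 * n + 2 := by ring
  rw [h14, h13]
  push_cast at h1
  linarith

/-- Convexity: an additive splitting inequality for powers. -/
theorem power_split (n : ℕ) (u v s t : ℝ) (hu : 0 ≤ u) (hv : 0 ≤ v) (hs : 0 < s) (ht : 0 < t) :
    (u + v) ^ (n + 1) ≤ (s + t) ^ n * (u ^ (n + 1) / s ^ n + v ^ (n + 1) / t ^ n) := by
  have hx : u / s ∈ Set.Ici (0 : ℝ) := Set.mem_Ici.2 (by positivity)
  have hy : v / t ∈ Set.Ici (0 : ℝ) := Set.mem_Ici.2 (by positivity)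
  have ha : 0 ≤ s / (s + t) := by positivity
  have hb : 0 ≤ t / (s + t) := by positivity
  have hab : s / (s + t) + t / (s + t) = 1 := by field_simp
  have hconv := (convexOn_pow (n + 1)).2 hx hy ha hb hab
  simp only [smul_eq_mul] at hconv
  have h1 : s / (s + t) * (u / s) + t / (s + t) * (v / t) = (u + v) / (s + t) := by
    field_simp
  rw [h1, div_pow, div_le_iff₀ (by positivity)] at hconv
  refine hconv.trans (le_of_eq ?_)
  have hst : s + t ≠ 0 := by positivity
  rw [div_pow, div_pow, pow_succ s, pow_succ t, pow_succ (s + t)]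
  field_simp

variable {α : Type} [m0 : MeasurableSpace α] (μ : Measure α) [IsFiniteMeasure μ]
variable {ι : Type} [LinearOrder ι] (B : ι → Set α)

/-- Intersections of finitely many of the sets `B j`, `j < i`. -/
def gens (D : Set ι) : Set (Set α) := {s | ∃ F : Finset ι, (∀ j ∈ F, j ∈ D) ∧ s = ⋂ j ∈ F, B j}

/-- The sigma algebra generated by the sets `B j`, `j ∈ D`. -/
@[reducible]
def sig (D : Set ι) : MeasurableSpace α := MeasurableSpace.generateFrom (gens B D)

theorem sig_le (hB : ∀ i, MeasurableSet (B i)) (D : Set ι) : sig B D ≤ m0 := by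
  refine MeasurableSpace.generateFrom_le ?_
  rintro _ ⟨F, _, rfl⟩
  exact F.measurableSet_biInter fun j _ => hB j

theorem sig_mono {D D' : Set ι} (h : D ⊆ D') : sig B D ≤ sig B D' := by
  refine MeasurableSpace.generateFrom_mono ?_
  rintro _ ⟨F, hF, rfl⟩
  exact ⟨F, fun j hj => h (hF j hj), rfl⟩

theorem meas_B {D : Set ι} {i : ι} (hi : i ∈ D) : MeasurableSet[sig B D] (B i) := by
  refine MeasurableSpace.measurableSet_generateFrom ⟨{i}, ?_, ?_⟩
  · simpa using hi
  · simp

/-- A version of the conditional expectation of the indicator of `B i`, clipped to `[0,1]`. -/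
noncomputable def e (i : ι) : α → ℝ := fun x =>
  max 0 (min 1 ((μ[(B i).indicator (fun _ => (1 : ℝ)) | sig B (Set.Iio i)]) x))

/-- The martingale difference. -/
noncomputable def r (i : ι) : α → ℝ := fun x => (B i).indicator (fun _ => (1 : ℝ)) x - e μ B i x

theorem e_meas (i : ι) : Measurable[sig B (Set.Iio i)] (e μ B i) := by
  unfold e
  refine Measurable.max measurable_const (Measurable.min measurable_const ?_)
  exact stronglyMeasurable_condExp.measurable

theorem e_nonneg (i : ι) (x : α) : 0 ≤ e μ B i x := le_max_left _ _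

theorem e_le_one (i : ι) (x : α) : e μ B i x ≤ 1 := max_le zero_le_one (min_le_left _ _)

theorem e_meas' (i : ι) {D : Set ι} (hD : Set.Iio i ⊆ D) : Measurable[sig B D] (e μ B i) :=
  (e_meas μ B i).mono (sig_mono B hD) le_rfl

theorem r_meas (i : ι) {D : Set ι} (hi : i ∈ D) (hD : Set.Iio i ⊆ D) :
    Measurable[sig B D] (r μ B i) := by
  unfold r
  refine Measurable.sub ?_ (e_meas' μ B i hD)
  exact Measurable.indicator measurable_const (meas_B B hi)

theorem r_abs (i : ι) (x : α) : |r μ B i x| ≤ 1 := by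
  unfold r
  have h1 := e_nonneg μ B i x
  have h2 := e_le_one μ B i x
  by_cases hx : x ∈ B i
  · rw [Set.indicator_of_mem hx, abs_le]
    constructor <;> linarith
  · rw [Set.indicator_of_notMem hx, abs_le]
    constructor <;> linarith

theorem e_ae (hB : ∀ i, MeasurableSet (B i)) (i : ι) :
    e μ B i =ᵐ[μ] μ[(B i).indicator (fun _ => (1 : ℝ)) | sig B (Set.Iio i)] := by
  have hint : Integrable ((B i).indicator (fun _ => (1 : ℝ))) μ :=
    (integrable_const (1 : ℝ)).indicator (hB i)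
  have h0 : (0 : α → ℝ) ≤ᵐ[μ] μ[(B i).indicator (fun _ => (1 : ℝ)) | sig B (Set.Iio i)] := by
    refine condExp_nonneg (Filter.Eventually.of_forall fun x => ?_)
    exact Set.indicator_nonneg (fun _ _ => zero_le_one) x
  have h1 : μ[(B i).indicator (fun _ => (1 : ℝ)) | sig B (Set.Iio i)] ≤ᵐ[μ]
      μ[(fun _ => (1 : ℝ)) | sig B (Set.Iio i)] := by
    refine condExp_mono hint (integrable_const _) (Filter.Eventually.of_forall fun x => ?_)
    exact Set.indicator_le_self' (fun _ _ => zero_le_one) x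
  rw [condExp_const (sig_le B hB _)] at h1
  filter_upwards [h0, h1] with x hx0 hx1
  unfold e
  rw [min_eq_right hx1, max_eq_right (show (0 : ℝ) ≤ _ from hx0)]

/-- Orthogonality. -/
theorem r_orth (hB : ∀ i, MeasurableSet (B i)) (i : ι) (φ : α → ℝ)
    (hφ : Measurable[sig B (Set.Iio i)] φ) (C : ℝ) (hC : ∀ x, |φ x| ≤ C) :
    ∫ x, r μ B i x * φ x ∂μ = 0 := by
  have hm := sig_le B hB (Set.Iio i)
  have hint : Integrable ((B i).indicator (fun _ => (1 : ℝ))) μ :=
    (integrable_const (1 : ℝ)).indicator (hB i)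
  have hφm : Measurable φ := hφ.mono hm le_rfl
  have hind : ∀ x, |(B i).indicator (fun _ => (1 : ℝ)) x| ≤ 1 := by
    intro x
    by_cases hx : x ∈ B i
    · rw [Set.indicator_of_mem hx]; simp
    · rw [Set.indicator_of_notMem hx]; simp
  have hbdd : ∀ (ψ : α → ℝ), Measurable ψ → (∀ x, |ψ x| ≤ 1) →
      Integrable (fun x => ψ x * φ x) μ := by
    intro ψ hψ hψ1
    refine Integrable.of_bound (hψ.mul hφm).aestronglyMeasurable C
      (Filter.Eventually.of_forall fun x => ?_)
    rw [Real.norm_eq_abs, abs_mul]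
    calc |ψ x| * |φ x| ≤ 1 * C := mul_le_mul (hψ1 x) (hC x) (abs_nonneg _) zero_le_one
      _ = C := one_mul C
  have hindm : Measurable ((B i).indicator (fun _ => (1 : ℝ))) :=
    measurable_const.indicator (hB i)
  have hem : Measurable (e μ B i) := (e_meas μ B i).mono hm le_rfl
  have he1 : ∀ x, |e μ B i x| ≤ 1 := fun x => by
    rw [abs_of_nonneg (e_nonneg μ B i x)]; exact e_le_one μ B i x
  have h1 : ∫ x, (B i).indicator (fun _ => (1 : ℝ)) x * φ x ∂μ =
      ∫ x, e μ B i x * φ x ∂μ := by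
    have hpull := condExp_mul_of_stronglyMeasurable_right (m := sig B (Set.Iio i)) (μ := μ)
      (f := (B i).indicator (fun _ => (1 : ℝ))) (g := φ) hφ.stronglyMeasurable
      (hbdd _ hindm hind) hint
    rw [← integral_condExp (μ := μ) (f := fun x => (B i).indicator (fun _ => (1 : ℝ)) x * φ x) hm]
    refine integral_congr_ae ?_
    refine hpull.trans ?_
    filter_upwards [e_ae μ B hB i] with x hx
    rw [Pi.mul_apply, hx]
  unfold r
  simp only [sub_mul]
  rw [integral_sub (hbdd _ hindm hind) (hbdd _ hem he1), h1, sub_self]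

/-- The products. -/
noncomputable def R (A : Finset ι) : α → ℝ := fun x => ∏ i ∈ A, r μ B i x

theorem R_abs (A : Finset ι) (x : α) : |R μ B A x| ≤ 1 := by
  unfold R
  rw [Finset.abs_prod]
  exact Finset.prod_le_one (fun i _ => abs_nonneg _) fun i _ => r_abs μ B i x

theorem R_meas (A : Finset ι) {D : Set ι} (hD : ∀ i ∈ A, i ∈ D ∧ Set.Iio i ⊆ D) :
    Measurable[sig B D] (R μ B A) := by
  unfold R
  exact Finset.measurable_prod A fun i hi => r_meas μ B i (hD i hi).1 (hD i hi).2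

theorem R_insert (A : Finset ι) (i : ι) (hi : i ∉ A) (x : α) :
    R μ B (insert i A) x = r μ B i x * R μ B A x := by
  unfold R
  rw [Finset.prod_insert hi]

/-- The polynomial with coefficients `c` in the variables with index in `U`. -/
noncomputable def P (n : ℕ) (U : Finset ι) (c : Finset ι → ℝ) : α → ℝ := fun x =>
  ∑ A ∈ U.powerset, c A * ((1 / 3 : ℝ) ^ (n + 1)) ^ A.card * R μ B A x

theorem P_meas (n : ℕ) (U : Finset ι) (c : Finset ι → ℝ) {D : Set ι}
    (hD : ∀ i ∈ U, i ∈ D ∧ Set.Iio i ⊆ D) : Measurable[sig B D] (P μ B n U c) := by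
  unfold P
  refine Finset.measurable_sum _ fun A hA => ?_
  refine Measurable.const_mul ?_ _
  exact R_meas μ B A fun i hi => hD i (Finset.mem_powerset.1 hA hi)

theorem P_bdd (n : ℕ) (U : Finset ι) (c : Finset ι → ℝ) : ∃ C, ∀ x, |P μ B n U c x| ≤ C := by
  refine ⟨∑ A ∈ U.powerset, |c A * ((1 / 3 : ℝ) ^ (n + 1)) ^ A.card|, fun x => ?_⟩
  unfold P
  refine (Finset.abs_sum_le_sum_abs _ _).trans (Finset.sum_le_sum fun A _ => ?_)
  rw [abs_mul]
  exact mul_le_of_le_one_right (abs_nonneg _) (R_abs μ B A x)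

theorem P_insert (n : ℕ) (U : Finset ι) (c : Finset ι → ℝ) (i : ι) (hi : i ∉ U) (x : α) :
    P μ B n (insert i U) c x = P μ B n U c x +
      (1 / 3 : ℝ) ^ (n + 1) * r μ B i x * P μ B n U (fun A => c (insert i A)) x := by
  unfold P
  rw [Finset.sum_powerset_insert hi, Finset.mul_sum]
  congr 1
  refine Finset.sum_congr rfl fun A hA => ?_
  have hiA : i ∉ A := fun h => hi (Finset.mem_powerset.1 hA h)
  rw [R_insert μ B A i hiA, Finset.card_insert_of_notMem hiA, pow_succ]
  ring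

theorem main_ineq (hB : ∀ i, MeasurableSet (B i)) (n : ℕ) (U : Finset ι) :
    ∀ (c : Finset ι → ℝ) (s : ℝ), ∑ A ∈ U.powerset, c A ^ 2 < s →
      ∫ x, (P μ B n U c x) ^ (2 * (n + 1)) ∂μ ≤ μ.real Set.univ * s ^ (n + 1) := by
  induction U using Finset.induction_on_max with
  | empty =>
    intro c s hs
    have h1 : ∀ x, P μ B n ∅ c x = c ∅ := by
      intro x
      simp [P, R]
    simp only [h1, integral_const, smul_eq_mul]
    refine mul_le_mul_of_nonneg_left ?_ measureReal_nonneg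
    rw [Finset.powerset_empty, Finset.sum_singleton] at hs
    rw [pow_mul]
    gcongr
  | insert i U hiU ih =>
    intro c s hs
    have hi : i ∉ U := fun h => lt_irrefl _ (hiU i h)
    rw [Finset.sum_powerset_insert hi] at hs
    set c' : Finset ι → ℝ := fun A => c (insert i A) with hc'
    have hg0 : 0 ≤ ∑ A ∈ U.powerset, c A ^ 2 := Finset.sum_nonneg fun _ _ => sq_nonneg _
    have hh0 : 0 ≤ ∑ A ∈ U.powerset, c' A ^ 2 := Finset.sum_nonneg fun _ _ => sq_nonneg _
    obtain ⟨s1, s2, hs1, hs2, hss⟩ : ∃ s1 s2 : ℝ, ∑ A ∈ U.powerset, c A ^ 2 < s1 ∧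
        ∑ A ∈ U.powerset, c' A ^ 2 < s2 ∧ s1 + s2 = s := by
      set d := s - (∑ A ∈ U.powerset, c A ^ 2 + ∑ A ∈ U.powerset, c' A ^ 2) with hd
      have : 0 < d := by rw [hd]; linarith
      exact ⟨∑ A ∈ U.powerset, c A ^ 2 + d / 2, ∑ A ∈ U.powerset, c' A ^ 2 + d / 2,
        by linarith, by linarith, by rw [hd]; ring⟩
    have ihg := ih c s1 hs1
    have ihh := ih c' s2 hs2
    have hs1' : 0 < s1 := lt_of_le_of_lt hg0 hs1
    have hs2' : 0 < s2 := lt_of_le_of_lt hh0 hs2
    set g := P μ B n U c with hg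
    set h := P μ B n U c' with hh
    obtain ⟨Cg, hCg⟩ := P_bdd μ B n U c
    obtain ⟨Ch, hCh⟩ := P_bdd μ B n U c'
    have hD : ∀ j ∈ U, j ∈ Set.Iio i ∧ Set.Iio j ⊆ Set.Iio i := fun j hj =>
      ⟨hiU j hj, Set.Iio_subset_Iio (hiU j hj).le⟩
    have hgm' : Measurable[sig B (Set.Iio i)] g := P_meas μ B n U c hD
    have hhm' : Measurable[sig B (Set.Iio i)] h := P_meas μ B n U c' hD
    have hm := sig_le B hB (Set.Iio i)
    have hgm : Measurable g := hgm'.mono hm le_rfl
    have hhm : Measurable h := hhm'.mono hm le_rfl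
    have hrm : Measurable (r μ B i) :=
      (r_meas μ B i (D := Set.univ) (Set.mem_univ _) (Set.subset_univ _)).mono
        (sig_le B hB _) le_rfl
    have hCg0 : ∀ x, 0 ≤ Cg := fun x => (abs_nonneg _).trans (hCg x)
    have hCh0 : ∀ x, 0 ≤ Ch := fun x => (abs_nonneg _).trans (hCh x)
    -- integrability
    have int1 : Integrable (fun x => P μ B n (insert i U) c x ^ (2 * (n + 1))) μ := by
      obtain ⟨C, hC⟩ := P_bdd μ B n (insert i U) c
      have hmm : Measurable (P μ B n (insert i U) c) :=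
        (P_meas μ B n (insert i U) c (D := Set.univ)
          (fun _ _ => ⟨Set.mem_univ _, Set.subset_univ _⟩)).mono (sig_le B hB _) le_rfl
      refine Integrable.of_bound (hmm.pow_const _).aestronglyMeasurable (C ^ (2 * (n + 1)))
        (Filter.Eventually.of_forall fun x => ?_)
      rw [Real.norm_eq_abs, abs_pow]
      exact pow_le_pow_left₀ (abs_nonneg _) (hC x) _
    have intg : Integrable (fun x => g x ^ (2 * (n + 1))) μ := by
      refine Integrable.of_bound (hgm.pow_const _).aestronglyMeasurable (Cg ^ (2 * (n + 1)))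
        (Filter.Eventually.of_forall fun x => ?_)
      rw [Real.norm_eq_abs, abs_pow]
      exact pow_le_pow_left₀ (abs_nonneg _) (hCg x) _
    have inth : Integrable (fun x => h x ^ (2 * (n + 1))) μ := by
      refine Integrable.of_bound (hhm.pow_const _).aestronglyMeasurable (Ch ^ (2 * (n + 1)))
        (Filter.Eventually.of_forall fun x => ?_)
      rw [Real.norm_eq_abs, abs_pow]
      exact pow_le_pow_left₀ (abs_nonneg _) (hCh x) _
    have hφm : Measurable[sig B (Set.Iio i)] (fun x => h x * g x ^ (2 * n + 1)) :=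
      hhm'.mul (hgm'.pow_const _)
    have hφb : ∀ x, |h x * g x ^ (2 * n + 1)| ≤ Ch * Cg ^ (2 * n + 1) := by
      intro x
      rw [abs_mul, abs_pow]
      exact mul_le_mul (hCh x) (pow_le_pow_left₀ (abs_nonneg _) (hCg x) _) (by positivity)
        (hCh0 x)
    have horth := r_orth μ B hB i _ hφm _ hφb
    have intφ : Integrable (fun x => r μ B i x * (h x * g x ^ (2 * n + 1))) μ := by
      refine Integrable.of_bound
        (hrm.mul (hhm.mul (hgm.pow_const _))).aestronglyMeasurable (Ch * Cg ^ (2 * n + 1))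
        (Filter.Eventually.of_forall fun x => ?_)
      rw [Real.norm_eq_abs, abs_mul]
      calc |r μ B i x| * |h x * g x ^ (2 * n + 1)| ≤ 1 * (Ch * Cg ^ (2 * n + 1)) :=
            mul_le_mul (r_abs μ B i x) (hφb x) (abs_nonneg _) zero_le_one
        _ = _ := one_mul _
    -- the pointwise bound
    set a : ℝ := (2 * (n + 1)) * (1 / 3) ^ (n + 1) with ha
    have hpt : ∀ x, P μ B n (insert i U) c x ^ (2 * (n + 1)) ≤
        (s1 + s2) ^ n * (g x ^ (2 * (n + 1)) / s1 ^ n + h x ^ (2 * (n + 1)) / s2 ^ n) +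
          a * (r μ B i x * (h x * g x ^ (2 * n + 1))) := by
      intro x
      rw [P_insert μ B n U c i hi]
      have h1 := pointwise n (g x) (h x) (r μ B i x) (r_abs μ B i x)
      have h2 := power_split n (g x ^ 2) (h x ^ 2) s1 s2 (sq_nonneg _) (sq_nonneg _) hs1' hs2'
      rw [← pow_mul, ← pow_mul] at h2
      have h3 : (2 * ((n : ℝ) + 1)) * ((1 / 3) ^ (n + 1) * r μ B i x * h x) * g x ^ (2 * n + 1) =
          a * (r μ B i x * (h x * g x ^ (2 * n + 1))) := by
        rw [ha]; ring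
      rw [h3] at h1
      linarith
    have int2 : Integrable (fun x => (s1 + s2) ^ n *
        (g x ^ (2 * (n + 1)) / s1 ^ n + h x ^ (2 * (n + 1)) / s2 ^ n)) μ :=
      ((intg.div_const _).add (inth.div_const _)).const_mul _
    calc ∫ x, (P μ B n (insert i U) c x) ^ (2 * (n + 1)) ∂μ
        ≤ ∫ x, ((s1 + s2) ^ n *
            (g x ^ (2 * (n + 1)) / s1 ^ n + h x ^ (2 * (n + 1)) / s2 ^ n) +
          a * (r μ B i x * (h x * g x ^ (2 * n + 1)))) ∂μ :=
          integral_mono int1 (int2.add (intφ.const_mul a)) hpt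
      _ = (s1 + s2) ^ n * ((∫ x, g x ^ (2 * (n + 1)) ∂μ) / s1 ^ n +
            (∫ x, h x ^ (2 * (n + 1)) ∂μ) / s2 ^ n) := by
          rw [integral_add int2 (intφ.const_mul a), integral_const_mul, integral_const_mul, horth,
            mul_zero, add_zero, integral_add (intg.div_const _) (inth.div_const _),
            integral_div, integral_div]
      _ ≤ (s1 + s2) ^ n * ((μ.real Set.univ * s1 ^ (n + 1)) / s1 ^ n +
            (μ.real Set.univ * s2 ^ (n + 1)) / s2 ^ n) := by
          gcongr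
      _ = μ.real Set.univ * s ^ (n + 1) := by
          rw [← hss]
          have e1 : s1 ^ n ≠ 0 := by positivity
          have e2 : s2 ^ n ≠ 0 := by positivity
          rw [pow_succ, pow_succ, pow_succ]
          field_simp

end Pool.Agent.H6.HilbertGen
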