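import Pool.Agent.H6.HilbertGen1

set_option autoImplicit false

/-!
Operators from Hilbert spaces built from families with an upper 2-estimate, and the norm estimate
in `L^p`.
-/

namespace Pool.Agent.H6.HilbertGen

open MeasureTheory Filter Topology

set_option linter.unusedSectionVars false

theorem exists_operator {X : Type} [NormedAddCommGroup X] [NormedSpace ℝ X] [CompleteSpace X]
    {Γ : Type} (x : Γ → X) (C : ℝ) (hC : 0 ≤ C)
    (h : ∀ (S : Finset Γ) (c : Γ → ℝ),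
      ‖∑ γ ∈ S, c γ • x γ‖ ≤ C * Real.sqrt (∑ γ ∈ S, c γ ^ 2)) :
    ∃ (H : Type) (_ : NormedAddCommGroup H) (_ : InnerProductSpace ℝ H)
      (_ : CompleteSpace H) (T : H →L[ℝ] X), ∀ γ, x γ ∈ Set.range T := by
  classical
  have h2 : (0 : ℝ) < (2 : ENNReal).toReal := by norm_num
  have hsq : ∀ c : lp (fun _ : Γ => ℝ) 2, Summable (fun γ => c γ ^ 2) := by
    intro c
    have := (lp.memℓp c).summable h2
    refine this.congr fun γ => ?_
    rw [ENNReal.toReal_ofNat, Real.norm_eq_abs]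
    rw [show (2 : ℝ) = ((2 : ℕ) : ℝ) by norm_num, Real.rpow_natCast, sq_abs]
  have hle : ∀ (c : lp (fun _ : Γ => ℝ) 2) (S : Finset Γ),
      Real.sqrt (∑ γ ∈ S, c γ ^ 2) ≤ ‖c‖ := by
    intro c S
    have h3 := lp.sum_rpow_le_norm_rpow h2 c S
    rw [ENNReal.toReal_ofNat] at h3
    rw [show (2 : ℝ) = ((2 : ℕ) : ℝ) by norm_num] at h3
    simp only [Real.rpow_natCast, Real.norm_eq_abs, sq_abs] at h3
    rw [Real.sqrt_le_left (norm_nonneg _)]
    exact h3
  have hsum : ∀ c : lp (fun _ : Γ => ℝ) 2, Summable (fun γ => c γ • x γ) := by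
    intro c
    rw [summable_iff_vanishing_norm]
    intro ε hε
    have h4 := hsq c
    rw [summable_iff_vanishing_norm] at h4
    obtain ⟨s, hs⟩ := h4 ((ε / (C + 1)) ^ 2) (by positivity)
    refine ⟨s, fun t ht => ?_⟩
    have h5 := hs t ht
    rw [Real.norm_of_nonneg (Finset.sum_nonneg fun _ _ => sq_nonneg _)] at h5
    have h6 : Real.sqrt (∑ γ ∈ t, c γ ^ 2) < ε / (C + 1) := by
      rw [Real.sqrt_lt' (by positivity)]
      exact h5
    calc ‖∑ γ ∈ t, c γ • x γ‖ ≤ C * Real.sqrt (∑ γ ∈ t, c γ ^ 2) := h t _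
      _ ≤ C * (ε / (C + 1)) := mul_le_mul_of_nonneg_left h6.le hC
      _ < ε := by
          rw [← mul_div_assoc, div_lt_iff₀ (by positivity)]
          nlinarith
  let T0 : lp (fun _ : Γ => ℝ) 2 →ₗ[ℝ] X :=
    { toFun := fun c => ∑' γ, c γ • x γ
      map_add' := by
        intro c d
        rw [← (hsum c).tsum_add (hsum d)]
        refine tsum_congr fun γ => ?_
        rw [lp.coeFn_add, Pi.add_apply, add_smul]
      map_smul' := by
        intro a c
        rw [RingHom.id_apply, ← (hsum c).tsum_const_smul]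
        refine tsum_congr fun γ => ?_
        rw [lp.coeFn_smul, Pi.smul_apply, smul_smul, smul_eq_mul] }
  have hbound : ∀ c, ‖T0 c‖ ≤ C * ‖c‖ := by
    intro c
    have h7 : Tendsto (fun S : Finset Γ => ‖∑ γ ∈ S, c γ • x γ‖) atTop (𝓝 ‖T0 c‖) :=
      ((hsum c).hasSum).norm
    refine le_of_tendsto' h7 fun S => ?_
    exact (h S _).trans (mul_le_mul_of_nonneg_left (hle c S) hC)
  refine ⟨lp (fun _ : Γ => ℝ) 2, inferInstance, inferInstance, inferInstance,
    T0.mkContinuous C hbound, fun γ => ⟨lp.single 2 γ (1 : ℝ), ?_⟩⟩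
  change ∑' δ, (lp.single 2 γ (1 : ℝ) : lp (fun _ : Γ => ℝ) 2) δ • x δ = x γ
  rw [tsum_eq_single γ]
  · simp
  · intro δ hδ
    rw [lp.single_apply_ne _ _ _ hδ, zero_smul]

variable {α : Type} [m0 : MeasurableSpace α] (μ : Measure α) [IsFiniteMeasure μ]
variable {ι : Type} [LinearOrder ι] (B : ι → Set α)

theorem main_ineq_le (hB : ∀ i, MeasurableSet (B i)) (n : ℕ) (U : Finset ι)
    (c : Finset ι → ℝ) :
    ∫ x, (P μ B n U c x) ^ (2 * (n + 1)) ∂μ ≤
      μ.real Set.univ * (∑ A ∈ U.powerset, c A ^ 2) ^ (n + 1) := by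
  have hcont : Tendsto (fun s : ℝ => μ.real Set.univ * s ^ (n + 1))
      (𝓝[>] (∑ A ∈ U.powerset, c A ^ 2))
      (𝓝 (μ.real Set.univ * (∑ A ∈ U.powerset, c A ^ 2) ^ (n + 1))) := by
    refine Tendsto.mono_left ?_ nhdsWithin_le_nhds
    exact (continuous_const.mul (continuous_id.pow _)).tendsto _
  refine ge_of_tendsto hcont ?_
  filter_upwards [self_mem_nhdsWithin] with s hs
  exact main_ineq μ B hB n U c s hs

variable (p : ENNReal)

theorem memLp_bdd {f : α → ℝ} (hf : Measurable f) (hb : ∃ C, ∀ x, |f x| ≤ C) : MemLp f p μ := by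
  obtain ⟨C, hC⟩ := hb
  exact MemLp.of_bound hf.aestronglyMeasurable C (Eventually.of_forall hC)

theorem R_meas0 (hB : ∀ i, MeasurableSet (B i)) (A : Finset ι) : Measurable (R μ B A) :=
  (R_meas μ B A (D := Set.univ) (fun _ _ => ⟨Set.mem_univ _, Set.subset_univ _⟩)).mono
    (sig_le B hB _) le_rfl

theorem r_meas0 (hB : ∀ i, MeasurableSet (B i)) (i : ι) : Measurable (r μ B i) :=
  (r_meas μ B i (D := Set.univ) (Set.mem_univ _) (Set.subset_univ _)).mono
    (sig_le B hB _) le_rfl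

theorem P_meas0 (hB : ∀ i, MeasurableSet (B i)) (n : ℕ) (U : Finset ι) (c : Finset ι → ℝ) :
    Measurable (P μ B n U c) :=
  (P_meas μ B n U c (D := Set.univ) (fun _ _ => ⟨Set.mem_univ _, Set.subset_univ _⟩)).mono
    (sig_le B hB _) le_rfl

/-- The constant in the norm estimate. -/
noncomputable def K (n : ℕ) : ℝ :=
  (μ.real Set.univ) ^ ((2 * ((n : ℝ) + 1))⁻¹) *
    ((μ Set.univ) ^ (1 / p.toReal - 1 / (((2 * (n + 1) : ℕ) : ENNReal)).toReal)).toReal

theorem K_nonneg (n : ℕ) : 0 ≤ K μ p n := by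
  unfold K
  exact mul_nonneg (Real.rpow_nonneg measureReal_nonneg _) ENNReal.toReal_nonneg

theorem norm_le (hB : ∀ i, MeasurableSet (B i)) (n : ℕ) (hp0 : p ≠ 0)
    (hpn : p ≤ ((2 * (n + 1) : ℕ) : ENNReal)) (U : Finset ι) (c : Finset ι → ℝ) :
    (eLpNorm (P μ B n U c) p μ).toReal ≤
      K μ p n * Real.sqrt (∑ A ∈ U.powerset, c A ^ 2) := by
  set f := P μ B n U c with hf
  set S := ∑ A ∈ U.powerset, c A ^ 2 with hS
  have hS0 : 0 ≤ S := Finset.sum_nonneg fun _ _ => sq_nonneg _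
  have hfm : Measurable f := P_meas0 μ B hB n U c
  have hfb := P_bdd μ B n U c
  have hq0 : (((2 * (n + 1) : ℕ) : ENNReal)) ≠ 0 := by
    simp
  have hqt : (((2 * (n + 1) : ℕ) : ENNReal)) ≠ ⊤ := ENNReal.natCast_ne_top _
  have h1 := eLpNorm_le_eLpNorm_mul_rpow_measure_univ (μ := μ) hpn
    hfm.aestronglyMeasurable
  have h2 := (memLp_bdd μ (((2 * (n + 1) : ℕ) : ENNReal)) hfm hfb).eLpNorm_eq_integral_rpow_norm
    hq0 hqt
  have hqr : (((2 * (n + 1) : ℕ) : ENNReal)).toReal = 2 * ((n : ℝ) + 1) := by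
    rw [ENNReal.toReal_natCast]; push_cast; ring
  have h3 : ∀ x, ‖f x‖ ^ (((2 * (n + 1) : ℕ) : ENNReal)).toReal = f x ^ (2 * (n + 1)) := by
    intro x
    rw [ENNReal.toReal_natCast, Real.rpow_natCast, Real.norm_eq_abs]
    exact Even.pow_abs (even_two_mul _) _
  simp only [h3] at h2
  have h4 := main_ineq_le μ B hB n U c
  have hexp : (0 : ℝ) ≤ (2 * ((n : ℝ) + 1))⁻¹ := by positivity
  have hint0 : 0 ≤ ∫ x, f x ^ (2 * (n + 1)) ∂μ := by
    refine integral_nonneg fun x => ?_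
    change 0 ≤ f x ^ (2 * (n + 1))
    rw [pow_mul]; positivity
  have h5 : (∫ x, f x ^ (2 * (n + 1)) ∂μ) ^ ((2 * ((n : ℝ) + 1))⁻¹) ≤
      (μ.real Set.univ) ^ ((2 * ((n : ℝ) + 1))⁻¹) * Real.sqrt S := by
    refine (Real.rpow_le_rpow hint0 h4 hexp).trans (le_of_eq ?_)
    rw [Real.mul_rpow measureReal_nonneg (by positivity)]
    congr 1
    rw [← Real.rpow_natCast, ← Real.rpow_mul hS0, Real.sqrt_eq_rpow]
    congr 1
    push_cast
    field_simp
  have hexp2 : 0 ≤ 1 / p.toReal - 1 / (((2 * (n + 1) : ℕ) : ENNReal)).toReal := by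
    have hpt : p ≠ ⊤ := ne_top_of_le_ne_top hqt hpn
    have hp1 : 0 < p.toReal := ENNReal.toReal_pos hp0 hpt
    have hp2 : p.toReal ≤ (((2 * (n + 1) : ℕ) : ENNReal)).toReal :=
      ENNReal.toReal_mono hqt hpn
    rw [sub_nonneg]
    exact one_div_le_one_div_of_le hp1 hp2
  have hfin : (μ Set.univ) ^ (1 / p.toReal - 1 / (((2 * (n + 1) : ℕ) : ENNReal)).toReal) ≠ ⊤ :=
    ENNReal.rpow_ne_top_of_nonneg hexp2 (measure_ne_top _ _)
  rw [h2, hqr] at h1
  have h6 := ENNReal.toReal_mono (ENNReal.mul_ne_top ENNReal.ofReal_ne_top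
    (by rw [hqr] at hfin; exact hfin)) h1
  refine h6.trans ?_
  rw [ENNReal.toReal_mul, ENNReal.toReal_ofReal (Real.rpow_nonneg hint0 _)]
  unfold K
  rw [hqr]
  calc _ ≤ ((μ.real Set.univ) ^ ((2 * ((n : ℝ) + 1))⁻¹) * Real.sqrt S) *
        ((μ Set.univ) ^ (1 / p.toReal - 1 / (2 * ((n : ℝ) + 1)))).toReal :=
        mul_le_mul_of_nonneg_right h5 ENNReal.toReal_nonneg
    _ = _ := by ring

end Pool.Agent.H6.HilbertGen
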