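import Pool.Agent.H6.HilbertGen2

set_option autoImplicit false

/-!
Density of the span of the products, and the final statement.
-/

namespace Pool.Agent.H6.HilbertGen

open MeasureTheory Filter Topology

set_option linter.unusedSectionVars false

variable {α : Type} [m0 : MeasurableSpace α] (μ : Measure α) [IsFiniteMeasure μ]
variable (p : ENNReal) [Fact (1 ≤ p)]

/-- The class of a bounded measurable function. -/
noncomputable def J (f : α → ℝ) (hf : Measurable f) (hb : ∃ C, ∀ x, |f x| ≤ C) : Lp ℝ p μ :=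
  (memLp_bdd μ p hf hb).toLp f

theorem J_congr (f g : α → ℝ) (hf : Measurable f) (hb : ∃ C, ∀ x, |f x| ≤ C)
    (hg : Measurable g) (hgb : ∃ C, ∀ x, |g x| ≤ C) (h : f = g) :
    J μ p f hf hb = J μ p g hg hgb := by
  subst h; rfl

theorem ind_bdd (s : Set α) : ∃ C, ∀ x, |s.indicator (fun _ => (1 : ℝ)) x| ≤ C := by
  refine ⟨1, fun x => ?_⟩
  by_cases hx : x ∈ s
  · rw [Set.indicator_of_mem hx]; simp
  · rw [Set.indicator_of_notMem hx]; simp

/-- The class of the indicator of a measurable set. -/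
noncomputable def I (s : Set α) (hs : MeasurableSet s) : Lp ℝ p μ :=
  J μ p (s.indicator (fun _ => (1 : ℝ))) (measurable_const.indicator hs) (ind_bdd s)

theorem I_eq (s : Set α) (hs : MeasurableSet s) (c : ℝ) :
    indicatorConstLp p hs (measure_ne_top μ s) c = c • I μ p s hs := by
  unfold I J
  rw [← MemLp.toLp_const_smul]
  unfold indicatorConstLp
  refine MemLp.toLp_congr _ _ ?_
  refine Eventually.of_forall fun x => ?_
  by_cases hx : x ∈ s
  · simp [hx]
  · simp [hx]

/-- A closed subspace containing all indicators of a sub sigma algebra contains all functions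
measurable with respect to it. -/
theorem mem_of_meas {α : Type} (m : MeasurableSpace α) [m0 : MeasurableSpace α] (μ : Measure α)
    [IsFiniteMeasure μ] (p : ENNReal) [Fact (1 ≤ p)] (hp : p ≠ ⊤) (hm : m ≤ m0)
    (V : Submodule ℝ (Lp ℝ p μ)) (hV : IsClosed (V : Set (Lp ℝ p μ)))
    (h : ∀ s (hs : MeasurableSet[m] s), I μ p s (hm s hs) ∈ V)
    (f : Lp ℝ p μ) (hf : AEStronglyMeasurable[m] f μ) : f ∈ V := by
  refine Lp.induction_stronglyMeasurable hm hp (fun g => g ∈ V) ?_ ?_ ?_ f hf
  · intro c s hs hμs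
    rw [Lp.simpleFunc.coe_indicatorConst]
    have h1 := I_eq μ p s (hm s hs) c
    rw [show indicatorConstLp p (hm s hs) hμs.ne c = c • I μ p s (hm s hs) from h1]
    exact V.smul_mem c (h s hs)
  · intro f g hf hg _ _ _ hfV hgV
    exact V.add_mem hfV hgV
  · exact hV.preimage continuous_subtype_val

variable {ι : Type} [LinearOrder ι] (B : ι → Set α)

theorem R_bdd (A : Finset ι) : ∃ C, ∀ x, |R μ B A x| ≤ C := ⟨1, R_abs μ B A⟩

theorem r_bdd (i : ι) : ∃ C, ∀ x, |r μ B i x| ≤ C := ⟨1, r_abs μ B i⟩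

/-- The class of a product. -/
noncomputable def LR (hB : ∀ i, MeasurableSet (B i)) (A : Finset ι) : Lp ℝ p μ :=
  J μ p (R μ B A) (R_meas0 μ B hB A) (R_bdd μ B A)

/-- The closed span of the products with indices in `D`. -/
noncomputable def V (hB : ∀ i, MeasurableSet (B i)) (D : Set ι) : Submodule ℝ (Lp ℝ p μ) :=
  (Submodule.span ℝ {y | ∃ A : Finset ι, (∀ i ∈ A, i ∈ D) ∧ y = LR μ p B hB A}).topologicalClosure

theorem V_closed (hB : ∀ i, MeasurableSet (B i)) (D : Set ι) :
    IsClosed (V μ p B hB D : Set (Lp ℝ p μ)) := Submodule.isClosed_topologicalClosure _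

theorem LR_mem (hB : ∀ i, MeasurableSet (B i)) (D : Set ι) (A : Finset ι) (hA : ∀ i ∈ A, i ∈ D) :
    LR μ p B hB A ∈ V μ p B hB D :=
  Submodule.le_topologicalClosure _ (Submodule.subset_span ⟨A, hA, rfl⟩)

theorem V_mono (hB : ∀ i, MeasurableSet (B i)) {D D' : Set ι} (h : D ⊆ D') :
    V μ p B hB D ≤ V μ p B hB D' := by
  refine Submodule.topologicalClosure_minimal _ ?_ (V_closed μ p B hB D')
  rw [Submodule.span_le]
  rintro _ ⟨A, hA, rfl⟩
  exact LR_mem μ p B hB D' A fun i hi => h (hA i hi)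

/-- Multiplication by a bounded measurable function. -/
noncomputable def mult (g : α → ℝ) (hg : Measurable g) (hb : ∃ C, ∀ x, |g x| ≤ C) :
    Lp ℝ p μ →L[ℝ] Lp ℝ p μ :=
  (ContinuousLinearMap.mul ℝ ℝ).holderL μ ⊤ p p (J μ ⊤ g hg hb)

theorem mul_bdd {f g : α → ℝ} (hf : ∃ C, ∀ x, |f x| ≤ C) (hg : ∃ C, ∀ x, |g x| ≤ C) :
    ∃ C, ∀ x, |f x * g x| ≤ C := by
  obtain ⟨C, hC⟩ := hf
  obtain ⟨D, hD⟩ := hg
  refine ⟨C * D, fun x => ?_⟩
  rw [abs_mul]
  exact mul_le_mul (hC x) (hD x) (abs_nonneg _) ((abs_nonneg _).trans (hC x))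

theorem mult_J (g : α → ℝ) (hg : Measurable g) (hb : ∃ C, ∀ x, |g x| ≤ C)
    (f : α → ℝ) (hf : Measurable f) (hfb : ∃ C, ∀ x, |f x| ≤ C) :
    mult μ p g hg hb (J μ p f hf hfb) =
      J μ p (fun x => g x * f x) (hg.mul hf) (mul_bdd hb hfb) := by
  unfold mult
  rw [ContinuousLinearMap.holderL_apply_apply]
  apply Lp.ext
  refine (ContinuousLinearMap.coeFn_holder _ _ _).trans ?_
  have h1 : J μ ⊤ g hg hb =ᵐ[μ] g := MemLp.coeFn_toLp _
  have h2 : J μ p f hf hfb =ᵐ[μ] f := MemLp.coeFn_toLp _
  have h3 : J μ p (fun x => g x * f x) (hg.mul hf) (mul_bdd hb hfb) =ᵐ[μ] fun x => g x * f x :=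
    MemLp.coeFn_toLp _
  filter_upwards [h1, h2, h3] with x hx1 hx2 hx3
  rw [hx1, hx2, hx3]
  rfl

theorem mult_V (hB : ∀ i, MeasurableSet (B i)) (D : Set ι) (j : ι) (hj : j ∈ D)
    (hD : Set.Iio j ⊆ D) (f : Lp ℝ p μ) (hf : f ∈ V μ p B hB (Set.Iio j)) :
    mult μ p (r μ B j) (r_meas0 μ B hB j) (r_bdd μ B j) f ∈ V μ p B hB D := by
  set M := mult μ p (r μ B j) (r_meas0 μ B hB j) (r_bdd μ B j) with hM
  have hle : V μ p B hB (Set.Iio j) ≤ (V μ p B hB D).comap (M : Lp ℝ p μ →ₗ[ℝ] Lp ℝ p μ) := by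
    refine Submodule.topologicalClosure_minimal _ ?_ ?_
    · rw [Submodule.span_le]
      rintro _ ⟨A, hA, rfl⟩
      change M (LR μ p B hB A) ∈ V μ p B hB D
      have hjA : j ∉ A := fun h => lt_irrefl j (hA j h)
      have h1 : M (LR μ p B hB A) = LR μ p B hB (insert j A) := by
        unfold LR
        rw [hM, mult_J]
        refine J_congr _ _ _ _ _ _ _ _ ?_
        funext x
        rw [R_insert μ B A j hjA]
      rw [h1]
      refine LR_mem μ p B hB D _ fun i hi => ?_
      rcases Finset.mem_insert.1 hi with rfl | hi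
      · exact hj
      · exact hD (hA i hi)
    · exact (V_closed μ p B hB D).preimage M.continuous
  exact hle hf

/-- All indicators of sets in the sigma algebra of `D` are in the closed span for `D`. -/
def Good (hB : ∀ i, MeasurableSet (B i)) (D : Set ι) : Prop :=
  ∀ s (hs : MeasurableSet[sig B D] s), I μ p s (sig_le B hB D s hs) ∈ V μ p B hB D

theorem gens_pi (D : Set ι) : IsPiSystem (gens B D) := by
  rintro _ ⟨F, hF, rfl⟩ _ ⟨G, hG, rfl⟩ _
  refine ⟨F ∪ G, fun j hj => ?_, ?_⟩
  · rcases Finset.mem_union.1 hj with h | h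
    · exact hF j h
    · exact hG j h
  · ext x
    simp only [Set.mem_inter_iff, Set.mem_iInter, Finset.mem_union]
    constructor
    · rintro ⟨h1, h2⟩ i (hi | hi)
      · exact h1 i hi
      · exact h2 i hi
    · intro h
      exact ⟨fun i hi => h i (Or.inl hi), fun i hi => h i (Or.inr hi)⟩

theorem J_add (f g : α → ℝ) (hf : Measurable f) (hb : ∃ C, ∀ x, |f x| ≤ C)
    (hg : Measurable g) (hgb : ∃ C, ∀ x, |g x| ≤ C) (h : α → ℝ) (hh : Measurable h)
    (hhb : ∃ C, ∀ x, |h x| ≤ C) (heq : ∀ x, h x = f x + g x) :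
    J μ p h hh hhb = J μ p f hf hb + J μ p g hg hgb := by
  unfold J
  rw [← MemLp.toLp_add]
  refine MemLp.toLp_congr _ _ (Eventually.of_forall fun x => ?_)
  exact heq x

theorem J_sub (f g : α → ℝ) (hf : Measurable f) (hb : ∃ C, ∀ x, |f x| ≤ C)
    (hg : Measurable g) (hgb : ∃ C, ∀ x, |g x| ≤ C) (h : α → ℝ) (hh : Measurable h)
    (hhb : ∃ C, ∀ x, |h x| ≤ C) (heq : ∀ x, h x = f x - g x) :
    J μ p h hh hhb = J μ p f hf hb - J μ p g hg hgb := by
  unfold J
  rw [← MemLp.toLp_sub]
  refine MemLp.toLp_congr _ _ (Eventually.of_forall fun x => ?_)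
  exact heq x

theorem basic_mem (hp : p ≠ ⊤) (hB : ∀ i, MeasurableSet (B i)) (D : Set ι)
    (hD : ∀ j ∈ D, Set.Iio j ⊆ D)
    (hgood : ∀ j ∈ D, Good μ p B hB (Set.Iio j)) (F : Finset ι) :
    (∀ j ∈ F, j ∈ D) → ∀ (hs : MeasurableSet (⋂ j ∈ F, B j)),
      I μ p (⋂ j ∈ F, B j) hs ∈ V μ p B hB D := by
  induction F using Finset.induction_on_max with
  | empty =>
    intro _ hs
    have h1 : I μ p (⋂ j ∈ (∅ : Finset ι), B j) hs = LR μ p B hB ∅ := by
      unfold I LR
      refine J_congr _ _ _ _ _ _ _ _ ?_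
      funext x
      simp [R]
    rw [h1]
    exact LR_mem μ p B hB D ∅ (by simp)
  | insert j F hjF ih =>
    intro hF hs
    have hjD : j ∈ D := hF j (Finset.mem_insert_self j F)
    have hs' : MeasurableSet[sig B (Set.Iio j)] (⋂ i ∈ F, B i) :=
      F.measurableSet_biInter fun i hi => meas_B B (hjF i hi)
    have hs0 : MeasurableSet (⋂ i ∈ F, B i) := sig_le B hB _ _ hs'
    have h1 := hgood j hjD _ hs'
    have h2 := mult_V μ p B hB D j hjD (hD j hjD) _ h1
    -- the conditional expectation part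
    have hem : Measurable[sig B (Set.Iio j)]
        (fun x => e μ B j x * (⋂ i ∈ F, B i).indicator (fun _ => (1 : ℝ)) x) :=
      (e_meas μ B j).mul (Measurable.indicator measurable_const hs')
    have heb : ∃ C, ∀ x, |e μ B j x| ≤ C := ⟨1, fun x => by
      rw [abs_of_nonneg (e_nonneg μ B j x)]; exact e_le_one μ B j x⟩
    have hem0 := hem.mono (sig_le B hB _) le_rfl
    have h3 : J μ p _ hem0 (mul_bdd heb (ind_bdd _)) ∈ V μ p B hB (Set.Iio j) := by
      refine mem_of_meas (sig B (Set.Iio j)) μ p hp (sig_le B hB _) _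
        (V_closed μ p B hB _) (hgood j hjD) _ ?_
      refine AEStronglyMeasurable.congr (f := fun x =>
        e μ B j x * (⋂ i ∈ F, B i).indicator (fun _ => (1 : ℝ)) x)
        hem.stronglyMeasurable.aestronglyMeasurable ?_
      exact (MemLp.coeFn_toLp _).symm
    have h4 := V_mono μ p B hB (hD j hjD) h3
    unfold I at h2
    rw [mult_J] at h2
    have h5 := Submodule.add_mem _ h2 h4
    convert h5 using 1
    unfold I
    refine J_add μ p _ _ _ _ _ _ _ _ _ ?_
    intro x
    have h6 : (⋂ i ∈ insert j F, B i) = B j ∩ ⋂ i ∈ F, B i := by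
      rw [Finset.set_biInter_insert]
    rw [h6]
    unfold r
    by_cases hx1 : x ∈ B j
    · by_cases hx2 : x ∈ ⋂ i ∈ F, B i
      · rw [Set.indicator_of_mem hx1, Set.indicator_of_mem hx2,
          Set.indicator_of_mem (show x ∈ B j ∩ ⋂ i ∈ F, B i from ⟨hx1, hx2⟩)]
        ring
      · rw [Set.indicator_of_notMem hx2,
          Set.indicator_of_notMem (fun h : x ∈ B j ∩ ⋂ i ∈ F, B i => hx2 h.2)]
        ring
    · rw [Set.indicator_of_notMem hx1,
        Set.indicator_of_notMem (fun h : x ∈ B j ∩ ⋂ i ∈ F, B i => hx1 h.1)]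
      ring

theorem good_step (hp : p ≠ ⊤) (hB : ∀ i, MeasurableSet (B i)) (D : Set ι)
    (hD : ∀ j ∈ D, Set.Iio j ⊆ D)
    (hgood : ∀ j ∈ D, Good μ p B hB (Set.Iio j)) : Good μ p B hB D := by
  intro s hs
  have hm := sig_le B hB D
  induction s, hs using MeasurableSpace.induction_on_inter (m := sig B D) (s := gens B D) rfl
    (gens_pi B D) with
  | empty =>
    have : I μ p ∅ (hm _ (@MeasurableSet.empty _ (sig B D))) = 0 := by
      unfold I J
      rw [← MemLp.toLp_zero (MemLp.zero (ε := ℝ) (μ := μ) (p := p))]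
      refine MemLp.toLp_congr _ _ (Eventually.of_forall fun x => ?_)
      simp
    rw [this]
    exact Submodule.zero_mem _
  | basic t ht =>
    obtain ⟨F, hF, rfl⟩ := ht
    exact basic_mem μ p B hp hB D hD hgood F hF _
  | compl t ht ih =>
    have h1 : I μ p tᶜ (hm _ ht.compl) = LR μ p B hB ∅ - I μ p t (hm _ ht) := by
      unfold I LR
      refine J_sub μ p _ _ _ _ _ _ _ _ _ ?_
      intro x
      by_cases hx : x ∈ t
      · rw [Set.indicator_of_notMem (fun h : x ∈ tᶜ => h hx), Set.indicator_of_mem hx]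
        simp [R]
      · rw [Set.indicator_of_mem (show x ∈ tᶜ from hx), Set.indicator_of_notMem hx]
        simp [R]
    rw [h1]
    exact Submodule.sub_mem _ (LR_mem μ p B hB D ∅ (by simp)) ih
  | iUnion f hdisj hf ih =>
    have hmeas : ∀ N : ℕ, MeasurableSet[sig B D] (⋃ n ∈ Finset.range N, f n) := fun N =>
      Finset.measurableSet_biUnion _ fun n _ => hf n
    have hpart : ∀ N : ℕ, I μ p (⋃ n ∈ Finset.range N, f n) (hm _ (hmeas N)) ∈ V μ p B hB D := by
      intro N
      have h2 : I μ p (⋃ n ∈ Finset.range N, f n) (hm _ (hmeas N)) =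
          ∑ n ∈ Finset.range N, I μ p (f n) (hm _ (hf n)) := by
        induction N with
        | zero =>
          rw [Finset.sum_range_zero]
          unfold I J
          rw [← MemLp.toLp_zero (MemLp.zero (ε := ℝ) (μ := μ) (p := p))]
          refine MemLp.toLp_congr _ _ (Eventually.of_forall fun x => ?_)
          simp
        | succ N ihN =>
          rw [Finset.sum_range_succ, ← ihN]
          unfold I
          refine J_add μ p _ _ _ _ _ _ _ _ _ ?_
          intro x
          have h3 : (⋃ n ∈ Finset.range (N + 1), f n) = (⋃ n ∈ Finset.range N, f n) ∪ f N := by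
            rw [Finset.range_add_one, Finset.set_biUnion_insert, Set.union_comm]
          rw [h3]
          by_cases hx1 : x ∈ f N
          · have hx2 : x ∉ ⋃ n ∈ Finset.range N, f n := by
              intro h
              simp only [Set.mem_iUnion, Finset.mem_range, exists_prop] at h
              obtain ⟨n, hn, hxn⟩ := h
              exact Set.disjoint_left.1 (hdisj (show n ≠ N by omega)) hxn hx1
            rw [Set.indicator_of_mem (show x ∈ (⋃ n ∈ Finset.range N, f n) ∪ f N from
              Or.inr hx1), Set.indicator_of_notMem hx2,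
              Set.indicator_of_mem hx1]
            ring
          · by_cases hx2 : x ∈ ⋃ n ∈ Finset.range N, f n
            · rw [Set.indicator_of_mem (show x ∈ (⋃ n ∈ Finset.range N, f n) ∪ f N from
                Or.inl hx2), Set.indicator_of_mem hx2,
                Set.indicator_of_notMem hx1]
              ring
            · rw [Set.indicator_of_notMem (show x ∉ (⋃ n ∈ Finset.range N, f n) ∪ f N from
                fun h => h.elim hx2 hx1),
                Set.indicator_of_notMem hx2, Set.indicator_of_notMem hx1]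
              ring
      rw [h2]
      exact Submodule.sum_mem _ fun n _ => ih n
    have hU : MeasurableSet[sig B D] (⋃ n, f n) := MeasurableSet.iUnion hf
    have hlim : Tendsto (fun N : ℕ => I μ p (⋃ n ∈ Finset.range N, f n) (hm _ (hmeas N))) atTop
        (𝓝 (I μ p (⋃ n, f n) (hm _ hU))) := by
      have hI : ∀ s (hs : MeasurableSet s), I μ p s hs =
          indicatorConstLp p hs (measure_ne_top μ s) (1 : ℝ) := fun s hs => by
        rw [I_eq, one_smul]
      simp only [hI]
      refine tendsto_indicatorConstLp_set hp ?_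
      have h5 : Tendsto (fun N : ℕ => μ ((⋃ n, f n) \ ⋃ n ∈ Finset.range N, f n)) atTop
          (𝓝 0) := by
        have h6 : (⋂ N : ℕ, (⋃ n, f n) \ ⋃ n ∈ Finset.range N, f n) = ∅ := by
          ext x
          simp only [Set.mem_iInter, Set.mem_sdiff, Set.mem_iUnion, Finset.mem_range,
            Set.mem_empty_iff_false, iff_false, not_forall]
          by_cases hx : ∃ n, x ∈ f n
          · obtain ⟨n, hn⟩ := hx
            exact ⟨n + 1, fun h => h.2 ⟨n, by omega, hn⟩⟩
          · exact ⟨0, fun h => hx h.1⟩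
        have h7 := tendsto_measure_iInter_atTop (μ := μ)
          (s := fun N : ℕ => (⋃ n, f n) \ ⋃ n ∈ Finset.range N, f n)
          (fun N => ((hm _ hU).diff (hm _ (hmeas N))).nullMeasurableSet) ?_
          ⟨0, measure_ne_top _ _⟩
        · rw [h6, measure_empty] at h7
          exact h7
        · intro a b hab
          refine Set.sdiff_subset_sdiff_right ?_
          refine Set.biUnion_subset_biUnion_left ?_
          intro n hn
          exact Finset.mem_coe.2 (Finset.mem_range.2 (lt_of_lt_of_le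
            (Finset.mem_range.1 (Finset.mem_coe.1 hn)) hab))
      refine h5.congr fun N => ?_
      congr 1
      have h8 : (⋃ n ∈ Finset.range N, f n) ⊆ ⋃ n, f n := by
        intro x hx
        simp only [Set.mem_iUnion] at hx ⊢
        obtain ⟨n, _, hn⟩ := hx
        exact ⟨n, hn⟩
      rw [Set.symmDiff_def, Set.sdiff_eq_empty.2 h8, Set.empty_union]
    exact (V_closed μ p B hB D).mem_of_tendsto hlim (Eventually.of_forall hpart)

theorem good_all [WellFoundedLT ι] (hp : p ≠ ⊤) (hB : ∀ i, MeasurableSet (B i)) (i : ι) :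
    Good μ p B hB (Set.Iio i) := by
  induction i using WellFoundedLT.induction with
  | ind i ih =>
    exact good_step μ p B hp hB _ (fun j hj => Set.Iio_subset_Iio (le_of_lt hj)) ih

theorem good_univ [WellFoundedLT ι] (hp : p ≠ ⊤) (hB : ∀ i, MeasurableSet (B i)) :
    Good μ p B hB Set.univ :=
  good_step μ p B hp hB _ (fun _ _ => Set.subset_univ _) fun j _ => good_all μ p B hp hB j

theorem V_top [WellFoundedLT ι] (hp : p ≠ ⊤) (hB : ∀ i, MeasurableSet (B i))
    (hsurj : ∀ s : Set α, MeasurableSet s → ∃ i, B i = s) :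
    V μ p B hB Set.univ = ⊤ := by
  rw [eq_top_iff]
  intro f _
  refine mem_of_meas m0 μ p hp le_rfl _ (V_closed μ p B hB _) ?_ f
    (Lp.aestronglyMeasurable f)
  intro s hs
  obtain ⟨i, rfl⟩ := hsurj s hs
  exact good_univ μ p B hp hB (B i) (meas_B B (Set.mem_univ i))

theorem main_aux [WellFoundedLT ι] (hp : p ≠ ⊤) (hB : ∀ i, MeasurableSet (B i))
    (hsurj : ∀ s : Set α, MeasurableSet s → ∃ i, B i = s) :
    ∃ (H : Type) (_ : NormedAddCommGroup H) (_ : InnerProductSpace ℝ H)
      (_ : CompleteSpace H) (T : H →L[ℝ] Lp ℝ p μ), DenseRange T := by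
  have hp0 : p ≠ 0 := (one_pos.trans_le (Fact.out : 1 ≤ p)).ne'
  obtain ⟨n, hn⟩ : ∃ n : ℕ, p ≤ ((2 * (n + 1) : ℕ) : ENNReal) := by
    obtain ⟨n, hn⟩ := ENNReal.exists_nat_gt hp
    refine ⟨n, hn.le.trans ?_⟩
    exact_mod_cast (by omega : n ≤ 2 * (n + 1))
  obtain ⟨H, i1, i2, i3, T, hT⟩ := exists_operator
    (fun A : Finset ι => (((1 / 3 : ℝ) ^ (n + 1)) ^ A.card) • LR μ p B hB A) (K μ p n)
    (K_nonneg μ p n) (by
      intro S c
      classical
      let U : Finset ι := S.sup id
      let c' : Finset ι → ℝ := fun A => if A ∈ S then c A else 0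
      have hSU : S ⊆ U.powerset := fun A hA =>
        Finset.mem_powerset.2 (Finset.le_sup (f := id) hA)
      have h1 : ∑ A ∈ S, c A • (((1 / 3 : ℝ) ^ (n + 1)) ^ A.card) • LR μ p B hB A =
          (memLp_bdd μ p (P_meas0 μ B hB n U c') (P_bdd μ B n U c')).toLp (P μ B n U c') := by
        have h2 : ∀ A, c A • (((1 / 3 : ℝ) ^ (n + 1)) ^ A.card) • LR μ p B hB A =
            ((memLp_bdd μ p (R_meas0 μ B hB A) (R_bdd μ B A)).const_smul
              (c A * ((1 / 3 : ℝ) ^ (n + 1)) ^ A.card)).toLp _ := by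
          intro A
          rw [MemLp.toLp_const_smul _ (memLp_bdd μ p (R_meas0 μ B hB A) (R_bdd μ B A)),
            smul_smul]
          rfl
        apply Lp.ext
        have h3 : (∑ A ∈ S, c A • (((1 / 3 : ℝ) ^ (n + 1)) ^ A.card) • LR μ p B hB A :
            Lp ℝ p μ) =ᵐ[μ] fun x => ∑ A ∈ S, c A * ((1 / 3 : ℝ) ^ (n + 1)) ^ A.card *
              R μ B A x := by
          have h4 : ∀ S : Finset (Finset ι),
              (∑ A ∈ S, c A • (((1 / 3 : ℝ) ^ (n + 1)) ^ A.card) • LR μ p B hB A :
                Lp ℝ p μ) =ᵐ[μ] fun x => ∑ A ∈ S, c A * ((1 / 3 : ℝ) ^ (n + 1)) ^ A.card *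
                  R μ B A x := by
            intro S
            induction S using Finset.induction_on with
            | empty =>
              simp only [Finset.sum_empty]
              exact Lp.coeFn_zero _ _ _
            | insert A S hA ih =>
              rw [Finset.sum_insert hA]
              refine (Lp.coeFn_add _ _).trans ?_
              rw [h2 A]
              have h5 := MemLp.coeFn_toLp ((memLp_bdd μ p (R_meas0 μ B hB A)
                (R_bdd μ B A)).const_smul (c A * ((1 / 3 : ℝ) ^ (n + 1)) ^ A.card))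
              filter_upwards [ih, h5] with x hx1 hx2
              rw [Pi.add_apply, hx1, hx2, Finset.sum_insert hA]
              rfl
          exact h4 S
        refine h3.trans ?_
        refine Filter.EventuallyEq.trans ?_ (MemLp.coeFn_toLp _).symm
        refine Eventually.of_forall fun x => ?_
        change ∑ A ∈ S, c A * ((1 / 3 : ℝ) ^ (n + 1)) ^ A.card * R μ B A x =
          ∑ A ∈ U.powerset, c' A * ((1 / 3 : ℝ) ^ (n + 1)) ^ A.card * R μ B A x
        rw [← Finset.sum_subset hSU]
        · refine Finset.sum_congr rfl fun A hA => ?_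
          simp only [c', if_pos hA]
        · intro A _ hA
          simp only [c', if_neg hA, zero_mul]
      have h6 : ∑ A ∈ S, c A ^ 2 = ∑ A ∈ U.powerset, c' A ^ 2 := by
        rw [← Finset.sum_subset hSU]
        · refine Finset.sum_congr rfl fun A hA => ?_
          simp only [c', if_pos hA]
        · intro A _ hA
          simp only [c', if_neg hA]
          norm_num
      rw [h1, h6, Lp.norm_toLp]
      exact norm_le μ B p hB n hp0 hn U c')
  refine ⟨H, i1, i2, i3, T, ?_⟩
  have hrange : ∀ A, LR μ p B hB A ∈ LinearMap.range (T : H →ₗ[ℝ] Lp ℝ p μ) := by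
    intro A
    obtain ⟨y, hy⟩ := hT A
    have h7 : (((1 / 3 : ℝ) ^ (n + 1)) ^ A.card) ≠ 0 := by positivity
    refine ⟨(((1 / 3 : ℝ) ^ (n + 1)) ^ A.card)⁻¹ • y, ?_⟩
    change T _ = _
    rw [map_smul, hy, smul_smul, inv_mul_cancel₀ h7, one_smul]
  have h8 : V μ p B hB Set.univ ≤
      (LinearMap.range (T : H →ₗ[ℝ] Lp ℝ p μ)).topologicalClosure := by
    refine Submodule.topologicalClosure_mono ?_
    rw [Submodule.span_le]
    rintro _ ⟨A, _, rfl⟩
    exact hrange A
  rw [V_top μ p B hp hB hsurj] at h8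
  intro f
  have h9 := h8 (Submodule.mem_top (x := f))
  rw [← SetLike.mem_coe, Submodule.topologicalClosure_coe] at h9
  exact h9

/-- The final statement. -/
theorem hilbert_generated (hp : p ≠ ⊤) :
    ∃ (H : Type) (_ : NormedAddCommGroup H) (_ : InnerProductSpace ℝ H)
      (_ : CompleteSpace H) (T : H →L[ℝ] Lp ℝ p μ), DenseRange T := by
  let κ : Cardinal.{0} := Cardinal.mk {s : Set α // MeasurableSet s}
  obtain ⟨g⟩ : Nonempty (κ.ord.ToType ≃ {s : Set α // MeasurableSet s}) :=
    Cardinal.eq.1 (Cardinal.mk_ord_toType κ)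
  exact main_aux μ p (fun i : κ.ord.ToType => (g i).1) hp (fun i => (g i).2)
    fun s hs => ⟨g.symm ⟨s, hs⟩, by simp⟩

end Pool.Agent.H6.HilbertGen
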