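import Mathlib

open Set Function

namespace H6.Odd

/-- increasing `(T+1)`-tuples -/
abbrev V (Ω : Type*) [LinearOrder Ω] (T : ℕ) := {x : Fin (T + 1) → Ω // StrictMono x}

variable {Ω : Type*} [LinearOrder Ω] {T : ℕ}

def c (x : V Ω T) (i : ℕ) : Ω := x.1 ⟨min i T, by omega⟩

theorem c_lt (x : V Ω T) {i j : ℕ} (h : i < j) (hj : j ≤ T) : c x i < c x j := by
  apply x.2
  show min i T < min j T
  omega

theorem c_le (x : V Ω T) {i j : ℕ} (h : i ≤ j) : c x i ≤ c x j := by
  apply x.2.monotone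
  show min i T ≤ min j T
  omega

/-- `x` is a lower neighbour candidate of `y` -/
def low (s : ℕ) (x y : V Ω T) : Prop :=
  (∀ i, s + i ≤ T → c x (s + i) < c y i) ∧ (∀ i, s + i + 1 ≤ T → c y i < c x (s + i + 1))

theorem walk_ineq {s : ℕ} {G : SimpleGraph (V Ω T)}
    (hG : ∀ x y, G.Adj x y → low s x y ∨ low s y x) {u v : V Ω T} (p : G.Walk u v) :
    ∃ a b, a + b = p.length ∧
      (∀ j, a * s ≤ j → j + b * (s + 1) ≤ T → c u j ≤ c v (j + b * (s + 1) - a * s)) ∧
      (∀ j, b * s ≤ j → j + a * (s + 1) ≤ T → c v j ≤ c u (j + a * (s + 1) - b * s)) := by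
  induction p with
  | nil => exact ⟨0, 0, rfl, fun j _ _ => by simp, fun j _ _ => by simp⟩
  | @cons u w v h p ih =>
    obtain ⟨a, b, hab, h1, h2⟩ := ih
    rcases hG _ _ h with hl | hl
    · refine ⟨a + 1, b, by rw [SimpleGraph.Walk.length_cons]; omega, ?_, ?_⟩
      · intro j hj1 hj2
        rw [add_mul, one_mul] at hj1 ⊢
        have h3 := h1 (j - s) (by omega) (by omega)
        have h4 := hl.1 (j - s) (by omega)
        have e1 : s + (j - s) = j := by omega
        have e2 : j - s + b * (s + 1) - a * s = j + b * (s + 1) - (a * s + s) := by omega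
        rw [e1] at h4
        rw [e2] at h3
        exact le_trans h4.le h3
      · intro j hj1 hj2
        rw [add_mul a 1 (s + 1), one_mul] at hj2 ⊢
        have h3 := h2 j hj1 (by omega)
        have h4 := hl.2 (j + a * (s + 1) - b * s) (by omega)
        have e2 : s + (j + a * (s + 1) - b * s) + 1 = j + (a * (s + 1) + (s + 1)) - b * s := by
          omega
        rw [e2] at h4
        exact le_trans h3 h4.le
    · refine ⟨a, b + 1, by rw [SimpleGraph.Walk.length_cons]; omega, ?_, ?_⟩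
      · intro j hj1 hj2
        rw [add_mul b 1 (s + 1), one_mul] at hj2 ⊢
        have h3 := h1 (j + s + 1) (by omega) (by omega)
        have h4 := hl.2 j (by omega)
        have e1 : s + j + 1 = j + s + 1 := by omega
        have e2 : j + s + 1 + b * (s + 1) - a * s = j + (b * (s + 1) + (s + 1)) - a * s := by omega
        rw [e1] at h4
        rw [e2] at h3
        exact le_trans h4.le h3
      · intro j hj1 hj2
        rw [add_mul, one_mul] at hj1 ⊢
        have h3 := h2 j (by omega) hj2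
        have h4 := hl.1 (j + a * (s + 1) - b * s - s) (by omega)
        have e1 : s + (j + a * (s + 1) - b * s - s) = j + a * (s + 1) - b * s := by omega
        have e2 : j + a * (s + 1) - b * s - s = j + a * (s + 1) - (b * s + s) := by omega
        rw [e1, e2] at h4
        exact le_trans h3 h4.le

theorem no_odd (k s : ℕ) (hs : s = k + 1) (hT : T = (2 * k + 1) * (2 * s + 1))
    {G : SimpleGraph (V Ω T)}
    (hG : ∀ x y, G.Adj x y → low s x y ∨ low s y x) {u : V Ω T} (p : G.Walk u u)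
    (hodd : Odd p.length) : 2 * k + 1 < p.length := by
  by_contra hcon
  push Not at hcon
  obtain ⟨a, b, hab, h1, h2⟩ := walk_ineq hG p
  have ha : a ≤ 2 * k + 1 := by omega
  have hb : b ≤ 2 * k + 1 := by omega
  have has : a * s ≤ (2 * k + 1) * s := Nat.mul_le_mul_right _ ha
  have hbs : b * s ≤ (2 * k + 1) * s := Nat.mul_le_mul_right _ hb
  have hT2 : T = (2 * k + 1) * s + (2 * k + 1) * s + (2 * k + 1) := by rw [hT]; ring
  have ha1 : a * (s + 1) = a * s + a := by ring
  have hb1 : b * (s + 1) = b * s + b := by ring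
  obtain ⟨r, hr⟩ := hodd
  rcases lt_or_gt_of_ne (show a ≠ b by omega) with hlt | hlt
  · -- a < b
    have h3 := h2 ((2 * k + 1) * s) hbs (by omega)
    have h4 : (a + 1) * s ≤ b * s := Nat.mul_le_mul_right _ hlt
    rw [add_mul, one_mul] at h4
    have h5 := c_lt u (i := (2 * k + 1) * s + a * (s + 1) - b * s) (j := (2 * k + 1) * s)
      (by omega) (by omega)
    exact absurd h3 (not_le.mpr h5)
  · have h3 := h1 ((2 * k + 1) * s) has (by omega)
    have h4 : (b + 1) * s ≤ a * s := Nat.mul_le_mul_right _ hlt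
    rw [add_mul, one_mul] at h4
    have h5 := c_lt u (i := (2 * k + 1) * s + b * (s + 1) - a * s) (j := (2 * k + 1) * s)
      (by omega) (by omega)
    exact absurd h3 (not_le.mpr h5)

section K

variable [WellFoundedLT Ω]

/-- bounded infinite sets: minimal bound -/
theorem exists_min (B : Set (V Ω T)) (h : ∃ l, {a | a ∈ B ∧ c a T < l}.Infinite) :
    ∃ l, {a | a ∈ B ∧ c a T < l}.Infinite ∧ ∀ m < l, {a | a ∈ B ∧ c a T < m}.Finite := by
  obtain ⟨l, hl, hmin⟩ := (wellFounded_lt (α := Ω)).has_min {l | {a | a ∈ B ∧ c a T < l}.Infinite} h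
  refine ⟨l, hl, fun m hm => ?_⟩
  by_contra hcon
  exact hmin m hcon hm

theorem K_free {s : ℕ} (hs : 1 ≤ s) (hsT : 3 * s ≤ T) (N : V Ω T → Set (V Ω T))
    (hlow : ∀ y, ∀ x ∈ N y, low s x y)
    (had : ∀ y y', y ≠ y' → (N y ∩ N y').Finite)
    (hbd : ∀ S : Set Ω, S.Countable → ∃ b, ∀ x ∈ S, x < b)
    (A B : Set (V Ω T)) (hA : A.Infinite) (hB : B.Infinite)
    (hAB : ∀ a ∈ A, ∀ b ∈ B, a ∈ N b ∨ b ∈ N a) : False := by
  -- orientation is by last coordinates
  have hlast : ∀ x y : V Ω T, low s x y → c x T < c y T := by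
    intro x y h
    have h1 := h.1 (T - s) (by omega)
    have e : s + (T - s) = T := by omega
    rw [e] at h1
    exact lt_of_lt_of_le h1 (c_le y (by omega))
  have ori : ∀ x y : V Ω T, (x ∈ N y ∨ y ∈ N x) → c x T < c y T → x ∈ N y := by
    rintro x y (h | h) hlt
    · exact h
    · exact absurd (hlast _ _ (hlow x y h)) (not_lt.mpr hlt.le)
  have hne : ∀ x y : V Ω T, (x ∈ N y ∨ y ∈ N x) → c x T ≠ c y T := by
    rintro x y (h | h)
    · exact (hlast _ _ (hlow y x h)).ne
    · exact (hlast _ _ (hlow x y h)).ne'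
  have chain : ∀ p q r t : V Ω T, p ∈ N q → q ∈ N r → r ∈ N t → p ∈ N t → False := by
    intro p q r t h1 h2 h3 h4
    have e1 := (hlow _ _ h1).1 (2 * s) (by omega)
    have e2 := (hlow _ _ h2).1 s (by omega)
    have e3 := (hlow _ _ h3).1 0 (by omega)
    have e4 := (hlow _ _ h4).2 0 (by omega)
    have f1 : s + 2 * s = 3 * s := by omega
    have f2 : s + s = 2 * s := by omega
    rw [f1] at e1
    rw [f2] at e2
    rw [Nat.add_zero] at e3 e4
    have e5 : c p (s + 1) ≤ c p (3 * s) := c_le p (by omega)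
    exact absurd (lt_trans (lt_trans (lt_trans (lt_of_lt_of_le e4 e5) e1) e2) e3) (lt_irrefl _)
  have hexb : ∀ C : Set (V Ω T), C.Infinite → ∃ l, {a | a ∈ C ∧ c a T < l}.Infinite := by
    intro C hC
    obtain ⟨D, hDC, hDi, hDc⟩ : ∃ D ⊆ C, D.Infinite ∧ D.Countable := by
      let e := hC.natEmbedding
      refine ⟨range (fun n => (e n : V Ω T)), ?_, ?_, countable_range _⟩
      · rintro _ ⟨n, rfl⟩; exact (e n).2
      · exact infinite_range_of_injective (fun m n h => e.injective (Subtype.ext h))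
    obtain ⟨b, hb⟩ := hbd ((fun a => c a T) '' D) (hDc.image _)
    exact ⟨b, hDi.mono (fun a ha => ⟨hDC ha, hb _ ⟨a, ha, rfl⟩⟩)⟩
  -- two points above infinitely many
  have two : ∀ (C : Set (V Ω T)) (l : Ω), {a | a ∈ C ∧ c a T < l}.Infinite → ∀ y y' : V Ω T,
      y ≠ y' → l ≤ c y T → l ≤ c y' T → (∀ a ∈ C, a ∈ N y ∨ y ∈ N a) →
      (∀ a ∈ C, a ∈ N y' ∨ y' ∈ N a) → False := by
    intro C l hl y y' hyy h1 h2 h3 h4
    apply hl
    apply (had y y' hyy).subset
    rintro a ⟨ha, hal⟩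
    exact ⟨ori a y (h3 a ha) (lt_of_lt_of_le hal h1), ori a y' (h4 a ha) (lt_of_lt_of_le hal h2)⟩
  -- main argument, for minimal bounds l ≤ m
  have key : ∀ (A B : Set (V Ω T)) (l m : Ω), (∀ a ∈ A, ∀ b ∈ B, a ∈ N b ∨ b ∈ N a) →
      {a | a ∈ A ∧ c a T < l}.Infinite → (∀ l' < l, {a | a ∈ A ∧ c a T < l'}.Finite) →
      {b | b ∈ B ∧ c b T < m}.Infinite → (∀ m' < m, {b | b ∈ B ∧ c b T < m'}.Finite) →
      l ≤ m → False := by
    intro A B l m hAB hl hl' hm hm' hlm
    rcases hlm.lt_or_eq with hlt | rfl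
    · have h1 := hm' l hlt
      have h2 : ({b | b ∈ B ∧ c b T < m} \ {b | b ∈ B ∧ c b T < l}).Infinite := hm.sdiff h1
      obtain ⟨y, hy⟩ := h2.nonempty
      obtain ⟨y', hy', hne'⟩ := (h2.sdiff (finite_singleton y)).nonempty
      refine two A l hl y y' (fun h => hne' (by rw [h]; rfl)) ?_ ?_ ?_ ?_
      · by_contra hcon; exact hy.2 ⟨hy.1.1, not_le.mp hcon⟩
      · by_contra hcon; exact hy'.2 ⟨hy'.1.1, not_le.mp hcon⟩
      · exact fun a ha => hAB a ha y hy.1.1
      · exact fun a ha => hAB a ha y' hy'.1.1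
    · have stepAB : ∀ a ∈ A, c a T < l → ∃ b ∈ B, c a T < c b T ∧ c b T < l := by
        intro a ha hal
        by_contra hcon
        push Not at hcon
        apply hm
        apply (hm' (c a T) hal).subset
        rintro b ⟨hb, hbl⟩
        refine ⟨hb, ?_⟩
        rcases lt_trichotomy (c b T) (c a T) with h | h | h
        · exact h
        · exact absurd h.symm (hne _ _ (hAB a ha b hb))
        · exact absurd hbl (not_lt.mpr (hcon b hb h))
      have stepBA : ∀ b ∈ B, c b T < l → ∃ a ∈ A, c b T < c a T ∧ c a T < l := by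
        intro b hb hbl
        by_contra hcon
        push Not at hcon
        apply hl
        apply (hl' (c b T) hbl).subset
        rintro a ⟨ha, hal⟩
        refine ⟨ha, ?_⟩
        rcases lt_trichotomy (c a T) (c b T) with h | h | h
        · exact h
        · exact absurd h (hne _ _ (hAB a ha b hb))
        · exact absurd hal (not_lt.mpr (hcon a ha h))
      obtain ⟨a0, ha0, ha0l⟩ := hl.nonempty
      obtain ⟨b1, hb1, h01, hb1l⟩ := stepAB a0 ha0 ha0l
      obtain ⟨a2, ha2, h12, ha2l⟩ := stepBA b1 hb1 hb1l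
      obtain ⟨b3, hb3, h23, hb3l⟩ := stepAB a2 ha2 ha2l
      exact chain a0 b1 a2 b3 (ori _ _ (hAB a0 ha0 b1 hb1) h01)
        (ori _ _ (hAB a2 ha2 b1 hb1).symm h12) (ori _ _ (hAB a2 ha2 b3 hb3) h23)
        (ori _ _ (hAB a0 ha0 b3 hb3) (lt_trans (lt_trans h01 h12) h23))
  obtain ⟨l, hl, hl'⟩ := exists_min A (hexb A hA)
  obtain ⟨m, hm, hm'⟩ := exists_min B (hexb B hB)
  rcases le_total l m with h | h
  · exact key A B l m hAB hl hl' hm hm' h
  · exact key B A m l (fun b hb a ha => (hAB a ha b hb).symm) hm hm' hl hl' h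

end K

end H6.Odd
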