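import Mathlib
import Pool.Agent.H6.OddA
import Pool.Agent.H6.EHMTree

open Set Function

namespace H6.Odd

variable {Ω : Type*} [LinearOrder Ω] {T : ℕ}

/-- ladder condition at the coordinate `q` of `y` -/
def Lad (q : ℕ) (A : Set (V Ω T)) (y : V Ω T) : Prop :=
  ∀ b < c y q, {x | x ∈ A ∧ c x T < b}.Finite

/-- `S` is big below `y` -/
def Big (s q : ℕ) (S : Set (V Ω T)) (y : V Ω T) : Prop :=
  (∃ b, b < c y q) ∧ ∀ b < c y q, ∃ g < c y q, {x | x ∈ S ∧ low s x y ∧ b < c x T ∧ c x T < g}.Infinite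

theorem one_step (hcount : ∀ t : Ω, (Iio t).Countable) (s q : ℕ) (y : V Ω T)
    (BB SS : Set (Set (V Ω T))) (hBc : BB.Countable) (hSc : SS.Countable)
    (hB : ∀ B ∈ BB, ∀ g < c y q, {x | x ∈ B ∧ c x T < g}.Finite)
    (hS : ∀ S ∈ SS, Big s q S y) :
    ∃ A : Set (V Ω T), (∀ x ∈ A, low s x y) ∧ Lad q A y ∧ (∀ S ∈ SS, (A ∩ S).Nonempty) ∧
      (∀ B ∈ BB, (A ∩ B).Finite) := by
  classical
  rcases SS.eq_empty_or_nonempty with hE | hN
  · refine ⟨∅, by simp, ?_, by simp [hE], by simp⟩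
    intro b _
    simp
  obtain ⟨S, hSr⟩ := hSc.exists_eq_range hN
  obtain ⟨B, hBr⟩ := (hBc.insert ∅).exists_eq_range (insert_nonempty _ _)
  have hB' : ∀ i, ∀ g < c y q, {x | x ∈ B i ∧ c x T < g}.Finite := by
    intro i g hg
    have : B i ∈ insert ∅ BB := by rw [hBr]; exact ⟨i, rfl⟩
    rcases this with h | h
    · rw [h]; simp
    · exact hB _ h g hg
  have hS' : ∀ i, Big s q (S i) y := by
    intro i
    apply hS
    rw [hSr]; exact ⟨i, rfl⟩
  obtain ⟨b0, hb0⟩ := (hS' 0).1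
  obtain ⟨β, hβr⟩ := (hcount (c y q)).exists_eq_range ⟨b0, hb0⟩
  have hβ : ∀ k, β k < c y q := by
    intro k
    have : β k ∈ Iio (c y q) := by rw [hβr]; exact ⟨k, rfl⟩
    exact this
  have hch : ∀ k : ℕ, ∃ x, x ∈ S k ∧ low s x y ∧ (∀ i ≤ k, β i < c x T) ∧ ∀ i ≤ k, x ∉ B i := by
    intro k
    -- the maximum of the β i
    obtain ⟨m, hm, hmax⟩ := (Finset.range (k + 1)).exists_max_image β ⟨0, by simp⟩
    obtain ⟨g, hg, hinf⟩ := (hS' k).2 (β m) (hβ m)
    have hfin : (⋃ i ∈ Finset.range (k + 1), {x | x ∈ B i ∧ c x T < g}).Finite :=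
      (Finset.range (k + 1)).finite_toSet.biUnion (fun i _ => hB' i g hg)
    obtain ⟨x, hx, hx2⟩ := (hinf.sdiff hfin).nonempty
    refine ⟨x, hx.1, hx.2.1, fun i hi => ?_, fun i hi hxB => ?_⟩
    · exact lt_of_le_of_lt (hmax i (Finset.mem_range.mpr (by omega))) hx.2.2.1
    · apply hx2
      simp only [mem_iUnion]
      exact ⟨i, Finset.mem_range.mpr (by omega), hxB, hx.2.2.2⟩
  choose a ha1 ha2 ha3 ha4 using hch
  refine ⟨range a, ?_, ?_, ?_, ?_⟩
  · rintro _ ⟨k, rfl⟩; exact ha2 k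
  · intro b hb
    have : b ∈ range β := by rw [← hβr]; exact hb
    obtain ⟨K, rfl⟩ := this
    apply ((Finset.range K).finite_toSet.image a).subset
    rintro x ⟨⟨k, rfl⟩, hk⟩
    refine ⟨k, ?_, rfl⟩
    rw [Finset.mem_coe, Finset.mem_range]
    by_contra hcon
    exact absurd (ha3 k K (not_lt.mp hcon)) (not_lt.mpr hk.le)
  · intro S' hS2
    rw [hSr] at hS2
    obtain ⟨k, rfl⟩ := hS2
    exact ⟨a k, ⟨k, rfl⟩, ha1 k⟩
  · intro B' hB2
    have : B' ∈ insert ∅ BB := mem_insert_of_mem _ hB2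
    rw [hBr] at this
    obtain ⟨i, rfl⟩ := this
    apply ((Finset.range i).finite_toSet.image a).subset
    rintro x ⟨⟨k, rfl⟩, hk⟩
    refine ⟨k, ?_, rfl⟩
    rw [Finset.mem_coe, Finset.mem_range]
    by_contra hcon
    exact ha4 k i (not_lt.mp hcon) hk

theorem exists_N [WellFoundedLT Ω] (hcount : ∀ t : Ω, (Iio t).Countable) (s q : ℕ)
    (hsq : s + q = T)
    (ι : V Ω T → Ω) (hι : Injective ι) (φ : Ω → Set (V Ω T)) :
    ∃ N : V Ω T → Set (V Ω T), (∀ y, ∀ x ∈ N y, low s x y) ∧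
      (∀ y y', y ≠ y' → (N y ∩ N y').Finite) ∧
      (∀ y, ∀ η < c y T, Big s q (φ η) y → (N y ∩ φ η).Nonempty) := by
  classical
  let R : (Ω → Set (V Ω T)) → Ω → Set (V Ω T) → Prop := fun P t A =>
    ∀ y, ι y = t → (∀ x ∈ A, low s x y) ∧ Lad q A y ∧
      (∀ η < c y T, Big s q (φ η) y → (A ∩ φ η).Nonempty) ∧
      (∀ r < t, ∀ y', ι y' = r → Lad q (P r) y' → c y q ≤ c y' q → (A ∩ P r).Finite)
  have hR : ∀ P t, ∃ A, R P t A := by
    intro P t
    by_cases h : ∃ y, ι y = t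
    · obtain ⟨y, rfl⟩ := h
      have k1 : {B | ∃ r < ι y, ∃ y', ι y' = r ∧ Lad q (P r) y' ∧ c y q ≤ c y' q ∧
          B = P r}.Countable := by
        apply ((hcount (ι y)).image P).mono
        rintro B ⟨r, hr, y', _, _, _, rfl⟩
        exact ⟨r, hr, rfl⟩
      have k2 : {S | ∃ η < c y T, Big s q (φ η) y ∧ S = φ η}.Countable := by
        apply ((hcount (c y T)).image φ).mono
        rintro B ⟨r, hr, _, rfl⟩
        exact ⟨r, hr, rfl⟩
      have k3 : ∀ B ∈ {B | ∃ r < ι y, ∃ y', ι y' = r ∧ Lad q (P r) y' ∧ c y q ≤ c y' q ∧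
          B = P r}, ∀ g < c y q, {x | x ∈ B ∧ c x T < g}.Finite := by
        rintro B ⟨r, hr, y', _, hl, hle, rfl⟩ g hg
        exact hl g (lt_of_lt_of_le hg hle)
      have k4 : ∀ S ∈ {S | ∃ η < c y T, Big s q (φ η) y ∧ S = φ η}, Big s q S y := by
        rintro S ⟨η, _, hb, rfl⟩
        exact hb
      obtain ⟨A, h1, h2, h3, h4⟩ := one_step hcount s q y _ _ k1 k2 k3 k4
      refine ⟨A, ?_⟩
      intro y2 hy2
      have := hι hy2
      subst this
      refine ⟨h1, h2, fun η hη hb => h3 _ ⟨η, hη, hb, rfl⟩, ?_⟩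
      intro r hr y' hy' hl hle
      exact h4 _ ⟨r, hr, y', hy', hl, hle, rfl⟩
    · exact ⟨∅, fun y hy => absurd ⟨y, hy⟩ h⟩
  obtain ⟨P, hP⟩ := H6.EHM.rec_exists (∅ : Set (V Ω T)) R hR
  have hP' := fun y => hP (ι y) y rfl
  have hlast : ∀ x y : V Ω T, low s x y → c x T < c y q := by
    intro x y h
    have h1 := h.1 q (by omega)
    rw [hsq] at h1
    exact h1
  refine ⟨fun y => P (ι y), fun y => (hP' y).1, ?_, fun y => (hP' y).2.2.1⟩
  have key : ∀ y y', ι y' < ι y → (P (ι y) ∩ P (ι y')).Finite := by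
    intro y y' hlt
    rcases le_or_gt (c y q) (c y' q) with h | h
    · have h4 := (hP' y).2.2.2 (ι y') hlt y' rfl
      have e : (fun s => if s < ι y then P s else (∅ : Set (V Ω T))) (ι y') = P (ι y') :=
        if_pos hlt
      rw [e] at h4
      exact h4 (hP' y').2.1 h
    · apply ((hP' y).2.1 (c y' q) h).subset
      rintro x ⟨hx1, hx2⟩
      exact ⟨hx1, hlast _ _ ((hP' y').1 x hx2)⟩
  intro y y' hne
  rcases lt_trichotomy (ι y) (ι y') with h | h | h
  · have := key y' y h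
    rw [inter_comm] at this
    exact this
  · exact absurd (hι h) hne
  · exact key y y' h

end H6.Odd
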