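import Mathlib
import Pool.Agent.H6.OddB
import Pool.Agent.H6.ClubSel

open Set Function Cardinal

namespace H6.Odd

open H6.ClubSel (Null Cl)

variable {Ω : Type*} [LinearOrder Ω] {T : ℕ}

def Srt (m : ℕ) (x : ℕ → Ω) : Prop := ∀ j, j + 1 < m → x j < x (j + 1)

theorem Srt.lt {m : ℕ} {x : ℕ → Ω} (h : Srt m x) : ∀ {i j : ℕ}, i < j → j < m → x i < x j := by
  intro i j hij hj
  induction j with
  | zero => omega
  | succ j ih =>
    rcases Nat.lt_succ_iff_lt_or_eq.mp hij with h1 | h1
    · exact lt_trans (ih h1 (by omega)) (h j hj)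
    · subst h1; exact h _ hj

def mk (x : ℕ → Ω) (h : Srt (T + 1) x) : V Ω T :=
  ⟨fun i => x i, fun i j hij => h.lt (by exact_mod_cast hij) j.2⟩

theorem c_mk (x : ℕ → Ω) (h : Srt (T + 1) x) {i : ℕ} (hi : i ≤ T) : c (mk x h) i = x i := by
  show x (min i T) = x i
  rw [min_eq_left hi]

open Classical in
/-- iterated largeness colours -/
noncomputable def Gc (F : (ℕ → Ω) → ℕ) (T : ℕ) : ℕ → (ℕ → Ω) → ℕ
  | 0, x => F x
  | r + 1, x => if h : ∃ n, ¬ Null {α | Gc F T r (update x (T - r) α) = n} then h.choose else 0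

theorem ext {A : Set Ω} (hA : ¬ Null A) (b : Ω) (g : Ω → Ω) :
    ∃ δ ∈ A, b < δ ∧ ∀ x < δ, g x < δ := by
  by_contra hcon
  push Not at hcon
  apply hA
  refine ⟨fun β => max (g β) b, fun δ hδ hcl => ?_⟩
  obtain ⟨⟨x0, hx0⟩, h2⟩ := hcl
  have h3 : b < δ := lt_of_le_of_lt (le_max_right _ _) (h2 x0 hx0)
  obtain ⟨x, hx, hx2⟩ := hcon δ hδ h3
  exact absurd (lt_of_le_of_lt (le_max_left _ _) (h2 x hx)) (not_lt.mpr hx2)

section main

variable [WellFoundedLT Ω] (hcount : ∀ t : Ω, (Iio t).Countable)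
  (hunb : ∀ S : Set Ω, S.Countable → ∃ b, ∀ x ∈ S, x < b)

include hcount hunb

theorem exists_color (h : Ω → ℕ) : ∃ n, ¬ Null {α | h α = n} := by
  by_contra hcon
  push Not at hcon
  have hb : ∀ S : Set Ω, #S < ℵ₁ → ∃ b, ∀ y ∈ S, y < b := by
    intro S hS
    apply hunb
    rw [← Cardinal.le_aleph0_iff_set_countable]
    rw [← Cardinal.succ_aleph0, Order.lt_succ_iff] at hS
    exact hS
  have h1 : Null (⋃ n, {α | h α = n}) := Null.iUnion hb Cardinal.aleph0_lt_aleph_one hcon
  have hI : ∀ x : Ω, #(Iic x) < ℵ₁ := by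
    intro x
    rw [← Cardinal.succ_aleph0, Order.lt_succ_iff, Cardinal.le_aleph0_iff_set_countable]
    have : Iic x = insert x (Iio x) := by
      ext y; simp [le_iff_eq_or_lt]
    rw [this]
    exact (hcount x).insert x
  apply H6.ClubSel.E_pos hb Cardinal.aleph0_lt_aleph_one hI
  apply h1.mono
  intro α _
  exact mem_iUnion.mpr ⟨h α, rfl⟩

theorem Gc_spec (F : (ℕ → Ω) → ℕ) (r : ℕ) (x : ℕ → Ω) :
    ¬ Null {α | Gc F T r (update x (T - r) α) = Gc F T (r + 1) x} := by
  have h := exists_color hcount hunb (fun α => Gc F T r (update x (T - r) α))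
  have h2 := h.choose_spec
  have h3 : Gc F T (r + 1) x = h.choose := by
    rw [Gc, dif_pos h]
  rw [h3]
  exact h2

/-- one more coordinate -/
theorem step (F : (ℕ → Ω) → ℕ) {m : ℕ} (hm : m ≤ T) (x : ℕ → Ω) (b : Ω) (g : Ω → Ω) :
    ∃ α, b < α ∧ (∀ z < α, g z < α) ∧ Gc F T (T - m) (update x m α) = Gc F T (T + 1 - m) x := by
  have h := Gc_spec (T := T) hcount hunb F (T - m) x
  have e1 : T - (T - m) = m := by omega
  have e2 : T - m + 1 = T + 1 - m := by omega
  rw [e1, e2] at h
  obtain ⟨α, hα, h1, h2⟩ := ext h b g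
  exact ⟨α, h1, h2, hα⟩

/-- extending a prefix of length `m0` to length `m` -/
theorem extend_up (F : (ℕ → Ω) → ℕ) {m0 : ℕ} (y : ℕ → Ω) (hy : Srt m0 y) (η : Ω) (m : ℕ)
    (hm0 : m0 ≤ m) (hm : m ≤ T + 1) :
    ∃ y' : ℕ → Ω, (∀ j < m0, y' j = y j) ∧ Srt m y' ∧
      Gc F T (T + 1 - m) y' = Gc F T (T + 1 - m0) y ∧ (m0 < m → η < y' (m - 1)) := by
  induction m, hm0 using Nat.le_induction with
  | base => exact ⟨y, fun _ _ => rfl, hy, rfl, fun h => absurd h (lt_irrefl _)⟩
  | succ m hm0m ih =>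
    obtain ⟨y', h1, h2, h3, h4⟩ := ih (by omega)
    obtain ⟨α, hα1, -, hα2⟩ := step hcount hunb F (show m ≤ T by omega) y' (max η (y' (m - 1)))
      (fun z => z)
    have hne : ∀ j, j ≠ m → update y' m α j = y' j := fun j hj => update_of_ne hj α y'
    have hself : update y' m α m = α := update_self m α y'
    refine ⟨update y' m α, ?_, ?_, ?_, ?_⟩
    · intro j hj
      rw [hne j (by omega)]; exact h1 j hj
    · intro j hj
      rcases Nat.lt_or_ge (j + 1) m with h | h
      · rw [hne j (by omega), hne (j + 1) (by omega)]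
        exact h2 j h
      · have e : j + 1 = m := by omega
        rw [e, hself, hne j (by omega)]
        have e2 : j = m - 1 := by omega
        rw [e2]
        exact lt_of_le_of_lt (le_max_right _ _) hα1
    · have e : T + 1 - (m + 1) = T - m := by omega
      rw [e, hα2, h3]
    · intro _
      have e : m + 1 - 1 = m := by omega
      rw [e, hself]
      exact lt_of_le_of_lt (le_max_left _ _) hα1

/-- interleaved prefixes -/
theorem interleave (F : (ℕ → Ω) → ℕ) (s : ℕ) (x0 : ℕ → Ω) (n : ℕ) (hn : Gc F T (T + 1) x0 = n)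
    (i : ℕ) (hi : s + 1 + i ≤ T) :
    ∃ x y : ℕ → Ω, Gc F T (T + 1 - (s + 1 + i)) x = n ∧ Gc F T (T + 1 - i) y = n ∧
      Srt (s + 1 + i) x ∧ Srt i y ∧ ∀ j < i, x (s + j) < y j ∧ y j < x (s + j + 1) := by
  induction i with
  | zero =>
    have hS0 : Srt 0 x0 := fun j hj => absurd hj (Nat.not_lt_zero _)
    obtain ⟨x, -, h2, h3, -⟩ := extend_up (T := T) hcount hunb F (m0 := 0) x0
      hS0 (x0 0) (s + 1) (by omega) (by omega)
    exact ⟨x, x0, by rw [Nat.add_zero, h3]; exact hn, hn, h2, hS0,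
      fun j hj => absurd hj (Nat.not_lt_zero _)⟩
  | succ i ih =>
    obtain ⟨x, y, h1, h2, h3, h4, h5⟩ := ih (by omega)
    obtain ⟨α, hα1, -, hα2⟩ := step hcount hunb F (show i ≤ T by omega) y (x (s + i)) (fun z => z)
    obtain ⟨β, hβ1, -, hβ2⟩ := step hcount hunb F (show s + i + 1 ≤ T by omega) x α (fun z => z)
    have hne : ∀ j, j ≠ i → update y i α j = y j := fun j hj => update_of_ne hj α y
    have hself : update y i α i = α := update_self i α y
    have hne' : ∀ j, j ≠ s + i + 1 → update x (s + i + 1) β j = x j :=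
      fun j hj => update_of_ne hj β x
    have hself' : update x (s + i + 1) β (s + i + 1) = β := update_self _ β x
    refine ⟨update x (s + i + 1) β, update y i α, ?_, ?_, ?_, ?_, ?_⟩
    · have e : T + 1 - (s + 1 + (i + 1)) = T - (s + i + 1) := by omega
      have e2 : T + 1 - (s + i + 1) = T + 1 - (s + 1 + i) := by omega
      rw [e, hβ2, e2, h1]
    · have e : T + 1 - (i + 1) = T - i := by omega
      rw [e, hα2, h2]
    · intro j hj
      rcases Nat.lt_or_ge (j + 1) (s + i + 1) with h | h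
      · rw [hne' j (by omega), hne' (j + 1) (by omega)]
        exact h3 j (by omega)
      · have e : j + 1 = s + i + 1 := by omega
        have e2 : j = s + i := by omega
        rw [e, hself', hne' j (by omega), e2]
        exact lt_trans hα1 hβ1
    · intro j hj
      rcases Nat.lt_or_ge (j + 1) i with h | h
      · rw [hne j (by omega), hne (j + 1) (by omega)]
        exact h4 j h
      · have e : j + 1 = i := by omega
        rw [e, hself, hne j (by omega)]
        have h6 := (h5 j (by omega)).2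
        have e3 : s + j + 1 = s + i := by omega
        rw [e3] at h6
        exact lt_trans h6 hα1
    · intro j hj
      rcases Nat.lt_or_ge j i with h | h
      · rw [hne' (s + j) (by omega), hne j (by omega), hne' (s + j + 1) (by omega)]
        exact h5 j h
      · have e : j = i := by omega
        subst e
        rw [hne' (s + j) (by omega), hself, hself']
        exact ⟨hα1, hβ1⟩

theorem chromatic (s q : ℕ) (hs : 1 ≤ s) (hq : 1 ≤ q) (hsq : s + q = T)
    (φ : Ω → Set (V Ω T)) (hφ : ∀ S : Set (V Ω T), S.Countable → S.Nonempty → ∃ η, φ η = S)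
    (N : V Ω T → Set (V Ω T))
    (hN : ∀ y, ∀ η < c y T, Big s q (φ η) y → (N y ∩ φ η).Nonempty) (f : V Ω T → ℕ) :
    ∃ y, ∃ x ∈ N y, f x = f y := by
  classical
  let F : (ℕ → Ω) → ℕ := fun x => if h : Srt (T + 1) x then f (mk x h) else 0
  have hF : ∀ x (h : Srt (T + 1) x), F x = f (mk x h) := fun x h => dif_pos h
  obtain ⟨b0, -⟩ := hunb ∅ countable_empty
  obtain ⟨x, y, h1, h2, h3, h4, h5⟩ := interleave (T := T) hcount hunb F s (fun _ => b0) _ rfl
    (q - 1) (by omega)
  set n := Gc F T (T + 1) (fun _ => b0) with hn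
  -- y_{q-1}
  obtain ⟨α, hα1, -, hα2⟩ := step hcount hunb F (show q - 1 ≤ T by omega) y (x (T - 1))
    (fun z => z)
  -- the line X
  let X : Set Ω := {ξ | Gc F T 0 (update x T ξ) = n}
  have hX : ¬ Null X := by
    have h := Gc_spec (T := T) hcount hunb F 0 x
    have e : T + 1 - (s + 1 + (q - 1)) = 0 + 1 := by omega
    rw [e] at h1
    rw [h1] at h
    exact h
  have hgX : ∀ β : Ω, ∃ g, {ξ | ξ ∈ X ∧ β < ξ ∧ ξ < g}.Infinite := by
    intro β
    have hinf : {ξ | ξ ∈ X ∧ β < ξ}.Infinite := by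
      intro hfin
      obtain ⟨b, hb⟩ := hunb ({ξ | ξ ∈ X ∧ β < ξ} ∪ {β}) (hfin.countable.union
        (countable_singleton β))
      obtain ⟨δ, hδ, hbδ, -⟩ := ext hX b (fun z => z)
      have h7 := hb β (Or.inr rfl)
      have h8 := hb δ (Or.inl ⟨hδ, lt_trans h7 hbδ⟩)
      exact absurd h8 (not_lt.mpr hbδ.le)
    let e := hinf.natEmbedding
    obtain ⟨b, hb⟩ := hunb (range (fun k => (e k : Ω))) (countable_range _)
    refine ⟨b, (infinite_range_of_injective (f := fun k => (e k : Ω))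
      (fun k l h => e.injective (Subtype.ext h))).mono ?_⟩
    rintro _ ⟨k, rfl⟩
    exact ⟨(e k).2.1, (e k).2.2, hb _ ⟨k, rfl⟩⟩
  choose gX hgX using hgX
  -- δ = y_q
  obtain ⟨δ, hδ1, hδ2, hδ3⟩ := step hcount hunb F (show q ≤ T by omega)
    (update y (q - 1) α) α gX
  set y2 : ℕ → Ω := update (update y (q - 1) α) q δ with hy2
  have hy2a : ∀ j < q - 1, y2 j = y j := by
    intro j hj
    rw [hy2, update_of_ne (by omega), update_of_ne (by omega)]
  have hy2b : y2 (q - 1) = α := by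
    rw [hy2, update_of_ne (by omega), update_self]
  have hy2c : y2 q = δ := by rw [hy2, update_self]
  have hlasty : ∀ j, j + 1 = q - 1 → y j < x (T - 1) := by
    intro j hj
    have h6 := (h5 j (by omega)).2
    have e : s + j + 1 = T - 1 := by omega
    rw [e] at h6
    exact h6
  have hy2s : Srt (q + 1) y2 := by
    intro j hj
    rcases Nat.lt_or_ge (j + 1) (q - 1) with h | h
    · rw [hy2a j (by omega), hy2a (j + 1) h]
      exact h4 j h
    · rcases Nat.lt_or_ge (j + 1) q with h' | h'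
      · have e : j + 1 = q - 1 := by omega
        rw [e, hy2b, hy2a j (by omega)]
        exact lt_trans (hlasty j e) hα1
      · have e : j + 1 = q := by omega
        have e2 : j = q - 1 := by omega
        rw [e, hy2c, e2, hy2b]
        exact hδ1
  have hGy2 : Gc F T (T + 1 - (q + 1)) y2 = n := by
    have e : T + 1 - (q + 1) = T - q := by omega
    rw [e, hδ3]
    have e2 : T + 1 - q = T - (q - 1) := by omega
    rw [e2, hα2, h2]
  -- vertices of the line
  have hxs : ∀ ξ, α < ξ → Srt (T + 1) (update x T ξ) := by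
    intro ξ hξ j hj
    rcases Nat.lt_or_ge (j + 1) T with h | h
    · rw [update_of_ne (by omega), update_of_ne (by omega)]
      exact h3 j (by omega)
    · have e : j + 1 = T := by omega
      have e2 : j = T - 1 := by omega
      rw [e, update_self, update_of_ne (by omega), e2]
      exact lt_trans hα1 hξ
  let vx : Ω → V Ω T := fun ξ => if h : α < ξ then mk (update x T ξ) (hxs ξ h) else
    mk (update x T (gX α)) (hxs _ (by
      obtain ⟨ξ, hξ⟩ := (hgX α).nonempty
      exact lt_trans hξ.2.1 hξ.2.2))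
  have hvx : ∀ ξ (h : α < ξ), vx ξ = mk (update x T ξ) (hxs ξ h) := fun ξ h => dif_pos h
  let S : Set (V Ω T) := vx '' {ξ | ξ ∈ X ∧ α < ξ ∧ ξ < δ}
  have hSc : S.Countable := by
    apply Set.Countable.image
    exact (hcount δ).mono (fun ξ hξ => hξ.2.2)
  have hSn : S.Nonempty := by
    obtain ⟨ξ, hξ⟩ := (hgX α).nonempty
    exact ⟨vx ξ, ξ, ⟨hξ.1, hξ.2.1, lt_trans hξ.2.2 (hδ2 α hδ1)⟩, rfl⟩
  obtain ⟨η, hη⟩ := hφ S hSc hSn
  -- the rest of y
  obtain ⟨y3, g1, g2, g3, g4⟩ := extend_up (T := T) hcount hunb F y2 hy2s η (T + 1) (by omega)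
    le_rfl
  have hy3 : F y3 = n := by
    have e : T + 1 - (T + 1) = 0 := by omega
    rw [e, hGy2] at g3
    exact g3
  have hy3last : η < y3 T := by
    have := g4 (by omega)
    have e : T + 1 - 1 = T := by omega
    rw [e] at this
    exact this
  let Y : V Ω T := mk y3 g2
  have hYc : ∀ i ≤ T, c Y i = y3 i := fun i hi => c_mk y3 g2 hi
  have hxc : ∀ ξ (h : α < ξ), ∀ i ≤ T, c (vx ξ) i = update x T ξ i := by
    intro ξ h i hi
    rw [hvx ξ h]
    exact c_mk _ _ hi
  have hlow : ∀ ξ, α < ξ → ξ < δ → low s (vx ξ) Y := by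
    intro ξ hξ1 hξ2
    constructor
    · intro i hi
      rw [hxc ξ hξ1 _ hi, hYc i (by omega), g1 i (by omega)]
      rcases Nat.lt_or_ge i (q - 1) with h | h
      · rw [update_of_ne (by omega), hy2a i h]
        exact (h5 i h).1
      · rcases Nat.lt_or_ge i q with h' | h'
        · have e : i = q - 1 := by omega
          subst e
          have e2 : s + (q - 1) = T - 1 := by omega
          rw [update_of_ne (by omega), hy2b, e2]
          exact hα1
        · have e : i = q := by omega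
          subst e
          rw [hsq, update_self, hy2c]
          exact hξ2
    · intro i hi
      rw [hxc ξ hξ1 _ hi, hYc i (by omega), g1 i (by omega)]
      rcases Nat.lt_or_ge i (q - 1) with h | h
      · rw [update_of_ne (by omega), hy2a i h]
        exact (h5 i h).2
      · have e : i = q - 1 := by omega
        subst e
        have e2 : s + (q - 1) + 1 = T := by omega
        rw [e2, update_self, hy2b]
        exact hξ1
  have hcq : c Y q = δ := by
    rw [hYc q (by omega), g1 q (by omega), hy2c]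
  have hbig : Big s q (φ η) Y := by
    rw [hη]
    refine ⟨⟨α, by rw [hcq]; exact hδ1⟩, ?_⟩
    intro b hb
    rw [hcq] at hb
    refine ⟨gX (max b α), by rw [hcq]; exact hδ2 _ (max_lt hb hδ1), ?_⟩
    have hmaps : vx '' {ξ | ξ ∈ X ∧ max b α < ξ ∧ ξ < gX (max b α)} ⊆
        {x | x ∈ S ∧ low s x Y ∧ b < c x T ∧ c x T < gX (max b α)} := by
      rintro _ ⟨ξ, ⟨hξX, hξ1, hξ2⟩, rfl⟩
      have hα' : α < ξ := lt_of_le_of_lt (le_max_right _ _) hξ1
      have hδ' : ξ < δ := lt_trans hξ2 (hδ2 _ (max_lt hb hδ1))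
      have hcT : c (vx ξ) T = ξ := by rw [hxc ξ hα' T le_rfl, update_self]
      refine ⟨⟨ξ, ⟨hξX, hα', hδ'⟩, rfl⟩, hlow ξ hα' hδ', ?_, ?_⟩
      · rw [hcT]; exact lt_of_le_of_lt (le_max_left _ _) hξ1
      · rw [hcT]; exact hξ2
    refine Set.Infinite.mono hmaps ((hgX (max b α)).image ?_)
    rintro ξ ⟨_, hξ1, _⟩ ξ' ⟨_, hξ1', _⟩ heq
    have hα' : α < ξ := lt_of_le_of_lt (le_max_right _ _) hξ1
    have hα'' : α < ξ' := lt_of_le_of_lt (le_max_right _ _) hξ1'
    have e1 : c (vx ξ) T = ξ := by rw [hxc ξ hα' T le_rfl, update_self]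
    have e2 : c (vx ξ') T = ξ' := by rw [hxc ξ' hα'' T le_rfl, update_self]
    rw [← e1, ← e2, heq]
  obtain ⟨v, hv1, hv2⟩ := hN Y η (by rw [hYc T le_rfl]; exact hy3last) hbig
  rw [hη] at hv2
  obtain ⟨ξ, ⟨hξX, hξ1, hξ2⟩, rfl⟩ := hv2
  refine ⟨Y, vx ξ, hv1, ?_⟩
  rw [hvx ξ hξ1, ← hF, ← hF, hy3]
  exact hξX

end main

end H6.Odd
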