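import Mathlib
import Pool.Agent.H6.OddC
import Pool.Agent.H6.EHMOrd

open Set Function Cardinal

namespace H6.Odd

abbrev W1 : Type := (Ordinal.omega 1 : Ordinal.{0}).ToType

theorem w1_count (t : W1) : (Iio t).Countable := by
  have h := EHM.om_count (Ordinal.ToType.mk.symm t)
  apply (h.preimage_of_injOn (f := Ordinal.ToType.mk.symm)
    (Ordinal.ToType.mk.symm.injective.injOn)).mono
  intro x hx
  exact Ordinal.ToType.mk.symm.strictMono hx

theorem w1_unb (S : Set W1) (hS : S.Countable) : ∃ b, ∀ x ∈ S, x < b := by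
  obtain ⟨b, hb⟩ := EHM.om_unb (Ordinal.ToType.mk.symm '' S) (hS.image _)
  refine ⟨Ordinal.ToType.mk b, fun x hx => ?_⟩
  have := hb _ ⟨x, hx, rfl⟩
  have h2 := Ordinal.ToType.mk.strictMono this
  rw [OrderIso.apply_symm_apply] at h2
  exact h2

theorem mk_w1 : #W1 = ℵ₁ := by
  rw [Cardinal.mk_toType, Ordinal.card_omega]

theorem mk_V (T : ℕ) : #(V W1 T) ≤ ℵ₁ := by
  refine le_trans (Cardinal.mk_subtype_le _) ?_
  have h : #(Fin (T + 1) → W1) = #W1 ^ #(Fin (T + 1)) := (Cardinal.power_def _ _).symm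
  rw [h, mk_w1, Cardinal.mk_fin]
  exact Cardinal.power_nat_le (Cardinal.aleph0_le_aleph 1)

theorem exists_graph (CH : Cardinal.continuum.{0} = ℵ₁) (k : ℕ) :
    ∃ (V : Type) (G : SimpleGraph V), #V ≤ ℵ₁ ∧
      (∀ f : V → ℕ, ∃ x y, G.Adj x y ∧ f x = f y) ∧
      (∀ A B : Set V, A.Infinite → B.Infinite → ¬ ∀ a ∈ A, ∀ b ∈ B, G.Adj a b) ∧
      (∀ (u : V) (p : G.Walk u u), Odd p.length → 2 * k + 1 < p.length) := by
  classical
  let s := k + 1
  let T := (2 * k + 1) * (2 * s + 1)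
  have hTe : T = 4 * k * k + 8 * k + 3 := by simp only [T, s]; ring
  have hkk : 0 ≤ 4 * k * k := Nat.zero_le _
  have hs : s = k + 1 := rfl
  let q := T - s
  have hsq : s + q = T := by simp only [q]; omega
  obtain ⟨ι⟩ : Nonempty (V W1 T ↪ W1) := by
    rw [← Cardinal.le_def, mk_w1]
    exact mk_V T
  obtain ⟨φ, hφ⟩ : ∃ φ : W1 → Set (V W1 T), ∀ S : Set (V W1 T), S.Countable → S.Nonempty →
      ∃ η, φ η = S := by
    by_cases hne : Nonempty (V W1 T)
    · have h1 : #(ℕ → V W1 T) ≤ #W1 := by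
        have h : #(ℕ → V W1 T) = #(V W1 T) ^ #ℕ := (Cardinal.power_def _ _).symm
        rw [h, mk_w1, ← CH]
        have h2 := mk_V T
        rw [← CH] at h2
        calc #(V W1 T) ^ #ℕ ≤ continuum ^ #ℕ := Cardinal.power_le_power_right h2
          _ = continuum := by simp
      obtain ⟨e⟩ := Cardinal.le_def _ _ |>.mp h1
      have hsurj := Function.invFun_surjective e.injective
      refine ⟨fun η => range (Function.invFun e η), fun S hS hn => ?_⟩
      obtain ⟨g, hg⟩ := hS.exists_eq_range hn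
      obtain ⟨η, hη⟩ := hsurj g
      exact ⟨η, by show range (Function.invFun e η) = S; rw [hη, hg]⟩
    · exact ⟨fun _ => ∅, fun S _ hn => absurd ⟨hn.some⟩ hne⟩
  obtain ⟨N, hN1, hN2, hN3⟩ := exists_N w1_count s q hsq ι ι.injective φ
  have hirr : ∀ x, x ∉ N x := by
    intro x hx
    have h := (hN1 x x hx).1 0 (by omega)
    exact absurd h (not_lt.mpr (c_le x (by omega)))
  let G : SimpleGraph (V W1 T) :=
    { Adj := fun x y => x ∈ N y ∨ y ∈ N x
      symm := ⟨fun x y h => h.symm⟩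
      loopless := ⟨fun x h => h.elim (hirr x) (hirr x)⟩ }
  have hGl : ∀ x y, G.Adj x y → low s x y ∨ low s y x := by
    rintro x y (h | h)
    · exact Or.inl (hN1 y x h)
    · exact Or.inr (hN1 x y h)
  refine ⟨V W1 T, G, mk_V T, ?_, ?_, ?_⟩
  · intro f
    obtain ⟨y, x, hx, hf⟩ := chromatic w1_count w1_unb s q (by omega) (by omega) hsq φ hφ N hN3 f
    exact ⟨x, y, Or.inl hx, hf⟩
  · intro A B hA hB hAB
    exact K_free (s := s) (by omega) (by omega) N hN1 hN2 w1_unb A B hA hB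
      (fun a ha b hb => hAB a ha b hb)
  · intro u p hp
    exact no_odd k s hs rfl hGl p hp

end H6.Odd
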