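import Mathlib

set_option autoImplicit false

namespace Pool.Agent.H6.Osi

/-- Random sign. -/
def sg (b : Bool) : ℝ := if b then 1 else -1

lemma sg_not (b : Bool) : sg (!b) = - sg b := by cases b <;> simp [sg]

lemma sg_sq (b : Bool) : sg b ^ 2 = 1 := by cases b <;> simp [sg]

lemma sg_mul_self (b : Bool) : sg b * sg b = 1 := by cases b <;> simp [sg]

variable {I : Type*} [Fintype I] [DecidableEq I]

/-- Flip the coordinate `a`. -/
def flip (a : I) (e : I → Bool) : I → Bool := Function.update e a (!(e a))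

lemma flip_flip (a : I) (e : I → Bool) : flip a (flip a e) = e := by
  funext x
  by_cases h : x = a
  · subst h; simp [flip]
  · simp [flip, h]

lemma flip_same (a : I) (e : I → Bool) : flip a e a = !(e a) := by simp [flip]

lemma flip_ne (a b : I) (h : b ≠ a) (e : I → Bool) : flip a e b = e b := by simp [flip, h]

lemma sum_flip (a : I) (f : (I → Bool) → ℝ) : ∑ e, f (flip a e) = ∑ e, f e :=
  Equiv.sum_comp (Function.Involutive.toPerm (flip a) (flip_flip a)) f

lemma sum_zero_of_flip (a : I) (f : (I → Bool) → ℝ) (h : ∀ e, f (flip a e) = - f e) :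
    ∑ e, f e = 0 := by
  have h1 := sum_flip a f
  simp only [h, Finset.sum_neg_distrib] at h1
  linarith

/-- The character of a pair. -/
def X (p : I × I) (e : I → Bool) : ℝ := sg (e p.1) * sg (e p.2)

lemma sum_X (p : I × I) (hp : p.1 ≠ p.2) : ∑ e, X p e = 0 := by
  refine sum_zero_of_flip p.1 _ fun e => ?_
  unfold X
  rw [flip_same, flip_ne _ _ (Ne.symm hp), sg_not]
  ring

lemma sum_XX (p q : I × I) (hp : p.1 ≠ p.2) (h : q ≠ p) (h' : q ≠ p.swap) :
    ∑ e, X p e * X q e = 0 := by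
  by_cases h1 : p.1 ≠ q.1 ∧ p.1 ≠ q.2
  · refine sum_zero_of_flip p.1 _ fun e => ?_
    unfold X
    rw [flip_same, flip_ne _ _ (Ne.symm hp), sg_not, flip_ne _ _ (Ne.symm h1.1),
      flip_ne _ _ (Ne.symm h1.2)]
    ring
  by_cases h2 : p.2 ≠ q.1 ∧ p.2 ≠ q.2
  · refine sum_zero_of_flip p.2 _ fun e => ?_
    unfold X
    rw [flip_same, flip_ne _ _ hp, sg_not, flip_ne _ _ (Ne.symm h2.1),
      flip_ne _ _ (Ne.symm h2.2)]
    ring
  exfalso
  have h1' : p.1 = q.1 ∨ p.1 = q.2 := by
    by_contra hc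
    push Not at hc
    exact h1 hc
  have h2' : p.2 = q.1 ∨ p.2 = q.2 := by
    by_contra hc
    push Not at hc
    exact h2 hc
  rcases h1' with a | a <;> rcases h2' with b | b
  · exact hp (a.trans b.symm)
  · exact h (Prod.ext a.symm b.symm)
  · exact h' (Prod.ext b.symm a.symm)
  · exact hp (a.trans b.symm)

lemma X_sq (p : I × I) (e : I → Bool) : X p e * X p e = 1 := by
  unfold X
  have h1 := sg_mul_self (e p.1)
  have h2 := sg_mul_self (e p.2)
  calc sg (e p.1) * sg (e p.2) * (sg (e p.1) * sg (e p.2))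
      = (sg (e p.1) * sg (e p.1)) * (sg (e p.2) * sg (e p.2)) := by ring
    _ = 1 := by rw [h1, h2]; norm_num

lemma X_swap (p : I × I) (e : I → Bool) : X p.swap e = X p e := by
  unfold X
  simp only [Prod.fst_swap, Prod.snd_swap]
  ring

lemma sum_XX_le (p q : I × I) (c c' : ℝ) (hp : c ≠ 0 → p.1 ≠ p.2) :
    c * c' * ∑ e, X p e * X q e ≤
      (2 : ℝ) ^ (Fintype.card I) * (if q = p ∨ q = p.swap then (c ^ 2 + c' ^ 2) / 2 else 0) := by
  by_cases hc : c = 0
  · rw [hc]
    simp only [zero_mul]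
    split_ifs <;> positivity
  by_cases h : q = p ∨ q = p.swap
  · rw [if_pos h]
    have h1 : ∀ e, X p e * X q e = 1 := by
      intro e
      rcases h with h | h
      · rw [h, X_sq]
      · rw [h, X_swap, X_sq]
    simp only [h1, Finset.sum_const, Finset.card_univ, Fintype.card_fun, Fintype.card_bool,
      nsmul_eq_mul, mul_one]
    push_cast
    have h2 : c * c' ≤ (c ^ 2 + c' ^ 2) / 2 := by nlinarith [sq_nonneg (c - c')]
    have h3 : (0 : ℝ) ≤ 2 ^ Fintype.card I := by positivity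
    nlinarith
  · rw [if_neg h]
    push Not at h
    rw [sum_XX p q (hp hc) h.1 h.2]
    simp

/-- Second moment of a quadratic chaos. -/
lemma chaos {κ : Type*} [Fintype κ] [DecidableEq κ] (p : κ → I × I) (hinj : Function.Injective p)
    (c : κ → ℝ) (hp : ∀ a, c a ≠ 0 → (p a).1 ≠ (p a).2) :
    ∑ e, (∑ a, c a * X (p a) e) ^ 2 ≤ (2 : ℝ) ^ (Fintype.card I) * (2 * ∑ a, c a ^ 2) := by
  have h1 : ∑ e, (∑ a, c a * X (p a) e) ^ 2
      = ∑ a, ∑ b, c a * c b * ∑ e, X (p a) e * X (p b) e := by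
    simp only [sq, Finset.sum_mul_sum]
    rw [Finset.sum_comm]
    refine Finset.sum_congr rfl fun a _ => ?_
    rw [Finset.sum_comm]
    refine Finset.sum_congr rfl fun b _ => ?_
    rw [Finset.mul_sum]
    refine Finset.sum_congr rfl fun e _ => ?_
    ring
  rw [h1]
  have h2 : ∑ a, ∑ b, c a * c b * ∑ e, X (p a) e * X (p b) e
      ≤ ∑ a, ∑ b, (2 : ℝ) ^ (Fintype.card I) *
        (if p b = p a ∨ p b = (p a).swap then (c a ^ 2 + c b ^ 2) / 2 else 0) :=
    Finset.sum_le_sum fun a _ => Finset.sum_le_sum fun b _ => sum_XX_le _ _ _ _ (hp a)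
  refine h2.trans ?_
  simp only [← Finset.mul_sum]
  refine mul_le_mul_of_nonneg_left ?_ (by positivity)
  set g : κ → κ → ℝ := fun a b => if p b = p a ∨ p b = (p a).swap then c a ^ 2 / 2 else 0 with hg
  have h3 : ∀ a b, (if p b = p a ∨ p b = (p a).swap then (c a ^ 2 + c b ^ 2) / 2 else 0)
      = g a b + g b a := by
    intro a b
    have hiff : (p b = p a ∨ p b = (p a).swap) ↔ (p a = p b ∨ p a = (p b).swap) := by
      constructor
      · rintro (h | h)
        · exact Or.inl h.symm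
        · right; rw [h, Prod.swap_swap]
      · rintro (h | h)
        · exact Or.inl h.symm
        · right; rw [h, Prod.swap_swap]
    rw [hg]
    simp only
    by_cases h : p b = p a ∨ p b = (p a).swap
    · rw [if_pos h, if_pos h, if_pos (hiff.mp h)]; ring
    · rw [if_neg h, if_neg h, if_neg (fun h' => h (hiff.mpr h'))]; ring
  have h4 : ∑ a, ∑ b, (if p b = p a ∨ p b = (p a).swap then (c a ^ 2 + c b ^ 2) / 2 else 0)
      = 2 * ∑ a, ∑ b, g a b := by
    simp only [h3, Finset.sum_add_distrib]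
    rw [Finset.sum_comm (f := fun a b => g b a)]
    ring
  rw [h4]
  refine mul_le_mul_of_nonneg_left ?_ (by norm_num)
  refine Finset.sum_le_sum fun a _ => ?_
  rw [hg]
  simp only
  rw [← Finset.sum_filter, Finset.sum_const, nsmul_eq_mul]
  have h5 : (Finset.univ.filter fun b => p b = p a ∨ p b = (p a).swap).card ≤ 2 := by
    calc (Finset.univ.filter fun b => p b = p a ∨ p b = (p a).swap).card
        ≤ ({p a, (p a).swap} : Finset (I × I)).card := by
          refine Finset.card_le_card_of_injOn p ?_ (fun x _ y _ h => hinj h)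
          intro b hb
          simp only [Finset.coe_filter, Set.mem_setOf_eq] at hb
          simpa using hb.2
      _ ≤ 2 := Finset.card_le_two
  have h6 : ((Finset.univ.filter fun b => p b = p a ∨ p b = (p a).swap).card : ℝ) ≤ 2 := by
    exact_mod_cast h5
  nlinarith [sq_nonneg (c a)]

/-- First moment of a quadratic chaos. -/
lemma chaos1 {κ : Type*} [Fintype κ] (p : κ → I × I) 
    (c : κ → ℝ) (hp : ∀ a, c a ≠ 0 → (p a).1 ≠ (p a).2) :
    ∑ e, (∑ a, c a * X (p a) e) = 0 := by
  rw [Finset.sum_comm]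
  refine Finset.sum_eq_zero fun a _ => ?_
  rw [← Finset.mul_sum]
  by_cases h : c a = 0
  · rw [h, zero_mul]
  · rw [sum_X _ (hp a h), mul_zero]

/-- The quadratic form of a sign matrix. -/
lemma quad_eq {d k : ℕ} (x : Fin d → ℝ) (e : Fin d × Fin k → Bool) :
    ∑ j, (∑ i, sg (e (i, j)) * x i) ^ 2 = k * (∑ i, x i ^ 2) +
      ∑ a : Fin k × (Fin d × Fin d), (if a.2.1 ≠ a.2.2 then x a.2.1 * x a.2.2 else 0) *
        X ((a.2.1, a.1), (a.2.2, a.1)) e := by
  rw [Fintype.sum_prod_type]
  have : (k : ℝ) * (∑ i, x i ^ 2) = ∑ _j : Fin k, ∑ i, x i ^ 2 := by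
    rw [Finset.sum_const, Finset.card_univ, Fintype.card_fin, nsmul_eq_mul]
  rw [this, ← Finset.sum_add_distrib]
  refine Finset.sum_congr rfl fun j _ => ?_
  rw [sq, Finset.sum_mul_sum, Fintype.sum_prod_type]
  rw [← Finset.sum_add_distrib]
  refine Finset.sum_congr rfl fun i _ => ?_
  simp only
  have h1 : x i ^ 2 = ∑ i', if i = i' then x i * x i' else 0 := by
    rw [Finset.sum_ite_eq]
    simp [sq]
  rw [h1, ← Finset.sum_add_distrib]
  refine Finset.sum_congr rfl fun i' _ => ?_
  unfold X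
  by_cases h : i = i'
  · subst h
    simp only [if_true, ne_eq, not_true_eq_false, if_false, zero_mul, add_zero]
    have := sg_mul_self (e (i, j))
    calc sg (e (i, j)) * x i * (sg (e (i, j)) * x i)
        = (sg (e (i, j)) * sg (e (i, j))) * (x i * x i) := by ring
      _ = _ := by rw [this, one_mul]
  · simp only [h, if_false, ne_eq, not_false_eq_true, if_true, zero_add]
    ring

lemma quad_mean {d k : ℕ} (x : Fin d → ℝ) :
    ∑ e : Fin d × Fin k → Bool, ∑ j, (∑ i, sg (e (i, j)) * x i) ^ 2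
      = (2 : ℝ) ^ (Fintype.card (Fin d × Fin k)) * (k * (∑ i, x i ^ 2)) := by
  simp only [quad_eq]
  rw [Finset.sum_add_distrib, chaos1, add_zero, Finset.sum_const, Finset.card_univ,
    Fintype.card_fun, Fintype.card_bool, nsmul_eq_mul]
  · push_cast; rfl
  · intro a ha
    simp only
    intro hc
    apply ha
    have : a.2.1 = a.2.2 := (Prod.ext_iff.mp hc).1
    simp [this]

lemma quad_var {d k : ℕ} (x : Fin d → ℝ) :
    ∑ e : Fin d × Fin k → Bool,
      (∑ j, (∑ i, sg (e (i, j)) * x i) ^ 2 - k * (∑ i, x i ^ 2)) ^ 2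
      ≤ (2 : ℝ) ^ (Fintype.card (Fin d × Fin k)) * (2 * (k * (∑ i, x i ^ 2) ^ 2)) := by
  have h0 : ∀ e : Fin d × Fin k → Bool,
      ∑ j, (∑ i, sg (e (i, j)) * x i) ^ 2 - k * (∑ i, x i ^ 2) =
      ∑ a : Fin k × (Fin d × Fin d), (if a.2.1 ≠ a.2.2 then x a.2.1 * x a.2.2 else 0) *
        X ((a.2.1, a.1), (a.2.2, a.1)) e := by
    intro e
    rw [quad_eq]
    ring
  simp only [h0]
  refine (chaos (fun a : Fin k × (Fin d × Fin d) => ((a.2.1, a.1), (a.2.2, a.1))) ?_ _ ?_).trans ?_
  · intro a b hab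
    simp only [Prod.mk.injEq] at hab
    exact Prod.ext hab.1.2 (Prod.ext hab.1.1 hab.2.1)
  · intro a ha
    simp only
    intro hc
    apply ha
    have : a.2.1 = a.2.2 := (Prod.ext_iff.mp hc).1
    simp [this]
  · refine mul_le_mul_of_nonneg_left ?_ (by positivity)
    refine mul_le_mul_of_nonneg_left ?_ (by norm_num)
    rw [Fintype.sum_prod_type]
    have : (k : ℝ) * (∑ i, x i ^ 2) ^ 2 = ∑ _j : Fin k, (∑ i, x i ^ 2) ^ 2 := by
      rw [Finset.sum_const, Finset.card_univ, Fintype.card_fin, nsmul_eq_mul]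
    rw [this]
    refine Finset.sum_le_sum fun j _ => ?_
    rw [Fintype.sum_prod_type, sq (∑ i, x i ^ 2), Finset.sum_mul_sum]
    refine Finset.sum_le_sum fun i _ => Finset.sum_le_sum fun i' _ => ?_
    simp only
    split_ifs
    · exact le_of_eq (by ring)
    · rw [zero_pow two_ne_zero]; positivity

lemma gram_var {m k : ℕ} (j l : Fin k) (hjl : j ≠ l) :
    ∑ e : Fin (m + 1) × Fin k → Bool,
      (∑ i : Fin m, sg (e (i.succ, j)) * sg (e (i.succ, l))) ^ 2
      ≤ (2 : ℝ) ^ (Fintype.card (Fin (m + 1) × Fin k)) * (2 * m) := by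
  have h := chaos (I := Fin (m + 1) × Fin k) (κ := Fin m)
    (fun i => ((i.succ, j), (i.succ, l))) (by
      intro a b hab
      simp only [Prod.mk.injEq] at hab
      exact Fin.succ_injective _ hab.1.1) (fun _ => 1) (by
      intro a _
      simp only
      intro hc
      exact hjl (Prod.ext_iff.mp hc).2)
  simpa [X] using h

end Pool.Agent.H6.Osi
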