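import Mathlib

set_option autoImplicit false

/-!
Oblivious subspace injections and the randomized SVD: definitions.
-/

namespace Pool.Agent.H6.Osi

open MeasureTheory

/-- The Frobenius norm. -/
noncomputable def frob {n d : ℕ} (A : Matrix (Fin n) (Fin d) ℝ) : ℝ :=
  Real.sqrt (∑ i, ∑ j, A i j ^ 2)

/-- The four Penrose conditions. -/
def IsMoorePenrose {m n : ℕ} (B : Matrix (Fin m) (Fin n) ℝ) (X : Matrix (Fin n) (Fin m) ℝ) :
    Prop :=
  B * X * B = B ∧ X * B * X = X ∧ (B * X).transpose = B * X ∧ (X * B).transpose = X * B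

/-- The Moore-Penrose pseudoinverse. -/
noncomputable def pinv {m n : ℕ} (B : Matrix (Fin m) (Fin n) ℝ) : Matrix (Fin n) (Fin m) ℝ :=
  Classical.epsilon (fun X => IsMoorePenrose B X)

/-- The randomized SVD approximation `(A M) (A M)⁺ A`. -/
noncomputable def rsvd {n d k : ℕ} (A : Matrix (Fin n) (Fin d) ℝ)
    (M : Matrix (Fin d) (Fin k) ℝ) : Matrix (Fin n) (Fin d) ℝ :=
  (A * M) * pinv (A * M) * A

/-- The optimal error `‖A - A_r‖_F`: the infimum of `‖A - B‖_F` over `B` of rank at most `r`. -/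
noncomputable def optErr {n d : ℕ} (A : Matrix (Fin n) (Fin d) ℝ) (r : ℕ) : ℝ :=
  sInf {e | ∃ B : Matrix (Fin n) (Fin d) ℝ, B.rank ≤ r ∧ e = frob (A - B)}

/-- The squared norm `‖Mᵀ x‖²`. -/
def sk {d k : ℕ} (M : Matrix (Fin d) (Fin k) ℝ) (x : EuclideanSpace ℝ (Fin d)) : ℝ :=
  ∑ j, (∑ i, M i j * x i) ^ 2

/-- The random matrix `Om` is an oblivious subspace injection with dimension `r`, injectivity `a`
and failure probability `δ`. -/
structure IsOSI {S : Type} [MeasurableSpace S] {d k : ℕ} (P : Measure S)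
    (Om : S → Matrix (Fin d) (Fin k) ℝ) (r : ℕ) (a δ : ℝ) : Prop where
  meas : ∀ i j, Measurable (fun s => Om s i j)
  integrable : ∀ x, Integrable (fun s => sk (Om s) x) P
  isotropic : ∀ x, ∫ s, sk (Om s) x ∂P = ‖x‖ ^ 2
  injective : ∀ V : Submodule ℝ (EuclideanSpace ℝ (Fin d)), Module.finrank ℝ V = r →
    1 - δ ≤ P.real {s | ∀ x ∈ V, a * ‖x‖ ^ 2 ≤ sk (Om s) x}

end Pool.Agent.H6.Osi
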