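import Mathlib

set_option autoImplicit false

namespace Pool.Agent.H6.Osi

open scoped InnerProductSpace

variable {E F : Type*} [NormedAddCommGroup E] [InnerProductSpace ℝ E]
  [NormedAddCommGroup F] [InnerProductSpace ℝ F]

/-- The shear. -/
noncomputable def shear (v w : E) (s : ℝ) : E →ₗ[ℝ] E where
  toFun x := x + ⟪x, v⟫_ℝ • (w + (s - 1) • v)
  map_add' x y := by
    simp only [inner_add_left, add_smul]
    abel
  map_smul' c x := by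
    simp only [inner_smul_left, RCLike.conj_to_real, RingHom.id_apply, smul_add, mul_smul]

lemma shear_apply (v w : E) (s : ℝ) (x : E) :
    shear v w s x = x + ⟪x, v⟫_ℝ • (w + (s - 1) • v) := rfl

lemma shear_injective (v w : E) (s : ℝ) (hs : s ≠ 0) (hv1 : ‖v‖ = 1) (hwv : ⟪w, v⟫_ℝ = 0) :
    Function.Injective (shear v w s) := by
  rw [← LinearMap.ker_eq_bot, LinearMap.ker_eq_bot']
  intro x hx
  rw [shear_apply] at hx
  have h1 : ⟪x + ⟪x, v⟫_ℝ • (w + (s - 1) • v), v⟫_ℝ = 0 := by rw [hx, inner_zero_left]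
  have hvv : ⟪v, v⟫_ℝ = 1 := by rw [real_inner_self_eq_norm_sq, hv1]; norm_num
  simp only [inner_add_left, inner_smul_left, RCLike.conj_to_real, hwv, hvv] at h1
  have h2 : ⟪x, v⟫_ℝ = 0 := by
    have : s * ⟪x, v⟫_ℝ = 0 := by linear_combination h1
    rcases mul_eq_zero.mp this with h | h
    · exact absurd h hs
    · exact h
  rw [h2, zero_smul, add_zero] at hx
  exact hx

lemma finrank_shear [FiniteDimensional ℝ E] (V : Submodule ℝ E) (v w : E) (s : ℝ) (hs : s ≠ 0)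
    (hv1 : ‖v‖ = 1) (hwv : ⟪w, v⟫_ℝ = 0) :
    Module.finrank ℝ (V.map (shear v w s)) = Module.finrank ℝ V :=
  ((Submodule.equivMapOfInjective _ (shear_injective v w s hs hv1 hwv) V).finrank_eq).symm

lemma lemmaA (T : E →ₗ[ℝ] F) (V : Submodule ℝ E) (w v : E) (hv : v ∈ V) (hv1 : ‖v‖ = 1)
    (hw1 : ‖w‖ = 1) (hw : ∀ x ∈ V, ⟪w, x⟫_ℝ = 0) (α : ℝ)
    (hs1 : ∀ y ∈ V.map (shear v w 1), α * ‖y‖ ^ 2 ≤ ‖T y‖ ^ 2)
    (hs2 : ∀ y ∈ V.map (shear v w (-1)), α * ‖y‖ ^ 2 ≤ ‖T y‖ ^ 2)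
    (hα : α ≤ ‖T v‖ ^ 2) (x : E) (hx : x ∈ V) (hxv : |⟪x, v⟫_ℝ| ≤ 1) :
    α * (1 + ‖x‖ ^ 2) - (‖T v‖ ^ 2 - α) ≤ ‖T (w - x)‖ ^ 2 := by
  set θ := ⟪x, v⟫_ℝ with hθ
  have hvv : ⟪v, v⟫_ℝ = 1 := by rw [real_inner_self_eq_norm_sq, hv1]; norm_num
  have hww : ⟪w, w⟫_ℝ = 1 := by rw [real_inner_self_eq_norm_sq, hw1]; norm_num
  have hwv : ⟪w, v⟫_ℝ = 0 := hw v hv
  have hwx : ⟪w, x⟫_ℝ = 0 := hw x hx
  have hmem : -x + (θ + 1) • v ∈ V := V.add_mem (V.neg_mem hx) (V.smul_mem _ hv)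
  have hin : ⟪-x + (θ + 1) • v, v⟫_ℝ = 1 := by
    rw [inner_add_left, inner_neg_left, inner_smul_left, hvv, RCLike.conj_to_real, ← hθ]
    ring
  have e : ∀ s : ℝ, shear v w s (-x + (θ + 1) • v) = (w - x) + (θ + s) • v := by
    intro s
    rw [shear_apply, hin, one_smul]
    module
  have h1 := hs1 _ (Submodule.mem_map_of_mem hmem)
  have h2 := hs2 _ (Submodule.mem_map_of_mem hmem)
  rw [e] at h1 h2
  have nE : ∀ s : ℝ, ‖(w - x) + (θ + s) • v‖ ^ 2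
      = 1 + ‖x‖ ^ 2 - 2 * θ * (θ + s) + (θ + s) ^ 2 := by
    intro s
    rw [← real_inner_self_eq_norm_sq, ← real_inner_self_eq_norm_sq x]
    simp only [inner_add_left, inner_add_right, inner_sub_left, inner_sub_right,
      inner_smul_left, inner_smul_right, RCLike.conj_to_real]
    have hvx : ⟪v, x⟫_ℝ = θ := by rw [real_inner_comm]
    have hvw : ⟪v, w⟫_ℝ = 0 := by rw [real_inner_comm]; exact hwv
    have hxw : ⟪x, w⟫_ℝ = 0 := by rw [real_inner_comm]; exact hwx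
    rw [hvx, hvw, hxw, hvv, hww, hwv, hwx, ← hθ]
    ring
  have nF : ∀ s : ℝ, ‖T ((w - x) + (θ + s) • v)‖ ^ 2
      = ‖T (w - x)‖ ^ 2 + 2 * (θ + s) * ⟪T (w - x), T v⟫_ℝ + (θ + s) ^ 2 * ‖T v‖ ^ 2 := by
    intro s
    rw [map_add, map_smul, ← real_inner_self_eq_norm_sq, ← real_inner_self_eq_norm_sq (T (w - x)),
      ← real_inner_self_eq_norm_sq (T v)]
    simp only [inner_add_left, inner_add_right, inner_smul_left, inner_smul_right,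
      RCLike.conj_to_real]
    rw [real_inner_comm (T v) (T (w - x))]
    ring
  rw [nE, nF] at h1 h2
  obtain ⟨hl, hu⟩ := abs_le.mp hxv
  have hsq : θ ^ 2 ≤ 1 := by nlinarith
  nlinarith [mul_le_mul_of_nonneg_left h1 (by linarith : (0:ℝ) ≤ (1 - θ) / 2),
    mul_le_mul_of_nonneg_left h2 (by linarith : (0:ℝ) ≤ (1 + θ) / 2),
    mul_nonneg (sq_nonneg θ) (sub_nonneg.mpr hα)]

lemma lemmaB (T : E →ₗ[ℝ] F) (V : Submodule ℝ E) (w v : E) (hv : v ∈ V) (hv1 : ‖v‖ = 1)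
    (hw1 : ‖w‖ = 1) (hw : ∀ x ∈ V, ⟪w, x⟫_ℝ = 0) (α : ℝ) (hα0 : 0 < α)
    (hV : ∀ y ∈ V, α * ‖y‖ ^ 2 ≤ ‖T y‖ ^ 2)
    (hs1 : ∀ y ∈ V.map (shear v w 1), α * ‖y‖ ^ 2 ≤ ‖T y‖ ^ 2)
    (hs2 : ∀ y ∈ V.map (shear v w (-1)), α * ‖y‖ ^ 2 ≤ ‖T y‖ ^ 2)
    (z : E) (hz : z ∈ V) (horth : ⟪T (w - z), T z⟫_ℝ = 0) :
    ‖z‖ ^ 2 ≤ 3 / (2 * α) * (‖T w‖ ^ 2 + ‖T v‖ ^ 2 - 2 * α) := by
  have hα : α ≤ ‖T v‖ ^ 2 := by
    have := hV v hv
    rw [hv1] at this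
    linarith
  have hTw : ‖T w‖ ^ 2 = ‖T (w - z)‖ ^ 2 + ‖T z‖ ^ 2 := by
    have : T w = T (w - z) + T z := by rw [← map_add, sub_add_cancel]
    rw [this, ← real_inner_self_eq_norm_sq, inner_add_left, inner_add_right, inner_add_right,
      real_inner_self_eq_norm_sq, real_inner_self_eq_norm_sq, real_inner_comm (T (w - z)) (T z),
      horth]
    ring
  have hTz : α * ‖z‖ ^ 2 ≤ ‖T z‖ ^ 2 := hV z hz
  have key : ∀ t : ℝ, 0 ≤ t → t ≤ 1 → t * ‖z‖ ≤ 1 →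
      2 * t * α * ‖z‖ ^ 2 ≤ ‖T w‖ ^ 2 + ‖T v‖ ^ 2 - 2 * α := by
    intro t ht0 ht1 htz
    have hx : t • z ∈ V := V.smul_mem _ hz
    have hxv : |⟪t • z, v⟫_ℝ| ≤ 1 := by
      calc |⟪t • z, v⟫_ℝ| ≤ ‖t • z‖ * ‖v‖ := abs_real_inner_le_norm _ _
        _ = t * ‖z‖ := by rw [hv1, mul_one, norm_smul, Real.norm_of_nonneg ht0]
        _ ≤ 1 := htz
    have hA := lemmaA T V w v hv hv1 hw1 hw α hs1 hs2 hα (t • z) hx hxv
    have e1 : ‖t • z‖ ^ 2 = t ^ 2 * ‖z‖ ^ 2 := by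
      rw [norm_smul, Real.norm_of_nonneg ht0, mul_pow]
    have e2 : ‖T (w - t • z)‖ ^ 2 = ‖T (w - z)‖ ^ 2 + (1 - t) ^ 2 * ‖T z‖ ^ 2 := by
      have : T (w - t • z) = T (w - z) + (1 - t) • T z := by
        rw [← map_smul, ← map_add]
        congr 1
        module
      rw [this, ← real_inner_self_eq_norm_sq, inner_add_left, inner_add_right, inner_add_right,
        inner_smul_left, inner_smul_right, inner_smul_left, inner_smul_right,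
        real_inner_self_eq_norm_sq, real_inner_self_eq_norm_sq,
        real_inner_comm (T (w - z)) (T z), horth]
      simp only [RCLike.conj_to_real]
      ring
    rw [e1, e2] at hA
    have h2t : 0 ≤ 2 * t - t ^ 2 := by nlinarith
    nlinarith [mul_le_mul_of_nonneg_left hTz h2t]
  have hR0 : 0 ≤ ‖T w‖ ^ 2 + ‖T v‖ ^ 2 - 2 * α := by
    have := key 0 le_rfl (by norm_num) (by norm_num)
    linarith
  rw [div_mul_eq_mul_div, le_div_iff₀ (by positivity)]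
  by_cases h : ‖z‖ ≤ 1
  · have := key 1 (by norm_num) le_rfl (by simpa using h)
    linarith
  · push Not at h
    have h0 : 0 < ‖z‖ := by linarith
    have := key (1 / ‖z‖) (by positivity) (by rw [div_le_one h0]; exact h.le)
      (by rw [one_div, inv_mul_cancel₀ h0.ne'])
    have e : 2 * (1 / ‖z‖) * α * ‖z‖ ^ 2 = 2 * α * ‖z‖ := by
      field_simp
    rw [e] at this
    have h3 : 2 * α ≤ ‖T w‖ ^ 2 + ‖T v‖ ^ 2 - 2 * α := by nlinarith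
    nlinarith [sq_nonneg ‖T (w - z)‖]

lemma lemmaR (T : E →ₗ[ℝ] F) (V : Submodule ℝ E) (w v : E) (hv : v ∈ V) (hv1 : ‖v‖ = 1)
    (hw1 : ‖w‖ = 1) (hw : ∀ x ∈ V, ⟪w, x⟫_ℝ = 0) (α : ℝ) 
    (hV : ∀ y ∈ V, α * ‖y‖ ^ 2 ≤ ‖T y‖ ^ 2)
    (hs1 : ∀ y ∈ V.map (shear v w 1), α * ‖y‖ ^ 2 ≤ ‖T y‖ ^ 2)
    (hs2 : ∀ y ∈ V.map (shear v w (-1)), α * ‖y‖ ^ 2 ≤ ‖T y‖ ^ 2) :
    0 ≤ ‖T w‖ ^ 2 + ‖T v‖ ^ 2 - 2 * α := by
  have hα : α ≤ ‖T v‖ ^ 2 := by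
    have := hV v hv
    rw [hv1] at this
    linarith
  have := lemmaA T V w v hv hv1 hw1 hw α hs1 hs2 hα 0 V.zero_mem (by simp)
  simp only [norm_zero, sub_zero] at this
  linarith

lemma lemmaD (T : E →ₗ[ℝ] F) (w : E) (α : ℝ) (hα0 : 0 < α)
    (z : E) (hz : α * ‖z‖ ^ 2 ≤ ‖T z‖ ^ 2) (horth : ⟪T (w - z), T z⟫_ℝ = 0) :
    ‖z‖ ^ 2 ≤ ‖T w‖ ^ 2 / α := by
  have hTw : ‖T w‖ ^ 2 = ‖T (w - z)‖ ^ 2 + ‖T z‖ ^ 2 := by
    have : T w = T (w - z) + T z := by rw [← map_add, sub_add_cancel]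
    rw [this, ← real_inner_self_eq_norm_sq, inner_add_left, inner_add_right, inner_add_right,
      real_inner_self_eq_norm_sq, real_inner_self_eq_norm_sq, real_inner_comm (T (w - z)) (T z),
      horth]
    ring
  rw [le_div_iff₀ hα0]
  nlinarith [sq_nonneg ‖T (w - z)‖]

/-- The sketched least squares map. -/
lemma exists_L [FiniteDimensional ℝ E] (T : E →ₗ[ℝ] F) (V : Submodule ℝ E) (α : ℝ) (hα0 : 0 < α)
    (hV : ∀ y ∈ V, α * ‖y‖ ^ 2 ≤ ‖T y‖ ^ 2) :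
    ∃ L : F →ₗ[ℝ] E, (∀ y, L y ∈ V) ∧ (∀ x ∈ V, L (T x) = x) ∧
      ∀ y, ∀ x ∈ V, ⟪y - T (L y), T x⟫_ℝ = 0 := by
  classical
  set TV : V →ₗ[ℝ] F := T.domRestrict V with hTV
  have hinj : Function.Injective TV := by
    rw [← LinearMap.ker_eq_bot, LinearMap.ker_eq_bot']
    intro x hx
    have h1 := hV x x.2
    have h2 : T (x : E) = 0 := hx
    rw [h2, norm_zero] at h1
    have h3 : ‖(x : E)‖ = 0 := by
      by_contra hne
      have : 0 < ‖(x : E)‖ := lt_of_le_of_ne (norm_nonneg _) (Ne.symm hne)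
      nlinarith [mul_pos hα0 (pow_pos this 2)]
    exact Subtype.ext (norm_eq_zero.mp h3)
  set K : Submodule ℝ F := LinearMap.range TV with hK
  have : FiniteDimensional ℝ K := by rw [hK]; infer_instance
  let e : V ≃ₗ[ℝ] K := LinearEquiv.ofInjective TV hinj
  let pr : F →ₗ[ℝ] K := (K.orthogonalProjectionOnto : F →L[ℝ] K).toLinearMap
  let L : F →ₗ[ℝ] E := V.subtype ∘ₗ e.symm.toLinearMap ∘ₗ pr
  have hTL : ∀ y, T (L y) = (K.orthogonalProjectionOnto y : F) := by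
    intro y
    have : T (L y) = (e (e.symm (K.orthogonalProjectionOnto y)) : F) := rfl
    rw [this, LinearEquiv.apply_symm_apply]
  refine ⟨L, fun y => (e.symm (pr y)).2, ?_, ?_⟩
  · intro x hx
    have hmem : T x ∈ K := ⟨⟨x, hx⟩, rfl⟩
    have h1 : pr (T x) = e ⟨x, hx⟩ := by
      apply Subtype.ext
      exact Submodule.starProjection_eq_self_iff.mpr hmem
    show (e.symm (pr (T x)) : E) = x
    rw [h1, LinearEquiv.symm_apply_apply]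
  · intro y x hx
    rw [hTL]
    have hmem : T x ∈ K := ⟨⟨x, hx⟩, rfl⟩
    exact Submodule.starProjection_inner_eq_zero (K := K) y (T x) hmem

end Pool.Agent.H6.Osi
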