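import Mathlib
import Pool.Agent.H6.OsiDefs

set_option autoImplicit false

namespace Pool.Agent.H6.Osi

open Matrix

lemma frob_sq {n d : ℕ} (A : Matrix (Fin n) (Fin d) ℝ) :
    frob A ^ 2 = ∑ i, ∑ j, A i j ^ 2 := by
  unfold frob
  rw [Real.sq_sqrt]
  positivity

lemma frob_nonneg {n d : ℕ} (A : Matrix (Fin n) (Fin d) ℝ) : 0 ≤ frob A := Real.sqrt_nonneg _

lemma trace_eq {n d : ℕ} (A B : Matrix (Fin n) (Fin d) ℝ) :
    ∑ i, ∑ j, A i j * B i j = (Aᵀ * B).trace := by
  simp only [Matrix.trace, Matrix.diag, Matrix.mul_apply, Matrix.transpose_apply]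
  rw [Finset.sum_comm]

lemma sumsq_eq_zero {n d : ℕ} (A : Matrix (Fin n) (Fin d) ℝ) (h : (Aᵀ * A) = 0) : A = 0 := by
  have h1 : ∑ i, ∑ j, A i j * A i j = 0 := by rw [trace_eq, h]; simp
  ext i j
  have h2 : ∀ i, 0 ≤ ∑ j, A i j * A i j := fun i => Finset.sum_nonneg fun j _ => mul_self_nonneg _
  have h3 := (Finset.sum_eq_zero_iff_of_nonneg fun i _ => h2 i).mp h1 i (Finset.mem_univ i)
  have h4 := (Finset.sum_eq_zero_iff_of_nonneg fun j _ => mul_self_nonneg _).mp h3 j
    (Finset.mem_univ j)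
  exact mul_self_eq_zero.mp h4

lemma exists_mp {m n : ℕ} (B : Matrix (Fin m) (Fin n) ℝ) : ∃ X, IsMoorePenrose B X := by
  have hH : (Bᵀ * B).IsHermitian := by
    rw [Matrix.IsHermitian, Matrix.conjTranspose_eq_transpose_of_trivial, Matrix.transpose_mul,
      Matrix.transpose_transpose]
  set U : Matrix (Fin n) (Fin n) ℝ := (hH.eigenvectorUnitary : Matrix (Fin n) (Fin n) ℝ) with hU
  set D : Fin n → ℝ := hH.eigenvalues with hD
  have hUU : Uᵀ * U = 1 := by
    have := hH.eigenvectorUnitary.2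
    have h2 := (Matrix.mem_unitaryGroup_iff'.mp this)
    rw [Matrix.star_eq_conjTranspose, Matrix.conjTranspose_eq_transpose_of_trivial] at h2
    exact h2
  have hUU' : U * Uᵀ = 1 := by
    have := hH.eigenvectorUnitary.2
    have h2 := (Matrix.mem_unitaryGroup_iff.mp this)
    rw [Matrix.star_eq_conjTranspose, Matrix.conjTranspose_eq_transpose_of_trivial] at h2
    exact h2
  have hspec : Bᵀ * B = U * diagonal D * Uᵀ := by
    have := hH.spectral_theorem
    rw [Unitary.conjStarAlgAut_apply] at this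
    rw [Matrix.star_eq_conjTranspose, Matrix.conjTranspose_eq_transpose_of_trivial] at this
    exact this
  set Y : Matrix (Fin n) (Fin n) ℝ := U * diagonal (fun i => (D i)⁻¹) * Uᵀ with hY
  set Q : Matrix (Fin n) (Fin n) ℝ := U * diagonal (fun i => (D i)⁻¹ * D i) * Uᵀ with hQ
  have hYB : Y * (Bᵀ * B) = Q := by
    rw [hspec, hY, hQ]
    calc U * diagonal (fun i => (D i)⁻¹) * Uᵀ * (U * diagonal D * Uᵀ)
        = U * diagonal (fun i => (D i)⁻¹) * (Uᵀ * U) * diagonal D * Uᵀ := by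
          simp only [Matrix.mul_assoc]
      _ = _ := by
          rw [hUU, Matrix.mul_one, Matrix.mul_assoc U, Matrix.diagonal_mul_diagonal]
  have hQT : Qᵀ = Q := by
    rw [hQ]
    simp only [Matrix.transpose_mul, Matrix.transpose_transpose, Matrix.diagonal_transpose,
      Matrix.mul_assoc]
  have hYT : Yᵀ = Y := by
    rw [hY]
    simp only [Matrix.transpose_mul, Matrix.transpose_transpose, Matrix.diagonal_transpose,
      Matrix.mul_assoc]
  have hQB : (Bᵀ * B) * Q = Bᵀ * B := by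
    rw [hspec, hQ]
    calc U * diagonal D * Uᵀ * (U * diagonal (fun i => (D i)⁻¹ * D i) * Uᵀ)
        = U * diagonal D * (Uᵀ * U) * diagonal (fun i => (D i)⁻¹ * D i) * Uᵀ := by
          simp only [Matrix.mul_assoc]
      _ = _ := by
          rw [hUU, Matrix.mul_one, Matrix.mul_assoc U, Matrix.diagonal_mul_diagonal]
          congr 3
          funext i
          by_cases h : D i = 0
          · simp [h]
          · field_simp
  have hQY : Q * Y = Y := by
    rw [hY, hQ]
    calc U * diagonal (fun i => (D i)⁻¹ * D i) * Uᵀ * (U * diagonal (fun i => (D i)⁻¹) * Uᵀ)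
        = U * diagonal (fun i => (D i)⁻¹ * D i) * (Uᵀ * U) * diagonal (fun i => (D i)⁻¹) * Uᵀ := by
          simp only [Matrix.mul_assoc]
      _ = _ := by
          rw [hUU, Matrix.mul_one, Matrix.mul_assoc U, Matrix.diagonal_mul_diagonal]
          congr 3
          funext i
          by_cases h : D i = 0
          · simp [h]
          · field_simp
  have hBQ : B * Q = B := by
    have h0 : B - B * Q = 0 := by
      apply sumsq_eq_zero
      have hz : Bᵀ * (B - B * Q) = 0 := by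
        rw [Matrix.mul_sub, ← Matrix.mul_assoc, hQB, sub_self]
      rw [Matrix.transpose_sub, Matrix.transpose_mul, Matrix.sub_mul, hz, Matrix.mul_assoc, hz,
        Matrix.mul_zero, sub_zero]
    exact (sub_eq_zero.mp h0).symm
  refine ⟨Y * Bᵀ, ?_, ?_, ?_, ?_⟩
  · rw [Matrix.mul_assoc, Matrix.mul_assoc, hYB, hBQ]
  · calc Y * Bᵀ * B * (Y * Bᵀ) = (Y * (Bᵀ * B)) * Y * Bᵀ := by simp only [Matrix.mul_assoc]
      _ = Y * Bᵀ := by rw [hYB, hQY]
  · rw [Matrix.transpose_mul, Matrix.transpose_mul, Matrix.transpose_transpose, hYT,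
      Matrix.mul_assoc]
  · rw [Matrix.mul_assoc, hYB, hQT]

lemma pinv_spec {m n : ℕ} (B : Matrix (Fin m) (Fin n) ℝ) : IsMoorePenrose B (pinv B) :=
  Classical.epsilon_spec (exists_mp B)

lemma mp_unique {m n : ℕ} (B : Matrix (Fin m) (Fin n) ℝ) (X Y : Matrix (Fin n) (Fin m) ℝ)
    (hX : IsMoorePenrose B X) (hY : IsMoorePenrose B Y) : X = Y := by
  obtain ⟨x1, x2, x3, x4⟩ := hX
  obtain ⟨y1, y2, y3, y4⟩ := hY
  have e1 : B * X = B * Y := by
    calc B * X = (B * Y * B) * X := by rw [y1]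
      _ = (B * Y) * (B * X) := by simp only [Matrix.mul_assoc]
      _ = (B * Y)ᵀ * (B * X)ᵀ := by rw [y3, x3]
      _ = ((B * X) * (B * Y))ᵀ := by rw [Matrix.transpose_mul (B * X)]
      _ = ((B * X * B) * Y)ᵀ := by simp only [Matrix.mul_assoc]
      _ = B * Y := by rw [x1, y3]
  have e2 : X * B = Y * B := by
    calc X * B = X * (B * Y * B) := by rw [y1]
      _ = (X * B) * (Y * B) := by simp only [Matrix.mul_assoc]
      _ = (X * B)ᵀ * (Y * B)ᵀ := by rw [y4, x4]
      _ = ((Y * B) * (X * B))ᵀ := by rw [Matrix.transpose_mul (Y * B)]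
      _ = (Y * (B * X * B))ᵀ := by simp only [Matrix.mul_assoc]
      _ = Y * B := by rw [x1, y4]
  calc X = X * B * X := x2.symm
    _ = Y * B * X := by rw [e2]
    _ = Y * (B * X) := by rw [Matrix.mul_assoc]
    _ = Y * B * Y := by rw [e1, Matrix.mul_assoc]
    _ = Y := y2

/-- The projection onto the range of `A M`, properties. -/
lemma proj_props {n d k : ℕ} (A : Matrix (Fin n) (Fin d) ℝ) (M : Matrix (Fin d) (Fin k) ℝ) :
    let P := (A * M) * pinv (A * M)
    Pᵀ = P ∧ P * P = P ∧ P * (A * M) = A * M := by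
  obtain ⟨h1, h2, h3, h4⟩ := pinv_spec (A * M)
  refine ⟨h3, ?_, h1⟩
  calc A * M * pinv (A * M) * (A * M * pinv (A * M))
      = (A * M * pinv (A * M) * (A * M)) * pinv (A * M) := by simp only [Matrix.mul_assoc]
    _ = _ := by rw [h1]

/-- The randomized SVD error is at most that of any other choice of coefficients. -/
lemma rsvd_le {n d k : ℕ} (A : Matrix (Fin n) (Fin d) ℝ) (M : Matrix (Fin d) (Fin k) ℝ)
    (N : Matrix (Fin k) (Fin d) ℝ) :
    frob (A - rsvd A M) ^ 2 ≤ frob (A - (A * M) * N) ^ 2 := by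
  obtain ⟨hT, hI, hA⟩ := proj_props A M
  set P := (A * M) * pinv (A * M) with hP
  have hr : rsvd A M = P * A := rfl
  set X := A - P * A with hX
  set Z := P * (A - A * M * N) with hZ
  have hdec : A - A * M * N = X + Z := by
    rw [hX, hZ, Matrix.mul_sub, ← Matrix.mul_assoc, hA]
    abel
  have hPX : P * X = 0 := by
    rw [hX, Matrix.mul_sub, ← Matrix.mul_assoc, hI, sub_self]
  have hcross : ∑ i, ∑ j, X i j * Z i j = 0 := by
    rw [trace_eq]
    have : Xᵀ * Z = 0 := by
      rw [hZ, ← Matrix.mul_assoc]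
      have : Xᵀ * P = (P * X)ᵀ := by rw [Matrix.transpose_mul, hT]
      rw [this, hPX]
      simp
    rw [this]
    simp
  rw [frob_sq, frob_sq, hr, hdec]
  have : ∑ i, ∑ j, (X + Z) i j ^ 2
      = ∑ i, ∑ j, X i j ^ 2 + 2 * ∑ i, ∑ j, X i j * Z i j + ∑ i, ∑ j, Z i j ^ 2 := by
    simp only [Finset.mul_sum, ← Finset.sum_add_distrib]
    refine Finset.sum_congr rfl fun i _ => Finset.sum_congr rfl fun j _ => ?_
    rw [Matrix.add_apply]
    ring
  rw [this, hcross]
  have : 0 ≤ ∑ i, ∑ j, Z i j ^ 2 := by positivity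
  linarith

end Pool.Agent.H6.Osi
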