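import Mathlib
import Pool.Agent.H6.OsiDefs
import Pool.Agent.H6.OsiPinv

set_option autoImplicit false

namespace Pool.Agent.H6.Osi

open Matrix

/-- Diagonal entries. -/
noncomputable def dg (m : ℕ) : Fin (m + 1) → ℝ := Fin.cons (Real.sqrt m) (fun _ => 1)

/-- The hard matrix. -/
noncomputable def hard (m : ℕ) : Matrix (Fin (m + 1)) (Fin (m + 1)) ℝ := diagonal (dg m)

lemma dg_zero (m : ℕ) : dg m 0 = Real.sqrt m := rfl

lemma dg_succ (m : ℕ) (i : Fin m) : dg m i.succ = 1 := rfl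

lemma dg_sq_sum (m : ℕ) : ∑ i, dg m i ^ 2 = 2 * m := by
  rw [Fin.sum_univ_succ, dg_zero, Real.sq_sqrt (by positivity)]
  simp only [dg_succ]
  simp
  ring

lemma frob_hard (m : ℕ) : frob (hard m) ^ 2 = 2 * m := by
  rw [frob_sq, ← dg_sq_sum]
  refine Finset.sum_congr rfl fun i _ => ?_
  rw [Finset.sum_eq_single i]
  · simp [hard]
  · intro j _ hj
    rw [hard, Matrix.diagonal_apply_ne _ (Ne.symm hj)]
    simp
  · simp

lemma optErr_diag (m : ℕ) (c : ℝ) :
    optErr (diagonal (Fin.cons c (fun _ => 1)) : Matrix (Fin (m + 1)) (Fin (m + 1)) ℝ) 1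
      ≤ Real.sqrt m := by
  have h0 : frob ((diagonal (Fin.cons c (fun _ => 1)) : Matrix (Fin (m + 1)) (Fin (m + 1)) ℝ)
      - diagonal (Fin.cons c (fun _ => 0))) = Real.sqrt m := by
    unfold frob
    congr 1
    have : (diagonal (Fin.cons c (fun _ => 1)) : Matrix (Fin (m + 1)) (Fin (m + 1)) ℝ)
        - diagonal (Fin.cons c (fun _ => (0 : ℝ)))
        = diagonal (Fin.cons (0 : ℝ) (fun _ => (1 : ℝ))) := by
      rw [Matrix.diagonal_sub]
      congr 1
      funext i
      refine Fin.cases ?_ (fun i => ?_) i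
      · simp
      · simp
    rw [this]
    have h1 : ∀ i : Fin (m + 1),
        ∑ j, (diagonal (Fin.cons (0 : ℝ) (fun _ => (1 : ℝ))) : Matrix (Fin (m+1)) (Fin (m+1)) ℝ) i j ^ 2
        = (Fin.cons (0 : ℝ) (fun _ => (1 : ℝ)) : Fin (m + 1) → ℝ) i ^ 2 := by
      intro i
      rw [Finset.sum_eq_single i]
      · simp
      · intro j _ hj
        rw [Matrix.diagonal_apply_ne _ (Ne.symm hj)]
        simp
      · simp
    simp only [h1]
    rw [Fin.sum_univ_succ]
    simp
  have hrank : (diagonal (Fin.cons c (fun _ => (0 : ℝ))) :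
      Matrix (Fin (m + 1)) (Fin (m + 1)) ℝ).rank ≤ 1 := by
    classical
    rw [Matrix.rank_diagonal]
    rw [Fintype.card_le_one_iff_subsingleton]
    constructor
    rintro ⟨a, ha⟩ ⟨b, hb⟩
    have h : ∀ a : Fin (m + 1),
        (Fin.cons c (fun _ => (0 : ℝ)) : Fin (m + 1) → ℝ) a ≠ 0 → a = 0 := by
      intro a
      refine Fin.cases (fun _ => rfl) (fun i hi => ?_) a
      simp at hi
    exact Subtype.ext ((h a ha).trans (h b hb).symm)
  unfold optErr
  refine csInf_le ⟨0, ?_⟩ ⟨_, hrank, h0.symm⟩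
  rintro e ⟨B, -, rfl⟩
  exact frob_nonneg _

lemma optErr_hard (m : ℕ) : optErr (hard m) 1 ≤ Real.sqrt m := optErr_diag m _

/-- The key estimate on the first column. -/
lemma first_col {m k : ℕ} (hk : 1 ≤ k) (E : Matrix (Fin (m + 1)) (Fin k) ℝ)
    (hE : ∀ i j, E i j ^ 2 = 1)
    (hG : ∀ j l, j ≠ l → |∑ i : Fin m, E i.succ j * E i.succ l| ≤ m / (2 * k))
    (y : Fin k → ℝ) :
    1 / (2 * (k : ℝ) + 1) ≤ (1 - Real.sqrt m * ∑ j, E 0 j * y j) ^ 2
      + ∑ i : Fin m, (∑ j, E i.succ j * y j) ^ 2 := by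
  have hk0 : (0 : ℝ) < k := by exact_mod_cast hk
  set Y := ∑ j, y j ^ 2 with hY
  have hY0 : 0 ≤ Y := Finset.sum_nonneg fun j _ => sq_nonneg _
  have hm0 : (0 : ℝ) ≤ m := by positivity
  have h1 : (∑ j, |y j|) ^ 2 ≤ k * Y := by
    have := sq_sum_le_card_mul_sum_sq (s := (Finset.univ : Finset (Fin k))) (f := fun j => |y j|)
    simpa [sq_abs] using this
  have hG1 : (m : ℝ) / 2 * Y ≤ ∑ i : Fin m, (∑ j, E i.succ j * y j) ^ 2 := by
    have e1 : ∑ i : Fin m, (∑ j, E i.succ j * y j) ^ 2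
        = ∑ j, ∑ l, y j * y l * ∑ i : Fin m, E i.succ j * E i.succ l := by
      simp only [sq, Finset.sum_mul_sum]
      rw [Finset.sum_comm]
      refine Finset.sum_congr rfl fun j _ => ?_
      rw [Finset.sum_comm]
      refine Finset.sum_congr rfl fun l _ => ?_
      rw [Finset.mul_sum]
      exact Finset.sum_congr rfl fun i _ => by ring
    rw [e1]
    have e2 : ∀ j l, (if j = l then (m : ℝ) * y j ^ 2 else 0) - m / (2 * k) * (|y j| * |y l|)
        ≤ y j * y l * ∑ i : Fin m, E i.succ j * E i.succ l := by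
      intro j l
      by_cases h : j = l
      · subst h
        rw [if_pos rfl]
        have : ∑ i : Fin m, E i.succ j * E i.succ j = m := by
          have : ∀ i : Fin m, E i.succ j * E i.succ j = 1 := fun i => by rw [← sq]; exact hE _ _
          simp [this]
        rw [this]
        have h2 : 0 ≤ (m : ℝ) / (2 * k) * (|y j| * |y j|) := by positivity
        nlinarith
      · rw [if_neg h]
        have h2 := hG j l h
        have h3 : |y j * y l * ∑ i : Fin m, E i.succ j * E i.succ l|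
            ≤ m / (2 * k) * (|y j| * |y l|) := by
          rw [abs_mul, abs_mul]
          nlinarith [mul_le_mul_of_nonneg_left h2 (by positivity : 0 ≤ |y j| * |y l|)]
        have := neg_abs_le (y j * y l * ∑ i : Fin m, E i.succ j * E i.succ l)
        linarith
    calc (m : ℝ) / 2 * Y ≤ m * Y - m / (2 * k) * (∑ j, |y j|) ^ 2 := by
          have h3 : (m : ℝ) / (2 * k) * (∑ j, |y j|) ^ 2 ≤ m / (2 * k) * (k * Y) :=
            mul_le_mul_of_nonneg_left h1 (by positivity)
          have h4 : (m : ℝ) / (2 * k) * (k * Y) = m / 2 * Y := by field_simp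
          linarith
      _ = ∑ j, ∑ l, ((if j = l then (m : ℝ) * y j ^ 2 else 0)
            - m / (2 * k) * (|y j| * |y l|)) := by
          simp only [Finset.sum_sub_distrib, Finset.sum_ite_eq, Finset.mem_univ, if_true,
            ← Finset.mul_sum]
          rw [sq, Finset.sum_mul]
      _ ≤ _ := Finset.sum_le_sum fun j _ => Finset.sum_le_sum fun l _ => e2 j l
  set τ := Real.sqrt m * ∑ j, E 0 j * y j with hτ
  have h2 : τ ^ 2 ≤ m * (k * Y) := by
    rw [hτ, mul_pow, Real.sq_sqrt hm0]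
    refine mul_le_mul_of_nonneg_left ?_ hm0
    have := Finset.sum_mul_sq_le_sq_mul_sq Finset.univ (fun j => E 0 j) y
    simpa [hE] using this
  have h3 : τ ^ 2 / (2 * k) ≤ (m : ℝ) / 2 * Y := by
    rw [div_le_iff₀ (by positivity)]
    nlinarith
  have h4 : 1 / (2 * (k : ℝ) + 1) ≤ (1 - τ) ^ 2 + τ ^ 2 / (2 * k) := by
    have : (1 - τ) ^ 2 + τ ^ 2 / (2 * k) - 1 / (2 * (k : ℝ) + 1)
        = ((2 * k + 1) * τ - 2 * k) ^ 2 / (2 * k * (2 * k + 1)) := by
      field_simp
      ring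
    have h5 : 0 ≤ ((2 * k + 1) * τ - 2 * k) ^ 2 / (2 * k * (2 * (k : ℝ) + 1)) := by positivity
    linarith
  linarith

lemma symm_idem_diag {n : ℕ} (R : Matrix (Fin n) (Fin n) ℝ) (hT : Rᵀ = R) (hI : R * R = R)
    (j : Fin n) : ∑ i, R i j ^ 2 = R j j := by
  have h := congrFun (congrFun hI j) j
  rw [Matrix.mul_apply] at h
  rw [← h]
  refine Finset.sum_congr rfl fun i _ => ?_
  have : R j i = R i j := congrFun (congrFun hT i) j
  rw [this, sq]

lemma R_props {n k : ℕ} (Y : Matrix (Fin n) (Fin k) ℝ) :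
    (1 - Y * pinv Y)ᵀ = 1 - Y * pinv Y ∧ (1 - Y * pinv Y) * (1 - Y * pinv Y) = 1 - Y * pinv Y := by
  obtain ⟨q1, q2, q3, q4⟩ := pinv_spec Y
  have hI : Y * pinv Y * (Y * pinv Y) = Y * pinv Y := by
    calc Y * pinv Y * (Y * pinv Y) = (Y * pinv Y * Y) * pinv Y := by simp only [Matrix.mul_assoc]
      _ = _ := by rw [q1]
  constructor
  · rw [Matrix.transpose_sub, Matrix.transpose_one, q3]
  · rw [Matrix.mul_sub, Matrix.sub_mul, Matrix.sub_mul, hI]
    simp

/-- The first diagonal entry of the residual projection. -/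
lemma R00 {m k : ℕ} (hk : 1 ≤ k) (β : ℝ) (E : Matrix (Fin (m + 1)) (Fin k) ℝ)
    (hE : ∀ i j, E i j ^ 2 = 1)
    (hG : ∀ j l, j ≠ l → |∑ i : Fin m, E i.succ j * E i.succ l| ≤ m / (2 * k)) :
    1 / (2 * (k : ℝ) + 1) ≤
      (1 - (hard m * (β • E)) * pinv (hard m * (β • E)) : Matrix _ _ ℝ) 0 0 := by
  obtain ⟨hRT, hRI⟩ := R_props (hard m * (β • E))
  set X := pinv (hard m * (β • E)) with hX
  set P := hard m * (β • E) * X with hP
  set R := 1 - P with hR
  rw [← symm_idem_diag R hRT hRI 0]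
  set y : Fin k → ℝ := fun j => β * X j 0 with hy
  have h1 := first_col hk E hE hG y
  refine h1.trans (le_of_eq ?_)
  have hPe : ∀ i, P i 0 = dg m i * ∑ j, E i j * y j := by
    intro i
    rw [hP, Matrix.mul_apply, Finset.mul_sum]
    refine Finset.sum_congr rfl fun j _ => ?_
    rw [hard, Matrix.diagonal_mul, Matrix.smul_apply, hy, smul_eq_mul]
    ring
  rw [Fin.sum_univ_succ]
  congr 1
  · rw [hR, Matrix.sub_apply, hPe, dg_zero, Matrix.one_apply_eq]
  · refine Finset.sum_congr rfl fun i _ => ?_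
    rw [hR, Matrix.sub_apply, hPe, dg_succ, Matrix.one_apply_ne (Fin.succ_ne_zero i)]
    ring

/-- The error of a diagonal matrix. -/
lemma err_diag {n k : ℕ} (a : Fin n → ℝ) (M : Matrix (Fin n) (Fin k) ℝ) :
    frob (diagonal a - rsvd (diagonal a) M) ^ 2
      = ∑ j, a j ^ 2 * (1 - (diagonal a * M) * pinv (diagonal a * M) : Matrix _ _ ℝ) j j := by
  obtain ⟨hRT, hRI⟩ := R_props (diagonal a * M)
  set R : Matrix (Fin n) (Fin n) ℝ := 1 - (diagonal a * M) * pinv (diagonal a * M) with hR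
  have hr : diagonal a - rsvd (diagonal a) M = R * diagonal a := by
    rw [hR, Matrix.sub_mul, Matrix.one_mul]
    rfl
  rw [hr, frob_sq, Finset.sum_comm]
  refine Finset.sum_congr rfl fun j _ => ?_
  rw [← symm_idem_diag R hRT hRI j, Finset.mul_sum]
  refine Finset.sum_congr rfl fun i _ => ?_
  rw [Matrix.mul_diagonal]
  ring

lemma rsvd_hard {m k : ℕ} (hm : 1 ≤ m) (hk : 1 ≤ k) (β : ℝ) (E : Matrix (Fin (m + 1)) (Fin k) ℝ)
    (hE : ∀ i j, E i j ^ 2 = 1)
    (hG : ∀ j l, j ≠ l → |∑ i : Fin m, E i.succ j * E i.succ l| ≤ m / (2 * k)) :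
    ((m : ℝ) - 1) / (2 * k + 1) + m + 1 - k ≤ frob (hard m - rsvd (hard m) (β • E)) ^ 2 := by
  have hR0 := R00 hk β E hE hG
  have hfrob : frob (hard m - rsvd (hard m) (β • E)) ^ 2 = ∑ j, dg m j ^ 2 *
      (1 - (hard m * (β • E)) * pinv (hard m * (β • E)) : Matrix _ _ ℝ) j j := err_diag _ _
  obtain ⟨q1, q2, q3, q4⟩ := pinv_spec (hard m * (β • E))
  set X := pinv (hard m * (β • E)) with hX
  set P := hard m * (β • E) * X with hP
  set R := 1 - P with hR
  have htr : P.trace ≤ k := by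
    rw [hP, Matrix.trace_mul_comm]
    set Q := X * (hard m * (β • E)) with hQ
    have hQT : Qᵀ = Q := q4
    have hQI : Q * Q = Q := by
      calc Q * Q = (X * (hard m * (β • E)) * X) * (hard m * (β • E)) := by
            rw [hQ]; simp only [Matrix.mul_assoc]
        _ = Q := by rw [q2]
    have : ∀ j, Q j j ≤ 1 := by
      intro j
      have h1 := symm_idem_diag Q hQT hQI j
      have h2 : Q j j ^ 2 ≤ ∑ i, Q i j ^ 2 :=
        Finset.single_le_sum (f := fun i => Q i j ^ 2) (fun i _ => sq_nonneg _) (Finset.mem_univ j)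
      nlinarith
    calc Q.trace = ∑ j, Q j j := rfl
      _ ≤ ∑ _j : Fin k, (1 : ℝ) := Finset.sum_le_sum fun j _ => this j
      _ = k := by simp
  have hRtr : (m : ℝ) + 1 - k ≤ ∑ j, R j j := by
    have : ∑ j, R j j = (m : ℝ) + 1 - P.trace := by
      show R.trace = _
      rw [hR, Matrix.trace_sub, Matrix.trace_one, Fintype.card_fin]
      push_cast
      ring
    rw [this]
    linarith
  rw [hfrob, Fin.sum_univ_succ, dg_zero, Real.sq_sqrt (by positivity)]
  simp only [dg_succ]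
  rw [Fin.sum_univ_succ] at hRtr
  have hm1 : (1 : ℝ) ≤ m := by exact_mod_cast hm
  have h5 : ((m : ℝ) - 1) / (2 * k + 1) ≤ (m - 1) * R 0 0 := by
    rw [div_eq_mul_one_div]
    exact mul_le_mul_of_nonneg_left hR0 (by linarith)
  simp only [one_pow, one_mul]
  linarith

lemma rsvd_zero {m k : ℕ} : frob (hard m - rsvd (hard m) (0 : Matrix (Fin (m + 1)) (Fin k) ℝ)) ^ 2
    = 2 * m := by
  have : rsvd (hard m) (0 : Matrix (Fin (m + 1)) (Fin k) ℝ) = 0 := by
    unfold rsvd
    simp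
  rw [this, sub_zero, frob_hard]

end Pool.Agent.H6.Osi
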