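import Mathlib
import Pool.Agent.H6.OsiDefs
import Pool.Agent.H6.OsiPinv
import Pool.Agent.H6.OsiChaos
import Pool.Agent.H6.OsiQ1a

set_option autoImplicit false

namespace Pool.Agent.H6.Osi

open MeasureTheory

section finite

variable {S : Type} [Fintype S] [Nonempty S]

/-- The uniform measure on a finite set, with the discrete sigma-algebra. -/
noncomputable def unif (S : Type) [Fintype S] [Nonempty S] : @Measure S ⊤ :=
  @PMF.toMeasure S ⊤ (PMF.uniformOfFintype S)

lemma unif_prob : @IsProbabilityMeasure S ⊤ (unif S) := by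
  unfold unif
  letI : MeasurableSpace S := ⊤
  infer_instance

lemma unif_integral (f : S → ℝ) :
    @integral S ℝ _ _ ⊤ (unif S) f = (∑ s, f s) / Fintype.card S := by
  letI : MeasurableSpace S := ⊤
  unfold unif
  rw [PMF.integral_eq_sum]
  simp only [PMF.uniformOfFintype_apply, ENNReal.toReal_inv, ENNReal.toReal_natCast, smul_eq_mul]
  rw [← Finset.mul_sum, div_eq_inv_mul]

lemma unif_integrable (f : S → ℝ) :
    letI : MeasurableSpace S := ⊤
    Integrable f (unif S) := by
  let _ : MeasurableSpace S := ⊤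
  haveI : IsProbabilityMeasure (unif S) := unif_prob
  exact Integrable.of_finite

/-- Markov. -/
lemma unif_markov (A : Set S) (f : S → ℝ) (hf : ∀ s, 0 ≤ f s) (hA : ∀ s ∈ A, 1 ≤ f s) :
    @Measure.real S ⊤ (unif S) A ≤ (∑ s, f s) / Fintype.card S := by
  let _ : MeasurableSpace S := ⊤
  have : IsProbabilityMeasure (unif S) := unif_prob
  rw [← unif_integral]
  have h1 := mul_meas_ge_le_integral_of_nonneg (μ := unif S) (f := f)
    (Filter.Eventually.of_forall hf) (unif_integrable f) 1
  rw [one_mul] at h1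
  exact (measureReal_mono (fun s hs => hA s hs)).trans h1

end finite

/-- Sample space. -/
def Smp (m k : ℕ) : Type := Fin 200 × (Fin (m + 1) × Fin k → Bool)

instance (m k : ℕ) : Fintype (Smp m k) :=
  inferInstanceAs (Fintype (Fin 200 × (Fin (m + 1) × Fin k → Bool)))

instance (m k : ℕ) : Nonempty (Smp m k) :=
  inferInstanceAs (Nonempty (Fin 200 × (Fin (m + 1) × Fin k → Bool)))

lemma card_Smp (m k : ℕ) :
    (Fintype.card (Smp m k) : ℝ) = 200 * 2 ^ Fintype.card (Fin (m + 1) × Fin k) := by
  have : Fintype.card (Smp m k) = 200 * 2 ^ Fintype.card (Fin (m + 1) × Fin k) := by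
    show Fintype.card (Fin 200 × (Fin (m + 1) × Fin k → Bool)) = _
    rw [Fintype.card_prod, Fintype.card_fin, Fintype.card_fun, Fintype.card_bool]
  rw [this]
  push_cast
  rfl

lemma sum_Smp (m k : ℕ) (f : Smp m k → ℝ) :
    ∑ s, f s = ∑ u : Fin 200, ∑ e : Fin (m + 1) × Fin k → Bool, f (u, e) :=
  Fintype.sum_prod_type (f := f)

/-- The sign matrix. -/
def EM {m k : ℕ} (e : Fin (m + 1) × Fin k → Bool) : Matrix (Fin (m + 1)) (Fin k) ℝ :=
  fun i j => sg (e (i, j))

/-- The scale. -/
noncomputable def bt (k : ℕ) : ℝ := Real.sqrt (200 / (199 * k))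

/-- The random matrix. -/
noncomputable def OmM {m k : ℕ} (s : Smp m k) : Matrix (Fin (m + 1)) (Fin k) ℝ :=
  if s.1 = 0 then 0 else bt k • EM s.2

lemma OmM_zero {m k : ℕ} (u : Fin 200) (e : Fin (m + 1) × Fin k → Bool) (hu : u = 0) :
    OmM ((u, e) : Smp m k) = 0 := if_pos hu

lemma OmM_ne {m k : ℕ} (u : Fin 200) (e : Fin (m + 1) × Fin k → Bool) (hu : u ≠ 0) :
    OmM ((u, e) : Smp m k) = bt k • EM e := if_neg hu

lemma sk_zero {d k : ℕ} (x : EuclideanSpace ℝ (Fin d)) :
    sk (0 : Matrix (Fin d) (Fin k) ℝ) x = 0 := by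
  unfold sk
  simp

lemma sk_EM {m k : ℕ} (e : Fin (m + 1) × Fin k → Bool) (x : EuclideanSpace ℝ (Fin (m + 1))) :
    sk (bt k • EM e) x = 200 / (199 * k) * ∑ j, (∑ i, sg (e (i, j)) * x i) ^ 2 := by
  unfold sk
  rw [Finset.mul_sum]
  refine Finset.sum_congr rfl fun j _ => ?_
  have : ∑ i, (bt k • EM e) i j * x i = bt k * ∑ i, sg (e (i, j)) * x i := by
    rw [Finset.mul_sum]
    refine Finset.sum_congr rfl fun i _ => ?_
    rw [Matrix.smul_apply, smul_eq_mul, EM]
    ring
  rw [this, mul_pow, bt, Real.sq_sqrt (by positivity)]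

lemma sk_smul {d k : ℕ} (M : Matrix (Fin d) (Fin k) ℝ) (x : EuclideanSpace ℝ (Fin d)) (c : ℝ) :
    sk M (c • x) = c ^ 2 * sk M x := by
  unfold sk
  rw [Finset.mul_sum]
  refine Finset.sum_congr rfl fun j _ => ?_
  rw [← mul_pow]
  congr 1
  rw [Finset.mul_sum]
  refine Finset.sum_congr rfl fun i _ => ?_
  rw [PiLp.smul_apply, smul_eq_mul]
  ring

lemma card_ne_zero_fin : (Finset.univ.filter fun u : Fin 200 => u ≠ 0).card = 199 := by
  rw [Finset.filter_ne']
  simp

lemma isOSI_OmM (m k : ℕ) (hk : 16000000 ≤ k) :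
    @IsOSI (Smp m k) ⊤ (m + 1) k (unif (Smp m k)) OmM 1 1 0.01 := by
  let _ : MeasurableSpace (Smp m k) := ⊤
  have : IsProbabilityMeasure (unif (Smp m k)) := unif_prob
  have hk0 : (0 : ℝ) < k := by
    have : (16000000 : ℝ) ≤ k := by exact_mod_cast hk
    linarith
  have hk1 : (16000000 : ℝ) ≤ k := by exact_mod_cast hk
  set NN : ℝ := 2 ^ Fintype.card (Fin (m + 1) × Fin k) with hNN
  have hNN0 : 0 < NN := by positivity
  refine ⟨fun i j => measurable_from_top, fun x => unif_integrable _, ?_, ?_⟩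
  · intro x
    rw [unif_integral, card_Smp, sum_Smp, EuclideanSpace.real_norm_sq_eq]
    have h1 : ∀ u : Fin 200, ∑ e : Fin (m + 1) × Fin k → Bool,
        sk (OmM ((u, e) : Smp m k)) x
        = if u ≠ 0 then 200 / 199 * NN * ∑ i, x i ^ 2 else 0 := by
      intro u
      by_cases hu : u = 0
      · rw [if_neg (by simpa using hu)]
        refine Finset.sum_eq_zero fun e _ => ?_
        rw [OmM_zero _ _ hu, sk_zero]
      · rw [if_pos hu]
        have : ∀ e : Fin (m + 1) × Fin k → Bool, sk (OmM ((u, e) : Smp m k)) x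
            = 200 / (199 * k) * ∑ j, (∑ i, sg (e (i, j)) * x i) ^ 2 := by
          intro e
          rw [OmM_ne _ _ hu]
          exact sk_EM e x
        simp only [this]
        rw [← Finset.mul_sum, quad_mean, hNN]
        field_simp
    simp only [h1]
    rw [← Finset.sum_filter, Finset.sum_const, card_ne_zero_fin, nsmul_eq_mul]
    field_simp
    push_cast
    ring
  · intro V hV
    obtain ⟨⟨v, hvV⟩, hv0, hv⟩ := finrank_eq_one_iff'.mp hV
    have hv0' : v ≠ 0 := fun h => hv0 (Subtype.ext h)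
    have hn : 0 < ‖v‖ ^ 2 := by
      have := norm_pos_iff.mpr hv0'
      positivity
    set G : Set (Smp m k) := {s | ∀ x ∈ V, 1 * ‖x‖ ^ 2 ≤ sk (OmM s) x} with hG
    have hsub : ∀ s, ‖v‖ ^ 2 ≤ sk (OmM s) v → s ∈ G := by
      intro s hs x hx
      obtain ⟨c, hc⟩ := hv ⟨x, hx⟩
      have hc' : c • v = x := congrArg Subtype.val hc
      rw [← hc', sk_smul, norm_smul, mul_pow, Real.norm_eq_abs, sq_abs, one_mul]
      exact mul_le_mul_of_nonneg_left hs (sq_nonneg c)
    set nv : ℝ := ‖v‖ ^ 2 with hnv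
    have hnv' : nv = ∑ i, v i ^ 2 := EuclideanSpace.real_norm_sq_eq v
    set Z : (Fin (m + 1) × Fin k → Bool) → ℝ :=
      fun e => ∑ j, (∑ i, sg (e (i, j)) * v i) ^ 2 - k * (∑ i, v i ^ 2) with hZ
    have hfail : (unif (Smp m k)).real Gᶜ ≤ 0.01 := by
      refine (unif_markov Gᶜ (fun s => (if s.1 = 0 then 1 else 0)
        + (200 / (k * nv)) ^ 2 * Z s.2 ^ 2) ?_ ?_).trans ?_
      · intro s
        have : (0 : ℝ) ≤ (if s.1 = 0 then 1 else 0) := by split_ifs <;> norm_num
        positivity
      · rintro ⟨u, e⟩ hs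
        have hs' : sk (OmM ((u, e) : Smp m k)) v < nv := by
          by_contra hcon
          exact hs (hsub _ (not_lt.mp hcon))
        by_cases hu : u = 0
        · simp only [hu, if_true]
          have : 0 ≤ (200 / (k * nv)) ^ 2 * Z e ^ 2 := by positivity
          linarith
        · simp only [hu, if_false, zero_add]
          rw [OmM_ne _ _ hu] at hs'
          rw [sk_EM] at hs'
          have h2 : ∑ j, (∑ i, sg (e (i, j)) * v i) ^ 2 = Z e + k * nv := by
            rw [hZ, hnv']
            ring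
          rw [h2] at hs'
          have h3 : 200 / (199 * (k : ℝ)) * (Z e + k * nv) = 200 * (Z e + k * nv) / (199 * k) := by
            ring
          rw [h3, div_lt_iff₀ (by positivity)] at hs'
          have h4 : Z e < -(k * nv / 200) := by linarith
          have h5 : (k * nv / 200) ^ 2 ≤ Z e ^ 2 := by
            have : 0 ≤ k * nv / 200 := by positivity
            nlinarith
          calc (1 : ℝ) = (200 / (k * nv)) ^ 2 * (k * nv / 200) ^ 2 := by
                field_simp
            _ ≤ (200 / (k * nv)) ^ 2 * Z e ^ 2 := mul_le_mul_of_nonneg_left h5 (by positivity)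
      · rw [sum_Smp, card_Smp, div_le_iff₀ (by positivity)]
        simp only [Finset.sum_add_distrib]
        have e1 : ∑ x : Fin 200, ∑ _e : Fin (m + 1) × Fin k → Bool, (if x = 0 then (1 : ℝ) else 0)
            = NN := by
          rw [Finset.sum_comm]
          simp only [Finset.sum_ite_eq', Finset.mem_univ, if_true, Finset.sum_const,
            Finset.card_univ, Fintype.card_fun, Fintype.card_bool, nsmul_eq_mul, mul_one, hNN]
          push_cast
          rfl
        have e2 : ∑ _x : Fin 200, ∑ e : Fin (m + 1) × Fin k → Bool,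
            (200 / (k * nv)) ^ 2 * Z e ^ 2 ≤ 200 * ((200 / (k * nv)) ^ 2 *
              (NN * (2 * (k * nv ^ 2)))) := by
          rw [Finset.sum_const, Finset.card_univ, Fintype.card_fin, nsmul_eq_mul,
            ← Finset.mul_sum]
          push_cast
          refine mul_le_mul_of_nonneg_left ?_ (by norm_num)
          refine mul_le_mul_of_nonneg_left ?_ (by positivity)
          rw [hnv']
          exact quad_var v
        have e3 : 200 * ((200 / (k * nv)) ^ 2 * (NN * (2 * (k * nv ^ 2))))
            = NN * (16000000 / k) := by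
          field_simp
          ring
        have e4 : (16000000 : ℝ) / k ≤ 1 := by rw [div_le_one hk0]; exact hk1
        have e5 : NN * (16000000 / k) ≤ NN * 1 := mul_le_mul_of_nonneg_left e4 hNN0.le
        calc _ ≤ NN + NN * 1 := by
              refine add_le_add (le_of_eq e1) ?_
              exact (e2.trans (le_of_eq e3)).trans e5
          _ = 0.01 * (200 * NN) := by ring
    rw [probReal_compl_eq_one_sub MeasurableSpace.measurableSet_top] at hfail
    linarith

lemma IsOSI.mono {S : Type} [MeasurableSpace S] {d k : ℕ} {P : Measure S} [IsFiniteMeasure P]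
    {Om : S → Matrix (Fin d) (Fin k) ℝ} {r : ℕ} {a a' δ : ℝ} (h : IsOSI P Om r a δ)
    (ha : a' ≤ a) : IsOSI P Om r a' δ := by
  refine ⟨h.meas, h.integrable, h.isotropic, fun V hV => (h.injective V hV).trans ?_⟩
  refine measureReal_mono (fun s hs x hx => le_trans ?_ (hs x hx)) (measure_ne_top _ _)
  exact mul_le_mul_of_nonneg_right ha (sq_nonneg _)

/-- The event that the error is close to optimal is small. -/
lemma hard_prob (m k : ℕ) (hk : 1 ≤ k) (hm : 2 + 2 * k * (2 * k + 1) ≤ m) (η : ℝ) (hη0 : 0 < η)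
    (hη : η ≤ 1 / (7 * (2 * k + 1))) :
    @Measure.real (Smp m k) ⊤ (unif (Smp m k))
      {s | frob (hard m - rsvd (hard m) (OmM s)) ≤ (1 + η) * optErr (hard m) 1}
      ≤ 8 * (k : ℝ) ^ 4 / m := by
  let _ : MeasurableSpace (Smp m k) := ⊤
  have : IsProbabilityMeasure (unif (Smp m k)) := unif_prob
  have hk0 : (0 : ℝ) < k := by exact_mod_cast hk
  have hk1 : (1 : ℝ) ≤ k := by exact_mod_cast hk
  have hm' : 2 + 2 * (k : ℝ) * (2 * k + 1) ≤ m := by exact_mod_cast hm
  have hm1 : 1 ≤ m := by omega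
  have hm0 : (0 : ℝ) < m := by
    have : 0 ≤ 2 * (k : ℝ) * (2 * k + 1) := by positivity
    linarith
  have hη1 : η ≤ 1 / 7 := by
    refine hη.trans ?_
    apply one_div_le_one_div_of_le (by norm_num)
    nlinarith
  have hsq : (1 + η) ^ 2 ≤ 1 + 3 * η := by nlinarith
  have hopt : optErr (hard m) 1 ≤ Real.sqrt m := optErr_hard m
  have hopt0 : 0 ≤ optErr (hard m) 1 := by
    refine Real.sInf_nonneg ?_
    rintro e ⟨B, -, rfl⟩
    exact frob_nonneg _
  have hev : ∀ M : Matrix (Fin (m + 1)) (Fin k) ℝ,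
      frob (hard m - rsvd (hard m) M) ≤ (1 + η) * optErr (hard m) 1 →
      frob (hard m - rsvd (hard m) M) ^ 2 ≤ (1 + 3 * η) * m := by
    intro M hM
    have h1 : frob (hard m - rsvd (hard m) M) ≤ (1 + η) * Real.sqrt m :=
      hM.trans (mul_le_mul_of_nonneg_left hopt (by linarith))
    calc frob (hard m - rsvd (hard m) M) ^ 2 ≤ ((1 + η) * Real.sqrt m) ^ 2 :=
          pow_le_pow_left₀ (frob_nonneg _) h1 2
      _ = (1 + η) ^ 2 * m := by rw [mul_pow, Real.sq_sqrt hm0.le]
      _ ≤ (1 + 3 * η) * m := mul_le_mul_of_nonneg_right hsq hm0.le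
  set g : Fin k → Fin k → (Fin (m + 1) × Fin k → Bool) → ℝ :=
    fun j l e => ∑ i : Fin m, sg (e (i.succ, j)) * sg (e (i.succ, l)) with hg
  refine (unif_markov _ (fun s => ∑ j, ∑ l, if j ≠ l then (2 * k / m) ^ 2 * g j l s.2 ^ 2 else 0)
    ?_ ?_).trans ?_
  · intro s
    refine Finset.sum_nonneg fun j _ => Finset.sum_nonneg fun l _ => ?_
    split_ifs
    · positivity
    · exact le_rfl
  · rintro ⟨u, e⟩ hs
    have hs1 := hev _ hs
    by_cases hu : u = 0
    · exfalso
      rw [OmM_zero _ _ hu, rsvd_zero] at hs1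
      nlinarith
    · rw [OmM_ne _ _ hu] at hs1
      by_contra hcon
      have hgood : ∀ j l, j ≠ l →
          |∑ i : Fin m, EM e i.succ j * EM e i.succ l| ≤ (m : ℝ) / (2 * k) := by
        intro j l hjl
        by_contra hbad
        push Not at hbad
        apply hcon
        have h2 : 1 ≤ (2 * k / (m : ℝ)) ^ 2 * g j l e ^ 2 := by
          have h3 : ((m : ℝ) / (2 * k)) ^ 2 ≤ g j l e ^ 2 := by
            rw [← sq_abs (g j l e)]
            exact pow_le_pow_left₀ (by positivity) hbad.le 2
          calc (1 : ℝ) = (2 * k / (m : ℝ)) ^ 2 * ((m : ℝ) / (2 * k)) ^ 2 := by field_simp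
            _ ≤ _ := mul_le_mul_of_nonneg_left h3 (by positivity)
        have h4 : ∀ j l, 0 ≤ (if j ≠ l then (2 * k / (m : ℝ)) ^ 2 * g j l e ^ 2 else 0) := by
          intro j l
          split_ifs
          · positivity
          · exact le_rfl
        calc (1 : ℝ) ≤ (if j ≠ l then (2 * k / (m : ℝ)) ^ 2 * g j l e ^ 2 else 0) := by
              rw [if_pos hjl]; exact h2
          _ ≤ ∑ l, (if j ≠ l then (2 * k / (m : ℝ)) ^ 2 * g j l e ^ 2 else 0) :=
              Finset.single_le_sum (f := fun l => if j ≠ l then (2 * k / (m : ℝ)) ^ 2 * g j l e ^ 2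
                else 0) (fun l _ => h4 j l) (Finset.mem_univ l)
          _ ≤ _ := Finset.single_le_sum
              (f := fun j => ∑ l, if j ≠ l then (2 * k / (m : ℝ)) ^ 2 * g j l e ^ 2 else 0)
              (fun j _ => Finset.sum_nonneg fun l _ => h4 j l) (Finset.mem_univ j)
      have h5 := rsvd_hard hm1 hk (bt k) (EM e) (fun i j => sg_sq _) hgood
      have h6 : (m : ℝ) * (1 / (2 * (2 * k + 1))) ≤ ((m : ℝ) - 1) / (2 * k + 1) - k := by
        have : ((m : ℝ) - 1) / (2 * k + 1) - k - m * (1 / (2 * (2 * k + 1)))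
            = (m - 2 - 2 * k * (2 * k + 1)) / (2 * (2 * k + 1)) := by
          field_simp
          ring
        have h7 : 0 ≤ ((m : ℝ) - 2 - 2 * k * (2 * k + 1)) / (2 * (2 * k + 1)) :=
          div_nonneg (by linarith) (by positivity)
        linarith
      have h8 : 3 * η < 1 / (2 * (2 * (k : ℝ) + 1)) := by
        have : 3 * (1 / (7 * (2 * (k : ℝ) + 1))) < 1 / (2 * (2 * (k : ℝ) + 1)) := by
          rw [mul_one_div, div_lt_div_iff₀ (by positivity) (by positivity)]
          nlinarith
        linarith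
      nlinarith
  · rw [sum_Smp, card_Smp, div_le_div_iff₀ (by positivity) hm0]
    simp only [Finset.sum_const, Finset.card_univ, Fintype.card_fin, nsmul_eq_mul]
    have h1 : ∑ e : Fin (m + 1) × Fin k → Bool, ∑ j, ∑ l,
        (if j ≠ l then (2 * k / (m : ℝ)) ^ 2 * g j l e ^ 2 else 0)
        ≤ k * (k * ((2 * k / (m : ℝ)) ^ 2 *
          ((2 : ℝ) ^ (Fintype.card (Fin (m + 1) × Fin k)) * (2 * m)))) := by
      rw [Finset.sum_comm]
      calc _ ≤ ∑ _j : Fin k, (k * ((2 * k / (m : ℝ)) ^ 2 *
          ((2 : ℝ) ^ (Fintype.card (Fin (m + 1) × Fin k)) * (2 * m)))) := by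
            refine Finset.sum_le_sum fun j _ => ?_
            rw [Finset.sum_comm]
            calc _ ≤ ∑ _l : Fin k, ((2 * k / (m : ℝ)) ^ 2 *
                ((2 : ℝ) ^ (Fintype.card (Fin (m + 1) × Fin k)) * (2 * m))) := by
                  refine Finset.sum_le_sum fun l _ => ?_
                  by_cases hjl : j = l
                  · simp only [hjl, ne_eq, not_true_eq_false, if_false, Finset.sum_const_zero]
                    positivity
                  · simp only [ne_eq, hjl, not_false_eq_true, if_true]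
                    rw [← Finset.mul_sum]
                    exact mul_le_mul_of_nonneg_left (gram_var j l hjl) (by positivity)
              _ = _ := by
                  rw [Finset.sum_const, Finset.card_univ, Fintype.card_fin, nsmul_eq_mul]
        _ = _ := by
            rw [Finset.sum_const, Finset.card_univ, Fintype.card_fin, nsmul_eq_mul]
    have h2 : (k : ℝ) * (k * ((2 * k / (m : ℝ)) ^ 2 *
          ((2 : ℝ) ^ (Fintype.card (Fin (m + 1) × Fin k)) * (2 * m)))) * m
        = 8 * k ^ 4 * 2 ^ (Fintype.card (Fin (m + 1) × Fin k)) := by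
      field_simp
      ring
    push_cast
    nlinarith [mul_le_mul_of_nonneg_right h1 hm0.le]

end Pool.Agent.H6.Osi
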