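import Mathlib
import Pool.Agent.H6.OsiDefs
import Pool.Agent.H6.OsiPinv
import Pool.Agent.H6.OsiChaos
import Pool.Agent.H6.OsiQ1a
import Pool.Agent.H6.OsiQ1b

set_option autoImplicit false

namespace Pool.Agent.H6.Osi

open MeasureTheory Matrix

/-- Sample space. -/
def SmpN (M m k : ℕ) : Type := Fin (M + 1) × (Fin (m + 1) × Fin k → Bool)

instance (M m k : ℕ) : Fintype (SmpN M m k) :=
  inferInstanceAs (Fintype (Fin (M + 1) × (Fin (m + 1) × Fin k → Bool)))

instance (M m k : ℕ) : Nonempty (SmpN M m k) :=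
  inferInstanceAs (Nonempty (Fin (M + 1) × (Fin (m + 1) × Fin k → Bool)))

lemma card_SmpN (M m k : ℕ) :
    (Fintype.card (SmpN M m k) : ℝ) = (M + 1) * 2 ^ Fintype.card (Fin (m + 1) × Fin k) := by
  have : Fintype.card (SmpN M m k) = (M + 1) * 2 ^ Fintype.card (Fin (m + 1) × Fin k) := by
    show Fintype.card (Fin (M + 1) × (Fin (m + 1) × Fin k → Bool)) = _
    rw [Fintype.card_prod, Fintype.card_fin, Fintype.card_fun, Fintype.card_bool]
  rw [this]
  push_cast
  rfl

lemma sum_SmpN (M m k : ℕ) (f : SmpN M m k → ℝ) :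
    ∑ s, f s = ∑ u : Fin (M + 1), ∑ e : Fin (m + 1) × Fin k → Bool, f (u, e) :=
  Fintype.sum_prod_type (f := f)

/-- The random scale of the first coordinate. -/
noncomputable def sc (M : ℕ) (s0 : ℝ) (u : Fin (M + 1)) : ℝ :=
  if u = 0 then Real.sqrt ((M + 1) - M * s0 ^ 2) else s0

lemma sc_sq (M : ℕ) (s0 : ℝ) (hs0 : 0 < s0) (hs1 : s0 ≤ 1) (u : Fin (M + 1)) :
    sc M s0 u ^ 2 = if u = 0 then (M + 1) - M * s0 ^ 2 else s0 ^ 2 := by
  unfold sc
  split_ifs
  · have h1 : s0 ^ 2 ≤ 1 := by nlinarith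
    have h2 : (M : ℝ) * s0 ^ 2 ≤ M * 1 := mul_le_mul_of_nonneg_left h1 (by positivity)
    exact Real.sq_sqrt (by linarith)
  · rfl

lemma sc_sq_ge (M : ℕ) (s0 : ℝ) (hs0 : 0 < s0) (hs1 : s0 ≤ 1) (u : Fin (M + 1)) :
    s0 ^ 2 ≤ sc M s0 u ^ 2 := by
  rw [sc_sq M s0 hs0 hs1]
  have h1 : s0 ^ 2 ≤ 1 := by nlinarith
  have h2 : (M : ℝ) * s0 ^ 2 ≤ M * 1 := mul_le_mul_of_nonneg_left h1 (by positivity)
  split_ifs
  · linarith
  · exact le_rfl

lemma sum_sc (M : ℕ) (s0 : ℝ) (hs0 : 0 < s0) (hs1 : s0 ≤ 1) :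
    ∑ u, sc M s0 u ^ 2 = M + 1 := by
  rw [Fin.sum_univ_succ]
  simp only [sc_sq M s0 hs0 hs1, if_true, Fin.succ_ne_zero, if_false]
  simp

/-- Diagonal matrix with first entry `c`. -/
noncomputable def dc (m : ℕ) (c : ℝ) : Matrix (Fin (m + 1)) (Fin (m + 1)) ℝ :=
  diagonal (Fin.cons c (fun _ => 1))

/-- The random matrix. -/
noncomputable def OmN {M m k : ℕ} (s0 : ℝ) (s : SmpN M m k) : Matrix (Fin (m + 1)) (Fin k) ℝ :=
  dc m (sc M s0 s.1) * ((Real.sqrt k)⁻¹ • EM s.2)

/-- The scaled vector. -/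
noncomputable def yv {M m : ℕ} (s0 : ℝ) (u : Fin (M + 1)) (x : EuclideanSpace ℝ (Fin (m + 1))) :
    Fin (m + 1) → ℝ :=
  fun i => (Fin.cons (sc M s0 u) (fun _ => 1) : Fin (m + 1) → ℝ) i * x i

lemma yv_sum {M m : ℕ} (s0 : ℝ) (u : Fin (M + 1)) (x : EuclideanSpace ℝ (Fin (m + 1))) :
    ∑ i, yv s0 u x i ^ 2 = sc M s0 u ^ 2 * x 0 ^ 2 + ∑ i : Fin m, x i.succ ^ 2 := by
  rw [Fin.sum_univ_succ]
  simp [yv, mul_pow]

lemma sk_OmN {M m k : ℕ} (s0 : ℝ) (u : Fin (M + 1)) (e : Fin (m + 1) × Fin k → Bool)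
    (x : EuclideanSpace ℝ (Fin (m + 1))) :
    sk (OmN s0 ((u, e) : SmpN M m k)) x
      = (k : ℝ)⁻¹ * ∑ j, (∑ i, sg (e (i, j)) * yv s0 u x i) ^ 2 := by
  unfold sk
  rw [Finset.mul_sum]
  refine Finset.sum_congr rfl fun j _ => ?_
  have : ∑ i, OmN s0 ((u, e) : SmpN M m k) i j * x i
      = (Real.sqrt k)⁻¹ * ∑ i, sg (e (i, j)) * yv s0 u x i := by
    rw [Finset.mul_sum]
    refine Finset.sum_congr rfl fun i _ => ?_
    have h1 : OmN s0 ((u, e) : SmpN M m k) = dc m (sc M s0 u) * ((Real.sqrt k)⁻¹ • EM e) := rfl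
    rw [h1, dc, Matrix.diagonal_mul, Matrix.smul_apply, smul_eq_mul, EM, yv]
    ring
  rw [this, mul_pow, inv_pow, Real.sq_sqrt (by positivity)]

lemma isOSI_OmN (M m k : ℕ) (hk : 1 ≤ k) (s0 δ : ℝ) (hs0 : 0 < s0) (hs1 : s0 ≤ 1)
    (hδ : 8 / k ≤ δ) :
    @IsOSI (SmpN M m k) ⊤ (m + 1) k (unif (SmpN M m k)) (OmN s0) 1 (s0 ^ 2 / 2) δ := by
  let _ : MeasurableSpace (SmpN M m k) := ⊤
  have : IsProbabilityMeasure (unif (SmpN M m k)) := unif_prob
  have hk0 : (0 : ℝ) < k := by exact_mod_cast hk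
  set NN : ℝ := 2 ^ Fintype.card (Fin (m + 1) × Fin k) with hNN
  have hNN0 : 0 < NN := by positivity
  refine ⟨fun i j => measurable_from_top, fun x => unif_integrable _, ?_, ?_⟩
  · intro x
    rw [unif_integral, card_SmpN, sum_SmpN, EuclideanSpace.real_norm_sq_eq]
    have h1 : ∀ u : Fin (M + 1), ∑ e : Fin (m + 1) × Fin k → Bool,
        sk (OmN s0 ((u, e) : SmpN M m k)) x
        = NN * (sc M s0 u ^ 2 * x 0 ^ 2 + ∑ i : Fin m, x i.succ ^ 2) := by
      intro u
      simp only [sk_OmN]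
      rw [← Finset.mul_sum, quad_mean, yv_sum, hNN]
      field_simp
    simp only [h1]
    rw [← Finset.mul_sum, Finset.sum_add_distrib, ← Finset.sum_mul, sum_sc M s0 hs0 hs1,
      Finset.sum_const, Finset.card_univ, Fintype.card_fin, nsmul_eq_mul, Fin.sum_univ_succ]
    push_cast
    rw [hNN]
    field_simp
  · intro V hV
    obtain ⟨⟨v, hvV⟩, hv0, hv⟩ := finrank_eq_one_iff'.mp hV
    have hv0' : v ≠ 0 := fun h => hv0 (Subtype.ext h)
    have hn : 0 < ‖v‖ ^ 2 := by
      have := norm_pos_iff.mpr hv0'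
      positivity
    set G : Set (SmpN M m k) := {s | ∀ x ∈ V, s0 ^ 2 / 2 * ‖x‖ ^ 2 ≤ sk (OmN s0 s) x} with hG
    have hsub : ∀ s, s0 ^ 2 / 2 * ‖v‖ ^ 2 ≤ sk (OmN s0 s) v → s ∈ G := by
      intro s hs x hx
      obtain ⟨c, hc⟩ := hv ⟨x, hx⟩
      have hc' : c • v = x := congrArg Subtype.val hc
      rw [← hc', sk_smul, norm_smul, mul_pow, Real.norm_eq_abs, sq_abs]
      calc s0 ^ 2 / 2 * (c ^ 2 * ‖v‖ ^ 2) = c ^ 2 * (s0 ^ 2 / 2 * ‖v‖ ^ 2) := by ring
        _ ≤ _ := mul_le_mul_of_nonneg_left hs (sq_nonneg c)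
    set Y : Fin (M + 1) → ℝ := fun u => ∑ i, yv s0 u v i ^ 2 with hY
    have hYge : ∀ u, s0 ^ 2 * ‖v‖ ^ 2 ≤ Y u := by
      intro u
      rw [hY, EuclideanSpace.real_norm_sq_eq, Fin.sum_univ_succ]
      simp only
      rw [yv_sum]
      have h1 := mul_le_mul_of_nonneg_right (sc_sq_ge M s0 hs0 hs1 u) (sq_nonneg (v 0))
      have h2 : s0 ^ 2 ≤ 1 := by nlinarith
      have h3 : s0 ^ 2 * ∑ i : Fin m, v i.succ ^ 2 ≤ 1 * ∑ i : Fin m, v i.succ ^ 2 :=
        mul_le_mul_of_nonneg_right h2 (Finset.sum_nonneg fun i _ => sq_nonneg _)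
      nlinarith
    have hY0 : ∀ u, 0 < Y u := fun u => lt_of_lt_of_le (by positivity) (hYge u)
    set Z : Fin (M + 1) → (Fin (m + 1) × Fin k → Bool) → ℝ :=
      fun u e => ∑ j, (∑ i, sg (e (i, j)) * yv s0 u v i) ^ 2
        - k * (∑ i, yv s0 u v i ^ 2) with hZ
    have hfail : (unif (SmpN M m k)).real Gᶜ ≤ δ := by
      refine (unif_markov Gᶜ (fun s => (2 / (k * Y s.1)) ^ 2 * Z s.1 s.2 ^ 2) ?_ ?_).trans ?_
      · intro s
        positivity
      · rintro ⟨u, e⟩ hs
        have hs' : sk (OmN s0 ((u, e) : SmpN M m k)) v < s0 ^ 2 / 2 * ‖v‖ ^ 2 := by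
          by_contra hcon
          exact hs (hsub _ (not_lt.mp hcon))
        rw [sk_OmN] at hs'
        have h2 : ∑ j, (∑ i, sg (e (i, j)) * yv s0 u v i) ^ 2 = Z u e + k * Y u := by
          rw [hZ, hY]
          ring
        rw [h2, inv_mul_lt_iff₀ hk0] at hs'
        have h3 := mul_le_mul_of_nonneg_left (hYge u) hk0.le
        have h4 : Z u e < -(k * Y u / 2) := by nlinarith
        have h6 : 0 < k * Y u := mul_pos hk0 (hY0 u)
        have h5 : (k * Y u / 2) ^ 2 ≤ Z u e ^ 2 := by nlinarith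
        show 1 ≤ (2 / (k * Y u)) ^ 2 * Z u e ^ 2
        calc (1 : ℝ) = (2 / (k * Y u)) ^ 2 * (k * Y u / 2) ^ 2 := by
              rw [← mul_pow]
              have : 2 / (k * Y u) * (k * Y u / 2) = 1 := by
                rw [div_mul_div_comm, mul_comm 2 (k * Y u), div_self (by positivity)]
              rw [this, one_pow]
          _ ≤ (2 / (k * Y u)) ^ 2 * Z u e ^ 2 := mul_le_mul_of_nonneg_left h5 (by positivity)
      · rw [sum_SmpN, card_SmpN, div_le_iff₀ (by positivity)]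
        have e2 : ∑ u : Fin (M + 1), ∑ e : Fin (m + 1) × Fin k → Bool,
            (2 / (k * Y u)) ^ 2 * Z u e ^ 2 ≤ ∑ _u : Fin (M + 1), 8 / k * NN := by
          refine Finset.sum_le_sum fun u _ => ?_
          rw [← Finset.mul_sum]
          have h7 := mul_le_mul_of_nonneg_left (quad_var (k := k) (yv s0 u v))
            (sq_nonneg (2 / (k * Y u)))
          refine h7.trans (le_of_eq ?_)
          have h8 := hY0 u
          rw [hNN]
          show (2 / (k * Y u)) ^ 2 * (2 ^ Fintype.card (Fin (m + 1) × Fin k)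
            * (2 * (k * (Y u) ^ 2))) = _
          field_simp
          ring
        refine e2.trans ?_
        rw [Finset.sum_const, Finset.card_univ, Fintype.card_fin, nsmul_eq_mul]
        push_cast
        have h9 := mul_le_mul_of_nonneg_right hδ (by positivity : 0 ≤ ((M : ℝ) + 1) * NN)
        calc ((M : ℝ) + 1) * (8 / k * NN) = 8 / k * ((M + 1) * NN) := by ring
          _ ≤ _ := h9
    rw [probReal_compl_eq_one_sub MeasurableSpace.measurableSet_top] at hfail
    linarith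

lemma near_prob (M m k : ℕ) (hk : 1 ≤ k) (hm : 1 ≤ m) (K C : ℝ) (hK : 0 < K) (hC : 0 ≤ C)
    (hK2 : (1 + C) ^ 2 * m * (2 * k + 1) < K ^ 2) :
    @Measure.real (SmpN M m k) ⊤ (unif (SmpN M m k))
      {s | frob (dc m K - rsvd (dc m K) (OmN (Real.sqrt m / K) s)) ≤ (1 + C) * optErr (dc m K) 1}
      ≤ 1 / (M + 1) + 8 * (k : ℝ) ^ 4 / m := by
  let _ : MeasurableSpace (SmpN M m k) := ⊤
  have : IsProbabilityMeasure (unif (SmpN M m k)) := unif_prob
  have hk0 : (0 : ℝ) < k := by exact_mod_cast hk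
  have hm0 : (0 : ℝ) < m := by exact_mod_cast hm
  set A : Matrix (Fin (m + 1)) (Fin (m + 1)) ℝ := dc m K with hA
  have hopt : optErr A 1 ≤ Real.sqrt m := optErr_diag m K
  set g : Fin k → Fin k → (Fin (m + 1) × Fin k → Bool) → ℝ :=
    fun j l e => ∑ i : Fin m, sg (e (i.succ, j)) * sg (e (i.succ, l)) with hg
  refine (unif_markov _ (fun s => (if s.1 = 0 then 1 else 0) +
    ∑ j, ∑ l, if j ≠ l then (2 * k / m) ^ 2 * g j l s.2 ^ 2 else 0) ?_ ?_).trans ?_
  · intro s
    have h1 : (0 : ℝ) ≤ (if s.1 = 0 then 1 else 0) := by split_ifs <;> norm_num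
    refine add_nonneg h1 (Finset.sum_nonneg fun j _ => Finset.sum_nonneg fun l _ => ?_)
    split_ifs
    · positivity
    · exact le_rfl
  · rintro ⟨u, e⟩ hs
    have hnn : 0 ≤ ∑ j, ∑ l, (if j ≠ l then (2 * k / (m : ℝ)) ^ 2 * g j l e ^ 2 else 0) := by
      refine Finset.sum_nonneg fun j _ => Finset.sum_nonneg fun l _ => ?_
      split_ifs
      · positivity
      · exact le_rfl
    by_cases hu : u = 0
    · show 1 ≤ (if u = 0 then (1 : ℝ) else 0) + _
      rw [if_pos hu]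
      linarith
    · show 1 ≤ (if u = 0 then (1 : ℝ) else 0) + _
      rw [if_neg hu, zero_add]
      by_contra hcon
      have hgood : ∀ j l, j ≠ l →
          |∑ i : Fin m, EM e i.succ j * EM e i.succ l| ≤ (m : ℝ) / (2 * k) := by
        intro j l hjl
        by_contra hbad
        push Not at hbad
        apply hcon
        have h2 : 1 ≤ (2 * k / (m : ℝ)) ^ 2 * g j l e ^ 2 := by
          have h3 : ((m : ℝ) / (2 * k)) ^ 2 ≤ g j l e ^ 2 := by
            rw [← sq_abs (g j l e)]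
            exact pow_le_pow_left₀ (by positivity) hbad.le 2
          calc (1 : ℝ) = (2 * k / (m : ℝ)) ^ 2 * ((m : ℝ) / (2 * k)) ^ 2 := by field_simp
            _ ≤ _ := mul_le_mul_of_nonneg_left h3 (by positivity)
        have h4 : ∀ j l, 0 ≤ (if j ≠ l then (2 * k / (m : ℝ)) ^ 2 * g j l e ^ 2 else 0) := by
          intro j l
          split_ifs
          · positivity
          · exact le_rfl
        calc (1 : ℝ) ≤ (if j ≠ l then (2 * k / (m : ℝ)) ^ 2 * g j l e ^ 2 else 0) := by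
              rw [if_pos hjl]; exact h2
          _ ≤ ∑ l, (if j ≠ l then (2 * k / (m : ℝ)) ^ 2 * g j l e ^ 2 else 0) :=
              Finset.single_le_sum (f := fun l => if j ≠ l then (2 * k / (m : ℝ)) ^ 2 * g j l e ^ 2
                else 0) (fun l _ => h4 j l) (Finset.mem_univ l)
          _ ≤ _ := Finset.single_le_sum
              (f := fun j => ∑ l, if j ≠ l then (2 * k / (m : ℝ)) ^ 2 * g j l e ^ 2 else 0)
              (fun j _ => Finset.sum_nonneg fun l _ => h4 j l) (Finset.mem_univ j)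
      have hs' : frob (A - rsvd A (OmN (Real.sqrt m / K) ((u, e) : SmpN M m k)))
          ≤ (1 + C) * optErr A 1 := hs
      have hAO : A * OmN (Real.sqrt m / K) ((u, e) : SmpN M m k)
          = hard m * ((Real.sqrt k)⁻¹ • EM e) := by
        have h1 : OmN (Real.sqrt m / K) ((u, e) : SmpN M m k)
            = dc m (Real.sqrt m / K) * ((Real.sqrt k)⁻¹ • EM e) := by
          show dc m (sc M (Real.sqrt m / K) u) * ((Real.sqrt k)⁻¹ • EM e) = _
          rw [sc, if_neg hu]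
        rw [h1, ← Matrix.mul_assoc, hA, dc, dc, Matrix.diagonal_mul_diagonal, hard]
        congr 2
        funext i
        refine Fin.cases ?_ (fun i => ?_) i
        · simp only [Fin.cons_zero, dg_zero]
          field_simp
        · simp [dg_succ]
      have h5 := err_diag (Fin.cons K (fun _ => 1) : Fin (m + 1) → ℝ)
        (OmN (Real.sqrt m / K) ((u, e) : SmpN M m k))
      change frob (A - rsvd A (OmN (Real.sqrt m / K) ((u, e) : SmpN M m k))) ^ 2
        = ∑ j, (Fin.cons K (fun _ => 1) : Fin (m + 1) → ℝ) j ^ 2 *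
          (1 - (A * OmN (Real.sqrt m / K) ((u, e) : SmpN M m k))
          * pinv (A * OmN (Real.sqrt m / K) ((u, e) : SmpN M m k)) : Matrix _ _ ℝ) j j at h5
      rw [hAO, Fin.sum_univ_succ] at h5
      have h6 := R00 (m := m) hk ((Real.sqrt k)⁻¹) (EM e) (fun i j => sg_sq _) hgood
      have hRnn : ∀ j, 0 ≤ (1 - (hard m * ((Real.sqrt k)⁻¹ • EM e))
          * pinv (hard m * ((Real.sqrt k)⁻¹ • EM e)) : Matrix _ _ ℝ) j j := by
        intro j
        obtain ⟨q1, q2⟩ := R_props (hard m * ((Real.sqrt k)⁻¹ • EM e))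
        rw [← symm_idem_diag _ q1 q2 j]
        exact Finset.sum_nonneg fun i _ => sq_nonneg _
      have h7 : K ^ 2 * (1 / (2 * (k : ℝ) + 1)) ≤
          frob (A - rsvd A (OmN (Real.sqrt m / K) ((u, e) : SmpN M m k))) ^ 2 := by
        rw [h5]
        have h8 : 0 ≤ ∑ i : Fin m, (Fin.cons K (fun _ => 1) : Fin (m + 1) → ℝ) i.succ ^ 2 *
            (1 - (hard m * ((Real.sqrt k)⁻¹ • EM e))
            * pinv (hard m * ((Real.sqrt k)⁻¹ • EM e)) : Matrix _ _ ℝ) i.succ i.succ :=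
          Finset.sum_nonneg fun i _ => mul_nonneg (sq_nonneg _) (hRnn _)
        rw [Fin.cons_zero]
        have h9 := mul_le_mul_of_nonneg_left h6 (sq_nonneg K)
        linarith
      have h10 : frob (A - rsvd A (OmN (Real.sqrt m / K) ((u, e) : SmpN M m k))) ^ 2
          ≤ (1 + C) ^ 2 * m := by
        calc _ ≤ ((1 + C) * Real.sqrt m) ^ 2 :=
              pow_le_pow_left₀ (frob_nonneg _)
                (hs'.trans (mul_le_mul_of_nonneg_left hopt (by linarith))) 2
          _ = _ := by rw [mul_pow, Real.sq_sqrt hm0.le]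
      have h11 : (1 + C) ^ 2 * m < K ^ 2 * (1 / (2 * (k : ℝ) + 1)) := by
        rw [mul_one_div, lt_div_iff₀ (by positivity)]
        exact hK2
      linarith
  · rw [sum_SmpN, card_SmpN]
    simp only [Finset.sum_add_distrib]
    have e1 : ∑ x : Fin (M + 1), ∑ _e : Fin (m + 1) × Fin k → Bool,
        (if x = 0 then (1 : ℝ) else 0) = 2 ^ Fintype.card (Fin (m + 1) × Fin k) := by
      rw [Finset.sum_comm]
      simp only [Finset.sum_ite_eq', Finset.mem_univ, if_true, Finset.sum_const,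
        Finset.card_univ, Fintype.card_fun, Fintype.card_bool, nsmul_eq_mul, mul_one]
      push_cast
      rfl
    have h1 : ∑ e : Fin (m + 1) × Fin k → Bool, ∑ j, ∑ l,
        (if j ≠ l then (2 * k / (m : ℝ)) ^ 2 * g j l e ^ 2 else 0)
        ≤ k * (k * ((2 * k / (m : ℝ)) ^ 2 *
          ((2 : ℝ) ^ (Fintype.card (Fin (m + 1) × Fin k)) * (2 * m)))) := by
      rw [Finset.sum_comm]
      calc _ ≤ ∑ _j : Fin k, (k * ((2 * k / (m : ℝ)) ^ 2 *
          ((2 : ℝ) ^ (Fintype.card (Fin (m + 1) × Fin k)) * (2 * m)))) := by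
            refine Finset.sum_le_sum fun j _ => ?_
            rw [Finset.sum_comm]
            calc _ ≤ ∑ _l : Fin k, ((2 * k / (m : ℝ)) ^ 2 *
                ((2 : ℝ) ^ (Fintype.card (Fin (m + 1) × Fin k)) * (2 * m))) := by
                  refine Finset.sum_le_sum fun l _ => ?_
                  by_cases hjl : j = l
                  · simp only [hjl, ne_eq, not_true_eq_false, if_false, Finset.sum_const_zero]
                    positivity
                  · simp only [ne_eq, hjl, not_false_eq_true, if_true]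
                    rw [← Finset.mul_sum]
                    exact mul_le_mul_of_nonneg_left (gram_var j l hjl) (by positivity)
              _ = _ := by
                  rw [Finset.sum_const, Finset.card_univ, Fintype.card_fin, nsmul_eq_mul]
        _ = _ := by
            rw [Finset.sum_const, Finset.card_univ, Fintype.card_fin, nsmul_eq_mul]
    have h2 : (k : ℝ) * (k * ((2 * k / (m : ℝ)) ^ 2 *
          ((2 : ℝ) ^ (Fintype.card (Fin (m + 1) × Fin k)) * (2 * m))))
        = 8 * k ^ 4 / m * 2 ^ (Fintype.card (Fin (m + 1) × Fin k)) := by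
      field_simp
      ring
    rw [h2] at h1
    rw [div_le_iff₀ (by positivity), e1, Finset.sum_const, Finset.card_univ, Fintype.card_fin,
      nsmul_eq_mul]
    push_cast
    have h3 := mul_le_mul_of_nonneg_left h1 (by positivity : 0 ≤ (M : ℝ) + 1)
    calc _ ≤ 2 ^ (Fintype.card (Fin (m + 1) × Fin k)) + ((M : ℝ) + 1) *
          (8 * k ^ 4 / m * 2 ^ (Fintype.card (Fin (m + 1) × Fin k))) := by
          linarith
      _ = _ := by
          field_simp

end Pool.Agent.H6.Osi
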