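import Mathlib
import Pool.Agent.H6.OsiDefs
import Pool.Agent.H6.OsiPinv
import Pool.Agent.H6.OsiGeom

set_option autoImplicit false

namespace Pool.Agent.H6.Osi

open scoped InnerProductSpace
open MeasureTheory

/-- The sketch as a linear map. -/
noncomputable def Tm {d k : ℕ} (M : Matrix (Fin d) (Fin k) ℝ) :
    EuclideanSpace ℝ (Fin d) →ₗ[ℝ] EuclideanSpace ℝ (Fin k) where
  toFun x := WithLp.toLp 2 (fun j => ∑ i, M i j * x i)
  map_add' x y := by
    ext j
    simp [mul_add, Finset.sum_add_distrib]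
  map_smul' c x := by
    ext j
    simp only [PiLp.smul_apply, smul_eq_mul, RingHom.id_apply, Finset.mul_sum]
    exact Finset.sum_congr rfl fun i _ => by ring

lemma Tm_apply {d k : ℕ} (M : Matrix (Fin d) (Fin k) ℝ) (x : EuclideanSpace ℝ (Fin d))
    (j : Fin k) : Tm M x j = ∑ i, M i j * x i := rfl

lemma norm_Tm {d k : ℕ} (M : Matrix (Fin d) (Fin k) ℝ) (x : EuclideanSpace ℝ (Fin d)) :
    ‖Tm M x‖ ^ 2 = sk M x := by
  rw [EuclideanSpace.real_norm_sq_eq]
  rfl

/-- The `i`-th row. -/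
noncomputable def row {n d : ℕ} (A : Matrix (Fin n) (Fin d) ℝ) (i : Fin n) :
    EuclideanSpace ℝ (Fin d) := WithLp.toLp 2 (A i)

lemma row_apply {n d : ℕ} (A : Matrix (Fin n) (Fin d) ℝ) (i : Fin n) (j : Fin d) :
    row A i j = A i j := rfl

lemma frob_sq_row {n d : ℕ} (A : Matrix (Fin n) (Fin d) ℝ) :
    frob A ^ 2 = ∑ i, ‖row A i‖ ^ 2 := by
  rw [frob_sq]
  refine Finset.sum_congr rfl fun i _ => ?_
  rw [EuclideanSpace.real_norm_sq_eq]
  rfl

/-- The deterministic part. -/
lemma det_part {n d k : ℕ} (A : Matrix (Fin n) (Fin d) ℝ) (M : Matrix (Fin d) (Fin k) ℝ)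
    (V : Submodule ℝ (EuclideanSpace ℝ (Fin d))) (α : ℝ) (hα0 : 0 < α)
    (hV : ∀ y ∈ V, α * ‖y‖ ^ 2 ≤ sk M y) :
    ∃ z : Fin n → EuclideanSpace ℝ (Fin d), (∀ i, z i ∈ V) ∧
      (∀ i, ⟪Tm M (row A i - V.starProjection (row A i) - z i), Tm M (z i)⟫_ℝ = 0) ∧
      frob (A - rsvd A M) ^ 2 ≤
        ∑ i, (‖row A i - V.starProjection (row A i)‖ ^ 2 + ‖z i‖ ^ 2) := by
  classical
  obtain ⟨L, hL1, hL2, hL3⟩ := exists_L (Tm M) V α hα0
    (fun y hy => by rw [norm_Tm]; exact hV y hy)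
  set w : Fin n → EuclideanSpace ℝ (Fin d) :=
    fun i => row A i - V.starProjection (row A i) with hw
  refine ⟨fun i => L (Tm M (w i)), fun i => hL1 _, fun i => ?_, ?_⟩
  · have := hL3 (Tm M (w i)) (L (Tm M (w i))) (hL1 _)
    rw [map_sub]
    exact this
  · set N : Matrix (Fin k) (Fin d) ℝ := fun j l => L (EuclideanSpace.single j 1) l with hN
    have hrow : ∀ i, row (A - (A * M) * N) i = row A i - L (Tm M (row A i)) := by
      intro i
      have h1 : Tm M (row A i) = ∑ j, ((A * M) i j) • EuclideanSpace.single j (1 : ℝ) := by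
        ext j
        rw [Tm_apply]
        simp only [WithLp.ofLp_sum, WithLp.ofLp_smul, Finset.sum_apply, Pi.smul_apply,
          PiLp.single_apply, smul_eq_mul, mul_ite, mul_one, mul_zero,
          Finset.sum_ite_eq, Finset.mem_univ, if_true]
        rw [Matrix.mul_apply]
        exact Finset.sum_congr rfl fun i' _ => by rw [row_apply]; ring
      ext l
      rw [h1, map_sum]
      simp only [map_smul]
      rw [PiLp.sub_apply, row_apply, row_apply, Matrix.sub_apply, Matrix.mul_apply]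
      congr 1
      simp only [WithLp.ofLp_sum, WithLp.ofLp_smul, Finset.sum_apply, Pi.smul_apply,
        smul_eq_mul, hN]
    refine (rsvd_le A M N).trans ?_
    rw [frob_sq_row]
    refine Finset.sum_le_sum fun i _ => ?_
    rw [hrow]
    have hp : V.starProjection (row A i) ∈ V := V.starProjection_apply_mem _
    have e1 : row A i = V.starProjection (row A i) + w i := by rw [hw]; simp
    have e2 : L (Tm M (row A i)) = V.starProjection (row A i) + L (Tm M (w i)) := by
      conv_lhs => rw [e1, map_add, map_add, hL2 _ hp]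
    have e3 : row A i - L (Tm M (row A i)) = w i - L (Tm M (w i)) := by
      rw [e2, ← sub_sub]
    rw [e3]
    have horth : ⟪w i, L (Tm M (w i))⟫_ℝ = 0 :=
      Submodule.starProjection_inner_eq_zero (K := V) _ _ (hL1 _)
    rw [@norm_sub_sq_real, horth]
    linarith

lemma exists_extend {d : ℕ} (V0 : Submodule ℝ (EuclideanSpace ℝ (Fin d))) (r : ℕ)
    (h1 : Module.finrank ℝ V0 ≤ r) (h2 : r ≤ d) :
    ∃ V : Submodule ℝ (EuclideanSpace ℝ (Fin d)), V0 ≤ V ∧ Module.finrank ℝ V = r := by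
  induction r, h1 using Nat.le_induction with
  | base => exact ⟨V0, le_rfl, rfl⟩
  | succ r hr ih =>
    obtain ⟨V, hV, hVr⟩ := ih (by omega)
    have hne : V ≠ ⊤ := by
      intro h
      rw [h, finrank_top, finrank_euclideanSpace_fin] at hVr
      omega
    obtain ⟨x, hx⟩ : ∃ x, x ∉ V := by
      by_contra hcon
      push Not at hcon
      exact hne (Submodule.eq_top_iff'.mpr hcon)
    refine ⟨V ⊔ Submodule.span ℝ {x}, hV.trans le_sup_left, ?_⟩
    have h3 := Submodule.finrank_sup_add_finrank_inf_eq V (Submodule.span ℝ {x})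
    have hx0 : x ≠ 0 := fun h => hx (h ▸ V.zero_mem)
    have h4 : V ⊓ Submodule.span ℝ {x} = ⊥ := by
      rw [Submodule.eq_bot_iff]
      intro y hy
      obtain ⟨hy1, hy2⟩ := Submodule.mem_inf.mp hy
      obtain ⟨c, rfl⟩ := Submodule.mem_span_singleton.mp hy2
      by_cases hc : c = 0
      · rw [hc, zero_smul]
      · exact absurd ((V.smul_mem_iff hc).mp hy1) hx
    rw [h4, finrank_bot, finrank_span_singleton hx0, hVr] at h3
    omega

lemma exists_V {n d : ℕ} (B : Matrix (Fin n) (Fin d) ℝ) (r : ℕ) (hB : B.rank ≤ r) (hr : r ≤ d) :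
    ∃ V : Submodule ℝ (EuclideanSpace ℝ (Fin d)), (∀ i, row B i ∈ V) ∧
      Module.finrank ℝ V = r := by
  let e : EuclideanSpace ℝ (Fin d) ≃ₗ[ℝ] (Fin d → ℝ) := WithLp.linearEquiv 2 ℝ (Fin d → ℝ)
  let V0 : Submodule ℝ (EuclideanSpace ℝ (Fin d)) := Submodule.span ℝ (Set.range (row B))
  have h0 : Module.finrank ℝ V0 ≤ r := by
    have h1 : Module.finrank ℝ (V0.map e.toLinearMap) = Module.finrank ℝ V0 :=
      LinearEquiv.finrank_map_eq e V0
    have h2 : V0.map e.toLinearMap = Submodule.span ℝ (Set.range B.row) := by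
      rw [Submodule.map_span]
      congr 1
      rw [← Set.range_comp]
      rfl
    rw [← h1, h2, ← Matrix.rank_eq_finrank_span_row]
    exact hB
  obtain ⟨V, hV, hVr⟩ := exists_extend V0 r h0 hr
  exact ⟨V, fun i => hV (Submodule.subset_span ⟨i, rfl⟩), hVr⟩

lemma resid_le {n d : ℕ} (A B : Matrix (Fin n) (Fin d) ℝ)
    (V : Submodule ℝ (EuclideanSpace ℝ (Fin d))) (hV : ∀ i, row B i ∈ V) :
    ∑ i, ‖row A i - V.starProjection (row A i)‖ ^ 2 ≤ frob (A - B) ^ 2 := by
  rw [frob_sq_row]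
  refine Finset.sum_le_sum fun i _ => ?_
  have h1 : row (A - B) i = row A i - row B i := by
    ext l
    rw [PiLp.sub_apply, row_apply, row_apply, row_apply, Matrix.sub_apply]
  rw [h1]
  set p := V.starProjection (row A i) with hp
  have hpm : p ∈ V := V.starProjection_apply_mem _
  have horth : ⟪row A i - p, p - row B i⟫_ℝ = 0 :=
    Submodule.starProjection_inner_eq_zero (K := V) _ _ (V.sub_mem hpm (hV i))
  have : row A i - row B i = (row A i - p) + (p - row B i) := by abel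
  rw [this, @norm_add_sq_real, horth]
  nlinarith [sq_nonneg ‖p - row B i‖]

lemma measurable_Om {S : Type} [MeasurableSpace S] {d k : ℕ} (Om : S → Matrix (Fin d) (Fin k) ℝ)
    (h : ∀ i j, Measurable (fun s => Om s i j)) (V : Set (EuclideanSpace ℝ (Fin d))) (α : ℝ) :
    MeasurableSet {s | ∀ x ∈ V, α * ‖x‖ ^ 2 ≤ sk (Om s) x} := by
  have hm : Measurable (fun s => (fun i j => Om s i j : Fin d → Fin k → ℝ)) :=
    measurable_pi_iff.mpr fun i => measurable_pi_iff.mpr fun j => h i j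
  have hc : IsClosed {M : Fin d → Fin k → ℝ | ∀ x ∈ V, α * ‖x‖ ^ 2 ≤ sk M x} := by
    have : {M : Fin d → Fin k → ℝ | ∀ x ∈ V, α * ‖x‖ ^ 2 ≤ sk M x}
        = ⋂ x ∈ V, {M : Fin d → Fin k → ℝ | α * ‖x‖ ^ 2 ≤ sk M x} := by
      ext M
      simp
    rw [this]
    refine isClosed_biInter fun x _ => isClosed_le continuous_const ?_
    unfold sk
    fun_prop
  exact hm hc.measurableSet

end Pool.Agent.H6.Osi
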