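import Mathlib
import Pool.Agent.H6.OsiDefs
import Pool.Agent.H6.OsiQ2a

set_option autoImplicit false

namespace Pool.Agent.H6.Osi

open scoped InnerProductSpace
open MeasureTheory

lemma prob_compl {S : Type} [MeasurableSpace S] (P : Measure S) [IsProbabilityMeasure P]
    (G : Set S) (hG : MeasurableSet G) (δ : ℝ) (h : 1 - δ ≤ P.real G) : P.real Gᶜ ≤ δ := by
  rw [probReal_compl_eq_one_sub hG]
  linarith

lemma measurable_sk {S : Type} [MeasurableSpace S] {d k : ℕ} (Om : S → Matrix (Fin d) (Fin k) ℝ)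
    (h : ∀ i j, Measurable (fun s => Om s i j)) (x : EuclideanSpace ℝ (Fin d)) :
    Measurable (fun s => sk (Om s) x) := by
  unfold sk
  refine Finset.measurable_fun_sum _ fun j _ => Measurable.pow_const ?_ 2
  exact Finset.measurable_fun_sum _ fun i _ => (h i j).mul_const _

lemma exists_D1 {S : Type} [MeasurableSpace S] (P : Measure S) [IsProbabilityMeasure P] {d k : ℕ}
    (Om : S → Matrix (Fin d) (Fin k) ℝ) (r : ℕ) (α δ : ℝ) (hα0 : 0 < α)
    (h : IsOSI P Om r α δ) (V : Submodule ℝ (EuclideanSpace ℝ (Fin d)))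
    (hVr : Module.finrank ℝ V = r) (v : EuclideanSpace ℝ (Fin d)) (hv : v ∈ V) (hv1 : ‖v‖ = 1)
    (w : EuclideanSpace ℝ (Fin d)) (hw : ∀ x ∈ V, ⟪w, x⟫_ℝ = 0) (hw1 : ‖w‖ = 1) :
    ∃ D : S → ℝ, (Integrable D P ∧ Measurable D) ∧ (∀ s, 0 ≤ D s) ∧
      ∫ s, D s ∂P ≤ 3 / α * (1 - α) + 9 * δ ∧
      ∀ s, (∀ x ∈ V, α * ‖x‖ ^ 2 ≤ sk (Om s) x) → ∀ z ∈ V,
        ⟪Tm (Om s) (w - z), Tm (Om s) z⟫_ℝ = 0 → ‖z‖ ^ 2 ≤ D s := by
  classical
  have hwv : ⟪w, v⟫_ℝ = 0 := hw v hv
  set G0 : Set S := {s | ∀ x ∈ V, α * ‖x‖ ^ 2 ≤ sk (Om s) x} with hG0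
  set G1 : Set S := {s | ∀ x ∈ V.map (shear v w 1), α * ‖x‖ ^ 2 ≤ sk (Om s) x} with hG1
  set G2 : Set S := {s | ∀ x ∈ V.map (shear v w (-1)), α * ‖x‖ ^ 2 ≤ sk (Om s) x} with hG2
  have m0 : MeasurableSet G0 := measurable_Om Om h.meas (V : Set _) α
  have m1 : MeasurableSet G1 := measurable_Om Om h.meas (V.map (shear v w 1) : Set _) α
  have m2 : MeasurableSet G2 := measurable_Om Om h.meas (V.map (shear v w (-1)) : Set _) α
  have p0 : P.real G0ᶜ ≤ δ := prob_compl P _ m0 _ (h.injective V hVr)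
  have p1 : P.real G1ᶜ ≤ δ := prob_compl P _ m1 _ (h.injective _
    ((finrank_shear V v w 1 one_ne_zero hv1 hwv).trans hVr))
  have p2 : P.real G2ᶜ ≤ δ := prob_compl P _ m2 _ (h.injective _
    ((finrank_shear V v w (-1) (by norm_num) hv1 hwv).trans hVr))
  set G : Set S := G0 ∩ G1 ∩ G2 with hG
  have mG : MeasurableSet G := (m0.inter m1).inter m2
  have pG : P.real Gᶜ ≤ 3 * δ := by
    have : Gᶜ = G0ᶜ ∪ G1ᶜ ∪ G2ᶜ := by rw [hG, Set.compl_inter, Set.compl_inter]
    rw [this]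
    have u1 := measureReal_union_le (μ := P) (G0ᶜ ∪ G1ᶜ) G2ᶜ
    have u2 := measureReal_union_le (μ := P) G0ᶜ G1ᶜ
    linarith
  have hQ : ∀ x s, ‖Tm (Om s) x‖ ^ 2 = sk (Om s) x := fun x s => norm_Tm _ _
  have hin : ∀ s ∈ G, (∀ y ∈ V, α * ‖y‖ ^ 2 ≤ ‖Tm (Om s) y‖ ^ 2) ∧
      (∀ y ∈ V.map (shear v w 1), α * ‖y‖ ^ 2 ≤ ‖Tm (Om s) y‖ ^ 2) ∧
      (∀ y ∈ V.map (shear v w (-1)), α * ‖y‖ ^ 2 ≤ ‖Tm (Om s) y‖ ^ 2) := by
    intro s hs
    refine ⟨fun y hy => ?_, fun y hy => ?_, fun y hy => ?_⟩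
    · rw [hQ]; exact hs.1.1 y hy
    · rw [hQ]; exact hs.1.2 y hy
    · rw [hQ]; exact hs.2 y hy
  refine ⟨fun s => 3 / (2 * α) * (sk (Om s) w + sk (Om s) v - 2 * α)
    + Gᶜ.indicator (fun _ => (3 : ℝ)) s, ?_, ?_, ?_, ?_⟩
  · refine ⟨Integrable.add ?_ ((integrable_const _).indicator mG.compl), ?_⟩
    · exact (((h.integrable w).add (h.integrable v)).sub (integrable_const _)).const_mul _
    · refine Measurable.add ?_ (measurable_const.indicator mG.compl)
      exact (((measurable_sk Om h.meas w).add (measurable_sk Om h.meas v)).sub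
        measurable_const).const_mul _
  · intro s
    show 0 ≤ 3 / (2 * α) * (sk (Om s) w + sk (Om s) v - 2 * α)
      + Gᶜ.indicator (fun _ => (3 : ℝ)) s
    by_cases hs : s ∈ G
    · rw [Set.indicator_of_notMem (by simpa using hs), add_zero]
      obtain ⟨a0, a1, a2⟩ := hin s hs
      have := lemmaR (Tm (Om s)) V w v hv hv1 hw1 hw α a0 a1 a2
      rw [hQ, hQ] at this
      positivity
    · rw [Set.indicator_of_mem (by simpa using hs)]
      have h1 : 0 ≤ sk (Om s) w := by rw [← hQ]; positivity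
      have h2 : 0 ≤ sk (Om s) v := by rw [← hQ]; positivity
      have h3 : 3 / (2 * α) * (sk (Om s) w + sk (Om s) v - 2 * α) + 3
          = 3 / (2 * α) * (sk (Om s) w + sk (Om s) v) := by
        field_simp
        ring
      rw [h3]
      positivity
  · rw [integral_add, integral_const_mul, integral_sub, integral_add, h.isotropic, h.isotropic,
      hw1, hv1, integral_const, integral_indicator_const _ mG.compl]
    · simp only [probReal_univ, smul_eq_mul]
      have e : 3 / (2 * α) * (1 ^ 2 + 1 ^ 2 - 1 * (2 * α)) = 3 / α * (1 - α) := by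
        field_simp
        ring
      rw [e]
      linarith
    · exact h.integrable w
    · exact h.integrable v
    · exact (h.integrable w).add (h.integrable v)
    · exact integrable_const _
    · exact (((h.integrable w).add (h.integrable v)).sub (integrable_const _)).const_mul _
    · exact (integrable_const _).indicator mG.compl
  · intro s hs0 z hz horth
    by_cases hs : s ∈ G
    · simp only [Set.indicator_of_notMem (show s ∉ Gᶜ by simpa using hs), add_zero]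
      obtain ⟨a0, a1, a2⟩ := hin s hs
      have := lemmaB (Tm (Om s)) V w v hv hv1 hw1 hw α hα0 a0 a1 a2 z hz horth
      rw [hQ, hQ] at this
      exact this
    · simp only [Set.indicator_of_mem (show s ∈ Gᶜ by simpa using hs)]
      have h0 : α * ‖z‖ ^ 2 ≤ ‖Tm (Om s) z‖ ^ 2 := by rw [hQ]; exact hs0 z hz
      have := lemmaD (Tm (Om s)) w α hα0 z h0 horth
      rw [hQ] at this
      refine this.trans ?_
      have h1 : 0 ≤ sk (Om s) w := by rw [← hQ]; positivity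
      have h2 : 0 ≤ sk (Om s) v := by rw [← hQ]; positivity
      have h3 : 3 / (2 * α) * (sk (Om s) w + sk (Om s) v - 2 * α) + 3
          = 3 / (2 * α) * (sk (Om s) w + sk (Om s) v) := by
        field_simp
        ring
      rw [h3, div_mul_eq_mul_div, div_le_div_iff₀ hα0 (by positivity)]
      nlinarith [mul_nonneg hα0.le h1, mul_nonneg hα0.le h2]

lemma exists_D {S : Type} [MeasurableSpace S] (P : Measure S) [IsProbabilityMeasure P] {d k : ℕ}
    (Om : S → Matrix (Fin d) (Fin k) ℝ) (r : ℕ) (α δ : ℝ) (hα0 : 0 < α)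
    (h : IsOSI P Om r α δ) (V : Submodule ℝ (EuclideanSpace ℝ (Fin d)))
    (hVr : Module.finrank ℝ V = r) (v : EuclideanSpace ℝ (Fin d)) (hv : v ∈ V) (hv1 : ‖v‖ = 1)
    (w : EuclideanSpace ℝ (Fin d)) (hw : ∀ x ∈ V, ⟪w, x⟫_ℝ = 0) :
    ∃ D : S → ℝ, (Integrable D P ∧ Measurable D) ∧ (∀ s, 0 ≤ D s) ∧
      ∫ s, D s ∂P ≤ ‖w‖ ^ 2 * (3 / α * (1 - α) + 9 * δ) ∧
      ∀ s, (∀ x ∈ V, α * ‖x‖ ^ 2 ≤ sk (Om s) x) → ∀ z ∈ V,
        ⟪Tm (Om s) (w - z), Tm (Om s) z⟫_ℝ = 0 → ‖z‖ ^ 2 ≤ D s := by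
  by_cases hw0 : w = 0
  · refine ⟨fun _ => 0, ⟨integrable_const _, measurable_const⟩, fun _ => le_rfl, by simp [hw0], ?_⟩
    intro s hs z hz horth
    rw [hw0, zero_sub, map_neg, inner_neg_left, neg_eq_zero, real_inner_self_eq_norm_sq,
      norm_Tm] at horth
    have := hs z hz
    rw [horth] at this
    nlinarith
  · have hn : 0 < ‖w‖ := norm_pos_iff.mpr hw0
    set w' := ‖w‖⁻¹ • w with hw'
    have hww : w = ‖w‖ • w' := by rw [hw', smul_smul, mul_inv_cancel₀ hn.ne', one_smul]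
    have hw1 : ‖w'‖ = 1 := by
      rw [hw', norm_smul, norm_inv, norm_norm, inv_mul_cancel₀ hn.ne']
    obtain ⟨D, hD1, hD2, hD3, hD4⟩ := exists_D1 P Om r α δ hα0 h V hVr v hv hv1 w'
      (fun x hx => by rw [hw', inner_smul_left, hw x hx, mul_zero]) hw1
    refine ⟨fun s => ‖w‖ ^ 2 * D s, ⟨hD1.1.const_mul _, hD1.2.const_mul _⟩, fun s => mul_nonneg (by positivity) (hD2 s),
      ?_, ?_⟩
    · rw [integral_const_mul]
      exact mul_le_mul_of_nonneg_left hD3 (by positivity)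
    · intro s hs z hz horth
      have e : w' - ‖w‖⁻¹ • z = ‖w‖⁻¹ • (w - z) := by rw [hw', smul_sub]
      have := hD4 s hs (‖w‖⁻¹ • z) (V.smul_mem _ hz) (by
        rw [e, map_smul, map_smul, inner_smul_left, inner_smul_right, horth]
        simp)
      rw [norm_smul, norm_inv, norm_norm, mul_pow, inv_pow, inv_mul_le_iff₀ (by positivity)] at this
      exact this

lemma for_B {S : Type} [MeasurableSpace S] (P : Measure S) [IsProbabilityMeasure P] {n d k : ℕ}
    (A : Matrix (Fin n) (Fin d) ℝ) (Om : S → Matrix (Fin d) (Fin k) ℝ) (r : ℕ) (hr1 : 1 ≤ r)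
    (hrd : r ≤ d) (ε δ γ : ℝ) (hε0 : 0 < ε) (hε1 : ε < 1) (hδ : δ ≤ ε) (hγ : 0 < γ)
    (h : IsOSI P Om r (1 - ε) δ) (B : Matrix (Fin n) (Fin d) ℝ) (hB : B.rank ≤ r) :
    ∃ T : Set S, MeasurableSet T ∧ 1 - δ - γ ≤ P.real T ∧
      ∀ s ∈ T, frob (A - rsvd A (Om s)) ≤ (1 + 6 * ε / (γ * (1 - ε))) * frob (A - B) := by
  classical
  have hα0 : 0 < 1 - ε := by linarith
  obtain ⟨V, hVB, hVr⟩ := exists_V B r hB hrd
  obtain ⟨v, hv, hv1⟩ : ∃ v ∈ V, ‖v‖ = 1 := by
    have hne : V ≠ ⊥ := by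
      intro hbot
      rw [hbot, finrank_bot] at hVr
      omega
    obtain ⟨x, hx, hx0⟩ := Submodule.exists_mem_ne_zero_of_ne_bot hne
    have hn : 0 < ‖x‖ := norm_pos_iff.mpr hx0
    exact ⟨‖x‖⁻¹ • x, V.smul_mem _ hx, by
      rw [norm_smul, norm_inv, norm_norm, inv_mul_cancel₀ hn.ne']⟩
  set w : Fin n → EuclideanSpace ℝ (Fin d) :=
    fun i => row A i - V.starProjection (row A i) with hw
  have hwo : ∀ i, ∀ x ∈ V, ⟪w i, x⟫_ℝ = 0 := fun i x hx =>
    Submodule.starProjection_inner_eq_zero (K := V) _ _ hx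
  choose D hD1 hD2 hD3 hD4 using fun i =>
    exists_D P Om r (1 - ε) δ hα0 h V hVr v hv hv1 (w i) (hwo i)
  set W := ∑ i, ‖w i‖ ^ 2 with hW
  have hW0 : 0 ≤ W := Finset.sum_nonneg fun i _ => by positivity
  set G : Set S := {s | ∀ x ∈ V, (1 - ε) * ‖x‖ ^ 2 ≤ sk (Om s) x} with hG
  have mG : MeasurableSet G := measurable_Om Om h.meas (V : Set _) _
  have pG : 1 - δ ≤ P.real G := h.injective V hVr
  set F : S → ℝ := fun s => ∑ i, D i s with hF
  have hFi : Integrable F P := integrable_finsetSum _ fun i _ => (hD1 i).1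
  have hF0 : ∀ s, 0 ≤ F s := fun s => Finset.sum_nonneg fun i _ => hD2 i s
  set c : ℝ := 12 * ε / (1 - ε) with hc
  have hc0 : 0 < c := by positivity
  have hFint : ∫ s, F s ∂P ≤ c * W := by
    have h1 : ∫ s, F s ∂P = ∑ i, ∫ s, D i s ∂P := integral_finsetSum _ fun i _ => (hD1 i).1
    rw [h1]
    calc ∑ i, ∫ s, D i s ∂P ≤ ∑ i, ‖w i‖ ^ 2 * (3 / (1 - ε) * (1 - (1 - ε)) + 9 * δ) :=
          Finset.sum_le_sum fun i _ => hD3 i
      _ = W * (3 / (1 - ε) * (1 - (1 - ε)) + 9 * δ) := by rw [hW, Finset.sum_mul]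
      _ ≤ W * c := by
          refine mul_le_mul_of_nonneg_left ?_ hW0
          rw [hc]
          have : 9 * δ ≤ 9 * ε / (1 - ε) := by
            rw [le_div_iff₀ hα0]
            nlinarith
          have e : 12 * ε / (1 - ε) = 3 / (1 - ε) * (1 - (1 - ε)) + 9 * ε / (1 - ε) := by
            field_simp
            ring
          rw [e]
          linarith
      _ = c * W := mul_comm _ _
  have hFm : Measurable F := Finset.measurable_fun_sum _ fun i _ => (hD1 i).2
  have mB : MeasurableSet {s | c * W / γ < F s} := measurableSet_lt measurable_const hFm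
  have pB : P.real {s | c * W / γ < F s} ≤ γ := by
    by_cases hW1 : W = 0
    · have hFz : ∫ s, F s ∂P = 0 := by
        refine le_antisymm ?_ (integral_nonneg hF0)
        rw [hW1, mul_zero] at hFint
        exact hFint
      have h2 : F =ᵐ[P] 0 := (integral_eq_zero_iff_of_nonneg hF0 hFi).mp hFz
      have h3 : P {s | c * W / γ < F s} = 0 := by
        rw [hW1, mul_zero, zero_div]
        refine measure_mono_null ?_ h2
        intro s hs
        have : 0 < F s := hs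
        show ¬ (F s = (0 : S → ℝ) s)
        exact this.ne'
      rw [Measure.real, h3]
      simpa using hγ.le
    · have hWp : 0 < W := lt_of_le_of_ne hW0 (Ne.symm hW1)
      have h1 := mul_meas_ge_le_integral_of_nonneg (μ := P) (Filter.Eventually.of_forall hF0) hFi
        (c * W / γ)
      have h2 : P.real {s | c * W / γ < F s} ≤ P.real {s | c * W / γ ≤ F s} :=
        measureReal_mono (fun s (hs : c * W / γ < F s) => (le_of_lt hs : c * W / γ ≤ F s))
      have h4 : c * W / γ * P.real {s | c * W / γ ≤ F s} ≤ c * W := h1.trans hFint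
      have h5 : P.real {s | c * W / γ ≤ F s} ≤ γ := by
        rw [div_mul_eq_mul_div, div_le_iff₀ hγ] at h4
        exact le_of_mul_le_mul_left h4 (mul_pos hc0 hWp)
      exact h2.trans h5
  refine ⟨G ∩ {s | c * W / γ < F s}ᶜ, mG.inter mB.compl, ?_, ?_⟩
  · have h1 : P.real (G ∩ {s | c * W / γ < F s}ᶜ)ᶜ ≤ δ + γ := by
      rw [Set.compl_inter, compl_compl]
      have := measureReal_union_le (μ := P) Gᶜ {s | c * W / γ < F s}
      have h2 := prob_compl P _ mG _ pG
      linarith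
    rw [probReal_compl_eq_one_sub (mG.inter mB.compl)] at h1
    linarith
  · rintro s ⟨hsG, hsF⟩
    have hsF' : F s ≤ c * W / γ := not_lt.mp hsF
    obtain ⟨z, hz1, hz2, hz3⟩ := det_part A (Om s) V (1 - ε) hα0 hsG
    have hz4 : ∀ i, ‖z i‖ ^ 2 ≤ D i s := fun i => hD4 i s hsG (z i) (hz1 i) (hz2 i)
    have hWB : W ≤ frob (A - B) ^ 2 := resid_le A B V hVB
    set x : ℝ := 6 * ε / (γ * (1 - ε)) with hx
    have hx0 : 0 < x := by positivity
    have hcx : c * W / γ = 2 * x * W := by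
      rw [hc, hx]
      field_simp
      ring
    have h1 : frob (A - rsvd A (Om s)) ^ 2 ≤ (1 + 2 * x) * W := by
      calc frob (A - rsvd A (Om s)) ^ 2 ≤ ∑ i, (‖w i‖ ^ 2 + ‖z i‖ ^ 2) := hz3
        _ ≤ ∑ i, (‖w i‖ ^ 2 + D i s) := Finset.sum_le_sum fun i _ => by linarith [hz4 i]
        _ = W + F s := by rw [Finset.sum_add_distrib]
        _ ≤ (1 + 2 * x) * W := by rw [hcx] at hsF'; linarith
    have h2 : frob (A - rsvd A (Om s)) ^ 2 ≤ ((1 + x) * frob (A - B)) ^ 2 := by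
      calc frob (A - rsvd A (Om s)) ^ 2 ≤ (1 + 2 * x) * W := h1
        _ ≤ (1 + x) ^ 2 * frob (A - B) ^ 2 := by
            have : (1 + 2 * x) ≤ (1 + x) ^ 2 := by nlinarith
            exact mul_le_mul this hWB hW0 (by positivity)
        _ = _ := by ring
    exact le_of_sq_le_sq h2 (mul_nonneg (by positivity) (frob_nonneg _))

lemma optErr_nonneg {n d : ℕ} (A : Matrix (Fin n) (Fin d) ℝ) (r : ℕ) : 0 ≤ optErr A r := by
  refine Real.sInf_nonneg ?_
  rintro e ⟨B, -, rfl⟩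
  exact frob_nonneg _

theorem q2_main {S : Type} [MeasurableSpace S] (P : Measure S) [IsProbabilityMeasure P]
    {n d k : ℕ} (A : Matrix (Fin n) (Fin d) ℝ) (Om : S → Matrix (Fin d) (Fin k) ℝ) (r : ℕ)
    (hr1 : 1 ≤ r) (hrd : r ≤ d) (ε δ γ : ℝ) (hε0 : 0 < ε) (hε1 : ε < 1) (hδ : δ ≤ ε)
    (hγ : 0 < γ) (h : IsOSI P Om r (1 - ε) δ) :
    ∃ T : Set S, MeasurableSet T ∧ 1 - δ - γ ≤ P.real T ∧
      ∀ s ∈ T, frob (A - rsvd A (Om s)) ≤ (1 + 6 * ε / (γ * (1 - ε))) * optErr A r := by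
  have hex : ∀ m : ℕ, ∃ B : Matrix (Fin n) (Fin d) ℝ, B.rank ≤ r ∧
      frob (A - B) < optErr A r + 1 / ((m : ℝ) + 1) := by
    intro m
    have hne : {e | ∃ B : Matrix (Fin n) (Fin d) ℝ, B.rank ≤ r ∧ e = frob (A - B)}.Nonempty :=
      ⟨frob (A - 0), 0, by simp, rfl⟩
    have hlt : sInf {e | ∃ B : Matrix (Fin n) (Fin d) ℝ, B.rank ≤ r ∧ e = frob (A - B)}
        < optErr A r + 1 / ((m : ℝ) + 1) := by
      have : (0 : ℝ) < 1 / ((m : ℝ) + 1) := by positivity
      show optErr A r < _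
      linarith
    obtain ⟨e, ⟨B, hB, rfl⟩, he⟩ := exists_lt_of_csInf_lt hne hlt
    exact ⟨B, hB, he⟩
  choose B hB1 hB2 using hex
  choose T hT1 hT2 hT3 using fun m =>
    for_B P A Om r hr1 hrd ε δ γ hε0 hε1 hδ hγ h (B m) (hB1 m)
  have hK : 0 ≤ 1 + 6 * ε / (γ * (1 - ε)) := by
    have : 0 < 1 - ε := by linarith
    positivity
  set K := 1 + 6 * ε / (γ * (1 - ε)) with hKdef
  refine ⟨⋂ N : ℕ, ⋃ m ∈ Set.Ici N, T m, ?_, ?_, ?_⟩
  · exact MeasurableSet.iInter fun N => MeasurableSet.biUnion (Set.to_countable _)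
      fun m _ => hT1 m
  · have hanti : Antitone (fun N : ℕ => ⋃ m ∈ Set.Ici N, T m) := by
      intro a b hab
      exact Set.biUnion_subset_biUnion_left (Set.Ici_subset_Ici.mpr hab)
    have hlim := tendsto_measure_iInter_atTop (μ := P) (s := fun N : ℕ => ⋃ m ∈ Set.Ici N, T m)
      (fun N => (MeasurableSet.biUnion (Set.to_countable _) fun m _ => hT1 m).nullMeasurableSet)
      hanti ⟨0, measure_ne_top _ _⟩
    have hlim' : Filter.Tendsto (fun N : ℕ => P.real (⋃ m ∈ Set.Ici N, T m)) Filter.atTop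
        (nhds (P.real (⋂ N : ℕ, ⋃ m ∈ Set.Ici N, T m))) :=
      (ENNReal.tendsto_toReal (measure_ne_top _ _)).comp hlim
    refine ge_of_tendsto' hlim' fun N => (hT2 N).trans (measureReal_mono ?_ (measure_ne_top _ _))
    exact Set.subset_biUnion_of_mem (u := T) (Set.self_mem_Ici)
  · intro s hs
    rw [Set.mem_iInter] at hs
    refine le_of_forall_pos_lt_add fun η hη => ?_
    obtain ⟨N, hN⟩ := exists_nat_one_div_lt (show 0 < η / (K + 1) by positivity)
    have h1 := hs N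
    simp only [Set.mem_iUnion] at h1
    obtain ⟨m, hm, hsm⟩ := h1
    have h2 := hT3 m s hsm
    have hm' : (N : ℝ) ≤ m := by exact_mod_cast hm
    have h3 : 1 / ((m : ℝ) + 1) ≤ 1 / ((N : ℝ) + 1) :=
      one_div_le_one_div_of_le (by positivity) (by linarith)
    have h4 : frob (A - B m) < optErr A r + η / (K + 1) := by
      have := hB2 m
      linarith
    calc frob (A - rsvd A (Om s)) ≤ K * frob (A - B m) := h2
      _ ≤ K * (optErr A r + η / (K + 1)) := mul_le_mul_of_nonneg_left h4.le hK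
      _ = K * optErr A r + (K / (K + 1)) * η := by ring
      _ < K * optErr A r + η := by
          have : K / (K + 1) < 1 := by rw [div_lt_one (by positivity)]; linarith
          nlinarith

end Pool.Agent.H6.Osi
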