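import Mathlib

set_option autoImplicit false

/-!
Projective algebras of plane sets: definitions.
-/

namespace Pool.Agent.H6.ProjAlg

/-- The plane. -/
abbrev Plane : Type := ℝ × ℝ

/-- The first axis. -/
def axisX : Set Plane := {p | p.2 = 0}

/-- The second axis. -/
def axisY : Set Plane := {p | p.1 = 0}

/-- The first projection `{(x,0) : ∃ y, (x,y) ∈ S}`. -/
def pi1 (S : Set Plane) : Set Plane := {p | p.2 = 0 ∧ ∃ y, (p.1, y) ∈ S}

/-- The second projection `{(0,y) : ∃ x, (x,y) ∈ S}`. -/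
def pi2 (S : Set Plane) : Set Plane := {p | p.1 = 0 ∧ ∃ x, (x, p.2) ∈ S}

/-- The product `{(x,y) : (x,0) ∈ A, (0,y) ∈ B}`. -/
def ten (A B : Set Plane) : Set Plane := {p | (p.1, 0) ∈ A ∧ (0, p.2) ∈ B}

/-- A family of plane sets is a projective algebra. -/
structure IsProjAlg (F : Set (Set Plane)) : Prop where
  empty_mem : ∅ ∈ F
  compl_mem : ∀ A ∈ F, Aᶜ ∈ F
  union_mem : ∀ A ∈ F, ∀ B ∈ F, A ∪ B ∈ F
  pi1_mem : ∀ A ∈ F, pi1 A ∈ F
  pi2_mem : ∀ A ∈ F, pi2 A ∈ F
  ten_mem : ∀ A ∈ F, ∀ B ∈ F, A ⊆ axisX → B ⊆ axisY → ten A B ∈ F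

/-- `f` is an isomorphism from the family `F` onto the family `G`: a bijection commuting with
complement, union, both projections, and the product of a subset of the first axis and a subset of
the second axis. -/
structure IsIso (F G : Set (Set Plane)) (f : Set Plane → Set Plane) : Prop where
  bij : Set.BijOn f F G
  compl : ∀ A ∈ F, f Aᶜ = (f A)ᶜ
  union : ∀ A ∈ F, ∀ B ∈ F, f (A ∪ B) = f A ∪ f B
  pi1 : ∀ A ∈ F, f (pi1 A) = pi1 (f A)
  pi2 : ∀ A ∈ F, f (pi2 A) = pi2 (f A)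
  ten : ∀ A ∈ F, ∀ B ∈ F, A ⊆ axisX → B ⊆ axisY → f (ten A B) = ten (f A) (f B)

/-- The projective algebra generated by a family `𝒮`: the intersection of all projective algebras
containing it. -/
def gen (𝒮 : Set (Set Plane)) : Set (Set Plane) :=
  {A | ∀ F : Set (Set Plane), IsProjAlg F → 𝒮 ⊆ F → A ∈ F}

/-- The type of projective algebras of plane sets. -/
structure PAlg : Type where
  carrier : Set (Set Plane)
  isAlg : IsProjAlg carrier

end Pool.Agent.H6.ProjAlg
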