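import Mathlib
import Pool.Agent.H6.ProjAlgDefs

set_option autoImplicit false

namespace Pool.Agent.H6.ProjAlg

lemma IsProjAlg.univ_mem {F : Set (Set Plane)} (h : IsProjAlg F) : Set.univ ∈ F := by
  have := h.compl_mem _ h.empty_mem
  rwa [Set.compl_empty] at this

lemma IsProjAlg.inter_mem {F : Set (Set Plane)} (h : IsProjAlg F) {A B : Set Plane}
    (hA : A ∈ F) (hB : B ∈ F) : A ∩ B ∈ F := by
  have := h.compl_mem _ (h.union_mem _ (h.compl_mem _ hA) _ (h.compl_mem _ hB))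
  rwa [Set.compl_union, compl_compl, compl_compl] at this

lemma pi1_univ : pi1 Set.univ = axisX := by
  ext p; simp [pi1, axisX]

lemma pi2_univ : pi2 Set.univ = axisY := by
  ext p; simp [pi2, axisY]

lemma IsProjAlg.X_mem {F : Set (Set Plane)} (h : IsProjAlg F) : axisX ∈ F := by
  rw [← pi1_univ]; exact h.pi1_mem _ h.univ_mem

lemma IsProjAlg.Y_mem {F : Set (Set Plane)} (h : IsProjAlg F) : axisY ∈ F := by
  rw [← pi2_univ]; exact h.pi2_mem _ h.univ_mem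

lemma ten_eq (A B : Set Plane) : ten A B = ten (A ∩ axisX) (B ∩ axisY) := by
  ext p; simp [ten, axisX, axisY]

lemma IsProjAlg.ten_mem' {F : Set (Set Plane)} (h : IsProjAlg F) {A B : Set Plane}
    (hA : A ∈ F) (hB : B ∈ F) : ten A B ∈ F := by
  rw [ten_eq]
  exact h.ten_mem _ (h.inter_mem hA h.X_mem) _ (h.inter_mem hB h.Y_mem)
    Set.inter_subset_right Set.inter_subset_right

lemma IsIso.empty {F G : Set (Set Plane)} {f : Set Plane → Set Plane} (h : IsIso F G f)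
    (hF : IsProjAlg F) : f ∅ = ∅ := by
  have h1 : f Set.univ = Set.univ := by
    have := h.union ∅ hF.empty_mem ∅ᶜ (hF.compl_mem _ hF.empty_mem)
    rw [h.compl _ hF.empty_mem, Set.union_compl_self, Set.union_compl_self] at this
    exact this
  have h2 := h.compl _ hF.univ_mem
  rw [Set.compl_univ, h1, Set.compl_univ] at h2
  exact h2

lemma IsIso.univ {F G : Set (Set Plane)} {f : Set Plane → Set Plane} (h : IsIso F G f)
    (hF : IsProjAlg F) : f Set.univ = Set.univ := by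
  have := h.compl _ hF.empty_mem
  rwa [h.empty hF, Set.compl_empty] at this

lemma IsIso.inter {F G : Set (Set Plane)} {f : Set Plane → Set Plane} (h : IsIso F G f)
    (hF : IsProjAlg F) {A B : Set Plane} (hA : A ∈ F) (hB : B ∈ F) :
    f (A ∩ B) = f A ∩ f B := by
  have h1 := h.compl _ (hF.union_mem _ (hF.compl_mem _ hA) _ (hF.compl_mem _ hB))
  rw [h.union _ (hF.compl_mem _ hA) _ (hF.compl_mem _ hB), h.compl _ hA, h.compl _ hB,
    Set.compl_union, Set.compl_union, compl_compl, compl_compl, compl_compl, compl_compl] at h1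
  exact h1

lemma IsIso.X {F G : Set (Set Plane)} {f : Set Plane → Set Plane} (h : IsIso F G f)
    (hF : IsProjAlg F) : f axisX = axisX := by
  rw [← pi1_univ, h.pi1 _ hF.univ_mem, h.univ hF]

lemma IsIso.Y {F G : Set (Set Plane)} {f : Set Plane → Set Plane} (h : IsIso F G f)
    (hF : IsProjAlg F) : f axisY = axisY := by
  rw [← pi2_univ, h.pi2 _ hF.univ_mem, h.univ hF]

lemma IsIso.ten' {F G : Set (Set Plane)} {f : Set Plane → Set Plane} (h : IsIso F G f)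
    (hF : IsProjAlg F) {A B : Set Plane} (hA : A ∈ F) (hB : B ∈ F) :
    f (ProjAlg.ten A B) = ProjAlg.ten (f A) (f B) := by
  rw [ten_eq A B, ten_eq (f A) (f B)]
  rw [h.ten _ (hF.inter_mem hA hF.X_mem) _ (hF.inter_mem hB hF.Y_mem)
    Set.inter_subset_right Set.inter_subset_right, h.inter hF hA hF.X_mem, h.inter hF hB hF.Y_mem,
    h.X hF, h.Y hF]

lemma iso_refl (F : Set (Set Plane)) : IsIso F F id :=
  ⟨Set.bijOn_id F, fun _ _ => rfl, fun _ _ _ _ => rfl, fun _ _ => rfl, fun _ _ => rfl,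
    fun _ _ _ _ _ _ => rfl⟩

lemma IsIso.trans {F G H : Set (Set Plane)} {f g : Set Plane → Set Plane} (hF : IsProjAlg F)
    (hf : IsIso F G f) (hg : IsIso G H g) : IsIso F H (g ∘ f) := by
  refine ⟨hg.bij.comp hf.bij, ?_, ?_, ?_, ?_, ?_⟩
  · intro A hA
    simp only [Function.comp]
    rw [hf.compl A hA, hg.compl _ (hf.bij.mapsTo hA)]
  · intro A hA B hB
    simp only [Function.comp]
    rw [hf.union A hA B hB, hg.union _ (hf.bij.mapsTo hA) _ (hf.bij.mapsTo hB)]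
  · intro A hA
    simp only [Function.comp]
    rw [hf.pi1 A hA, hg.pi1 _ (hf.bij.mapsTo hA)]
  · intro A hA
    simp only [Function.comp]
    rw [hf.pi2 A hA, hg.pi2 _ (hf.bij.mapsTo hA)]
  · intro A hA B hB hAX hBY
    simp only [Function.comp]
    rw [hf.ten A hA B hB hAX hBY]
    have h1 : f A ⊆ axisX := by
      have := hf.inter hF hA hF.X_mem
      rw [hf.X hF, Set.inter_eq_left.mpr hAX] at this
      rw [this]
      exact Set.inter_subset_right
    have h2 : f B ⊆ axisY := by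
      have := hf.inter hF hB hF.Y_mem
      rw [hf.Y hF, Set.inter_eq_left.mpr hBY] at this
      rw [this]
      exact Set.inter_subset_right
    rw [hg.ten _ (hf.bij.mapsTo hA) _ (hf.bij.mapsTo hB) h1 h2]

lemma IsIso.symm {F G : Set (Set Plane)} {f : Set Plane → Set Plane} (hF : IsProjAlg F)
    (hf : IsIso F G f) : ∃ g, IsIso G F g := by
  classical
  refine ⟨Function.invFunOn f F, ?_, ?_, ?_, ?_, ?_, ?_⟩
  · exact Set.BijOn.invOn_invFunOn hf.bij |>.symm.bijOn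
      (fun B hB => Function.invFunOn_mem (hf.bij.surjOn hB)) hf.bij.mapsTo
  all_goals
    have hinv : ∀ A ∈ F, Function.invFunOn f F (f A) = A := fun A hA =>
      hf.bij.injOn.leftInvOn_invFunOn hA
  · intro B hB
    obtain ⟨A, hA, rfl⟩ := hf.bij.surjOn hB
    rw [← hf.compl A hA, hinv _ (hF.compl_mem _ hA), hinv _ hA]
  · intro B hB C hC
    obtain ⟨A, hA, rfl⟩ := hf.bij.surjOn hB
    obtain ⟨A', hA', rfl⟩ := hf.bij.surjOn hC
    rw [← hf.union A hA A' hA', hinv _ (hF.union_mem _ hA _ hA'), hinv _ hA, hinv _ hA']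
  · intro B hB
    obtain ⟨A, hA, rfl⟩ := hf.bij.surjOn hB
    rw [← hf.pi1 A hA, hinv _ (hF.pi1_mem _ hA), hinv _ hA]
  · intro B hB
    obtain ⟨A, hA, rfl⟩ := hf.bij.surjOn hB
    rw [← hf.pi2 A hA, hinv _ (hF.pi2_mem _ hA), hinv _ hA]
  · intro B hB C hC _ _
    obtain ⟨A, hA, rfl⟩ := hf.bij.surjOn hB
    obtain ⟨A', hA', rfl⟩ := hf.bij.surjOn hC
    rw [← hf.ten' hF hA hA', hinv _ (hF.ten_mem' hA hA'), hinv _ hA, hinv _ hA']

/-- Terms. -/
inductive PT (k : ℕ) : Type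
  | bot : PT k
  | var : Fin k → PT k
  | compl : PT k → PT k
  | union : PT k → PT k → PT k
  | pi1 : PT k → PT k
  | pi2 : PT k → PT k
  | ten : PT k → PT k → PT k
  deriving Countable

/-- Evaluation of a term. -/
def ev {k : ℕ} (g : Fin k → Set Plane) : PT k → Set Plane
  | .bot => ∅
  | .var i => g i
  | .compl t => (ev g t)ᶜ
  | .union t u => ev g t ∪ ev g u
  | .pi1 t => ProjAlg.pi1 (ev g t)
  | .pi2 t => ProjAlg.pi2 (ev g t)
  | .ten t u => ProjAlg.ten (ev g t) (ev g u)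

lemma ev_mem {k : ℕ} (g : Fin k → Set Plane) (F : Set (Set Plane)) (hF : IsProjAlg F)
    (hg : ∀ i, g i ∈ F) (t : PT k) : ev g t ∈ F := by
  induction t with
  | bot => exact hF.empty_mem
  | var i => exact hg i
  | compl t ih => exact hF.compl_mem _ ih
  | union t u ih1 ih2 => exact hF.union_mem _ ih1 _ ih2
  | pi1 t ih => exact hF.pi1_mem _ ih
  | pi2 t ih => exact hF.pi2_mem _ ih
  | ten t u ih1 ih2 => exact hF.ten_mem' ih1 ih2

lemma ev_iso {k : ℕ} (g : Fin k → Set Plane) (F G : Set (Set Plane)) (hF : IsProjAlg F)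
    (hg : ∀ i, g i ∈ F) (f : Set Plane → Set Plane) (hf : IsIso F G f) (t : PT k) :
    f (ev g t) = ev (fun i => f (g i)) t := by
  induction t with
  | bot => exact hf.empty hF
  | var i => rfl
  | compl t ih => rw [ev, ev, hf.compl _ (ev_mem g F hF hg t), ih]
  | union t u ih1 ih2 =>
    rw [ev, ev, hf.union _ (ev_mem g F hF hg t) _ (ev_mem g F hF hg u), ih1, ih2]
  | pi1 t ih => rw [ev, ev, hf.pi1 _ (ev_mem g F hF hg t), ih]
  | pi2 t ih => rw [ev, ev, hf.pi2 _ (ev_mem g F hF hg t), ih]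
  | ten t u ih1 ih2 =>
    rw [ev, ev, hf.ten' hF (ev_mem g F hF hg t) (ev_mem g F hF hg u), ih1, ih2]

lemma isProjAlg_range {k : ℕ} (g : Fin k → Set Plane) : IsProjAlg (Set.range (ev g)) := by
  refine ⟨⟨.bot, rfl⟩, ?_, ?_, ?_, ?_, ?_⟩
  · rintro _ ⟨t, rfl⟩; exact ⟨.compl t, rfl⟩
  · rintro _ ⟨t, rfl⟩ _ ⟨u, rfl⟩; exact ⟨.union t u, rfl⟩
  · rintro _ ⟨t, rfl⟩; exact ⟨.pi1 t, rfl⟩
  · rintro _ ⟨t, rfl⟩; exact ⟨.pi2 t, rfl⟩
  · rintro _ ⟨t, rfl⟩ _ ⟨u, rfl⟩ _ _; exact ⟨.ten t u, rfl⟩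

lemma gen_eq {k : ℕ} (g : Fin k → Set Plane) : gen (Set.range g) = Set.range (ev g) := by
  apply Set.Subset.antisymm
  · intro A hA
    refine hA _ (isProjAlg_range g) ?_
    rintro _ ⟨i, rfl⟩
    exact ⟨.var i, rfl⟩
  · rintro _ ⟨t, rfl⟩ F hF hS
    exact ev_mem g F hF (fun i => hS ⟨i, rfl⟩) t

lemma isProjAlg_gen (𝒮 : Set (Set Plane)) : IsProjAlg (gen 𝒮) := by
  refine ⟨fun F hF _ => hF.empty_mem, fun A hA F hF h => hF.compl_mem _ (hA F hF h),
    fun A hA B hB F hF h => hF.union_mem _ (hA F hF h) _ (hB F hF h),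
    fun A hA F hF h => hF.pi1_mem _ (hA F hF h), fun A hA F hF h => hF.pi2_mem _ (hA F hF h),
    fun A hA B hB h1 h2 F hF h => hF.ten_mem _ (hA F hF h) _ (hB F hF h) h1 h2⟩

lemma gen_mono {𝒮 𝒯 : Set (Set Plane)} (h : 𝒮 ⊆ gen 𝒯) : gen 𝒮 ⊆ gen 𝒯 :=
  fun _ hA => hA _ (isProjAlg_gen 𝒯) h

lemma subset_gen (𝒮 : Set (Set Plane)) : 𝒮 ⊆ gen 𝒮 := fun _ hA _ _ h => h hA

/-- Equal equational codes give isomorphic algebras. -/
lemma iso_of_code {k : ℕ} (g g' : Fin k → Set Plane)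
    (h : ∀ t u, ev g t = ev g u ↔ ev g' t = ev g' u) :
    ∃ f, IsIso (Set.range (ev g)) (Set.range (ev g')) f := by
  classical
  have hf : ∀ A : Set Plane, ∃ B : Set Plane, ∀ t, ev g t = A → ev g' t = B := by
    intro A
    by_cases hA : ∃ t, ev g t = A
    · obtain ⟨t, ht⟩ := hA
      exact ⟨ev g' t, fun u hu => (h u t).mp (hu.trans ht.symm)⟩
    · exact ⟨∅, fun t ht => absurd ⟨t, ht⟩ hA⟩
  choose f hf using hf
  have hft : ∀ t, f (ev g t) = ev g' t := fun t => (hf _ t rfl).symm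
  refine ⟨f, ⟨?_, ?_, ?_⟩, ?_, ?_, ?_, ?_, ?_⟩
  · rintro _ ⟨t, rfl⟩
    exact ⟨t, (hft t).symm⟩
  · rintro _ ⟨t, rfl⟩ _ ⟨u, rfl⟩ htu
    rw [hft, hft] at htu
    exact (h t u).mpr htu
  · rintro _ ⟨t, rfl⟩
    exact ⟨ev g t, ⟨t, rfl⟩, hft t⟩
  · rintro _ ⟨t, rfl⟩
    rw [hft]; exact hft (.compl t)
  · rintro _ ⟨t, rfl⟩ _ ⟨u, rfl⟩
    rw [hft, hft]; exact hft (.union t u)
  · rintro _ ⟨t, rfl⟩
    rw [hft]; exact hft (.pi1 t)
  · rintro _ ⟨t, rfl⟩
    rw [hft]; exact hft (.pi2 t)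
  · rintro _ ⟨t, rfl⟩ _ ⟨u, rfl⟩ _ _
    rw [hft, hft]; exact hft (.ten t u)

end Pool.Agent.H6.ProjAlg
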