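import Mathlib
import Pool.Agent.H6.ProjAlgDefs
import Pool.Agent.H6.ProjAlgA

set_option autoImplicit false

namespace Pool.Agent.H6.ProjAlg

/-- The test set coding `A ⊆ ℕ`. -/
def SA (A : Set ℕ) : Set Plane :=
  {p | p = (1, 0)} ∪ {p | ∃ n : ℕ, p = ((n : ℝ) + 1, (n : ℝ) + 1)} ∪
    {p | ∃ n : ℕ, p = ((n : ℝ) + 2, (n : ℝ) + 1)} ∪ {p | ∃ n ∈ A, p = (0, (n : ℝ) + 1)}

/-- Derived terms. -/
def tuniv : PT 1 := .compl .bot
def tinter (t u : PT 1) : PT 1 := .compl (.union (.compl t) (.compl u))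
def tdiff (t u : PT 1) : PT 1 := tinter t (.compl u)
def tX : PT 1 := .pi1 tuniv
def tY : PT 1 := .pi2 tuniv
def tS : PT 1 := .var 0
def tR : PT 1 := tdiff tS (.union tX tY)

/-- The terms for the points on the two axes. -/
def tDE : ℕ → PT 1 × PT 1
  | 0 => (tinter tS tX, .pi2 (tinter tR (.ten (tinter tS tX) tY)))
  | n + 1 =>
    let D := tdiff (.pi1 (tinter tR (.ten tX (tDE n).2))) (tDE n).1
    (D, tdiff (.pi2 (tinter tR (.ten D tY))) (tDE n).2)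

lemma ev_inter (g : Fin 1 → Set Plane) (t u : PT 1) :
    ev g (tinter t u) = ev g t ∩ ev g u := by
  simp [tinter, ev, Set.compl_union]

lemma ev_diff (g : Fin 1 → Set Plane) (t u : PT 1) :
    ev g (tdiff t u) = ev g t \ ev g u := by
  rw [tdiff, ev_inter]; rfl

lemma ev_X (g : Fin 1 → Set Plane) : ev g tX = axisX := by
  simp [tX, tuniv, ev, pi1_univ]

lemma ev_Y (g : Fin 1 → Set Plane) : ev g tY = axisY := by
  simp [tY, tuniv, ev, pi2_univ]

/-- The relation part. -/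
def Rel : Set Plane :=
  {p | ∃ n : ℕ, p = ((n : ℝ) + 1, (n : ℝ) + 1)} ∪ {p | ∃ n : ℕ, p = ((n : ℝ) + 2, (n : ℝ) + 1)}

lemma ev_R (A : Set ℕ) : ev (fun _ => SA A) tR = Rel := by
  rw [tR, ev_diff]
  show SA A \ (ev _ tX ∪ ev _ tY) = Rel
  rw [ev_X, ev_Y]
  ext ⟨x, y⟩
  simp only [SA, Rel, axisX, axisY, Set.mem_sdiff, Set.mem_union, Set.mem_ofPred_eq, Prod.mk.injEq]
  constructor
  · rintro ⟨((⟨h1, h2⟩ | h) | h) | ⟨n, hm, h1, h2⟩, hn⟩
    · exact absurd (Or.inl h2) hn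
    · exact Or.inl h
    · exact Or.inr h
    · exact absurd (Or.inr h1) hn
  · rintro (⟨n, h1, h2⟩ | ⟨n, h1, h2⟩)
    · refine ⟨Or.inl (Or.inl (Or.inr ⟨n, h1, h2⟩)), ?_⟩
      have : (0 : ℝ) ≤ n := by positivity
      rintro (h | h)
      · linarith
      · linarith
    · refine ⟨Or.inl (Or.inr ⟨n, h1, h2⟩), ?_⟩
      have : (0 : ℝ) ≤ n := by positivity
      rintro (h | h)
      · linarith
      · linarith

lemma ev_SX (A : Set ℕ) : ev (fun _ => SA A) (tinter tS tX) = {(1, 0)} := by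
  rw [ev_inter, ev_X]
  show SA A ∩ axisX = _
  ext ⟨x, y⟩
  simp only [SA, axisX, Set.mem_inter_iff, Set.mem_union, Set.mem_ofPred_eq, Prod.mk.injEq,
    Set.mem_singleton_iff]
  constructor
  · rintro ⟨((⟨h1, h2⟩ | ⟨n, h1, h2⟩) | ⟨n, h1, h2⟩) | ⟨n, hn, h1, h2⟩, hy⟩
    · exact ⟨h1, h2⟩
    all_goals
      have : (0 : ℝ) ≤ n := by positivity
      exfalso
      linarith
  · rintro ⟨h1, h2⟩
    exact ⟨Or.inl (Or.inl (Or.inl ⟨h1, h2⟩)), h2⟩

lemma step_E (x : ℝ) : pi2 (Rel ∩ ten {(x, 0)} axisY) = {p | p.1 = 0 ∧ (x, p.2) ∈ Rel} := by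
  ext ⟨a, b⟩
  simp only [pi2, ten, axisY, Set.mem_inter_iff, Set.mem_ofPred_eq, Set.mem_singleton_iff,
    Prod.mk.injEq]
  constructor
  · rintro ⟨h, x', h1, ⟨h2, -⟩, -⟩
    rw [h2] at h1
    exact ⟨h, h1⟩
  · rintro ⟨h, h1⟩
    exact ⟨h, x, h1, ⟨rfl, trivial⟩, trivial⟩

lemma step_D (y : ℝ) : pi1 (Rel ∩ ten axisX {(0, y)}) = {p | p.2 = 0 ∧ (p.1, y) ∈ Rel} := by
  ext ⟨a, b⟩
  simp only [pi1, ten, axisX, Set.mem_inter_iff, Set.mem_ofPred_eq, Set.mem_singleton_iff,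
    Prod.mk.injEq]
  constructor
  · rintro ⟨h, y', h1, -, -, h2⟩
    rw [h2] at h1
    exact ⟨h, h1⟩
  · rintro ⟨h, h1⟩
    exact ⟨h, y, h1, trivial, trivial, rfl⟩

lemma rel_iff (x y : ℝ) : (x, y) ∈ Rel ↔ (∃ n : ℕ, x = n + 1 ∧ y = n + 1) ∨
    ∃ n : ℕ, x = n + 2 ∧ y = n + 1 := by
  simp [Rel]

lemma ev_DE (A : Set ℕ) (n : ℕ) :
    ev (fun _ => SA A) (tDE n).1 = {((n : ℝ) + 1, 0)} ∧
    ev (fun _ => SA A) (tDE n).2 = {(0, (n : ℝ) + 1)} := by
  induction n with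
  | zero =>
    constructor
    · show ev _ (tinter tS tX) = _
      rw [ev_SX]
      simp
    · show pi2 (ev _ (tinter tR (.ten (tinter tS tX) tY))) = _
      rw [ev_inter, ev_R]
      show pi2 (Rel ∩ ten (ev _ (tinter tS tX)) (ev _ tY)) = _
      rw [ev_SX, ev_Y, step_E]
      ext ⟨a, b⟩
      simp only [Set.mem_ofPred_eq, rel_iff, Set.mem_singleton_iff, Prod.mk.injEq]
      constructor
      · rintro ⟨h, ⟨n, h1, h2⟩ | ⟨n, h1, h2⟩⟩
        · have : (n : ℝ) = 0 := by linarith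
          refine ⟨h, ?_⟩
          rw [h2, this]
          simp
        · have : (0 : ℝ) ≤ n := by positivity
          exfalso; linarith
      · rintro ⟨h, h1⟩
        refine ⟨h, Or.inl ⟨0, by simp, ?_⟩⟩
        simpa using h1
  | succ n ih =>
    obtain ⟨ih1, ih2⟩ := ih
    have hD : ev (fun _ => SA A) (tDE (n + 1)).1 = {(((n + 1 : ℕ) : ℝ) + 1, 0)} := by
      show ev _ (tdiff (.pi1 (tinter tR (.ten tX (tDE n).2))) (tDE n).1) = _
      rw [ev_diff, ih1]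
      show pi1 (ev _ (tinter tR (.ten tX (tDE n).2))) \ _ = _
      rw [ev_inter, ev_R]
      show pi1 (Rel ∩ ten (ev _ tX) (ev _ (tDE n).2)) \ _ = _
      rw [ih2, ev_X, step_D]
      ext ⟨a, b⟩
      simp only [Set.mem_sdiff, Set.mem_ofPred_eq, rel_iff, Set.mem_singleton_iff, Prod.mk.injEq]
      push_cast
      constructor
      · rintro ⟨⟨h, ⟨m, h1, h2⟩ | ⟨m, h1, h2⟩⟩, hne⟩
        · exact absurd ⟨by linarith, h⟩ hne
        · exact ⟨by linarith, h⟩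
      · rintro ⟨h1, h2⟩
        refine ⟨⟨h2, Or.inr ⟨n, by linarith, rfl⟩⟩, ?_⟩
        rintro ⟨h3, -⟩
        linarith
    refine ⟨hD, ?_⟩
    show ev _ (tdiff (.pi2 (tinter tR (.ten (tDE (n + 1)).1 tY))) (tDE n).2) = _
    rw [ev_diff, ih2]
    show pi2 (ev _ (tinter tR (.ten (tDE (n + 1)).1 tY))) \ _ = _
    rw [ev_inter, ev_R]
    show pi2 (Rel ∩ ten (ev _ (tDE (n + 1)).1) (ev _ tY)) \ _ = _
    rw [hD, ev_Y, step_E]
    ext ⟨a, b⟩
    simp only [Set.mem_sdiff, Set.mem_ofPred_eq, rel_iff, Set.mem_singleton_iff, Prod.mk.injEq]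
    push_cast
    constructor
    · rintro ⟨⟨h, ⟨m, h1, h2⟩ | ⟨m, h1, h2⟩⟩, hne⟩
      · exact ⟨h, by linarith⟩
      · exact absurd ⟨h, by linarith⟩ hne
    · rintro ⟨h1, h2⟩
      refine ⟨⟨h1, Or.inl ⟨n + 1, by push_cast; ring, by push_cast; linarith⟩⟩, ?_⟩
      rintro ⟨-, h3⟩
      linarith

/-- The test term. -/
def tT (n : ℕ) : PT 1 := tinter (tDE n).2 tS

lemma ev_T (A : Set ℕ) (n : ℕ) : ev (fun _ => SA A) (tT n) = ∅ ↔ n ∉ A := by
  rw [tT, ev_inter, (ev_DE A n).2]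
  show {(0, (n : ℝ) + 1)} ∩ SA A = ∅ ↔ _
  rw [Set.singleton_inter_eq_empty]
  have hn0 : (0 : ℝ) ≤ n := by positivity
  have : ((0 : ℝ), (n : ℝ) + 1) ∈ SA A ↔ n ∈ A := by
    simp only [SA, Set.mem_union, Set.mem_ofPred_eq, Prod.mk.injEq]
    constructor
    · rintro (((⟨h1, h2⟩ | ⟨m, h1, h2⟩) | ⟨m, h1, h2⟩) | ⟨m, hm, h1, h2⟩)
      · norm_num at h1
      · have : (0 : ℝ) ≤ m := by positivity
        linarith
      · have : (0 : ℝ) ≤ m := by positivity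
        linarith
      · have : (n : ℝ) = m := by linarith
        have : n = m := by exact_mod_cast this
        rw [this]; exact hm
    · intro h
      exact Or.inr ⟨n, h, trivial, rfl⟩
  rw [this]

/-- Distinct elements of the algebra generated by `SA A`. -/
lemma infinite_gen (A : Set ℕ) : (gen {SA A}).Infinite := by
  have h0 : gen {SA A} = Set.range (ev (fun _ : Fin 1 => SA A)) := by
    rw [← gen_eq]
    congr 1
    simp
  rw [h0]
  refine Set.infinite_of_injective_forall_mem (f := fun n : ℕ => ({(0, (n : ℝ) + 1)} : Set Plane))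
    ?_ ?_
  · intro a b hab
    have h := Set.singleton_injective hab
    simp only [Prod.mk.injEq, true_and, add_left_inj, Nat.cast_inj] at h
    exact h
  · intro n
    exact ⟨(tDE n).2, (ev_DE A n).2⟩

end Pool.Agent.H6.ProjAlg
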