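import Mathlib

set_option autoImplicit false

/-!
Names and Boolean values for the measure algebra of `2^(L × ω)`; the dominating number.
-/

namespace Pool.Agent.H6.RandomNames

open MeasureTheory Set Cardinal

/-- The space `2^(L × ω)`. -/
abbrev Om (L : Type) : Type := L × ℕ → Bool

/-- The fair coin. -/
noncomputable def coin : Measure Bool := (PMF.uniformOfFintype Bool).toMeasure

instance : IsProbabilityMeasure coin := by unfold coin; infer_instance

/-- The product measure on `2^(L × ω)`; its measure algebra adds `|L|` random reals. -/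
noncomputable def rnd (L : Type) : Measure (Om L) := Measure.infinitePi (fun _ : L × ℕ => coin)

/-- A nice name for a subset of `X`: the Boolean value of `x ∈ A` is the class of `A x`. -/
abbrev SetName (L X : Type) : Type := {A : X → Set (Om L) // ∀ x, MeasurableSet (A x)}

/-- A nice name for a relation between `X` and `Y`. -/
abbrev RelName (L X Y : Type) : Type := {A : X → Y → Set (Om L) // ∀ x y, MeasurableSet (A x y)}

/-- The condition `E` forces that the set of natural numbers named by `B` is infinite. -/
def ForcesInfinite {L : Type} (E : Set (Om L)) (B : SetName L ℕ) : Prop :=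
  ∀ m : ℕ, rnd L (E \ ⋃ n ∈ {n : ℕ | m ≤ n}, B.1 n) = 0

/-- The condition `E` forces that `e` names an injection of `X` into the set named by `A`. -/
def ForcesInjection {L X : Type} (E : Set (Om L)) (e : RelName L X X) (A : SetName L X) : Prop :=
  -- `e` is total: no positive part of `E` is disjoint from all the values of `e` at `x`
  (∀ x, ∀ D : Set (Om L), MeasurableSet D → D ⊆ E → 0 < rnd L D →
    ∃ y, 0 < rnd L (D ∩ e.1 x y)) ∧
  -- `e` is single-valued
  (∀ x y y', y ≠ y' → rnd L (E ∩ (e.1 x y ∩ e.1 x y')) = 0) ∧
  -- `e` is injective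
  (∀ x x' y, x ≠ x' → rnd L (E ∩ (e.1 x y ∩ e.1 x' y)) = 0) ∧
  -- the values are in the set named by `A`
  (∀ x y, rnd L ((E ∩ e.1 x y) \ A.1 y) = 0)

/-- The condition `E` forces that the colouring named by `c` (the Boolean value of
`c (x, n) = 1` is `c x n`) has the constant value `i` on `A × B`. -/
def ForcesConstant {L X : Type} (E : Set (Om L)) (c : RelName L X ℕ) (A : SetName L X)
    (B : SetName L ℕ) (i : Bool) : Prop :=
  ∀ x n, rnd L (E ∩ (A.1 x ∩ (B.1 n ∩ {w | ¬ (w ∈ c.1 x n ↔ i = true)}))) = 0

/-- It is forced by the measure algebra of `2^(L × ω)` that the strong polarized relation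
`(X, ω) → (X, ω)` fails: there is a name `c` for a colouring such that no condition forces, for
some names `A`, `B`, that `A ⊆ X` has the cardinality of `X`, `B ⊆ ω` is infinite and `c` is
constant on `A × B`. -/
def RandomForcesFailure (L X : Type) : Prop :=
  ∃ c : RelName L X ℕ, ¬ ∃ (E : Set (Om L)) (A : SetName L X) (B : SetName L ℕ)
    (e : RelName L X X) (i : Bool), MeasurableSet E ∧ 0 < rnd L E ∧
      ForcesInfinite E B ∧ ForcesInjection E e A ∧ ForcesConstant E c A B i

/-- Dominating families. -/
def Dominating (F : Set (ℕ → ℕ)) : Prop :=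
  ∀ g : ℕ → ℕ, ∃ f ∈ F, ∀ᶠ n in Filter.atTop, g n ≤ f n

/-- The dominating number. -/
noncomputable def dom : Cardinal.{0} := sInf {k | ∃ F : Set (ℕ → ℕ), Dominating F ∧ #F = k}

end Pool.Agent.H6.RandomNames
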