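import Pool.Agent.H6.RandomDefs

set_option autoImplicit false

namespace Pool.Agent.H6.RandomNames

open MeasureTheory Set Cardinal ProbabilityTheory

instance (L : Type) : IsProbabilityMeasure (rnd L) := by unfold rnd; infer_instance

theorem coin_singleton (b : Bool) : coin {b} = 1 / 2 := by
  unfold coin
  rw [PMF.toMeasure_apply_singleton _ _ (measurableSet_singleton b)]
  simp

/-- The sigma algebra of the coordinates in `S × ω`. -/
@[reducible]
def sg (L : Type) (S : Set L) : MeasurableSpace (Om L) :=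
  ⨆ p ∈ {p : L × ℕ | p.1 ∈ S}, MeasurableSpace.comap (fun w : Om L => w p) inferInstance

theorem sg_mono (L : Type) {S T : Set L} (h : S ⊆ T) : sg L S ≤ sg L T := by
  unfold sg
  refine iSup₂_le fun p hp => ?_
  exact le_iSup₂_of_le p (h hp) le_rfl

theorem sg_le (L : Type) (S : Set L) : sg L S ≤ MeasurableSpace.pi := by
  unfold sg
  refine iSup₂_le fun p _ => ?_
  exact measurable_iff_comap_le.1 (measurable_pi_apply p)

theorem sg_coord (L : Type) (S : Set L) (p : L × ℕ) (hp : p.1 ∈ S) :
    Measurable[sg L S] (fun w : Om L => w p) := by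
  refine measurable_iff_comap_le.2 ?_
  exact le_iSup₂_of_le (f := fun (p : L × ℕ) (_ : p ∈ {p : L × ℕ | p.1 ∈ S}) =>
    MeasurableSpace.comap (fun w : Om L => w p) inferInstance) p hp le_rfl

/-- Measurable sets have countable support. -/
theorem exists_supp (L : Type) (s : Set (Om L)) (hs : MeasurableSet s) :
    ∃ S : Set L, S.Countable ∧ MeasurableSet[sg L S] s := by
  let mc : MeasurableSpace (Om L) :=
    { MeasurableSet' := fun s => ∃ S : Set L, S.Countable ∧ MeasurableSet[sg L S] s
      measurableSet_empty := ⟨∅, countable_empty, @MeasurableSet.empty _ (sg L ∅)⟩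
      measurableSet_compl := by
        rintro s ⟨S, hS, hs⟩
        exact ⟨S, hS, @MeasurableSet.compl _ s (sg L S) hs⟩
      measurableSet_iUnion := by
        intro f hf
        choose S hS hf using hf
        refine ⟨⋃ n, S n, countable_iUnion hS, ?_⟩
        refine @MeasurableSet.iUnion _ ℕ (sg L (⋃ n, S n)) _ f fun n => ?_
        exact sg_mono L (subset_iUnion S n) _ (hf n) }
  have hle : (MeasurableSpace.pi : MeasurableSpace (Om L)) ≤ mc := by
    refine iSup_le fun p => ?_
    intro t ht
    refine ⟨{p.1}, countable_singleton _, ?_⟩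
    have := sg_coord L {p.1} p rfl
    exact measurable_iff_comap_le.1 this t ht
  exact hle s hs

theorem indep (L : Type) (S : Set L) (a : L) (ha : a ∉ S) : Indep (sg L S) (sg L {a}) (rnd L) := by
  have h1 : iIndepFun (fun (p : L × ℕ) (w : Om L) => w p) (rnd L) := by
    unfold rnd
    exact iIndepFun_infinitePi (X := fun _ x => x) (fun _ => measurable_id)
  have h2 := indep_iSup_of_disjoint (m := fun p : L × ℕ =>
    MeasurableSpace.comap (fun w : Om L => w p) inferInstance) (μ := rnd L)
    (fun p => measurable_iff_comap_le.1 (measurable_pi_apply p)) h1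
    (S := {p : L × ℕ | p.1 ∈ S}) (T := {p : L × ℕ | p.1 ∈ ({a} : Set L)}) (by
      refine Set.disjoint_left.2 ?_
      intro p hp hp'
      exact ha ((show p.1 = a from hp') ▸ hp))
  exact h2

/-- A random real is not constant on a given infinite set. -/
theorem const_null (L : Type) (a : L) (x : ℕ → Bool) (hx : {n | x n = true}.Infinite) (i : Bool) :
    rnd L {w | ∀ n, x n = true → w (a, n) = i} = 0 := by
  have key : ∀ k : ℕ, rnd L {w | ∀ n, x n = true → w (a, n) = i} ≤ (1 / 2) ^ k := by
    intro k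
    obtain ⟨F, hF, hk⟩ := hx.exists_subset_card_eq k
    have hsub : {w : Om L | ∀ n, x n = true → w (a, n) = i} ⊆
        Set.pi (F.map ⟨fun n => (a, n), fun n m h => (Prod.ext_iff.1 h).2⟩ : Finset (L × ℕ))
          (fun _ => ({i} : Set Bool)) := by
      intro w hw p hp
      rw [Finset.mem_coe, Finset.mem_map] at hp
      obtain ⟨n, hn, rfl⟩ := hp
      exact hw n (hF hn)
    refine (measure_mono hsub).trans ?_
    unfold rnd
    rw [Measure.infinitePi_pi]
    · simp only [coin_singleton, Finset.prod_const, Finset.card_map, hk]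
      exact le_rfl
    · intro p _
      exact measurableSet_singleton i
  have h2 : Filter.Tendsto (fun k : ℕ => ((1 / 2 : ENNReal)) ^ k) Filter.atTop (nhds 0) := by
    refine ENNReal.tendsto_pow_atTop_nhds_zero_of_lt_one ?_
    rw [one_div]
    exact ENNReal.inv_lt_one.2 (by norm_num)
  exact le_antisymm (ge_of_tendsto' h2 key) zero_le

/-- The main estimate. -/
theorem null_of_indep (L : Type) (S : Set L) (a : L) (ha : a ∉ S) (B : ℕ → Set (Om L))
    (hB : ∀ n, MeasurableSet[sg L S] (B n)) (i : Bool) :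
    rnd L {w | {n | w ∈ B n}.Infinite ∧ ∀ n, w ∈ B n → w (a, n) = i} = 0 := by
  classical
  let X : Om L → (ℕ → Bool) := fun w n => decide (w ∈ B n)
  let Y : Om L → (ℕ → Bool) := fun w n => w (a, n)
  have hXS : Measurable[sg L S] X := by
    refine (@measurable_pi_iff _ _ _ (sg L S) _ _).2 fun n => ?_
    refine @measurable_to_bool _ (sg L S) _ ?_
    have : (fun w => X w n) ⁻¹' {true} = B n := by
      ext w; simp [X]
    rw [this]
    exact hB n
  have hYa : Measurable[sg L {a}] Y := by
    refine (@measurable_pi_iff _ _ _ (sg L {a}) _ _).2 fun n => ?_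
    exact sg_coord L {a} (a, n) rfl
  have hX : Measurable X := hXS.mono (sg_le L S) le_rfl
  have hY : Measurable Y := hYa.mono (sg_le L {a}) le_rfl
  have hind : IndepFun X Y (rnd L) := by
    rw [IndepFun_iff_Indep]
    have h1 := indep L S a ha
    refine indep_of_indep_of_le_left (indep_of_indep_of_le_right h1 ?_) ?_
    · exact measurable_iff_comap_le.1 hYa
    · exact measurable_iff_comap_le.1 hXS
  have hlaw := (indepFun_iff_map_prod_eq_prod_map_map hX.aemeasurable hY.aemeasurable).1 hind
  let W : Set ((ℕ → Bool) × (ℕ → Bool)) :=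
    {q | {n | q.1 n = true}.Infinite ∧ ∀ n, q.1 n = true → q.2 n = i}
  have hWm : MeasurableSet W := by
    have e1 : W = (⋂ m : ℕ, ⋃ n : ℕ, ⋃ (_ : m ≤ n), {q : (ℕ → Bool) × (ℕ → Bool) | q.1 n = true}) ∩
        ⋂ n : ℕ, ({q : (ℕ → Bool) × (ℕ → Bool) | q.1 n = true}ᶜ ∪
          {q : (ℕ → Bool) × (ℕ → Bool) | q.2 n = i}) := by
      ext q
      simp only [W, Set.mem_inter_iff, Set.mem_iInter, Set.mem_iUnion, Set.mem_union,
        Set.mem_compl_iff, Set.mem_ofPred_eq]
      refine and_congr ?_ ?_
      · rw [Set.infinite_iff_exists_gt]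
        constructor
        · intro h m
          obtain ⟨n, hn, hmn⟩ := h m
          exact ⟨n, hmn.le, hn⟩
        · intro h m
          obtain ⟨n, hmn, hn⟩ := h (m + 1)
          exact ⟨n, hn, by omega⟩
      · refine forall_congr' fun n => ?_
        tauto
    rw [e1]
    have f1 : ∀ n, Measurable (fun q : (ℕ → Bool) × (ℕ → Bool) => q.1 n) := fun n =>
      (measurable_pi_apply n).comp measurable_fst
    have f2 : ∀ n, Measurable (fun q : (ℕ → Bool) × (ℕ → Bool) => q.2 n) := fun n =>
      (measurable_pi_apply n).comp measurable_snd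
    have m1 : ∀ n, MeasurableSet {q : (ℕ → Bool) × (ℕ → Bool) | q.1 n = true} := fun n => by
      have := f1 n (measurableSet_singleton true)
      exact this
    have m2 : ∀ n, MeasurableSet {q : (ℕ → Bool) × (ℕ → Bool) | q.2 n = i} := fun n => by
      have := f2 n (measurableSet_singleton i)
      exact this
    refine MeasurableSet.inter ?_ ?_
    · exact MeasurableSet.iInter fun m => MeasurableSet.iUnion fun n =>
        MeasurableSet.iUnion fun _ => m1 n
    · exact MeasurableSet.iInter fun n => (m1 n).compl.union (m2 n)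
  have hpre : {w | {n | w ∈ B n}.Infinite ∧ ∀ n, w ∈ B n → w (a, n) = i} =
      (fun w => (X w, Y w)) ⁻¹' W := by
    ext w
    simp only [W, X, Y, Set.mem_preimage, Set.mem_ofPred_eq, decide_eq_true_eq]
  rw [hpre, ← Measure.map_apply (hX.prodMk hY) hWm, hlaw, Measure.measure_prod_null hWm]
  refine Filter.Eventually.of_forall fun x => ?_
  change (Measure.map Y (rnd L)) (Prod.mk x ⁻¹' W) = 0
  rw [Measure.map_apply hY (measurable_prodMk_left hWm)]
  by_cases hx : {n | x n = true}.Infinite
  · refine measure_mono_null ?_ (const_null L a x hx i)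
    intro w hw
    exact hw.2
  · have : Y ⁻¹' (Prod.mk x ⁻¹' W) = ∅ := by
      ext w
      simp only [Set.mem_preimage, Set.mem_empty_iff_false, iff_false]
      exact fun h => hx h.1
    rw [this, measure_empty]

theorem failure (L X : Type) (j : X → L) (hj : Function.Injective j) (hX : Uncountable X) :
    RandomForcesFailure L X := by
  let c : RelName L X ℕ := ⟨fun x n => {w | w (j x, n) = true}, fun x n => by
    have h := (measurable_pi_apply (X := fun _ : L × ℕ => Bool) (j x, n))
      (measurableSet_singleton true)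
    exact h⟩
  refine ⟨c, ?_⟩
  rintro ⟨E, A, B, e, i, hE, hEpos, hinf, ⟨htot, _, hinj, hval⟩, hconst⟩
  -- countable support
  choose S hSc hS using fun n => exists_supp L (B.1 n) (B.2 n)
  set T : Set L := ⋃ n, S n with hT
  have hTc : T.Countable := countable_iUnion hSc
  have hBT : ∀ n, MeasurableSet[sg L T] (B.1 n) := fun n =>
    sg_mono L (subset_iUnion S n) _ (hS n)
  -- outside of the support the Boolean value of `x ∈ A` is null below `E`
  have hAnull : ∀ x, j x ∉ T → rnd L (E ∩ A.1 x) = 0 := by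
    intro x hx
    have h1 := null_of_indep L T (j x) hx (fun n => B.1 n) hBT i
    have h2 : E ∩ A.1 x ⊆ (⋃ m : ℕ, (E \ ⋃ n ∈ {n : ℕ | m ≤ n}, B.1 n)) ∪
        ((⋃ n : ℕ, (E ∩ (A.1 x ∩ (B.1 n ∩ {w | ¬ (w ∈ c.1 x n ↔ i = true)})))) ∪
          {w | {n | w ∈ B.1 n}.Infinite ∧ ∀ n, w ∈ B.1 n → w (j x, n) = i}) := by
      intro w hw
      by_cases h3 : ∃ m : ℕ, w ∉ ⋃ n ∈ {n : ℕ | m ≤ n}, B.1 n
      · obtain ⟨m, hm⟩ := h3
        exact Or.inl (mem_iUnion.2 ⟨m, hw.1, hm⟩)
      by_cases h4 : ∃ n, w ∈ B.1 n ∧ ¬ (w ∈ c.1 x n ↔ i = true)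
      · obtain ⟨n, hn1, hn2⟩ := h4
        exact Or.inr (Or.inl (mem_iUnion.2 ⟨n, hw.1, hw.2, hn1, hn2⟩))
      refine Or.inr (Or.inr ⟨?_, ?_⟩)
      · push Not at h3
        rw [Set.infinite_iff_exists_gt]
        intro m
        have h5 := h3 (m + 1)
        simp only [mem_iUnion, exists_prop] at h5
        obtain ⟨n, hn1, hn2⟩ := h5
        have hn1' : m + 1 ≤ n := hn1
        exact ⟨n, hn2, by omega⟩
      · intro n hn
        push Not at h4
        have h6 := h4 n hn
        have h7 : w ∈ c.1 x n ↔ w (j x, n) = true := Iff.rfl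
        rw [h7] at h6
        cases hi : i
        · cases hwx : w (j x, n)
          · rfl
          · exfalso
            have := h6.1 hwx
            rw [hi] at this
            exact Bool.false_ne_true this
        · exact h6.2 hi
    refine measure_mono_null h2 ?_
    rw [measure_union_null_iff, measure_union_null_iff, measure_iUnion_null_iff,
      measure_iUnion_null_iff]
    exact ⟨fun m => hinf m, fun n => hconst x n, h1⟩
  -- values of the injection
  have hpos : ∀ x, ∃ y, j y ∈ T ∧ 0 < rnd L (E ∩ e.1 x y) := by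
    intro x
    obtain ⟨y, hy⟩ := htot x E hE (subset_refl E) hEpos
    refine ⟨y, ?_, hy⟩
    by_contra hyT
    have h1 := hAnull y hyT
    have h2 := hval x y
    have h3 : E ∩ e.1 x y ⊆ ((E ∩ e.1 x y) \ A.1 y) ∪ (E ∩ A.1 y) := by
      intro w hw
      by_cases h4 : w ∈ A.1 y
      · exact Or.inr ⟨hw.1, h4⟩
      · exact Or.inl ⟨hw, h4⟩
    have h5 : rnd L (E ∩ e.1 x y) = 0 :=
      measure_mono_null h3 ((measure_union_null_iff).2 ⟨h2, h1⟩)
    exact absurd h5 hy.ne'
  have hcount : ∀ y, {x | 0 < rnd L (E ∩ e.1 x y)}.Countable := by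
    intro y
    refine Measure.countable_meas_pos_of_disjoint_of_meas_iUnion_ne_top₀ (rnd L)
      (As := fun x => E ∩ e.1 x y) (fun x => (hE.inter (e.2 x y)).nullMeasurableSet) ?_
      (measure_ne_top _ _)
    intro x x' hxx'
    have h1 := hinj x x' y hxx'
    refine measure_mono_null ?_ h1
    rintro w ⟨⟨h2, h3⟩, _, h4⟩
    exact ⟨h2, h3, h4⟩
  have hall : (Set.univ : Set X) ⊆ ⋃ y ∈ j ⁻¹' T, {x | 0 < rnd L (E ∩ e.1 x y)} := by
    intro x _
    obtain ⟨y, hy, hxy⟩ := hpos x
    exact mem_biUnion hy hxy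
  have hc : (Set.univ : Set X).Countable :=
    ((hTc.preimage hj).biUnion fun y _ => hcount y).mono hall
  exact not_countable_iff.2 hX (countable_univ_iff.1 hc)

theorem dom_uncountable : ℵ₀ < dom := by
  have hne : {k : Cardinal.{0} | ∃ F : Set (ℕ → ℕ), Dominating F ∧ #F = k}.Nonempty :=
    ⟨_, Set.univ, fun g => ⟨g, mem_univ _, Filter.Eventually.of_forall fun _ => le_rfl⟩, rfl⟩
  obtain ⟨F, hF, hcard⟩ := csInf_mem hne
  have hdom : #F = dom := hcard
  rw [← hdom]
  by_contra hcon
  rw [not_lt, Cardinal.mk_le_aleph0_iff] at hcon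
  have hFc : F.Countable := Set.countable_coe_iff.1 hcon
  have hFne : F.Nonempty := by
    obtain ⟨f, hf, _⟩ := hF 0
    exact ⟨f, hf⟩
  obtain ⟨u, rfl⟩ := hFc.exists_eq_range hFne
  let g : ℕ → ℕ := fun k => (Finset.range (k + 1)).sup (fun n => u n k) + 1
  obtain ⟨_, ⟨n, rfl⟩, hn⟩ := hF g
  rw [Filter.eventually_atTop] at hn
  obtain ⟨N, hN⟩ := hn
  have h1 := hN (max N n) (le_max_left _ _)
  have h2 : u n (max N n) ≤ (Finset.range (max N n + 1)).sup (fun m => u m (max N n)) :=
    Finset.le_sup (f := fun m => u m (max N n)) (Finset.mem_range.2 (by omega))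
  simp only [g] at h1
  omega

end Pool.Agent.H6.RandomNames
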