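import Mathlib

set_option autoImplicit false

/-! Watson's question: the topological / combinatorial part. -/

namespace Pool.Agent.H6.SPair

open Set Topology

abbrev Cantor := ℕ → Bool

/-- The transformed sequence. -/
def Z (X : Cantor) (j : ℕ) : Bool :=
  if j % 2 = 0 then xor (X j) (xor (X (j + 1)) (X (j + 2))) else xor (X j) (X (j + 1))

/-- The set of true literals of `X`. -/
def A (X : Cantor) : Set ℕ := {y | X (y / 2) = (y % 2 == 1)}

/-- The set of true literals of `Z X`. -/
def B (X : Cantor) : Set ℕ := {y | Z X (y / 2) = (y % 2 == 1)}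

def flip (X : Cantor) (l : ℕ) : Cantor := fun i => if i = l then !X i else X i

def flip3 (X : Cantor) (q : ℕ) : Cantor :=
  fun i => if i = 2 * q + 1 ∨ i = 2 * q + 2 ∨ i = 2 * q + 3 then !X i else X i

lemma flip_self (X : Cantor) (l : ℕ) : flip X l l = !X l := by simp [flip]

lemma flip_ne (X : Cantor) {l i : ℕ} (h : i ≠ l) : flip X l i = X i := by simp [flip, h]

lemma Z_flip_succ (X : Cantor) (j : ℕ) : Z (flip X (j + 1)) j = !Z X j := by
  unfold Z
  split_ifs with h
  · rw [flip_self, flip_ne X (by omega : j ≠ j + 1), flip_ne X (by omega : j + 2 ≠ j + 1)]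
    cases X j <;> cases X (j + 1) <;> cases X (j + 2) <;> rfl
  · rw [flip_self, flip_ne X (by omega : j ≠ j + 1)]
    cases X j <;> cases X (j + 1) <;> rfl

lemma flip3_pos (X : Cantor) (q : ℕ) {i : ℕ} (h : i = 2 * q + 1 ∨ i = 2 * q + 2 ∨ i = 2 * q + 3) :
    flip3 X q i = !X i := if_pos h

lemma flip3_neg (X : Cantor) (q : ℕ) {i : ℕ}
    (h : ¬ (i = 2 * q + 1 ∨ i = 2 * q + 2 ∨ i = 2 * q + 3)) : flip3 X q i = X i := if_neg h

lemma Z_flip3 (X : Cantor) (q j : ℕ) (hj : j ≠ 2 * q + 3) : Z (flip3 X q) j = Z X j := by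
  unfold Z
  split_ifs with h
  · rcases lt_or_ge j (2 * q) with h1 | h1
    · rw [flip3_neg X q (by omega), flip3_neg X q (by omega), flip3_neg X q (by omega)]
    · rcases eq_or_ne j (2 * q) with h2 | h2
      · rw [flip3_neg X q (i := j) (by omega), flip3_pos X q (i := j + 1) (by omega),
          flip3_pos X q (i := j + 2) (by omega)]
        cases X j <;> cases X (j + 1) <;> cases X (j + 2) <;> rfl
      · rcases eq_or_ne j (2 * q + 2) with h3 | h3
        · rw [flip3_pos X q (i := j) (by omega), flip3_pos X q (i := j + 1) (by omega),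
            flip3_neg X q (i := j + 2) (by omega)]
          cases X j <;> cases X (j + 1) <;> cases X (j + 2) <;> rfl
        · rw [flip3_neg X q (by omega), flip3_neg X q (by omega), flip3_neg X q (by omega)]
  · rcases eq_or_ne j (2 * q + 1) with h2 | h2
    · rw [flip3_pos X q (i := j) (by omega), flip3_pos X q (i := j + 1) (by omega)]
      cases X j <;> cases X (j + 1) <;> rfl
    · rw [flip3_neg X q (by omega), flip3_neg X q (by omega)]

/-- The basic neighbourhoods. -/
def cyl (X : Cantor) (m : ℕ) : Set Cantor := {X' | ∀ i < m, X' i = X i}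

lemma self_mem_cyl (X : Cantor) (m : ℕ) : X ∈ cyl X m := fun _ _ => rfl

lemma isOpen_cyl (X : Cantor) (m : ℕ) : IsOpen (cyl X m) := by
  have : cyl X m = ⋂ i ∈ Finset.range m, {X' : Cantor | X' i = X i} := by
    ext X'; simp [cyl]
  rw [this]
  apply isOpen_biInter_finset
  intro i _
  have hc : Continuous fun X' : Cantor => X' i := continuous_apply i
  exact (isOpen_discrete ({X i} : Set Bool)).preimage hc

lemma exists_cyl {U : Set Cantor} (hU : IsOpen U) {X : Cantor} (hX : X ∈ U) :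
    ∃ m, cyl X m ⊆ U := by
  obtain ⟨I, u, h1, h2⟩ := isOpen_pi_iff.1 hU X hX
  refine ⟨I.sup id + 1, fun X' hX' => h2 ?_⟩
  intro i hi
  have : i < I.sup id + 1 := Nat.lt_succ_of_le (Finset.le_sup (f := id) hi)
  rw [hX' i this]
  exact (h1 i hi).2

lemma continuous_Z (j : ℕ) : Continuous fun X : Cantor => Z X j := by
  unfold Z
  split_ifs with h
  · have hf : Continuous fun p : Bool × (Bool × Bool) => xor p.1 (xor p.2.1 p.2.2) :=
      continuous_of_discreteTopology
    have hg : Continuous fun X : Cantor => (X j, (X (j + 1), X (j + 2))) :=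
      (continuous_apply j).prodMk ((continuous_apply (j + 1)).prodMk (continuous_apply (j + 2)))
    exact hf.comp hg
  · have hf : Continuous fun p : Bool × Bool => xor p.1 p.2 := continuous_of_discreteTopology
    have hg : Continuous fun X : Cantor => (X j, X (j + 1)) :=
      (continuous_apply j).prodMk (continuous_apply (j + 1))
    exact hf.comp hg

lemma isClopen_A (y : ℕ) : IsClopen {X : Cantor | y ∈ A X} := by
  have hc : Continuous fun X : Cantor => X (y / 2) := continuous_apply (y / 2)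
  exact (isClopen_discrete ({(y % 2 == 1)} : Set Bool)).preimage hc

lemma isClopen_B (y : ℕ) : IsClopen {X : Cantor | y ∈ B X} :=
  (isClopen_discrete ({(y % 2 == 1)} : Set Bool)).preimage (continuous_Z (y / 2))

/-- Computably enumerable in the sense of the frozen statement. -/
def CE2 (W : Set (ℕ × ℕ)) : Prop :=
  ∃ f : ℕ × ℕ →. ℕ, Partrec f ∧ ∀ p : ℕ × ℕ, (f p).Dom ↔ p ∈ W

def CE1 (W : Set ℕ) : Prop :=
  ∃ f : ℕ →. ℕ, Partrec f ∧ ∀ n : ℕ, (f n).Dom ↔ n ∈ W

lemma countable_CE {α : Type} [Primcodable α] :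
    {W : Set α | ∃ f : α →. ℕ, Partrec f ∧ ∀ p : α, (f p).Dom ↔ p ∈ W}.Countable := by
  have : {W : Set α | ∃ f : α →. ℕ, Partrec f ∧ ∀ p : α, (f p).Dom ↔ p ∈ W} ⊆
      Set.range (fun c : Nat.Partrec.Code => {p : α | (c.eval (Encodable.encode p)).Dom}) := by
    rintro W ⟨f, hf, hW⟩
    obtain ⟨c, hc⟩ := Nat.Partrec.Code.exists_code.1 hf
    refine ⟨c, ?_⟩
    ext p
    simp only [mem_ofPred_eq]
    rw [← hW p, hc]
    simp
  exact (Set.countable_range _).mono this

/-- `E W x`: some literal of `X` puts `x` into the set coded by `W`. -/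
def E (W : Set (ℕ × ℕ)) (x : ℕ) : Set Cantor := {X | ∃ y ∈ A X, (x, y) ∈ W}
def F (W : Set (ℕ × ℕ)) (x : ℕ) : Set Cantor := {X | ∃ y ∈ B X, (x, y) ∈ W}

lemma isOpen_E (W : Set (ℕ × ℕ)) (x : ℕ) : IsOpen (E W x) := by
  have : E W x = ⋃ y : ℕ, ⋃ _ : (x, y) ∈ W, {X : Cantor | y ∈ A X} := by
    ext X; simp only [E, mem_ofPred_eq, mem_iUnion, exists_prop]
    exact ⟨fun ⟨y, h1, h2⟩ => ⟨y, h2, h1⟩, fun ⟨y, h1, h2⟩ => ⟨y, h2, h1⟩⟩
  rw [this]
  exact isOpen_iUnion fun y => isOpen_iUnion fun _ => (isClopen_A y).isOpen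

lemma isOpen_F (W : Set (ℕ × ℕ)) (x : ℕ) : IsOpen (F W x) := by
  have : F W x = ⋃ y : ℕ, ⋃ _ : (x, y) ∈ W, {X : Cantor | y ∈ B X} := by
    ext X; simp only [F, mem_ofPred_eq, mem_iUnion, exists_prop]
    exact ⟨fun ⟨y, h1, h2⟩ => ⟨y, h2, h1⟩, fun ⟨y, h1, h2⟩ => ⟨y, h2, h1⟩⟩
  rw [this]
  exact isOpen_iUnion fun y => isOpen_iUnion fun _ => (isClopen_B y).isOpen

/-- Robust disagreement. -/
def N (W W' : Set (ℕ × ℕ)) : Set Cantor :=
  ⋃ x : ℕ, interior {X | ¬ (X ∈ E W x ↔ X ∈ F W' x)}

lemma isOpen_N (W W' : Set (ℕ × ℕ)) : IsOpen (N W W') := isOpen_iUnion fun _ => isOpen_interior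

/-- The open dense set of points off the boundary of an open set. -/
def off (U : Set Cantor) : Set Cantor := U ∪ (closure U)ᶜ

lemma isOpen_off {U : Set Cantor} (hU : IsOpen U) : IsOpen (off U) :=
  hU.union isClosed_closure.isOpen_compl

lemma dense_off (U : Set Cantor) : Dense (off U) := by
  intro X
  by_cases h : X ∈ closure U
  · exact closure_mono subset_union_left h
  · exact subset_closure (Or.inr h)

lemma dense_of_flip {S : Set Cantor} (h : ∀ X : Cantor, ∀ m, ∃ X' ∈ cyl X m, X' ∈ S) :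
    Dense S := by
  rw [dense_iff_inter_open]
  rintro U hU ⟨X, hX⟩
  obtain ⟨m, hm⟩ := exists_cyl hU hX
  obtain ⟨X', h1, h2⟩ := h X m
  exact ⟨X', hm h1, h2⟩

lemma flip_mem_cyl (X : Cantor) {l m : ℕ} (h : m ≤ l) : flip X l ∈ cyl X m := by
  intro i hi
  exact flip_ne X (by omega)

lemma A_flip (X : Cantor) (y : ℕ) : y ∈ A (flip X (y / 2)) ↔ y ∉ A X := by
  simp only [A, mem_ofPred_eq, flip_self]
  cases X (y / 2) <;> cases (y % 2 == 1) <;> simp

lemma B_flip (X : Cantor) (y : ℕ) : y ∈ B (flip X (y / 2 + 1)) ↔ y ∉ B X := by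
  simp only [B, mem_ofPred_eq, Z_flip_succ]
  cases Z X (y / 2) <;> cases (y % 2 == 1) <;> simp

lemma neA_open_dense (W : Set ℕ) : IsOpen {X : Cantor | A X ≠ W} ∧ Dense {X : Cantor | A X ≠ W} := by
  constructor
  · have : {X : Cantor | A X ≠ W} = ⋃ y : ℕ, {X : Cantor | ¬ (y ∈ A X ↔ y ∈ W)} := by
      ext X
      simp only [mem_ofPred_eq, mem_iUnion, ne_eq, Set.ext_iff, not_forall]
    rw [this]
    refine isOpen_iUnion fun y => ?_
    by_cases hy : y ∈ W
    · simp only [hy, iff_true]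
      exact (isClopen_A y).compl.isOpen
    · simp only [hy, iff_false, not_not]
      exact (isClopen_A y).isOpen
  · apply dense_of_flip
    intro X m
    by_cases h : A X = W
    · refine ⟨flip X m, flip_mem_cyl X le_rfl, ?_⟩
      intro h'
      have h1 := A_flip X (2 * m)
      rw [show 2 * m / 2 = m by omega, h', ← h] at h1
      tauto
    · exact ⟨X, self_mem_cyl X m, h⟩

lemma neB_open_dense (W : Set ℕ) : IsOpen {X : Cantor | B X ≠ W} ∧ Dense {X : Cantor | B X ≠ W} := by
  constructor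
  · have : {X : Cantor | B X ≠ W} = ⋃ y : ℕ, {X : Cantor | ¬ (y ∈ B X ↔ y ∈ W)} := by
      ext X
      simp only [mem_ofPred_eq, mem_iUnion, ne_eq, Set.ext_iff, not_forall]
    rw [this]
    refine isOpen_iUnion fun y => ?_
    by_cases hy : y ∈ W
    · simp only [hy, iff_true]
      exact (isClopen_B y).compl.isOpen
    · simp only [hy, iff_false, not_not]
      exact (isClopen_B y).isOpen
  · apply dense_of_flip
    intro X m
    by_cases h : B X = W
    · refine ⟨flip X (m + 1), flip_mem_cyl X (by omega), ?_⟩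
      intro h'
      have h1 := B_flip X (2 * m)
      rw [show 2 * m / 2 = m by omega, h', ← h] at h1
      tauto
    · exact ⟨X, self_mem_cyl X m, h⟩

/-- A sufficiently generic sequence. -/
lemma exists_generic : ∃ X : Cantor,
    (∀ W, CE2 W → ∀ x, X ∈ off (E W x) ∧ X ∈ off (F W x)) ∧
    (∀ W W', CE2 W → CE2 W' → X ∈ off (N W W')) ∧
    (∀ W, CE1 W → A X ≠ W ∧ B X ≠ W) := by
  have c1 : Countable {W : Set ℕ // CE1 W} := (countable_CE (α := ℕ)).to_subtype
  have c2 : Countable {W : Set (ℕ × ℕ) // CE2 W} := (countable_CE (α := ℕ × ℕ)).to_subtype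
  let S : ({W : Set (ℕ × ℕ) // CE2 W} × ℕ) ⊕ ({W : Set (ℕ × ℕ) // CE2 W} × ℕ) ⊕
      ({W : Set (ℕ × ℕ) // CE2 W} × {W : Set (ℕ × ℕ) // CE2 W}) ⊕ {W : Set ℕ // CE1 W} ⊕
      {W : Set ℕ // CE1 W} → Set Cantor := fun i => match i with
    | .inl p => off (E p.1.1 p.2)
    | .inr (.inl p) => off (F p.1.1 p.2)
    | .inr (.inr (.inl p)) => off (N p.1.1 p.2.1)
    | .inr (.inr (.inr (.inl W))) => {X | A X ≠ W.1}
    | .inr (.inr (.inr (.inr W))) => {X | B X ≠ W.1}
  have hS : Dense (⋂ i, S i) := by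
    apply dense_iInter_of_isOpen
    · rintro (p | p | p | W | W)
      · exact isOpen_off (isOpen_E _ _)
      · exact isOpen_off (isOpen_F _ _)
      · exact isOpen_off (isOpen_N _ _)
      · exact (neA_open_dense _).1
      · exact (neB_open_dense _).1
    · rintro (p | p | p | W | W)
      · exact dense_off _
      · exact dense_off _
      · exact dense_off _
      · exact (neA_open_dense _).2
      · exact (neB_open_dense _).2
  obtain ⟨X, hX⟩ := hS.nonempty
  rw [mem_iInter] at hX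
  refine ⟨X, fun W hW x => ⟨hX (.inl (⟨W, hW⟩, x)), hX (.inr (.inl (⟨W, hW⟩, x)))⟩,
    fun W W' hW hW' => hX (.inr (.inr (.inl (⟨W, hW⟩, ⟨W', hW'⟩)))),
    fun W hW => ⟨hX (.inr (.inr (.inr (.inl ⟨W, hW⟩)))), hX (.inr (.inr (.inr (.inr ⟨W, hW⟩))))⟩⟩

/-- The main combinatorial step. -/
lemma main_step {X : Cantor} {W W' : Set (ℕ × ℕ)}
    (hE : ∀ x, X ∈ off (E W x)) (hF : ∀ x, X ∈ off (F W' x)) (hN : X ∈ off (N W W'))
    (hC : ∀ x, X ∈ E W x ↔ X ∈ F W' x) :
    ∃ s, ∀ x, X ∈ E W x ↔ ∃ y, (x, y) ∈ W ∧ (y / 2 < s → y ∈ A X) := by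
  -- disagreement does not occur near X
  have hXN : X ∉ N W W' := by
    intro h
    obtain ⟨x, hx⟩ := mem_iUnion.1 h
    exact interior_subset hx (hC x)
  have h1 : X ∈ (closure (N W W'))ᶜ := hN.resolve_left hXN
  obtain ⟨s, hs⟩ := exists_cyl isClosed_closure.isOpen_compl h1
  have hs' : ∀ X' ∈ cyl X s, ∀ x, X' ∉ interior {X | ¬ (X ∈ E W x ↔ X ∈ F W' x)} := by
    intro X' hX' x hx
    exact hs hX' (subset_closure (mem_iUnion.2 ⟨x, hx⟩))
  refine ⟨s + 4, fun x => ⟨?_, ?_⟩⟩
  · rintro ⟨y, hy1, hy2⟩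
    exact ⟨y, hy2, fun _ => hy1⟩
  · rintro ⟨y, hyW, hys⟩
    by_contra hXE
    have hXF : X ∉ F W' x := fun h => hXE ((hC x).2 h)
    -- literals are bounded
    obtain ⟨m, hm⟩ := exists_cyl isClosed_closure.isOpen_compl ((hE x).resolve_left hXE)
    obtain ⟨m', hm'⟩ := exists_cyl isClosed_closure.isOpen_compl ((hF x).resolve_left hXF)
    have bE : ∀ y, (x, y) ∈ W → y / 2 < m := by
      intro y hy
      by_contra hlt
      have h2 : flip X (y / 2) ∈ cyl X m := flip_mem_cyl X (not_lt.1 hlt)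
      exact hm h2 (subset_closure ⟨y, (A_flip X y).2 (fun h => hXE ⟨y, h, hy⟩), hy⟩)
    have bF : ∀ y, (x, y) ∈ W' → y / 2 < m' := by
      intro y hy
      by_contra hlt
      have h2 : flip X (y / 2 + 1) ∈ cyl X m' := flip_mem_cyl X (by omega)
      exact hm' h2 (subset_closure ⟨y, (B_flip X y).2 (fun h => hXF ⟨y, h, hy⟩), hy⟩)
    -- hence the complements are open
    have oE : IsOpen (E W x)ᶜ := by
      have : (E W x)ᶜ = ⋂ y ∈ Finset.range (2 * m), {X' : Cantor | (x, y) ∈ W → y ∉ A X'} := by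
        ext X'
        simp only [E, mem_compl_iff, mem_ofPred_eq, mem_iInter, Finset.mem_range, not_exists,
          not_and]
        constructor
        · intro h y _ hy hyA; exact h y hyA hy
        · intro h y hyA hy; exact h y (by have := bE y hy; omega) hy hyA
      rw [this]
      apply isOpen_biInter_finset
      intro y _
      by_cases hy : (x, y) ∈ W
      · simp only [hy, forall_const]
        exact (isClopen_A y).compl.isOpen
      · simp only [hy, false_imp_iff]
        exact isOpen_univ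
    have oF : IsOpen (F W' x)ᶜ := by
      have : (F W' x)ᶜ = ⋂ y ∈ Finset.range (2 * m'), {X' : Cantor | (x, y) ∈ W' → y ∉ B X'} := by
        ext X'
        simp only [F, mem_compl_iff, mem_ofPred_eq, mem_iInter, Finset.mem_range, not_exists,
          not_and]
        constructor
        · intro h y _ hy hyA; exact h y hyA hy
        · intro h y hyA hy; exact h y (by have := bF y hy; omega) hy hyA
      rw [this]
      apply isOpen_biInter_finset
      intro y _
      by_cases hy : (x, y) ∈ W'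
      · simp only [hy, forall_const]
        exact (isClopen_B y).compl.isOpen
      · simp only [hy, false_imp_iff]
        exact isOpen_univ
    -- on the cylinder the two closed sets agree
    have agree : ∀ X' ∈ cyl X s, X' ∈ E W x ↔ X' ∈ F W' x := by
      intro X' hX'
      by_contra hne
      apply hs' X' hX' x
      by_cases h2 : X' ∈ E W x
      · have h3 : X' ∉ F W' x := fun h => hne ⟨fun _ => h, fun _ => h2⟩
        rw [mem_interior]
        exact ⟨E W x ∩ (F W' x)ᶜ, fun X'' h h' => h.2 (h'.1 h.1),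
          (isOpen_E W x).inter oF, h2, h3⟩
      · have h3 : X' ∈ F W' x := by
          by_contra h3
          exact hne ⟨fun h => absurd h h2, fun h => absurd h h3⟩
        rw [mem_interior]
        exact ⟨(E W x)ᶜ ∩ F W' x, fun X'' h h' => h.1 (h'.2 h.2),
          oE.inter (isOpen_F W' x), h2, h3⟩
    -- flipping bits outside the used literals stays in the complement
    have fE : ∀ X' : Cantor, (∀ y, (x, y) ∈ W → X' (y / 2) = X (y / 2)) → X' ∉ E W x := by
      rintro X' h ⟨y, hyA, hy⟩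
      apply hXE
      refine ⟨y, ?_, hy⟩
      simp only [A, mem_ofPred_eq] at hyA ⊢
      rw [← h y hy]; exact hyA
    have fF : ∀ X' : Cantor, (∀ y, (x, y) ∈ W' → Z X' (y / 2) = Z X (y / 2)) → X' ∉ F W' x := by
      rintro X' h ⟨y, hyA, hy⟩
      apply hXF
      refine ⟨y, ?_, hy⟩
      simp only [B, mem_ofPred_eq] at hyA ⊢
      rw [← h y hy]; exact hyA
    -- propagation
    have prop : ∀ y, (x, y) ∈ W → s + 2 ≤ y / 2 → ∃ y', (x, y') ∈ W ∧ y / 2 < y' / 2 := by
      intro y hy hys
      -- q with y/2 ∈ {2q+1, 2q+2}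
      obtain ⟨q, hq⟩ : ∃ q, y / 2 = 2 * q + 1 ∨ y / 2 = 2 * q + 2 := ⟨(y / 2 - 1) / 2, by omega⟩
      -- 2q+3 must be used by W'
      have hj : ∃ z, (x, z) ∈ W' ∧ z / 2 = 2 * q + 3 := by
        by_contra hno
        push Not at hno
        have h2 : flip3 X q ∉ F W' x := fF _ fun z hz => Z_flip3 X q _ (hno z hz)
        have h3 : flip3 X q ∈ cyl X s := by
          intro i hi
          simp only [flip3]
          rw [if_neg (by omega)]
        apply h2
        rw [← agree _ h3]
        refine ⟨y, ?_, hy⟩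
        have h4 : y ∉ A X := fun h => hXE ⟨y, h, hy⟩
        simp only [A, mem_ofPred_eq, flip3] at h4 ⊢
        rw [if_pos (by omega)]
        revert h4
        cases X (y / 2) <;> cases (y % 2 == 1) <;> simp
      obtain ⟨z, hz, hzq⟩ := hj
      by_contra hno
      push Not at hno
      have h2 : flip X (2 * q + 4) ∉ E W x := fE _ fun y' hy' => by
        apply flip_ne
        have := hno y' hy'
        omega
      have h3 : flip X (2 * q + 4) ∈ cyl X s := flip_mem_cyl X (by omega)
      apply h2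
      rw [agree _ h3]
      refine ⟨z, ?_, hz⟩
      have := (B_flip X z).2 (fun h => hXF ⟨z, h, hz⟩)
      rwa [hzq] at this
    have climb : ∀ n, ∃ y', (x, y') ∈ W ∧ s + 4 + n ≤ y' / 2 := by
      intro n
      induction n with
      | zero =>
        refine ⟨y, hyW, ?_⟩
        by_contra hlt
        exact hXE ⟨y, hys (by omega), hyW⟩
      | succ n ih =>
        obtain ⟨y', h2, h3⟩ := ih
        obtain ⟨y'', h4, h5⟩ := prop y' h2 (by omega)
        exact ⟨y'', h4, by omega⟩
    obtain ⟨y', h2, h3⟩ := climb m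
    have := bE y' h2
    omega

end Pool.Agent.H6.SPair
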