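import Pool.Agent.H6.SPair

set_option autoImplicit false

/-! Watson's question: the computability part. -/

namespace Pool.Agent.H6.SPair

open Nat.Partrec

/-- Domains of searches over a computable predicate are computably enumerable. -/
lemma ce_search {α : Type} [Primcodable α] (p : α × ℕ → Bool) (hp : Computable p) :
    ∃ f : α →. ℕ, Partrec f ∧ ∀ a : α, (f a).Dom ↔ ∃ n, p (a, n) = true := by
  refine ⟨fun a => Nat.rfind (fun n => Part.some (p (a, n))), ?_, ?_⟩
  · exact Partrec.rfind (hp.partrec.to₂)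
  · intro a
    refine Nat.rfind_dom.trans ?_
    constructor
    · rintro ⟨n, hn, _⟩
      exact ⟨n, hn.2⟩
    · rintro ⟨n, hn⟩
      exact ⟨n, ⟨trivial, hn⟩, fun {m} _ => trivial⟩

/-- The bits of the code `c`. -/
def mk (r : ℕ) (x c : ℕ) : List ℕ :=
  if x / 2 % 2 = r then [2 * (x / 2) + c % 2, 2 * (x / 2 + 1) + c / 2 % 2]
  else [2 * (x / 2) + c % 2, 2 * (x / 2 + 1) + c / 2 % 2, 2 * (x / 2 + 2) + c / 4 % 2]

def par (r : ℕ) (x c : ℕ) : ℕ :=
  if x / 2 % 2 = r then (c % 2 + c / 2 % 2) % 2 else (c % 2 + c / 2 % 2 + c / 4 % 2) % 2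

def WW (r : ℕ) : Set (ℕ × List ℕ) := {p | ∃ c, p.2 = mk r p.1 c ∧ par r p.1 c = p.1 % 2}

lemma prim_aux (r : ℕ) :
    Primrec (fun p : (ℕ × List ℕ) × ℕ => mk r p.1.1 p.2) ∧
    Primrec (fun p : (ℕ × List ℕ) × ℕ => par r p.1.1 p.2) := by
  have hx : Primrec (fun p : (ℕ × List ℕ) × ℕ => p.1.1) := Primrec.fst.comp Primrec.fst
  have hc : Primrec (fun p : (ℕ × List ℕ) × ℕ => p.2) := Primrec.snd
  have hi : Primrec (fun p : (ℕ × List ℕ) × ℕ => p.1.1 / 2) :=
    Primrec.nat_div.comp hx (Primrec.const 2)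
  have hi1 : Primrec (fun p : (ℕ × List ℕ) × ℕ => p.1.1 / 2 + 1) :=
    Primrec.nat_add.comp hi (Primrec.const 1)
  have hi2 : Primrec (fun p : (ℕ × List ℕ) × ℕ => p.1.1 / 2 + 2) :=
    Primrec.nat_add.comp hi (Primrec.const 2)
  have b0 : Primrec (fun p : (ℕ × List ℕ) × ℕ => p.2 % 2) :=
    Primrec.nat_mod.comp hc (Primrec.const 2)
  have b1 : Primrec (fun p : (ℕ × List ℕ) × ℕ => p.2 / 2 % 2) :=
    Primrec.nat_mod.comp (Primrec.nat_div.comp hc (Primrec.const 2)) (Primrec.const 2)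
  have b2 : Primrec (fun p : (ℕ × List ℕ) × ℕ => p.2 / 4 % 2) :=
    Primrec.nat_mod.comp (Primrec.nat_div.comp hc (Primrec.const 4)) (Primrec.const 2)
  have e0 : Primrec (fun p : (ℕ × List ℕ) × ℕ => 2 * (p.1.1 / 2) + p.2 % 2) :=
    Primrec.nat_add.comp (Primrec.nat_mul.comp (Primrec.const 2) hi) b0
  have e1 : Primrec (fun p : (ℕ × List ℕ) × ℕ => 2 * (p.1.1 / 2 + 1) + p.2 / 2 % 2) :=
    Primrec.nat_add.comp (Primrec.nat_mul.comp (Primrec.const 2) hi1) b1
  have e2 : Primrec (fun p : (ℕ × List ℕ) × ℕ => 2 * (p.1.1 / 2 + 2) + p.2 / 4 % 2) :=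
    Primrec.nat_add.comp (Primrec.nat_mul.comp (Primrec.const 2) hi2) b2
  have hcond : PrimrecPred (fun p : (ℕ × List ℕ) × ℕ => p.1.1 / 2 % 2 = r) :=
    Primrec.eq.comp (Primrec.nat_mod.comp hi (Primrec.const 2)) (Primrec.const r)
  have nil : Primrec (fun _ : (ℕ × List ℕ) × ℕ => ([] : List ℕ)) := Primrec.const []
  constructor
  · exact Primrec.ite hcond (Primrec.list_cons.comp e0 (Primrec.list_cons.comp e1 nil))
      (Primrec.list_cons.comp e0 (Primrec.list_cons.comp e1 (Primrec.list_cons.comp e2 nil)))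
  · exact Primrec.ite hcond (Primrec.nat_mod.comp (Primrec.nat_add.comp b0 b1) (Primrec.const 2))
      (Primrec.nat_mod.comp (Primrec.nat_add.comp (Primrec.nat_add.comp b0 b1) b2)
        (Primrec.const 2))

lemma WW_ce (r : ℕ) : ∃ f : ℕ × List ℕ →. ℕ, Partrec f ∧
    ∀ p : ℕ × List ℕ, (f p).Dom ↔ p ∈ WW r := by
  obtain ⟨h1, h2⟩ := prim_aux r
  have hx : Primrec (fun p : (ℕ × List ℕ) × ℕ => p.1.1) := Primrec.fst.comp Primrec.fst
  have hl : Primrec (fun p : (ℕ × List ℕ) × ℕ => p.1.2) := Primrec.snd.comp Primrec.fst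
  have hq : PrimrecPred (fun p : (ℕ × List ℕ) × ℕ =>
      p.1.2 = mk r p.1.1 p.2 ∧ par r p.1.1 p.2 = p.1.1 % 2) :=
    (Primrec.eq.comp hl h1).and (Primrec.eq.comp h2
      (Primrec.nat_mod.comp hx (Primrec.const 2)))
  obtain ⟨f, hf1, hf2⟩ := ce_search _ hq.decide.to_comp
  refine ⟨f, hf1, fun p => ?_⟩
  rw [hf2]
  simp [WW]

/-- Projections of c.e. sets along computable restrictions. -/
lemma ce_proj {W : Set (ℕ × ℕ)} (hW : CE2 W) (g : ℕ → Bool) (hg : Computable g) :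
    CE1 {x | ∃ y, (x, y) ∈ W ∧ g y = true} := by
  obtain ⟨f, hf, hfW⟩ := hW
  obtain ⟨c, hc⟩ := Code.exists_code.1 hf
  have hdom : ∀ p : ℕ × ℕ, p ∈ W ↔ ∃ k, (c.evaln k (Encodable.encode p)).isSome = true := by
    intro p
    rw [← hfW p]
    have h1 : (f p).Dom ↔ (c.eval (Encodable.encode p)).Dom := by
      rw [hc]
      simp only [Encodable.encodek, Part.coe_some, Part.bind_some, Part.map_Dom]
    rw [h1, Part.dom_iff_mem]
    constructor
    · rintro ⟨y, hy⟩
      obtain ⟨k, hk⟩ := Code.evaln_complete.1 hy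
      exact ⟨k, by rw [Option.isSome_iff_exists]; exact ⟨y, hk⟩⟩
    · rintro ⟨k, hk⟩
      rw [Option.isSome_iff_exists] at hk
      obtain ⟨y, hy⟩ := hk
      exact ⟨y, Code.evaln_complete.2 ⟨k, hy⟩⟩
  let p : ℕ × ℕ → Bool := fun q =>
    (c.evaln q.2.unpair.2 (Encodable.encode (q.1, q.2.unpair.1))).isSome && g q.2.unpair.1
  have hu : Primrec (fun q : ℕ × ℕ => q.2.unpair) := Primrec.unpair.comp Primrec.snd
  have hu1 : Primrec (fun q : ℕ × ℕ => q.2.unpair.1) := Primrec.fst.comp hu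
  have hu2 : Primrec (fun q : ℕ × ℕ => q.2.unpair.2) := Primrec.snd.comp hu
  have hp : Computable p := by
    have h1 : Primrec (fun q : ℕ × ℕ =>
        c.evaln q.2.unpair.2 (Encodable.encode (q.1, q.2.unpair.1))) :=
      Code.primrec_evaln.comp (Primrec.pair (Primrec.pair hu2 (Primrec.const c))
        (Primrec.encode.comp (Primrec.pair Primrec.fst hu1)))
    have h2 : Computable (fun q : ℕ × ℕ =>
        (c.evaln q.2.unpair.2 (Encodable.encode (q.1, q.2.unpair.1))).isSome) :=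
      (Primrec.option_isSome.comp h1).to_comp
    exact (Primrec.and.to_comp).comp h2 (hg.comp hu1.to_comp)
  obtain ⟨f', hf1, hf2⟩ := ce_search p hp
  refine ⟨f', hf1, fun x => ?_⟩
  rw [hf2]
  simp only [Set.mem_ofPred_eq, p, Bool.and_eq_true]
  constructor
  · rintro ⟨n, h1, h2⟩
    exact ⟨n.unpair.1, (hdom _).2 ⟨_, h1⟩, h2⟩
  · rintro ⟨y, h1, h2⟩
    obtain ⟨k, hk⟩ := (hdom _).1 h1
    exact ⟨Nat.pair y k, by simpa using hk, by simpa using h2⟩

lemma ce_restrict {W : Set (ℕ × ℕ)} (hW : CE2 W) (s : ℕ) (S : Set ℕ) :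
    CE1 {x | ∃ y, (x, y) ∈ W ∧ (y / 2 < s → y ∈ S)} := by
  classical
  let L : List Bool := (List.range (2 * s)).map (fun y => decide (y ∈ S))
  have hg : Computable (fun y : ℕ => L.getD y true) :=
    ((Primrec.list_getD true).comp (Primrec.const L) Primrec.id).to_comp
  have := ce_proj hW _ hg
  convert this using 5 with x y
  simp only [L, List.getD_eq_getElem?_getD]
  by_cases hy : y < 2 * s
  · have h2 : y / 2 < s := by omega
    simp [hy, h2]
  · have h2 : ¬ y / 2 < s := by omega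
    simp [hy, h2]

lemma bool_lit (u : Bool) : ∃ c : ℕ, c < 2 ∧ u = (c % 2 == 1) := by
  cases u
  · exact ⟨0, by norm_num, rfl⟩
  · exact ⟨1, by norm_num, rfl⟩

/-- Recovering a bit from two or three bits of the other sequence. -/
lemma recover (U V : ℕ → Bool) (r : ℕ)
    (h : ∀ i, U i = if i % 2 = r then xor (V i) (V (i + 1))
      else xor (V i) (xor (V (i + 1)) (V (i + 2)))) (x : ℕ) :
    U (x / 2) = (x % 2 == 1) ↔ ∃ l : List ℕ, (x, l) ∈ WW r ∧ ∀ y ∈ l, V (y / 2) = (y % 2 == 1) := by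
  have key : ∀ c : ℕ, ((c % 2 = 0) ∨ (c % 2 = 1)) := fun c => by omega
  constructor
  · intro hx
    obtain ⟨c0, hc0, h0⟩ := bool_lit (V (x / 2))
    obtain ⟨c1, hc1, h1⟩ := bool_lit (V (x / 2 + 1))
    obtain ⟨c2, hc2, h2⟩ := bool_lit (V (x / 2 + 2))
    refine ⟨mk r x (c0 + 2 * c1 + 4 * c2), ⟨c0 + 2 * c1 + 4 * c2, rfl, ?_⟩, ?_⟩
    · rw [h (x / 2)] at hx
      simp only [par]
      split_ifs at hx ⊢ with hr
      · rw [h0, h1] at hx
        have e0 : (c0 + 2 * c1 + 4 * c2) % 2 = c0 := by omega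
        have e1 : (c0 + 2 * c1 + 4 * c2) / 2 % 2 = c1 := by omega
        rw [e0, e1]
        clear h0 h1 h2 h e0 e1
        interval_cases c0 <;> interval_cases c1 <;> rcases key x with hx2 | hx2 <;>
          simp_all
      · rw [h0, h1, h2] at hx
        have e0 : (c0 + 2 * c1 + 4 * c2) % 2 = c0 := by omega
        have e1 : (c0 + 2 * c1 + 4 * c2) / 2 % 2 = c1 := by omega
        have e2 : (c0 + 2 * c1 + 4 * c2) / 4 % 2 = c2 := by omega
        rw [e0, e1, e2]
        clear h0 h1 h2 h e0 e1 e2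
        interval_cases c0 <;> interval_cases c1 <;> interval_cases c2 <;>
          rcases key x with hx2 | hx2 <;> simp_all
    · intro y hy
      simp only [mk] at hy
      have d0 : ∀ i c : ℕ, c < 2 → (2 * i + c) / 2 = i := fun i c hc => by omega
      have d1 : ∀ i c : ℕ, c < 2 → (2 * i + c) % 2 = c % 2 := fun i c hc => by omega
      have e0 : (c0 + 2 * c1 + 4 * c2) % 2 = c0 := by omega
      have e1 : (c0 + 2 * c1 + 4 * c2) / 2 % 2 = c1 := by omega
      have e2 : (c0 + 2 * c1 + 4 * c2) / 4 % 2 = c2 := by omega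
      rw [e0, e1, e2] at hy
      split_ifs at hy with hr
      · simp only [List.mem_cons, List.not_mem_nil, or_false] at hy
        rcases hy with rfl | rfl
        · rw [d0 _ _ hc0, d1 _ _ hc0]; exact h0
        · rw [d0 _ _ hc1, d1 _ _ hc1]; exact h1
      · simp only [List.mem_cons, List.not_mem_nil, or_false] at hy
        rcases hy with rfl | rfl | rfl
        · rw [d0 _ _ hc0, d1 _ _ hc0]; exact h0
        · rw [d0 _ _ hc1, d1 _ _ hc1]; exact h1
        · rw [d0 _ _ hc2, d1 _ _ hc2]; exact h2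
  · rintro ⟨l, ⟨c, hl, hp⟩, hV⟩
    simp only at hl hp
    subst hl
    have d0 : ∀ i c : ℕ, (2 * i + c % 2) / 2 = i := fun i c => by omega
    have d1 : ∀ i c : ℕ, (2 * i + c % 2) % 2 = c % 2 := fun i c => by omega
    rw [h (x / 2)]
    simp only [mk, par] at hV hp
    split_ifs at hV hp ⊢ with hr
    · have h0 := hV (2 * (x / 2) + c % 2) (by simp)
      have h1 := hV (2 * (x / 2 + 1) + c / 2 % 2) (by simp)
      rw [d0, d1] at h0 h1
      rw [h0, h1]
      rcases key c with k0 | k0 <;> rcases key (c / 2) with k1 | k1 <;>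
        rcases key x with kx | kx <;> simp_all
    · have h0 := hV (2 * (x / 2) + c % 2) (by simp)
      have h1 := hV (2 * (x / 2 + 1) + c / 2 % 2) (by simp)
      have h2 := hV (2 * (x / 2 + 2) + c / 4 % 2) (by simp)
      rw [d0, d1] at h0 h1 h2
      rw [h0, h1, h2]
      rcases key c with k0 | k0 <;> rcases key (c / 2) with k1 | k1 <;>
        rcases key (c / 4) with k2 | k2 <;>
        rcases key x with kx | kx <;> simp_all

end Pool.Agent.H6.SPair
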