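import Mathlib

set_option autoImplicit false

namespace Pool.Agent.H6.Splitting

open Finsupp

variable {F : Type} [Field F]

/-- First summand. -/
def V1 (F : Type) [Field F] : Submodule F (ℕ →₀ F) where
  carrier := {x | x 0 = 0 ∧ ∀ j, x (2 * (j + 1)) = x (2 * j) + x (2 * j + 1)}
  zero_mem' := by simp
  add_mem' := by
    rintro x y ⟨h1, h2⟩ ⟨h3, h4⟩
    refine ⟨by simp [h1, h3], fun j => ?_⟩
    simp only [Finsupp.add_apply, h2 j, h4 j]
    ring
  smul_mem' := by
    rintro c x ⟨h1, h2⟩
    refine ⟨by simp [h1], fun j => ?_⟩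
    simp only [Finsupp.smul_apply, h2 j, smul_eq_mul]
    ring

/-- Second summand. -/
def V2 (F : Type) [Field F] : Submodule F (ℕ →₀ F) where
  carrier := {x | ∀ j, x (2 * j) + x (2 * j + 1) = 0}
  zero_mem' := by simp
  add_mem' := by
    intro x y h1 h2 j
    have h3 := h1 j
    have h4 := h2 j
    simp only [Finsupp.add_apply]
    linear_combination h3 + h4
  smul_mem' := by
    intro c x h1 j
    have h3 := h1 j
    simp only [Finsupp.smul_apply, smul_eq_mul]
    linear_combination c * h3

theorem mem_V1 {x : ℕ →₀ F} :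
    x ∈ V1 F ↔ (x 0 = 0 ∧ ∀ j, x (2 * (j + 1)) = x (2 * j) + x (2 * j + 1)) := Iff.rfl

theorem mem_V2 {x : ℕ →₀ F} : x ∈ V2 F ↔ ∀ j, x (2 * j) + x (2 * j + 1) = 0 := Iff.rfl

/-- The standard basis as a set of vectors. -/
def stdB (F : Type) [Field F] : Set (ℕ →₀ F) := Set.range (fun n : ℕ => single n (1 : F))

theorem disj : V1 F ⊓ V2 F = ⊥ := by
  rw [eq_bot_iff]
  rintro x ⟨⟨h0, h1⟩, h2⟩
  rw [Submodule.mem_bot]
  have he : ∀ j, x (2 * j) = 0 := by
    intro j
    induction j with
    | zero => exact h0
    | succ j _ => rw [h1 j]; exact h2 j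
  ext n
  rcases Nat.even_or_odd' n with ⟨j, rfl | rfl⟩
  · exact he j
  · have := h2 j
    rw [he j, zero_add] at this
    exact this

theorem wmem (j : ℕ) (a : F) : single (2 * j) a - single (2 * j + 1) a ∈ V2 F := by
  intro k
  simp only [Finsupp.sub_apply, single_apply]
  by_cases h : j = k
  · subst h
    rw [if_pos rfl, if_neg (by omega), if_neg (by omega), if_pos rfl]
    ring
  · rw [if_neg (by omega), if_neg (by omega), if_neg (by omega), if_neg (by omega)]
    ring

theorem vmem (j : ℕ) (a : F) :
    single (2 * (j + 1)) a + single (2 * j + 1) a - single (2 * (j + 1) + 1) a ∈ V1 F := by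
  constructor
  · simp only [Finsupp.sub_apply, Finsupp.add_apply, single_apply]
    rw [if_neg (by omega), if_neg (by omega), if_neg (by omega)]
    ring
  · intro k
    simp only [Finsupp.sub_apply, Finsupp.add_apply, single_apply]
    by_cases h : k = j
    · subst h
      rw [if_pos rfl, if_neg (by omega), if_neg (by omega), if_neg (by omega), if_neg (by omega),
        if_neg (by omega), if_neg (by omega), if_pos (by omega), if_neg (by omega)]
      ring
    · by_cases h' : k = j + 1
      · subst h'
        rw [if_neg (by omega), if_neg (by omega), if_neg (by omega), if_pos (by omega),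
          if_neg (by omega), if_neg (by omega), if_neg (by omega), if_neg (by omega),
          if_pos (by omega)]
        ring
      · rw [if_neg (by omega), if_neg (by omega), if_neg (by omega), if_neg (by omega),
          if_neg (by omega), if_neg (by omega), if_neg (by omega), if_neg (by omega),
          if_neg (by omega)]
        ring

theorem single_odd (j : ℕ) (a : F) : single (2 * j + 1) a ∈ V1 F ⊔ V2 F := by
  have h1 := vmem (F := F) j a
  have h2 := wmem (F := F) (j + 1) a
  have h3 : single (2 * j + 1) a =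
      (single (2 * (j + 1)) a + single (2 * j + 1) a - single (2 * (j + 1) + 1) a)
        - (single (2 * (j + 1)) a - single (2 * (j + 1) + 1) a) := by abel
  rw [h3]
  exact Submodule.sub_mem _ (Submodule.mem_sup_left h1) (Submodule.mem_sup_right h2)

theorem single_even (j : ℕ) (a : F) : single (2 * j) a ∈ V1 F ⊔ V2 F := by
  have h2 := wmem (F := F) j a
  have h3 : single (2 * j) a =
      (single (2 * j) a - single (2 * j + 1) a) + single (2 * j + 1) a := by abel
  rw [h3]
  exact Submodule.add_mem _ (Submodule.mem_sup_right h2) (single_odd j a)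

theorem codisj : V1 F ⊔ V2 F = ⊤ := by
  rw [eq_top_iff]
  intro x _
  induction x using Finsupp.induction_linear with
  | zero => exact Submodule.zero_mem _
  | add f g hf hg => exact Submodule.add_mem _ (hf trivial) (hg trivial)
  | single n a =>
    rcases Nat.even_or_odd' n with ⟨j, rfl | rfl⟩
    · exact single_even j a
    · exact single_odd j a

theorem isCompl : IsCompl (V1 F) (V2 F) :=
  ⟨disjoint_iff.2 disj, codisjoint_iff.2 codisj⟩

open Classical in
/-- Pairs of coefficients of the obstructing functional. -/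
noncomputable def pr (S : Set (ℕ →₀ F)) : ℕ → F × F
  | 0 => if single 0 (1 : F) ∈ S then (1, 0) else (0, 1)
  | (j + 1) => if single (2 * (j + 1)) (1 : F) ∈ S then (-(pr S j).2, 0) else (0, (pr S j).2)

theorem pr_sum (S : Set (ℕ →₀ F)) : (pr S 0).1 + (pr S 0).2 = 1 := by
  rw [pr]
  split_ifs <;> simp

theorem pr_succ (S : Set (ℕ →₀ F)) (j : ℕ) :
    (pr S (j + 1)).2 - (pr S (j + 1)).1 = (pr S j).2 := by
  rw [pr]
  split_ifs <;> simp

theorem pr_even (S : Set (ℕ →₀ F)) (j : ℕ) (h : single (2 * j) (1 : F) ∉ S) : (pr S j).1 = 0 := by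
  cases j with
  | zero => rw [pr, if_neg (by simpa using h)]
  | succ j => rw [pr, if_neg h]

theorem pr_odd (S : Set (ℕ →₀ F)) (j : ℕ) (h : single (2 * j) (1 : F) ∈ S) : (pr S j).2 = 0 := by
  cases j with
  | zero => rw [pr, if_pos (by simpa using h)]
  | succ j => rw [pr, if_pos h]

/-- Coefficients of the obstructing functional. -/
noncomputable def coef (S : Set (ℕ →₀ F)) (n : ℕ) : F :=
  if n % 2 = 0 then (pr S (n / 2)).1 else (pr S (n / 2)).2

theorem coef_even (S : Set (ℕ →₀ F)) (j : ℕ) : coef S (2 * j) = (pr S j).1 := by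
  rw [coef, if_pos (by omega)]
  congr 2
  omega

theorem coef_odd (S : Set (ℕ →₀ F)) (j : ℕ) : coef S (2 * j + 1) = (pr S j).2 := by
  rw [coef, if_neg (by omega)]
  congr 2
  omega

/-- The obstructing functional. -/
noncomputable def phi (S : Set (ℕ →₀ F)) : (ℕ →₀ F) →ₗ[F] F :=
  Finsupp.lsum F (fun n => LinearMap.toSpanSingleton F F (coef S n))

theorem phi_single (S : Set (ℕ →₀ F)) (n : ℕ) (a : F) : phi S (single n a) = a * coef S n := by
  simp [phi]

theorem phi_eq_sum (S : Set (ℕ →₀ F)) (x : ℕ →₀ F) (N : ℕ) (hN : ∀ n, N ≤ n → x n = 0) :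
    phi S x = ∑ n ∈ Finset.range N, x n * coef S n := by
  have hx : x = ∑ n ∈ Finset.range N, single n (x n) := by
    ext k
    rw [Finsupp.finset_sum_apply]
    by_cases hk : k < N
    · rw [Finset.sum_eq_single_of_mem k (Finset.mem_range.2 hk)]
      · simp
      · intro b _ hb
        rw [single_apply, if_neg hb]
    · rw [hN k (not_lt.1 hk)]
      symm
      apply Finset.sum_eq_zero
      intro b hb
      rw [single_apply, if_neg]
      rintro rfl
      exact hk (Finset.mem_range.1 hb)
  conv_lhs => rw [hx]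
  rw [map_sum]
  exact Finset.sum_congr rfl fun n _ => phi_single S n (x n)

theorem phi_V1 (S : Set (ℕ →₀ F)) (x : ℕ →₀ F) (hx : x ∈ V1 F) : phi S x = 0 := by
  obtain ⟨h0, h1⟩ := hx
  obtain ⟨M, hM⟩ : ∃ M, ∀ n, M ≤ n → x n = 0 := by
    refine ⟨(x.support.sup id) + 1, fun n hn => ?_⟩
    by_contra hne
    have : n ≤ x.support.sup id := Finset.le_sup (f := id) (Finsupp.mem_support_iff.2 hne)
    omega
  have key : ∀ N, ∑ n ∈ Finset.range (2 * (N + 1)), x n * coef S n =
      x (2 * (N + 1)) * coef S (2 * N + 1) := by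
    intro N
    induction N with
    | zero =>
      have h2 := h1 0
      simp only [mul_zero, zero_add, mul_one] at h2
      simp [Finset.sum_range_succ, h2, h0]
    | succ N ih =>
      have e : 2 * (N + 1 + 1) = 2 * (N + 1) + 1 + 1 := by ring
      rw [e, Finset.sum_range_succ, Finset.sum_range_succ, ih]
      have h2 := h1 (N + 1)
      have e' : 2 * (N + 1) + 1 + 1 = 2 * (N + 1 + 1) := by ring
      rw [e', h2, coef_odd, coef_even, coef_odd]
      have h3 := pr_succ S N
      linear_combination (-x (2 * (N + 1))) * h3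
  rw [phi_eq_sum S x (2 * (M + 1)) (fun n hn => hM n (by omega)), key M,
    hM (2 * (M + 1)) (by omega), zero_mul]

theorem no_splitting (B₁ B₂ : Set (ℕ →₀ F)) (hU : B₁ ∪ B₂ = stdB F) (hD : Disjoint B₁ B₂)
    (h1 : IsCompl (V1 F) (Submodule.span F B₁)) (h2 : IsCompl (V2 F) (Submodule.span F B₂)) :
    False := by
  have hcov : ∀ j, single (2 * j) (1 : F) ∉ B₂ → single (2 * j + 1) (1 : F) ∈ B₂ := by
    intro j hj
    by_contra hj'
    -- the functional x (2j) + x (2j+1) kills V2 and B₂
    let P : (ℕ →₀ F) →ₗ[F] F := Finsupp.lapply (2 * j) + Finsupp.lapply (2 * j + 1)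
    have hP : ∀ x, P x = x (2 * j) + x (2 * j + 1) := fun x => rfl
    have hle : (V2 F) ⊔ Submodule.span F B₂ ≤ LinearMap.ker P := by
      refine sup_le ?_ ?_
      · intro x hx
        rw [LinearMap.mem_ker, hP]
        exact hx j
      · rw [Submodule.span_le]
        intro b hb
        have hb' : b ∈ stdB F := by rw [← hU]; exact Or.inr hb
        obtain ⟨n, rfl⟩ := hb'
        show P (single n 1) = 0
        rw [hP, single_apply, single_apply]
        have hn1 : n ≠ 2 * j := by rintro rfl; exact hj hb
        have hn2 : n ≠ 2 * j + 1 := by rintro rfl; exact hj' hb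
        rw [if_neg hn1, if_neg hn2, add_zero]
    rw [h2.sup_eq_top] at hle
    have h3 : (single (2 * j) (1 : F)) ∈ LinearMap.ker P := hle trivial
    rw [LinearMap.mem_ker, hP, single_apply, single_apply, if_pos rfl, if_neg (by omega)] at h3
    simp at h3
  have hphi : (V1 F) ⊔ Submodule.span F B₁ ≤ LinearMap.ker (phi B₂) := by
    refine sup_le ?_ ?_
    · intro x hx
      exact phi_V1 B₂ x hx
    · rw [Submodule.span_le]
      intro b hb
      have hb' : b ∈ stdB F := by rw [← hU]; exact Or.inl hb
      have hb2 : b ∉ B₂ := fun h => (Set.disjoint_left.1 hD) hb h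
      obtain ⟨n, rfl⟩ := hb'
      show phi B₂ (single n 1) = 0
      rw [phi_single, one_mul]
      rcases Nat.even_or_odd' n with ⟨j, rfl | rfl⟩
      · rw [coef_even]
        exact pr_even B₂ j hb2
      · rw [coef_odd]
        apply pr_odd
        by_contra h
        exact hb2 (hcov j h)
  rw [h1.sup_eq_top] at hphi
  have e0 : phi B₂ (single 0 (1 : F)) = 0 := hphi trivial
  have e1 : phi B₂ (single 1 (1 : F)) = 0 := hphi trivial
  rw [phi_single, one_mul] at e0 e1
  have e2 : coef B₂ 0 = (pr B₂ 0).1 := coef_even B₂ 0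
  have e3 : coef B₂ 1 = (pr B₂ 0).2 := coef_odd B₂ 0
  have e4 := pr_sum B₂
  rw [← e2, ← e3, e0, e1, add_zero] at e4
  exact zero_ne_one e4

theorem stdB_indep : LinearIndependent F ((↑) : stdB F → (ℕ →₀ F)) := by
  have h : LinearIndependent F (fun n : ℕ => single n (1 : F)) := by
    have := (Finsupp.basisSingleOne (R := F) (ι := ℕ)).linearIndependent
    simpa using this
  exact h.linearIndepOn_id

theorem stdB_span : Submodule.span F (stdB F) = ⊤ := by
  have := (Finsupp.basisSingleOne (R := F) (ι := ℕ)).span_eq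
  simpa [stdB] using this

end Pool.Agent.H6.Splitting
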